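import Pool.Agent.Lib_helper23.BG.Defs
set_option autoImplicit false

namespace Pool.Agent.BG4

open Finset Filter Pool.Agent.BG
open scoped Classical

/-- `log x!` as a sum over primes -/
theorem MER_log_factorial (x : ℕ) : Real.log (x.factorial : ℝ) =
    ∑ p ∈ (Icc 1 x).filter Nat.Prime, (x.factorial.factorization p : ℝ) * Real.log p := by
  have h1 : x.factorial = ∏ p ∈ (Icc 1 x).filter Nat.Prime, p ^ x.factorial.factorization p := by
    conv_lhs => rw [← Nat.prod_factorization_pow_eq_self (Nat.factorial_ne_zero x)]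
    rw [Finsupp.prod]
    apply Finset.prod_subset
    · intro p hp
      rw [Nat.support_factorization, Nat.mem_primeFactors] at hp
      rw [mem_filter, mem_Icc]
      exact ⟨⟨hp.1.one_le, (hp.1.dvd_factorial).mp hp.2.1⟩, hp.1⟩
    · intro p _ hp
      rw [Finsupp.notMem_support_iff] at hp
      rw [hp, pow_zero]
  conv_lhs => rw [h1]
  push_cast
  rw [Real.log_prod]
  · apply sum_congr rfl
    intro p _
    rw [Real.log_pow]
  · intro p hp
    have hpp := (mem_filter.mp hp).2
    exact pow_ne_zero _ (by exact_mod_cast hpp.ne_zero)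

theorem MER_val_lower (x p : ℕ) (hp : p.Prime) :
    (x : ℝ) / p - 1 ≤ (x.factorial.factorization p : ℝ) := by
  have h1 : x / p ≤ x.factorial.factorization p := by
    have h2 : p ^ (x / p) ∣ x.factorial := by
      have h3 : (p * (x / p)).factorial ∣ x.factorial :=
        Nat.factorial_dvd_factorial (Nat.mul_div_le x p)
      refine dvd_trans ?_ h3
      have h4 : ∀ m : ℕ, p ^ m ∣ (p * m).factorial := by
        intro m
        induction m with
        | zero => simp
        | succ m ih =>
          have h5 : p * (m + 1) = p * m + p := by ring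
          rw [h5, pow_succ]
          exact (Nat.mul_dvd_mul ih (Nat.dvd_factorial hp.pos le_rfl)).trans
            (Nat.factorial_mul_factorial_dvd_factorial_add _ _)
      exact h4 _
    exact (hp.pow_dvd_iff_le_factorization (Nat.factorial_ne_zero x)).mp h2
  have h2 : (x : ℝ) / p < ((x / p : ℕ) : ℝ) + 1 := by
    have hp0 : (0 : ℝ) < p := by exact_mod_cast hp.pos
    rw [div_lt_iff₀ hp0]
    have h3 : x < (x / p + 1) * p := by
      have := Nat.lt_div_mul_add (a := x) hp.pos
      have h4 : (x / p + 1) * p = x / p * p + p := by ring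
      omega
    exact_mod_cast h3
  have h3 : ((x / p : ℕ) : ℝ) ≤ (x.factorial.factorization p : ℝ) := by exact_mod_cast h1
  linarith

theorem MER_val_upper (x p : ℕ) (hp : p.Prime) :
    (x.factorial.factorization p : ℝ) ≤ (x : ℝ) / (p - 1) := by
  have h1 : (p - 1) * x.factorial.factorization p ≤ x := by
    rw [Nat.sub_one_mul_factorization_factorial hp]
    exact Nat.sub_le _ _
  have hp1 : (0 : ℝ) < (p : ℝ) - 1 := by
    have : (2 : ℝ) ≤ p := by exact_mod_cast hp.two_le
    linarith
  rw [le_div_iff₀ hp1]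
  have h2 : (((p - 1) * x.factorial.factorization p : ℕ) : ℝ) ≤ x := by exact_mod_cast h1
  rw [Nat.cast_mul, Nat.cast_sub hp.one_le, Nat.cast_one] at h2
  linarith

theorem MER_log_le (n : ℕ) (hn : 2 ≤ n) :
    Real.log n * (1 / ((n : ℝ) - 1) - 1 / n) ≤ 4 * (1 / (n : ℝ) ^ (3 / 2 : ℝ)) := by
  have hn2 : (2 : ℝ) ≤ n := by exact_mod_cast hn
  have hn0 : (0 : ℝ) < n := by linarith
  have h1 : Real.log n ≤ 2 * Real.sqrt n := by
    have h2 := Real.log_le_sub_one_of_pos (Real.sqrt_pos.mpr hn0)
    rw [Real.log_sqrt hn0.le] at h2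
    linarith
  have h2 : 1 / ((n : ℝ) - 1) - 1 / n ≤ 2 / (n : ℝ) ^ 2 := by
    have h3 : (0 : ℝ) < (n : ℝ) - 1 := by linarith
    rw [div_sub_div _ _ h3.ne' hn0.ne', div_le_div_iff₀ (by positivity) (by positivity)]
    nlinarith
  have h3 : 0 ≤ 1 / ((n : ℝ) - 1) - 1 / n := by
    rw [sub_nonneg]
    exact one_div_le_one_div_of_le (by linarith) (by linarith)
  have h4 : (n : ℝ) ^ (3 / 2 : ℝ) * Real.sqrt n = (n : ℝ) ^ 2 := by
    rw [Real.sqrt_eq_rpow, ← Real.rpow_add hn0]
    norm_num
  have h5 : 0 < (n : ℝ) ^ (3 / 2 : ℝ) := Real.rpow_pos_of_pos hn0 _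
  calc Real.log n * (1 / ((n : ℝ) - 1) - 1 / n)
      ≤ (2 * Real.sqrt n) * (2 / (n : ℝ) ^ 2) :=
        mul_le_mul h1 h2 h3 (by positivity)
    _ = 4 * (1 / (n : ℝ) ^ (3 / 2 : ℝ)) := by
        rw [← h4]
        have h6 : 0 < Real.sqrt n := Real.sqrt_pos.mpr hn0
        field_simp
        norm_num

/-- Mertens' first theorem -/
theorem mertens_one : ∃ C : ℝ, ∀ x : ℕ, 1 ≤ x →
    |∑ p ∈ (Icc 1 x).filter Nat.Prime, Real.log p / p - Real.log x| ≤ C := by
  have hsum : Summable (fun n : ℕ => 1 / (n : ℝ) ^ (3 / 2 : ℝ)) :=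
    Real.summable_one_div_nat_rpow.mpr (by norm_num)
  set T := ∑' n : ℕ, 1 / (n : ℝ) ^ (3 / 2 : ℝ) with hT
  have hT0 : 0 ≤ T := tsum_nonneg (fun n => by positivity)
  have hlog4 : 0 ≤ Real.log 4 := Real.log_nonneg (by norm_num)
  refine ⟨Real.log 4 + 1 + 4 * T, ?_⟩
  intro x hx
  have hx0 : (0 : ℝ) < x := by exact_mod_cast hx
  set S := ∑ p ∈ (Icc 1 x).filter Nat.Prime, Real.log p / p with hS
  have hlogp : ∀ p ∈ (Icc 1 x).filter Nat.Prime, 0 ≤ Real.log (p : ℝ) := by
    intro p hp
    exact Real.log_nonneg (by exact_mod_cast (mem_filter.mp hp).2.one_le)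
  have hfac := MER_log_factorial x
  -- lower bound of the factorial
  have hlow : (x : ℝ) * Real.log x - x ≤ Real.log (x.factorial : ℝ) := by
    have h1 := Stirling.le_log_factorial_stirling (n := x) (by omega)
    have h2 : 0 ≤ Real.log x := Real.log_nonneg (by exact_mod_cast hx)
    have h3 : 0 ≤ Real.log (2 * Real.pi) := Real.log_nonneg (by nlinarith [Real.pi_gt_three])
    linarith
  have hup : Real.log (x.factorial : ℝ) ≤ x * Real.log x := by
    have h1 : ((x.factorial : ℕ) : ℝ) ≤ (x : ℝ) ^ x := by exact_mod_cast Nat.factorial_le_pow x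
    have h2 := Real.log_le_log (by exact_mod_cast Nat.factorial_pos x) h1
    rwa [Real.log_pow] at h2
  have htheta : ∑ p ∈ (Icc 1 x).filter Nat.Prime, Real.log (p : ℝ) ≤ Real.log 4 * x := by
    have h1 := Chebyshev.theta_le_log4_mul_x (x := (x : ℝ)) hx0.le
    rw [Chebyshev.theta_eq_sum_Icc, Nat.floor_natCast] at h1
    refine le_trans ?_ h1
    apply Finset.sum_le_sum_of_subset_of_nonneg
    · apply Finset.filter_subset_filter
      apply Finset.Icc_subset_Icc (by norm_num) le_rfl
    · intro p hp _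
      exact Real.log_nonneg (by exact_mod_cast (mem_filter.mp hp).2.one_le)
  -- upper bound of `S`
  have hA : (x : ℝ) * S ≤ x * Real.log x + Real.log 4 * x := by
    have h1 : (x : ℝ) * S - ∑ p ∈ (Icc 1 x).filter Nat.Prime, Real.log (p : ℝ) ≤
        Real.log (x.factorial : ℝ) := by
      rw [hfac, hS, mul_sum, ← Finset.sum_sub_distrib]
      apply sum_le_sum
      intro p hp
      have h2 := mul_le_mul_of_nonneg_right (MER_val_lower x p (mem_filter.mp hp).2) (hlogp p hp)
      calc (x : ℝ) * (Real.log p / p) - Real.log p = ((x : ℝ) / p - 1) * Real.log p := by ring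
        _ ≤ _ := h2
    linarith
  -- lower bound of `S`
  have hB : (x : ℝ) * Real.log x - x ≤ x * (S + 4 * T) := by
    refine hlow.trans ?_
    rw [hfac]
    calc ∑ p ∈ (Icc 1 x).filter Nat.Prime, (x.factorial.factorization p : ℝ) * Real.log p
        ≤ ∑ p ∈ (Icc 1 x).filter Nat.Prime, (x * (Real.log p / p) +
            x * (4 * (1 / (p : ℝ) ^ (3 / 2 : ℝ)))) := by
          apply sum_le_sum
          intro p hp
          have hpp := (mem_filter.mp hp).2
          have h2 := mul_le_mul_of_nonneg_right (MER_val_upper x p hpp) (hlogp p hp)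
          refine h2.trans ?_
          have h3 := mul_le_mul_of_nonneg_left (MER_log_le p hpp.two_le) hx0.le
          have h4 : (x : ℝ) / (p - 1) * Real.log p = x * (Real.log p / p) +
              x * (Real.log p * (1 / ((p : ℝ) - 1) - 1 / p)) := by ring
          rw [h4]
          linarith
      _ = x * S + x * (4 * ∑ p ∈ (Icc 1 x).filter Nat.Prime, (1 / (p : ℝ) ^ (3 / 2 : ℝ))) := by
          rw [Finset.sum_add_distrib, ← mul_sum, ← mul_sum, ← mul_sum]
      _ ≤ x * (S + 4 * T) := by
          have h5 : ∑ p ∈ (Icc 1 x).filter Nat.Prime, (1 / (p : ℝ) ^ (3 / 2 : ℝ)) ≤ T :=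
            hsum.sum_le_tsum _ (fun n _ => by positivity)
          nlinarith
  rw [abs_le]
  constructor
  · have h1 : Real.log x - 1 ≤ S + 4 * T := by
      have h2 : (x : ℝ) * (Real.log x - 1) ≤ x * (S + 4 * T) := by linarith
      exact le_of_mul_le_mul_left h2 hx0
    linarith
  · have h1 : S ≤ Real.log x + Real.log 4 := by
      have h2 : (x : ℝ) * S ≤ x * (Real.log x + Real.log 4) := by linarith
      exact le_of_mul_le_mul_left h2 hx0
    linarith

end Pool.Agent.BG4
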