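import Pool.Agent.Lib_helper23.BG4F.MER
set_option autoImplicit false

namespace Pool.Agent.BG4

open Finset Filter Pool.Agent.BG
open scoped Classical

/-- `∑_{p ≤ x} log p / p` -/
noncomputable def REC_A (x : ℕ) : ℝ := ∑ p ∈ (Icc 1 x).filter Nat.Prime, Real.log p / p

theorem REC_A_succ (b : ℕ) : REC_A (b + 1) = REC_A b +
    if (b + 1).Prime then Real.log ((b + 1 : ℕ) : ℝ) / ((b + 1 : ℕ) : ℝ) else 0 := by
  unfold REC_A
  rw [Finset.sum_filter, Finset.sum_filter, Finset.sum_Icc_succ_top (by omega)]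

theorem REC_sum_succ (a b : ℕ) (hab : a ≤ b) :
    ∑ p ∈ (Ioc a (b + 1)).filter Nat.Prime, 1 / (p : ℝ) =
      ∑ p ∈ (Ioc a b).filter Nat.Prime, 1 / (p : ℝ) +
        if (b + 1).Prime then 1 / ((b + 1 : ℕ) : ℝ) else 0 := by
  rw [Finset.sum_filter, Finset.sum_filter, Finset.sum_Ioc_succ_top hab]

theorem REC_ind (C : ℝ) (hC : ∀ x : ℕ, 1 ≤ x → |REC_A x - Real.log x| ≤ C) (a : ℕ) (ha : 2 ≤ a)
    (b : ℕ) (hab : a ≤ b) :
    |∑ p ∈ (Ioc a b).filter Nat.Prime, 1 / (p : ℝ)
      - (Real.log (Real.log b) - Real.log (Real.log a))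
      - (REC_A b - Real.log b) / Real.log b + (REC_A a - Real.log a) / Real.log a| ≤
      (C + 1) * (1 / Real.log a - 1 / Real.log b) := by
  induction b, hab using Nat.le_induction with
  | base => simp
  | succ b hab ih =>
    have hb2 : (2 : ℝ) ≤ b := by exact_mod_cast ha.trans hab
    have hu : 0 < Real.log (b : ℝ) := Real.log_pos (by linarith)
    have huv : Real.log (b : ℝ) < Real.log ((b + 1 : ℕ) : ℝ) := by
      apply Real.log_lt_log (by linarith)
      push_cast
      linarith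
    have hvu1 : Real.log ((b + 1 : ℕ) : ℝ) - Real.log (b : ℝ) ≤ 1 := by
      rw [← Real.log_div (by positivity) (by positivity)]
      refine (Real.log_le_sub_one_of_pos (by positivity)).trans ?_
      have h1 : ((b + 1 : ℕ) : ℝ) / b ≤ 2 := by
        rw [div_le_iff₀ (by linarith)]
        push_cast
        linarith
      linarith
    rw [REC_sum_succ a b hab]
    have hA := REC_A_succ b
    have hCb := hC b (by omega)
    set u := Real.log (b : ℝ) with hudef
    set v := Real.log ((b + 1 : ℕ) : ℝ) with hvdef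
    have hv : 0 < v := hu.trans huv
    -- the jump
    have hjump : (if (b + 1).Prime then 1 / ((b + 1 : ℕ) : ℝ) else 0) =
        (REC_A (b + 1) - REC_A b) / v := by
      rw [hA]
      by_cases hp : (b + 1).Prime
      · rw [if_pos hp, if_pos hp]
        field_simp
        ring
      · rw [if_neg hp, if_neg hp]
        simp
    rw [hjump]
    have hlog1 : Real.log v - Real.log u ≤ v / u - 1 := by
      rw [← Real.log_div hv.ne' hu.ne']
      exact Real.log_le_sub_one_of_pos (by positivity)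
    have hlog2 : 1 - u / v ≤ Real.log v - Real.log u := by
      have h1 := Real.log_le_sub_one_of_pos (x := u / v) (by positivity)
      rw [Real.log_div hu.ne' hv.ne'] at h1
      linarith
    have hfd : 0 ≤ 1 / u - 1 / v := by
      rw [sub_nonneg]
      exact one_div_le_one_div_of_le hu huv.le
    set S := ∑ p ∈ (Ioc a b).filter Nat.Prime, 1 / (p : ℝ) with hS
    set X := S - (Real.log u - Real.log (Real.log a)) - (REC_A b - u) / u +
      (REC_A a - Real.log a) / Real.log a with hX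
    have key : S + (REC_A (b + 1) - REC_A b) / v - (Real.log v - Real.log (Real.log a)) -
        (REC_A (b + 1) - v) / v + (REC_A a - Real.log a) / Real.log a =
        X + ((1 - u / v) - (Real.log v - Real.log u)) + (REC_A b - u) * (1 / u - 1 / v) := by
      rw [hX]
      field_simp
      ring
    rw [key]
    have h1 : |(1 - u / v) - (Real.log v - Real.log u)| ≤ 1 / u - 1 / v := by
      rw [abs_le]
      constructor
      · have h2 : (v / u - 1) - (1 - u / v) ≤ 1 / u - 1 / v := by
          have h3 : (v / u - 1) - (1 - u / v) = (v - u) * ((v - u) * (1 / (u * v))) := by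
            field_simp
          have h4 : 1 / u - 1 / v = (v - u) * (1 / (u * v)) := by
            field_simp
          rw [h3, h4]
          have h5 : 0 ≤ (v - u) * (1 / (u * v)) := by
            apply mul_nonneg (by linarith) (by positivity)
          calc (v - u) * ((v - u) * (1 / (u * v))) ≤ 1 * ((v - u) * (1 / (u * v))) :=
                mul_le_mul_of_nonneg_right hvu1 h5
            _ = _ := one_mul _
        linarith
      · linarith
    have h2 : |(REC_A b - u) * (1 / u - 1 / v)| ≤ C * (1 / u - 1 / v) := by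
      rw [abs_mul, abs_of_nonneg hfd]
      exact mul_le_mul_of_nonneg_right hCb hfd
    calc |X + ((1 - u / v) - (Real.log v - Real.log u)) + (REC_A b - u) * (1 / u - 1 / v)|
        ≤ |X| + |(1 - u / v) - (Real.log v - Real.log u)| +
            |(REC_A b - u) * (1 / u - 1 / v)| := abs_add_three _ _ _
      _ ≤ (C + 1) * (1 / Real.log a - 1 / u) + (1 / u - 1 / v) + C * (1 / u - 1 / v) := by
          gcongr
      _ = (C + 1) * (1 / Real.log a - 1 / v) := by ring

theorem REC_abel (C : ℝ) (hC : ∀ x : ℕ, 1 ≤ x → |REC_A x - Real.log x| ≤ C) (a b : ℕ)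
    (ha : 2 ≤ a) (hab : a ≤ b) :
    |∑ p ∈ (Ioc a b).filter Nat.Prime, 1 / (p : ℝ)
      - (Real.log (Real.log b) - Real.log (Real.log a))| ≤ (2 * C + 1) / Real.log a := by
  have h := REC_ind C hC a ha b hab
  have ha2 : (2 : ℝ) ≤ a := by exact_mod_cast ha
  have hab' : (a : ℝ) ≤ b := by exact_mod_cast hab
  have hu : 0 < Real.log (a : ℝ) := Real.log_pos (by linarith)
  have huv : Real.log (a : ℝ) ≤ Real.log (b : ℝ) := Real.log_le_log (by linarith) hab'
  have hv : 0 < Real.log (b : ℝ) := hu.trans_le huv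
  have h1 : |(REC_A b - Real.log b) / Real.log b| ≤ C / Real.log b := by
    rw [abs_div, abs_of_pos hv]
    exact div_le_div_of_nonneg_right (hC b (by omega)) hv.le
  have h2 : |(REC_A a - Real.log a) / Real.log a| ≤ C / Real.log a := by
    rw [abs_div, abs_of_pos hu]
    exact div_le_div_of_nonneg_right (hC a (by omega)) hu.le
  rw [abs_le] at h h1 h2 ⊢
  have e1 : (2 * C + 1) / Real.log a = 2 * (C / Real.log a) + 1 / Real.log a := by ring
  have e2 : (C + 1) * (1 / Real.log a - 1 / Real.log b) =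
    C / Real.log a - C / Real.log b + 1 / Real.log a - 1 / Real.log b := by ring
  have h3 : 0 < 1 / Real.log (b : ℝ) := by positivity
  rw [e1]
  rw [e2] at h
  constructor <;> linarith [h.1, h.2, h1.1, h1.2, h2.1, h2.2]

theorem REC_floor (z : ℝ) (hz : 1 ≤ z) :
    Real.log z - Real.log 2 ≤ Real.log (⌊z⌋₊ : ℝ) ∧ Real.log (⌊z⌋₊ : ℝ) ≤ Real.log z := by
  have h1 : 1 ≤ ⌊z⌋₊ := (Nat.one_le_floor_iff z).mpr hz
  have h1' : (1 : ℝ) ≤ (⌊z⌋₊ : ℝ) := by exact_mod_cast h1
  have h2 : z < ⌊z⌋₊ + 1 := Nat.lt_floor_add_one z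
  constructor
  · rw [← Real.log_div (by linarith) (by norm_num)]
    apply Real.log_le_log (by linarith)
    linarith
  · exact Real.log_le_log (by linarith) (Nat.floor_le (by linarith))

theorem recip_window (c ε : ℝ) (hc : 0 < c) (hε : 0 < ε) : ∀ᶠ N : ℕ in atTop, ∀ y y' : ℝ, c ≤ y →
    y ≤ y' → y' ≤ 2 →
    |∑ p ∈ (Icc 1 (N ^ 2)).filter (fun p : ℕ => p.Prime ∧ (N : ℝ) ^ y < p ∧
        (p : ℝ) ≤ (N : ℝ) ^ y'), (1 / (p : ℝ)) - Real.log (y' / y)| ≤ ε := by
  obtain ⟨C₀, hC₀⟩ := mertens_one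
  set C := max C₀ 0 with hCdef
  have hC0 : 0 ≤ C := le_max_right _ _
  have hC : ∀ x : ℕ, 1 ≤ x → |REC_A x - Real.log x| ≤ C := fun x hx =>
    (hC₀ x hx).trans (le_max_left _ _)
  have hl2 : 0 < Real.log 2 := Real.log_pos (by norm_num)
  -- `N` large
  have hlim : Tendsto (fun N : ℕ => c * Real.log (N : ℝ)) atTop atTop :=
    (Real.tendsto_log_atTop.comp tendsto_natCast_atTop_atTop).const_mul_atTop hc
  filter_upwards [hlim.eventually_ge_atTop (2 * Real.log 2),
    hlim.eventually_ge_atTop (2 * ((2 * C + 1) / (ε / 2))),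
    hlim.eventually_ge_atTop (4 * Real.log 2 / (ε / 2)), eventually_ge_atTop 1]
    with N hN1 hN2 hN3 hN4
  intro y y' hy hyy' hy'
  have hN0 : (1 : ℝ) ≤ N := by exact_mod_cast hN4
  have hNpos : (0 : ℝ) < N := by linarith
  set L := Real.log (N : ℝ) with hL
  have hL0 : 0 < L := by
    by_contra h
    push Not at h
    have : c * L ≤ 0 := mul_nonpos_of_nonneg_of_nonpos hc.le h
    linarith
  have hy0 : 0 < y := by linarith
  have hy'0 : 0 < y' := by linarith
  have hcL : c * L ≤ y * L := mul_le_mul_of_nonneg_right hy hL0.le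
  have hcL' : y * L ≤ y' * L := mul_le_mul_of_nonneg_right hyy' hL0.le
  have hz1 : 1 ≤ (N : ℝ) ^ y := Real.one_le_rpow hN0 hy0.le
  have hz2 : 1 ≤ (N : ℝ) ^ y' := Real.one_le_rpow hN0 hy'0.le
  have hlz1 : Real.log ((N : ℝ) ^ y) = y * L := Real.log_rpow hNpos y
  have hlz2 : Real.log ((N : ℝ) ^ y') = y' * L := Real.log_rpow hNpos y'
  set a := ⌊(N : ℝ) ^ y⌋₊ with ha
  set b := ⌊(N : ℝ) ^ y'⌋₊ with hb
  obtain ⟨ha1, ha2⟩ := REC_floor _ hz1
  obtain ⟨hb1, hb2⟩ := REC_floor _ hz2
  rw [hlz1] at ha1 ha2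
  rw [hlz2] at hb1 hb2
  rw [← ha] at ha1 ha2
  rw [← hb] at hb1 hb2
  have hab : a ≤ b := Nat.floor_le_floor (Real.rpow_le_rpow_of_exponent_le hN0 hyy')
  have ha3 : 2 ≤ a := by
    rw [ha, Nat.le_floor_iff (by positivity)]
    have h1 : Real.log 2 ≤ Real.log ((N : ℝ) ^ y) := by rw [hlz1]; linarith
    have h2 := (Real.log_le_log_iff (by norm_num) (by positivity)).mp h1
    exact_mod_cast h2
  have hset : (Icc 1 (N ^ 2)).filter (fun p : ℕ => p.Prime ∧ (N : ℝ) ^ y < p ∧
        (p : ℝ) ≤ (N : ℝ) ^ y') = (Ioc a b).filter Nat.Prime := by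
    ext p
    rw [mem_filter, mem_Icc, mem_filter, mem_Ioc]
    constructor
    · rintro ⟨⟨h1, h2⟩, h3, h4, h5⟩
      refine ⟨⟨?_, ?_⟩, h3⟩
      · rw [ha, Nat.floor_lt (by positivity)]
        exact h4
      · rw [hb, Nat.le_floor_iff (by positivity)]
        exact h5
    · rintro ⟨⟨h1, h2⟩, h3⟩
      rw [ha, Nat.floor_lt (by positivity)] at h1
      rw [hb, Nat.le_floor_iff (by positivity)] at h2
      refine ⟨⟨h3.one_le, ?_⟩, h3, h1, h2⟩
      have h4 : (p : ℝ) ≤ (N : ℝ) ^ (2 : ℝ) :=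
        h2.trans (Real.rpow_le_rpow_of_exponent_le hN0 hy')
      have h5 : (N : ℝ) ^ (2 : ℝ) = ((N ^ 2 : ℕ) : ℝ) := by
        push_cast
        exact Real.rpow_natCast _ 2 |>.symm ▸ by norm_num
      rw [h5] at h4
      exact_mod_cast h4
  rw [hset]
  have hmain := REC_abel C hC a b ha3 hab
  have hla : c * L / 2 ≤ Real.log (a : ℝ) := by linarith
  have hla0 : 0 < Real.log (a : ℝ) := by
    have : 0 < c * L := mul_pos hc hL0
    linarith
  have hlb0 : 0 < Real.log (b : ℝ) := by
    have : 0 < c * L := mul_pos hc hL0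
    linarith
  have herr : (2 * C + 1) / Real.log a ≤ ε / 2 := by
    rw [div_le_iff₀ hla0]
    have h1 : (2 * C + 1) / (ε / 2) ≤ Real.log a := by linarith
    rw [div_le_iff₀ (by linarith)] at h1
    linarith
  -- comparison of the double logarithms
  have hdl : ∀ (w : ℝ) (n : ℕ), c ≤ w → w * L - Real.log 2 ≤ Real.log (n : ℝ) →
      Real.log (n : ℝ) ≤ w * L → |Real.log (Real.log n) - Real.log (w * L)| ≤ ε / 4 := by
    intro w n hw h1 h2
    have hw0 : 0 < w := by linarith
    have hcw : c * L ≤ w * L := mul_le_mul_of_nonneg_right hw hL0.le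
    have hn0 : 0 < Real.log (n : ℝ) := by
      have : 0 < c * L := mul_pos hc hL0
      linarith
    have hwL : 0 < w * L := mul_pos hw0 hL0
    have h3 : Real.log (Real.log n) ≤ Real.log (w * L) := Real.log_le_log hn0 h2
    have h4 : Real.log (w * L) - Real.log (Real.log n) ≤ ε / 4 := by
      rw [← Real.log_div hwL.ne' hn0.ne']
      refine (Real.log_le_sub_one_of_pos (by positivity)).trans ?_
      have h5 : w * L / Real.log n - 1 = (w * L - Real.log n) / Real.log n := by
        field_simp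
      rw [h5, div_le_iff₀ hn0]
      have h6 : 4 * Real.log 2 / (ε / 2) ≤ 2 * Real.log n := by linarith
      rw [div_le_iff₀ (by linarith)] at h6
      linarith
    rw [abs_le]
    constructor <;> linarith
  have hd1 := hdl y a hy ha1 ha2
  have hd2 := hdl y' b (hy.trans hyy') hb1 hb2
  have hlogq : Real.log (y' / y) = Real.log (y' * L) - Real.log (y * L) := by
    rw [Real.log_div hy'0.ne' hy0.ne', Real.log_mul hy'0.ne' hL0.ne',
      Real.log_mul hy0.ne' hL0.ne']
    ring
  rw [hlogq]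
  rw [abs_le] at hmain hd1 hd2 ⊢
  constructor <;> linarith [hmain.1, hmain.2, hd1.1, hd1.2, hd2.1, hd2.2]

end Pool.Agent.BG4
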