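import Pool.Agent.Lib_helper23.BG4F.SMAIN4
import Pool.Agent.Lib_helper23.BGF.CONG
import Pool.Agent.Lib_helper23.PG.R
/-! The four-bin property of the gaps between consecutive primes. -/

set_option autoImplicit false

namespace Pool.Agent.BG4

open Finset Filter Pool.Agent.BG
open scoped Classical

/-- the numerical contradiction -/
lemma HIT4_num (T S b δ : ℝ) (hS : 0 < S) (hδ : 0 < δ) (hδ1 : δ ≤ 1) (hb : 100 ≤ δ * b)
    (h1 : (1 - δ / 100) * b * S ≤ T)
    (h2 : T ^ 2 ≤ S * (T + (1 - δ) * b ^ 2 * S)) : False := by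
  have hb0 : 0 < b := by
    by_contra hcon
    push Not at hcon
    nlinarith
  have hb1 : 100 ≤ b := by nlinarith
  have hc : (99 / 100 : ℝ) ≤ 1 - δ / 100 := by linarith
  have hT : 0 < T := lt_of_lt_of_le (by positivity) h1
  have e1 : T * (T - S) ≤ (1 - δ) * b ^ 2 * S ^ 2 := by nlinarith
  set x : ℝ := (1 - δ / 100) * b with hx
  have hx0 : 0 < x := by positivity
  have hx1 : 99 ≤ x := by nlinarith
  have e2 : 0 ≤ T - S - (x - 1) * S := by nlinarith
  have e3 : (x * S) * ((x - 1) * S) ≤ T * (T - S) := by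
    apply mul_le_mul h1 (by linarith) _ hT.le
    exact mul_nonneg (by linarith) hS.le
  have e4 : (x * (x - 1)) * S ^ 2 ≤ ((1 - δ) * b ^ 2) * S ^ 2 := by
    calc _ = (x * S) * ((x - 1) * S) := by ring
      _ ≤ _ := e3.trans e1
  have e5 : x * (x - 1) ≤ (1 - δ) * b ^ 2 := le_of_mul_le_mul_right e4 (by positivity)
  rw [hx] at e5
  -- ((1-δ/100)^2 - (1-δ)) b^2 ≤ (1-δ/100) b ≤ b
  have e6 : (δ * (49 / 50)) * b ^ 2 ≤ b := by nlinarith [sq_nonneg (δ * b)]
  have e7 : (δ * b) * (49 / 50) * b ≤ b := by nlinarith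
  have e8 : (100 : ℝ) * (49 / 50) * b ≤ (δ * b) * (49 / 50) * b := by
    apply mul_le_mul_of_nonneg_right _ hb0.le
    linarith
  linarith

/-- the second moment argument -/
lemma HIT4_moment (k₀ : ℕ) (F : Finset ℕ) (pr : ℕ → Fin (4 * k₀) → Prop) (w : ℕ → ℝ)
    (hw : ∀ n, 0 ≤ w n) (S a δ : ℝ) (hS : 0 < S) (hδ : 0 < δ) (hδ1 : δ ≤ 1)
    (hb : 100 ≤ δ * (((4 * k₀ : ℕ) : ℝ) * a))
    (bin : Fin (4 * k₀) → Fin 4) (hbin : ∀ i, (univ.filter (fun l => bin l = i)).card = k₀)
    (h1 : ∑ n ∈ F, w n ≤ S)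
    (h2 : ∀ i, (1 - δ / 100) * a * S ≤ ∑ n ∈ F.filter (fun n => pr n i), w n)
    (h3 : ∀ i l, i ≠ l → ∑ n ∈ F.filter (fun n => pr n i ∧ pr n l), w n ≤
        4 * (1 - δ) * a ^ 2 * S) :
    ∃ n ∈ F, ∃ i l, bin i ≠ bin l ∧ pr n i ∧ pr n l := by
  by_contra hcon
  push Not at hcon
  set y : ℕ → ℝ := fun n => ∑ i, if pr n i then (1:ℝ) else 0 with hy
  set T := ∑ n ∈ F, w n * y n with hT
  have e1 : T = ∑ i, ∑ n ∈ F.filter (fun n => pr n i), w n := by
    rw [hT]
    simp only [hy, Finset.mul_sum]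
    rw [Finset.sum_comm]
    refine Finset.sum_congr rfl fun i _ => ?_
    rw [Finset.sum_filter]
    refine Finset.sum_congr rfl fun n _ => ?_
    split_ifs <;> simp
  have e2 : (1 - δ / 100) * (((4 * k₀ : ℕ) : ℝ) * a) * S ≤ T := by
    rw [e1]
    calc _ = ∑ i : Fin (4 * k₀), (1 - δ / 100) * a * S := by
          rw [Finset.sum_const, Finset.card_univ, Fintype.card_fin, nsmul_eq_mul]
          ring
      _ ≤ _ := Finset.sum_le_sum fun i _ => h2 i
  -- second moment
  have e3 : ∑ n ∈ F, w n * y n ^ 2 = ∑ n ∈ F, ∑ i, ∑ l, w n * (if pr n i ∧ pr n l then 1 else 0) := by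
    refine Finset.sum_congr rfl fun n _ => ?_
    rw [sq]
    simp only [hy]
    rw [Finset.sum_mul_sum, Finset.mul_sum]
    refine Finset.sum_congr rfl fun i _ => ?_
    rw [Finset.mul_sum]
    refine Finset.sum_congr rfl fun l _ => ?_
    by_cases hi : pr n i <;> by_cases hl : pr n l <;> simp [hi, hl]
  have e4 : ∑ n ∈ F, ∑ i, ∑ l, w n * (if pr n i ∧ pr n l then (1:ℝ) else 0) =
      ∑ i, ∑ l, ∑ n ∈ F, w n * (if pr n i ∧ pr n l then (1:ℝ) else 0) := by
    rw [Finset.sum_comm]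
    refine Finset.sum_congr rfl fun i _ => ?_
    rw [Finset.sum_comm]
  have hnn : 0 ≤ 4 * (1 - δ) * a ^ 2 * S := by
    have : 0 ≤ 1 - δ := by linarith
    positivity
  have e5 : ∀ i l, ∑ n ∈ F, w n * (if pr n i ∧ pr n l then (1:ℝ) else 0) ≤
      (if i = l then ∑ n ∈ F.filter (fun n => pr n i), w n else 0) +
        (if bin i = bin l then 4 * (1 - δ) * a ^ 2 * S else 0) := by
    intro i l
    by_cases hil : i = l
    · subst hil
      rw [if_pos rfl, if_pos rfl, Finset.sum_filter]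
      have : ∑ n ∈ F, w n * (if pr n i ∧ pr n i then (1:ℝ) else 0) =
          ∑ n ∈ F, if pr n i then w n else 0 := by
        refine Finset.sum_congr rfl fun n _ => ?_
        by_cases hi : pr n i <;> simp [hi]
      rw [this]
      linarith
    · rw [if_neg hil, zero_add]
      by_cases hb' : bin i = bin l
      · rw [if_pos hb']
        refine le_trans (le_of_eq ?_) (h3 i l hil)
        rw [Finset.sum_filter]
        refine Finset.sum_congr rfl fun n _ => ?_
        split_ifs <;> simp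
      · rw [if_neg hb']
        refine le_of_eq (Finset.sum_eq_zero fun n hn => ?_)
        rw [if_neg, mul_zero]
        rintro ⟨hi, hl⟩
        exact hcon n hn i l hb' hi hl
  have e6 : ∑ n ∈ F, w n * y n ^ 2 ≤ T + (1 - δ) * (((4 * k₀ : ℕ) : ℝ) * a) ^ 2 * S := by
    rw [e3, e4]
    calc _ ≤ ∑ i, ∑ l, ((if i = l then ∑ n ∈ F.filter (fun n => pr n i), w n else 0) +
        (if bin i = bin l then 4 * (1 - δ) * a ^ 2 * S else 0)) :=
          Finset.sum_le_sum fun i _ => Finset.sum_le_sum fun l _ => e5 i l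
      _ = T + ∑ i : Fin (4 * k₀), ∑ l : Fin (4 * k₀),
          (if bin i = bin l then 4 * (1 - δ) * a ^ 2 * S else 0) := by
          simp only [Finset.sum_add_distrib]
          congr 1
          rw [e1]
          refine Finset.sum_congr rfl fun i _ => ?_
          rw [Finset.sum_ite_eq]
          simp
      _ = T + (1 - δ) * (((4 * k₀ : ℕ) : ℝ) * a) ^ 2 * S := by
          congr 1
          have : ∀ i : Fin (4 * k₀), ∑ l : Fin (4 * k₀),
              (if bin i = bin l then 4 * (1 - δ) * a ^ 2 * S else 0) =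
              k₀ * (4 * (1 - δ) * a ^ 2 * S) := by
            intro i
            rw [← Finset.sum_filter, Finset.sum_const, nsmul_eq_mul]
            congr 2
            refine Eq.trans (congrArg Finset.card ?_) (hbin (bin i))
            ext l
            simp only [Finset.mem_filter, Finset.mem_univ, true_and]
            exact eq_comm
          rw [Finset.sum_congr rfl fun i _ => this i, Finset.sum_const, Finset.card_univ,
            Fintype.card_fin, nsmul_eq_mul]
          push_cast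
          ring
  have e7 : T ^ 2 ≤ (∑ n ∈ F, w n) * ∑ n ∈ F, w n * y n ^ 2 := by
    refine Finset.sum_sq_le_sum_mul_sum_of_sq_le_mul F (fun n _ => hw n)
      (fun n _ => mul_nonneg (hw n) (sq_nonneg _)) (fun n _ => le_of_eq (by ring))
  have e8 : 0 ≤ ∑ n ∈ F, w n * y n ^ 2 :=
    Finset.sum_nonneg fun n _ => mul_nonneg (hw n) (sq_nonneg _)
  exact HIT4_num T S (((4 * k₀ : ℕ) : ℝ) * a) δ hS hδ hδ1 hb e2
    (e7.trans ((mul_le_mul_of_nonneg_right h1 e8).trans (mul_le_mul_of_nonneg_left e6 hS.le)))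

theorem bins4 : ∃ k₀ : ℕ, 0 < k₀ ∧ Pool.Agent.Lib_helper23.PG.HitsBins 4 k₀
    {d : ℕ | {m : ℕ | Nat.nth Nat.Prime (m + 1) - Nat.nth Nat.Prime m = d}.Infinite} := by
  obtain ⟨k₀, δ, hk₀, hδ, hδ1, w₀, hmain⟩ := sieve_main4
  refine ⟨k₀, hk₀, fun H hcard hdisj hadm => ?_⟩
  set U := (univ : Finset (Fin 4)).biUnion H with hU
  obtain ⟨W, ν, hWsf, hW1, hW2, hW3, hW4⟩ := cong_device U hadm w₀
  have hHU : ∀ i, H i ⊆ U := fun i => Finset.subset_biUnion_of_mem H (Finset.mem_univ i)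
  -- enumeration
  set e : Fin (4 * k₀) → Fin 4 × Fin k₀ := fun x => finProdFinEquiv.symm x with he
  set h : Fin (4 * k₀) → ℕ := fun x => (H (e x).1).orderEmbOfFin (hcard _) (e x).2 with hh
  set bin : Fin (4 * k₀) → Fin 4 := fun x => (e x).1 with hbin
  have hmem : ∀ x, h x ∈ H (bin x) := fun x => Finset.orderEmbOfFin_mem _ _ _
  have hinj : Function.Injective h := by
    intro x x' hxx
    have h1 : bin x = bin x' := by
      by_contra hne
      have h2 := Finset.disjoint_left.1 (hdisj _ _ hne) (hmem x)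
      rw [hxx] at h2
      exact h2 (hmem x')
    have h3 : (e x).2 = (e x').2 := by
      have h4 : (H (e x).1).orderEmbOfFin (hcard _) (e x).2 =
          (H (e x').1).orderEmbOfFin (hcard _) (e x').2 := hxx
      have h5 : ∀ (i i' : Fin 4) (j j' : Fin k₀), i = i' →
          (H i).orderEmbOfFin (hcard i) j = (H i').orderEmbOfFin (hcard i') j' → j = j' := by
        intro i i' j j' hii hjj
        subst hii
        exact ((H i).orderEmbOfFin (hcard i)).injective hjj
      exact h5 _ _ _ _ h1 h4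
    exact finProdFinEquiv.symm.injective (Prod.ext h1 h3)
  have hbincard : ∀ i, (univ.filter (fun l => bin l = i)).card = k₀ := by
    intro i
    have : (univ.filter (fun l => bin l = i)) =
        (univ : Finset (Fin k₀)).image (fun j => finProdFinEquiv (i, j)) := by
      ext l
      simp only [Finset.mem_filter, Finset.mem_univ, true_and, Finset.mem_image]
      constructor
      · intro hl
        refine ⟨(e l).2, ?_⟩
        rw [← hl]
        exact finProdFinEquiv.apply_symm_apply l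
      · rintro ⟨j, rfl⟩
        show (finProdFinEquiv.symm (finProdFinEquiv (i, j))).1 = i
        rw [Equiv.symm_apply_apply]
    rw [this, Finset.card_image_of_injective]
    · simp
    · intro j j' hjj
      have := finProdFinEquiv.injective hjj
      exact (Prod.ext_iff.1 this).2
  have hsetup : Setup (4 * k₀) w₀ h W ν := by
    refine ⟨hinj, hWsf, hW1, ?_, ?_⟩
    · intro p hp i l hil hdiv
      exact hW2 p hp (h i) (hHU _ (hmem i)) (h l) (hHU _ (hmem l)) (fun hc => hil (hinj hc)) hdiv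
    · intro i
      exact hW3 (h i) (hHU _ (hmem i))
  have hWpos : 0 < W := Nat.pos_of_ne_zero hWsf.ne_zero
  -- infinitely many n
  set Bad : Set ℕ := {n | n ≡ ν [MOD W] ∧ W ≤ n ∧
    ∃ i l, bin i ≠ bin l ∧ (n + h i).Prime ∧ (n + h l).Prime} with hBad
  have hinf : Bad.Infinite := by
    rw [Set.infinite_iff_exists_gt]
    intro N₀
    have hfr := (hmain h W ν hsetup).and_eventually (eventually_ge_atTop (N₀ + W))
    obtain ⟨N, ⟨w, S, a, hw, hS, _, hb, h1, h2, h3⟩, hN⟩ := hfr.exists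
    obtain ⟨n, hn, i, l, hil, hi, hl⟩ := HIT4_moment k₀ (win N W ν) (fun n i => (n + h i).Prime) w hw
      S a δ hS hδ hδ1 hb bin hbincard h1 (fun i => by convert h2 i) (fun i l hil => by convert h3 i l hil)
    unfold win at hn
    rw [Finset.mem_filter, Finset.mem_Ioc] at hn
    exact ⟨n, ⟨hn.2, by omega, i, l, hil, hi, hl⟩, by omega⟩
  -- consecutive primes in different bins
  have hcons : ∀ n ∈ Bad, ∃ q : ℕ × ℕ, q ∈ U ×ˢ U ∧ (∃ i j, i ≠ j ∧ q.1 ∈ H i ∧ q.2 ∈ H j) ∧
      q.1 < q.2 ∧ Nat.nth Nat.Prime (Nat.count Nat.Prime (n + q.1)) = n + q.1 ∧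
      Nat.nth Nat.Prime (Nat.count Nat.Prime (n + q.1) + 1) = n + q.2 := by
    rintro n ⟨hn1, hn2, i, l, hil, hi, hl⟩
    have hbinU : ∀ t ∈ U, ∃ i, t ∈ H i := by
      intro t ht
      obtain ⟨i, _, hi⟩ := Finset.mem_biUnion.1 ht
      exact ⟨i, hi⟩
    choose! bn hbn using hbinU
    have hbnu : ∀ t i, t ∈ H i → bn t = i := by
      intro t i ht
      by_contra hne
      exact Finset.disjoint_left.1 (hdisj _ _ hne) (hbn t (hHU i ht)) ht
    set SS := U.filter (fun t => (n + t).Prime) with hSS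
    have hs1 : h i ∈ SS := Finset.mem_filter.2 ⟨hHU _ (hmem i), hi⟩
    have hs2 : h l ∈ SS := Finset.mem_filter.2 ⟨hHU _ (hmem l), hl⟩
    have hne : bn (h i) ≠ bn (h l) := by
      rw [hbnu _ _ (hmem i), hbnu _ _ (hmem l)]
      exact hil
    have hex : ∃ s ∈ SS, ∃ s' ∈ SS, s < s' ∧ bn s ≠ bn s' ∧ ∀ t ∈ SS, s < t → ¬ t < s' := by
      rcases lt_trichotomy (h i) (h l) with hlt | heq | hlt
      · exact AUX4_adjacent SS bn (h i) (h l) hs1 hs2 hlt hne
      · exact absurd (by rw [heq]) hne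
      · exact AUX4_adjacent SS bn (h l) (h i) hs2 hs1 hlt hne.symm
    obtain ⟨s, hs, s', hs', hlt, hbb, hno⟩ := hex
    have hsm := Finset.mem_filter.1 hs
    have hsm' := Finset.mem_filter.1 hs'
    have hcc := AUX4_consec (p := n + s) (p' := n + s') hsm.2 hsm'.2 (by omega) (by
      intro x hx1 hx2 hxp
      obtain ⟨t, rfl⟩ := Nat.exists_eq_add_of_le (show n ≤ x by omega)
      have htsup : t ≤ U.sup id := by
        have : s' ≤ U.sup id := Finset.le_sup (f := id) hsm'.1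
        omega
      by_cases htU : t ∈ U
      · exact hno t (Finset.mem_filter.2 ⟨htU, hxp⟩) (by omega) (by omega)
      · obtain ⟨p, hp, hpW, hpd⟩ := hW4 t htsup htU
        have h5 : n + t ≡ ν + t [MOD p] := (hn1.of_dvd hpW).add_right t
        have h6 : p ∣ n + t := (Nat.modEq_zero_iff_dvd).1
          (h5.trans ((Nat.modEq_zero_iff_dvd).2 hpd))
        have h7 := (Nat.prime_dvd_prime_iff_eq hp hxp).1 h6
        have h8 := Nat.le_of_dvd hWpos hpW
        omega)
    exact ⟨(s, s'), Finset.mem_product.2 ⟨hsm.1, hsm'.1⟩,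
      ⟨bn s, bn s', hbb, hbn s hsm.1, hbn s' hsm'.1⟩, hlt, hcc.1, hcc.2⟩
  choose! q hq1 hq2 hq3 hq4 hq5 using hcons
  -- pigeonhole
  obtain ⟨z, hz, hzinf⟩ : ∃ z ∈ (U ×ˢ U : Finset (ℕ × ℕ)), (Bad ∩ {n | q n = z}).Infinite := by
    by_contra hcon
    push Not at hcon
    have hfin : (⋃ z ∈ (U ×ˢ U : Finset (ℕ × ℕ)), (Bad ∩ {n | q n = z})).Finite := by
      refine Set.Finite.biUnion (Finset.finite_toSet _) fun z hz => ?_
      exact hcon z hz
    refine hinf (hfin.subset fun n hn => ?_)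
    simp only [Set.mem_iUnion]
    exact ⟨q n, hq1 n hn, hn, rfl⟩
  obtain ⟨n₀, hn₀, hn₀z⟩ := hzinf.nonempty
  obtain ⟨i, j, hij, hi, hj⟩ := hq2 n₀ hn₀
  have hlt := hq3 n₀ hn₀
  simp only [Set.mem_ofPred_eq] at hn₀z
  rw [hn₀z] at hi hj hlt
  refine ⟨i, j, hij, z.1, hi, z.2, hj, hlt, ?_⟩
  show {m : ℕ | Nat.nth Nat.Prime (m + 1) - Nat.nth Nat.Prime m = z.2 - z.1}.Infinite
  refine Set.infinite_of_injOn_mapsTo (f := fun n => Nat.count Nat.Prime (n + z.1)) ?_ ?_ hzinf
  · intro n hn n' hn' hnn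
    have h5 := hq4 n hn.1
    have h6 := hq4 n' hn'.1
    have h7 : q n = z := hn.2
    have h8 : q n' = z := hn'.2
    rw [h7] at h5
    rw [h8] at h6
    simp only at hnn
    rw [hnn, h6] at h5
    omega
  · intro n hn
    have h5 := hq4 n hn.1
    have h6 := hq5 n hn.1
    have h7 : q n = z := hn.2
    rw [h7] at h5 h6
    show Nat.nth Nat.Prime (Nat.count Nat.Prime (n + z.1) + 1) -
      Nat.nth Nat.Prime (Nat.count Nat.Prime (n + z.1)) = z.2 - z.1
    rw [h5, h6]
    omega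

theorem final (q : ℕ) (hq : 0 < q) (hq2 : Even q) (ε : ℝ) (hε : 0 < ε) :
    ∃ L : ℕ, ∀ n ≥ L, ∀ x : ℕ, (1 / (3 * (q : ℝ)) - ε) * n ≤
      (({d : ℕ | q ∣ d ∧ {m : ℕ | Nat.nth Nat.Prime (m + 1) - Nat.nth Nat.Prime m = d}.Infinite} ∩
        Set.Ioc x (x + n)).ncard : ℝ) := by
  obtain ⟨k, _, hk⟩ := bins4
  obtain ⟨L, hL⟩ := Pool.Agent.Lib_helper23.PG.bins_bound hk q hq hq2.two_dvd (1 / (3 * (q : ℝ)) - ε) (by linarith)
  refine ⟨L, fun n hn x => (hL n hn x).le.trans (le_of_eq ?_)⟩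
  unfold Pool.Agent.Lib_helper23.PG.wcount
  rw [Nat.cast_inj, ← Set.ncard_coe_finset]
  congr 1
  ext d
  simp only [Finset.coe_filter, Finset.mem_Ioc, Set.mem_inter_iff, Set.mem_setOf_eq, Set.mem_Ioc]
  tauto

end Pool.Agent.BG4
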