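import Pool.Agent.Lib_helper23.BGF.D2
/-! Auxiliary lemmas for the four bins theorem (taken from the five bins files). -/

set_option autoImplicit false

namespace Pool.Agent.BG4

open Finset Filter Pool.Agent.BG
open scoped Classical

lemma AUX4_setup {k w₀ w₁ : ℕ} {h : Fin k → ℕ} {W ν : ℕ} (hs : Setup k w₀ h W ν)
    (hw : w₁ ≤ w₀) : Setup k w₁ h W ν :=
  ⟨hs.1, hs.2.1, fun p hp hle => hs.2.2.1 p hp (hle.trans hw), hs.2.2.2.1, hs.2.2.2.2⟩

lemma AUX4_enum (W N : ℕ) : ∃ (M : ℕ) (P : Fin M → ℕ), Enum P W N := by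
  set A := (range (N + 1)).filter (fun p => p.Prime ∧ ¬ p ∣ W) with hA
  refine ⟨A.card, fun j => A.orderEmbOfFin rfl j, (A.orderEmbOfFin rfl).injective, ?_⟩
  intro p
  have hr : Set.range (A.orderEmbOfFin rfl) = ↑A := Finset.range_orderEmbOfFin A rfl
  constructor
  · rintro ⟨j, rfl⟩
    have h1 := Finset.orderEmbOfFin_mem A rfl j
    have h2 := Finset.mem_filter.1 h1
    have h3 := Finset.mem_range.1 h2.1
    exact ⟨h2.2.1, Nat.lt_succ_iff.1 h3, h2.2.2⟩
  · rintro ⟨hp, hle, hnd⟩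
    have h1 : p ∈ (A : Set ℕ) := by
      rw [Finset.mem_coe, hA, Finset.mem_filter, Finset.mem_range]
      exact ⟨by omega, hp, hnd⟩
    rw [← hr] at h1
    exact h1


lemma AUX4_consec {p p' : ℕ} (hp : p.Prime) (hp' : p'.Prime) (hlt : p < p')
    (hno : ∀ x, p < x → x < p' → ¬ x.Prime) :
    Nat.nth Nat.Prime (Nat.count Nat.Prime p) = p ∧
      Nat.nth Nat.Prime (Nat.count Nat.Prime p + 1) = p' := by
  refine ⟨Nat.nth_count hp, ?_⟩
  have h1 : Nat.count Nat.Prime p' = Nat.count Nat.Prime p + 1 := by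
    have h2 : Nat.count Nat.Prime (p + 1) = Nat.count Nat.Prime p + 1 := by
      rw [Nat.count_succ, if_pos hp]
    rw [← h2, Nat.count_eq_card_filter_range, Nat.count_eq_card_filter_range]
    congr 1
    ext x
    simp only [Finset.mem_filter, Finset.mem_range]
    constructor
    · rintro ⟨h3, h4⟩
      refine ⟨?_, h4⟩
      by_contra h5
      exact hno x (by omega) h3 h4
    · rintro ⟨h3, h4⟩
      exact ⟨by omega, h4⟩
  rw [← h1]
  exact Nat.nth_count hp'

/-- consecutive elements in different bins -/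
lemma AUX4_adjacent {ι : Type} (S : Finset ℕ) (bin : ℕ → ι) (t₁ t₂ : ℕ) (h₁ : t₁ ∈ S)
    (h₂ : t₂ ∈ S) (hlt : t₁ < t₂) (hb : bin t₁ ≠ bin t₂) :
    ∃ s ∈ S, ∃ s' ∈ S, s < s' ∧ bin s ≠ bin s' ∧ ∀ t ∈ S, s < t → ¬ t < s' := by
  set A := S.filter (fun t => t₁ < t ∧ bin t ≠ bin t₁) with hA
  have hAne : A.Nonempty := ⟨t₂, Finset.mem_filter.2 ⟨h₂, hlt, hb.symm⟩⟩
  obtain ⟨s', hs'A, hs'min⟩ := A.exists_min_image id hAne
  have hs' := Finset.mem_filter.1 hs'A
  set B := S.filter (fun t => t₁ ≤ t ∧ t < s') with hB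
  have hBne : B.Nonempty := ⟨t₁, Finset.mem_filter.2 ⟨h₁, le_refl _, hs'.2.1⟩⟩
  obtain ⟨s, hsB, hsmax⟩ := B.exists_max_image id hBne
  have hs := Finset.mem_filter.1 hsB
  refine ⟨s, hs.1, s', hs'.1, hs.2.2, ?_, ?_⟩
  · have h3 : bin s = bin t₁ := by
      by_contra h4
      rcases Nat.eq_or_lt_of_le hs.2.1 with h5 | h5
      · exact h4 (by rw [h5])
      · have := hs'min s (Finset.mem_filter.2 ⟨hs.1, h5, h4⟩)
        simp only [id] at this
        omega
    rw [h3]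
    exact fun h => hs'.2.2 h.symm
  · intro t ht hst hts
    have := hsmax t (Finset.mem_filter.2 ⟨ht, by omega, hts⟩)
    simp only [id] at this
    omega



end Pool.Agent.BG4
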