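import Pool.Agent.Lib_helper23.BG4F.MVT4
import Pool.Agent.Lib_helper23.BGF.BV
/-! Block BV4: Bombieri-Vinogradov with divisor weights for infinitely many `N`, level
`1/2 - θ` (helper37). -/

set_option autoImplicit false

namespace Pool.Agent.BG4

open Finset Filter Complex Pool.Agent.BG
open scoped ArithmeticFunction.vonMangoldt Classical

theorem BV4_cs (θ : ℝ) (hθ : 0 < θ) (hθ1 : θ ≤ 1 / 10) (N u A D : ℕ) (hN : 3 ≤ N) (hu : u ≤ 3 * N)
    (hlarge : 21 * 2 ^ (2 * D ^ 2) ≤ Real.log N)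
    (h : ∑ q ∈ sqf ((N : ℝ) ^ (1 / 2 - θ : ℝ)), Emax u q ≤
      N / Real.log N ^ (2 * A + 2 * D ^ 2 + 2)) :
    ∑ q ∈ sqf ((N : ℝ) ^ (1 / 2 - θ : ℝ)), (D : ℝ) ^ q.primeFactors.card * Emax u q ≤
      N / Real.log N ^ A := by
  set S := sqf ((N : ℝ) ^ (1 / 2 - θ : ℝ)) with hS
  have hN3 : (3 : ℝ) ≤ N := by exact_mod_cast hN
  have hl1 : 1 < Real.log N := by
    rw [Real.lt_log_iff_exp_lt (by linarith)]
    exact Real.exp_one_lt_three.trans_le hN3
  have hQ1 : 1 ≤ ⌊(N : ℝ) ^ (1 / 2 - θ : ℝ)⌋₊ := by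
    rw [Nat.one_le_floor_iff]
    exact Real.one_le_rpow (by linarith) (by linarith)
  have hQN : ⌊(N : ℝ) ^ (1 / 2 - θ : ℝ)⌋₊ ≤ N := by
    have : (N : ℝ) ^ (1 / 2 - θ : ℝ) ≤ (N : ℝ) ^ (1 : ℝ) :=
      Real.rpow_le_rpow_of_exponent_le (by linarith) (by linarith)
    rw [Real.rpow_one] at this
    exact (Nat.floor_le_floor this).trans (by rw [Nat.floor_natCast])
  have hcs := Finset.sum_mul_sq_le_sq_mul_sq S
    (fun q => (D : ℝ) ^ q.primeFactors.card * Real.sqrt (Emax u q))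
    (fun q => Real.sqrt (Emax u q))
  have e1 : ∀ q ∈ S, (D : ℝ) ^ q.primeFactors.card * Real.sqrt (Emax u q) *
      Real.sqrt (Emax u q) = (D : ℝ) ^ q.primeFactors.card * Emax u q := by
    intro q _
    rw [mul_assoc, Real.mul_self_sqrt (BVDPNT_Emax_nonneg u q)]
  have e2 : ∀ q ∈ S, ((D : ℝ) ^ q.primeFactors.card * Real.sqrt (Emax u q)) ^ 2 =
      ((D : ℝ) ^ 2) ^ q.primeFactors.card * Emax u q := by
    intro q _
    rw [mul_pow, Real.sq_sqrt (BVDPNT_Emax_nonneg u q), ← pow_mul, ← pow_mul, mul_comm 2]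
  have e3 : ∀ q ∈ S, (Real.sqrt (Emax u q)) ^ 2 = Emax u q := by
    intro q _
    rw [Real.sq_sqrt (BVDPNT_Emax_nonneg u q)]
  rw [Finset.sum_congr rfl e1, Finset.sum_congr rfl e2, Finset.sum_congr rfl e3] at hcs
  have hfirst : ∑ q ∈ S, ((D : ℝ) ^ 2) ^ q.primeFactors.card * Emax u q ≤
      7 * N * (3 * Real.log N) * (2 * Real.log N) ^ (2 * D ^ 2) := by
    calc ∑ q ∈ S, ((D : ℝ) ^ 2) ^ q.primeFactors.card * Emax u q
        ≤ ∑ q ∈ S, 7 * N * Real.log (3 * N + 1) *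
            (((2 * D ^ 2 : ℕ) : ℝ) ^ q.primeFactors.card / q) := by
          apply Finset.sum_le_sum
          intro q hq
          rw [hS] at hq
          unfold sqf at hq
          rw [mem_filter, mem_Icc] at hq
          have h1 := BVDPNT_Emax_triv' N u q hq.2 hu (hq.1.2.trans hQN)
          have h2 : ((D : ℝ) ^ 2) ^ q.primeFactors.card * Emax u q ≤
              ((D : ℝ) ^ 2) ^ q.primeFactors.card *
              (7 * N * Real.log (3 * N + 1) * ((2 : ℝ) ^ q.primeFactors.card / q)) :=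
            mul_le_mul_of_nonneg_left h1 (by positivity)
          refine h2.trans (le_of_eq ?_)
          push_cast
          rw [mul_pow]
          ring
      _ = 7 * N * Real.log (3 * N + 1) *
          ∑ q ∈ S, (((2 * D ^ 2 : ℕ) : ℝ) ^ q.primeFactors.card / q) := by
          rw [Finset.mul_sum]
      _ ≤ 7 * N * (3 * Real.log N) * (2 * Real.log N) ^ (2 * D ^ 2) := by
          have h1 := sums_pow_omega (2 * D ^ 2) ⌊(N : ℝ) ^ (1 / 2 - θ : ℝ)⌋₊ hQ1
          have h2 : Real.log (⌊(N : ℝ) ^ (1 / 2 - θ : ℝ)⌋₊ : ℝ) ≤ Real.log N :=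
            Real.log_le_log (by exact_mod_cast hQ1) (by exact_mod_cast hQN)
          have h3 : Real.log (3 * N + 1) ≤ 3 * Real.log N := by
            have : (3 : ℝ) * Real.log N = Real.log ((N : ℝ) ^ 3) := by
              rw [Real.log_pow]; norm_num
            rw [this]
            apply Real.log_le_log (by linarith)
            nlinarith [mul_self_nonneg ((N : ℝ) - 3), mul_nonneg (sub_nonneg.mpr hN3) (sub_nonneg.mpr hN3)]
          have h4 : (1 + Real.log (⌊(N : ℝ) ^ (1 / 2 - θ : ℝ)⌋₊ : ℝ)) ^ (2 * D ^ 2) ≤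
              (2 * Real.log N) ^ (2 * D ^ 2) := by
            apply pow_le_pow_left₀
            · have := Real.log_natCast_nonneg ⌊(N : ℝ) ^ (1 / 2 - θ : ℝ)⌋₊
              linarith
            · linarith
          have h5 : ∑ q ∈ S, (((2 * D ^ 2 : ℕ) : ℝ) ^ q.primeFactors.card / q) ≤
              (2 * Real.log N) ^ (2 * D ^ 2) := h1.trans h4
          apply mul_le_mul _ h5 (Finset.sum_nonneg (fun q _ => by positivity)) (by positivity)
          exact mul_le_mul_of_nonneg_left h3 (by positivity)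
  have hE0 : 0 ≤ ∑ q ∈ S, Emax u q := Finset.sum_nonneg (fun q _ => BVDPNT_Emax_nonneg u q)
  have hfin : (∑ q ∈ S, (D : ℝ) ^ q.primeFactors.card * Emax u q) ^ 2 ≤
      (N / Real.log N ^ A) ^ 2 := by
    refine hcs.trans ((mul_le_mul hfirst h hE0 (by positivity)).trans ?_)
    rw [div_pow, ← mul_div_assoc, div_le_div_iff₀ (by positivity) (by positivity)]
    rw [← pow_mul]
    have hl : (0 : ℝ) < Real.log N := by linarith
    have : 7 * (N : ℝ) * (3 * Real.log N) * (2 * Real.log N) ^ (2 * D ^ 2) * N *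
        Real.log N ^ (A * 2) = (N ^ 2 * Real.log N ^ (2 * A + 2 * D ^ 2 + 1)) *
          (21 * 2 ^ (2 * D ^ 2)) := by
      rw [mul_pow]
      ring
    rw [this]
    have h2 : (N : ℝ) ^ 2 * Real.log N ^ (2 * A + 2 * D ^ 2 + 2) =
        (N ^ 2 * Real.log N ^ (2 * A + 2 * D ^ 2 + 1)) * Real.log N := by
      ring
    rw [h2]
    exact mul_le_mul_of_nonneg_left hlarge (by positivity)
  exact (pow_le_pow_iff_left₀ (Finset.sum_nonneg (fun q _ =>
    mul_nonneg (by positivity) (BVDPNT_Emax_nonneg u q))) (by positivity) two_ne_zero).mp hfin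

theorem BV4_bv (θ : ℝ) (hθ : 0 < θ) (hθ1 : θ ≤ 1 / 10) (A : ℕ) : ∃ᶠ N : ℕ in atTop, ∀ u : ℕ, u ≤ 3 * N →
    ∑ q ∈ sqf ((N : ℝ) ^ (1 / 2 - θ : ℝ)), Emax u q ≤ N / Real.log N ^ A := by
  obtain ⟨C1, hC1, hE⟩ := Emax_le
  obtain ⟨C2, hC2, hG⟩ := cond_group
  obtain ⟨C3, hC3, K, hM⟩ : ∃ C3 : ℝ, 0 < C3 ∧ ∃ K : ℕ, ∃ δ : ℝ, (0 < δ ∧ δ ≤ θ) ∧
      ∀ N : ℕ, 3 ≤ N → ∀ u : ℕ, u ≤ 3 * N → ∀ R : ℕ, 1 ≤ R →
      (R : ℝ) ≤ (N : ℝ) ^ (1 / 2 - θ) →
        ∑ r ∈ Ioc R (2 * R), (1 / (r.totient : ℝ)) * ∑ χ ∈ Prm r, ‖psiC χ u‖ ≤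
          C3 * Real.log N ^ K * (N / R + (N : ℝ) ^ (1 - δ)) := by
    obtain ⟨C, hC, K, δ, hδ, h⟩ := mvt4 θ hθ hθ1
    refine ⟨C, hC, K, min δ θ, ⟨lt_min hδ hθ, min_le_right _ _⟩, ?_⟩
    intro N hN u hu R hR hRN
    refine (h N hN u hu R hR hRN).trans ?_
    have hl0 : 0 ≤ Real.log N := Real.log_natCast_nonneg N
    have hN1 : (1 : ℝ) ≤ N := by
      have : (3 : ℝ) ≤ N := by exact_mod_cast hN
      linarith
    apply mul_le_mul_of_nonneg_left _ (by positivity)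
    apply add_le_add le_rfl
    apply Real.rpow_le_rpow_of_exponent_le hN1
    have := min_le_left δ θ
    linarith
  obtain ⟨δ, ⟨hδ, hδθ⟩, hM⟩ := hM
  set B := K + A + 4 with hB
  set A' := A + B + 3 with hA'
  have hSW := SW A' B
  have hlog : Tendsto (fun N : ℕ => Real.log N) atTop atTop :=
    Real.tendsto_log_atTop.comp tendsto_natCast_atTop_atTop
  have ev1 : ∀ᶠ N : ℕ in atTop, 3 ≤ N := eventually_ge_atTop 3
  have ev2 : ∀ᶠ N : ℕ in atTop, 2 * (4 * C2 + 24 * C2 * C3) ≤ Real.log N :=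
    hlog.eventually_ge_atTop _
  set C4 := 12 * C2 * C3 + 8 * C2 + 15 * C1 with hC4
  have hC4p : 0 < C4 := by positivity
  have ev3 : ∀ᶠ N : ℕ in atTop, C4 * Real.log N ^ (K + 3 + A) ≤
      (N : ℝ) ^ (δ : ℝ) / 2 := by
    have h1 := isLittleO_log_rpow_rpow_atTop ((K + 3 + A : ℕ) : ℝ)
      (show (0 : ℝ) < δ from hδ)
    have h2 := h1.bound (show (0 : ℝ) < 1 / (2 * C4) by positivity)
    have h3 := (tendsto_natCast_atTop_atTop (R := ℝ)).eventually h2
    filter_upwards [h3, ev1] with N hN hN3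
    have hN0 : (0 : ℝ) < N := by positivity
    have hl0 : 0 ≤ Real.log N := Real.log_natCast_nonneg N
    rw [Real.rpow_natCast, Real.norm_eq_abs, Real.norm_eq_abs, abs_of_nonneg (by positivity),
      abs_of_nonneg (by positivity)] at hN
    calc C4 * Real.log N ^ (K + 3 + A) ≤ C4 * (1 / (2 * C4) * (N : ℝ) ^ (δ : ℝ)) :=
          mul_le_mul_of_nonneg_left hN hC4p.le
      _ = _ := by field_simp
  refine (hSW.and_eventually (ev1.and (ev2.and ev3))).mono ?_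
  rintro N ⟨hsw, hN3, hN2, hN4⟩ u hu
  have hN3' : (3 : ℝ) ≤ N := by exact_mod_cast hN3
  have hN0 : (0 : ℝ) < N := by linarith
  set l := Real.log N with hl
  have hl1 : 1 < l := by
    rw [hl, Real.lt_log_iff_exp_lt hN0]
    exact Real.exp_one_lt_three.trans_le hN3'
  have hu' : (u : ℝ) ≤ 3 * N := by exact_mod_cast hu
  have hu0 : (0 : ℝ) ≤ u := Nat.cast_nonneg u
  set Q := ⌊(N : ℝ) ^ (1 / 2 - θ : ℝ)⌋₊ with hQ
  have hNp1 : 1 ≤ (N : ℝ) ^ (1 / 2 - θ : ℝ) := Real.one_le_rpow (by linarith) (by linarith)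
  have hQ1 : 1 ≤ Q := by
    rw [hQ, Nat.one_le_floor_iff]
    exact hNp1
  have hQle : (Q : ℝ) ≤ (N : ℝ) ^ (1 / 2 - θ : ℝ) := Nat.floor_le (by positivity)
  have hQN : (Q : ℝ) ≤ N := by
    refine hQle.trans ?_
    have : (N : ℝ) ^ (1 / 2 - θ : ℝ) ≤ (N : ℝ) ^ (1 : ℝ) :=
      Real.rpow_le_rpow_of_exponent_le (by linarith) (by linarith)
    rwa [Real.rpow_one] at this
  have hlQ : Real.log Q ≤ l := Real.log_le_log (by exact_mod_cast hQ1) hQN
  have hlQ0 : 0 ≤ Real.log Q := Real.log_natCast_nonneg Q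
  have hcube : (3 : ℝ) * l = Real.log ((N : ℝ) ^ 3) := by
    rw [Real.log_pow, hl]; norm_num
  have hN33 : 3 * (N : ℝ) + 2 ≤ (N : ℝ) ^ 3 := by
    nlinarith [mul_nonneg (sub_nonneg.mpr hN3') (sub_nonneg.mpr hN3')]
  have hlu2 : Real.log ((u : ℝ) + 2) ≤ 3 * l := by
    rw [hcube]
    exact Real.log_le_log (by linarith) (by linarith)
  have hlu1 : Real.log ((u : ℝ) + 1) ≤ 3 * l := by
    rw [hcube]
    exact Real.log_le_log (by linarith) (by linarith)
  have hlu20 : 0 ≤ Real.log ((u : ℝ) + 2) := Real.log_nonneg (by linarith)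
  have hlu10 : 0 ≤ Real.log ((u : ℝ) + 1) := Real.log_nonneg (by linarith)
  -- step 1
  have hstep1 : ∑ q ∈ sqf ((N : ℝ) ^ (1 / 2 - θ : ℝ)), Emax u q ≤
      (∑ q ∈ (Icc 1 Q).filter Squarefree, (1 / (q.totient : ℝ)) *
        ∑ χ ∈ (univ : Finset (DirichletCharacter ℂ q)).filter (fun χ => χ ≠ 1), ‖psiC χ u‖)
      + 15 * C1 * (N : ℝ) ^ (1 - θ : ℝ) * l := by
    unfold sqf
    rw [← hQ]
    have h1 : ∀ q ∈ (Icc 1 Q).filter Squarefree, Emax u q ≤ (1 / (q.totient : ℝ)) *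
        ∑ χ ∈ (univ : Finset (DirichletCharacter ℂ q)).filter (fun χ => χ ≠ 1), ‖psiC χ u‖ +
        15 * C1 * Real.sqrt N * l := by
      intro q hq
      rw [mem_filter, mem_Icc] at hq
      refine (hE u q hq.1.1).trans ?_
      have h2 : Real.log q ≤ l := by
        refine (Real.log_le_log (by exact_mod_cast hq.1.1) ?_).trans hlQ
        exact_mod_cast hq.1.2
      have h3 : l ≤ 2 * Real.sqrt N := by
        have := Real.log_le_rpow_div hN0.le (show (0 : ℝ) < 1 / 2 by norm_num)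
        rw [← Real.sqrt_eq_rpow] at this
        linarith
      have h4 : Real.sqrt u ≤ 2 * Real.sqrt N := by
        rw [show (2 : ℝ) * Real.sqrt N = Real.sqrt (4 * N) by
          rw [Real.sqrt_mul (by norm_num), show (4 : ℝ) = 2 ^ 2 by norm_num,
            Real.sqrt_sq (by norm_num)]]
        exact Real.sqrt_le_sqrt (by linarith)
      have h5 : 1 ≤ Real.sqrt N := by
        rw [Real.one_le_sqrt]; linarith
      have h6 : C1 * (Real.sqrt u + Real.log q + 1) * Real.log (u + 2) ≤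
          C1 * (5 * Real.sqrt N) * (3 * l) := by
        apply mul_le_mul _ hlu2 hlu20 (by positivity)
        apply mul_le_mul_of_nonneg_left _ hC1.le
        linarith
      have h7 : C1 * (5 * Real.sqrt N) * (3 * l) = 15 * C1 * Real.sqrt N * l := by ring
      linarith
    refine (Finset.sum_le_sum h1).trans ?_
    rw [Finset.sum_add_distrib]
    apply add_le_add le_rfl
    rw [Finset.sum_const, nsmul_eq_mul]
    have hc : ((Icc 1 Q).filter Squarefree).card ≤ Q := by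
      refine (Finset.card_filter_le _ _).trans ?_
      rw [Nat.card_Icc]; omega
    have hc' : (((Icc 1 Q).filter Squarefree).card : ℝ) ≤ (N : ℝ) ^ (1 / 2 - θ : ℝ) :=
      (Nat.cast_le.mpr hc).trans hQle
    calc (((Icc 1 Q).filter Squarefree).card : ℝ) * (15 * C1 * Real.sqrt N * l)
        ≤ (N : ℝ) ^ (1 / 2 - θ : ℝ) * (15 * C1 * Real.sqrt N * l) :=
          mul_le_mul_of_nonneg_right hc' (by positivity)
      _ = 15 * C1 * ((N : ℝ) ^ (1 / 2 - θ : ℝ) * (N : ℝ) ^ (1 / 2 : ℝ)) * l := by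
          rw [Real.sqrt_eq_rpow]; ring
      _ = _ := by
          rw [← Real.rpow_add hN0]; congr 3; ring
  -- step 2
  have hstep2 := hG u Q hQ1
  set M := ∑ r ∈ (Ioc 1 Q).filter Squarefree, (1 / (r.totient : ℝ)) *
    ∑ χ ∈ Prm r, ‖psiC χ u‖ with hMdef
  -- step 3: bound M
  set Y := ⌊l ^ B⌋₊ with hY
  have hlB1 : 1 ≤ l ^ B := one_le_pow₀ hl1.le
  have hY1 : 1 ≤ Y := by
    rw [hY, Nat.one_le_floor_iff]; exact hlB1
  have hYle : (Y : ℝ) ≤ l ^ B := Nat.floor_le (by positivity)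
  have hYge : l ^ B / 2 ≤ (Y : ℝ) := by
    have h1 := Nat.lt_floor_add_one (l ^ B)
    rw [← hY] at h1
    have h2 : (1 : ℝ) ≤ Y := by exact_mod_cast hY1
    linarith
  have hfn : ∀ r : ℕ, 0 ≤ (1 / (r.totient : ℝ)) * ∑ χ ∈ Prm r, ‖psiC χ u‖ := by
    intro r
    have : 0 ≤ ∑ χ ∈ Prm r, ‖psiC χ u‖ := Finset.sum_nonneg (fun χ _ => norm_nonneg _)
    positivity
  have hM1 : ∑ r ∈ Ioc 1 Y, (1 / (r.totient : ℝ)) * ∑ χ ∈ Prm r, ‖psiC χ u‖ ≤
      Y * (N / l ^ A') := by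
    apply BV_small u Y _ (by positivity)
    intro r _ χ h1 h2 h3
    apply hsw r χ h1 h2 _ u hu
    have : (r : ℝ) ≤ Y := by exact_mod_cast h3
    exact this.trans hYle
  have hM2 : ∑ r ∈ Ioc Y Q, (1 / (r.totient : ℝ)) * ∑ χ ∈ Prm r, ‖psiC χ u‖ ≤
      (3 * l) * (C3 * l ^ K * (2 * N / l ^ B + (N : ℝ) ^ (1 - δ : ℝ))) := by
    have hJ : Q < 2 ^ (Nat.log 2 Q + 1) * Y := by
      have h1 := Nat.lt_pow_succ_log_self (b := 2) (by norm_num) Q
      calc Q < 2 ^ (Nat.log 2 Q + 1) := h1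
        _ = 2 ^ (Nat.log 2 Q + 1) * 1 := (mul_one _).symm
        _ ≤ _ := Nat.mul_le_mul_left _ hY1
    have hBd : 0 ≤ C3 * l ^ K * (2 * N / l ^ B + (N : ℝ) ^ (1 - δ : ℝ)) := by positivity
    have h1 := BV_dyadic (fun r => (1 / (r.totient : ℝ)) * ∑ χ ∈ Prm r, ‖psiC χ u‖) hfn _ hBd Q
      (Nat.log 2 Q + 1) Y hJ ?_
    · refine h1.trans ?_
      apply mul_le_mul_of_nonneg_right _ hBd
      have h2 : (Nat.log 2 Q : ℝ) * Real.log 2 ≤ l := by
        have h3 := Nat.pow_log_le_self 2 (show Q ≠ 0 by omega)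
        have h4 : ((2 : ℝ)) ^ (Nat.log 2 Q) ≤ Q := by exact_mod_cast h3
        have h5 := Real.log_le_log (by positivity) h4
        rw [Real.log_pow] at h5
        exact h5.trans hlQ
      have h3 := Real.log_two_gt_d9
      have h4 : (0 : ℝ) ≤ (Nat.log 2 Q : ℝ) := Nat.cast_nonneg _
      push_cast
      nlinarith
    · intro R hYR hRQ
      have hR1 : 1 ≤ R := hY1.trans hYR
      have hR0 : (0 : ℝ) < R := by exact_mod_cast hR1
      have hRle : (R : ℝ) ≤ (N : ℝ) ^ (1 / 2 - θ : ℝ) := by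
        refine le_trans ?_ hQle
        exact_mod_cast hRQ
      refine (hM N hN3 u hu R hR1 hRle).trans ?_
      apply mul_le_mul_of_nonneg_left _ (by positivity)
      apply add_le_add _ le_rfl
      rw [div_le_div_iff₀ hR0 (by positivity)]
      have h2 : l ^ B / 2 ≤ R := hYge.trans (by exact_mod_cast hYR)
      calc (N : ℝ) * l ^ B = 2 * N * (l ^ B / 2) := by ring
        _ ≤ 2 * N * R := mul_le_mul_of_nonneg_left h2 (by positivity)
  have hMle : M ≤ l ^ B * (N / l ^ A') +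
      (3 * l) * (C3 * l ^ K * (2 * N / l ^ B + (N : ℝ) ^ (1 - δ : ℝ))) := by
    have h1 : M ≤ ∑ r ∈ Ioc 1 Y, (1 / (r.totient : ℝ)) * ∑ χ ∈ Prm r, ‖psiC χ u‖ +
        ∑ r ∈ Ioc Y Q, (1 / (r.totient : ℝ)) * ∑ χ ∈ Prm r, ‖psiC χ u‖ := by
      rw [hMdef, ← Finset.sum_union (Finset.disjoint_left.mpr (fun a ha hb => by
        rw [mem_Ioc] at ha hb; omega))]
      apply Finset.sum_le_sum_of_subset_of_nonneg
      · intro r hr
        rw [mem_filter, mem_Ioc] at hr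
        rw [Finset.mem_union, mem_Ioc, mem_Ioc]
        omega
      · intro r _ _
        exact hfn r
    have h2 : (Y : ℝ) * (N / l ^ A') ≤ l ^ B * (N / l ^ A') :=
      mul_le_mul_of_nonneg_right hYle (by positivity)
    linarith
  -- assemble
  have hM0 : 0 ≤ M := Finset.sum_nonneg (fun r _ => hfn r)
  have hsq : (1 + Real.log Q) ^ 2 ≤ (2 * l) ^ 2 :=
    pow_le_pow_left₀ (by positivity) (by linarith) 2
  have hmain : C2 * (1 + Real.log Q) ^ 2 * M ≤ C2 * (2 * l) ^ 2 * (l ^ B * (N / l ^ A') +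
      (3 * l) * (C3 * l ^ K * (2 * N / l ^ B + (N : ℝ) ^ (1 - δ : ℝ)))) := by
    apply mul_le_mul _ hMle hM0 (by positivity)
    exact mul_le_mul_of_nonneg_left hsq hC2.le
  have hsec : C2 * Q * (1 + Real.log Q) * (1 + Real.log (u + 1)) ≤
      C2 * (N : ℝ) ^ (1 / 2 - θ : ℝ) * (2 * l) * (4 * l) := by
    apply mul_le_mul _ (by linarith) (by linarith) (by positivity)
    apply mul_le_mul _ (by linarith) (by linarith) (by positivity)
    exact mul_le_mul_of_nonneg_left hQle hC2.le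
  have hl0 : 0 < l := by linarith
  -- powers of N
  have hp1 : (N : ℝ) ^ (1 - θ : ℝ) ≤ (N : ℝ) ^ (1 - δ : ℝ) :=
    Real.rpow_le_rpow_of_exponent_le (by linarith) (by linarith)
  have hp2 : (N : ℝ) ^ (1 / 2 - θ : ℝ) ≤ (N : ℝ) ^ (1 - δ : ℝ) :=
    Real.rpow_le_rpow_of_exponent_le (by linarith) (by linarith)
  have hp3 : (N : ℝ) ^ (1 - δ : ℝ) * (N : ℝ) ^ (δ : ℝ) = N := by
    rw [← Real.rpow_add hN0, sub_add_cancel, Real.rpow_one]
  set P := (N : ℝ) ^ (1 - δ : ℝ) with hP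
  have hP0 : 0 < P := by positivity
  have hpow1 : l ^ B * (N / l ^ A') * (2 * l) ^ 2 = 4 * (N / l ^ (A + 1)) := by
    rw [hA']
    have : l ^ (A + B + 3) = l ^ (A + 1) * (l ^ B * l ^ 2) := by ring
    rw [this]
    field_simp
    ring
  have hpow2 : (3 * l) * (C3 * l ^ K * (2 * N / l ^ B)) * (2 * l) ^ 2 =
      24 * C3 * (N / l ^ (A + 1)) := by
    rw [hB]
    have : l ^ (K + A + 4) = l ^ (A + 1) * (l ^ K * l ^ 3) := by ring
    rw [this]
    field_simp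
    ring
  have hlK : l ^ 2 ≤ l ^ (K + 3) := pow_le_pow_right₀ hl1.le (by omega)
  have hlK1 : l ≤ l ^ (K + 3) := by
    calc l = l ^ 1 := (pow_one l).symm
      _ ≤ _ := pow_le_pow_right₀ hl1.le (by omega)
  have htot : ∑ q ∈ sqf ((N : ℝ) ^ (1 / 2 - θ : ℝ)), Emax u q ≤
      (4 * C2 + 24 * C2 * C3) * (N / l ^ (A + 1)) + C4 * l ^ (K + 3) * P := by
    have e1 : C2 * (2 * l) ^ 2 * (l ^ B * (N / l ^ A') +
        (3 * l) * (C3 * l ^ K * (2 * N / l ^ B + P))) =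
        (4 * C2 + 24 * C2 * C3) * (N / l ^ (A + 1)) + 12 * C2 * C3 * l ^ (K + 3) * P := by
      calc _ = C2 * (l ^ B * (N / l ^ A') * (2 * l) ^ 2) +
            C2 * ((3 * l) * (C3 * l ^ K * (2 * N / l ^ B)) * (2 * l) ^ 2) +
            12 * C2 * C3 * l ^ (K + 3) * P := by ring
        _ = _ := by rw [hpow1, hpow2]; ring
    have e2 : C2 * (N : ℝ) ^ (1 / 2 - θ : ℝ) * (2 * l) * (4 * l) ≤ 8 * C2 * l ^ (K + 3) * P := by
      calc _ = 8 * C2 * ((N : ℝ) ^ (1 / 2 - θ : ℝ) * l ^ 2) := by ring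
        _ ≤ 8 * C2 * (P * l ^ (K + 3)) := by
            apply mul_le_mul_of_nonneg_left _ (by positivity)
            exact mul_le_mul hp2 hlK (by positivity) (by positivity)
        _ = _ := by ring
    have e3 : 15 * C1 * (N : ℝ) ^ (1 - θ : ℝ) * l ≤ 15 * C1 * l ^ (K + 3) * P := by
      calc _ = 15 * C1 * ((N : ℝ) ^ (1 - θ : ℝ) * l) := by ring
        _ ≤ 15 * C1 * (P * l ^ (K + 3)) := by
            apply mul_le_mul_of_nonneg_left _ (by positivity)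
            exact mul_le_mul hp1 hlK1 (by positivity) (by positivity)
        _ = _ := by ring
    rw [hC4]
    linarith
  refine htot.trans ?_
  have f1 : (4 * C2 + 24 * C2 * C3) * (N / l ^ (A + 1)) ≤ (N / l ^ A) / 2 := by
    have : (N : ℝ) / l ^ A = l * (N / l ^ (A + 1)) := by
      rw [pow_succ]; field_simp
    rw [this]
    have h0 : 0 ≤ (N : ℝ) / l ^ (A + 1) := by positivity
    nlinarith
  have f2 : C4 * l ^ (K + 3) * P ≤ (N / l ^ A) / 2 := by
    rw [div_div, le_div_iff₀ (by positivity)]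
    calc C4 * l ^ (K + 3) * P * (l ^ A * 2) = 2 * P * (C4 * l ^ (K + 3 + A)) := by ring
      _ ≤ 2 * P * ((N : ℝ) ^ (δ : ℝ) / 2) :=
          mul_le_mul_of_nonneg_left hN4 (by positivity)
      _ = P * (N : ℝ) ^ (δ : ℝ) := by ring
      _ = N := hp3
  linarith

theorem BVd4 (θ : ℝ) (hθ : 0 < θ) (hθ1 : θ ≤ 1 / 10) (A D : ℕ) : ∃ᶠ N : ℕ in atTop, ∀ u : ℕ, u ≤ 3 * N →
    ∑ q ∈ sqf ((N : ℝ) ^ (1 / 2 - θ)), (D : ℝ) ^ q.primeFactors.card * Emax u q ≤
      N / Real.log N ^ A := by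
  have h1 := BV4_bv θ hθ hθ1 (2 * A + 2 * D ^ 2 + 2)
  have h2 : ∀ᶠ N : ℕ in atTop, 3 ≤ N := eventually_ge_atTop 3
  have h3 : ∀ᶠ N : ℕ in atTop, (21 * 2 ^ (2 * D ^ 2) : ℝ) ≤ Real.log N :=
    (Real.tendsto_log_atTop.comp tendsto_natCast_atTop_atTop).eventually_ge_atTop _
  refine (h1.and_eventually (h2.and h3)).mono ?_
  rintro N ⟨hN, hN3, hNl⟩ u hu
  exact BV4_cs θ hθ hθ1 N u A D hN3 hu hNl (hN u hu)

end Pool.Agent.BG4
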