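import Pool.Agent.Lib_helper23.BGF.CNT
/-! Blocks CNTI4 (`count_int_mod`) and CNTP4 (`count_prime_mod`) -/

set_option autoImplicit false

namespace Pool.Agent.BG4

open Finset Filter Pool.Agent.BG
open scoped Classical

variable {M k : ℕ}

theorem cnti4_dv2_dvd (P : Fin M → ℕ) (x y : Vec M k) : dv2 P x y ∣ dv P x * dv P y := by
  unfold dv2 dv
  rw [← Finset.prod_mul_distrib]
  refine Finset.prod_dvd_prod_of_dvd _ _ fun j _ => ?_
  by_cases h1 : x j = none <;> by_cases h2 : y j = none <;> simp [h1, h2]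

theorem cnti4_cop (P : Fin M → ℕ) (x y : Vec M k) (q : ℕ) (hx : Nat.Coprime (dv P x) q)
    (hy : Nat.Coprime (dv P y) q) : Nat.Coprime (dv2 P x y) q :=
  Nat.Coprime.coprime_dvd_left (cnti4_dv2_dvd P x y) (Nat.Coprime.mul_left hx hy)

/-- the residue class with the additional modulus -/
theorem cnti4_class (P : Fin M → ℕ) (hP : ∀ j, (P j).Prime) (hinj : Function.Injective P) (W : ℕ)
    (hPW : ∀ j, Nat.Coprime (P j) W) (h : Fin k → ℕ) (ν q : ℕ) (hq : 0 < q)
    (hqW : Nat.Coprime q W) (b : Fin k) (x y : Vec M k)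
    (hc : ∀ j i l, x j = some i → y j = some l → i = l) (hcop : Nat.Coprime (dv2 P x y) q) :
    ∃ a, ∀ n, (n ≡ ν [MOD W] ∧ q ∣ n + h b ∧ Sat P h n x ∧ Sat P h n y) ↔
      n ≡ a [MOD W * q * dv2 P x y] := by
  obtain ⟨a, ha⟩ := CNT_class P hP hinj W hPW h ν x y hc
  obtain ⟨t, ht⟩ := CNT_res q (h b) hq
  have cop : Nat.Coprime (W * dv2 P x y) q := Nat.Coprime.mul_left hqW.symm hcop
  obtain ⟨z, hz1, hz2⟩ := Nat.chineseRemainder cop a t
  refine ⟨z, fun n => ?_⟩
  rw [show W * q * dv2 P x y = (W * dv2 P x y) * q by ring,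
    ← Nat.modEq_and_modEq_iff_modEq_mul cop]
  constructor
  · rintro ⟨h1, h2, h3, h4⟩
    exact ⟨((ha n).1 ⟨h1, h3, h4⟩).trans hz1.symm, ((ht n).1 h2).trans hz2.symm⟩
  · rintro ⟨h1, h2⟩
    obtain ⟨h3, h4, h5⟩ := (ha n).2 (h1.trans hz1)
    exact ⟨h3, (ht n).2 (h2.trans hz2), h4, h5⟩

theorem cnti4_filter (P : Fin M → ℕ) (h : Fin k → ℕ) (N W ν q : ℕ) (b : Fin k) (x y : Vec M k)
    (a : ℕ) (ha : ∀ n, (n ≡ ν [MOD W] ∧ q ∣ n + h b ∧ Sat P h n x ∧ Sat P h n y) ↔
      n ≡ a [MOD W * q * dv2 P x y]) :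
    ((win N W ν).filter (fun n => q ∣ n + h b)).filter (fun n => Sat P h n x ∧ Sat P h n y) =
      (Ioc N (2 * N)).filter (fun n => n ≡ a [MOD W * q * dv2 P x y]) := by
  ext n
  simp only [win, Finset.mem_filter]
  rw [← ha n]; tauto

theorem count_int_mod (P : Fin M → ℕ) (hP : ∀ j, (P j).Prime) (hinj : Function.Injective P)
    (W : ℕ) (hW : 0 < W) (hPW : ∀ j, Nat.Coprime (P j) W) (h : Fin k → ℕ)
    (hd : ∀ j i l, i ≠ l → ¬ ((P j : ℤ) ∣ (h i : ℤ) - h l)) (ν N q : ℕ) (hq : 0 < q)
    (hqW : Nat.Coprime q W) (b : Fin k) (c : Vec M k → ℝ)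
    (hc : ∀ x, c x ≠ 0 → Nat.Coprime (dv P x) q) :
    |∑ n ∈ (win N W ν).filter (fun n => q ∣ n + h b), Wn P h c n
      - (N / (W * q) : ℝ) * ∑ x, ∑ y, c x * c y * ∏ j, Kl (1 / (P j : ℝ)) (x j) (y j)| ≤
      (∑ x, |c x|) ^ 2 := by
  have h0 : ∑ n ∈ (win N W ν).filter (fun n => q ∣ n + h b), Wn P h c n =
      ∑ n ∈ (win N W ν).filter (fun n => q ∣ n + h b), (1 : ℝ) * Wn P h c n := by simp
  rw [h0, CNT_expand]
  have key : ∀ x y : Vec M k, c x ≠ 0 → c y ≠ 0 →
      |∑ n ∈ ((win N W ν).filter (fun n => q ∣ n + h b)).filter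
          (fun n => Sat P h n x ∧ Sat P h n y), (1 : ℝ)
        - (N / (W * q) : ℝ) * ∏ j, Kl (1 / (P j : ℝ)) (x j) (y j)| ≤ 1 := by
    intro x y hx hy
    by_cases hcc : ∀ j i l, x j = some i → y j = some l → i = l
    · obtain ⟨a, ha⟩ := cnti4_class P hP hinj W hPW h ν q hq hqW b x y hcc
        (cnti4_cop P x y q (hc x hx) (hc y hy))
      have hdv : 0 < dv2 P x y := by
        rw [CNT_dv2]; exact Finset.prod_pos fun j _ => (hP j).pos
      rw [cnti4_filter P h N W ν q b x y a ha, CNT_prod_inv P x y hcc, Finset.sum_const,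
        nsmul_eq_mul, mul_one]
      have e2 : (N / (W * q) : ℝ) * (1 / (dv2 P x y : ℝ)) =
          N / ((W * q * dv2 P x y : ℕ) : ℝ) := by
        push_cast
        rw [div_mul_div_comm, mul_one]
      rw [e2]
      exact CNT_card _ (Nat.mul_pos (Nat.mul_pos hW hq) hdv) N a
    · rw [CNT_Kl_zero _ x y hcc, Finset.filter_false_of_mem
        (fun n _ => CNT_incomp P h hd x y hcc n)]
      simp
  have e3 : ∑ x, ∑ y, c x * c y *
        ∑ n ∈ ((win N W ν).filter (fun n => q ∣ n + h b)).filter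
          (fun n => Sat P h n x ∧ Sat P h n y), (1 : ℝ)
      - (N / (W * q) : ℝ) * ∑ x, ∑ y, c x * c y * ∏ j, Kl (1 / (P j : ℝ)) (x j) (y j) =
      ∑ x, ∑ y, c x * c y *
        (∑ n ∈ ((win N W ν).filter (fun n => q ∣ n + h b)).filter
          (fun n => Sat P h n x ∧ Sat P h n y), (1 : ℝ)
          - (N / (W * q) : ℝ) * ∏ j, Kl (1 / (P j : ℝ)) (x j) (y j)) := by
    rw [Finset.mul_sum, ← Finset.sum_sub_distrib]
    refine Finset.sum_congr rfl fun x _ => ?_
    rw [Finset.mul_sum, ← Finset.sum_sub_distrib]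
    exact Finset.sum_congr rfl fun y _ => by ring
  rw [e3]
  calc |∑ x, ∑ y, c x * c y *
        (∑ n ∈ ((win N W ν).filter (fun n => q ∣ n + h b)).filter
          (fun n => Sat P h n x ∧ Sat P h n y), (1 : ℝ)
          - (N / (W * q) : ℝ) * ∏ j, Kl (1 / (P j : ℝ)) (x j) (y j))|
      ≤ ∑ x, ∑ y, |c x| * |c y| := by
        refine (Finset.abs_sum_le_sum_abs _ _).trans (Finset.sum_le_sum fun x _ => ?_)
        refine (Finset.abs_sum_le_sum_abs _ _).trans (Finset.sum_le_sum fun y _ => ?_)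
        by_cases hx : c x = 0
        · simp [hx]
        by_cases hy : c y = 0
        · simp [hy]
        rw [abs_mul, abs_mul]
        calc |c x| * |c y| * _ ≤ |c x| * |c y| * 1 :=
              mul_le_mul_of_nonneg_left (key x y hx hy) (by positivity)
          _ = _ := mul_one _
    _ = (∑ x, |c x|) ^ 2 := by rw [sq, Finset.sum_mul_sum]

theorem count_prime_mod (P : Fin M → ℕ) (hP : ∀ j, (P j).Prime)
    (hinj : Function.Injective P)
    (W : ℕ) (hW : 0 < W) (hPW : ∀ j, Nat.Coprime (P j) W) (h : Fin k → ℕ)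
    (hd : ∀ j i l, i ≠ l → ¬ ((P j : ℤ) ∣ (h i : ℤ) - h l)) (ν N q : ℕ) (hq : 0 < q)
    (hqW : Nat.Coprime q W) (hν : ∀ i, Nat.Coprime (ν + h i) W) (a b : Fin k)
    (hqd : ∀ p : ℕ, p.Prime → p ∣ q → ¬ ((p : ℤ) ∣ (h a : ℤ) - h b)) (c : Vec M k → ℝ)
    (hc : ∀ x, c x ≠ 0 → Avoid {a} x ∧ Nat.Coprime (dv P x) q) :
    |∑ n ∈ (win N W ν).filter (fun n => q ∣ n + h b), lp (n + h a) * Wn P h c n
      - ((th (2 * N + h a) - th (N + h a)) / (W * q).totient) *
        ∑ x, ∑ y, c x * c y * ∏ j, Kl (al P j) (x j) (y j)| ≤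
      ∑ x, ∑ y, |c x| * |c y| *
        (Emax (2 * N + h a) (W * q * dv2 P x y) + Emax (N + h a) (W * q * dv2 P x y)) := by
  rw [CNT_expand]
  have key : ∀ x y : Vec M k, c x ≠ 0 → c y ≠ 0 →
      |∑ n ∈ ((win N W ν).filter (fun n => q ∣ n + h b)).filter
          (fun n => Sat P h n x ∧ Sat P h n y), lp (n + h a)
        - ((th (2 * N + h a) - th (N + h a)) / (W * q).totient) *
          ∏ j, Kl (al P j) (x j) (y j)| ≤
        Emax (2 * N + h a) (W * q * dv2 P x y) + Emax (N + h a) (W * q * dv2 P x y) := by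
    intro x y hcx hcy
    obtain ⟨hx, hxq⟩ := hc x hcx
    obtain ⟨hy, hyq⟩ := hc y hcy
    by_cases hcc : ∀ j i l, x j = some i → y j = some l → i = l
    · have hcop2 := cnti4_cop P x y q hxq hyq
      obtain ⟨r, hr⟩ := cnti4_class P hP hinj W hPW h ν q hq hqW b x y hcc hcop2
      have hdv : 0 < dv2 P x y := by
        rw [CNT_dv2]; exact Finset.prod_pos fun j _ => (hP j).pos
      have hq' : 0 < W * q * dv2 P x y := Nat.mul_pos (Nat.mul_pos hW hq) hdv
      have hcop : Nat.Coprime (r + h a) (W * q * dv2 P x y) := by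
        obtain ⟨ha1, haq, ha2, ha3⟩ := (hr r).2 rfl
        apply Nat.Coprime.mul_right
        · apply Nat.Coprime.mul_right
          · have := (ha1.add_right (h a)).gcd_eq
            rw [Nat.Coprime, this]; exact hν a
          · refine Nat.Coprime.symm (Nat.Coprime.symm ?_)
            refine Nat.coprime_of_dvd ?_
            intro p hp hp1 hp2
            apply hqd p hp hp2
            have e1 : (p : ℤ) ∣ (r : ℤ) + h b := by exact_mod_cast hp2.trans haq
            have e2 : (p : ℤ) ∣ (r : ℤ) + h a := by exact_mod_cast hp1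
            have := dvd_sub e2 e1
            simpa using this
        · rw [CNT_dv2]
          apply Nat.Coprime.prod_right
          intro j hj
          have hj' := (Finset.mem_filter.1 hj).2
          rw [Nat.coprime_comm, (hP j).coprime_iff_not_dvd]
          intro hdvd
          have aux : ∀ i, i ≠ a → P j ∣ r + h i → False := by
            intro i him h1
            apply hd j i a him
            have e1 : (P j : ℤ) ∣ (r : ℤ) + h i := by exact_mod_cast h1
            have e2 : (P j : ℤ) ∣ (r : ℤ) + h a := by exact_mod_cast hdvd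
            have := dvd_sub e1 e2
            simpa using this
          rcases hxj : x j with _ | i
          · rcases hyj : y j with _ | l
            · exact hj' ⟨hxj, hyj⟩
            · refine aux l (fun e => ?_) (ha3 j l hyj)
              subst e
              exact hy j l (Finset.mem_singleton_self l) hyj
          · refine aux i (fun e => ?_) (ha2 j i hxj)
            subst e
            exact hx j i (Finset.mem_singleton_self i) hxj
      have e5 : ((th (2 * N + h a) - th (N + h a)) / ((W * q).totient : ℝ)) *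
          ∏ j, Kl (al P j) (x j) (y j) =
          (th (2 * N + h a) - th (N + h a)) / ((W * q * dv2 P x y).totient : ℝ) := by
        have f1 := CNT_prod_al P hP hinj W hPW x y hcc (th (2 * N + h a) - th (N + h a))
        have f2 : (W * q).totient = W.totient * q.totient := Nat.totient_mul hqW.symm
        have f3 : (W * q * dv2 P x y).totient = (W * dv2 P x y).totient * q.totient := by
          rw [show W * q * dv2 P x y = (W * dv2 P x y) * q by ring]
          exact Nat.totient_mul (Nat.Coprime.mul_left hqW.symm hcop2)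
        rw [f2, f3]
        push_cast
        rw [← div_div, ← div_div, ← f1]
        ring
      rw [cnti4_filter P h N W ν q b x y r hr, CNT_thAP_diff _ N (h a) r (r + h a) rfl, e5]
      have b1 := CNT_Emax (2 * N + h a) _ _ hq' hcop
      have b2 := CNT_Emax (N + h a) _ _ hq' hcop
      calc |thAP (2 * N + h a) (W * q * dv2 P x y) (r + h a) -
              thAP (N + h a) (W * q * dv2 P x y) (r + h a) -
            (th (2 * N + h a) - th (N + h a)) / ((W * q * dv2 P x y).totient : ℝ)|
          = |(thAP (2 * N + h a) (W * q * dv2 P x y) (r + h a) -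
              th (2 * N + h a) / ((W * q * dv2 P x y).totient : ℝ)) -
            (thAP (N + h a) (W * q * dv2 P x y) (r + h a) -
              th (N + h a) / ((W * q * dv2 P x y).totient : ℝ))| := by
              congr 1; ring
        _ ≤ _ := (abs_sub _ _).trans (add_le_add b1 b2)
    · rw [CNT_Kl_zero _ x y hcc, Finset.filter_false_of_mem
        (fun n _ => CNT_incomp P h hd x y hcc n)]
      simp only [Finset.sum_empty, mul_zero, sub_zero, abs_zero]
      exact add_nonneg (CNT_Emax_nonneg _ _) (CNT_Emax_nonneg _ _)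
  have e3 : ∑ x, ∑ y, c x * c y *
        ∑ n ∈ ((win N W ν).filter (fun n => q ∣ n + h b)).filter
          (fun n => Sat P h n x ∧ Sat P h n y), lp (n + h a)
      - ((th (2 * N + h a) - th (N + h a)) / (W * q).totient) *
        ∑ x, ∑ y, c x * c y * ∏ j, Kl (al P j) (x j) (y j) =
      ∑ x, ∑ y, c x * c y *
        (∑ n ∈ ((win N W ν).filter (fun n => q ∣ n + h b)).filter
          (fun n => Sat P h n x ∧ Sat P h n y), lp (n + h a)
          - ((th (2 * N + h a) - th (N + h a)) / (W * q).totient) *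
            ∏ j, Kl (al P j) (x j) (y j)) := by
    rw [Finset.mul_sum, ← Finset.sum_sub_distrib]
    refine Finset.sum_congr rfl fun x _ => ?_
    rw [Finset.mul_sum, ← Finset.sum_sub_distrib]
    exact Finset.sum_congr rfl fun y _ => by ring
  rw [e3]
  refine (Finset.abs_sum_le_sum_abs _ _).trans (Finset.sum_le_sum fun x _ => ?_)
  refine (Finset.abs_sum_le_sum_abs _ _).trans (Finset.sum_le_sum fun y _ => ?_)
  rw [abs_mul, abs_mul]
  by_cases hx : c x = 0
  · simp [hx]
  by_cases hy : c y = 0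
  · simp [hy]
  exact mul_le_mul_of_nonneg_left (key x y hx hy) (by positivity)

end Pool.Agent.BG4
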