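import Pool.Agent.Lib_helper23.BG4.Defs
import Pool.Agent.Lib_helper23.BGF.ERRSIZE
/-! Block SIZE4 (helper30) -/

set_option autoImplicit false

namespace Pool.Agent.BG4

open Finset Filter Pool.Agent.BG
open scoped Classical

variable {M k : ℕ}

theorem size4_er_none (G : Finset (Fin k)) (x : Vec M k) (j : Fin M) (h : x j = none) :
    er G x j = none := by
  unfold er
  split_ifs <;> simp [h]

theorem size4_onn_none (G : Finset (Fin k)) (x : Vec M k) (j : Fin M) (h : x j = none) :
    onn G x j = none := by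
  unfold onn
  split_ifs <;> simp [h]

theorem size4_in (G : Finset (Fin k)) (x : Vec M k) (j : Fin M) (i : Fin k) (h : x j = some i)
    (hi : i ∈ G) : er G x j = none ∧ onn G x j = some i := by
  unfold er onn
  have : ∃ i ∈ G, x j = some i := ⟨i, hi, h⟩
  rw [if_pos this, if_pos this]
  exact ⟨rfl, h⟩

theorem size4_out (G : Finset (Fin k)) (x : Vec M k) (j : Fin M) (i : Fin k) (h : x j = some i)
    (hi : i ∉ G) : er G x j = some i ∧ onn G x j = none := by
  unfold er onn
  have : ¬ ∃ i ∈ G, x j = some i := by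
    rintro ⟨i', hi', h'⟩
    rw [h] at h'
    cases h'
    exact hi hi'
  rw [if_neg this, if_neg this]
  exact ⟨h, rfl⟩

theorem size4_dv (P : Fin M → ℕ) (G : Finset (Fin k)) (x : Vec M k) :
    dv P x = dv P (er G x) * dv P (onn G x) := by
  unfold dv
  rw [← Finset.prod_mul_distrib]
  refine Finset.prod_congr rfl (fun j _ => ?_)
  rcases hx : x j with _ | i
  · rw [size4_er_none G x j hx, size4_onn_none G x j hx]
    simp
  · by_cases hi : i ∈ G
    · obtain ⟨h1, h2⟩ := size4_in G x j i hx hi
      rw [h1, h2]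
      simp
    · obtain ⟨h1, h2⟩ := size4_out G x j i hx hi
      rw [h1, h2]
      simp

theorem size4_sc (G : Finset (Fin k)) (x : Vec M k) : sc (er G x) ≤ sc x := by
  unfold sc
  refine Finset.card_le_card ?_
  intro j hj
  simp only [Finset.mem_filter, Finset.mem_univ, true_and] at hj ⊢
  intro hx
  exact hj (size4_er_none G x j hx)

theorem size4_scu (j₀ : Fin M) (b : Fin k) (x : Vec M k) (hx : x j₀ = none) :
    sc (Function.update x j₀ (some b)) = sc x + 1 := by
  unfold sc
  have h1 : (univ.filter (fun j => Function.update x j₀ (some b) j ≠ none)) =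
      insert j₀ (univ.filter (fun j => x j ≠ none)) := by
    ext j
    simp only [Finset.mem_filter, Finset.mem_univ, true_and, Finset.mem_insert]
    by_cases hj : j = j₀
    · subst hj
      simp
    · rw [Function.update_of_ne hj]
      simp [hj]
  rw [h1, Finset.card_insert_of_notMem]
  simp [hx]

theorem size4_tr (P : Fin M → ℕ) (hP : ∀ j, (P j).Prime) (hinj : Function.Injective P)
    (γ : Fin M → ℝ) (hγ0 : ∀ j, 0 ≤ γ j) (hγ1 : ∀ j, γ j ≤ al P j) (R : ℝ) (hR1 : 1 ≤ R)
    (a b : Fin k) (G : Finset (Fin k)) (hG : G ⊆ {a, b}) (ω : Vec M k → ℝ)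
    (hω0 : ∀ y, 0 ≤ ω y) (hω1 : ∀ y, ω y ≤ 1)
    (hωG : ∀ y, ω y ≠ 0 → Vals G y ∧ (dv P y : ℝ) ≤ R) (y : Vec M k) :
    |tr γ ω y| ≤ (1 + Real.log R) ^ 4 := by
  have hP0 : ∀ j, (0 : ℝ) < P j := fun j => by exact_mod_cast (hP j).pos
  have hAl : ∀ j s t, 0 ≤ Al (k := k) (γ j) s t := by
    intro j s t
    rcases s with _ | s <;> rcases t with _ | t
    · exact zero_le_one
    · exact hγ0 j
    · exact le_rfl
    · show 0 ≤ (if s = t then (1 : ℝ) else 0)
      split_ifs <;> norm_num
  set w : Fin M → Option (Fin k) → ℝ := fun j t =>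
    if t = none ∨ ∃ i ∈ G, t = some i then Al (γ j) (y j) t else 0 with hw
  have hw0 : ∀ j t, 0 ≤ w j t := by
    intro j t
    simp only [hw]
    split_ifs
    · exact hAl _ _ _
    · exact le_rfl
  set F : Finset (Fin M) → ℝ := fun U => if (pr P U : ℝ) ≤ R then 1 else 0 with hF
  have hF0 : ∀ U, 0 ≤ F U := by
    intro U
    simp only [hF]
    split_ifs <;> norm_num
  have h1 : ∀ z : Vec M k, |ω z * ∏ j, Al (γ j) (y j) (z j)| ≤
      F (univ.filter (fun j => y j = none ∧ z j ≠ none)) * ∏ j, w j (z j) := by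
    intro z
    by_cases hz : ω z = 0
    · rw [hz, zero_mul, abs_zero]
      exact mul_nonneg (hF0 _) (Finset.prod_nonneg (fun j _ => hw0 j _))
    · obtain ⟨hV, hd⟩ := hωG z hz
      have e1 : ∏ j, w j (z j) = ∏ j, Al (γ j) (y j) (z j) := by
        refine Finset.prod_congr rfl (fun j _ => ?_)
        simp only [hw]
        rw [if_pos]
        rcases hzj : z j with _ | i
        · exact Or.inl rfl
        · exact Or.inr ⟨i, hV j i hzj, rfl⟩
      have e2 : F (univ.filter (fun j => y j = none ∧ z j ≠ none)) = 1 := by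
        simp only [hF]
        rw [if_pos]
        rw [ES_dv] at hd
        refine le_trans (Nat.cast_le.mpr (ES_pr_mono P (fun j => (hP j).pos) ?_)) hd
        intro j hj
        simp only [Finset.mem_filter, Finset.mem_univ, true_and] at hj ⊢
        exact hj.2
      have hp0 : 0 ≤ ∏ j, Al (γ j) (y j) (z j) := Finset.prod_nonneg (fun j _ => hAl _ _ _)
      rw [e1, e2, one_mul, abs_mul, abs_of_nonneg (hω0 z), abs_of_nonneg hp0]
      exact mul_le_of_le_one_left hp0 (hω1 z)
  have h2 : |tr γ ω y| ≤ ∑ z : Vec M k,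
      F (univ.filter (fun j => y j = none ∧ z j ≠ none)) * ∏ j, w j (z j) := by
    unfold tr
    exact (Finset.abs_sum_le_sum_abs _ _).trans (Finset.sum_le_sum (fun s _ => h1 s))
  refine h2.trans ?_
  refine (ES_fib (fun j t => y j = none ∧ t ≠ none)
    (fun z => univ.filter (fun j => y j = none ∧ z j ≠ none)) (fun z j => by simp) w hw0 F hF0
    (fun j => ((4 : ℕ) : ℝ) / P j) (fun j => 1) (fun j => ?_) (fun j => ?_)).trans ?_
  · obtain ⟨a1, a2, a3, a4⟩ := ERRSIZE_al (P j) (hP j)
    rcases hy : y j with _ | i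
    · refine (Finset.sum_le_sum (g := fun t : Option (Fin k) =>
        if ∃ i ∈ G, t = some i then γ j else 0) (fun t _ => ?_)).trans ?_
      · rcases t with _ | t
        · simp
        · simp only [hw, hy]
          simp [Al]
      rw [Fintype.sum_option]
      have e2 : ∀ i : Fin k, (if ∃ i' ∈ G, (some i : Option (Fin k)) = some i' then γ j else 0) =
          if i ∈ G then γ j else 0 := by
        intro i
        simp
      rw [Finset.sum_congr rfl (fun i _ => e2 i), ← Finset.sum_filter, Finset.sum_const]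
      have e3 : (univ.filter (fun i => i ∈ G)).card ≤ 2 := by
        refine (Finset.card_le_card (t := {a, b}) ?_).trans (Finset.card_le_two)
        intro i hi
        exact hG (Finset.mem_filter.mp hi).2
      have e4 : ((univ.filter (fun i => i ∈ G)).card : ℝ) ≤ 2 := by exact_mod_cast e3
      rw [if_neg (by simp), zero_add, nsmul_eq_mul]
      calc ((univ.filter (fun i => i ∈ G)).card : ℝ) * γ j ≤ 2 * γ j :=
            mul_le_mul_of_nonneg_right e4 (hγ0 j)
        _ ≤ 2 * (2 / P j) := by
            refine mul_le_mul_of_nonneg_left ((hγ1 j).trans ?_) (by norm_num)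
            unfold al
            exact a3
        _ = _ := by push_cast; ring
    · simp
      positivity
  · rcases hy : y j with _ | i
    · rw [Fintype.sum_option]
      simp only [hw, hy]
      simp [Al]
    · refine (Finset.sum_le_sum (g := fun t : Option (Fin k) => if t = some i then (1 : ℝ) else 0)
        (fun t _ => ?_)).trans ?_
      · rw [if_neg (by simp)]
        simp only [hw, hy]
        rcases t with _ | t
        · simp [Al]
        · by_cases hit : i = t
          · subst hit
            simp only [Al, if_true]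
            split_ifs <;> norm_num
          · have : Al (γ j) (some i) (some t) = 0 := by simp [Al, hit]
            rw [this]
            split_ifs <;> norm_num
      simp
  · have h3 : ∀ U : Finset (Fin M), F U * ((∏ j ∈ U, ((4 : ℕ) : ℝ) / P j) * ∏ j ∈ Uᶜ, (1 : ℝ)) =
        (if (pr P U : ℝ) ≤ R then ∏ j ∈ U, ((4 : ℕ) : ℝ) / P j else 0) := by
      intro U
      simp only [hF]
      rw [Finset.prod_const_one, mul_one]
      split_ifs
      · rw [one_mul]
      · rw [zero_mul]
    rw [Finset.sum_congr rfl (fun U _ => h3 U), ← Finset.sum_filter]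
    exact ES_size P hP hinj 4 R hR1

theorem size_ext (P : Fin M → ℕ) (hP : ∀ j, (P j).Prime) (hinj : Function.Injective P)
    (γ : Fin M → ℝ) (hγ0 : ∀ j, 0 ≤ γ j) (hγ1 : ∀ j, γ j ≤ al P j) (g : ℕ → ℝ)
    (hg0 : ∀ a, 0 ≤ g a) (hg1 : ∀ a, g a ≤ 1) (Z R : ℝ) (hZ1 : 1 ≤ Z) (hR1 : 1 ≤ R)
    (a b : Fin k) (G : Finset (Fin k)) (hG : G ⊆ {a, b}) (Q : Finset (Fin M)) (ω : Vec M k → ℝ)
    (hω0 : ∀ y, 0 ≤ ω y) (hω1 : ∀ y, ω y ≤ 1)
    (hωG : ∀ y, ω y ≠ 0 → Vals G y ∧ (dv P y : ℝ) ≤ R) :
    (∀ x : Vec M k, |ext G Q (restr {a, b} (cv P g Z)) (lam γ ω) x| ≤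
        (1 + Real.log Z) ^ (2 * k) * (1 + Real.log R) ^ 4 * (2 : ℝ) ^ sc x) ∧
      ∀ x : Vec M k, ext G Q (restr {a, b} (cv P g Z)) (lam γ ω) x ≠ 0 →
        (dv P x : ℝ) ≤ Z * R ∧ (∀ i ∈ ({a, b} : Finset (Fin k)), i ∉ G → ∀ j, x j ≠ some i) ∧
          ∀ j ∈ Q, x j = none := by
  obtain ⟨c1, c2⟩ := cv_size (k := k) P hP hinj g hg0 hg1 Z hZ1
  have hlZ : 0 ≤ Real.log Z := Real.log_nonneg hZ1
  have hlR : 0 ≤ Real.log R := Real.log_nonneg hR1
  constructor
  · intro x
    have h0 : 0 ≤ (1 + Real.log Z) ^ (2 * k) * (1 + Real.log R) ^ 4 * (2 : ℝ) ^ sc x := by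
      positivity
    unfold ext
    split_ifs with hQ
    · rw [abs_mul]
      have h1 : |restr {a, b} (cv P g Z) (er G x)| ≤
          (1 + Real.log Z) ^ (2 * k) * (2 : ℝ) ^ sc x := by
        unfold restr
        split_ifs
        · refine (c1 _).trans ?_
          refine mul_le_mul_of_nonneg_left ?_ (by positivity)
          exact pow_le_pow_right₀ (by norm_num) (size4_sc G x)
        · rw [abs_zero]
          positivity
      have h2 : |lam γ ω (onn G x)| ≤ (1 + Real.log R) ^ 4 := by
        unfold lam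
        rw [abs_mul, abs_pow, abs_neg, abs_one, one_pow, one_mul]
        exact size4_tr P hP hinj γ hγ0 hγ1 R hR1 a b G hG ω hω0 hω1 hωG _
      calc |restr {a, b} (cv P g Z) (er G x)| * |lam γ ω (onn G x)|
          ≤ ((1 + Real.log Z) ^ (2 * k) * (2 : ℝ) ^ sc x) * (1 + Real.log R) ^ 4 :=
            mul_le_mul h1 h2 (abs_nonneg _) (by positivity)
        _ = _ := by ring
    · rw [abs_zero]
      exact h0
  · intro x hx
    unfold ext at hx
    have hQ : ∀ j ∈ Q, x j = none := by
      by_contra h
      rw [if_neg h] at hx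
      exact hx rfl
    rw [if_pos hQ] at hx
    have hx1 := left_ne_zero_of_mul hx
    have hx2 := right_ne_zero_of_mul hx
    have hav : Avoid {a, b} (er G x) := by
      by_contra h
      apply hx1
      unfold restr
      rw [if_neg h]
    have hcv : cv P g Z (er G x) ≠ 0 := by
      intro h
      apply hx1
      unfold restr
      rw [h]
      simp
    have hd1 := c2 _ hcv
    have hd2 : (dv P (onn G x) : ℝ) ≤ R := by
      unfold lam tr at hx2
      have hx3 := right_ne_zero_of_mul hx2
      obtain ⟨z, _, hz⟩ := Finset.exists_ne_zero_of_sum_ne_zero hx3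
      have hz1 := left_ne_zero_of_mul hz
      have hz2 := right_ne_zero_of_mul hz
      obtain ⟨_, hdz⟩ := hωG z hz1
      refine le_trans (Nat.cast_le.mpr ?_) hdz
      rw [ES_dv, ES_dv]
      refine ES_pr_mono P (fun j => (hP j).pos) ?_
      intro j hj
      simp only [Finset.mem_filter, Finset.mem_univ, true_and] at hj ⊢
      intro hzj
      have h4 := Finset.prod_ne_zero_iff.mp hz2 j (Finset.mem_univ j)
      rw [hzj] at h4
      rcases hy : onn G x j with _ | i
      · exact hj hy
      · rw [hy] at h4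
        exact h4 rfl
    refine ⟨?_, ?_, hQ⟩
    · rw [size4_dv P G x]
      push_cast
      exact mul_le_mul hd1 hd2 (Nat.cast_nonneg _) (by linarith)
    · intro i hi hiG j hxj
      exact hav j i hi (size4_out G x j i hxj hiG).1

theorem size_red (P : Fin M → ℕ) (hP : ∀ j, (P j).Prime) (hinj : Function.Injective P)
    (b : Fin k) (j₀ : Fin M) (c : Vec M k → ℝ) (B Y : ℝ) (hB : 0 ≤ B)
    (hc : ∀ x, |c x| ≤ B * (2 : ℝ) ^ sc x) (hY : ∀ x, c x ≠ 0 → (dv P x : ℝ) ≤ Y) :
    (∀ x, |red b j₀ c x| ≤ 3 * B * (2 : ℝ) ^ sc x) ∧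
      ∀ x, red b j₀ c x ≠ 0 → (dv P x : ℝ) ≤ Y ∧ Nat.Coprime (dv P x) (P j₀) := by
  constructor
  · intro x
    unfold red
    split_ifs with hx
    · refine (abs_add_le _ _).trans ?_
      have h1 := hc x
      have h2 := hc (Function.update x j₀ (some b))
      rw [size4_scu j₀ b x hx, pow_succ] at h2
      linarith
    · rw [abs_zero]
      positivity
  · intro x hx
    unfold red at hx
    have hx0 : x j₀ = none := by
      by_contra h
      rw [if_neg h] at hx
      exact hx rfl
    rw [if_pos hx0] at hx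
    constructor
    · by_cases h1 : c x = 0
      · have h2 : c (Function.update x j₀ (some b)) ≠ 0 := by
          intro h2
          rw [h1, h2, add_zero] at hx
          exact hx rfl
        refine le_trans (Nat.cast_le.mpr ?_) (hY _ h2)
        rw [ES_dv, ES_dv]
        refine ES_pr_mono P (fun j => (hP j).pos) ?_
        intro j hj
        simp only [Finset.mem_filter, Finset.mem_univ, true_and] at hj ⊢
        by_cases hjj : j = j₀
        · subst hjj
          exact absurd hx0 hj
        · rw [Function.update_of_ne hjj]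
          exact hj
      · exact hY x h1
    · unfold dv
      refine Nat.Coprime.prod_left (fun j _ => ?_)
      split_ifs with hxj
      · exact Nat.coprime_one_left _
      · refine (Nat.coprime_primes (hP j) (hP j₀)).mpr (fun h => ?_)
        have := hinj h
        subst this
        exact hxj hx0

end Pool.Agent.BG4
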