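import Pool.Agent.Lib_helper23.BG4.Defs
import Pool.Agent.Lib_helper23.BGF.SUMU
/-! Block EUP: upper bound for the energy (helper95). -/

set_option autoImplicit false

namespace Pool.Agent.BG4

open Finset Filter Pool.Agent.BG
open scoped Classical

variable {M k : ℕ}


/-- erase the values in `G` (local) -/
noncomputable def EUP_er (G : Finset (Fin k)) (x : Option (Fin k)) : Option (Fin k) :=
  if ∃ i ∈ G, x = some i then none else x

/-- keep the values in `G` (local) -/
noncomputable def EUP_on (G : Finset (Fin k)) (x : Option (Fin k)) : Option (Fin k) :=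
  if ∃ i ∈ G, x = some i then x else none

theorem EUP_er_none (G : Finset (Fin k)) : EUP_er G none = none := by
  unfold EUP_er; simp

theorem EUP_on_none (G : Finset (Fin k)) : EUP_on G none = none := by
  unfold EUP_on; simp

theorem EUP_er_mem {G : Finset (Fin k)} {i : Fin k} (hi : i ∈ G) : EUP_er G (some i) = none := by
  unfold EUP_er; simp [hi]

theorem EUP_on_mem {G : Finset (Fin k)} {i : Fin k} (hi : i ∈ G) : EUP_on G (some i) = some i := by
  unfold EUP_on; simp [hi]

theorem EUP_er_not {G : Finset (Fin k)} {i : Fin k} (hi : i ∉ G) : EUP_er G (some i) = some i := by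
  unfold EUP_er; simp [hi]

theorem EUP_on_not {G : Finset (Fin k)} {i : Fin k} (hi : i ∉ G) : EUP_on G (some i) = none := by
  unfold EUP_on; simp [hi]

/-- the kernel of the coefficients `cv` -/
noncomputable def EUP_U (α : ℝ) : Option (Fin k) → Option (Fin k) → ℝ
  | none, none => 1
  | none, some _ => α
  | some _, none => 0
  | some i, some l => if i = l then -(1 + α) else 0

theorem EUP_al (P : Fin M → ℕ) (hP : ∀ j, (P j).Prime) (j : Fin M) :
    0 < al P j ∧ al P j ≤ 1 ∧ (1 + al P j) * (1 / (P j : ℝ)) = al P j := by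
  have h2 : (2:ℝ) ≤ P j := by exact_mod_cast (hP j).two_le
  have h3 : (0:ℝ) < (P j : ℝ) - 1 := by linarith
  have h4 : (0:ℝ) < P j := by linarith
  unfold al
  refine ⟨by positivity, ?_, ?_⟩
  · rw [div_le_one h3]; linarith
  · have h5 : 1 + 1 / ((P j : ℝ) - 1) = P j / ((P j : ℝ) - 1) := by field_simp; ring
    rw [h5]
    field_simp

theorem EUP_cv (P : Fin M → ℕ) (hP : ∀ j, (P j).Prime) (g : ℕ → ℝ) (Z : ℝ) (x : Vec M k) :
    cv P g Z x = ∑ s, Yv P g Z s * ∏ j, EUP_U (al P j) (x j) (s j) := by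
  unfold cv itr yv
  refine Finset.sum_congr rfl fun s _ => ?_
  rw [mul_assoc, ← Finset.prod_mul_distrib]
  congr 1
  refine Finset.prod_congr rfl fun j _ => ?_
  have h := (EUP_al P hP j).2.2
  rcases x j with _ | i <;> rcases s j with _ | l
  · simp [Al, EUP_U]
  · simp only [Al, EUP_U]
    rw [if_neg (by simp)]
    linear_combination h
  · simp [Al, EUP_U]
  · simp only [Al, EUP_U]
    rw [if_neg (by simp)]
    by_cases hil : i = l
    · simp [hil]
    · simp [hil]

theorem EUP_sgn (x : Vec M k) : ((-1 : ℝ)) ^ sc x = ∏ j, (if x j = none then (1 : ℝ) else -1) := by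
  unfold sc
  rw [Finset.prod_ite]
  simp

theorem EUP_lam (γ : Fin M → ℝ) (ω : Vec M k → ℝ) (x : Vec M k) :
    (-1) ^ sc x * tr γ ω x =
      ∑ y, ω y * ∏ j, ((if x j = none then (1 : ℝ) else -1) * Al (γ j) (x j) (y j)) := by
  unfold tr
  rw [EUP_sgn, Finset.mul_sum]
  refine Finset.sum_congr rfl fun y _ => ?_
  rw [Finset.prod_mul_distrib]
  ring

/-- the local kernel of the product weights -/
noncomputable def EUP_T (G F : Finset (Fin k)) (q : Prop) (α γ : ℝ) (x s y : Option (Fin k)) : ℝ :=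
  (if q → x = none then 1 else 0) * ((if ∀ i ∈ F, EUP_er G x ≠ some i then 1 else 0) *
    (EUP_U α (EUP_er G x) s * ((if EUP_on G x = none then 1 else -1) * Al γ (EUP_on G x) y)))

/-- the local kernel of the transform of the product weights -/
noncomputable def EUP_L (G F : Finset (Fin k)) (q : Prop) (α γ : ℝ) (r s y : Option (Fin k)) : ℝ :=
  ∑ x, EUP_T G F q α γ x s y * Al γ r x

/-- nonnegative majorant of the local kernel -/
noncomputable def EUP_K (G F : Finset (Fin k)) (q : Prop) (α : ℝ) :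
    Option (Fin k) → Option (Fin k) → Option (Fin k) → ℝ
  | none, none, none => 1
  | none, none, some _ => 0
  | none, some l, none => if q ∨ l ∈ F then α else α ^ 2
  | none, some l, some e => if ¬ q ∧ l ∉ F ∧ e ∈ G then 2 * α ^ 2 else 0
  | some _, none, none => 0
  | some i, none, some e => if ¬ q ∧ i ∈ G ∧ e = i then 1 else 0
  | some i, some l, none => if ¬ q ∧ i ∉ F ∧ l = i then 1 + α else 0
  | some i, some l, some e => if ¬ q ∧ i ∉ F ∧ l = i ∧ e ∈ G then (1 + α) * α else
      if ¬ q ∧ i ∈ G ∧ e = i then α else 0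

theorem EUP_K_nonneg (G F : Finset (Fin k)) (q : Prop) {α : ℝ} (hα : 0 ≤ α)
    (r s y : Option (Fin k)) : 0 ≤ EUP_K G F q α r s y := by
  rcases r with _ | i <;> rcases s with _ | l <;> rcases y with _ | e <;> simp only [EUP_K] <;>
    (try split_ifs) <;> positivity

/-- local sum over the forms -/
theorem EUP_sum_some (G F : Finset (Fin k)) (hGF : G ⊆ F) {q : Prop} (hq : ¬ q) (α γ : ℝ)
    (s y : Option (Fin k)) :
    ∑ i : Fin k, EUP_T G F q α γ (some i) s y =
      ∑ i ∈ G, -(EUP_U α (none : Option (Fin k)) s * Al γ (some i) y) +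
      ∑ i ∈ Fᶜ, EUP_U α (some i) s * Al γ none y := by
  have h1 : ∀ i : Fin k, EUP_T G F q α γ (some i) s y =
      (if i ∈ G then -(EUP_U α (none : Option (Fin k)) s * Al γ (some i) y) else 0) +
      (if i ∈ Fᶜ then EUP_U α (some i) s * Al γ none y else 0) := by
    intro i
    unfold EUP_T
    rw [if_pos (fun h => absurd h hq)]
    by_cases hiG : i ∈ G
    · have hiF : i ∈ F := hGF hiG
      rw [EUP_er_mem hiG, EUP_on_mem hiG]
      simp [hiG, hiF]
    · rw [EUP_er_not hiG, EUP_on_not hiG]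
      by_cases hiF : i ∈ F
      · rw [if_neg (by push Not; exact ⟨i, hiF, rfl⟩)]
        simp [hiG, hiF]
      · rw [if_pos (by intro l hl h; exact hiF ((Option.some_injective _ h) ▸ hl))]
        simp [hiG, hiF]
  rw [Finset.sum_congr rfl fun i _ => h1 i, Finset.sum_add_distrib]
  congr 1
  · rw [Finset.sum_ite_mem, Finset.univ_inter]
  · rw [Finset.sum_ite_mem, Finset.univ_inter]

theorem EUP_T_none (G F : Finset (Fin k)) (q : Prop) (α γ : ℝ) (s y : Option (Fin k)) :
    EUP_T G F q α γ none s y = EUP_U α (none : Option (Fin k)) s * Al γ (none : Option (Fin k)) y := by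
  unfold EUP_T
  rw [EUP_er_none, EUP_on_none]
  simp

theorem EUP_T_some_q (G F : Finset (Fin k)) {q : Prop} (hq : q) (α γ : ℝ) (i : Fin k)
    (s y : Option (Fin k)) : EUP_T G F q α γ (some i) s y = 0 := by
  unfold EUP_T
  rw [if_neg (by intro h; exact absurd (h hq) (by simp)), zero_mul]

theorem EUP_L_none (G F : Finset (Fin k)) (hGF : G ⊆ F) {q : Prop} (hq : ¬ q) (α γ : ℝ)
    (s y : Option (Fin k)) :
    EUP_L G F q α γ none s y = EUP_U α (none : Option (Fin k)) s * Al γ (none : Option (Fin k)) y +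
      (∑ i ∈ G, -(EUP_U α (none : Option (Fin k)) s * Al γ (some i) y) +
        ∑ i ∈ Fᶜ, EUP_U α (some i) s * Al γ none y) * γ := by
  unfold EUP_L
  rw [Fintype.sum_option, EUP_T_none]
  have h1 : ∀ i : Fin k, EUP_T G F q α γ (some i) s y * Al γ none (some i) =
      EUP_T G F q α γ (some i) s y * γ := fun i => by simp [Al]
  rw [Finset.sum_congr rfl fun i _ => h1 i, ← Finset.sum_mul, EUP_sum_some G F hGF hq]
  simp [Al]

theorem EUP_L_some (G F : Finset (Fin k)) (q : Prop) (α γ : ℝ) (i : Fin k)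
    (s y : Option (Fin k)) :
    EUP_L G F q α γ (some i) s y = EUP_T G F q α γ (some i) s y := by
  unfold EUP_L
  rw [Fintype.sum_option]
  have h1 : ∀ l : Fin k, EUP_T G F q α γ (some l) s y * Al γ (some i) (some l) =
      if i = l then EUP_T G F q α γ (some l) s y else 0 := by
    intro l
    simp only [Al]
    split_ifs <;> simp
  rw [Finset.sum_congr rfl fun l _ => h1 l]
  simp [Al]

theorem EUP_L_le (G F : Finset (Fin k)) (hGF : G ⊆ F) (q : Prop) {α γ p : ℝ} (hα0 : 0 < α)
    (hα1 : α ≤ 1) (hp : (1 + α) * p = α) (hp0 : 0 < p) (hpγ : p ≤ γ) (hγ : γ ≤ α)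
    (r s y : Option (Fin k)) (hyG : ∀ e, y = some e → e ∈ G) (hyq : q → y = none) :
    |EUP_L G F q α γ r s y| ≤ EUP_K G F q α r s y := by
  have hγ0 : 0 < γ := lt_of_lt_of_le hp0 hpγ
  rcases r with _ | i
  · by_cases hq : q
    · have hy := hyq hq
      subst hy
      unfold EUP_L
      rw [Fintype.sum_option, EUP_T_none]
      have h1 : ∀ i : Fin k, EUP_T G F q α γ (some i) s none * Al γ none (some i) = 0 := by
        intro i
        rw [EUP_T_some_q G F hq, zero_mul]
      rw [Finset.sum_congr rfl fun i _ => h1 i]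
      rcases s with _ | l
      · simp [Al, EUP_U, EUP_K]
      · simp only [Al, EUP_U, EUP_K]
        rw [if_pos (Or.inl hq)]
        simp only [mul_one, Finset.sum_const_zero, add_zero]
        rw [abs_of_pos hα0]
    · rw [EUP_L_none G F hGF hq]
      rcases s with _ | l
      · rcases y with _ | e
        · simp [Al, EUP_U, EUP_K]
        · have heG := hyG e rfl
          simp only [Al, EUP_U, EUP_K]
          have h1 : ∑ i ∈ G, -((1 : ℝ) * if i = e then 1 else 0) = -1 := by
            rw [Finset.sum_neg_distrib]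
            simp [heG]
          rw [h1]
          simp
      · rcases y with _ | e
        · simp only [Al, EUP_U, EUP_K]
          by_cases hlF : l ∈ F
          · have h2 : ∑ i ∈ Fᶜ, (if i = l then -(1 + α) else 0) * (1 : ℝ) = 0 := by
              apply Finset.sum_eq_zero
              intro i hi
              rw [if_neg, zero_mul]
              rintro rfl
              exact (Finset.mem_compl.mp hi) hlF
            rw [h2, if_pos (Or.inr hlF)]
            simp only [mul_zero, neg_zero, Finset.sum_const_zero, add_zero, zero_mul, mul_one]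
            rw [abs_of_pos hα0]
          · have h2 : ∑ i ∈ Fᶜ, (if i = l then -(1 + α) else 0) * (1 : ℝ) = -(1 + α) := by
              rw [Finset.sum_eq_single l]
              · simp
              · intro i _ hne
                simp [hne]
              · intro h
                exact absurd (Finset.mem_compl.mpr hlF) h
            rw [h2, if_neg (by push Not; exact ⟨hq, hlF⟩)]
            simp only [mul_zero, neg_zero, Finset.sum_const_zero, mul_one]
            rw [abs_le]
            constructor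
            · nlinarith
            · nlinarith
        · have heG := hyG e rfl
          simp only [Al, EUP_U, EUP_K]
          have h1 : ∑ i ∈ G, -(α * if i = e then 1 else 0) = -α := by
            rw [Finset.sum_neg_distrib]
            simp [heG]
          rw [h1]
          by_cases hlF : l ∈ F
          · have h2 : ∑ i ∈ Fᶜ, (if i = l then -(1 + α) else 0) * γ = 0 := by
              apply Finset.sum_eq_zero
              intro i hi
              rw [if_neg, zero_mul]
              rintro rfl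
              exact (Finset.mem_compl.mp hi) hlF
            rw [h2, if_neg (by push Not; intro _ h; exact absurd hlF h)]
            have : α * γ + (-α + 0) * γ = 0 := by ring
            rw [this, abs_zero]
          · have h2 : ∑ i ∈ Fᶜ, (if i = l then -(1 + α) else 0) * γ = -(1 + α) * γ := by
              rw [Finset.sum_eq_single l]
              · simp
              · intro i _ hne
                simp [hne]
              · intro h
                exact absurd (Finset.mem_compl.mpr hlF) h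
            rw [h2, if_pos ⟨hq, hlF, heG⟩]
            have h3 : α * γ + (-α + -(1 + α) * γ) * γ = -((1 + α) * γ ^ 2) := by ring
            rw [h3, abs_neg, abs_of_nonneg (by positivity)]
            have h4 : γ ^ 2 ≤ α ^ 2 := pow_le_pow_left₀ hγ0.le hγ 2
            nlinarith [sq_nonneg α]
  · rw [EUP_L_some]
    by_cases hq : q
    · rw [EUP_T_some_q G F hq, abs_zero]
      exact EUP_K_nonneg G F q hα0.le _ _ _
    · unfold EUP_T
      rw [if_pos (fun h => absurd h hq), one_mul]
      by_cases hiG : i ∈ G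
      · have hiF : i ∈ F := hGF hiG
        rw [EUP_er_mem hiG, EUP_on_mem hiG]
        rcases s with _ | l <;> rcases y with _ | e
        · simp [Al, EUP_U, EUP_K]
        · by_cases hie : i = e
          · subst hie
            simp [Al, EUP_U, EUP_K, hiG, hq]
          · have : ¬ (e = i) := fun h => hie h.symm
            simp [Al, EUP_U, EUP_K, hie, this]
        · simp [Al, EUP_U, EUP_K, hiF]
        · by_cases hie : i = e
          · subst hie
            simp [Al, EUP_U, EUP_K, hiG, hiF, hq, abs_of_pos hα0]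
          · have : ¬ (e = i) := fun h => hie h.symm
            simp [Al, EUP_U, EUP_K, hie, this, hiF]
      · rw [EUP_er_not hiG, EUP_on_not hiG]
        by_cases hiF : i ∈ F
        · rw [if_neg (by push Not; exact ⟨i, hiF, rfl⟩), zero_mul, abs_zero]
          exact EUP_K_nonneg G F q hα0.le _ _ _
        · rw [if_pos (by intro l hl h; exact hiF ((Option.some_injective _ h) ▸ hl)), one_mul,
            if_pos rfl, one_mul]
          rcases s with _ | l <;> rcases y with _ | e
          · simp [Al, EUP_U, EUP_K]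
          · simp [Al, EUP_U, EUP_K, hiG]
          · by_cases hil : i = l
            · subst hil
              simp only [Al, EUP_U, EUP_K]
              rw [if_pos trivial, if_pos ⟨hq, hiF, trivial⟩, mul_one, abs_neg,
                abs_of_pos (by linarith)]
            · have : ¬ (l = i) := fun h => hil h.symm
              simp [Al, EUP_U, EUP_K, hil, this]
          · have heG := hyG e rfl
            by_cases hil : i = l
            · subst hil
              simp only [Al, EUP_U, EUP_K]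
              rw [if_pos trivial, if_pos ⟨hq, hiF, trivial, heG⟩, abs_mul, abs_neg,
                abs_of_pos (by linarith : (0 : ℝ) < 1 + α), abs_of_pos hγ0]
              exact mul_le_mul_of_nonneg_left hγ (by linarith)
            · have : ¬ (l = i) := fun h => hil h.symm
              simp [Al, EUP_U, EUP_K, hil, this, hiG]



theorem EUP_er_eq (G : Finset (Fin k)) (x : Vec M k) (j : Fin M) :
    er G x j = EUP_er G (x j) := rfl

theorem EUP_onn_eq (G : Finset (Fin k)) (x : Vec M k) (j : Fin M) :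
    onn G x j = EUP_on G (x j) := rfl

theorem EUP_ext (P : Fin M → ℕ) (hP : ∀ j, (P j).Prime) (γ : Fin M → ℝ) (g : ℕ → ℝ) (Z : ℝ)
    (F G : Finset (Fin k)) (Q : Finset (Fin M)) (ω : Vec M k → ℝ) (x : Vec M k) :
    ext G Q (restr F (cv P g Z)) (lam γ ω) x =
      ∑ s, ∑ y, Yv P g Z s * ω y * ∏ j, EUP_T G F (j ∈ Q) (al P j) (γ j) (x j) (s j) (y j) := by
  unfold ext
  have hQ : (∏ j, (if j ∈ Q → x j = none then (1 : ℝ) else 0)) =
      if ∀ j ∈ Q, x j = none then 1 else 0 := by
    rw [Finset.prod_ite_zero]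
    simp
  have h1 : ∀ s y : Vec M k, ∏ j, EUP_T G F (j ∈ Q) (al P j) (γ j) (x j) (s j) (y j) =
      (if ∀ j ∈ Q, x j = none then 1 else 0) * ((if Avoid F (er G x) then 1 else 0) *
        ((∏ j, EUP_U (al P j) (er G x j) (s j)) *
        ∏ j, ((if onn G x j = none then (1 : ℝ) else -1) * Al (γ j) (onn G x j) (y j)))) := by
    intro s y
    rw [← hQ, ← INV_avoid, ← Finset.prod_mul_distrib, ← Finset.prod_mul_distrib,
      ← Finset.prod_mul_distrib]
    refine Finset.prod_congr rfl fun j _ => ?_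
    unfold EUP_T
    simp only [EUP_er_eq, EUP_onn_eq]
    congr!
  simp_rw [h1]
  by_cases h2 : ∀ j ∈ Q, x j = none
  · rw [if_pos h2]
    unfold restr
    by_cases h3 : Avoid F (er G x)
    · rw [if_pos h3]
      unfold lam
      rw [EUP_cv P hP, EUP_lam, Finset.sum_mul_sum]
      refine Finset.sum_congr rfl fun s _ => Finset.sum_congr rfl fun y _ => ?_
      rw [if_pos h2, if_pos h3]
      ring
    · rw [if_neg h3]
      simp [h3]
  · rw [if_neg h2]
    simp [h2]

theorem EUP_tr (P : Fin M → ℕ) (hP : ∀ j, (P j).Prime) (γ : Fin M → ℝ) (g : ℕ → ℝ) (Z : ℝ)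
    (F G : Finset (Fin k)) (Q : Finset (Fin M)) (ω : Vec M k → ℝ) (r : Vec M k) :
    tr γ (ext G Q (restr F (cv P g Z)) (lam γ ω)) r =
      ∑ s, ∑ y, Yv P g Z s * ω y * ∏ j, EUP_L G F (j ∈ Q) (al P j) (γ j) (r j) (s j) (y j) := by
  unfold tr
  simp_rw [EUP_ext P hP, Finset.sum_mul]
  rw [Finset.sum_comm]
  refine Finset.sum_congr rfl fun s _ => ?_
  rw [Finset.sum_comm]
  refine Finset.sum_congr rfl fun y _ => ?_
  unfold EUP_L
  rw [← INV_sum_prod (fun j x => EUP_T G F (j ∈ Q) (al P j) (γ j) x (s j) (y j) *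
    Al (γ j) (r j) x), Finset.mul_sum]
  refine Finset.sum_congr rfl fun x _ => ?_
  rw [Finset.prod_mul_distrib]
  ring

theorem EUP_Yv_nonneg (P : Fin M → ℕ) {g : ℕ → ℝ} (hg : GHyp g) (Z : ℝ) (s : Vec M k) :
    0 ≤ Yv P g Z s := by
  unfold Yv
  split_ifs
  · exact Finset.prod_nonneg fun i _ => hg.1 _
  · exact le_refl _

/-- the weights in the Cauchy-Schwarz inequality -/
noncomputable def EUP_c (G : Finset (Fin k)) (γ : ℝ) : Option (Fin k) → Option (Fin k) → ℝ
  | some i, some _ => if i ∈ G then Real.sqrt γ else 1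
  | _, _ => 1

theorem EUP_c_pos (G : Finset (Fin k)) {γ : ℝ} (hγ : 0 < γ) (r s : Option (Fin k)) :
    0 < EUP_c G γ r s := by
  rcases r with _ | i <;> rcases s with _ | l <;> simp only [EUP_c] <;> (try split_ifs) <;>
    positivity

/-- local bound after summation -/
noncomputable def EUP_D (F : Finset (Fin k)) (q : Prop) (α : ℝ) :
    Option (Fin k) → Option (Fin k) → ℝ
  | none, none => 1
  | none, some l => if q then α else if l ∈ F then α * (1 + 2 * Real.sqrt α) else
      7 * (α * Real.sqrt α)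
  | some _, none => 0
  | some i, some l => if ¬ q ∧ i ∉ F ∧ l = i then (1 + α) * (1 + 2 * α) else 0

theorem EUP_D_nonneg (F : Finset (Fin k)) (q : Prop) {α : ℝ} (hα : 0 ≤ α)
    (r s : Option (Fin k)) : 0 ≤ EUP_D F q α r s := by
  rcases r with _ | i <;> rcases s with _ | l <;> simp only [EUP_D] <;> (try split_ifs) <;>
    positivity

theorem EUP_sqrt {α : ℝ} (h0 : 0 < α) (h1 : α ≤ 1) : α ≤ Real.sqrt α ∧ Real.sqrt α ≤ 1 := by
  constructor
  · apply Real.le_sqrt_of_sq_le
    nlinarith
  · rw [← Real.sqrt_one]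
    exact Real.sqrt_le_sqrt h1

/-- the local inequality for the first factor -/
theorem EUP_LA (G F : Finset (Fin k)) (hGF : G ⊆ F) (hG2 : (G.card : ℝ) ≤ 2) (q : Prop)
    {α γ : ℝ} (hα0 : 0 < α) (hα1 : α ≤ 1) (_hγ0 : 0 < γ) (hγ : γ ≤ α)
    (r s : Option (Fin k)) :
    ∑ y, EUP_K G F q α r s y * EUP_c G γ r s ≤ EUP_D F q α (EUP_er G r) s := by
  obtain ⟨hs1, hs2⟩ := EUP_sqrt hα0 hα1
  have hs0 : 0 < Real.sqrt α := Real.sqrt_pos.mpr hα0
  have hsγ : Real.sqrt γ ≤ Real.sqrt α := Real.sqrt_le_sqrt hγ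
  have hsγ1 : Real.sqrt γ ≤ 1 := hsγ.trans hs2
  have hsγ0 : 0 ≤ Real.sqrt γ := Real.sqrt_nonneg _
  rw [← Finset.sum_mul, Fintype.sum_option]
  rcases r with _ | i
  · rw [EUP_er_none]
    rcases s with _ | l
    · simp [EUP_K, EUP_c, EUP_D]
    · simp only [EUP_K, EUP_c, EUP_D, mul_one]
      by_cases hq : q
      · rw [if_pos (Or.inl hq), if_pos hq]
        have : ∑ x : Fin k, (if ¬ q ∧ l ∉ F ∧ x ∈ G then 2 * α ^ 2 else 0) = 0 := by
          apply Finset.sum_eq_zero
          intro x _
          rw [if_neg (by push Not; intro h; exact absurd hq h)]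
        rw [this, add_zero]
      · rw [if_neg hq]
        by_cases hl : l ∈ F
        · rw [if_pos (Or.inr hl), if_pos hl]
          have : ∑ x : Fin k, (if ¬ q ∧ l ∉ F ∧ x ∈ G then 2 * α ^ 2 else 0) = 0 := by
            apply Finset.sum_eq_zero
            intro x _
            rw [if_neg (by push Not; intro _ h; exact absurd hl h)]
          rw [this, add_zero]
          nlinarith [mul_pos hα0 hs0]
        · rw [if_neg (by push Not; exact ⟨hq, hl⟩), if_neg hl]
          have : ∑ x : Fin k, (if ¬ q ∧ l ∉ F ∧ x ∈ G then 2 * α ^ 2 else 0) =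
              G.card * (2 * α ^ 2) := by
            have h1 : ∀ x : Fin k, (if ¬ q ∧ l ∉ F ∧ x ∈ G then 2 * α ^ 2 else 0) =
                if x ∈ G then 2 * α ^ 2 else 0 := by
              intro x; simp [hq, hl]
            rw [Finset.sum_congr rfl fun x _ => h1 x, Finset.sum_ite_mem, Finset.univ_inter,
              Finset.sum_const, nsmul_eq_mul]
          rw [this]
          have h2 : (G.card : ℝ) * (2 * α ^ 2) ≤ 2 * (2 * α ^ 2) :=
            mul_le_mul_of_nonneg_right hG2 (by positivity)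
          have h3 : α ^ 2 ≤ α * Real.sqrt α := by nlinarith
          nlinarith
  · by_cases hiG : i ∈ G
    · have hiF : i ∈ F := hGF hiG
      rw [EUP_er_mem hiG]
      rcases s with _ | l
      · simp only [EUP_K, EUP_c, EUP_D, mul_one, zero_add]
        have h1 : ∑ x : Fin k, (if ¬ q ∧ i ∈ G ∧ x = i then (1 : ℝ) else 0) ≤
            ∑ x : Fin k, (if x = i then (1 : ℝ) else 0) := by
          apply Finset.sum_le_sum
          intro x _
          split_ifs with h2 h3 h3
          · exact le_refl _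
          · exact absurd h2.2.2 h3
          · norm_num
          · exact le_refl _
        refine h1.trans ?_
        simp
      · simp only [EUP_K, EUP_c, EUP_D]
        rw [if_pos hiG, if_neg (by push Not; intro _ h; exact absurd hiF h), zero_add]
        have h1 : ∑ x : Fin k, (if ¬ q ∧ i ∉ F ∧ l = i ∧ x ∈ G then (1 + α) * α else
            if ¬ q ∧ i ∈ G ∧ x = i then α else 0) ≤ if q then 0 else α := by
          have h2 : ∀ x : Fin k, (if ¬ q ∧ i ∉ F ∧ l = i ∧ x ∈ G then (1 + α) * α else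
            if ¬ q ∧ i ∈ G ∧ x = i then α else 0) = if x = i then (if q then 0 else α) else 0 := by
            intro x
            rw [if_neg (by push Not; intro _ h; exact absurd hiF h)]
            by_cases hq : q <;> simp [hq, hiG]
          rw [Finset.sum_congr rfl fun x _ => h2 x]
          simp
        by_cases hq : q
        · rw [if_pos hq] at h1 ⊢
          have := mul_le_mul_of_nonneg_right h1 hsγ0
          linarith
        · rw [if_neg hq] at h1 ⊢
          have h3 := mul_le_mul_of_nonneg_right h1 hsγ0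
          have h4 : α * Real.sqrt γ ≤ α * Real.sqrt α := mul_le_mul_of_nonneg_left hsγ hα0.le
          have h5 : α * Real.sqrt γ ≤ α * 1 := mul_le_mul_of_nonneg_left hsγ1 hα0.le
          split_ifs
          · nlinarith [mul_pos hα0 hs0]
          · nlinarith [mul_pos hα0 hs0]
    · rw [EUP_er_not hiG]
      rcases s with _ | l
      · simp [EUP_K, EUP_c, EUP_D, hiG]
      · simp only [EUP_K, EUP_c, EUP_D]
        rw [if_neg hiG, mul_one]
        have h2 : ∀ x : Fin k, (if ¬ q ∧ i ∉ F ∧ l = i ∧ x ∈ G then (1 + α) * α else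
            if ¬ q ∧ i ∈ G ∧ x = i then α else 0) =
            if x ∈ G then (if ¬ q ∧ i ∉ F ∧ l = i then (1 + α) * α else 0) else 0 := by
          intro x
          by_cases hx : x ∈ G <;> simp [hx, hiG]
        rw [Finset.sum_congr rfl fun x _ => h2 x, Finset.sum_ite_mem, Finset.univ_inter,
          Finset.sum_const, nsmul_eq_mul]
        by_cases hc : ¬ q ∧ i ∉ F ∧ l = i
        · rw [if_pos hc, if_pos hc, if_pos hc]
          have h3 : (G.card : ℝ) * ((1 + α) * α) ≤ 2 * ((1 + α) * α) :=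
            mul_le_mul_of_nonneg_right hG2 (by positivity)
          nlinarith
        · rw [if_neg hc, if_neg hc, if_neg hc]
          simp

/-- the local sums for the second factor -/
noncomputable def EUP_R (G F : Finset (Fin k)) (q : Prop) (α γ : ℝ)
    (r0 s y : Option (Fin k)) : ℝ :=
  ∑ ρ, if EUP_er G ρ = r0 then om γ (EUP_on G ρ) * (EUP_K G F q α ρ s y / EUP_c G γ ρ s) else 0

theorem EUP_om_nonneg {γ : ℝ} (hγ : 0 ≤ γ) (x : Option (Fin k)) : 0 ≤ om γ x := by
  rcases x with _ | i <;> simp only [om] <;> linarith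

theorem EUP_R_nonneg (G F : Finset (Fin k)) (q : Prop) {α γ : ℝ} (hα : 0 ≤ α) (hγ : 0 < γ)
    (r0 s y : Option (Fin k)) : 0 ≤ EUP_R G F q α γ r0 s y := by
  unfold EUP_R
  apply Finset.sum_nonneg
  intro ρ _
  split_ifs
  · exact mul_nonneg (EUP_om_nonneg hγ.le _) (div_nonneg (EUP_K_nonneg G F q hα _ _ _)
      (EUP_c_pos G hγ _ _).le)
  · exact le_refl _

theorem EUP_LB0 (G F : Finset (Fin k)) (q : Prop) {α γ : ℝ} (hγ : 0 < γ)
    (r0 y : Option (Fin k)) :
    EUP_R G F q α γ r0 none y ≤ EUP_D F q α r0 none * om γ y := by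
  unfold EUP_R
  rw [Fintype.sum_option]
  rcases r0 with _ | i0
  · rw [if_pos (EUP_er_none G), EUP_on_none]
    rcases y with _ | e
    · have h1 : ∀ i : Fin k, (if EUP_er G (some i) = none then om γ (EUP_on G (some i)) *
          (EUP_K G F q α (some i) none none / EUP_c G γ (some i) none) else 0) = 0 := by
        intro i
        simp [EUP_K]
      rw [Finset.sum_congr rfl fun i _ => h1 i]
      simp [EUP_K, EUP_c, EUP_D, om]
    · have h1 : ∀ i : Fin k, (if EUP_er G (some i) = none then om γ (EUP_on G (some i)) *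
          (EUP_K G F q α (some i) none (some e) / EUP_c G γ (some i) none) else 0) ≤
            if i = e then γ else 0 := by
        intro i
        by_cases hiG : i ∈ G
        · rw [EUP_er_mem hiG, EUP_on_mem hiG, if_pos rfl]
          simp only [EUP_K, EUP_c, om]
          by_cases hie : i = e
          · subst hie
            rw [if_pos rfl]
            split_ifs
            · simp
            · simp; exact hγ.le
          · rw [if_neg hie, if_neg (by push Not; intro _ _ h; exact hie h.symm)]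
            simp
        · rw [EUP_er_not hiG, if_neg (by simp)]
          split_ifs <;> linarith
      have h2 := Finset.sum_le_sum fun i (_ : i ∈ (univ : Finset (Fin k))) => h1 i
      simp only [EUP_K, EUP_c, EUP_D, om] at h2 ⊢
      simp only [Finset.sum_ite_eq', Finset.mem_univ, if_true] at h2
      linarith
  · rw [EUP_er_none, if_neg (by simp)]
    have h1 : ∀ i : Fin k, (if EUP_er G (some i) = some i0 then om γ (EUP_on G (some i)) *
        (EUP_K G F q α (some i) none y / EUP_c G γ (some i) none) else 0) = 0 := by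
      intro i
      by_cases hiG : i ∈ G
      · rw [EUP_er_mem hiG, if_neg (by simp)]
      · rcases y with _ | e
        · simp [EUP_K]
        · simp [EUP_K, hiG]
    rw [Finset.sum_congr rfl fun i _ => h1 i]
    simp [EUP_D]

theorem EUP_LB1 (G F : Finset (Fin k)) (hGF : G ⊆ F) (hG2 : (G.card : ℝ) ≤ 2) (q : Prop)
    {α γ : ℝ} (hα0 : 0 < α) (hα1 : α ≤ 1) (hγ0 : 0 < γ) (hγ : γ ≤ α)
    (r0 : Option (Fin k)) (l : Fin k) :
    ∑ y, EUP_R G F q α γ r0 (some l) y ≤ EUP_D F q α r0 (some l) := by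
  obtain ⟨hs1, hs2⟩ := EUP_sqrt hα0 hα1
  have hs0 : 0 < Real.sqrt α := Real.sqrt_pos.mpr hα0
  have hsγ : Real.sqrt γ ≤ Real.sqrt α := Real.sqrt_le_sqrt hγ
  have hsγ0 : 0 < Real.sqrt γ := Real.sqrt_pos.mpr hγ0
  -- the inner sums over `y`
  have hLA := EUP_LA G F hGF hG2 q hα0 hα1 hγ0 hγ
  unfold EUP_R
  rw [Finset.sum_comm]
  have h0 : ∀ ρ : Option (Fin k), ∑ y, (if EUP_er G ρ = r0 then om γ (EUP_on G ρ) *
      (EUP_K G F q α ρ (some l) y / EUP_c G γ ρ (some l)) else 0) =
      if EUP_er G ρ = r0 then om γ (EUP_on G ρ) / EUP_c G γ ρ (some l) ^ 2 *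
        ∑ y, EUP_K G F q α ρ (some l) y * EUP_c G γ ρ (some l) else 0 := by
    intro ρ
    have hc := EUP_c_pos G hγ0 ρ (some l)
    split_ifs
    · rw [Finset.mul_sum]
      refine Finset.sum_congr rfl fun y _ => ?_
      field_simp
    · simp
  rw [Finset.sum_congr rfl fun ρ _ => h0 ρ, Fintype.sum_option]
  rcases r0 with _ | i0
  · rw [if_pos (EUP_er_none G), EUP_on_none]
    have e1 : ∑ y, EUP_K G F q α none (some l) y * EUP_c G γ none (some l) ≤
        if q then α else if l ∈ F then α else 5 * (α * Real.sqrt α) := by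
      rw [Fintype.sum_option]
      simp only [EUP_K, EUP_c, mul_one]
      by_cases hq : q
      · rw [if_pos (Or.inl hq), if_pos hq]
        have : ∑ x : Fin k, (if ¬ q ∧ l ∉ F ∧ x ∈ G then 2 * α ^ 2 else 0) = 0 := by
          apply Finset.sum_eq_zero
          intro x _
          rw [if_neg (by push Not; intro h; exact absurd hq h)]
        rw [this, add_zero]
      · rw [if_neg hq]
        by_cases hl : l ∈ F
        · rw [if_pos (Or.inr hl), if_pos hl]
          have : ∑ x : Fin k, (if ¬ q ∧ l ∉ F ∧ x ∈ G then 2 * α ^ 2 else 0) = 0 := by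
            apply Finset.sum_eq_zero
            intro x _
            rw [if_neg (by push Not; intro _ h; exact absurd hl h)]
          rw [this, add_zero]
        · rw [if_neg (by push Not; exact ⟨hq, hl⟩), if_neg hl]
          have : ∑ x : Fin k, (if ¬ q ∧ l ∉ F ∧ x ∈ G then 2 * α ^ 2 else 0) =
              G.card * (2 * α ^ 2) := by
            have h1 : ∀ x : Fin k, (if ¬ q ∧ l ∉ F ∧ x ∈ G then 2 * α ^ 2 else 0) =
                if x ∈ G then 2 * α ^ 2 else 0 := by
              intro x; simp [hq, hl]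
            rw [Finset.sum_congr rfl fun x _ => h1 x, Finset.sum_ite_mem, Finset.univ_inter,
              Finset.sum_const, nsmul_eq_mul]
          rw [this]
          have h2 : (G.card : ℝ) * (2 * α ^ 2) ≤ 2 * (2 * α ^ 2) :=
            mul_le_mul_of_nonneg_right hG2 (by positivity)
          have h3 : α ^ 2 ≤ α * Real.sqrt α := by nlinarith
          nlinarith
    have e2 : ∀ i : Fin k, (if EUP_er G (some i) = none then om γ (EUP_on G (some i)) /
        EUP_c G γ (some i) (some l) ^ 2 * ∑ y, EUP_K G F q α (some i) (some l) y *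
          EUP_c G γ (some i) (some l) else 0) ≤
        if i ∈ G then (if q then 0 else α * Real.sqrt α) else 0 := by
      intro i
      by_cases hiG : i ∈ G
      · have hiF : i ∈ F := hGF hiG
        rw [EUP_er_mem hiG, EUP_on_mem hiG, if_pos rfl, if_pos hiG, Fintype.sum_option]
        simp only [EUP_K, EUP_c, om]
        rw [if_pos hiG, if_neg (by push Not; intro _ h; exact absurd hiF h), zero_mul, zero_add,
          Real.sq_sqrt hγ0.le, div_self hγ0.ne', one_mul]
        have h2 : ∀ x : Fin k, (if ¬ q ∧ i ∉ F ∧ l = i ∧ x ∈ G then (1 + α) * α else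
            if ¬ q ∧ i ∈ G ∧ x = i then α else 0) * Real.sqrt γ =
            if x = i then (if q then 0 else α * Real.sqrt γ) else 0 := by
          intro x
          rw [if_neg (by push Not; intro _ h; exact absurd hiF h)]
          by_cases hq : q <;> simp [hq, hiG]
        rw [Finset.sum_congr rfl fun x _ => h2 x]
        simp only [Finset.sum_ite_eq', Finset.mem_univ, if_true]
        split_ifs
        · exact le_refl _
        · exact mul_le_mul_of_nonneg_left hsγ hα0.le
      · rw [EUP_er_not hiG, if_neg (by simp), if_neg hiG]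
    have e3 := Finset.sum_le_sum fun i (_ : i ∈ (univ : Finset (Fin k))) => e2 i
    rw [Finset.sum_ite_mem, Finset.univ_inter, Finset.sum_const, nsmul_eq_mul] at e3
    have e4 : om γ (none : Option (Fin k)) / EUP_c G γ (none : Option (Fin k)) (some l) ^ 2 = 1 := by
      simp [om, EUP_c]
    rw [e4, one_mul]
    simp only [EUP_D]
    by_cases hq : q
    · rw [if_pos hq] at e1 e3 ⊢
      linarith
    · rw [if_neg hq] at e1 e3 ⊢
      have e5 : (G.card : ℝ) * (α * Real.sqrt α) ≤ 2 * (α * Real.sqrt α) :=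
        mul_le_mul_of_nonneg_right hG2 (by positivity)
      split_ifs at e1 ⊢ with hl
      · nlinarith
      · nlinarith
  · rw [EUP_er_none, if_neg (by simp), zero_add]
    by_cases hi0 : i0 ∈ G
    · have h1 : ∀ i : Fin k, (if EUP_er G (some i) = some i0 then om γ (EUP_on G (some i)) /
        EUP_c G γ (some i) (some l) ^ 2 * ∑ y, EUP_K G F q α (some i) (some l) y *
          EUP_c G γ (some i) (some l) else 0) = 0 := by
        intro i
        by_cases hiG : i ∈ G
        · rw [EUP_er_mem hiG, if_neg (by simp)]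
        · rw [EUP_er_not hiG, if_neg]
          intro h
          exact hiG ((Option.some_injective _ h) ▸ hi0)
      rw [Finset.sum_congr rfl fun i _ => h1 i, Finset.sum_const_zero]
      exact EUP_D_nonneg F q hα0.le _ _
    · have h1 : ∀ i : Fin k, (if EUP_er G (some i) = some i0 then om γ (EUP_on G (some i)) /
        EUP_c G γ (some i) (some l) ^ 2 * ∑ y, EUP_K G F q α (some i) (some l) y *
          EUP_c G γ (some i) (some l) else 0) = if i = i0 then
          ∑ y, EUP_K G F q α (some i0) (some l) y * EUP_c G γ (some i0) (some l) else 0 := by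
        intro i
        by_cases hiG : i ∈ G
        · rw [EUP_er_mem hiG, if_neg (by simp), if_neg]
          rintro rfl
          exact hi0 hiG
        · rw [EUP_er_not hiG]
          by_cases hii : i = i0
          · subst hii
            rw [if_pos rfl, if_pos rfl, EUP_on_not hiG]
            simp [om, EUP_c, hiG]
          · rw [if_neg (fun h => hii (Option.some_injective _ h)), if_neg hii]
      rw [Finset.sum_congr rfl fun i _ => h1 i]
      simp only [Finset.sum_ite_eq', Finset.mem_univ, if_true]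
      have h2 := hLA (some i0) (some l)
      rwa [EUP_er_not hi0] at h2



/-- the sum `S(r₀)` -/
noncomputable def EUP_S (P : Fin M → ℕ) (g : ℕ → ℝ) (Z : ℝ) (F : Finset (Fin k))
    (Q : Finset (Fin M)) (r0 : Vec M k) : ℝ :=
  ∑ s, Yv P g Z s * ∏ j, EUP_D F (j ∈ Q) (al P j) (r0 j) (s j)

/-- the second factor in the Cauchy-Schwarz inequality -/
noncomputable def EUP_B (P : Fin M → ℕ) (g : ℕ → ℝ) (Z : ℝ) (G F : Finset (Fin k))
    (Q : Finset (Fin M)) (γ : Fin M → ℝ) (ω : Vec M k → ℝ) (r : Vec M k) : ℝ :=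
  ∑ s, ∑ y, Yv P g Z s * ω y ^ 2 *
    ∏ j, (EUP_K G F (j ∈ Q) (al P j) (r j) (s j) (y j) / EUP_c G (γ j) (r j) (s j))

theorem EUP_CS (P : Fin M → ℕ) (hP : ∀ j, (P j).Prime) (γ : Fin M → ℝ)
    (hγ0 : ∀ j, 1 / (P j : ℝ) ≤ γ j) (hγ1 : ∀ j, γ j ≤ al P j) (g : ℕ → ℝ) (hg : GHyp g) (Z : ℝ)
    (F G : Finset (Fin k)) (hGF : G ⊆ F) (hG2 : (G.card : ℝ) ≤ 2) (Q : Finset (Fin M))
    (ω : Vec M k → ℝ) (hω0 : ∀ y, 0 ≤ ω y)
    (hωG : ∀ y, ω y ≠ 0 → Vals G y ∧ ∀ j ∈ Q, y j = none) (r : Vec M k) :
    tr γ (ext G Q (restr F (cv P g Z)) (lam γ ω)) r ^ 2 ≤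
      EUP_S P g Z F Q (er G r) * EUP_B P g Z G F Q γ ω r := by
  have hal := EUP_al P hP
  have hP0 : ∀ j, (0 : ℝ) < 1 / (P j : ℝ) := fun j => by have := (hP j).pos; positivity
  have hγp : ∀ j, 0 < γ j := fun j => lt_of_lt_of_le (hP0 j) (hγ0 j)
  have hY := EUP_Yv_nonneg P hg Z (k := k)
  set X : ℝ := ∑ s, ∑ y, Yv P g Z s * ω y *
    ∏ j, EUP_K G F (j ∈ Q) (al P j) (r j) (s j) (y j) with hX
  have h1 : |tr γ (ext G Q (restr F (cv P g Z)) (lam γ ω)) r| ≤ X := by
    rw [EUP_tr P hP]
    refine (Finset.abs_sum_le_sum_abs _ _).trans (Finset.sum_le_sum fun s _ => ?_)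
    refine (Finset.abs_sum_le_sum_abs _ _).trans (Finset.sum_le_sum fun y _ => ?_)
    rw [abs_mul, abs_of_nonneg (mul_nonneg (hY s) (hω0 y)), Finset.abs_prod]
    by_cases hy : ω y = 0
    · rw [hy]; simp
    · apply mul_le_mul_of_nonneg_left _ (mul_nonneg (hY s) (hω0 y))
      apply Finset.prod_le_prod (fun j _ => abs_nonneg _)
      intro j _
      obtain ⟨hyG, hyQ⟩ := hωG y hy
      exact EUP_L_le G F hGF (j ∈ Q) (hal j).1 (hal j).2.1 (hal j).2.2 (hP0 j) (hγ0 j) (hγ1 j)
        _ _ _ (fun e he => hyG j e he) (fun hj => hyQ j hj)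
  have h2 : X ^ 2 ≤ (∑ s, ∑ y : Vec M k, Yv P g Z s *
      ∏ j, (EUP_K G F (j ∈ Q) (al P j) (r j) (s j) (y j) * EUP_c G (γ j) (r j) (s j))) *
      EUP_B P g Z G F Q γ ω r := by
    rw [hX]
    unfold EUP_B
    rw [← Fintype.sum_prod_type' (f := fun s y : Vec M k => Yv P g Z s * ω y *
        ∏ j, EUP_K G F (j ∈ Q) (al P j) (r j) (s j) (y j)),
      ← Fintype.sum_prod_type' (f := fun s y : Vec M k => Yv P g Z s *
      ∏ j, (EUP_K G F (j ∈ Q) (al P j) (r j) (s j) (y j) * EUP_c G (γ j) (r j) (s j))),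
      ← Fintype.sum_prod_type' (f := fun s y : Vec M k => Yv P g Z s * ω y ^ 2 *
    ∏ j, (EUP_K G F (j ∈ Q) (al P j) (r j) (s j) (y j) / EUP_c G (γ j) (r j) (s j)))]
    have hK0 : ∀ s y : Vec M k, 0 ≤ ∏ j, EUP_K G F (j ∈ Q) (al P j) (r j) (s j) (y j) :=
      fun s y => Finset.prod_nonneg fun j _ => EUP_K_nonneg G F _ (hal j).1.le _ _ _
    have hc0 : ∀ s : Vec M k, 0 < ∏ j, EUP_c G (γ j) (r j) (s j) :=
      fun s => Finset.prod_pos fun j _ => EUP_c_pos G (hγp j) _ _
    apply Finset.sum_sq_le_sum_mul_sum_of_sq_le_mul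
    · rintro ⟨s, y⟩ _
      simp only
      rw [Finset.prod_mul_distrib]
      exact mul_nonneg (hY s) (mul_nonneg (hK0 s y) (hc0 s).le)
    · rintro ⟨s, y⟩ _
      simp only
      rw [Finset.prod_div_distrib]
      exact mul_nonneg (mul_nonneg (hY s) (sq_nonneg _)) (div_nonneg (hK0 s y) (hc0 s).le)
    · rintro ⟨s, y⟩ _
      simp only
      rw [Finset.prod_mul_distrib, Finset.prod_div_distrib]
      have := (hc0 s).ne'
      apply le_of_eq
      field_simp
  have h3 : ∑ s, ∑ y : Vec M k, Yv P g Z s *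
      ∏ j, (EUP_K G F (j ∈ Q) (al P j) (r j) (s j) (y j) * EUP_c G (γ j) (r j) (s j)) ≤
      EUP_S P g Z F Q (er G r) := by
    unfold EUP_S
    apply Finset.sum_le_sum
    intro s _
    rw [← Finset.mul_sum]
    apply mul_le_mul_of_nonneg_left _ (hY s)
    rw [INV_sum_prod (fun j y => EUP_K G F (j ∈ Q) (al P j) (r j) (s j) y *
      EUP_c G (γ j) (r j) (s j))]
    apply Finset.prod_le_prod
    · intro j _
      exact Finset.sum_nonneg fun y _ => mul_nonneg (EUP_K_nonneg G F _ (hal j).1.le _ _ _)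
        (EUP_c_pos G (hγp j) _ _).le
    · intro j _
      exact EUP_LA G F hGF hG2 (j ∈ Q) (hal j).1 (hal j).2.1 (hγp j) (hγ1 j) (r j) (s j)
  have hB0 : 0 ≤ EUP_B P g Z G F Q γ ω r := by
    unfold EUP_B
    apply Finset.sum_nonneg; intro s _
    apply Finset.sum_nonneg; intro y _
    apply mul_nonneg (mul_nonneg (hY s) (sq_nonneg _))
    apply Finset.prod_nonneg; intro j _
    exact div_nonneg (EUP_K_nonneg G F _ (hal j).1.le _ _ _) (EUP_c_pos G (hγp j) _ _).le
  calc tr γ (ext G Q (restr F (cv P g Z)) (lam γ ω)) r ^ 2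
      = |tr γ (ext G Q (restr F (cv P g Z)) (lam γ ω)) r| ^ 2 := (sq_abs _).symm
    _ ≤ X ^ 2 := pow_le_pow_left₀ (abs_nonneg _) h1 2
    _ ≤ _ := h2
    _ ≤ _ := mul_le_mul_of_nonneg_right h3 hB0

theorem EUP_inner (P : Fin M → ℕ) (hP : ∀ j, (P j).Prime) (γ : Fin M → ℝ)
    (hγ0 : ∀ j, 1 / (P j : ℝ) ≤ γ j) (hγ1 : ∀ j, γ j ≤ al P j) (Z : ℝ)
    (F G : Finset (Fin k)) (hGF : G ⊆ F) (hG2 : (G.card : ℝ) ≤ 2) (Q : Finset (Fin M))
    (ω : Vec M k → ℝ)
    (hωG : ∀ y, ω y ≠ 0 → Vals G y ∧ ∀ j ∈ Q, y j = none) (H : ℝ) (hH0 : 0 ≤ H)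
    (hH : ∀ τ : Vec M k, Vals G τ → (dv P τ : ℝ) ≤ Z →
      ∑ y ∈ (univ : Finset (Vec M k)).filter (fun y => Vals G y ∧ Dis y τ),
        ω (join y τ) ^ 2 * gw γ y ≤ H) (r0 s : Vec M k) (hs : (dv P s : ℝ) ≤ Z) :
    ∑ y, ω y ^ 2 * ∏ j, EUP_R G F (j ∈ Q) (al P j) (γ j) (r0 j) (s j) (y j) ≤
      H * ∏ j, EUP_D F (j ∈ Q) (al P j) (r0 j) (s j) := by
  have hal := EUP_al P hP
  have hP0 : ∀ j, (0 : ℝ) < 1 / (P j : ℝ) := fun j => by have := (hP j).pos; positivity
  have hγp : ∀ j, 0 < γ j := fun j => lt_of_lt_of_le (hP0 j) (hγ0 j)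
  set tt : Vec M k → Vec M k := fun y j => if s j = none then none else y j with htt
  set yy : Vec M k → Vec M k := fun y j => if s j = none then y j else none with hyy
  set lo : Fin M → Option (Fin k) → ℝ := fun j t =>
    if s j = none then (if t = none then EUP_D F (j ∈ Q) (al P j) (r0 j) none else 0)
      else EUP_R G F (j ∈ Q) (al P j) (γ j) (r0 j) (s j) t with hlo
  have hlo0 : ∀ j t, 0 ≤ lo j t := by
    intro j t
    simp only [hlo]
    split_ifs
    · exact EUP_D_nonneg F _ (hal j).1.le _ _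
    · exact le_refl _
    · exact EUP_R_nonneg G F _ (hal j).1.le (hγp j) _ _ _
  have hgw0 : ∀ y : Vec M k, 0 ≤ gw γ y := by
    intro y
    unfold gw
    exact Finset.prod_nonneg fun j _ => EUP_om_nonneg (hγp j).le _
  have hjoin : ∀ y : Vec M k, join (yy y) (tt y) = y := by
    intro y
    funext j
    unfold join
    simp only [hyy, htt]
    by_cases h : s j = none
    · simp only [h, if_true]
      by_cases h2 : y j = none
      · simp [h2]
      · simp [h2]
    · simp [h]
  have hpt : ∀ y : Vec M k, ω y ^ 2 *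
      ∏ j, EUP_R G F (j ∈ Q) (al P j) (γ j) (r0 j) (s j) (y j) ≤
      (∏ j, lo j (tt y j)) * (ω (join (yy y) (tt y)) ^ 2 * gw γ (yy y)) := by
    intro y
    rw [hjoin]
    have h1 : ∏ j, EUP_R G F (j ∈ Q) (al P j) (γ j) (r0 j) (s j) (y j) ≤
        (∏ j, lo j (tt y j)) * gw γ (yy y) := by
      unfold gw
      rw [← Finset.prod_mul_distrib]
      apply Finset.prod_le_prod
      · intro j _
        exact EUP_R_nonneg G F _ (hal j).1.le (hγp j) _ _ _
      · intro j _
        simp only [hlo, htt, hyy]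
        by_cases h : s j = none
        · simp only [h, if_true]
          exact EUP_LB0 G F (j ∈ Q) (hγp j) (r0 j) (y j)
        · simp only [h, if_false, om, mul_one]
          exact le_refl _
    calc ω y ^ 2 * ∏ j, EUP_R G F (j ∈ Q) (al P j) (γ j) (r0 j) (s j) (y j)
        ≤ ω y ^ 2 * ((∏ j, lo j (tt y j)) * gw γ (yy y)) :=
          mul_le_mul_of_nonneg_left h1 (sq_nonneg _)
      _ = _ := by ring
  have hfib : ∀ τ : Vec M k, ∑ y ∈ univ.filter (fun y => tt y = τ),
      ω (join (yy y) τ) ^ 2 * gw γ (yy y) ≤ H := by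
    intro τ
    have h1 : ∑ y ∈ univ.filter (fun y => tt y = τ), ω (join (yy y) τ) ^ 2 * gw γ (yy y) =
        ∑ y ∈ univ.filter (fun y => tt y = τ ∧ ω y ≠ 0),
          ω (join (yy y) τ) ^ 2 * gw γ (yy y) := by
      symm
      apply Finset.sum_subset
      · intro y hy
        rw [Finset.mem_filter] at hy ⊢
        exact ⟨hy.1, hy.2.1⟩
      · intro y hy hy2
        rw [Finset.mem_filter] at hy hy2
        have h3 : ω y = 0 := by
          by_contra h4
          exact hy2 ⟨hy.1, hy.2, h4⟩
        have h5 := hjoin y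
        rw [hy.2] at h5
        rw [h5, h3]
        simp
    rw [h1]
    by_cases hne : ∃ y : Vec M k, tt y = τ ∧ ω y ≠ 0
    · obtain ⟨y₀, hy₀, hω₀⟩ := hne
      have hτG : Vals G τ := by
        intro j i hji
        rw [← hy₀] at hji
        simp only [htt] at hji
        split_ifs at hji
        exact (hωG y₀ hω₀).1 j i hji
      have hτZ : (dv P τ : ℝ) ≤ Z := by
        refine le_trans ?_ hs
        unfold dv
        push_cast
        apply Finset.prod_le_prod
        · intro j _
          positivity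
        · intro j _
          have hp1 : (1 : ℝ) ≤ P j := by exact_mod_cast (hP j).one_lt.le
          have h6 : s j = none → τ j = none := by
            intro h7
            rw [← hy₀]
            simp only [htt]
            rw [if_pos h7]
          by_cases h7 : s j = none
          · rw [if_pos (h6 h7), if_pos h7]
          · rw [if_neg h7]
            split_ifs
            · exact_mod_cast hp1
            · exact le_refl _
      refine le_trans ?_ (hH τ hτG hτZ)
      have hinj : Set.InjOn yy ((univ.filter (fun y => tt y = τ ∧ ω y ≠ 0) : Finset (Vec M k)) :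
          Set (Vec M k)) := by
        intro y hy y' hy' h8
        have h9 := (Finset.mem_filter.1 (Finset.mem_coe.1 hy)).2.1
        have h10 := (Finset.mem_filter.1 (Finset.mem_coe.1 hy')).2.1
        rw [← hjoin y, ← hjoin y', h9, h10, h8]
      rw [← Finset.sum_image (f := fun y' : Vec M k => ω (join y' τ) ^ 2 * gw γ y') hinj]
      apply Finset.sum_le_sum_of_subset_of_nonneg
      · intro y' hy'
        obtain ⟨y, hy, rfl⟩ := Finset.mem_image.1 hy'
        have h9 := (Finset.mem_filter.1 hy).2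
        rw [Finset.mem_filter]
        refine ⟨Finset.mem_univ _, ?_, ?_⟩
        · intro j i hji
          simp only [hyy] at hji
          split_ifs at hji
          exact (hωG y h9.2).1 j i hji
        · intro j
          rw [← h9.1]
          simp only [hyy, htt]
          by_cases h10 : s j = none
          · right; simp [h10]
          · left; simp [h10]
      · intro y' _ _
        exact mul_nonneg (sq_nonneg _) (hgw0 _)
    · rw [Finset.filter_false_of_mem]
      · simpa using hH0
      · intro y _ h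
        exact hne ⟨y, h⟩
  calc ∑ y, ω y ^ 2 * ∏ j, EUP_R G F (j ∈ Q) (al P j) (γ j) (r0 j) (s j) (y j)
      ≤ ∑ y, (∏ j, lo j (tt y j)) * (ω (join (yy y) (tt y)) ^ 2 * gw γ (yy y)) :=
        Finset.sum_le_sum fun y _ => hpt y
    _ = ∑ τ, ∑ y ∈ univ.filter (fun y => tt y = τ),
          (∏ j, lo j (tt y j)) * (ω (join (yy y) (tt y)) ^ 2 * gw γ (yy y)) :=
        (Finset.sum_fiberwise _ _ _).symm
    _ = ∑ τ, (∏ j, lo j (τ j)) * ∑ y ∈ univ.filter (fun y => tt y = τ),
          ω (join (yy y) τ) ^ 2 * gw γ (yy y) := by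
        refine Finset.sum_congr rfl fun τ _ => ?_
        rw [Finset.mul_sum]
        refine Finset.sum_congr rfl fun y hy => ?_
        rw [(Finset.mem_filter.1 hy).2]
    _ ≤ ∑ τ : Vec M k, (∏ j, lo j (τ j)) * H := by
        apply Finset.sum_le_sum
        intro τ _
        exact mul_le_mul_of_nonneg_left (hfib τ) (Finset.prod_nonneg fun j _ => hlo0 j _)
    _ = H * ∏ j, ∑ t, lo j t := by
        rw [← Finset.sum_mul, INV_sum_prod lo, mul_comm]
    _ ≤ H * ∏ j, EUP_D F (j ∈ Q) (al P j) (r0 j) (s j) := by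
        apply mul_le_mul_of_nonneg_left _ hH0
        apply Finset.prod_le_prod
        · intro j _
          exact Finset.sum_nonneg fun t _ => hlo0 j t
        · intro j _
          simp only [hlo]
          rcases hsj : s j with _ | l
          · simp
          · simp only [reduceCtorEq, if_false]
            exact EUP_LB1 G F hGF hG2 (j ∈ Q) (hal j).1 (hal j).2.1 (hγp j) (hγ1 j) (r0 j) l

theorem EUP_fiber (P : Fin M → ℕ) (hP : ∀ j, (P j).Prime) (γ : Fin M → ℝ)
    (hγ0 : ∀ j, 1 / (P j : ℝ) ≤ γ j) (hγ1 : ∀ j, γ j ≤ al P j) (g : ℕ → ℝ) (hg : GHyp g) (Z : ℝ)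
    (F G : Finset (Fin k)) (hGF : G ⊆ F) (hG2 : (G.card : ℝ) ≤ 2) (Q : Finset (Fin M))
    (ω : Vec M k → ℝ)
    (hωG : ∀ y, ω y ≠ 0 → Vals G y ∧ ∀ j ∈ Q, y j = none) (H : ℝ) (hH0 : 0 ≤ H)
    (hH : ∀ τ : Vec M k, Vals G τ → (dv P τ : ℝ) ≤ Z →
      ∑ y ∈ (univ : Finset (Vec M k)).filter (fun y => Vals G y ∧ Dis y τ),
        ω (join y τ) ^ 2 * gw γ y ≤ H) (r0 : Vec M k) :
    ∑ r ∈ univ.filter (fun r => er G r = r0), gw γ (onn G r) * EUP_B P g Z G F Q γ ω r ≤
      H * EUP_S P g Z F Q r0 := by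
  have h1 : ∑ r ∈ univ.filter (fun r => er G r = r0),
      gw γ (onn G r) * EUP_B P g Z G F Q γ ω r =
      ∑ s, Yv P g Z s * ∑ y, ω y ^ 2 *
        ∏ j, EUP_R G F (j ∈ Q) (al P j) (γ j) (r0 j) (s j) (y j) := by
    unfold EUP_B
    simp_rw [Finset.mul_sum]
    rw [Finset.sum_comm]
    refine Finset.sum_congr rfl fun s _ => ?_
    rw [Finset.sum_comm]
    refine Finset.sum_congr rfl fun y _ => ?_
    unfold EUP_R
    rw [← INV_sum_prod (fun j ρ => if EUP_er G ρ = r0 j then om (γ j) (EUP_on G ρ) *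
      (EUP_K G F (j ∈ Q) (al P j) ρ (s j) (y j) / EUP_c G (γ j) ρ (s j)) else 0)]
    rw [Finset.sum_filter, Finset.mul_sum, Finset.mul_sum]
    refine Finset.sum_congr rfl fun r _ => ?_
    rw [Finset.prod_ite_zero]
    have h2 : (∀ j ∈ (univ : Finset (Fin M)), EUP_er G (r j) = r0 j) ↔ er G r = r0 := by
      constructor
      · intro h
        funext j
        exact h j (Finset.mem_univ _)
      · intro h j _
        rw [← h]
        rfl
    by_cases h3 : er G r = r0
    · rw [if_pos h3, if_pos (h2.mpr h3)]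
      unfold gw
      rw [Finset.prod_mul_distrib]
      simp only [EUP_onn_eq]
      ring
    · rw [if_neg h3, if_neg (fun h => h3 (h2.mp h))]
      simp
  rw [h1]
  unfold EUP_S
  rw [Finset.mul_sum]
  apply Finset.sum_le_sum
  intro s _
  by_cases hs : Yv P g Z s = 0
  · rw [hs]; simp
  · have hdv : (dv P s : ℝ) ≤ Z := by
      by_contra h
      exact hs (by unfold Yv; rw [if_neg h])
    have h2 := EUP_inner P hP γ hγ0 hγ1 Z F G hGF hG2 Q ω hωG H hH0 hH r0 s hdv
    calc Yv P g Z s * ∑ y, ω y ^ 2 *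
          ∏ j, EUP_R G F (j ∈ Q) (al P j) (γ j) (r0 j) (s j) (y j)
        ≤ Yv P g Z s * (H * ∏ j, EUP_D F (j ∈ Q) (al P j) (r0 j) (s j)) :=
          mul_le_mul_of_nonneg_left h2 (EUP_Yv_nonneg P hg Z s)
      _ = _ := by ring

theorem EUP_S_nonneg (P : Fin M → ℕ) (hP : ∀ j, (P j).Prime) {g : ℕ → ℝ} (hg : GHyp g) (Z : ℝ)
    (F : Finset (Fin k)) (Q : Finset (Fin M)) (r0 : Vec M k) : 0 ≤ EUP_S P g Z F Q r0 := by
  unfold EUP_S
  exact Finset.sum_nonneg fun s _ => mul_nonneg (EUP_Yv_nonneg P hg Z s)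
    (Finset.prod_nonneg fun j _ => EUP_D_nonneg F _ (EUP_al P hP j).1.le _ _)

theorem EUP_total (P : Fin M → ℕ) (hP : ∀ j, (P j).Prime) (γ : Fin M → ℝ)
    (hγ0 : ∀ j, 1 / (P j : ℝ) ≤ γ j) (hγ1 : ∀ j, γ j ≤ al P j) (g : ℕ → ℝ) (hg : GHyp g) (Z : ℝ)
    (F G : Finset (Fin k)) (hGF : G ⊆ F) (hG2 : (G.card : ℝ) ≤ 2) (Q : Finset (Fin M))
    (ω : Vec M k → ℝ) (hω0 : ∀ y, 0 ≤ ω y)
    (hωG : ∀ y, ω y ≠ 0 → Vals G y ∧ ∀ j ∈ Q, y j = none) (H : ℝ) (hH0 : 0 ≤ H)
    (hH : ∀ τ : Vec M k, Vals G τ → (dv P τ : ℝ) ≤ Z →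
      ∑ y ∈ (univ : Finset (Vec M k)).filter (fun y => Vals G y ∧ Dis y τ),
        ω (join y τ) ^ 2 * gw γ y ≤ H) :
    ∑ r, tr γ (ext G Q (restr F (cv P g Z)) (lam γ ω)) r ^ 2 * ∏ j, om (γ j) (r j) ≤
      H * ∑ r0, (∏ j, om (γ j) (r0 j)) * EUP_S P g Z F Q r0 ^ 2 := by
  have hP0 : ∀ j, (0 : ℝ) < 1 / (P j : ℝ) := fun j => by have := (hP j).pos; positivity
  have hγp : ∀ j, 0 < γ j := fun j => lt_of_lt_of_le (hP0 j) (hγ0 j)
  have hom : ∀ r : Vec M k, 0 ≤ ∏ j, om (γ j) (r j) := fun r =>
    Finset.prod_nonneg fun j _ => EUP_om_nonneg (hγp j).le _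
  have hsplit : ∀ r : Vec M k, ∏ j, om (γ j) (r j) =
      (∏ j, om (γ j) (er G r j)) * gw γ (onn G r) := by
    intro r
    unfold gw
    rw [← Finset.prod_mul_distrib]
    refine Finset.prod_congr rfl fun j _ => ?_
    rw [EUP_er_eq, EUP_onn_eq]
    rcases r j with _ | i
    · rw [EUP_er_none, EUP_on_none]; simp [om]
    · by_cases hi : i ∈ G
      · rw [EUP_er_mem hi, EUP_on_mem hi]; simp [om]
      · rw [EUP_er_not hi, EUP_on_not hi]; simp [om]
  calc ∑ r, tr γ (ext G Q (restr F (cv P g Z)) (lam γ ω)) r ^ 2 * ∏ j, om (γ j) (r j)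
      ≤ ∑ r, (EUP_S P g Z F Q (er G r) * EUP_B P g Z G F Q γ ω r) * ∏ j, om (γ j) (r j) :=
        Finset.sum_le_sum fun r _ => mul_le_mul_of_nonneg_right
          (EUP_CS P hP γ hγ0 hγ1 g hg Z F G hGF hG2 Q ω hω0 hωG r) (hom r)
    _ = ∑ r, EUP_S P g Z F Q (er G r) * (∏ j, om (γ j) (er G r j)) *
          (gw γ (onn G r) * EUP_B P g Z G F Q γ ω r) := by
        refine Finset.sum_congr rfl fun r _ => ?_
        rw [hsplit r]; ring
    _ = ∑ r0, ∑ r ∈ univ.filter (fun r => er G r = r0),
          EUP_S P g Z F Q (er G r) * (∏ j, om (γ j) (er G r j)) *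
          (gw γ (onn G r) * EUP_B P g Z G F Q γ ω r) := (Finset.sum_fiberwise _ _ _).symm
    _ = ∑ r0, EUP_S P g Z F Q r0 * (∏ j, om (γ j) (r0 j)) *
          ∑ r ∈ univ.filter (fun r => er G r = r0),
          (gw γ (onn G r) * EUP_B P g Z G F Q γ ω r) := by
        refine Finset.sum_congr rfl fun r0 _ => ?_
        rw [Finset.mul_sum]
        refine Finset.sum_congr rfl fun r hr => ?_
        rw [(Finset.mem_filter.1 hr).2]
    _ ≤ ∑ r0, EUP_S P g Z F Q r0 * (∏ j, om (γ j) (r0 j)) * (H * EUP_S P g Z F Q r0) := by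
        apply Finset.sum_le_sum
        intro r0 _
        apply mul_le_mul_of_nonneg_left
          (EUP_fiber P hP γ hγ0 hγ1 g hg Z F G hGF hG2 Q ω hωG H hH0 hH r0)
        exact mul_nonneg (EUP_S_nonneg P hP hg Z F Q r0) (hom r0)
    _ = H * ∑ r0, (∏ j, om (γ j) (r0 j)) * EUP_S P g Z F Q r0 ^ 2 := by
        rw [Finset.mul_sum]
        refine Finset.sum_congr rfl fun r0 _ => ?_
        ring



theorem EUP_Sg2_le (P : Fin M → ℕ) (hP : ∀ j, (P j).Prime) : Sg2 P ≤ Sg32 P := by
  unfold Sg2 Sg32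
  apply Finset.sum_le_sum
  intro j _
  obtain ⟨h0, h1, -⟩ := EUP_al P hP j
  have h2 := (EUP_sqrt h0 h1).1
  nlinarith

/-- perturbation of the weights -/
theorem EUP_perturb (P : Fin M → ℕ) (hP : ∀ j, (P j).Prime) (f : ℕ → ℝ) (hf0 : ∀ a, 0 ≤ f a)
    (hf : ∀ a b : ℕ, 1 ≤ a → 1 ≤ b → f (a * b) ≤ f a) (c : Fin M → ℝ) (hc : ∀ j, 0 ≤ c j) :
    ∑ U : Finset (Fin M), f (pr P U) * ∏ j ∈ U, (al P j * (1 + c j)) ≤
      Gsum P f * Real.exp (∑ j, al P j * c j) := by
  have hα : ∀ j, 0 ≤ al P j := fun j => (EUP_al P hP j).1.le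
  have e1 : ∀ U : Finset (Fin M), f (pr P U) * ∏ j ∈ U, (al P j * (1 + c j)) ≤
      ∑ T ∈ U.powerset, (∏ j ∈ T, (al P j * c j)) * (f (pr P (U \ T)) *
        ∏ j ∈ U \ T, al P j) := by
    intro U
    have e2 : ∏ j ∈ U, (al P j * (1 + c j)) =
        ∑ T ∈ U.powerset, (∏ j ∈ T, (al P j * c j)) * ∏ j ∈ U \ T, al P j := by
      rw [← Finset.prod_add]
      refine Finset.prod_congr rfl fun j _ => by ring
    rw [e2, Finset.mul_sum]
    refine Finset.sum_le_sum fun T hT => ?_
    have hTU := Finset.mem_powerset.1 hT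
    have e3 : pr P U = pr P (U \ T) * pr P T := by
      unfold pr
      rw [Finset.prod_sdiff hTU]
    have e4 : f (pr P U) ≤ f (pr P (U \ T)) := by
      rw [e3]
      exact hf _ _ (SUMU_pr_pos P hP _) (SUMU_pr_pos P hP _)
    have e6 : 0 ≤ (∏ j ∈ T, (al P j * c j)) * ∏ j ∈ U \ T, al P j :=
      mul_nonneg (Finset.prod_nonneg fun j _ => mul_nonneg (hα j) (hc j))
        (Finset.prod_nonneg fun j _ => hα j)
    calc f (pr P U) * ((∏ j ∈ T, (al P j * c j)) * ∏ j ∈ U \ T, al P j)
        ≤ f (pr P (U \ T)) * ((∏ j ∈ T, (al P j * c j)) * ∏ j ∈ U \ T, al P j) :=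
          mul_le_mul_of_nonneg_right e4 e6
      _ = _ := by ring
  refine (Finset.sum_le_sum fun U _ => e1 U).trans ?_
  have e7 : ∑ U : Finset (Fin M), ∑ T ∈ U.powerset, (∏ j ∈ T, (al P j * c j)) *
      (f (pr P (U \ T)) * ∏ j ∈ U \ T, al P j) =
      ∑ T : Finset (Fin M), ∑ U ∈ univ.filter (fun U => T ⊆ U), (∏ j ∈ T, (al P j * c j)) *
      (f (pr P (U \ T)) * ∏ j ∈ U \ T, al P j) := by
    apply Finset.sum_comm'
    intro U T
    simp
  rw [e7]
  have e8 : ∀ T : Finset (Fin M), ∑ U ∈ univ.filter (fun U => T ⊆ U),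
      (∏ j ∈ T, (al P j * c j)) * (f (pr P (U \ T)) * ∏ j ∈ U \ T, al P j) ≤
      (∏ j ∈ T, (al P j * c j)) * Gsum P f := by
    intro T
    rw [← Finset.mul_sum]
    apply mul_le_mul_of_nonneg_left _
      (Finset.prod_nonneg fun j _ => mul_nonneg (hα j) (hc j))
    have hinj : Set.InjOn (fun U : Finset (Fin M) => U \ T)
        ((univ.filter (fun U => T ⊆ U) : Finset (Finset (Fin M))) : Set (Finset (Fin M))) := by
      intro U hU U' hU' h
      have h1 := (Finset.mem_filter.1 (Finset.mem_coe.1 hU)).2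
      have h2 := (Finset.mem_filter.1 (Finset.mem_coe.1 hU')).2
      simp only at h
      rw [← Finset.sdiff_union_of_subset h1, ← Finset.sdiff_union_of_subset h2, h]
    rw [← Finset.sum_image (f := fun V : Finset (Fin M) => f (pr P V) * ∏ j ∈ V, al P j) hinj]
    unfold Gsum
    apply Finset.sum_le_sum_of_subset_of_nonneg (Finset.subset_univ _)
    intro V _ _
    exact mul_nonneg (hf0 _) (Finset.prod_nonneg fun j _ => hα j)
  refine (Finset.sum_le_sum fun T _ => e8 T).trans ?_
  rw [← Finset.sum_mul, mul_comm]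
  apply mul_le_mul_of_nonneg_left
  · have e9 : ∑ T : Finset (Fin M), ∏ j ∈ T, (al P j * c j) = ∏ j, (1 + al P j * c j) := by
      rw [Finset.prod_one_add, Finset.powerset_univ]
    rw [e9, Real.exp_sum]
    apply Finset.prod_le_prod
    · intro j _
      have := mul_nonneg (hα j) (hc j)
      linarith
    · intro j _
      have := Real.add_one_le_exp (al P j * c j)
      linarith
  · unfold Gsum
    exact Finset.sum_nonneg fun V _ => mul_nonneg (hf0 _)
      (Finset.prod_nonneg fun j _ => hα j)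

/-- the weight on a value outside `F` -/
noncomputable def EUP_w (P : Fin M → ℕ) (Q : Finset (Fin M)) (j : Fin M) : ℝ :=
  if j ∈ Q then al P j else 7 * (al P j * Real.sqrt (al P j))

theorem EUP_w_nonneg (P : Fin M → ℕ) (hP : ∀ j, (P j).Prime) (Q : Finset (Fin M)) (j : Fin M) :
    0 ≤ EUP_w P Q j := by
  unfold EUP_w
  have := (EUP_al P hP j).1
  split_ifs <;> positivity

/-- the local majorant -/
noncomputable def EUP_E (P : Fin M → ℕ) (F : Finset (Fin k)) (Q : Finset (Fin M)) (j : Fin M) :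
    Option (Fin k) → ℝ
  | none => 1
  | some l => if l ∈ F then al P j * (1 + 2 * Real.sqrt (al P j)) else EUP_w P Q j

theorem EUP_E_nonneg (P : Fin M → ℕ) (hP : ∀ j, (P j).Prime) (F : Finset (Fin k))
    (Q : Finset (Fin M)) (j : Fin M) (t : Option (Fin k)) : 0 ≤ EUP_E P F Q j t := by
  rcases t with _ | l
  · simp [EUP_E]
  · simp only [EUP_E]
    have := (EUP_al P hP j).1
    split_ifs
    · positivity
    · exact EUP_w_nonneg P hP Q j

theorem EUP_sum3 (P : Fin M → ℕ) (hP : ∀ j, (P j).Prime) (g : ℕ → ℝ) (hg0 : ∀ a, 0 ≤ g a)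
    (a b : Fin k) (hab : a ≠ b) (Q : Finset (Fin M)) :
    ∑ s : Vec M k, g (di P s a) * g (di P s b) * ∏ j, EUP_E P {a, b} Q j (s j) ≤
      (∑ U : Finset (Fin M), g (pr P U) * ∏ j ∈ U, (al P j * (1 + 2 * Real.sqrt (al P j)))) ^ 2 *
        ∏ j, (1 + k * EUP_w P Q j) := by
  have hal := EUP_al P hP
  set e : Fin M → ℝ := fun j => al P j * (1 + 2 * Real.sqrt (al P j)) with he
  have he0 : ∀ j, 0 ≤ e j := fun j => by
    have := (hal j).1
    simp only [he]
    positivity
  set A : Finset (Fin M) → ℝ := fun U => g (pr P U) * ∏ j ∈ U, e j with hA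
  have hA0 : ∀ U, 0 ≤ A U := fun U => mul_nonneg (hg0 _) (Finset.prod_nonneg fun j _ => he0 j)
  set wo : Fin M → Option (Fin k) → ℝ := fun j t => if t = none then 1 else EUP_w P Q j with hwo
  have hwo0 : ∀ j t, 0 ≤ wo j t := by
    intro j t
    simp only [hwo]
    split_ifs
    · norm_num
    · exact EUP_w_nonneg P hP Q j
  set φ : Vec M k → Finset (Fin M) × Finset (Fin M) × Vec M k := fun s =>
    (SUMU_S s a, SUMU_S s b, er {a, b} s) with hφ
  have hinj : Function.Injective φ := by
    intro s s' h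
    simp only [hφ, Prod.mk.injEq] at h
    obtain ⟨h1, h2, h3⟩ := h
    funext j
    have ha : s j = some a ↔ s' j = some a := by
      have : j ∈ SUMU_S s a ↔ j ∈ SUMU_S s' a := by rw [h1]
      simpa [SUMU_S] using this
    have hb : s j = some b ↔ s' j = some b := by
      have : j ∈ SUMU_S s b ↔ j ∈ SUMU_S s' b := by rw [h2]
      simpa [SUMU_S] using this
    by_cases h4 : s j = some a
    · rw [h4, ha.mp h4]
    · by_cases h5 : s j = some b
      · rw [h5, hb.mp h5]
      · have h6 := congrFun h3 j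
        have h7 : er {a, b} s j = s j := by
          unfold er
          rw [if_neg]
          rintro ⟨i, hi, hs⟩
          rw [Finset.mem_insert, Finset.mem_singleton] at hi
          rcases hi with rfl | rfl
          · exact h4 hs
          · exact h5 hs
        have h8 : er {a, b} s' j = s' j := by
          unfold er
          rw [if_neg]
          rintro ⟨i, hi, hs⟩
          rw [Finset.mem_insert, Finset.mem_singleton] at hi
          rcases hi with rfl | rfl
          · exact h4 (ha.mpr hs)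
          · exact h5 (hb.mpr hs)
        rw [h7, h8] at h6
        exact h6
  have hpt : ∀ s : Vec M k, g (di P s a) * g (di P s b) * ∏ j, EUP_E P {a, b} Q j (s j) =
      A (φ s).1 * (A (φ s).2.1 * ∏ j, wo j ((φ s).2.2 j)) := by
    intro s
    simp only [hφ, hA]
    rw [SUMU_di, SUMU_di]
    have h1 : ∏ j ∈ SUMU_S s a, e j = ∏ j, if s j = some a then e j else 1 := by
      unfold SUMU_S
      rw [Finset.prod_filter]
    have h2 : ∏ j ∈ SUMU_S s b, e j = ∏ j, if s j = some b then e j else 1 := by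
      unfold SUMU_S
      rw [Finset.prod_filter]
    have h3 : ∏ j, EUP_E P {a, b} Q j (s j) = (∏ j, if s j = some a then e j else 1) *
        ((∏ j, if s j = some b then e j else 1) * ∏ j, wo j (er {a, b} s j)) := by
      rw [← Finset.prod_mul_distrib, ← Finset.prod_mul_distrib]
      refine Finset.prod_congr rfl fun j _ => ?_
      rw [EUP_er_eq]
      rcases hs : s j with _ | l
      · rw [EUP_er_none]
        simp [EUP_E, hwo]
      · by_cases hla : l = a
        · subst hla
          rw [EUP_er_mem (by simp)]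
          simp [EUP_E, hwo, he, hab]
        · by_cases hlb : l = b
          · subst hlb
            rw [EUP_er_mem (by simp)]
            simp [EUP_E, hwo, he, hla]
          · rw [EUP_er_not (by simp [hla, hlb])]
            simp [EUP_E, hwo, hla, hlb]
    rw [h1, h2, h3]
    ring
  have hsum : ∑ x : Finset (Fin M) × Finset (Fin M) × Vec M k,
      A x.1 * (A x.2.1 * ∏ j, wo j (x.2.2 j)) =
      (∑ U, A U) * ((∑ U, A U) * ∑ t : Vec M k, ∏ j, wo j (t j)) := by
    rw [Fintype.sum_prod_type, Finset.sum_mul]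
    refine Finset.sum_congr rfl fun U _ => ?_
    simp only
    rw [← Finset.mul_sum]
    congr 1
    rw [Fintype.sum_prod_type, Finset.sum_mul]
    refine Finset.sum_congr rfl fun V _ => ?_
    simp only
    rw [← Finset.mul_sum]
  calc ∑ s : Vec M k, g (di P s a) * g (di P s b) * ∏ j, EUP_E P {a, b} Q j (s j)
      = ∑ s : Vec M k, A (φ s).1 * (A (φ s).2.1 * ∏ j, wo j ((φ s).2.2 j)) :=
        Finset.sum_congr rfl fun s _ => hpt s
    _ = ∑ x ∈ univ.image φ, A x.1 * (A x.2.1 * ∏ j, wo j (x.2.2 j)) := by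
        rw [Finset.sum_image hinj.injOn]
    _ ≤ ∑ x : Finset (Fin M) × Finset (Fin M) × Vec M k,
          A x.1 * (A x.2.1 * ∏ j, wo j (x.2.2 j)) := by
        apply Finset.sum_le_sum_of_subset_of_nonneg (Finset.subset_univ _)
        intro x _ _
        exact mul_nonneg (hA0 _) (mul_nonneg (hA0 _) (Finset.prod_nonneg fun j _ => hwo0 j _))
    _ = (∑ U, A U) * ((∑ U, A U) * ∑ t : Vec M k, ∏ j, wo j (t j)) := hsum
    _ = (∑ U, A U) ^ 2 * ∏ j, (1 + k * EUP_w P Q j) := by
        rw [INV_sum_prod wo]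
        have h4 : ∀ j, ∑ t, wo j t = 1 + k * EUP_w P Q j := by
          intro j
          rw [Fintype.sum_option]
          simp [hwo]
        rw [Finset.prod_congr rfl fun j _ => h4 j]
        ring

theorem EUP_S_le (P : Fin M → ℕ) (hP : ∀ j, (P j).Prime) (g : ℕ → ℝ) (hg : GHyp g) (Z : ℝ)
    (a b : Fin k) (hab : a ≠ b) (Q : Finset (Fin M)) (r0 : Vec M k) (hr0 : Avoid {a, b} r0) :
    EUP_S P g Z {a, b} Q r0 ≤ ((∏ i ∈ ({a, b} : Finset (Fin k))ᶜ, g (di P r0 i)) *
      ∏ j, (if r0 j = none then 1 else (1 + al P j) * (1 + 2 * al P j))) *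
      ((∑ U : Finset (Fin M), g (pr P U) * ∏ j ∈ U, (al P j * (1 + 2 * Real.sqrt (al P j)))) ^ 2 *
        ∏ j, (1 + k * EUP_w P Q j)) := by
  have hal := EUP_al P hP
  set F : Finset (Fin k) := {a, b} with hF
  set sp : Vec M k → Vec M k := fun s j => if r0 j = none then s j else none with hsp
  set C0 : ℝ := (∏ i ∈ Fᶜ, g (di P r0 i)) *
      ∏ j, (if r0 j = none then 1 else (1 + al P j) * (1 + 2 * al P j)) with hC0
  have hβ0 : 0 ≤ ∏ j, (if r0 j = none then (1 : ℝ) else (1 + al P j) * (1 + 2 * al P j)) := by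
    apply Finset.prod_nonneg
    intro j _
    have := (hal j).1
    split_ifs <;> positivity
  have hC00 : 0 ≤ C0 := mul_nonneg (Finset.prod_nonneg fun i _ => hg.1 _) hβ0
  have hE0 : ∀ s : Vec M k, 0 ≤ g (di P s a) * g (di P s b) * ∏ j, EUP_E P F Q j (s j) :=
    fun s => mul_nonneg (mul_nonneg (hg.1 _) (hg.1 _))
      (Finset.prod_nonneg fun j _ => EUP_E_nonneg P hP F Q j _)
  -- incompatible vectors contribute nothing
  have hzero : ∀ s : Vec M k, ¬ (∀ j, r0 j ≠ none → s j = r0 j) →
      Yv P g Z s * ∏ j, EUP_D F (j ∈ Q) (al P j) (r0 j) (s j) = 0 := by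
    intro s hs
    push Not at hs
    obtain ⟨j, hj1, hj2⟩ := hs
    rw [Finset.prod_eq_zero (Finset.mem_univ j), mul_zero]
    rcases hr : r0 j with _ | i
    · exact absurd hr hj1
    · rcases hsj : s j with _ | l
      · simp [EUP_D]
      · simp only [EUP_D]
        rw [if_neg]
        rintro ⟨-, -, rfl⟩
        exact hj2 (by rw [hsj, hr])
  have hpt : ∀ s : Vec M k, (∀ j, r0 j ≠ none → s j = r0 j) →
      Yv P g Z s * ∏ j, EUP_D F (j ∈ Q) (al P j) (r0 j) (s j) ≤
      C0 * (g (di P (sp s) a) * g (di P (sp s) b) * ∏ j, EUP_E P F Q j (sp s j)) := by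
    intro s hs
    have h1 : Yv P g Z s ≤ (∏ i ∈ Fᶜ, g (di P r0 i)) *
        (g (di P (sp s) a) * g (di P (sp s) b)) := by
      have h2 : Yv P g Z s ≤ ∏ i, g (di P s i) := by
        unfold Yv
        split_ifs
        · exact le_refl _
        · exact Finset.prod_nonneg fun i _ => hg.1 _
      have h3 : ∀ i ∈ Fᶜ, g (di P s i) ≤ g (di P r0 i) := by
        intro i _
        have h4 : di P s i = di P r0 i *
            ∏ j, (if s j = some i ∧ r0 j ≠ some i then P j else 1) := by
          unfold di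
          rw [← Finset.prod_mul_distrib]
          refine Finset.prod_congr rfl fun j _ => ?_
          by_cases h5 : r0 j = some i
          · have h6 : s j = some i := by rw [hs j (by rw [h5]; simp), h5]
            rw [if_pos h6, if_pos h5, if_neg (by push Not; intro _; exact h5), mul_one]
          · rw [if_neg h5, one_mul]
            by_cases h6 : s j = some i
            · rw [if_pos h6, if_pos ⟨h6, h5⟩]
            · rw [if_neg h6, if_neg (fun h => h6 h.1)]
        rw [h4]
        apply hg.2.2.2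
        · unfold di
          apply Nat.one_le_iff_ne_zero.mpr
          apply Finset.prod_ne_zero_iff.mpr
          intro j _
          split_ifs
          · exact (hP j).ne_zero
          · exact one_ne_zero
        · apply Nat.one_le_iff_ne_zero.mpr
          apply Finset.prod_ne_zero_iff.mpr
          intro j _
          split_ifs
          · exact (hP j).ne_zero
          · exact one_ne_zero
      have h7 : ∀ i ∈ F, di P s i = di P (sp s) i := by
        intro i hi
        unfold di
        refine Finset.prod_congr rfl fun j _ => ?_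
        simp only [hsp]
        by_cases h5 : r0 j = none
        · rw [if_pos h5]
        · have h8 : s j ≠ some i := by
            rw [hs j h5]
            exact hr0 j i hi
          rw [if_neg h8, if_neg h5, if_neg (by simp)]
      calc Yv P g Z s ≤ ∏ i, g (di P s i) := h2
        _ = (∏ i ∈ F, g (di P s i)) * ∏ i ∈ Fᶜ, g (di P s i) :=
            (Finset.prod_mul_prod_compl F _).symm
        _ ≤ (∏ i ∈ F, g (di P (sp s) i)) * ∏ i ∈ Fᶜ, g (di P r0 i) := by
            rw [Finset.prod_congr rfl fun i hi => by rw [h7 i hi]]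
            apply mul_le_mul_of_nonneg_left
            · exact Finset.prod_le_prod (fun i _ => hg.1 _) h3
            · exact Finset.prod_nonneg fun i _ => hg.1 _
        _ = _ := by
            rw [hF, Finset.prod_pair hab]
            ring
    have h9 : ∏ j, EUP_D F (j ∈ Q) (al P j) (r0 j) (s j) ≤
        (∏ j, (if r0 j = none then 1 else (1 + al P j) * (1 + 2 * al P j))) *
        ∏ j, EUP_E P F Q j (sp s j) := by
      rw [← Finset.prod_mul_distrib]
      apply Finset.prod_le_prod
      · intro j _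
        exact EUP_D_nonneg F _ (hal j).1.le _ _
      · intro j _
        have h0 := (hal j).1
        have hs0 : 0 < Real.sqrt (al P j) := Real.sqrt_pos.mpr h0
        simp only [hsp]
        rcases hr : r0 j with _ | i
        · rw [if_pos rfl, if_pos rfl, one_mul]
          rcases s j with _ | l
          · simp [EUP_D, EUP_E]
          · simp only [EUP_D, EUP_E, EUP_w]
            by_cases hl : l ∈ F
            · simp only [hl, if_true]
              split_ifs
              · nlinarith [mul_pos h0 hs0]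
              · exact le_refl _
            · simp only [hl, if_false]
              exact le_refl _
        · rw [if_neg (by simp), if_neg (by simp)]
          have hsj : s j = some i := by rw [hs j (by rw [hr]; simp), hr]
          rw [hsj]
          simp only [EUP_D, EUP_E]
          split_ifs
          · linarith
          · positivity
    calc Yv P g Z s * ∏ j, EUP_D F (j ∈ Q) (al P j) (r0 j) (s j)
        ≤ ((∏ i ∈ Fᶜ, g (di P r0 i)) * (g (di P (sp s) a) * g (di P (sp s) b))) *
          ((∏ j, (if r0 j = none then 1 else (1 + al P j) * (1 + 2 * al P j))) *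
            ∏ j, EUP_E P F Q j (sp s j)) := by
          apply mul_le_mul h1 h9
          · exact Finset.prod_nonneg fun j _ => EUP_D_nonneg F _ (hal j).1.le _ _
          · exact mul_nonneg (Finset.prod_nonneg fun i _ => hg.1 _)
              (mul_nonneg (hg.1 _) (hg.1 _))
      _ = _ := by
          rw [hC0]; ring
  have hinj : Set.InjOn sp ((univ.filter (fun s : Vec M k => ∀ j, r0 j ≠ none → s j = r0 j) :
      Finset (Vec M k)) : Set (Vec M k)) := by
    intro s hs s' hs' h
    have h1 := (Finset.mem_filter.1 (Finset.mem_coe.1 hs)).2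
    have h2 := (Finset.mem_filter.1 (Finset.mem_coe.1 hs')).2
    funext j
    by_cases h3 : r0 j = none
    · have h4 := congrFun h j
      simp only [hsp] at h4
      rwa [if_pos h3, if_pos h3] at h4
    · rw [h1 j h3, h2 j h3]
  calc EUP_S P g Z F Q r0
      = ∑ s ∈ univ.filter (fun s : Vec M k => ∀ j, r0 j ≠ none → s j = r0 j),
          Yv P g Z s * ∏ j, EUP_D F (j ∈ Q) (al P j) (r0 j) (s j) := by
        unfold EUP_S
        rw [Finset.sum_filter]
        refine Finset.sum_congr rfl fun s _ => ?_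
        split_ifs with h
        · rfl
        · exact hzero s h
    _ ≤ ∑ s ∈ univ.filter (fun s : Vec M k => ∀ j, r0 j ≠ none → s j = r0 j),
          C0 * (g (di P (sp s) a) * g (di P (sp s) b) * ∏ j, EUP_E P F Q j (sp s j)) :=
        Finset.sum_le_sum fun s hs => hpt s (Finset.mem_filter.1 hs).2
    _ = C0 * ∑ s ∈ (univ.filter (fun s : Vec M k => ∀ j, r0 j ≠ none → s j = r0 j)).image sp,
          (g (di P s a) * g (di P s b) * ∏ j, EUP_E P F Q j (s j)) := by
        rw [← Finset.mul_sum, Finset.sum_image hinj]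
    _ ≤ C0 * ∑ s : Vec M k, (g (di P s a) * g (di P s b) * ∏ j, EUP_E P F Q j (s j)) := by
        apply mul_le_mul_of_nonneg_left _ hC00
        apply Finset.sum_le_sum_of_subset_of_nonneg (Finset.subset_univ _)
        intro s _ _
        exact hE0 s
    _ ≤ _ := mul_le_mul_of_nonneg_left (EUP_sum3 P hP g hg.1 a b hab Q) hC00

theorem EUP_prodQ (P : Fin M → ℕ) (hP : ∀ j, (P j).Prime) (Q : Finset (Fin M)) (k : ℕ) :
    ∏ j, (1 + k * EUP_w P Q j) ≤ Real.exp (7 * k * Sg32 P) * ∏ j ∈ Q, (1 + k * al P j) := by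
  have hal := EUP_al P hP
  have h1 : ∏ j ∈ Q, (1 + (k : ℝ) * al P j) = ∏ j, if j ∈ Q then (1 + (k : ℝ) * al P j) else 1 := by
    rw [Finset.prod_ite_mem, Finset.univ_inter]
  have h2 : Real.exp (7 * k * Sg32 P) = ∏ j, Real.exp (7 * k * (al P j * Real.sqrt (al P j))) := by
    unfold Sg32
    rw [Finset.mul_sum, Real.exp_sum]
  rw [h1, h2, ← Finset.prod_mul_distrib]
  apply Finset.prod_le_prod
  · intro j _
    have := EUP_w_nonneg P hP Q j
    positivity
  · intro j _
    have h0 := (hal j).1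
    have h3 : 0 ≤ 7 * (k : ℝ) * (al P j * Real.sqrt (al P j)) := by positivity
    unfold EUP_w
    split_ifs
    · have h4 : (1 : ℝ) ≤ Real.exp (7 * k * (al P j * Real.sqrt (al P j))) :=
        Real.one_le_exp h3
      have h5 : (0 : ℝ) ≤ 1 + k * al P j := by positivity
      nlinarith
    · have h4 := Real.add_one_le_exp (7 * (k : ℝ) * (al P j * Real.sqrt (al P j)))
      linarith

theorem energy_upper (P : Fin M → ℕ) (hP : ∀ j, (P j).Prime) (hinj : Function.Injective P)
    (γ : Fin M → ℝ) (hγ0 : ∀ j, 1 / (P j : ℝ) ≤ γ j) (hγ1 : ∀ j, γ j ≤ al P j) (g : ℕ → ℝ)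
    (hg : GHyp g) (Z : ℝ) (hZ1 : 1 ≤ Z) (a b : Fin k) (hab : a ≠ b) (G : Finset (Fin k))
    (hG : G ⊆ {a, b}) (Q : Finset (Fin M)) (ω : Vec M k → ℝ) (hω0 : ∀ y, 0 ≤ ω y)
    (hωG : ∀ y, ω y ≠ 0 → Vals G y ∧ ∀ j ∈ Q, y j = none) (H : ℝ)
    (hH : ∀ τ : Vec M k, Vals G τ → (dv P τ : ℝ) ≤ Z →
      ∑ y ∈ (univ : Finset (Vec M k)).filter (fun y => Vals G y ∧ Dis y τ),
        ω (join y τ) ^ 2 * gw γ y ≤ H) :
    ∑ r, tr γ (ext G Q (restr {a, b} (cv P g Z)) (lam γ ω)) r ^ 2 * ∏ j, om (γ j) (r j) ≤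
      H * (Gsum P g ^ 4 * Gsum P (fun a => g a ^ 2) ^ (k - 2)) * Real.exp (100 * k * Sg32 P) *
        ∏ j ∈ Q, (1 + k * al P j) ^ 2 := by
  have hal := EUP_al P hP
  have hP0 : ∀ j, (0 : ℝ) < 1 / (P j : ℝ) := fun j => by have := (hP j).pos; positivity
  have hγp : ∀ j, 0 < γ j := fun j => lt_of_lt_of_le (hP0 j) (hγ0 j)
  have hcard : ({a, b} : Finset (Fin k)).card = 2 := Finset.card_pair hab
  have hG2 : (G.card : ℝ) ≤ 2 := by
    have := Finset.card_le_card hG
    rw [hcard] at this
    exact_mod_cast this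
  have hk2 : 2 ≤ k := by
    have := Finset.card_le_univ ({a, b} : Finset (Fin k))
    rw [hcard, Fintype.card_fin] at this
    exact this
  have hH0 : 0 ≤ H := by
    refine le_trans ?_ (hH (fun _ => none) ?_ ?_)
    · apply Finset.sum_nonneg
      intro y _
      unfold gw
      exact mul_nonneg (sq_nonneg _) (Finset.prod_nonneg fun j _ => EUP_om_nonneg (hγp j).le _)
    · intro j i h
      exact absurd h (by simp)
    · unfold dv
      simpa using hZ1
  refine (EUP_total P hP γ hγ0 hγ1 g hg Z {a, b} G hG hG2 Q ω hω0 hωG H hH0 hH).trans ?_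
  rw [mul_assoc, mul_assoc]
  apply mul_le_mul_of_nonneg_left _ hH0
  set F : Finset (Fin k) := {a, b} with hF
  set S1 : ℝ := ∑ U : Finset (Fin M), g (pr P U) *
    ∏ j ∈ U, (al P j * (1 + 2 * Real.sqrt (al P j))) with hS1
  set C : ℝ := S1 ^ 2 * ∏ j, (1 + k * EUP_w P Q j) with hC
  have hw0 : ∀ j, 0 ≤ EUP_w P Q j := EUP_w_nonneg P hP Q
  have hS10 : 0 ≤ S1 := by
    apply Finset.sum_nonneg
    intro U _
    apply mul_nonneg (hg.1 _)
    apply Finset.prod_nonneg
    intro j _
    have := (hal j).1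
    positivity
  have hCp : 0 ≤ ∏ j, (1 + (k : ℝ) * EUP_w P Q j) := by
    apply Finset.prod_nonneg
    intro j _
    have := hw0 j
    positivity
  have hC0 : 0 ≤ C := mul_nonneg (sq_nonneg _) hCp
  have hG10 : 0 ≤ Gsum P g := by
    unfold Gsum
    exact Finset.sum_nonneg fun U _ => mul_nonneg (hg.1 _)
      (Finset.prod_nonneg fun j _ => (hal j).1.le)
  have hG20 : 0 ≤ Gsum P (fun a => g a ^ 2) := by
    unfold Gsum
    exact Finset.sum_nonneg fun U _ => mul_nonneg (sq_nonneg _)
      (Finset.prod_nonneg fun j _ => (hal j).1.le)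
  have hSg0 : 0 ≤ Sg32 P := by
    unfold Sg32
    exact Finset.sum_nonneg fun j _ => mul_nonneg (hal j).1.le (Real.sqrt_nonneg _)
  -- the sum over `r₀`
  have hr : ∑ r0, (∏ j, om (γ j) (r0 j)) * EUP_S P g Z F Q r0 ^ 2 ≤
      C ^ 2 * (∑ U : Finset (Fin M), g (pr P U) ^ 2 * ∏ j ∈ U, (al P j * (1 + 35 * al P j))) ^
        (k - 2) := by
    have h1 : ∑ r0 : Vec M k, (∏ j, om (γ j) (r0 j)) * EUP_S P g Z F Q r0 ^ 2 =
        ∑ r0 ∈ (univ : Finset (Vec M k)).filter (fun r => Avoid F r),
          (∏ j, om (γ j) (r0 j)) * EUP_S P g Z F Q r0 ^ 2 := by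
      symm
      apply Finset.sum_subset (Finset.subset_univ _)
      intro r0 _ hr0
      have h2 : ¬ Avoid F r0 := fun h => hr0 (Finset.mem_filter.mpr ⟨Finset.mem_univ _, h⟩)
      unfold Avoid at h2
      push Not at h2
      obtain ⟨j, i, hi, hj⟩ := h2
      have h3 : EUP_S P g Z F Q r0 = 0 := by
        unfold EUP_S
        apply Finset.sum_eq_zero
        intro s _
        rw [Finset.prod_eq_zero (Finset.mem_univ j), mul_zero]
        rw [hj]
        rcases s j with _ | l
        · simp [EUP_D]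
        · simp only [EUP_D]
          rw [if_neg]
          rintro ⟨-, h4, -⟩
          exact h4 hi
      rw [h3]
      simp
    have h4 : ∀ r0 ∈ (univ : Finset (Vec M k)).filter (fun r => Avoid F r),
        (∏ j, om (γ j) (r0 j)) * EUP_S P g Z F Q r0 ^ 2 ≤
        C ^ 2 * ((∏ i ∈ Fᶜ, (fun a => g a ^ 2) (di P r0 i)) *
          (∏ j, if r0 j = none then 1 else al P j * (1 + 35 * al P j))) := by
      intro r0 hr0
      have hav := (Finset.mem_filter.1 hr0).2
      have h5 := EUP_S_le P hP g hg Z a b hab Q r0 hav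
      have h6 := EUP_S_nonneg P hP hg Z F Q r0
      have h7 : EUP_S P g Z F Q r0 ^ 2 ≤ (((∏ i ∈ Fᶜ, g (di P r0 i)) *
          ∏ j, (if r0 j = none then 1 else (1 + al P j) * (1 + 2 * al P j))) * C) ^ 2 :=
        pow_le_pow_left₀ h6 h5 2
      have h8 : 0 ≤ ∏ j, om (γ j) (r0 j) :=
        Finset.prod_nonneg fun j _ => EUP_om_nonneg (hγp j).le _
      have h9 : (∏ j, om (γ j) (r0 j)) *
          (∏ j, (if r0 j = none then 1 else (1 + al P j) * (1 + 2 * al P j))) ^ 2 ≤
          ∏ j, if r0 j = none then 1 else al P j * (1 + 35 * al P j) := by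
        rw [← Finset.prod_pow, ← Finset.prod_mul_distrib]
        apply Finset.prod_le_prod
        · intro j _
          exact mul_nonneg (EUP_om_nonneg (hγp j).le _) (sq_nonneg _)
        · intro j _
          rcases r0 j with _ | i
          · simp [om]
          · rw [if_neg (by simp), if_neg (by simp)]
            simp only [om]
            have h0 := (hal j).1
            have h1' := (hal j).2.1
            have h10 : (((1 + al P j) * (1 + 2 * al P j)) ^ 2) ≤ 1 + 35 * al P j := by
              have e1 : al P j ^ 2 ≤ al P j := by nlinarith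
              have e2 : (1 + al P j) * (1 + 2 * al P j) ≤ 1 + 5 * al P j := by nlinarith
              have e3 : 0 ≤ (1 + al P j) * (1 + 2 * al P j) := by positivity
              have e4 := pow_le_pow_left₀ e3 e2 2
              nlinarith
            calc γ j * ((1 + al P j) * (1 + 2 * al P j)) ^ 2
                ≤ al P j * ((1 + al P j) * (1 + 2 * al P j)) ^ 2 :=
                  mul_le_mul_of_nonneg_right (hγ1 j) (sq_nonneg _)
              _ ≤ al P j * (1 + 35 * al P j) := mul_le_mul_of_nonneg_left h10 h0.le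
      calc (∏ j, om (γ j) (r0 j)) * EUP_S P g Z F Q r0 ^ 2
          ≤ (∏ j, om (γ j) (r0 j)) * (((∏ i ∈ Fᶜ, g (di P r0 i)) *
          ∏ j, (if r0 j = none then 1 else (1 + al P j) * (1 + 2 * al P j))) * C) ^ 2 :=
            mul_le_mul_of_nonneg_left h7 h8
        _ = (C ^ 2 * (∏ i ∈ Fᶜ, g (di P r0 i)) ^ 2) * ((∏ j, om (γ j) (r0 j)) *
          (∏ j, (if r0 j = none then 1 else (1 + al P j) * (1 + 2 * al P j))) ^ 2) := by ring
        _ ≤ (C ^ 2 * (∏ i ∈ Fᶜ, g (di P r0 i)) ^ 2) *
          ∏ j, (if r0 j = none then 1 else al P j * (1 + 35 * al P j)) :=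
            mul_le_mul_of_nonneg_left h9 (mul_nonneg (sq_nonneg _) (sq_nonneg _))
        _ = _ := by
            simp only
            rw [Finset.prod_pow]
            ring
    rw [h1]
    refine (Finset.sum_le_sum h4).trans ?_
    rw [← Finset.mul_sum]
    apply mul_le_mul_of_nonneg_left _ (sq_nonneg _)
    have e4 := SUMU_core (k := k) P F (fun a => g a ^ 2) (fun a => sq_nonneg _)
      (fun j => al P j * (1 + 35 * al P j)) (fun j => by have := (hal j).1; positivity)
    refine e4.trans (le_of_eq ?_)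
    have hcc : (Fᶜ).card = k - 2 := by
      rw [Finset.card_compl, hcard, Fintype.card_fin]
    rw [hcc]
  refine hr.trans ?_
  have hS1le : S1 ≤ Gsum P g * Real.exp (2 * Sg32 P) := by
    have h1 := EUP_perturb P hP g hg.1 hg.2.2.2 (fun j => 2 * Real.sqrt (al P j))
      (fun j => by positivity)
    refine h1.trans (le_of_eq ?_)
    congr 2
    unfold Sg32
    rw [Finset.mul_sum]
    refine Finset.sum_congr rfl fun j _ => by ring
  have hS2le : ∑ U : Finset (Fin M), g (pr P U) ^ 2 * ∏ j ∈ U, (al P j * (1 + 35 * al P j)) ≤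
      Gsum P (fun a => g a ^ 2) * Real.exp (35 * Sg32 P) := by
    have h1 := EUP_perturb P hP (fun a => g a ^ 2) (fun a => sq_nonneg _)
      (fun a b ha hb => pow_le_pow_left₀ (hg.1 _) (hg.2.2.2 a b ha hb) 2)
      (fun j => 35 * al P j) (fun j => by have := (hal j).1; positivity)
    refine h1.trans ?_
    apply mul_le_mul_of_nonneg_left _ hG20
    apply Real.exp_le_exp.mpr
    have h2 := EUP_Sg2_le P hP
    have h3 : ∑ j, al P j * (35 * al P j) = 35 * Sg2 P := by
      unfold Sg2
      rw [Finset.mul_sum]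
      refine Finset.sum_congr rfl fun j _ => by ring
    rw [h3]
    linarith
  have hQ0 : 0 ≤ ∏ j ∈ Q, (1 + (k : ℝ) * al P j) := by
    apply Finset.prod_nonneg
    intro j _
    have := (hal j).1
    positivity
  have hCle : C ≤ (Gsum P g ^ 2 * Real.exp (4 * Sg32 P)) *
      (Real.exp (7 * k * Sg32 P) * ∏ j ∈ Q, (1 + k * al P j)) := by
    rw [hC]
    apply mul_le_mul _ (EUP_prodQ P hP Q k) hCp (by positivity)
    have h1 := pow_le_pow_left₀ hS10 hS1le 2
    refine h1.trans (le_of_eq ?_)
    rw [mul_pow, ← Real.exp_nat_mul]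
    congr 2
    push_cast
    ring
  have hS20 : 0 ≤ ∑ U : Finset (Fin M), g (pr P U) ^ 2 *
      ∏ j ∈ U, (al P j * (1 + 35 * al P j)) := by
    apply Finset.sum_nonneg
    intro U _
    apply mul_nonneg (sq_nonneg _)
    apply Finset.prod_nonneg
    intro j _
    have := (hal j).1
    positivity
  have h1 : C ^ 2 ≤ ((Gsum P g ^ 2 * Real.exp (4 * Sg32 P)) *
      (Real.exp (7 * k * Sg32 P) * ∏ j ∈ Q, (1 + k * al P j))) ^ 2 :=
    pow_le_pow_left₀ hC0 hCle 2
  have h2 := pow_le_pow_left₀ hS20 hS2le (k - 2)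
  have h3 := mul_le_mul h1 h2 (pow_nonneg hS20 _) (sq_nonneg _)
  refine h3.trans ?_
  have h4 : ((Gsum P g ^ 2 * Real.exp (4 * Sg32 P)) *
      (Real.exp (7 * k * Sg32 P) * ∏ j ∈ Q, (1 + k * al P j))) ^ 2 *
      (Gsum P (fun a => g a ^ 2) * Real.exp (35 * Sg32 P)) ^ (k - 2) =
      (Gsum P g ^ 4 * Gsum P (fun a => g a ^ 2) ^ (k - 2)) *
        (Real.exp ((8 + 14 * k + 35 * ((k - 2 : ℕ) : ℝ)) * Sg32 P) *
          (∏ j ∈ Q, (1 + (k : ℝ) * al P j)) ^ 2) := by
    rw [mul_pow, mul_pow, mul_pow, mul_pow]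
    have e1 : Real.exp (4 * Sg32 P) ^ 2 = Real.exp (8 * Sg32 P) := by
      rw [← Real.exp_nat_mul]; congr 1; push_cast; ring
    have e2 : Real.exp (7 * k * Sg32 P) ^ 2 = Real.exp (14 * k * Sg32 P) := by
      rw [← Real.exp_nat_mul]; congr 1; push_cast; ring
    have e3 : Real.exp (35 * Sg32 P) ^ (k - 2) = Real.exp (35 * ((k - 2 : ℕ) : ℝ) * Sg32 P) := by
      rw [← Real.exp_nat_mul]; congr 1; ring
    rw [e1, e2, e3]
    have e4 : Real.exp ((8 + 14 * k + 35 * ((k - 2 : ℕ) : ℝ)) * Sg32 P) =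
        Real.exp (8 * Sg32 P) * Real.exp (14 * k * Sg32 P) *
          Real.exp (35 * ((k - 2 : ℕ) : ℝ) * Sg32 P) := by
      rw [← Real.exp_add, ← Real.exp_add]; congr 1; ring
    rw [e4]
    ring
  rw [h4]
  apply mul_le_mul_of_nonneg_left _ (by positivity)
  rw [Finset.prod_pow]
  apply mul_le_mul_of_nonneg_right _ (sq_nonneg _)
  apply Real.exp_le_exp.mpr
  apply mul_le_mul_of_nonneg_right _ hSg0
  have h5 : ((k - 2 : ℕ) : ℝ) = (k : ℝ) - 2 := by
    rw [Nat.cast_sub hk2]; norm_num
  rw [h5]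
  have h6 : (2 : ℝ) ≤ k := by exact_mod_cast hk2
  linarith

end Pool.Agent.BG4
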