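import Pool.Agent.Lib_helper23.BG4.Defs
import Pool.Agent.Lib_helper23.BGF.D2

/-! The numerical facts on the weight function. -/

set_option autoImplicit false

namespace Pool.Agent.BG4

open Finset Filter Pool.Agent.BG
open scoped Classical

/-- numerical facts on `g` -/
def Num4 (ζ : ℝ) (J k N M : ℕ) (P : Fin M → ℕ) (f : ℝ) : Prop :=
  let ℓ := Real.log N
  let u : ℝ := ζ / (5 * k * (J + 1))
  let g := gg4 ζ J k N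
  (1 - ζ / 100) * (f * ℓ * u * (J / 2 + 1)) ≤ Gsum P g ∧
  Gsum P g ≤ (1 + ζ / 100) * (f * ℓ * u * (J / 2 + 1)) ∧
  (1 - ζ / 100) * (f * ℓ * u) ≤ Gsum P (fun a => g a ^ 2) ∧
  Gsum P (fun a => g a ^ 2) ≤ (1 + ζ / 100) * (f * ℓ * u * (3 / 2)) ∧
  k * Gsum P (fun a => g a ^ 2 * Real.log a) ≤
    Gsum P (fun a => g a ^ 2) * (Real.log ((N : ℝ) ^ (ζ / 2)) / 2) ∧
  4 * k * Gsum P (fun a => g a ^ 2 * Real.log a ^ 2) ≤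
    (ζ / 10) * (Gsum P (fun a => g a ^ 2) * Real.log ((N : ℝ) ^ (ζ / 2)) ^ 2) ∧
  (∀ U U' : Finset (Fin M), g (pr P U) ≠ 0 → g (pr P U') ≠ 0 →
    (N : ℝ) ^ (ζ / 2) * pr P U * pr P U' ≤ (N : ℝ) ^ ζ) ∧
  GHyp g ∧ 1 ≤ Gsum P g ∧ 1 ≤ Gsum P (fun a => g a ^ 2) ∧
  Real.exp (1000 * k ^ 2 * Sg32 P) ≤ 1 + ζ / 100 ∧ Sg2 P ≤ Sg32 P

end Pool.Agent.BG4
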