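import Pool.Agent.Lib_helper23.BG4F.MULTSG
import Pool.Agent.Lib_helper23.BG4F.N4D
/-! Block NUM4. -/

set_option autoImplicit false

namespace Pool.Agent.BG4

open Finset Filter Pool.Agent.BG
open scoped Classical

variable {M k : ℕ}

theorem num4 (ζ : ℝ) (hζ : 0 < ζ) (hζ1 : ζ ≤ 1 / 1000) (J k : ℕ) (hk : 10 * 2 ^ J ≤ ζ * k) :
    ∃ w₀ : ℕ, k + 2 ≤ w₀ ∧ ∀ (h : Fin k → ℕ) (W ν : ℕ), Setup k w₀ h W ν → ∀ᶠ N : ℕ in atTop,
      ∀ (M : ℕ) (P : Fin M → ℕ), Enum P W N → Num4 ζ J k N M P ((W.totient : ℝ) / W) := by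
  have h2J : (1:ℝ) ≤ 2 ^ J := one_le_pow₀ (by norm_num)
  have hk0' : (0:ℝ) < k := by
    by_contra hcon
    push Not at hcon
    nlinarith
  have hk0 : 0 < k := by exact_mod_cast hk0'
  have hJ0 : (0:ℝ) ≤ J := by positivity
  obtain ⟨u, hu⟩ : ∃ u : ℝ, u = ζ / (5 * k * (J + 1)) := ⟨_, rfl⟩
  have hu0 : (0:ℝ) < u := by rw [hu]; positivity
  have huk : k * (J + 1) * u = ζ / 5 := by rw [hu]; field_simp
  have h2Ju : 2 ^ J * u ≤ ζ ^ 2 / 50 := by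
    rw [hu, mul_div_assoc', div_le_iff₀ (by positivity)]
    have e1 : (k : ℝ) * ζ * ζ * 1 ≤ k * ζ * ζ * (J + 1) :=
      mul_le_mul_of_nonneg_left (by linarith) (by positivity)
    nlinarith
  have hu1 : 2 ^ J * u ≤ 1 := h2Ju.trans (by nlinarith)
  have hε : (0:ℝ) < ζ / 100 := by positivity
  obtain ⟨w1, hw1⟩ := num (ζ / 100) hε (by linarith) J u hu0 hu1
  obtain ⟨w2, hw2⟩ := Sg32_le (ζ / 200 / (1000 * k ^ 2)) (by positivity)
  refine ⟨max (k + 2) (max w1 w2), le_max_left _ _, fun h W ν hs => ?_⟩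
  have hWpos : 0 < W := Nat.pos_of_ne_zero hs.2.1.ne_zero
  have hWr : (0:ℝ) < W := by exact_mod_cast hWpos
  have hφr : (0:ℝ) < W.totient := by exact_mod_cast Nat.totient_pos.2 hWpos
  have e1 := hw1 W hWpos (FL_setup hs (w₁ := w1) (by simp)).2.2.1
  have e2 : ∀ (N M : ℕ) (P : Fin M → ℕ), Enum P W N → Sg32 P ≤ ζ / 200 / (1000 * k ^ 2) :=
    fun N M P hE => hw2 M W N P (FL_setup hs (w₁ := w2) (by simp)).2.2.1 hE
  obtain ⟨f, hf⟩ : ∃ f : ℝ, f = (W.totient : ℝ) / W := ⟨_, rfl⟩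
  have hfpos : 0 < f := by rw [hf]; positivity
  have e3 := FL_log_large (2 / (f * u))
  filter_upwards [e1, e3, eventually_ge_atTop 2] with N h1 h3 hN M P hE
  rw [← hf] at h1 ⊢
  obtain ⟨n1, n2, n3, n4, n5, n6, -⟩ := h1 M P hE
  have h4 := e2 N M P hE
  have hP : ∀ j, (P j).Prime := fun j => ((hE.2 (P j)).mp ⟨j, rfl⟩).1
  rw [div_le_iff₀ (by positivity)] at h3
  obtain ⟨ℓ, hℓ⟩ : ∃ ℓ : ℝ, ℓ = Real.log N := ⟨_, rfl⟩
  rw [← hℓ] at h3 n1 n2 n3 n4 n5 n6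
  have hNr : (0:ℝ) < N := by exact_mod_cast (show 0 < N by omega)
  have hN1r : (1:ℝ) < N := by exact_mod_cast (show 1 < N by omega)
  have hℓ0 : 0 < ℓ := by rw [hℓ]; exact Real.log_pos hN1r
  have hggu : gg4 ζ J k N = gst J (u * ℓ) := by
    unfold gg4
    rw [hu, hℓ]
  obtain ⟨X, hX⟩ : ∃ X : ℝ, X = f * ℓ * u := ⟨_, rfl⟩
  rw [← hX] at n1 n2 n3 n4 n5 n6
  have hX2 : 2 ≤ X := by rw [hX]; linarith
  have hlogZ : Real.log ((N : ℝ) ^ (ζ / 2)) = ζ / 2 * ℓ := by rw [Real.log_rpow hNr, hℓ]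
  unfold Num4
  simp only
  rw [hlogZ, hggu, ← hℓ, ← hu, ← hX]
  refine ⟨n1, n2, n3, n4, ?_, ?_, ?_, gst_hyp J _ (by positivity), ?_, ?_, ?_, Sg2_le_Sg32 P hP⟩
  · -- log
    have e5 : (k:ℝ) * Gsum P (fun a => gst J (u * ℓ) a ^ 2 * Real.log a) ≤
        k * ((1 + ζ / 100) * (X * ((J + 1) * u * ℓ))) := mul_le_mul_of_nonneg_left n5 hk0'.le
    have e6 : (k:ℝ) * ((1 + ζ / 100) * (X * ((J + 1) * u * ℓ))) =
        (1 + ζ / 100) * (X * ℓ) * (ζ / 5) := by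
      rw [← huk]; ring
    have e7 : (1 - ζ / 100) * X * (ζ / 2 * ℓ / 2) ≤
        Gsum P (fun a => gst J (u * ℓ) a ^ 2) * (ζ / 2 * ℓ / 2) :=
      mul_le_mul_of_nonneg_right n3 (by positivity)
    refine (e5.trans (le_of_eq e6)).trans (le_trans ?_ e7)
    have e8 : (1 - ζ / 100) * X * (ζ / 2 * ℓ / 2) = (1 - ζ / 100) / 4 * (X * ℓ * ζ) := by ring
    have e9 : (1 + ζ / 100) * (X * ℓ) * (ζ / 5) = (1 + ζ / 100) / 5 * (X * ℓ * ζ) := by ring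
    rw [e8, e9]
    apply mul_le_mul_of_nonneg_right _ (by positivity)
    linarith
  · -- log²
    have e5 : 4 * (k:ℝ) * Gsum P (fun a => gst J (u * ℓ) a ^ 2 * Real.log a ^ 2) ≤
        4 * k * ((1 + ζ / 100) * (X * (2 ^ J * (u * ℓ) ^ 2))) :=
      mul_le_mul_of_nonneg_left n6 (by positivity)
    have e6 : 4 * (k:ℝ) * ((1 + ζ / 100) * (X * (2 ^ J * (u * ℓ) ^ 2))) =
        4 * (1 + ζ / 100) * (X * ℓ ^ 2) * (2 ^ J * u * (k * u)) := by ring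
    have e7 : (k:ℝ) * u ≤ ζ / 5 := by
      rw [← huk]
      have : (k:ℝ) * u * 1 ≤ k * u * (J + 1) := mul_le_mul_of_nonneg_left (by linarith) (by positivity)
      linarith
    have e8 : 2 ^ J * u * (k * u) ≤ ζ ^ 2 / 50 * (ζ / 5) :=
      mul_le_mul h2Ju e7 (by positivity) (by positivity)
    have e9 : ζ / 10 * ((1 - ζ / 100) * X * (ζ / 2 * ℓ) ^ 2) ≤
        ζ / 10 * (Gsum P (fun a => gst J (u * ℓ) a ^ 2) * (ζ / 2 * ℓ) ^ 2) :=
      mul_le_mul_of_nonneg_left (mul_le_mul_of_nonneg_right n3 (by positivity)) (by positivity)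
    refine (e5.trans (le_of_eq e6)).trans (le_trans ?_ e9)
    have e10 : 4 * (1 + ζ / 100) * (X * ℓ ^ 2) * (2 ^ J * u * (k * u)) ≤
        4 * (1 + ζ / 100) * (X * ℓ ^ 2) * (ζ ^ 2 / 50 * (ζ / 5)) :=
      mul_le_mul_of_nonneg_left e8 (by positivity)
    refine e10.trans ?_
    have e11 : 4 * (1 + ζ / 100) * (X * ℓ ^ 2) * (ζ ^ 2 / 50 * (ζ / 5)) =
        (2 / 125 * (1 + ζ / 100)) * (X * ℓ ^ 2 * ζ ^ 3) := by ring
    have e12 : ζ / 10 * ((1 - ζ / 100) * X * (ζ / 2 * ℓ) ^ 2) =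
        (1 / 40 * (1 - ζ / 100)) * (X * ℓ ^ 2 * ζ ^ 3) := by ring
    rw [e11, e12]
    apply mul_le_mul_of_nonneg_right _ (by positivity)
    linarith
  · -- support
    have key : ∀ U : Finset (Fin M), gst J (u * ℓ) (pr P U) ≠ 0 → (pr P U : ℝ) ≤ (N : ℝ) ^ (ζ / 4) := by
      intro U hU
      have e5 := gst_support J (u * ℓ) (by positivity) (pr P U) hU
      have hpr : (0:ℝ) < pr P U := by
        unfold pr
        exact_mod_cast Finset.prod_pos fun j _ => (hP j).pos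
      rw [← Real.log_le_log_iff hpr (by positivity), Real.log_rpow hNr, ← hℓ]
      calc Real.log (pr P U) ≤ 2 ^ J * (u * ℓ) := e5
        _ = (2 ^ J * u) * ℓ := by ring
        _ ≤ ζ / 4 * ℓ := mul_le_mul_of_nonneg_right (h2Ju.trans (by nlinarith)) hℓ0.le
    intro U U' hU hU'
    have e5 := key U hU
    have e6 := key U' hU'
    have e7 : (N : ℝ) ^ ζ = (N : ℝ) ^ (ζ / 2) * (N : ℝ) ^ (ζ / 4) * (N : ℝ) ^ (ζ / 4) := by
      rw [← Real.rpow_add hNr, ← Real.rpow_add hNr]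
      congr 1; ring
    rw [e7]
    gcongr
  · refine le_trans ?_ n1
    have e5 : (1:ℝ) ≤ (1 - ζ / 100) * X := by nlinarith
    have e6 : (1 - ζ / 100) * X * 1 ≤ (1 - ζ / 100) * X * (J / 2 + 1) :=
      mul_le_mul_of_nonneg_left (by linarith) (by linarith)
    linarith
  · refine le_trans ?_ n3
    nlinarith
  · have hnn : 0 ≤ Sg32 P := by
      unfold Sg32
      refine Finset.sum_nonneg fun j _ => mul_nonneg ?_ (Real.sqrt_nonneg _)
      exact NUM_al_nonneg P hP j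
    have e5 : 1000 * (k:ℝ) ^ 2 * Sg32 P ≤ ζ / 200 := by
      rw [le_div_iff₀ (by positivity)] at h4
      linarith
    have := FL_exp (x := 1000 * (k:ℝ) ^ 2 * Sg32 P) (by positivity) (by linarith)
    linarith

end Pool.Agent.BG4
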