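import Pool.Agent.Lib_helper23.BG4.Defs
/-! Block PROD (helper30) -/

set_option autoImplicit false

namespace Pool.Agent.BG4

open Finset Filter Pool.Agent.BG
open scoped Classical

variable {M k : ℕ}

theorem prod_er_none (G : Finset (Fin k)) (x : Vec M k) (j : Fin M) (h : x j = none) :
    er G x j = none := by
  unfold er
  split_ifs <;> simp [h]

theorem prod_onn_none (G : Finset (Fin k)) (x : Vec M k) (j : Fin M) (h : x j = none) :
    onn G x j = none := by
  unfold onn
  split_ifs <;> simp [h]

theorem prod_er_in (G : Finset (Fin k)) (x : Vec M k) (j : Fin M) (i : Fin k) (h : x j = some i)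
    (hi : i ∈ G) : er G x j = none ∧ onn G x j = some i := by
  unfold er onn
  have : ∃ i ∈ G, x j = some i := ⟨i, hi, h⟩
  rw [if_pos this, if_pos this]
  exact ⟨rfl, h⟩

theorem prod_er_out (G : Finset (Fin k)) (x : Vec M k) (j : Fin M) (i : Fin k) (h : x j = some i)
    (hi : i ∉ G) : er G x j = some i ∧ onn G x j = none := by
  unfold er onn
  have : ¬ ∃ i ∈ G, x j = some i := by
    rintro ⟨i', hi', h'⟩
    rw [h] at h'
    cases h'
    exact hi hi'
  rw [if_neg this, if_neg this]
  exact ⟨h, rfl⟩

theorem prod_avoid_er (G : Finset (Fin k)) (x : Vec M k) : Avoid G (er G x) := by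
  intro j i hi h
  rcases hx : x j with _ | i'
  · rw [prod_er_none G x j hx] at h
    exact absurd h (by simp)
  · by_cases hi' : i' ∈ G
    · rw [(prod_er_in G x j i' hx hi').1] at h
      exact absurd h (by simp)
    · rw [(prod_er_out G x j i' hx hi').1] at h
      cases h
      exact hi' hi

theorem prod_vals_onn (G : Finset (Fin k)) (x : Vec M k) : Vals G (onn G x) := by
  intro j i h
  rcases hx : x j with _ | i'
  · rw [prod_onn_none G x j hx] at h
    exact absurd h (by simp)
  · by_cases hi' : i' ∈ G
    · rw [(prod_er_in G x j i' hx hi').2] at h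
      cases h
      exact hi'
    · rw [(prod_er_out G x j i' hx hi').2] at h
      exact absurd h (by simp)

theorem prod_dis (G : Finset (Fin k)) (x : Vec M k) : Dis (er G x) (onn G x) := by
  intro j
  rcases hx : x j with _ | i'
  · exact Or.inl (prod_er_none G x j hx)
  · by_cases hi' : i' ∈ G
    · exact Or.inl (prod_er_in G x j i' hx hi').1
    · exact Or.inr (prod_er_out G x j i' hx hi').2

theorem prod_join (G : Finset (Fin k)) (x : Vec M k) : join (er G x) (onn G x) = x := by
  funext j
  unfold join
  rcases hx : x j with _ | i'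
  · rw [if_pos (prod_er_none G x j hx), prod_onn_none G x j hx]
  · by_cases hi' : i' ∈ G
    · obtain ⟨h1, h2⟩ := prod_er_in G x j i' hx hi'
      rw [if_pos h1, h2]
    · obtain ⟨h1, h2⟩ := prod_er_out G x j i' hx hi'
      rw [if_neg (by rw [h1]; simp), h1]

theorem prod_er_join (G : Finset (Fin k)) (x y : Vec M k) (hx : Avoid G x) (hy : Vals G y) :
    er G (join x y) = x := by
  funext j
  rcases hxj : x j with _ | i
  · rcases hyj : y j with _ | i'
    · exact prod_er_none G _ j (by unfold join; simp [hxj, hyj])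
    · exact (prod_er_in G _ j i' (by unfold join; simp [hxj, hyj]) (hy j i' hyj)).1
  · exact (prod_er_out G _ j i (by unfold join; simp [hxj]) (fun h => hx j i h hxj)).1

theorem prod_onn_join (G : Finset (Fin k)) (x y : Vec M k) (hx : Avoid G x) (hy : Vals G y)
    (hd : Dis x y) : onn G (join x y) = y := by
  funext j
  rcases hxj : x j with _ | i
  · rcases hyj : y j with _ | i'
    · exact prod_onn_none G _ j (by unfold join; simp [hxj, hyj])
    · exact (prod_er_in G _ j i' (by unfold join; simp [hxj, hyj]) (hy j i' hyj)).2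
  · rw [(prod_er_out G _ j i (by unfold join; simp [hxj]) (fun h => hx j i h hxj)).2]
    rcases hd j with h | h
    · rw [hxj] at h
      exact absurd h (by simp)
    · rw [h]

theorem prod_sat (P : Fin M → ℕ) (h : Fin k → ℕ) (G : Finset (Fin k)) (n : ℕ) (x : Vec M k) :
    Sat P h n x ↔ Sat P h n (er G x) ∧ Sat P h n (onn G x) := by
  constructor
  · intro hs
    constructor
    · intro j i hj
      rcases hx : x j with _ | i'
      · rw [prod_er_none G x j hx] at hj
        exact absurd hj (by simp)
      · by_cases hi' : i' ∈ G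
        · rw [(prod_er_in G x j i' hx hi').1] at hj
          exact absurd hj (by simp)
        · rw [(prod_er_out G x j i' hx hi').1] at hj
          cases hj
          exact hs j _ hx
    · intro j i hj
      rcases hx : x j with _ | i'
      · rw [prod_onn_none G x j hx] at hj
        exact absurd hj (by simp)
      · by_cases hi' : i' ∈ G
        · rw [(prod_er_in G x j i' hx hi').2] at hj
          cases hj
          exact hs j _ hx
        · rw [(prod_er_out G x j i' hx hi').2] at hj
          exact absurd hj (by simp)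
  · rintro ⟨h1, h2⟩ j i hj
    by_cases hi : i ∈ G
    · exact h2 j i (prod_er_in G x j i hj hi).2
    · exact h1 j i (prod_er_out G x j i hj hi).1

/-- sums over vectors as sums over pairs -/
theorem prod_sum_pairs (G : Finset (Fin k)) (F : Vec M k → Vec M k → ℝ) :
    ∑ x : Vec M k, F (er G x) (onn G x) =
      ∑ p ∈ (univ : Finset (Vec M k × Vec M k)).filter
        (fun p => Avoid G p.1 ∧ Vals G p.2 ∧ Dis p.1 p.2), F p.1 p.2 := by
  refine Finset.sum_bij' (fun x _ => (er G x, onn G x)) (fun p _ => join p.1 p.2) ?_ ?_ ?_ ?_ ?_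
  · intro x _
    rw [Finset.mem_filter]
    exact ⟨Finset.mem_univ _, prod_avoid_er G x, prod_vals_onn G x, prod_dis G x⟩
  · intro p _
    exact Finset.mem_univ _
  · intro x _
    exact prod_join G x
  · rintro ⟨x, y⟩ hp
    rw [Finset.mem_filter] at hp
    obtain ⟨_, h1, h2, h3⟩ := hp
    simp only
    rw [prod_er_join G x y h1 h2, prod_onn_join G x y h1 h2 h3]
  · intro x _
    rfl

theorem Phi_ext (P : Fin M → ℕ) (hP : ∀ j, (P j).Prime) (h : Fin k → ℕ)
    (hd : ∀ j i l, i ≠ l → ¬ ((P j : ℤ) ∣ (h i : ℤ) - h l)) (G : Finset (Fin k))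
    (c0 lm : Vec M k → ℝ) (hc0 : ∀ x, c0 x ≠ 0 → Avoid G x) (n : ℕ) :
    Phi P h (ext G ∅ c0 lm) n = Phi P h c0 n * Lam P h G lm n := by
  unfold Phi Lam
  rw [Finset.sum_mul_sum, ← Finset.sum_product']
  have h1 : ∀ x : Vec M k, (if Sat P h n x then ext G ∅ c0 lm x else 0) =
      (fun x y => (if Sat P h n x then c0 x else 0) * (if Sat P h n y ∧ Vals G y then lm y else 0))
        (er G x) (onn G x) := by
    intro x
    have hv := prod_vals_onn G x
    simp only [ext, Finset.notMem_empty, false_imp_iff, implies_true, if_true]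
    by_cases hs : Sat P h n x
    · obtain ⟨a1, a2⟩ := (prod_sat P h G n x).mp hs
      rw [if_pos hs, if_pos a1, if_pos ⟨a2, hv⟩]
    · rw [if_neg hs]
      by_cases a1 : Sat P h n (er G x)
      · have a2 : ¬ Sat P h n (onn G x) := fun a2 => hs ((prod_sat P h G n x).mpr ⟨a1, a2⟩)
        rw [if_neg (c := Sat P h n (onn G x) ∧ Vals G (onn G x)) (fun h => a2 h.1), mul_zero]
      · rw [if_neg a1, zero_mul]
  rw [Finset.sum_congr rfl (fun x _ => h1 x), prod_sum_pairs G (fun x y =>
    (if Sat P h n x then c0 x else 0) * (if Sat P h n y ∧ Vals G y then lm y else 0))]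
  rw [Finset.univ_product_univ]
  refine Finset.sum_subset (Finset.filter_subset _ _) ?_
  rintro ⟨x, y⟩ _ hn
  rw [Finset.mem_filter] at hn
  by_contra hne
  apply hn
  simp only at hne ⊢
  have h2 := left_ne_zero_of_mul hne
  have h3 := right_ne_zero_of_mul hne
  have hx : Sat P h n x := by
    by_contra hh
    rw [if_neg hh] at h2
    exact h2 rfl
  rw [if_pos hx] at h2
  have hy : Sat P h n y ∧ Vals G y := by
    by_contra hh
    rw [if_neg hh] at h3
    exact h3 rfl
  refine ⟨Finset.mem_univ _, hc0 x h2, hy.2, ?_⟩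
  intro j
  rcases hxj : x j with _ | i
  · exact Or.inl rfl
  · rcases hyj : y j with _ | i'
    · exact Or.inr rfl
    · exfalso
      have e1 : i' ∈ G := hy.2 j i' hyj
      have e2 : i ≠ i' := by
        rintro rfl
        exact hc0 x h2 j i e1 hxj
      apply hd j i i' e2
      have e3 : (P j : ℤ) ∣ ((n + h i : ℕ) : ℤ) := by exact_mod_cast hx j i hxj
      have e4 : (P j : ℤ) ∣ ((n + h i' : ℕ) : ℤ) := by exact_mod_cast hy.1 j i' hyj
      have := dvd_sub e3 e4
      push_cast at this
      have e5 : (n : ℤ) + h i - (n + h i') = h i - h i' := by ring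
      rwa [e5] at this

theorem prod_dvd_dv (P : Fin M → ℕ) (x : Vec M k) (j : Fin M) (h : x j ≠ none) : P j ∣ dv P x := by
  unfold dv
  have := Finset.dvd_prod_of_mem (fun j => if x j = none then 1 else P j) (Finset.mem_univ j)
  simpa [h] using this

theorem prod_dv_pos (P : Fin M → ℕ) (hP : ∀ j, (P j).Prime) (x : Vec M k) : 0 < dv P x := by
  unfold dv
  refine Finset.prod_pos (fun j _ => ?_)
  split_ifs
  · exact one_pos
  · exact (hP j).pos

theorem Lam_one (P : Fin M → ℕ) (hP : ∀ j, (P j).Prime) (h : Fin k → ℕ) (G : Finset (Fin k))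
    (lm : Vec M k → ℝ) (n : ℕ) (R : ℝ) (hR : ∀ i ∈ G, ∀ j, P j ∣ n + h i → R < P j)
    (hlm : ∀ y, lm y ≠ 0 → (dv P y : ℝ) ≤ R) : Lam P h G lm n = lm (fun _ => none) := by
  unfold Lam
  rw [Finset.sum_eq_single (fun _ => none)]
  · rw [if_pos]
    exact ⟨fun j i hj => absurd hj (by simp), fun j i hj => absurd hj (by simp)⟩
  · intro y _ hy
    by_contra hne
    have hs : Sat P h n y ∧ Vals G y := by
      by_contra hh
      rw [if_neg hh] at hne
      exact hne rfl
    rw [if_pos hs] at hne
    have h1 := hlm y hne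
    have h2 : ∃ j, y j ≠ none := by
      by_contra hh
      push Not at hh
      exact hy (funext hh)
    obtain ⟨j, hj⟩ := h2
    obtain ⟨i, hi⟩ := Option.ne_none_iff_exists'.mp hj
    have h3 := hR i (hs.2 j i hi) j (hs.1 j i hi)
    have h4 : P j ≤ dv P y := Nat.le_of_dvd (prod_dv_pos P hP y) (prod_dvd_dv P y j hj)
    have h5 : (P j : ℝ) ≤ dv P y := by exact_mod_cast h4
    linarith
  · intro hh
    exact absurd (Finset.mem_univ _) hh

theorem prod_Al_none (α : ℝ) (t : Option (Fin k)) : Al α none t = om α t := by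
  cases t <;> rfl

theorem prod_tr_none (γ : Fin M → ℝ) (ω : Vec M k → ℝ) :
    tr γ ω (fun _ => none) = ∑ x, ω x * gw γ x := by
  unfold tr gw
  refine Finset.sum_congr rfl (fun x _ => ?_)
  congr 1
  exact Finset.prod_congr rfl (fun j _ => prod_Al_none _ _)

theorem sel_none (P : Fin M → ℕ) (G : Finset (Fin k)) (γ : Fin M → ℝ) (f : ℕ → ℝ)
    (h0 : GS P G γ f ≠ 0) : sel P G γ f (fun _ => none) = 1 := by
  unfold sel lam
  rw [prod_tr_none]
  have h1 : sc (fun _ => none : Vec M k) = 0 := by
    unfold sc
    simp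
  rw [h1, pow_zero, one_mul]
  have h2 : ∀ x : Vec M k, omf P G (fun d => f d / GS P G γ f) x * gw γ x =
      (omf P G f x * gw γ x) / GS P G γ f := by
    intro x
    unfold omf
    split_ifs
    · ring
    · simp
  rw [Finset.sum_congr rfl (fun x _ => h2 x), ← Finset.sum_div]
  exact div_self h0

theorem sel_supp (P : Fin M → ℕ) (hP : ∀ j, (P j).Prime) (G : Finset (Fin k)) (γ : Fin M → ℝ)
    (f : ℕ → ℝ) (R : ℝ) (hf : ∀ d, f d ≠ 0 → (d : ℝ) ≤ R) (y : Vec M k)
    (hy : sel P G γ f y ≠ 0) : (dv P y : ℝ) ≤ R := by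
  unfold sel lam at hy
  have h1 := right_ne_zero_of_mul hy
  unfold tr at h1
  obtain ⟨x, _, hx⟩ := Finset.exists_ne_zero_of_sum_ne_zero h1
  have h2 := left_ne_zero_of_mul hx
  have h3 := right_ne_zero_of_mul hx
  have h4 : (dv P x : ℝ) ≤ R := by
    unfold omf at h2
    have hv : Vals G x := by
      by_contra hh
      rw [if_neg hh] at h2
      exact h2 rfl
    rw [if_pos hv] at h2
    apply hf
    intro h0
    apply h2
    simp [h0]
  refine le_trans ?_ h4
  have h5 : dv P y ≤ dv P x := by
    unfold dv
    refine Finset.prod_le_prod' (fun j _ => ?_)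
    by_cases hyj : y j = none
    · rw [if_pos hyj]
      split_ifs
      · exact le_rfl
      · exact (hP j).pos
    · rw [if_neg hyj]
      have h6 := Finset.prod_ne_zero_iff.mp h3 j (Finset.mem_univ j)
      obtain ⟨i, hi⟩ := Option.ne_none_iff_exists'.mp hyj
      rcases hxj : x j with _ | i'
      · rw [hi, hxj] at h6
        exact absurd rfl h6
      · simp
  exact_mod_cast h5

theorem GS_eq_Gsum (P : Fin M → ℕ) (b : Fin k) (f : ℕ → ℝ) :
    GS P {b} (al P) f = Gsum P f := by
  unfold GS Gsum
  have h1 : ∀ y : Vec M k, omf P {b} f y * gw (al P) y =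
      if Vals {b} y then f (dv P y) * gw (al P) y else 0 := by
    intro y
    unfold omf
    split_ifs <;> simp
  rw [Finset.sum_congr rfl (fun y _ => h1 y), ← Finset.sum_filter]
  refine Finset.sum_bij' (fun y _ => univ.filter (fun j => y j ≠ none))
    (fun U _ => fun j => if j ∈ U then some b else none) ?_ ?_ ?_ ?_ ?_
  · intro y _
    exact Finset.mem_univ _
  · intro U _
    rw [Finset.mem_filter]
    refine ⟨Finset.mem_univ _, fun j i hj => ?_⟩
    by_cases hU : j ∈ U
    · simp only [hU, if_true, Option.some.injEq] at hj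
      rw [← hj]
      exact Finset.mem_singleton_self b
    · simp only [hU, if_false] at hj
      exact absurd hj (by simp)
  · intro y hy
    rw [Finset.mem_filter] at hy
    funext j
    rcases hyj : y j with _ | i
    · simp [hyj]
    · have := Finset.mem_singleton.mp (hy.2 j i hyj)
      simp [hyj, this]
  · intro U _
    ext j
    by_cases hU : j ∈ U <;> simp [hU]
  · intro y hy
    rw [Finset.mem_filter] at hy
    have e1 : dv P y = pr P (univ.filter (fun j => y j ≠ none)) := by
      unfold dv pr
      rw [Finset.prod_filter]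
      refine Finset.prod_congr rfl (fun j _ => ?_)
      by_cases h : y j = none <;> simp [h]
    have e2 : gw (al P) y = ∏ j ∈ univ.filter (fun j => y j ≠ none), al P j := by
      unfold gw
      rw [Finset.prod_filter]
      refine Finset.prod_congr rfl (fun j _ => ?_)
      rcases hyj : y j with _ | i <;> simp [om]
    rw [e1, e2]

end Pool.Agent.BG4
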