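import Pool.Agent.Lib_helper23.BG4F.ELO
import Pool.Agent.Lib_helper23.BG4F.EUP
import Pool.Agent.Lib_helper23.BG4F.NUM4
import Pool.Agent.Lib_helper23.BG4F.PROD
import Pool.Agent.Lib_helper23.BGF.TENS
/-! Blocks SUP and SLO: the energy of the Selberg weights. -/

set_option autoImplicit false

namespace Pool.Agent.BG4

open Finset Filter Pool.Agent.BG
open scoped Classical

variable {M k : ℕ}

lemma SUP_gw_nonneg (γ : Fin M → ℝ) (hγ : ∀ j, 0 ≤ γ j) (y : Vec M k) : 0 ≤ gw γ y := by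
  unfold gw
  refine Finset.prod_nonneg fun j _ => ?_
  rcases y j with _ | i
  · exact zero_le_one
  · exact hγ j

lemma SUP_Sg32_nonneg (P : Fin M → ℕ) (hP : ∀ j, (P j).Prime) : 0 ≤ Sg32 P := by
  unfold Sg32
  exact Finset.sum_nonneg fun j _ => mul_nonneg (NUM_al_nonneg P hP j) (Real.sqrt_nonneg _)

lemma SUP_dv_none (P : Fin M → ℕ) : dv P (fun _ => (none : Option (Fin k))) = 1 := by
  unfold dv
  simp

lemma SUP_gw_none (γ : Fin M → ℝ) : gw γ (fun _ => (none : Option (Fin k))) = 1 := by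
  unfold gw
  simp [om]

/-- `dv` is monotone for extensions -/
lemma SUP_dv_dvd (P : Fin M → ℕ) (y y' : Vec M k) (h : ∀ j, y j ≠ none → y' j = y j) :
    dv P y ∣ dv P y' := by
  unfold dv
  refine Finset.prod_dvd_prod_of_dvd _ _ fun j _ => ?_
  by_cases hy : y j = none
  · rw [if_pos hy]; exact one_dvd _
  · rw [if_neg hy, if_neg (by rw [h j hy]; exact hy)]

lemma SUP_dv_pos (P : Fin M → ℕ) (hP : ∀ j, (P j).Prime) (y : Vec M k) : 0 < dv P y := by
  unfold dv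
  refine Finset.prod_pos fun j _ => ?_
  split_ifs
  · exact one_pos
  · exact (hP j).pos

/-- monotone cut-offs -/
def SUP_mono (f : ℕ → ℝ) : Prop := (∀ d, f d = 0 ∨ f d = 1) ∧ f 1 = 1 ∧
  ∀ d d' : ℕ, 0 < d' → d ∣ d' → f d' ≤ f d

lemma SUP_mono_f1 (R : ℝ) (hR : 1 ≤ R) : SUP_mono (f1 R) := by
  refine ⟨fun d => ?_, ?_, ?_⟩
  · unfold f1
    split_ifs
    · right; rfl
    · left; rfl
  · unfold f1
    rw [if_pos]
    exact_mod_cast hR
  · intro d d' hd hdd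
    unfold f1
    have h1 : (d : ℝ) ≤ d' := by exact_mod_cast Nat.le_of_dvd hd hdd
    split_ifs with h2 h3
    · exact le_rfl
    · exact absurd (h1.trans h2) h3
    · exact zero_le_one
    · exact le_rfl

lemma SUP_mono_fz (z R : ℝ) (hR : 1 ≤ R) : SUP_mono (fz z R) := by
  refine ⟨fun d => ?_, ?_, ?_⟩
  · unfold fz
    split_ifs
    · right; rfl
    · left; rfl
  · unfold fz
    rw [if_pos]
    refine ⟨by exact_mod_cast hR, fun p hp h1 => ?_⟩
    exact absurd (Nat.dvd_one.mp h1) hp.one_lt.ne'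
  · intro d d' hd hdd
    unfold fz
    have h1 : (d : ℝ) ≤ d' := by exact_mod_cast Nat.le_of_dvd hd hdd
    split_ifs with h2 h3
    · exact le_rfl
    · exact absurd ⟨h1.trans h2.1, fun p hp hpd => h2.2 p hp (hpd.trans hdd)⟩ h3
    · exact zero_le_one
    · exact le_rfl

lemma SUP_GS_pos (P : Fin M → ℕ) (hP : ∀ j, (P j).Prime) (G : Finset (Fin k)) (γ : Fin M → ℝ)
    (hγ : ∀ j, 0 ≤ γ j) (f : ℕ → ℝ) (hf : SUP_mono f) : 1 ≤ GS P G γ f := by
  unfold GS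
  have h0 : ∀ y : Vec M k, 0 ≤ omf P G f y * gw γ y := by
    intro y
    refine mul_nonneg ?_ (SUP_gw_nonneg γ hγ y)
    unfold omf
    split_ifs
    · rcases hf.1 (dv P y) with h | h
      · rw [h]
      · rw [h]; exact zero_le_one
    · exact le_rfl
  refine le_trans (le_of_eq ?_) (Finset.single_le_sum (fun y _ => h0 y)
    (Finset.mem_univ (fun _ => (none : Option (Fin k)))))
  rw [SUP_gw_none, mul_one]
  unfold omf
  rw [if_pos, SUP_dv_none, hf.2.1]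
  intro j i hj
  exact absurd hj (by simp)

lemma SUP_omega_nonneg (P : Fin M → ℕ) (hP : ∀ j, (P j).Prime) (G : Finset (Fin k))
    (γ : Fin M → ℝ) (hγ : ∀ j, 0 ≤ γ j) (f : ℕ → ℝ) (hf : SUP_mono f) (y : Vec M k) :
    0 ≤ omf P G (fun d => f d / GS P G γ f) y := by
  have h1 := SUP_GS_pos P hP G γ hγ f hf
  unfold omf
  split_ifs
  · refine div_nonneg ?_ (by linarith)
    rcases hf.1 (dv P y) with h | h
    · rw [h]
    · rw [h]; exact zero_le_one
  · exact le_rfl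

lemma SUP_omega_mono (P : Fin M → ℕ) (hP : ∀ j, (P j).Prime) (G : Finset (Fin k))
    (γ : Fin M → ℝ) (hγ : ∀ j, 0 ≤ γ j) (f : ℕ → ℝ) (hf : SUP_mono f) (y y' : Vec M k)
    (h : ∀ j, y j ≠ none → y' j = y j) :
    omf P G (fun d => f d / GS P G γ f) y' ≤ omf P G (fun d => f d / GS P G γ f) y := by
  have h1 := SUP_GS_pos P hP G γ hγ f hf
  have h2 := SUP_omega_nonneg P hP G γ hγ f hf y
  by_cases hv : Vals G y'
  · have hv' : Vals G y := by
      intro j i hj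
      exact hv j i (by rw [h j (by rw [hj]; simp)]; exact hj)
    unfold omf
    rw [if_pos hv, if_pos hv']
    refine div_le_div_of_nonneg_right ?_ (by linarith)
    exact hf.2.2 _ _ (SUP_dv_pos P hP y') (SUP_dv_dvd P y y' h)
  · have : omf P G (fun d => f d / GS P G γ f) y' = 0 := by
      unfold omf
      rw [if_neg hv]
    rw [this]
    exact h2

/-- the energy of the dual variables -/
lemma SUP_energy (P : Fin M → ℕ) (hP : ∀ j, (P j).Prime) (G : Finset (Fin k))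
    (γ : Fin M → ℝ) (hγ : ∀ j, 0 ≤ γ j) (f : ℕ → ℝ) (hf : SUP_mono f) :
    ∑ y : Vec M k, omf P G (fun d => f d / GS P G γ f) y ^ 2 * gw γ y = 1 / GS P G γ f := by
  have h1 := SUP_GS_pos P hP G γ hγ f hf
  have h2 : ∀ y : Vec M k, omf P G (fun d => f d / GS P G γ f) y ^ 2 * gw γ y =
      (omf P G f y * gw γ y) * (1 / GS P G γ f ^ 2) := by
    intro y
    unfold omf
    split_ifs
    · beta_reduce
      rcases hf.1 (dv P y) with h | h
      · rw [h]; ring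
      · rw [h]; ring
    · ring
  rw [Finset.sum_congr rfl fun y _ => h2 y, ← Finset.sum_mul]
  change GS P G γ f * (1 / GS P G γ f ^ 2) = 1 / GS P G γ f
  have h3 : GS P G γ f ≠ 0 := by linarith
  field_simp

theorem sel_upper (ζ : ℝ) (hζ : 0 < ζ) (hζ1 : ζ ≤ 1 / 1000) (J k : ℕ)
    (hk : 10 * 2 ^ J ≤ ζ * k) : ∃ w₀ : ℕ, ∀ (h : Fin k → ℕ) (W ν : ℕ), Setup k w₀ h W ν →
      ∀ᶠ N : ℕ in atTop, ∀ (M : ℕ) (P : Fin M → ℕ), Enum P W N → ∀ a b : Fin k, a ≠ b →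
        ∀ (G : Finset (Fin k)), G ⊆ {a, b} → ∀ (γ : Fin M → ℝ), (∀ j, 1 / (P j : ℝ) ≤ γ j) →
        (∀ j, γ j ≤ al P j) → ∀ R : ℝ, 1 ≤ R →
        ∑ r, tr γ (ext G ∅ (restr {a, b} (c4 P ζ J N)) (sel P G γ (f1 R))) r ^ 2 *
            ∏ j, om (γ j) (r j) ≤
          (1 + ζ) * (1 / GS P G γ (f1 R)) * GG4 P ζ J k N := by
  obtain ⟨w₀, hw₀k, hnum⟩ := num4 ζ hζ hζ1 J k hk
  refine ⟨w₀, fun h W ν hs => ?_⟩
  filter_upwards [hnum h W ν hs, eventually_ge_atTop 1] with N h1 hN M P hE a b hab G hG γ hγ0 hγ1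
    R hR
  obtain ⟨hP, hinj, -, -, -, -⟩ := FL_enum hs hE
  obtain ⟨-, -, -, -, -, -, -, hgh, hG1, hG2, hexp, -⟩ := h1 M P hE
  have hγ : ∀ j, 0 ≤ γ j := fun j => le_trans (by positivity) (hγ0 j)
  have hZ1 : (1:ℝ) ≤ (N : ℝ) ^ ζ := Real.one_le_rpow (by exact_mod_cast hN) hζ.le
  have hf := SUP_mono_f1 R hR
  have hGS := SUP_GS_pos P hP G γ hγ (f1 R) hf
  have hen := energy_upper P hP hinj γ hγ0 hγ1 (gg4 ζ J k N) hgh ((N : ℝ) ^ ζ) hZ1 a b hab G hG ∅
    (omf P G (fun d => f1 R d / GS P G γ (f1 R)))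
    (SUP_omega_nonneg P hP G γ hγ (f1 R) hf)
    (by
      intro y hy
      refine ⟨?_, fun j hj => absurd hj (Finset.notMem_empty _)⟩
      by_contra hcon
      apply hy
      unfold omf
      rw [if_neg hcon])
    (1 / GS P G γ (f1 R))
    (by
      intro τ hτ _
      rw [← SUP_energy P hP G γ hγ (f1 R) hf]
      have e1 : ∑ y ∈ (univ : Finset (Vec M k)).filter (fun y => Vals G y ∧ Dis y τ),
          omf P G (fun d => f1 R d / GS P G γ (f1 R)) (join y τ) ^ 2 * gw γ y ≤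
          ∑ y ∈ (univ : Finset (Vec M k)).filter (fun y => Vals G y ∧ Dis y τ),
          omf P G (fun d => f1 R d / GS P G γ (f1 R)) y ^ 2 * gw γ y := by
        refine Finset.sum_le_sum fun y _ => ?_
        refine mul_le_mul_of_nonneg_right ?_ (SUP_gw_nonneg γ hγ y)
        refine pow_le_pow_left₀ (SUP_omega_nonneg P hP G γ hγ (f1 R) hf _) ?_ 2
        refine SUP_omega_mono P hP G γ hγ (f1 R) hf y (join y τ) ?_
        intro j hj
        unfold join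
        rw [if_neg hj]
      refine e1.trans (Finset.sum_le_sum_of_subset_of_nonneg (Finset.filter_subset _ _) ?_)
      intro y _ _
      exact mul_nonneg (sq_nonneg _) (SUP_gw_nonneg γ hγ y))
  have hS := SUP_Sg32_nonneg P hP
  have hk1 : (1:ℝ) ≤ k := by
    have : 0 < k := lt_of_le_of_lt (Nat.zero_le _) a.2
    exact_mod_cast this
  have hexp2 : Real.exp (100 * k * Sg32 P) ≤ 1 + ζ := by
    refine le_trans (Real.exp_le_exp.2 ?_) (hexp.trans (by linarith))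
    apply mul_le_mul_of_nonneg_right _ hS
    nlinarith
  rw [Finset.prod_empty, mul_one] at hen
  have hGG0 : 0 ≤ Gsum P (gg4 ζ J k N) ^ 4 * Gsum P (fun a => gg4 ζ J k N a ^ 2) ^ (k - 2) := by
    positivity
  have hGSi : 0 ≤ 1 / GS P G γ (f1 R) := by positivity
  calc ∑ r, tr γ (ext G ∅ (restr {a, b} (c4 P ζ J N)) (sel P G γ (f1 R))) r ^ 2 *
            ∏ j, om (γ j) (r j)
      ≤ 1 / GS P G γ (f1 R) * (Gsum P (gg4 ζ J k N) ^ 4 *
          Gsum P (fun a => gg4 ζ J k N a ^ 2) ^ (k - 2)) * Real.exp (100 * k * Sg32 P) := hen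
    _ ≤ 1 / GS P G γ (f1 R) * (Gsum P (gg4 ζ J k N) ^ 4 *
          Gsum P (fun a => gg4 ζ J k N a ^ 2) ^ (k - 2)) * (1 + ζ) :=
        mul_le_mul_of_nonneg_left hexp2 (mul_nonneg hGSi hGG0)
    _ = (1 + ζ) * (1 / GS P G γ (f1 R)) * GG4 P ζ J k N := by
        unfold GG4 G14 G24
        ring

theorem sel_lower (ζ : ℝ) (hζ : 0 < ζ) (hζ1 : ζ ≤ 1 / 1000) (J k : ℕ)
    (hk : 10 * 2 ^ J ≤ ζ * k) : ∃ w₀ : ℕ, ∀ (h : Fin k → ℕ) (W ν : ℕ), Setup k w₀ h W ν →
      ∀ᶠ N : ℕ in atTop, ∀ (M : ℕ) (P : Fin M → ℕ), Enum P W N → ∀ a b : Fin k, a ≠ b →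
        ∀ z R : ℝ, 1 ≤ R →
        (1 - ζ) * (1 / Gsum P (fz z R)) * GG4 P ζ J k N ≤
        ∑ x, ∑ y, ext {b} ∅ (restr {a, b} (c4 P ζ J N)) (sel P {b} (al P) (fz z R)) x *
          ext {b} ∅ (restr {a, b} (c4 P ζ J N)) (sel P {b} (al P) (fz z R)) y *
          ∏ j, Kl (al P j) (x j) (y j) := by
  obtain ⟨w₀, hw₀k, hnum⟩ := num4 ζ hζ hζ1 J k hk
  refine ⟨w₀, fun h W ν hs => ?_⟩
  filter_upwards [hnum h W ν hs, eventually_ge_atTop 2] with N h1 hN M P hE a b hab z R hR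
  obtain ⟨hP, hinj, -, -, -, hPw⟩ := FL_enum hs hE
  obtain ⟨-, -, -, -, hg5, hg6, hg7, hgh, hG1, hG2, hexp, hS2⟩ := h1 M P hE
  have hN1r : (1:ℝ) < N := by exact_mod_cast (show 1 < N by omega)
  have hγ : ∀ j, 0 ≤ al P j := NUM_al_nonneg P hP
  have hf := SUP_mono_fz z R hR
  have hGS := SUP_GS_pos P hP ({b} : Finset (Fin k)) (al P) hγ (fz z R) hf
  have hGSeq : GS P ({b} : Finset (Fin k)) (al P) (fz z R) = Gsum P (fz z R) :=
    GS_eq_Gsum P b (fz z R)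
  have h2J : (1:ℝ) ≤ 2 ^ J := one_le_pow₀ (by norm_num)
  have hk10 : (10000:ℝ) ≤ k := by
    by_contra hcon
    push Not at hcon
    nlinarith
  have hk3 : 3 ≤ k := by
    have : (3:ℝ) ≤ k := by linarith
    exact_mod_cast this
  have hkα : ∀ j, (k : ℝ) * al P j ≤ 1 := by
    intro j
    have h6 : k + 1 < P j := lt_of_le_of_lt (by omega) (hPw j)
    have h7 : (k : ℝ) + 1 < P j := by exact_mod_cast h6
    unfold al
    rw [mul_one_div, div_le_one (by linarith)]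
    linarith
  have hZ' : (1:ℝ) < (N : ℝ) ^ (ζ / 2) := Real.one_lt_rpow hN1r (by positivity)
  have hen := energy_lower P hP hinj (gg4 ζ J k N) hgh ((N : ℝ) ^ ζ) ((N : ℝ) ^ (ζ / 2)) hZ' hk3
    hkα hg7 a b hab (omf P {b} (fun d => fz z R d / GS P {b} (al P) (fz z R)))
    (SUP_omega_nonneg P hP {b} (al P) hγ (fz z R) hf)
    (by
      intro y hy
      by_contra hcon
      apply hy
      unfold omf
      rw [if_neg hcon])
    (fun y y' hyy => SUP_omega_mono P hP {b} (al P) hγ (fz z R) hf y y' hyy) hg5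
  rw [SUP_energy P hP {b} (al P) hγ (fz z R) hf] at hen
  have htl := tensor_lower (al P) hγ hkα
    (ext {b} ∅ (restr {a, b} (c4 P ζ J N)) (sel P {b} (al P) (fz z R)))
  refine le_trans ?_ htl
  have hS := FL_Sg2_nonneg P
  have hexp2 : Real.exp (100 * k ^ 2 * Sg2 P) - 1 ≤ ζ / 100 := by
    have : Real.exp (100 * k ^ 2 * Sg2 P) ≤ Real.exp (1000 * k ^ 2 * Sg32 P) := by
      apply Real.exp_le_exp.2
      have e1 : 100 * (k:ℝ) ^ 2 * Sg2 P ≤ 1000 * k ^ 2 * Sg2 P := by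
        apply mul_le_mul_of_nonneg_right _ hS
        nlinarith [sq_nonneg (k:ℝ)]
      exact e1.trans (mul_le_mul_of_nonneg_left hS2 (by positivity))
    linarith
  have hlogZ' : 0 < Real.log ((N : ℝ) ^ (ζ / 2)) := Real.log_pos hZ'
  have hrat : 4 * (k:ℝ) * Gsum P (fun a => gg4 ζ J k N a ^ 2 * Real.log a ^ 2) /
      (Gsum P (fun a => gg4 ζ J k N a ^ 2) * Real.log ((N : ℝ) ^ (ζ / 2)) ^ 2) ≤ ζ / 10 := by
    rw [div_le_iff₀ (by positivity)]
    exact hg6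
  have hGG0 : 0 ≤ Gsum P (gg4 ζ J k N) ^ 4 * Gsum P (fun a => gg4 ζ J k N a ^ 2) ^ (k - 2) := by
    positivity
  have hGSi : 0 ≤ 1 / GS P ({b} : Finset (Fin k)) (al P) (fz z R) := by positivity
  refine le_trans ?_ hen
  rw [hGSeq] at hGSi ⊢
  have e1 : (1 - ζ) * (1 / Gsum P (fz z R)) * GG4 P ζ J k N =
      (1 / Gsum P (fz z R)) * (Gsum P (gg4 ζ J k N) ^ 4 *
        Gsum P (fun a => gg4 ζ J k N a ^ 2) ^ (k - 2)) * (1 - ζ) := by
    unfold GG4 G14 G24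
    ring
  rw [e1]
  apply mul_le_mul_of_nonneg_left _ (mul_nonneg hGSi hGG0)
  linarith

end Pool.Agent.BG4
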