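import Pool.Agent.Lib_helper23.BG4F.PMOD
import Pool.Agent.Lib_helper23.BG4F.SIZE4
import Pool.Agent.Lib_helper23.BG4F.SUP
import Pool.Agent.Lib_helper23.BGF.FLem2
/-! Block E1: the energy of the pair weights. -/

set_option autoImplicit false

namespace Pool.Agent.BG4

open Finset Filter Pool.Agent.BG
open scoped Classical

theorem E1_GS_ge {M : ℕ} (P : Fin M → ℕ) (hα0 : ∀ j, 0 ≤ al P j) (R : ℝ) (hR : 1 ≤ R) :
    1 ≤ Gsum P (f1 R) := by
  unfold Gsum
  have h1 : f1 R (pr P ∅) * ∏ j ∈ (∅ : Finset (Fin M)), al P j = 1 := by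
    unfold f1 pr
    simp [hR]
  rw [← h1]
  refine Finset.single_le_sum (f := fun U : Finset (Fin M) => f1 R (pr P U) * ∏ j ∈ U, al P j)
    (fun U _ => ?_) (Finset.mem_univ _)
  refine mul_nonneg ?_ (Finset.prod_nonneg fun j _ => hα0 j)
  unfold f1
  split_ifs <;> norm_num

theorem E1_num {ζ : ℝ} (hζ : 0 < ζ) (hζ1 : ζ ≤ 1 / 1000) :
    (1 + ζ / 100) * (1 + ζ) / ((1 - ζ / 50) * (1 / 4 - 2 * ζ)) ≤ 4 + 90 * ζ := by
  rw [div_le_iff₀ (by nlinarith)]
  nlinarith [mul_nonneg hζ.le hζ.le, mul_nonneg (mul_nonneg hζ.le hζ.le) hζ.le]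

theorem E1_main {ζ N W φ l V GG Q t : ℝ} (hζ : 0 < ζ) (hζ1 : ζ ≤ 1 / 1000) (hN : 0 < N)
    (hW : 0 < W) (hφ : 0 < φ) (hl : 0 < l) (hV : 1 ≤ V) (hGG : 0 < GG) (ht0 : 0 ≤ t)
    (ht : t ≤ (1 + ζ / 100) * N) (hQ : Q ≤ (1 + ζ) * (1 / V) * GG)
    (hVlow : (1 - ζ / 50) * (φ / W * ((1 / 4 - 2 * ζ) * l)) ≤ V) :
    t / φ * Q ≤ l * ((4 + 90 * ζ) * ((N * W / (φ * l) ^ 2) * GG)) := by
  have hρ : 0 < 1 / 4 - 2 * ζ := by linarith
  have hζ5 : 0 < 1 - ζ / 50 := by linarith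
  have hVpos : 0 < V := by linarith
  have e2 : 0 ≤ t / φ := div_nonneg ht0 hφ.le
  have e1 : t / φ * Q ≤ ((1 + ζ / 100) * N) / φ * ((1 + ζ) * (1 / V) * GG) := by
    calc _ ≤ t / φ * ((1 + ζ) * (1 / V) * GG) := mul_le_mul_of_nonneg_left hQ e2
      _ ≤ _ := by gcongr
  refine e1.trans ?_
  have e3 : 0 < (1 - ζ / 50) * (φ / W * ((1 / 4 - 2 * ζ) * l)) := by positivity
  have e4 : 1 / V ≤ 1 / ((1 - ζ / 50) * (φ / W * ((1 / 4 - 2 * ζ) * l))) :=
    one_div_le_one_div_of_le e3 hVlow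
  have e5 : 1 - ζ / 50 ≠ 0 := hζ5.ne'
  have e6 : 1 / 4 - 2 * ζ ≠ 0 := hρ.ne'
  calc ((1 + ζ / 100) * N) / φ * ((1 + ζ) * (1 / V) * GG)
      ≤ ((1 + ζ / 100) * N) / φ *
        ((1 + ζ) * (1 / ((1 - ζ / 50) * (φ / W * ((1 / 4 - 2 * ζ) * l)))) * GG) := by gcongr
    _ = ((1 + ζ / 100) * (1 + ζ) / ((1 - ζ / 50) * (1 / 4 - 2 * ζ))) *
        (l * ((N * W / (φ * l) ^ 2) * GG)) := by
        generalize 1 - ζ / 50 = A at *
        generalize 1 / 4 - 2 * ζ = B at *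
        field_simp
    _ ≤ (4 + 90 * ζ) * (l * ((N * W / (φ * l) ^ 2) * GG)) := by
        apply mul_le_mul_of_nonneg_right (E1_num hζ hζ1) (by positivity)
    _ = l * ((4 + 90 * ζ) * ((N * W / (φ * l) ^ 2) * GG)) := by ring

theorem E1_err {ζ N W φ l GG : ℝ} (hζ : 0 < ζ) (hN : 0 < N)
    (hW : 0 < W) (hφ : 0 < φ) (hl : 1 ≤ l) (hGG : 1 ≤ GG) (hl2 : φ ^ 2 / (ζ * W) ≤ l) :
    N / l ^ 10 ≤ l * (ζ * ((N * W / (φ * l) ^ 2) * GG)) := by
  have hlpos : 0 < l := by linarith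
  have e1 : l * (ζ * ((N * W / (φ * l) ^ 2) * GG)) = (ζ * (N * W) * GG / φ ^ 2) / l := by
    field_simp
  rw [e1, div_le_div_iff₀ (by positivity) (by positivity)]
  have e2 : N * φ ^ 2 ≤ ζ * (N * W) * l := by
    rw [div_le_iff₀ (by positivity)] at hl2
    nlinarith
  have e3 : l * l ≤ l ^ 10 := by
    rw [← sq]
    exact pow_le_pow_right₀ hl (by norm_num)
  have e4 : N ≤ ζ * (N * W) * GG / φ ^ 2 * l := by
    rw [div_mul_eq_mul_div, le_div_iff₀ (by positivity)]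
    calc N * φ ^ 2 ≤ ζ * (N * W) * l := e2
      _ = ζ * (N * W) * 1 * l := by ring
      _ ≤ ζ * (N * W) * GG * l := by gcongr
  calc N * l ≤ (ζ * (N * W) * GG / φ ^ 2 * l) * l := by gcongr
    _ = (ζ * (N * W) * GG / φ ^ 2) * (l * l) := by ring
    _ ≤ (ζ * (N * W) * GG / φ ^ 2) * l ^ 10 := by gcongr

theorem pair_energy (ζ : ℝ) (hζ : 0 < ζ) (hζ1 : ζ ≤ 1 / 1000) (J k : ℕ)
    (hk : 10 * 2 ^ J ≤ ζ * k) : ∃ w₀ : ℕ, ∀ (h : Fin k → ℕ) (W ν : ℕ), Setup k w₀ h W ν →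
      ∀ᶠ N : ℕ in atTop, Good4 ζ k N → ∀ (M : ℕ) (P : Fin M → ℕ), Enum P W N →
        ∀ a b : Fin k, a ≠ b →
        ∑ n ∈ (win N W ν).filter (fun n => (n + h a).Prime), (Ph0 P h ζ J N a b n *
          Lam P h {b} (sel P {b} (al P) (f1 ((N : ℝ) ^ (1 / 4 - 2 * ζ)))) n) ^ 2 ≤
          (4 + 100 * ζ) * Yc P ζ J k W N := by
  obtain ⟨w1, hw1k, hnum⟩ := num4 ζ hζ hζ1 J k hk
  obtain ⟨w2, hsel⟩ := sel_upper ζ hζ hζ1 J k hk
  obtain ⟨w3, hVW⟩ := VW_asymp (ζ / 100) (by positivity)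
  refine ⟨max w1 (max w2 w3), fun h W ν hs => ?_⟩
  have hs1 : Setup k w1 h W ν := FL_setup hs (by simp)
  have hs2 : Setup k w2 h W ν := FL_setup hs (by simp)
  have hs3 : Setup k w3 h W ν := FL_setup hs (by simp)
  have hs4 : Setup k 2 h W ν := FL_setup hs1 (by omega)
  have hWpos : 0 < W := Nat.pos_of_ne_zero hs.2.1.ne_zero
  have hWr : (0:ℝ) < W := by exact_mod_cast hWpos
  have hφr : (0:ℝ) < W.totient := by exact_mod_cast Nat.totient_pos.2 hWpos
  obtain ⟨C, hC⟩ := hVW W hWpos hs3.2.2.1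
  set f : ℝ := (W.totient : ℝ) / W with hf
  have hfpos : 0 < f := by positivity
  have hρ : 0 < 1 / 4 - 2 * ζ := by linarith
  have hall : ∀ᶠ N : ℕ in atTop, ∀ m : Fin k,
      (0 ≤ th (2 * N + h m) - th (N + h m) ∧
      th (2 * N + h m) - th (N + h m) ≤ (1 + ζ / 100) * N) := by
    rw [Filter.eventually_all]
    intro m
    have h1 := th_window (h m)
    have h2 := h1.eventually (eventually_ge_nhds (show (0 : ℝ) < 1 by norm_num))
    have h3 := h1.eventually (eventually_le_nhds (show (1 : ℝ) < 1 + ζ / 100 by linarith))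
    filter_upwards [h2, h3, eventually_ge_atTop 1] with N h4 h5 hN
    have hNr : (0:ℝ) < N := by exact_mod_cast hN
    rw [le_div_iff₀ hNr] at h4
    rw [div_le_iff₀ hNr] at h5
    exact ⟨by linarith, h5⟩
  filter_upwards [hnum h W ν hs1, hsel h W ν hs2, prime_mod_total ζ hζ hζ1 k h W ν hs4, hall,
    FL_log_large 1, FL_log_large (W.totient ^ 2 / (ζ * W)),
    FL_log_large (C / (ζ / 100 * (f * (1 / 4 - 2 * ζ)))), FL_log_pow 0 W ζ hζ,
    eventually_ge_atTop 2] with N h1 h2 h3 h4 hℓ1 hℓ2 hℓ3 hWN hN hgood M P hE a b hab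
  obtain ⟨hP, hinj, hPW, hd, hPN, hPw⟩ := FL_enum hs1 hE
  obtain ⟨-, -, -, -, -, -, -, hgh, hG1, hG2, -, -⟩ := h1 M P hE
  obtain ⟨hth0, hth1⟩ := h4 a
  have hNr : (0:ℝ) < N := by exact_mod_cast (show 0 < N by omega)
  have hN1r : (1:ℝ) ≤ N := by exact_mod_cast (show 1 ≤ N by omega)
  set ℓ := Real.log N with hℓ
  have hℓpos : 0 < ℓ := by linarith
  set R : ℝ := (N : ℝ) ^ (1 / 4 - 2 * ζ) with hR
  have hR1 : 1 ≤ R := Real.one_le_rpow hN1r hρ.le
  have hRlog : Real.log R = (1 / 4 - 2 * ζ) * ℓ := Real.log_rpow hNr _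
  have hRN : R ≤ N := by
    calc R ≤ (N : ℝ) ^ (1 : ℝ) := Real.rpow_le_rpow_of_exponent_le hN1r (by linarith)
      _ = N := Real.rpow_one _
  set Z : ℝ := (N : ℝ) ^ ζ with hZ
  have hZ1 : 1 ≤ Z := Real.one_le_rpow hN1r hζ.le
  have hZlog : Real.log Z = ζ * ℓ := Real.log_rpow hNr _
  have hkα : ∀ j, (k : ℝ) * al P j ≤ 1 := by
    intro j
    have h6 : k + 1 < P j := by have := hPw j; omega
    have h7 : (k : ℝ) + 1 < P j := by exact_mod_cast h6
    unfold al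
    rw [mul_one_div, div_le_one (by linarith)]
    linarith
  have hα0 : ∀ j, 0 ≤ al P j := by
    intro j
    have h6 : (2:ℝ) ≤ P j := by exact_mod_cast (hP j).two_le
    unfold al
    apply div_nonneg (by norm_num) (by linarith)
  have hγα : ∀ j, 1 / (P j : ℝ) ≤ al P j := by
    intro j
    have h6 : (2:ℝ) ≤ P j := by exact_mod_cast (hP j).two_le
    unfold al
    exact one_div_le_one_div_of_le (by linarith) (by linarith)
  -- the total mass
  have hGSG : GS P ({b} : Finset (Fin k)) (al P) (f1 R) = Gsum P (f1 R) := GS_eq_Gsum P b (f1 R)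
  have hGV : Gsum P (f1 R) = VW W R := Gsum_eq_VW P W N hE R hRN
  set V := Gsum P (f1 R) with hV
  have hV1 : 1 ≤ V := E1_GS_ge P hα0 R hR1
  have hVlow : (1 - ζ / 50) * (f * ((1 / 4 - 2 * ζ) * ℓ)) ≤ V := by
    have e1 := (hC R hR1).1
    rw [← hGV, hRlog] at e1
    rw [div_le_iff₀ (by positivity)] at hℓ3
    refine le_trans ?_ e1
    have e2 : ℓ * (ζ / 100 * (f * (1 / 4 - 2 * ζ))) = ζ / 100 * (f * ((1 / 4 - 2 * ζ) * ℓ)) := by
      ring
    rw [e2] at hℓ3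
    have e3 : (1 - ζ / 100) * f * ((1 / 4 - 2 * ζ) * ℓ) =
        (1 - ζ / 100) * (f * ((1 / 4 - 2 * ζ) * ℓ)) := by ring
    rw [e3]
    linarith
  -- the coefficients
  obtain ⟨c0, hc0⟩ : ∃ c0 : Vec M k → ℝ, c0 = restr {a, b} (c4 P ζ J N) := ⟨_, rfl⟩
  obtain ⟨lm, hlm⟩ : ∃ lm : Vec M k → ℝ, lm = sel P {b} (al P) (f1 R) := ⟨_, rfl⟩
  obtain ⟨c, hc⟩ : ∃ c : Vec M k → ℝ, c = ext {b} ∅ c0 lm := ⟨_, rfl⟩
  have hphi : ∀ n, (Ph0 P h ζ J N a b n * Lam P h {b} lm n) ^ 2 = Wn P h c n := by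
    intro n
    have e1 := Phi_ext P hP h hd {b} c0 lm (by
      intro x hx
      have e2 : Avoid {a, b} x := by
        by_contra hcon
        apply hx
        rw [hc0]
        unfold restr
        rw [if_neg hcon]
      intro j i hi
      rw [Finset.mem_singleton] at hi
      exact e2 j i (by simp [hi])) n
    unfold Ph0
    rw [← hc0, ← e1, ← hc]
    rfl
  have hX : ℓ * ∑ n ∈ (win N W ν).filter (fun n => (n + h a).Prime), Wn P h c n ≤
      ∑ n ∈ win N W ν, lp (n + h a) * Wn P h c n := by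
    rw [Finset.mul_sum, Finset.sum_filter]
    refine Finset.sum_le_sum fun n hn => ?_
    by_cases hnp : (n + h a).Prime
    · rw [if_pos hnp]
      apply mul_le_mul_of_nonneg_right _ (FL_Wn_nonneg P h c n)
      unfold BG.lp
      rw [if_pos hnp]
      have hn2 : N < n := (Finset.mem_Ioc.1 (Finset.mem_filter.1 hn).1).1
      apply Real.log_le_log hNr
      exact_mod_cast (show N ≤ n + h a by omega)
    · rw [if_neg hnp]
      apply mul_nonneg _ (FL_Wn_nonneg P h c n)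
      unfold BG.lp
      rw [if_neg hnp]
  -- size of the coefficients
  have hsize := size_ext (k := k) P hP hinj (al P) hα0 (fun j => le_rfl) (gg4 ζ J k N) hgh.1
    hgh.2.1 Z R hZ1 hR1 a b {b} (by simp) ∅ (omf P {b} (fun d => f1 R d / V)) (by
      intro y
      unfold omf
      split_ifs
      · refine div_nonneg ?_ (by linarith)
        unfold f1
        split_ifs <;> norm_num
      · exact le_rfl) (by
      intro y
      unfold omf
      split_ifs
      · rw [div_le_one (by linarith)]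
        refine le_trans ?_ hV1
        unfold f1
        split_ifs <;> norm_num
      · norm_num) (by
      intro y hy
      unfold omf at hy
      by_cases hv : Vals ({b} : Finset (Fin k)) y
      · refine ⟨hv, ?_⟩
        rw [if_pos hv] at hy
        by_contra hcon
        apply hy
        unfold f1
        simp only
        rw [if_neg hcon, zero_div]
      · rw [if_neg hv] at hy
        exact absurd rfl hy)
  have hceq : ext {b} ∅ (restr {a, b} (cv P (gg4 ζ J k N) Z))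
      (lam (al P) (omf P {b} (fun d => f1 R d / V))) = c := by
    rw [hc, hc0, hlm]
    unfold sel c4
    rw [hGSG]
  rw [hceq] at hsize
  obtain ⟨hsz1, hsz2⟩ := hsize
  -- the prime sum
  have hcount := h3 hgood M P hE a b hab Unit univ (fun _ => 1) (by
      intro x _ y _ _
      rfl) 1 (Z * R) (fun _ => c) (by nlinarith) (by
      rw [mul_one]
      have e1 : (Z * R) ^ 2 = (N : ℝ) ^ (1 / 2 - 2 * ζ) := by
        rw [hZ, hR, ← Real.rpow_add hNr, ← Real.rpow_natCast, ← Real.rpow_mul hNr.le]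
        congr 1
        push_cast
        ring
      have e2 : (N : ℝ) ^ ζ * (N : ℝ) ^ (1 / 2 - 2 * ζ) = (N : ℝ) ^ (1 / 2 - ζ) := by
        rw [← Real.rpow_add hNr]
        congr 1
        ring
      rw [pow_zero, mul_one] at hWN
      rw [e1, ← e2]
      exact mul_le_mul_of_nonneg_right hWN (by positivity)) (by
      intro t _
      simp) (by
      intro t _ x
      refine (hsz1 x).trans ?_
      have e3 : 1 + Real.log Z ≤ 1 + ℓ := by
        rw [hZlog]
        nlinarith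
      have e4 : 1 + Real.log R ≤ 1 + ℓ := by
        rw [hRlog]
        nlinarith
      have e5 : 0 ≤ Real.log Z := Real.log_nonneg hZ1
      have e6 : 0 ≤ Real.log R := Real.log_nonneg hR1
      calc (1 + Real.log Z) ^ (2 * k) * (1 + Real.log R) ^ 4 * (2 : ℝ) ^ sc x
          ≤ (1 + ℓ) ^ (2 * k) * (1 + ℓ) ^ 4 * (2 : ℝ) ^ sc x := by gcongr
        _ = (1 + ℓ) ^ (2 * k + 4) * (2 : ℝ) ^ sc x := by rw [pow_add]
        _ ≤ (1 + ℓ) ^ (2 * k + 6) * (2 : ℝ) ^ sc x := by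
            gcongr
            · linarith
            · norm_num) (by
      intro t _ x hx
      obtain ⟨e1, e2, -⟩ := hsz2 x hx
      refine ⟨?_, e1, by simp⟩
      intro j i hi
      rw [Finset.mem_singleton] at hi
      subst hi
      exact e2 i (by simp) (by simp [hab]) j)
  simp only [Finset.univ_unique, Finset.sum_singleton, one_dvd, Finset.filter_true, mul_one]
    at hcount
  have hcount' := (abs_le.1 hcount).2
  set Q := ∑ x, ∑ y, c x * c y * ∏ j, Kl (al P j) (x j) (y j) with hQ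
  have hQle : Q ≤ (1 + ζ) * (1 / V) * GG4 P ζ J k N := by
    have e1 := tensor_upper (al P) hα0 hkα c
    have e2 := h2 M P hE a b hab {b} (by simp) (al P) hγα (fun j => le_rfl) R hR1
    rw [hGSG, ← hc0, ← hlm, ← hc] at e2
    exact e1.trans e2
  have hGG : 1 ≤ GG4 P ζ J k N := by
    unfold GG4 G14 G24
    exact one_le_mul_of_one_le_of_one_le (one_le_pow₀ hG1) (one_le_pow₀ hG2)
  set GG := GG4 P ζ J k N with hGGdef
  simp only [hphi, ← hlm]
  set X := ∑ n ∈ (win N W ν).filter (fun n => (n + h a).Prime), Wn P h c n with hXdef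
  have hYc : Yc P ζ J k W N = (N * W / (W.totient * ℓ) ^ 2) * GG := rfl
  set Y := Yc P ζ J k W N with hY
  have hYpos : 0 < Y := by rw [hYc]; positivity
  have hmain : (th (2 * N + h a) - th (N + h a)) / W.totient * Q ≤ ℓ * ((4 + 90 * ζ) * Y) := by
    rw [hYc]
    exact E1_main hζ hζ1 hNr hWr hφr hℓpos hV1 (by linarith) hth0 hth1 hQle hVlow
  have herr : N / ℓ ^ 10 ≤ ℓ * (ζ * Y) := by
    rw [hYc]
    exact E1_err hζ hNr hWr hφr hℓ1 hGG hℓ2
  have hfin : ℓ * X ≤ ℓ * ((4 + 100 * ζ) * Y) := by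
    have e1 : 0 ≤ ζ * Y := by positivity
    have e2 : ℓ * X ≤ ℓ * ((4 + 90 * ζ) * Y) + ℓ * (ζ * Y) := by linarith
    refine e2.trans ?_
    rw [← mul_add]
    apply mul_le_mul_of_nonneg_left _ hℓpos.le
    linarith
  exact le_of_mul_le_mul_left hfin hℓpos

end Pool.Agent.BG4
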