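import Pool.Agent.Lib_helper23.BG4.Defs
import Pool.Agent.Lib_helper23.BGF.SUML
/-! Block ELO: lower bound for the energy -/

set_option autoImplicit false

namespace Pool.Agent.BG4

open Finset Filter
open scoped Classical

theorem ELO_two {ι : Type*} (s : Finset ι) (p n : ι → ℝ) (hp : ∀ j, 0 ≤ p j) (hn : ∀ j, 0 ≤ n j) :
    2 * ∏ j ∈ s, p j ≤ ∏ j ∈ s, (p j - n j) + ∏ j ∈ s, (p j + n j) ∧
      |∏ j ∈ s, (p j - n j)| ≤ ∏ j ∈ s, (p j + n j) ∧ 0 ≤ ∏ j ∈ s, p j := by
  induction s using Finset.induction_on with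
  | empty => norm_num
  | insert a s ha ih =>
    obtain ⟨i1, i2, i3⟩ := ih
    rw [prod_insert ha, prod_insert ha, prod_insert ha]
    have h1 := hp a
    have h2 := hn a
    refine ⟨?_, ?_, mul_nonneg h1 i3⟩
    · have h3 := le_abs_self (∏ j ∈ s, (p j - n j))
      have h4 : 0 ≤ n a * (∏ j ∈ s, (p j + n j) - ∏ j ∈ s, (p j - n j)) :=
        mul_nonneg h2 (by linarith)
      have h5 : p a * (2 * ∏ j ∈ s, p j) ≤
          p a * (∏ j ∈ s, (p j - n j) + ∏ j ∈ s, (p j + n j)) := mul_le_mul_of_nonneg_left i1 h1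
      nlinarith
    · rw [abs_mul]
      refine mul_le_mul ?_ i2 (abs_nonneg _) (by linarith)
      rw [abs_le]; constructor <;> linarith

variable {M : ℕ}

/-- changing one coordinate -/
theorem ELO_split {T : Type*} [Fintype T] (j : Fin M) (F : (Fin M → T) → ℝ) :
    ∑ z, F z = ∑ y : {i : Fin M // i ≠ j} → T, ∑ t : T,
      F (fun i => if h : i = j then t else y ⟨i, h⟩) := by
  rw [← (Equiv.funSplitAt j T).symm.sum_comp, Fintype.sum_prod_type, sum_comm]
  refine sum_congr rfl fun y _ => sum_congr rfl fun t _ => ?_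
  congr 1
  funext i
  by_cases h : i = j
  · subst h; simp [Equiv.funSplitAt, Equiv.piSplitAt]
  · simp [Equiv.funSplitAt, Equiv.piSplitAt, h]

theorem ELO_step {T : Type*} [Fintype T] (Φ : (Fin M → T) → ℝ) (hΦ0 : ∀ z, 0 ≤ Φ z)
    (q : Fin M → T → ℝ) (hq : ∀ j t, 0 ≤ q j t) (j : Fin M) (n : T → ℝ) (hn : ∀ t, 0 ≤ n t)
    (t0 : T) (hp0 : (∃ t, n t ≠ 0) → 1 ≤ q j t0)
    (hΦ : ∀ z, n (z j) ≠ 0 → Φ z ≤ Φ (Function.update z j t0)) (ν : ℝ) (hν : ∑ t, n t ≤ ν) :
    ∑ z, Φ z * (n (z j) * ∏ i ∈ univ.erase j, q i (z i)) ≤ ν * ∑ z, Φ z * ∏ i, q i (z i) := by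
  rw [ELO_split j, ELO_split j (fun z => Φ z * ∏ i, q i (z i)), mul_sum]
  refine sum_le_sum fun y _ => ?_
  set w : T → (Fin M → T) := fun t i => if h : i = j then t else y ⟨i, h⟩ with hw
  have hwj : ∀ t, w t j = t := fun t => by simp [hw]
  have hupd : ∀ t, Function.update (w t) j t0 = w t0 := by
    intro t
    funext i
    by_cases h : i = j
    · subst h; simp [hw]
    · simp [hw, h]
  set R := ∏ i ∈ univ.erase j, q i (w t0 i) with hR
  have hRt : ∀ t, ∏ i ∈ univ.erase j, q i (w t i) = R := by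
    intro t
    refine prod_congr rfl fun i hi => ?_
    have h : i ≠ j := (mem_erase.1 hi).1
    simp [hw, h]
  have hR0 : 0 ≤ R := prod_nonneg fun i _ => hq _ _
  change ∑ t, Φ (w t) * (n (w t j) * ∏ i ∈ univ.erase j, q i (w t i)) ≤
    ν * ∑ t, Φ (w t) * ∏ i, q i (w t i)
  by_cases hz : ∃ t, n t ≠ 0
  · have h1 := hp0 hz
    calc ∑ t, Φ (w t) * (n (w t j) * ∏ i ∈ univ.erase j, q i (w t i))
        ≤ ∑ t, n t * (Φ (w t0) * R) := by
          refine sum_le_sum fun t _ => ?_
          rw [hwj, hRt]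
          by_cases hnt : n t = 0
          · rw [hnt]; simp
          · have h2 := hΦ (w t) (by rw [hwj]; exact hnt)
            rw [hupd] at h2
            have h3 := mul_le_mul_of_nonneg_right h2 (mul_nonneg (hn t) hR0)
            linarith
      _ = (∑ t, n t) * (Φ (w t0) * R) := by rw [sum_mul]
      _ ≤ ν * (Φ (w t0) * R) := mul_le_mul_of_nonneg_right hν (mul_nonneg (hΦ0 _) hR0)
      _ ≤ ν * ∑ t, Φ (w t) * ∏ i, q i (w t i) := by
          have hν0 : 0 ≤ ν := le_trans (sum_nonneg fun t _ => hn t) hν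
          refine mul_le_mul_of_nonneg_left ?_ hν0
          calc Φ (w t0) * R ≤ Φ (w t0) * (q j (w t0 j) * R) := by
                refine mul_le_mul_of_nonneg_left ?_ (hΦ0 _)
                rw [hwj]
                nlinarith
            _ = Φ (w t0) * ∏ i, q i (w t0 i) := by
                rw [hR, mul_prod_erase univ (fun i => q i (w t0 i)) (mem_univ j)]
            _ ≤ ∑ t, Φ (w t) * ∏ i, q i (w t i) :=
                single_le_sum (f := fun t => Φ (w t) * ∏ i, q i (w t i))
                  (fun t _ => mul_nonneg (hΦ0 _) (prod_nonneg fun i _ => hq _ _)) (mem_univ t0)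
  · push Not at hz
    simp only [hz, zero_mul, mul_zero, sum_const_zero]
    have hν0 : 0 ≤ ν := le_trans (sum_nonneg fun t _ => hn t) hν
    exact mul_nonneg hν0 (sum_nonneg fun t _ => mul_nonneg (hΦ0 _) (prod_nonneg fun i _ => hq _ _))

theorem ELO_pert {T : Type*} [Fintype T] (Φ : (Fin M → T) → ℝ) (hΦ0 : ∀ z, 0 ≤ Φ z)
    (p n : Fin M → T → ℝ) (hp : ∀ j t, 0 ≤ p j t) (hn : ∀ j t, 0 ≤ n j t) (t0 : Fin M → T)
    (hp0 : ∀ j, (∃ t, n j t ≠ 0) → 1 ≤ p j (t0 j))
    (hΦ : ∀ z j, n j (z j) ≠ 0 → Φ z ≤ Φ (Function.update z j (t0 j)))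
    (ν : Fin M → ℝ) (hν : ∀ j, ∑ t, n j t ≤ ν j) :
    ∑ z, Φ z * ∏ j, (p j (z j) + n j (z j)) ≤ (∏ j, (1 + ν j)) * ∑ z, Φ z * ∏ j, p j (z j) := by
  have hν0 : ∀ j, 0 ≤ ν j := fun j => le_trans (sum_nonneg fun t _ => hn j t) (hν j)
  have key : ∀ S : Finset (Fin M),
      ∑ z, Φ z * ∏ j, (if j ∈ S then p j (z j) + n j (z j) else p j (z j)) ≤
        (∏ j ∈ S, (1 + ν j)) * ∑ z, Φ z * ∏ j, p j (z j) := by
    intro S
    induction S using Finset.induction_on with
    | empty => simp
    | insert a S ha ih =>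
      rw [prod_insert ha]
      set q : Fin M → T → ℝ := fun j t => if j ∈ S then p j t + n j t else p j t with hq
      have hq0 : ∀ j t, 0 ≤ q j t := fun j t => by
        simp only [hq]; split_ifs
        · exact add_nonneg (hp _ _) (hn _ _)
        · exact hp _ _
      have hqa : ∀ t, q a t = p a t := fun t => by simp [hq, ha]
      have h1 : ∀ z : Fin M → T, ∏ j, (if j ∈ insert a S then p j (z j) + n j (z j) else p j (z j)) =
          ∏ j, q j (z j) + n a (z a) * ∏ j ∈ univ.erase a, q j (z j) := by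
        intro z
        rw [← mul_prod_erase univ (fun j => if j ∈ insert a S then p j (z j) + n j (z j)
          else p j (z j)) (mem_univ a), ← mul_prod_erase univ (fun j => q j (z j)) (mem_univ a)]
        have h2 : ∏ j ∈ univ.erase a, (if j ∈ insert a S then p j (z j) + n j (z j)
            else p j (z j)) = ∏ j ∈ univ.erase a, q j (z j) := by
          refine prod_congr rfl fun j hj => ?_
          have h3 : j ≠ a := (mem_erase.1 hj).1
          simp only [hq, mem_insert, h3, false_or]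
        simp only [h2, mem_insert_self, if_true, hqa]
        ring
      have h4 : ∑ z, Φ z * ∏ j, (if j ∈ insert a S then p j (z j) + n j (z j) else p j (z j)) =
          ∑ z, Φ z * ∏ j, q j (z j) +
            ∑ z, Φ z * (n a (z a) * ∏ j ∈ univ.erase a, q j (z j)) := by
        rw [← sum_add_distrib]
        refine sum_congr rfl fun z _ => ?_
        rw [h1]; ring
      have h5 := ELO_step Φ hΦ0 q hq0 a (n a) (hn a) (t0 a)
        (by rw [hqa]; exact hp0 a) (fun z => hΦ z a) (ν a) (hν a)
      rw [h4]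
      have h6 := hν0 a
      have h7 : (1 + ν a) * ∑ z, Φ z * ∏ j, q j (z j) ≤
          (1 + ν a) * ((∏ j ∈ S, (1 + ν j)) * ∑ z, Φ z * ∏ j, p j (z j)) :=
        mul_le_mul_of_nonneg_left ih (by linarith)
      calc _ ≤ (1 + ν a) * ∑ z, Φ z * ∏ j, q j (z j) := by linarith
        _ ≤ _ := h7
        _ = _ := by ring
  have := key univ
  simpa using this

/-- weights that decrease by the factor `α_j` when `j` is added -/
def EDec (α : Fin M → ℝ) (w : Finset (Fin M) → ℝ) : Prop :=
  (∀ U, 0 ≤ w U) ∧ ∀ U j, j ∉ U → w (insert j U) ≤ α j * w U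

theorem ELO_erase (α : Fin M → ℝ) (hα : ∀ j, 0 ≤ α j) (w : Finset (Fin M) → ℝ) (hw : EDec α w)
    (j : Fin M) :
    ∑ U ∈ (univ : Finset (Finset (Fin M))).filter (fun U => j ∈ U), w U ≤ α j * ∑ U, w U := by
  have hinj : Set.InjOn (fun U : Finset (Fin M) => U.erase j)
      (((univ : Finset (Finset (Fin M))).filter (fun U => j ∈ U) : Finset (Finset (Fin M))) :
        Set (Finset (Fin M))) := by
    intro U hU V hV e
    have hU' : j ∈ U := (mem_filter.1 hU).2
    have hV' : j ∈ V := (mem_filter.1 hV).2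
    have := congrArg (insert j) e
    simpa [insert_erase hU', insert_erase hV'] using this
  calc ∑ U ∈ (univ : Finset (Finset (Fin M))).filter (fun U => j ∈ U), w U
      ≤ ∑ U ∈ (univ : Finset (Finset (Fin M))).filter (fun U => j ∈ U),
        α j * w (U.erase j) := by
        refine sum_le_sum fun U hU => ?_
        have hj : j ∈ U := (mem_filter.1 hU).2
        have := hw.2 (U.erase j) j (notMem_erase j U)
        rwa [insert_erase hj] at this
    _ = α j * ∑ U ∈ (univ : Finset (Finset (Fin M))).filter (fun U => j ∈ U),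
        w (U.erase j) := by rw [mul_sum]
    _ = α j * ∑ V ∈ ((univ : Finset (Finset (Fin M))).filter (fun U => j ∈ U)).image
          (fun U => U.erase j), w V := by
        rw [sum_image hinj]
    _ ≤ α j * ∑ U, w U := by
        refine mul_le_mul_of_nonneg_left ?_ (hα j)
        exact sum_le_sum_of_subset_of_nonneg (subset_univ _) fun U _ _ => hw.1 U

variable {κ : Type} [Fintype κ] [DecidableEq κ]

theorem ELO_mem (α : Fin M → ℝ) (hα : ∀ j, 0 ≤ α j) (w : κ → Finset (Fin M) → ℝ)
    (hw : ∀ i, EDec α (w i)) (j : Fin M) (I : Finset κ) :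
    ∑ U ∈ (univ : Finset (κ → Finset (Fin M))).filter (fun U => ∀ i ∈ I, j ∈ U i),
      ∏ i, w i (U i) ≤ α j ^ I.card * ∏ i, ∑ U, w i U := by
  have e : (univ : Finset (κ → Finset (Fin M))).filter (fun U => ∀ i ∈ I, j ∈ U i) =
      Fintype.piFinset (fun i : κ =>
        if i ∈ I then (univ : Finset (Finset (Fin M))).filter (fun U => j ∈ U) else univ) := by
    ext U
    simp only [mem_filter, mem_univ, true_and, Fintype.mem_piFinset]
    refine forall_congr' fun i => ?_
    by_cases hi : i ∈ I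
    · simp [hi]
    · simp [hi]
  rw [e, ← Finset.prod_univ_sum]
  have hb : (∏ i : κ, ((if i ∈ I then α j else 1) * ∑ U, w i U)) =
      α j ^ I.card * ∏ i, ∑ U, w i U := by
    rw [prod_mul_distrib]
    congr 1
    rw [prod_ite_mem, univ_inter, prod_const]
  rw [← hb]
  refine prod_le_prod (fun i _ => sum_nonneg fun U _ => (hw i).1 U) fun i _ => ?_
  by_cases hi : i ∈ I
  · simp only [hi, if_true]
    exact ELO_erase α hα (w i) (hw i) j
  · simp only [hi, if_false, one_mul]
    exact le_of_eq rfl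

theorem ELO_total (w : κ → Finset (Fin M) → ℝ) :
    ∑ U : κ → Finset (Fin M), ∏ i, w i (U i) = ∏ i, ∑ U, w i U := by
  have h := Finset.prod_univ_sum (fun _ : κ => (univ : Finset (Finset (Fin M))))
    (fun i U => w i U)
  rw [Fintype.piFinset_univ] at h
  rw [← h]

/-- the sum with the `α`-terms -/
theorem ELO_alpha (α : Fin M → ℝ) (hα : ∀ j, 0 ≤ α j) (w : κ → Finset (Fin M) → ℝ)
    (hw : ∀ i, EDec α (w i)) :
    ∑ U : κ → Finset (Fin M), (∏ i, w i (U i)) * ∑ i, ∑ j ∈ U i, α j ≤
      Fintype.card κ * (∑ j, α j ^ 2) * ∏ i, ∑ U, w i U := by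
  have e : ∑ U : κ → Finset (Fin M), (∏ i, w i (U i)) * ∑ i, ∑ j ∈ U i, α j =
      ∑ i : κ, ∑ j, α j * ∑ U ∈ (univ : Finset (κ → Finset (Fin M))).filter
        (fun U => ∀ l ∈ ({i} : Finset κ), j ∈ U l), ∏ i, w i (U i) := by
    have e1 : ∀ U : κ → Finset (Fin M),
        (∏ i, w i (U i)) * ∑ i, ∑ j ∈ U i, α j =
        ∑ i, ∑ j, α j * (if j ∈ U i then ∏ i, w i (U i) else 0) := by
      intro U
      rw [mul_sum]
      refine sum_congr rfl fun i _ => ?_
      rw [mul_sum]
      simp only [mul_ite, mul_zero]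
      rw [← sum_filter]
      have : (univ : Finset (Fin M)).filter (fun j => j ∈ U i) = U i := by
        ext j
        simp
      rw [this]
      exact sum_congr rfl fun j _ => mul_comm _ _
    simp only [e1]
    rw [sum_comm]
    refine sum_congr rfl fun i _ => ?_
    rw [sum_comm]
    refine sum_congr rfl fun j _ => ?_
    rw [← mul_sum, sum_filter]
    simp
  rw [e]
  calc ∑ i : κ, ∑ j, α j * ∑ U ∈ (univ : Finset (κ → Finset (Fin M))).filter
        (fun U => ∀ l ∈ ({i} : Finset κ), j ∈ U l), ∏ i, w i (U i)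
      ≤ ∑ i : κ, ∑ j, α j * (α j * ∏ i, ∑ U, w i U) := by
        refine sum_le_sum fun i _ => sum_le_sum fun j _ => ?_
        refine mul_le_mul_of_nonneg_left ?_ (hα j)
        have := ELO_mem α hα w hw j ({i} : Finset κ)
        simpa using this
    _ = Fintype.card κ * (∑ j, α j ^ 2) * ∏ i, ∑ U, w i U := by
        rw [sum_const, card_univ, nsmul_eq_mul, mul_assoc, sum_mul]
        congr 1
        exact sum_congr rfl fun j _ => by ring

/-- the tuples that are not pairwise disjoint -/
theorem ELO_nondisj (α : Fin M → ℝ) (hα : ∀ j, 0 ≤ α j) (w : κ → Finset (Fin M) → ℝ)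
    (hw : ∀ i, EDec α (w i)) :
    ∑ U ∈ (univ : Finset (κ → Finset (Fin M))).filter
      (fun U => ∃ i l, i ≠ l ∧ ∃ j, j ∈ U i ∧ j ∈ U l), ∏ i, w i (U i) ≤
      (Fintype.card κ : ℝ) ^ 2 * (∑ j, α j ^ 2) * ∏ i, ∑ U, w i U := by
  have hn : ∀ U : κ → Finset (Fin M), 0 ≤ ∏ i, w i (U i) := fun U =>
    prod_nonneg fun i _ => (hw i).1 _
  set Φ : κ → κ → Fin M → (κ → Finset (Fin M)) → ℝ := fun i l j U =>
    if (i ≠ l ∧ j ∈ U i ∧ j ∈ U l) then (∏ i, w i (U i)) else 0 with hΦ
  have hΦ0 : ∀ i l j U, 0 ≤ Φ i l j U := by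
    intro i l j U
    simp only [hΦ]
    split_ifs
    · exact hn U
    · exact le_rfl
  calc ∑ U ∈ (univ : Finset (κ → Finset (Fin M))).filter
          (fun U => ∃ i l, i ≠ l ∧ ∃ j, j ∈ U i ∧ j ∈ U l), ∏ i, w i (U i)
      ≤ ∑ U : κ → Finset (Fin M), ∑ i, ∑ l, ∑ j, Φ i l j U := by
        rw [sum_filter]
        refine sum_le_sum fun U _ => ?_
        split_ifs with h
        · obtain ⟨i, l, hil, j, hj1, hj2⟩ := h
          calc ∏ i, w i (U i) = Φ i l j U := by simp [hΦ, hil, hj1, hj2]
            _ ≤ ∑ j, Φ i l j U :=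
              single_le_sum (f := fun j => Φ i l j U) (fun j _ => hΦ0 i l j U) (mem_univ j)
            _ ≤ ∑ l, ∑ j, Φ i l j U :=
              single_le_sum (f := fun l => ∑ j, Φ i l j U)
                (fun l _ => sum_nonneg fun j _ => hΦ0 i l j U) (mem_univ l)
            _ ≤ ∑ i, ∑ l, ∑ j, Φ i l j U :=
              single_le_sum (f := fun i => ∑ l, ∑ j, Φ i l j U)
                (fun i _ => sum_nonneg fun l _ => sum_nonneg fun j _ => hΦ0 i l j U) (mem_univ i)
        · exact sum_nonneg fun i _ => sum_nonneg fun l _ => sum_nonneg fun j _ => hΦ0 i l j U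
    _ = ∑ i, ∑ l, ∑ j, ∑ U : κ → Finset (Fin M), Φ i l j U := by
        rw [sum_comm]
        refine sum_congr rfl fun i _ => ?_
        rw [sum_comm]
        refine sum_congr rfl fun l _ => ?_
        rw [sum_comm]
    _ ≤ ∑ i : κ, ∑ l : κ, ∑ j, α j ^ 2 * ∏ i, ∑ U, w i U := by
        refine sum_le_sum fun i _ => sum_le_sum fun l _ => sum_le_sum fun j _ => ?_
        have hG : 0 ≤ ∏ i, ∑ U, w i U := prod_nonneg fun i _ => sum_nonneg fun U _ => (hw i).1 U
        by_cases hil : i = l
        · simp only [hΦ, hil, ne_eq, not_true_eq_false, false_and, if_false, sum_const_zero]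
          positivity
        · have := ELO_mem α hα w hw j ({i, l} : Finset κ)
          rw [card_pair hil, sum_filter] at this
          simpa [hΦ, hil] using this
    _ = (Fintype.card κ : ℝ) ^ 2 * (∑ j, α j ^ 2) * ∏ i, ∑ U, w i U := by
        simp only [sum_const, card_univ, nsmul_eq_mul, ← sum_mul]
        ring

end Pool.Agent.BG4

namespace Pool.Agent.BG4

open Finset Filter Pool.Agent.BG
open scoped Classical

variable {M k : ℕ}

noncomputable def ELO_e (b : Fin k) (t : Option (Fin k)) : Option (Fin k) :=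
  if ∃ i ∈ ({b} : Finset (Fin k)), t = some i then none else t

noncomputable def ELO_o (b : Fin k) (t : Option (Fin k)) : Option (Fin k) :=
  if ∃ i ∈ ({b} : Finset (Fin k)), t = some i then t else none

theorem ELO_e_none (b : Fin k) : ELO_e b none = none := by simp [ELO_e]
theorem ELO_o_none (b : Fin k) : ELO_o b none = none := by simp [ELO_o]
theorem ELO_e_self (b : Fin k) : ELO_e b (some b) = none := by simp [ELO_e]
theorem ELO_o_self (b : Fin k) : ELO_o b (some b) = some b := by simp [ELO_o]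
theorem ELO_e_ne {b i : Fin k} (h : i ≠ b) : ELO_e b (some i) = some i := by simp [ELO_e, h]
theorem ELO_o_ne {b i : Fin k} (h : i ≠ b) : ELO_o b (some i) = none := by simp [ELO_o, h]

/-- the local summand -/
noncomputable def ELO_t (a b : Fin k) (α β : ℝ) (r s y t : Option (Fin k)) : ℝ :=
  (if ∀ i ∈ ({a, b} : Finset (Fin k)), ELO_e b t ≠ some i then 1 else 0) *
  ((if s = none then 1 else -(1 + α)) * Al (-β) (ELO_e b t) s) *
  ((if ELO_o b t = none then 1 else -1) * Al α (ELO_o b t) y) * Al α r t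

theorem ELO_t_none (a b : Fin k) (α β : ℝ) (r s y : Option (Fin k)) :
    ELO_t a b α β r s y none =
      ((if s = none then 1 else -(1 + α)) * Al (-β) none s) * Al α none y * Al α r none := by
  simp [ELO_t, ELO_e_none, ELO_o_none]

theorem ELO_t_b (a b : Fin k) (α β : ℝ) (r s y : Option (Fin k)) :
    ELO_t a b α β r s y (some b) =
      -(((if s = none then 1 else -(1 + α)) * Al (-β) none s) * Al α (some b) y *
        Al α r (some b)) := by
  simp [ELO_t, ELO_e_self, ELO_o_self]

theorem ELO_t_a (a b : Fin k) (hab : a ≠ b) (α β : ℝ) (r s y : Option (Fin k)) :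
    ELO_t a b α β r s y (some a) = 0 := by
  simp [ELO_t, ELO_e_ne hab]

theorem ELO_t_i (a b i : Fin k) (hia : i ≠ a) (hib : i ≠ b) (α β : ℝ) (r s y : Option (Fin k)) :
    ELO_t a b α β r s y (some i) =
      ((if s = none then 1 else -(1 + α)) * Al (-β) (some i) s) * Al α none y *
        Al α r (some i) := by
  simp [ELO_t, ELO_e_ne hib, ELO_o_ne hib, hia, hib]

theorem ELO_sum_none (a b : Fin k) (hab : a ≠ b) (α β : ℝ) (r y : Option (Fin k)) :
    ∑ t, ELO_t a b α β r none y t =
      ELO_t a b α β r none y none + ELO_t a b α β r none y (some b) := by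
  rw [Fintype.sum_option]
  congr 1
  refine sum_eq_single b (fun i _ hib => ?_) (by simp)
  by_cases hia : i = a
  · subst hia; exact ELO_t_a i b hab _ _ _ _ _
  · rw [ELO_t_i a b i hia hib]; simp [Al]

theorem ELO_sum_some (a b : Fin k) (hab : a ≠ b) (α β : ℝ) (r y : Option (Fin k)) (l : Fin k) :
    ∑ t, ELO_t a b α β r (some l) y t =
      ELO_t a b α β r (some l) y none + ELO_t a b α β r (some l) y (some b) +
        (if l = a ∨ l = b then 0 else ELO_t a b α β r (some l) y (some l)) := by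
  rw [Fintype.sum_option, add_assoc]
  congr 1
  have h : ∀ i : Fin k, ELO_t a b α β r (some l) y (some i) =
      (if i = b then ELO_t a b α β r (some l) y (some b) else 0) +
        (if i = l then (if l = a ∨ l = b then 0 else ELO_t a b α β r (some l) y (some l))
          else 0) := by
    intro i
    by_cases hib : i = b
    · subst hib
      by_cases hil : i = l
      · subst hil; simp
      · simp [hil]
    · by_cases hia : i = a
      · subst hia
        rw [ELO_t_a i b hab]
        by_cases hil : i = l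
        · subst hil; simp [hib]
        · simp [hil, hib]
      · rw [if_neg hib, zero_add]
        by_cases hil : i = l
        · subst hil; simp [hia, hib]
        · rw [if_neg hil, ELO_t_i a b i hia hib]
          simp [Al, hil]
  rw [sum_congr rfl fun i _ => h i, sum_add_distrib, sum_ite_eq' univ b, sum_ite_eq' univ l]
  simp

/-- positive local weights -/
noncomputable def ELO_p (a b : Fin k) (α : ℝ) (r : Option (Fin k))
    (z : Option (Fin k) × Option (Fin k)) : ℝ :=
  if r = none then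
    (if z.2 = none then (if z.1 = none then 1 else if z.1 = some a ∨ z.1 = some b then α else 0)
      else 0)
  else if r = some b then
    (if z.2 = some b then (if z.1 = none then 1 else α) else 0)
  else if r = some a then 0
  else if z.1 = r then (if z.2 = none then 1 + α else if z.2 = some b then (1 + α) * α else 0)
  else 0

/-- negative local weights -/
noncomputable def ELO_n (a b : Fin k) (α : ℝ) (r : Option (Fin k))
    (z : Option (Fin k) × Option (Fin k)) : ℝ :=
  if r = none then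
    (if z.1 = none ∨ z.1 = some a ∨ z.1 = some b then 0
      else if z.2 = none then α ^ 2 else if z.2 = some b then α ^ 2 * (1 + α) else 0)
  else 0

theorem ELO_local (a b : Fin k) (hab : a ≠ b) (α β : ℝ) (hαβ : (1 + α) * β = α)
    (r s y : Option (Fin k)) (hy : y = none ∨ y = some b) :
    (if r = none then 1 else -1) * ∑ t, ELO_t a b α β r s y t =
      ELO_p a b α r (s, y) - ELO_n a b α r (s, y) := by
  have hba : b ≠ a := hab.symm
  rcases s with _ | l
  · rw [ELO_sum_none a b hab, ELO_t_none, ELO_t_b]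
    rcases hy with rfl | rfl
    · rcases r with _ | i
      · simp [Al, ELO_p, ELO_n]
      · by_cases hib : i = b
        · subst hib; simp [Al, ELO_p, ELO_n]
        · by_cases hia : i = a
          · subst hia; simp [Al, ELO_p, ELO_n, hib]
          · simp [Al, ELO_p, ELO_n, hib, hia]
    · rcases r with _ | i
      · simp [Al, ELO_p, ELO_n]
      · by_cases hib : i = b
        · subst hib; simp [Al, ELO_p, ELO_n]
        · by_cases hia : i = a
          · subst hia; simp [Al, ELO_p, ELO_n, hib]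
          · simp [Al, ELO_p, ELO_n, hib, hia]
  · rw [ELO_sum_some a b hab, ELO_t_none, ELO_t_b]
    by_cases hl : l = a ∨ l = b
    · rw [if_pos hl]
      rcases hy with rfl | rfl
      · rcases r with _ | i
        · rcases hl with rfl | rfl
          · simp [Al, ELO_p, ELO_n]; linarith
          · simp [Al, ELO_p, ELO_n]; linarith
        · by_cases hib : i = b
          · subst hib; simp [Al, ELO_p, ELO_n]
          · by_cases hia : i = a
            · subst hia; simp [Al, ELO_p, ELO_n, hib]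
            · rcases hl with rfl | rfl
              · simp [Al, ELO_p, ELO_n, hib, hia, Ne.symm hia]
              · simp [Al, ELO_p, ELO_n, hib, hia, Ne.symm hib]
      · rcases r with _ | i
        · rcases hl with rfl | rfl
          · simp [Al, ELO_p, ELO_n]
          · simp [Al, ELO_p, ELO_n]
        · by_cases hib : i = b
          · subst hib
            rcases hl with rfl | rfl
            · simp [Al, ELO_p, ELO_n]; linarith
            · simp [Al, ELO_p, ELO_n]; linarith
          · by_cases hia : i = a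
            · subst hia; simp [Al, ELO_p, ELO_n, hib]
            · rcases hl with rfl | rfl
              · simp [Al, ELO_p, ELO_n, hib, hia, Ne.symm hia]
              · simp [Al, ELO_p, ELO_n, hib, hia, Ne.symm hib]
    · rw [if_neg hl]
      push Not at hl
      obtain ⟨hla, hlb⟩ := hl
      rw [ELO_t_i a b l hla hlb]
      rcases hy with rfl | rfl
      · rcases r with _ | i
        · simp [Al, ELO_p, ELO_n, hla, hlb]
          linear_combination hαβ
        · by_cases hib : i = b
          · subst hib; simp [Al, ELO_p, ELO_n, Ne.symm hlb]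
          · by_cases hia : i = a
            · subst hia; simp [Al, ELO_p, ELO_n, hib, Ne.symm hla]
            · by_cases hil : i = l
              · subst hil; simp [Al, ELO_p, ELO_n, hib, hia]
              · simp [Al, ELO_p, ELO_n, hib, hia, hil, Ne.symm hil]
      · rcases r with _ | i
        · simp [Al, ELO_p, ELO_n, hla, hlb]
          ring
        · by_cases hib : i = b
          · subst hib; simp [Al, ELO_p, ELO_n, Ne.symm hlb]; linarith
          · by_cases hia : i = a
            · subst hia; simp [Al, ELO_p, ELO_n, hib, Ne.symm hla]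
            · by_cases hil : i = l
              · subst hil; simp [Al, ELO_p, ELO_n, hib, hia]; ring
              · simp [Al, ELO_p, ELO_n, hib, hia, hil, Ne.symm hil]

theorem ELO_sign (x : Vec M k) :
    (-1 : ℝ) ^ sc x = ∏ j, (if x j = none then (1 : ℝ) else -1) := by
  unfold sc
  rw [← prod_const, prod_filter]
  refine prod_congr rfl fun j _ => ?_
  by_cases h : x j = none <;> simp [h]

/-- the transform as a sum of products -/
theorem ELO_tr (P : Fin M → ℕ) (g : ℕ → ℝ) (Z : ℝ) (a b : Fin k) (ω : Vec M k → ℝ)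
    (r : Vec M k) :
    tr (al P) (ext {b} ∅ (restr {a, b} (cv P g Z)) (lam (al P) ω)) r =
      ∑ s, ∑ y, Yv P g Z s * ω y *
        ∏ j, ∑ t, ELO_t a b (al P j) (1 / (P j : ℝ)) (r j) (s j) (y j) t := by
  have h1 : ∀ s y : Vec M k, Yv P g Z s * ω y *
        ∏ j, ∑ t, ELO_t a b (al P j) (1 / (P j : ℝ)) (r j) (s j) (y j) t =
      ∑ x : Vec M k, Yv P g Z s * ω y *
        ∏ j, ELO_t a b (al P j) (1 / (P j : ℝ)) (r j) (s j) (y j) (x j) := by
    intro s y
    rw [← mul_sum, ← INV_sum_prod (fun j t =>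
      ELO_t a b (al P j) (1 / (P j : ℝ)) (r j) (s j) (y j) t)]
  simp_rw [h1]
  have h2 : ∀ s : Vec M k, ∑ y : Vec M k, ∑ x : Vec M k, Yv P g Z s * ω y *
        ∏ j, ELO_t a b (al P j) (1 / (P j : ℝ)) (r j) (s j) (y j) (x j) =
      ∑ x : Vec M k, ∑ y : Vec M k, Yv P g Z s * ω y *
        ∏ j, ELO_t a b (al P j) (1 / (P j : ℝ)) (r j) (s j) (y j) (x j) := fun s => sum_comm
  simp_rw [h2]
  rw [sum_comm]
  unfold tr
  refine sum_congr rfl fun x _ => ?_
  have h3 : ∀ s y : Vec M k, Yv P g Z s * ω y *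
        ∏ j, ELO_t a b (al P j) (1 / (P j : ℝ)) (r j) (s j) (y j) (x j) =
      (if Avoid {a, b} (er {b} x) then 1 else 0) *
        (yv P g Z s * ∏ j, Al (-(1 / (P j : ℝ))) (er {b} x j) (s j)) *
        ((-1) ^ sc (onn {b} x) * (ω y * ∏ j, Al (al P j) (onn {b} x j) (y j))) *
        ∏ j, Al (al P j) (r j) (x j) := by
    intro s y
    rw [← INV_avoid, ELO_sign]
    unfold yv
    simp only [ELO_t]
    simp only [prod_mul_distrib]
    have e1 : ∀ j, er {b} x j = ELO_e b (x j) := fun j => rfl
    have e2 : ∀ j, onn {b} x j = ELO_o b (x j) := fun j => rfl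
    simp only [e1, e2]
    ring
  simp_rw [h3]
  unfold ext restr
  have h4 : cv P g Z (er {b} x) =
      ∑ s, yv P g Z s * ∏ j, Al (-(1 / (P j : ℝ))) (er {b} x j) (s j) := rfl
  have h5 : lam (al P) ω (onn {b} x) =
      (-1) ^ sc (onn {b} x) * ∑ y, ω y * ∏ j, Al (al P j) (onn {b} x j) (y j) := rfl
  rw [if_pos (by simp), h4, h5]
  by_cases hA : Avoid {a, b} (er {b} x)
  · simp only [hA, if_true, one_mul]
    rw [sum_mul, sum_mul]
    refine sum_congr rfl fun s _ => ?_
    rw [mul_sum, mul_sum, sum_mul]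
  · simp [hA]

/-- the function of the pair of dual variables -/
noncomputable def ELO_Phi (P : Fin M → ℕ) (g : ℕ → ℝ) (Z : ℝ) (ω : Vec M k → ℝ)
    (z : Fin M → Option (Fin k) × Option (Fin k)) : ℝ :=
  Yv P g Z (fun j => (z j).1) * ω (fun j => (z j).2)

theorem ELO_pairs (F : Vec M k → Vec M k → ℝ) :
    ∑ s, ∑ y, F s y = ∑ z : Fin M → Option (Fin k) × Option (Fin k),
      F (fun j => (z j).1) (fun j => (z j).2) := by
  rw [← (Equiv.arrowProdEquivProdArrow (Fin M) (fun _ => Option (Fin k))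
    (fun _ => Option (Fin k))).symm.sum_comp, Fintype.sum_prod_type]
  rfl

/-- the signed transform -/
theorem ELO_X (P : Fin M → ℕ) (hP : ∀ j, (P j).Prime) (g : ℕ → ℝ) (Z : ℝ) (a b : Fin k)
    (hab : a ≠ b) (ω : Vec M k → ℝ) (hωG : ∀ y, ω y ≠ 0 → Vals {b} y) (r : Vec M k) :
    (∏ j, (if r j = none then (1 : ℝ) else -1)) *
      tr (al P) (ext {b} ∅ (restr {a, b} (cv P g Z)) (lam (al P) ω)) r =
      ∑ z : Fin M → Option (Fin k) × Option (Fin k), ELO_Phi P g Z ω z *
        ∏ j, (ELO_p a b (al P j) (r j) (z j) - ELO_n a b (al P j) (r j) (z j)) := by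
  rw [ELO_tr, mul_sum]
  simp_rw [mul_sum]
  rw [ELO_pairs]
  refine sum_congr rfl fun z _ => ?_
  unfold ELO_Phi
  by_cases hω : ω (fun j => (z j).2) = 0
  · rw [hω]; simp
  · have hV := hωG _ hω
    have hy : ∀ j, (z j).2 = none ∨ (z j).2 = some b := by
      intro j
      rcases h : (z j).2 with _ | i
      · exact Or.inl rfl
      · have := hV j i h
        rw [mem_singleton] at this
        exact Or.inr (by rw [this])
    have hαβ : ∀ j, (1 + al P j) * (1 / (P j : ℝ)) = al P j := by
      intro j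
      have h2 : (2 : ℝ) ≤ P j := by exact_mod_cast (hP j).two_le
      have h3 : (P j : ℝ) - 1 ≠ 0 := by linarith
      have h4 : (P j : ℝ) ≠ 0 := by linarith
      unfold al
      field_simp
      ring
    have h1 : ∀ j, (if r j = none then (1 : ℝ) else -1) *
        ∑ t, ELO_t a b (al P j) (1 / (P j : ℝ)) (r j) ((z j).1) ((z j).2) t =
        ELO_p a b (al P j) (r j) (z j) - ELO_n a b (al P j) (r j) (z j) := fun j =>
      ELO_local a b hab (al P j) (1 / (P j : ℝ)) (hαβ j) (r j) ((z j).1) ((z j).2) (hy j)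
    simp_rw [← h1]
    rw [prod_mul_distrib]
    ring

end Pool.Agent.BG4

namespace Pool.Agent.BG4

open Finset Filter Pool.Agent.BG
open scoped Classical

variable {M k : ℕ}

theorem ELO_al_le_one (P : Fin M → ℕ) (hP : ∀ j, (P j).Prime) (j : Fin M) : al P j ≤ 1 := by
  have h : (2 : ℝ) ≤ P j := by exact_mod_cast (hP j).two_le
  unfold al
  rw [div_le_one (by linarith)]
  linarith

theorem ELO_p_nonneg (a b : Fin k) (α : ℝ) (hα : 0 ≤ α) (r : Option (Fin k))
    (z : Option (Fin k) × Option (Fin k)) : 0 ≤ ELO_p a b α r z := by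
  unfold ELO_p
  split_ifs <;> positivity

theorem ELO_n_nonneg (a b : Fin k) (α : ℝ) (hα : 0 ≤ α) (r : Option (Fin k))
    (z : Option (Fin k) × Option (Fin k)) : 0 ≤ ELO_n a b α r z := by
  unfold ELO_n
  split_ifs <;> positivity

theorem ELO_n_sum (a b : Fin k) (α : ℝ) (hα1 : α ≤ 1) (r : Option (Fin k)) :
    ∑ z, ELO_n a b α r z ≤ 3 * k * α ^ 2 := by
  rw [Fintype.sum_prod_type]
  have h1 : ∀ s : Option (Fin k), ∑ y, ELO_n a b α r (s, y) ≤
      if s = none then 0 else 3 * α ^ 2 := by
    intro s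
    have h2 : ∀ y : Option (Fin k), ELO_n a b α r (s, y) ≤
        (if y = none then (if s = none then 0 else α ^ 2) else 0) +
          (if y = some b then (if s = none then 0 else 2 * α ^ 2) else 0) := by
      intro y
      unfold ELO_n
      have h3 : α ^ 2 * (1 + α) ≤ 2 * α ^ 2 := by nlinarith [sq_nonneg α]
      by_cases hs : s = none
      · simp [hs]
      · by_cases hr : r = none
        · rw [if_pos hr, if_neg hs, if_neg hs]
          dsimp only
          by_cases hq : s = none ∨ s = some a ∨ s = some b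
          · rw [if_pos hq]
            split_ifs <;> positivity
          · rw [if_neg hq]
            by_cases hy : y = none
            · subst hy; simp
            · rw [if_neg hy, if_neg hy]
              by_cases hyb : y = some b
              · rw [if_pos hyb, if_pos hyb]; linarith
              · rw [if_neg hyb, if_neg hyb]; simp
        · rw [if_neg hr]
          split_ifs <;> positivity
    refine (sum_le_sum fun y _ => h2 y).trans ?_
    rw [sum_add_distrib, sum_ite_eq' univ none, sum_ite_eq' univ (some b)]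
    simp only [mem_univ, if_true]
    split_ifs
    · simp
    · linarith
  refine (sum_le_sum fun s _ => h1 s).trans ?_
  rw [Fintype.sum_option]
  simp only [if_true, zero_add, reduceCtorEq, if_false, sum_const, card_univ, Fintype.card_fin,
    nsmul_eq_mul]
  linarith

theorem ELO_di_update (P : Fin M → ℕ) (s : Vec M k) (j : Fin M) (i : Fin k) :
    di P s i = di P (Function.update s j none) i * (if s j = some i then P j else 1) := by
  unfold di
  rw [← mul_prod_erase univ (fun l => if s l = some i then P l else 1) (mem_univ j),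
    ← mul_prod_erase univ (fun l => if Function.update s j none l = some i then P l else 1)
      (mem_univ j)]
  have h1 : ∏ l ∈ univ.erase j, (if Function.update s j none l = some i then P l else 1) =
      ∏ l ∈ univ.erase j, (if s l = some i then P l else 1) := by
    refine prod_congr rfl fun l hl => ?_
    rw [Function.update_of_ne (mem_erase.1 hl).1]
  rw [h1, Function.update_self]
  simp only [reduceCtorEq, if_false, one_mul]
  ring

theorem ELO_dv_update (P : Fin M → ℕ) (hP : ∀ j, (P j).Prime) (s : Vec M k) (j : Fin M) :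
    dv P (Function.update s j none) ≤ dv P s := by
  unfold dv
  refine prod_le_prod' fun l _ => ?_
  by_cases h : l = j
  · subst h
    rw [Function.update_self, if_pos rfl]
    split_ifs
    · exact le_rfl
    · exact (hP l).one_le
  · rw [Function.update_of_ne h]

theorem ELO_Yv_update (P : Fin M → ℕ) (hP : ∀ j, (P j).Prime) (g : ℕ → ℝ) (hg : GHyp g) (Z : ℝ)
    (s : Vec M k) (j : Fin M) : Yv P g Z s ≤ Yv P g Z (Function.update s j none) := by
  obtain ⟨g0, g1, gone, gm⟩ := hg
  unfold Yv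
  by_cases h : (dv P s : ℝ) ≤ Z
  · have h2 : (dv P (Function.update s j none) : ℝ) ≤ Z :=
      le_trans (by exact_mod_cast ELO_dv_update P hP s j) h
    rw [if_pos h, if_pos h2]
    refine prod_le_prod (fun i _ => g0 _) fun i _ => ?_
    rw [ELO_di_update P s j i]
    refine gm _ _ (MUP_di_pos P hP _ i) ?_
    split_ifs
    · exact (hP j).one_le
    · exact le_rfl
  · rw [if_neg h]
    split_ifs
    · exact prod_nonneg fun i _ => g0 _
    · exact le_rfl

theorem ELO_Yv_nonneg (P : Fin M → ℕ) (g : ℕ → ℝ) (hg : GHyp g) (Z : ℝ) (s : Vec M k) :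
    0 ≤ Yv P g Z s := by
  unfold Yv
  split_ifs
  · exact prod_nonneg fun i _ => hg.1 _
  · exact le_rfl

/-- the sum with the positive weights controls the signed sum -/
theorem ELO_X_lower (P : Fin M → ℕ) (hP : ∀ j, (P j).Prime) (g : ℕ → ℝ) (hg : GHyp g) (Z : ℝ)
    (a b : Fin k) (ω : Vec M k → ℝ) (hω0 : ∀ y, 0 ≤ ω y)
    (hmono : ∀ y y' : Vec M k, (∀ j, y j ≠ none → y' j = y j) → ω y' ≤ ω y) (r : Vec M k) :
    (2 - Real.exp (3 * k * Sg2 P)) *
      ∑ z, ELO_Phi P g Z ω z * ∏ j, ELO_p a b (al P j) (r j) (z j) ≤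
    ∑ z : Fin M → Option (Fin k) × Option (Fin k), ELO_Phi P g Z ω z *
        ∏ j, (ELO_p a b (al P j) (r j) (z j) - ELO_n a b (al P j) (r j) (z j)) := by
  have hα : ∀ j, 0 ≤ al P j := SUML_al_nonneg P hP
  have hΦ0 : ∀ z, 0 ≤ ELO_Phi P g Z ω z := fun z =>
    mul_nonneg (ELO_Yv_nonneg P g hg Z _) (hω0 _)
  set A := ∑ z, ELO_Phi P g Z ω z * ∏ j, ELO_p a b (al P j) (r j) (z j) with hA
  set B := ∑ z : Fin M → Option (Fin k) × Option (Fin k), ELO_Phi P g Z ω z *
        ∏ j, (ELO_p a b (al P j) (r j) (z j) + ELO_n a b (al P j) (r j) (z j)) with hB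
  set C := ∑ z : Fin M → Option (Fin k) × Option (Fin k), ELO_Phi P g Z ω z *
        ∏ j, (ELO_p a b (al P j) (r j) (z j) - ELO_n a b (al P j) (r j) (z j)) with hC
  have hA0 : 0 ≤ A := sum_nonneg fun z _ => mul_nonneg (hΦ0 z)
    (prod_nonneg fun j _ => ELO_p_nonneg a b _ (hα j) _ _)
  have h1 : 2 * A ≤ C + B := by
    rw [hA, hB, hC, mul_sum, ← sum_add_distrib]
    refine sum_le_sum fun z _ => ?_
    have := (ELO_two univ (fun j => ELO_p a b (al P j) (r j) (z j))
      (fun j => ELO_n a b (al P j) (r j) (z j)) (fun j => ELO_p_nonneg a b _ (hα j) _ _)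
      (fun j => ELO_n_nonneg a b _ (hα j) _ _)).1
    have h2 := mul_le_mul_of_nonneg_left this (hΦ0 z)
    linarith
  have h2 : B ≤ (∏ j, (1 + 3 * k * al P j ^ 2)) * A := by
    refine ELO_pert (ELO_Phi P g Z ω) hΦ0 (fun j t => ELO_p a b (al P j) (r j) t)
      (fun j t => ELO_n a b (al P j) (r j) t) (fun j t => ELO_p_nonneg a b _ (hα j) _ _)
      (fun j t => ELO_n_nonneg a b _ (hα j) _ _) (fun _ => (none, none)) ?_ ?_
      (fun j => 3 * k * al P j ^ 2) (fun j => ELO_n_sum a b _ (ELO_al_le_one P hP j) _)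
    · intro j hj
      obtain ⟨t, ht⟩ := hj
      have hr : r j = none := by
        by_contra h
        exact ht (by unfold ELO_n; rw [if_neg h])
      unfold ELO_p
      rw [if_pos hr]
      simp
    · intro z j _
      unfold ELO_Phi
      have e1 : (fun l => (Function.update z j (none, none) l).1) =
          Function.update (fun l => (z l).1) j none := by
        funext l
        by_cases h : l = j
        · subst h; simp
        · simp [Function.update_of_ne h]
      have e2 : (fun l => (Function.update z j (none, none) l).2) =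
          Function.update (fun l => (z l).2) j none := by
        funext l
        by_cases h : l = j
        · subst h; simp
        · simp [Function.update_of_ne h]
      rw [e1, e2]
      refine mul_le_mul (ELO_Yv_update P hP g hg Z _ j) ?_ (hω0 _) (ELO_Yv_nonneg P g hg Z _)
      refine hmono _ _ fun l hl => ?_
      by_cases h : l = j
      · subst h; simp at hl
      · rw [Function.update_of_ne h]
  have h3 : ∏ j, (1 + 3 * k * al P j ^ 2) ≤ Real.exp (3 * k * Sg2 P) := by
    have e : 3 * (k : ℝ) * Sg2 P = ∑ j, 3 * k * al P j ^ 2 := by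
      rw [Sg2, mul_sum]
    rw [e, Real.exp_sum]
    refine prod_le_prod (fun j _ => by positivity) fun j _ => ?_
    have := Real.add_one_le_exp (3 * k * al P j ^ 2)
    linarith
  have h4 := mul_le_mul_of_nonneg_right h3 hA0
  nlinarith

/-- the pairs of disjoint sets off the support of `r` -/
noncomputable def ELO_D (r : Vec M k) : Finset (Finset (Fin M) × Finset (Fin M)) :=
  univ.filter (fun U => Disjoint U.1 U.2 ∧ (∀ j ∈ U.1, r j = none) ∧ ∀ j ∈ U.2, r j = none)

theorem ELO_D_sum (P : Fin M → ℕ) (hP : ∀ j, (P j).Prime) (g : ℕ → ℝ) (hg : GHyp g)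
    (r : Vec M k) :
    Gsum P g ^ 2 * (1 - Sg2 P - 2 * ∑ j, if r j = none then 0 else al P j) ≤
      ∑ U ∈ ELO_D r, SUML_mu P g U.1 * SUML_mu P g U.2 := by
  obtain ⟨g0, g1, gone, gm⟩ := hg
  have hα : ∀ j, 0 ≤ al P j := SUML_al_nonneg P hP
  have hμ : ∀ U, 0 ≤ SUML_mu P g U := SUML_mu_nonneg P hP g g0
  have hE : ∀ j, ∑ U ∈ (univ : Finset (Finset (Fin M))).filter (fun U => j ∈ U), SUML_mu P g U ≤
      al P j * Gsum P g := SUML_erase P hP g g0 gm
  have hG : ∑ U, SUML_mu P g U = Gsum P g := rfl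
  have hG0 : 0 ≤ Gsum P g := by rw [← hG]; exact sum_nonneg fun U _ => hμ U
  set I : Finset (Fin M) → Fin M → ℝ := fun U j => if j ∈ U then 1 else 0 with hI
  have hI0 : ∀ U j, 0 ≤ I U j := fun U j => by simp only [hI]; split_ifs <;> norm_num
  have hIE : ∀ j, ∑ U, SUML_mu P g U * I U j ≤ al P j * Gsum P g := by
    intro j
    refine le_trans (le_of_eq ?_) (hE j)
    rw [sum_filter]
    exact sum_congr rfl fun U _ => by simp [hI]
  have hIE0 : ∀ j, 0 ≤ ∑ U, SUML_mu P g U * I U j := fun j =>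
    sum_nonneg fun U _ => mul_nonneg (hμ U) (hI0 U j)
  have hpt : ∀ U : Finset (Fin M) × Finset (Fin M),
      SUML_mu P g U.1 * SUML_mu P g U.2 * (1 - ∑ j, I U.1 j * I U.2 j -
        ∑ j, (if r j = none then 0 else I U.1 j) - ∑ j, (if r j = none then 0 else I U.2 j)) ≤
      if U ∈ ELO_D r then SUML_mu P g U.1 * SUML_mu P g U.2 else 0 := by
    intro U
    have hn : 0 ≤ SUML_mu P g U.1 * SUML_mu P g U.2 := mul_nonneg (hμ _) (hμ _)
    have hs1 : 0 ≤ ∑ j, I U.1 j * I U.2 j := sum_nonneg fun j _ => mul_nonneg (hI0 _ _) (hI0 _ _)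
    have hs2 : 0 ≤ ∑ j, (if r j = none then 0 else I U.1 j) := sum_nonneg fun j _ => by
      split_ifs; exacts [le_rfl, hI0 _ _]
    have hs3 : 0 ≤ ∑ j, (if r j = none then 0 else I U.2 j) := sum_nonneg fun j _ => by
      split_ifs; exacts [le_rfl, hI0 _ _]
    split_ifs with h
    · exact mul_le_of_le_one_right hn (by linarith)
    · refine mul_nonpos_of_nonneg_of_nonpos hn ?_
      simp only [ELO_D, mem_filter, mem_univ, true_and, not_and_or] at h
      rcases h with h | h | h
      · rw [Finset.not_disjoint_iff] at h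
        obtain ⟨j, h1, h2⟩ := h
        have h3 : (1 : ℝ) ≤ ∑ j, I U.1 j * I U.2 j := by
          refine le_trans (le_of_eq ?_) (single_le_sum (f := fun j => I U.1 j * I U.2 j)
            (fun j _ => mul_nonneg (hI0 _ _) (hI0 _ _)) (mem_univ j))
          simp [hI, h1, h2]
        linarith
      · push Not at h
        obtain ⟨j, h1, h2⟩ := h
        have h3 : (1 : ℝ) ≤ ∑ j, (if r j = none then 0 else I U.1 j) := by
          refine le_trans (le_of_eq ?_) (single_le_sum
            (f := fun j => (if r j = none then 0 else I U.1 j))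
            (fun j _ => by split_ifs; exacts [le_rfl, hI0 _ _]) (mem_univ j))
          simp [hI, h1, h2]
        linarith
      · push Not at h
        obtain ⟨j, h1, h2⟩ := h
        have h3 : (1 : ℝ) ≤ ∑ j, (if r j = none then 0 else I U.2 j) := by
          refine le_trans (le_of_eq ?_) (single_le_sum
            (f := fun j => (if r j = none then 0 else I U.2 j))
            (fun j _ => by split_ifs; exacts [le_rfl, hI0 _ _]) (mem_univ j))
          simp [hI, h1, h2]
        linarith
  have hsum := sum_le_sum fun (U : Finset (Fin M) × Finset (Fin M)) (_ : U ∈ univ) => hpt U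
  rw [← sum_filter, filter_mem_eq_inter, univ_inter] at hsum
  refine le_trans ?_ hsum
  have e1 : ∑ U : Finset (Fin M) × Finset (Fin M),
      SUML_mu P g U.1 * SUML_mu P g U.2 * (1 - ∑ j, I U.1 j * I U.2 j -
        ∑ j, (if r j = none then 0 else I U.1 j) - ∑ j, (if r j = none then 0 else I U.2 j)) =
      Gsum P g * Gsum P g -
        ∑ j, (∑ U, SUML_mu P g U * I U j) * (∑ U, SUML_mu P g U * I U j) -
        ∑ j, (if r j = none then 0 else (∑ U, SUML_mu P g U * I U j) * Gsum P g) -
        ∑ j, (if r j = none then 0 else Gsum P g * (∑ U, SUML_mu P g U * I U j)) := by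
    have e2 : ∀ U : Finset (Fin M) × Finset (Fin M),
      SUML_mu P g U.1 * SUML_mu P g U.2 * (1 - ∑ j, I U.1 j * I U.2 j -
        ∑ j, (if r j = none then 0 else I U.1 j) - ∑ j, (if r j = none then 0 else I U.2 j)) =
      SUML_mu P g U.1 * SUML_mu P g U.2 -
        ∑ j, (SUML_mu P g U.1 * I U.1 j) * (SUML_mu P g U.2 * I U.2 j) -
        ∑ j, (if r j = none then 0 else (SUML_mu P g U.1 * I U.1 j) * SUML_mu P g U.2) -
        ∑ j, (if r j = none then 0 else SUML_mu P g U.1 * (SUML_mu P g U.2 * I U.2 j)) := by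
      intro U
      rw [mul_sub, mul_sub, mul_sub, mul_one, mul_sum, mul_sum, mul_sum]
      congr 1
      · congr 1
        · congr 1
          exact sum_congr rfl fun j _ => by ring
        · exact sum_congr rfl fun j _ => by split_ifs <;> ring
      · exact sum_congr rfl fun j _ => by split_ifs <;> ring
    simp_rw [e2]
    rw [sum_sub_distrib, sum_sub_distrib, sum_sub_distrib]
    congr 1
    · congr 1
      · congr 1
        · rw [Fintype.sum_prod_type, ← hG, sum_mul_sum]
        · rw [sum_comm]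
          refine sum_congr rfl fun j _ => ?_
          rw [Fintype.sum_prod_type, sum_mul_sum]
      · rw [sum_comm]
        refine sum_congr rfl fun j _ => ?_
        by_cases hr : r j = none
        · simp [hr]
        · simp only [hr, if_false]
          rw [Fintype.sum_prod_type, ← hG, sum_mul_sum]
    · rw [sum_comm]
      refine sum_congr rfl fun j _ => ?_
      by_cases hr : r j = none
      · simp [hr]
      · simp only [hr, if_false]
        rw [Fintype.sum_prod_type, ← hG, sum_mul_sum]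
  rw [e1]
  have b1 : ∑ j, (∑ U, SUML_mu P g U * I U j) * (∑ U, SUML_mu P g U * I U j) ≤
      Gsum P g ^ 2 * Sg2 P := by
    rw [Sg2, mul_sum]
    refine sum_le_sum fun j _ => ?_
    have := mul_le_mul (hIE j) (hIE j) (hIE0 j) (mul_nonneg (hα j) hG0)
    nlinarith
  have b2 : ∑ j, (if r j = none then 0 else (∑ U, SUML_mu P g U * I U j) * Gsum P g) ≤
      Gsum P g ^ 2 * ∑ j, if r j = none then 0 else al P j := by
    rw [mul_sum]
    refine sum_le_sum fun j _ => ?_
    split_ifs
    · simp
    · have := mul_le_mul_of_nonneg_right (hIE j) hG0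
      nlinarith
  have b3 : ∑ j, (if r j = none then 0 else Gsum P g * (∑ U, SUML_mu P g U * I U j)) ≤
      Gsum P g ^ 2 * ∑ j, if r j = none then 0 else al P j := by
    refine le_trans (le_of_eq ?_) b2
    exact sum_congr rfl fun j _ => by split_ifs <;> ring
  nlinarith

/-- the vector of primal variables -/
noncomputable def ELO_s (a b : Fin k) (r : Vec M k) (U : Finset (Fin M) × Finset (Fin M)) :
    Vec M k :=
  fun j => if j ∈ U.1 then some a else if j ∈ U.2 then some b else
    if r j = some b then none else r j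

/-- the vector of dual variables -/
noncomputable def ELO_f (b : Fin k) (r : Vec M k) : Vec M k :=
  fun j => if r j = some b then some b else none

theorem ELO_main (P : Fin M → ℕ) (hP : ∀ j, (P j).Prime) (g : ℕ → ℝ) (hg : GHyp g) (Z Z' : ℝ)
    (hZ : ∀ U U' : Finset (Fin M), g (pr P U) ≠ 0 → g (pr P U') ≠ 0 →
      Z' * pr P U * pr P U' ≤ Z) (a b : Fin k) (hab : a ≠ b)
    (ω : Vec M k → ℝ) (hω0 : ∀ y, 0 ≤ ω y) (r : Vec M k) (hr : Avoid {a} r)
    (hrZ : (dv P (er {b} r) : ℝ) ≤ Z') :
    ω (ELO_f b r) * (∏ i ∈ ({a, b} : Finset (Fin k))ᶜ, g (di P r i)) *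
      ∑ U ∈ ELO_D r, SUML_mu P g U.1 * SUML_mu P g U.2 ≤
    ∑ z, ELO_Phi P g Z ω z * ∏ j, ELO_p a b (al P j) (r j) (z j) := by
  have hα : ∀ j, 0 ≤ al P j := SUML_al_nonneg P hP
  obtain ⟨g0, g1, gone, gm⟩ := id hg
  have hba : b ≠ a := hab.symm
  have hra : ∀ j, r j ≠ some a := fun j => hr j a (mem_singleton_self a)
  set φ : Finset (Fin M) × Finset (Fin M) → (Fin M → Option (Fin k) × Option (Fin k)) :=
    fun U j => (ELO_s a b r U j, ELO_f b r j) with hφ
  have hD : ∀ U ∈ ELO_D r, Disjoint U.1 U.2 ∧ (∀ j ∈ U.1, r j = none) ∧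
      ∀ j ∈ U.2, r j = none := fun U hU => by
    simpa [ELO_D] using hU
  have hs1 : ∀ U ∈ ELO_D r, ∀ j, ELO_s a b r U j = some a ↔ j ∈ U.1 := by
    intro U hU j
    unfold ELO_s
    by_cases h1 : j ∈ U.1
    · simp [h1]
    · by_cases h2 : j ∈ U.2
      · simp [h1, h2, hba]
      · by_cases h3 : r j = some b
        · simp [h1, h2, h3]
        · simp [h1, h2, h3, hra j]
  have hs2 : ∀ U ∈ ELO_D r, ∀ j, ELO_s a b r U j = some b ↔ j ∈ U.2 := by
    intro U hU j
    obtain ⟨hd, _, _⟩ := hD U hU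
    unfold ELO_s
    by_cases h1 : j ∈ U.1
    · have h2 : j ∉ U.2 := Finset.disjoint_left.1 hd h1
      simp [h1, h2, hab]
    · by_cases h2 : j ∈ U.2
      · simp [h1, h2]
      · by_cases h3 : r j = some b
        · simp [h1, h2, h3]
        · simp [h1, h2, h3]
  have hinj : Set.InjOn φ (ELO_D r : Set (Finset (Fin M) × Finset (Fin M))) := by
    intro U hU V hV e
    have e1 : ∀ j, ELO_s a b r U j = ELO_s a b r V j := fun j => by
      have := congrFun e j
      simp only [hφ, Prod.mk.injEq] at this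
      exact this.1
    refine Prod.ext ?_ ?_
    · ext j
      rw [← hs1 U hU j, ← hs1 V hV j, e1]
    · ext j
      rw [← hs2 U hU j, ← hs2 V hV j, e1]
  have hΦ0 : ∀ z, 0 ≤ ELO_Phi P g Z ω z := fun z =>
    mul_nonneg (ELO_Yv_nonneg P g hg Z _) (hω0 _)
  have hval : ∀ U ∈ ELO_D r, ω (ELO_f b r) * (∏ i ∈ ({a, b} : Finset (Fin k))ᶜ, g (di P r i)) *
      (SUML_mu P g U.1 * SUML_mu P g U.2) ≤
      ELO_Phi P g Z ω (φ U) * ∏ j, ELO_p a b (al P j) (r j) (φ U j) := by
    intro U hU
    obtain ⟨hd, hU1, hU2⟩ := hD U hU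
    -- the product of the local weights
    have hp : (∏ l ∈ U.1, al P l) * ∏ l ∈ U.2, al P l ≤
        ∏ j, ELO_p a b (al P j) (r j) (φ U j) := by
      have e1 : (∏ l ∈ U.1, al P l) * ∏ l ∈ U.2, al P l =
          ∏ j, (if j ∈ U.1 then al P j else 1) * (if j ∈ U.2 then al P j else 1) := by
        rw [prod_mul_distrib, prod_ite_mem, prod_ite_mem, univ_inter, univ_inter]
      rw [e1]
      refine prod_le_prod (fun j _ => ?_) fun j _ => ?_
      · have := hα j
        split_ifs <;> positivity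
      · simp only [hφ]
        by_cases h1 : j ∈ U.1
        · have h2 : j ∉ U.2 := Finset.disjoint_left.1 hd h1
          have h3 := hU1 j h1
          simp [h1, h2, h3, ELO_p, ELO_s, ELO_f]
        · by_cases h2 : j ∈ U.2
          · have h3 := hU2 j h2
            simp [h1, h2, h3, ELO_p, ELO_s, ELO_f]
          · rw [if_neg h1, if_neg h2, mul_one]
            rcases h3 : r j with _ | i
            · simp [h1, h2, h3, ELO_p, ELO_s, ELO_f]
            · by_cases hib : i = b
              · subst hib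
                simp [h1, h2, h3, ELO_p, ELO_s, ELO_f]
              · have hia : i ≠ a := fun h => hra j (by rw [h3, h])
                have := hα j
                simp [h1, h2, h3, hib, hia, ELO_p, ELO_s, ELO_f, this]
    -- the values of `g`
    have hdia : di P (ELO_s a b r U) a = pr P U.1 := by
      unfold di pr
      rw [← prod_filter]
      congr 1
      ext j
      simp [hs1 U hU j]
    have hdib : di P (ELO_s a b r U) b = pr P U.2 := by
      unfold di pr
      rw [← prod_filter]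
      congr 1
      ext j
      simp [hs2 U hU j]
    have hdii : ∀ i ∈ ({a, b} : Finset (Fin k))ᶜ, di P (ELO_s a b r U) i = di P r i := by
      intro i hi
      simp only [mem_compl, mem_insert, mem_singleton, not_or] at hi
      unfold di
      refine prod_congr rfl fun j _ => ?_
      congr 1
      unfold ELO_s
      by_cases h1 : j ∈ U.1
      · simp [h1, hU1 j h1, Ne.symm hi.1]
      · by_cases h2 : j ∈ U.2
        · simp [h1, h2, hU2 j h2, Ne.symm hi.2]
        · by_cases h3 : r j = some b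
          · simp [h1, h2, h3, Ne.symm hi.2]
          · simp [h1, h2, h3]
    have hg : ∏ i, g (di P (ELO_s a b r U) i) =
        (∏ i ∈ ({a, b} : Finset (Fin k))ᶜ, g (di P r i)) * (g (pr P U.1) * g (pr P U.2)) := by
      rw [← Finset.prod_mul_prod_compl ({a, b} : Finset (Fin k)), prod_pair hab, hdia, hdib,
        mul_comm]
      congr 1
      exact prod_congr rfl fun i hi => by rw [hdii i hi]
    have hdv : dv P (ELO_s a b r U) = dv P (er {b} r) * pr P U.1 * pr P U.2 := by
      have e1 : pr P U.1 = ∏ j, if j ∈ U.1 then P j else 1 := by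
        rw [prod_ite_mem, univ_inter]; rfl
      have e2 : pr P U.2 = ∏ j, if j ∈ U.2 then P j else 1 := by
        rw [prod_ite_mem, univ_inter]; rfl
      rw [e1, e2]
      unfold dv
      rw [← prod_mul_distrib, ← prod_mul_distrib]
      refine prod_congr rfl fun j _ => ?_
      unfold ELO_s er
      by_cases h1 : j ∈ U.1
      · have h2 : j ∉ U.2 := Finset.disjoint_left.1 hd h1
        simp [h1, h2, hU1 j h1]
      · by_cases h2 : j ∈ U.2
        · simp [h1, h2, hU2 j h2]
        · by_cases h3 : r j = some b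
          · simp [h1, h2, h3]
          · simp [h1, h2, h3]
    have hY : (∏ i ∈ ({a, b} : Finset (Fin k))ᶜ, g (di P r i)) *
        (g (pr P U.1) * g (pr P U.2)) = Yv P g Z (ELO_s a b r U) := by
      unfold Yv
      rw [hg]
      split_ifs with hZ2
      · rfl
      · by_contra hne
        have h1 : g (pr P U.1) ≠ 0 := fun h => hne (by rw [h]; ring)
        have h2 : g (pr P U.2) ≠ 0 := fun h => hne (by rw [h]; ring)
        have h3 := hZ U.1 U.2 h1 h2
        apply hZ2
        rw [hdv]
        push_cast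
        refine le_trans ?_ h3
        have h4 : (0 : ℝ) ≤ pr P U.1 := Nat.cast_nonneg _
        have h5 : (0 : ℝ) ≤ pr P U.2 := Nat.cast_nonneg _
        exact mul_le_mul_of_nonneg_right (mul_le_mul_of_nonneg_right hrZ h4) h5
    have hPhi : ELO_Phi P g Z ω (φ U) = (∏ i ∈ ({a, b} : Finset (Fin k))ᶜ, g (di P r i)) *
        (g (pr P U.1) * g (pr P U.2)) * ω (ELO_f b r) := by
      rw [hY]; rfl
    rw [hPhi]
    have hc : 0 ≤ (∏ i ∈ ({a, b} : Finset (Fin k))ᶜ, g (di P r i)) *
        (g (pr P U.1) * g (pr P U.2)) * ω (ELO_f b r) :=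
      mul_nonneg (mul_nonneg (prod_nonneg fun i _ => g0 _) (mul_nonneg (g0 _) (g0 _))) (hω0 _)
    calc ω (ELO_f b r) * (∏ i ∈ ({a, b} : Finset (Fin k))ᶜ, g (di P r i)) *
      (SUML_mu P g U.1 * SUML_mu P g U.2) = (∏ i ∈ ({a, b} : Finset (Fin k))ᶜ, g (di P r i)) *
        (g (pr P U.1) * g (pr P U.2)) * ω (ELO_f b r) *
          ((∏ l ∈ U.1, al P l) * ∏ l ∈ U.2, al P l) := by
          unfold SUML_mu; ring
      _ ≤ _ := mul_le_mul_of_nonneg_left hp hc
  calc ω (ELO_f b r) * (∏ i ∈ ({a, b} : Finset (Fin k))ᶜ, g (di P r i)) *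
      ∑ U ∈ ELO_D r, SUML_mu P g U.1 * SUML_mu P g U.2 =
      ∑ U ∈ ELO_D r, ω (ELO_f b r) * (∏ i ∈ ({a, b} : Finset (Fin k))ᶜ, g (di P r i)) *
      (SUML_mu P g U.1 * SUML_mu P g U.2) := by rw [mul_sum]
    _ ≤ ∑ U ∈ ELO_D r, ELO_Phi P g Z ω (φ U) * ∏ j, ELO_p a b (al P j) (r j) (φ U j) :=
        sum_le_sum hval
    _ = ∑ z ∈ (ELO_D r).image φ, ELO_Phi P g Z ω z * ∏ j, ELO_p a b (al P j) (r j) (z j) := by
        rw [sum_image hinj]
    _ ≤ _ := sum_le_sum_of_subset_of_nonneg (subset_univ _) fun z _ _ =>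
        mul_nonneg (hΦ0 z) (prod_nonneg fun j _ => ELO_p_nonneg a b _ (hα j) _ _)

end Pool.Agent.BG4

namespace Pool.Agent.BG4

open Finset Filter Pool.Agent.BG
open scoped Classical

variable {M k : ℕ}

theorem ELO_one_le_prod {ι : Type*} (s : Finset ι) (f : ι → ℝ) (hf : ∀ i, 1 ≤ f i) :
    1 ≤ ∏ i ∈ s, f i := by
  induction s using Finset.induction_on with
  | empty => simp
  | insert a s ha ih =>
    rw [prod_insert ha]
    have := hf a
    nlinarith

/-- the bound for one vector -/
theorem ELO_point (P : Fin M → ℕ) (hP : ∀ j, (P j).Prime) (g : ℕ → ℝ) (hg : GHyp g) (Z Z' : ℝ)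
    (hk : ∀ j, (k : ℝ) * al P j ≤ 1)
    (hZ : ∀ U U' : Finset (Fin M), g (pr P U) ≠ 0 → g (pr P U') ≠ 0 →
      Z' * pr P U * pr P U' ≤ Z) (a b : Fin k) (hab : a ≠ b)
    (ω : Vec M k → ℝ) (hω0 : ∀ y, 0 ≤ ω y) (hωG : ∀ y, ω y ≠ 0 → Vals {b} y)
    (hmono : ∀ y y' : Vec M k, (∀ j, y j ≠ none → y' j = y j) → ω y' ≤ ω y)
    (hE : Real.exp (3 * k * Sg2 P) ≤ 2) (r : Vec M k) (hr : Avoid {a} r)
    (hrZ : (dv P (er {b} r) : ℝ) ≤ Z') :
    (ω (ELO_f b r) * ∏ i ∈ ({a, b} : Finset (Fin k))ᶜ, g (di P r i)) ^ 2 * Gsum P g ^ 4 *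
      (∏ j, if r j = none then 1 else al P j) *
      (1 - 2 * (Real.exp (3 * k * Sg2 P) - 1) - 2 * Sg2 P -
        (k + 4) * ∑ j, if r j = none then 0 else al P j) ≤
      tr (al P) (ext {b} ∅ (restr {a, b} (cv P g Z)) (lam (al P) ω)) r ^ 2 *
        ∏ j, om (al P j * (1 - k * al P j)) (r j) := by
  have hα : ∀ j, 0 ≤ al P j := SUML_al_nonneg P hP
  set S := ∑ j, (if r j = none then 0 else al P j) with hS
  set e := Real.exp (3 * k * Sg2 P) - 1 with he
  set c := ω (ELO_f b r) * ∏ i ∈ ({a, b} : Finset (Fin k))ᶜ, g (di P r i) with hc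
  set G := Gsum P g with hGdef
  have hG0 : 0 ≤ G := sum_nonneg fun U _ => mul_nonneg (hg.1 _) (prod_nonneg fun j _ => hα j)
  have hc0 : 0 ≤ c := mul_nonneg (hω0 _) (prod_nonneg fun i _ => hg.1 _)
  have hS0 : 0 ≤ S := sum_nonneg fun j _ => by split_ifs; exacts [le_rfl, hα j]
  have hSg0 : 0 ≤ Sg2 P := sum_nonneg fun j _ => sq_nonneg _
  have he0 : 0 ≤ e := by
    have : 0 ≤ 3 * (k : ℝ) * Sg2 P := by positivity
    have := Real.one_le_exp this
    linarith
  have he1 : e ≤ 1 := by linarith
  set σ := ∏ j, (if r j = none then (1 : ℝ) else -1) with hσ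
  have hσ2 : σ ^ 2 = 1 := by
    rw [hσ, ← prod_pow]
    refine prod_eq_one fun j _ => ?_
    split_ifs <;> norm_num
  set t := tr (al P) (ext {b} ∅ (restr {a, b} (cv P g Z)) (lam (al P) ω)) r with ht
  set Y := σ * t with hY
  have hYt : Y ^ 2 = t ^ 2 := by rw [hY, mul_pow, hσ2, one_mul]
  have hX := ELO_X P hP g Z a b hab ω hωG r
  rw [← ht, ← hσ, ← hY] at hX
  have hXl := ELO_X_lower P hP g hg Z a b ω hω0 hmono r
  rw [← hX] at hXl
  have hm := ELO_main P hP g hg Z Z' hZ a b hab ω hω0 r hr hrZ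
  rw [← hc] at hm
  have hDs := ELO_D_sum P hP g hg r
  rw [← hS, ← hGdef] at hDs
  set Xp := ∑ z, ELO_Phi P g Z ω z * ∏ j, ELO_p a b (al P j) (r j) (z j) with hXp
  have hXp0 : 0 ≤ Xp := sum_nonneg fun z _ => mul_nonneg
    (mul_nonneg (ELO_Yv_nonneg P g hg Z _) (hω0 _))
    (prod_nonneg fun j _ => ELO_p_nonneg a b _ (hα j) _ _)
  have hY0 : 0 ≤ Y := le_trans (mul_nonneg (by linarith) hXp0) hXl
  set v := Sg2 P + 2 * S with hv
  have hv0 : 0 ≤ v := by positivity
  set A := c * G ^ 2 with hA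
  have hA0 : 0 ≤ A := mul_nonneg hc0 (sq_nonneg _)
  have hXpA : A * (1 - v) ≤ Xp := by
    refine le_trans ?_ hm
    have := mul_le_mul_of_nonneg_left hDs hc0
    calc A * (1 - v) = c * (G ^ 2 * (1 - Sg2 P - 2 * S)) := by rw [hA, hv]; ring
      _ ≤ _ := this
  have hYA : A * (1 - e - v) ≤ Y := by
    by_cases h1 : 0 ≤ 1 - v
    · have h2 : (1 - e) * (A * (1 - v)) ≤ (1 - e) * Xp :=
        mul_le_mul_of_nonneg_left hXpA (by linarith)
      have h3 : (2 - Real.exp (3 * k * Sg2 P)) * Xp = (1 - e) * Xp := by rw [he]; ring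
      have h4 : A * (1 - e - v) ≤ (1 - e) * (A * (1 - v)) := by
        have : 0 ≤ A * (e * v) := by positivity
        nlinarith
      linarith
    · push Not at h1
      have : A * (1 - e - v) ≤ 0 := mul_nonpos_of_nonneg_of_nonpos hA0 (by linarith)
      linarith
  have hom : ∏ j, om (al P j * (1 - k * al P j)) (r j) =
      (∏ j, if r j = none then 1 else al P j) *
        ∏ j ∈ univ.filter (fun j => r j ≠ none), (1 - k * al P j) := by
    rw [prod_filter, ← prod_mul_distrib]
    refine prod_congr rfl fun j _ => ?_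
    rcases r j with _ | a <;> simp [om]
  set α' := ∏ j, (if r j = none then (1 : ℝ) else al P j) with hα'
  set q := ∏ j ∈ univ.filter (fun j => r j ≠ none), (1 - k * al P j) with hq
  have hS' : S = ∑ j ∈ univ.filter (fun j => r j ≠ none), al P j := by
    rw [sum_filter]
    refine sum_congr rfl fun j _ => ?_
    by_cases h : r j = none <;> simp [h]
  obtain ⟨q1, q2, q3⟩ := SUML_one_sub (univ.filter (fun j => r j ≠ none))
    (fun j => (k : ℝ) * al P j) (fun j => mul_nonneg (Nat.cast_nonneg _) (hα j)) hk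
  rw [← mul_sum, ← hS'] at q1
  have ha0 : 0 ≤ α' := prod_nonneg fun j _ => by
    split_ifs
    · exact zero_le_one
    · exact hα j
  have hY2 : 0 ≤ 1 - 2 * (e + v) → A ^ 2 * (1 - 2 * (e + v)) ≤ Y ^ 2 := by
    intro hx
    have h1 : 0 ≤ 1 - e - v := by nlinarith
    have h2 : 0 ≤ A * (1 - e - v) := mul_nonneg hA0 h1
    have h3 : (A * (1 - e - v)) ^ 2 ≤ Y ^ 2 := pow_le_pow_left₀ h2 hYA 2
    have h4 : A ^ 2 * (1 - 2 * (e + v)) ≤ (A * (1 - e - v)) ^ 2 := by
      have : (A * (1 - e - v)) ^ 2 = A ^ 2 * (1 - 2 * (e + v)) + (A * (e + v)) ^ 2 := by ring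
      rw [this]
      nlinarith [sq_nonneg (A * (e + v))]
    exact h4.trans h3
  have hmain : A ^ 2 * (1 - 2 * e - 2 * Sg2 P - (k + 4) * S) ≤ Y ^ 2 * q := by
    have ev : 1 - 2 * e - 2 * Sg2 P - (k + 4) * S = 1 - 2 * (e + v) - k * S := by
      rw [hv]; ring
    rw [ev]
    by_cases hx : 0 ≤ 1 - 2 * (e + v)
    · have h1 := hY2 hx
      have h2 : A ^ 2 * (1 - 2 * (e + v)) * q ≤ Y ^ 2 * q := mul_le_mul_of_nonneg_right h1 q3
      have h3 : A ^ 2 * (1 - 2 * (e + v)) * (1 - k * S) ≤ A ^ 2 * (1 - 2 * (e + v)) * q :=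
        mul_le_mul_of_nonneg_left q1 (mul_nonneg (sq_nonneg _) hx)
      have h4 : A ^ 2 * (1 - 2 * (e + v) - k * S) ≤ A ^ 2 * (1 - 2 * (e + v)) * (1 - k * S) := by
        have h5 : 0 ≤ A ^ 2 * (2 * (e + v) * (k * S)) := by positivity
        nlinarith
      linarith
    · push Not at hx
      have h1 : 1 - 2 * (e + v) - k * S ≤ 0 := by
        have : 0 ≤ (k : ℝ) * S := by positivity
        linarith
      have h2 : A ^ 2 * (1 - 2 * (e + v) - k * S) ≤ 0 :=
        mul_nonpos_of_nonneg_of_nonpos (sq_nonneg _) h1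
      have h3 : 0 ≤ Y ^ 2 * q := mul_nonneg (sq_nonneg _) q3
      linarith
  rw [hom, ← hYt]
  have h6 : α' * (A ^ 2 * (1 - 2 * e - 2 * Sg2 P - (k + 4) * S)) ≤ α' * (Y ^ 2 * q) :=
    mul_le_mul_of_nonneg_left hmain ha0
  calc c ^ 2 * G ^ 4 * α' * (1 - 2 * e - 2 * Sg2 P - (k + 4) * S)
      = α' * (A ^ 2 * (1 - 2 * e - 2 * Sg2 P - (k + 4) * S)) := by rw [hA]; ring
    _ ≤ α' * (Y ^ 2 * q) := h6
    _ = Y ^ 2 * (α' * q) := by ring

/-- the vector with the value `b` on `U` -/
noncomputable def ELO_vb (b : Fin k) (U : Finset (Fin M)) : Vec M k :=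
  fun j => if j ∈ U then some b else none

/-- the weights of the component `b` -/
noncomputable def ELO_wb (P : Fin M → ℕ) (b : Fin k) (ω : Vec M k → ℝ) (U : Finset (Fin M)) : ℝ :=
  ω (ELO_vb b U) ^ 2 * ∏ j ∈ U, al P j

theorem ELO_wb_dec (P : Fin M → ℕ) (hP : ∀ j, (P j).Prime) (b : Fin k) (ω : Vec M k → ℝ)
    (hω0 : ∀ y, 0 ≤ ω y)
    (hmono : ∀ y y' : Vec M k, (∀ j, y j ≠ none → y' j = y j) → ω y' ≤ ω y) :
    EDec (al P) (ELO_wb P b ω) := by
  have hα : ∀ j, 0 ≤ al P j := SUML_al_nonneg P hP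
  refine ⟨fun U => mul_nonneg (sq_nonneg _) (prod_nonneg fun j _ => hα j), fun U j hj => ?_⟩
  unfold ELO_wb
  rw [prod_insert hj]
  have h1 : ω (ELO_vb b (insert j U)) ≤ ω (ELO_vb b U) := by
    refine hmono _ _ fun l hl => ?_
    unfold ELO_vb at hl ⊢
    by_cases h : l ∈ U
    · simp [h]
    · simp [h] at hl
  have h2 : ω (ELO_vb b (insert j U)) ^ 2 ≤ ω (ELO_vb b U) ^ 2 :=
    pow_le_pow_left₀ (hω0 _) h1 2
  have h3 : 0 ≤ al P j * ∏ l ∈ U, al P l := mul_nonneg (hα j) (prod_nonneg fun l _ => hα l)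
  have := mul_le_mul_of_nonneg_right h2 h3
  calc _ ≤ ω (ELO_vb b U) ^ 2 * (al P j * ∏ l ∈ U, al P l) := this
    _ = _ := by ring

theorem ELO_mu_dec (P : Fin M → ℕ) (hP : ∀ j, (P j).Prime) (f : ℕ → ℝ) (hf : ∀ a, 0 ≤ f a)
    (hm : ∀ a b : ℕ, 1 ≤ a → 1 ≤ b → f (a * b) ≤ f a) : EDec (al P) (SUML_mu P f) := by
  have hα : ∀ j, 0 ≤ al P j := SUML_al_nonneg P hP
  refine ⟨SUML_mu_nonneg P hP f hf, fun U j hj => ?_⟩
  unfold SUML_mu
  have e1 : pr P (insert j U) = pr P U * P j := by
    unfold pr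
    rw [prod_insert hj, mul_comm]
  rw [e1, prod_insert hj]
  have h1 := hm (pr P U) (P j) (SUML_pr_pos P hP _) (hP j).one_le
  have h3 : 0 ≤ al P j * ∏ l ∈ U, al P l := mul_nonneg (hα j) (prod_nonneg fun l _ => hα l)
  have := mul_le_mul_of_nonneg_right h1 h3
  calc _ ≤ f (pr P U) * (al P j * ∏ l ∈ U, al P l) := this
    _ = _ := by ring

theorem ELO_wb_sum (P : Fin M → ℕ) (b : Fin k) (ω : Vec M k → ℝ)
    (hωG : ∀ y, ω y ≠ 0 → Vals {b} y) :
    ∑ y, ω y ^ 2 * gw (al P) y = ∑ U, ELO_wb P b ω U := by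
  have hinj : Set.InjOn (ELO_vb (M := M) b) (univ : Finset (Finset (Fin M))) := by
    intro U _ V _ e
    ext j
    have := congrFun e j
    unfold ELO_vb at this
    by_cases h1 : j ∈ U <;> by_cases h2 : j ∈ V <;> simp_all
  have h1 : ∑ U, ELO_wb P b ω U = ∑ y ∈ univ.image (ELO_vb (M := M) b), ω y ^ 2 * gw (al P) y := by
    rw [sum_image hinj]
    refine sum_congr rfl fun U _ => ?_
    unfold ELO_wb gw
    congr 1
    rw [← prod_subset (subset_univ U)]
    · refine prod_congr rfl fun j hj => ?_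
      simp [ELO_vb, hj, om]
    · intro j _ hj
      simp [ELO_vb, hj, om]
  rw [h1]
  symm
  apply sum_subset (subset_univ _)
  intro y _ hy
  by_cases hω : ω y = 0
  · rw [hω]; simp
  · exfalso
    apply hy
    refine mem_image.2 ⟨univ.filter (fun j => y j = some b), mem_univ _, ?_⟩
    funext j
    unfold ELO_vb
    rcases h : y j with _ | i
    · simp [h]
    · have := hωG y hω j i h
      rw [mem_singleton] at this
      simp [h, this]

/-- the tuples with large product -/
theorem ELO_big (P : Fin M → ℕ) (hP : ∀ j, (P j).Prime) (g : ℕ → ℝ) (hg : GHyp g) (Z' : ℝ)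
    (hZ' : 1 < Z') (h1 : k * Gsum P (fun a => g a ^ 2 * Real.log a) ≤
      Gsum P (fun a => g a ^ 2) * (Real.log Z' / 2)) (hG : 0 < Gsum P (fun a => g a ^ 2))
    (b : Fin k) (wb : Finset (Fin M) → ℝ) (hwb : ∀ U, 0 ≤ wb U) :
    ∑ U ∈ (univ : Finset (Fin k → Finset (Fin M))).filter
      (fun U => Real.log Z' < ∑ i ∈ ({b} : Finset (Fin k))ᶜ, Real.log (pr P (U i))),
      ∏ i, (if i = b then wb (U i) else SUML_mu P (fun a => g a ^ 2) (U i)) ≤
      ((∑ U, wb U) * Gsum P (fun a => g a ^ 2) ^ (k - 1)) *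
        (4 * k * Gsum P (fun a => g a ^ 2 * Real.log a ^ 2) /
          (Gsum P (fun a => g a ^ 2) * Real.log Z' ^ 2)) := by
  set μ := SUML_mu P (fun a => g a ^ 2) with hμ
  set G2 := Gsum P (fun a => g a ^ 2) with hG2
  have hμ0 : ∀ U, 0 ≤ μ U := SUML_mu_nonneg P hP _ fun a => sq_nonneg _
  have hμs : ∑ U, μ U = G2 := rfl
  set R : ({i : Fin k // i ≠ b} → Finset (Fin M)) → ℝ := fun y =>
    (if Real.log Z' < ∑ i, Real.log (pr P (y i)) then ∏ i, μ (y i) else 0) with hR
  have hgen : ∀ w : Finset (Fin M) → ℝ,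
      ∑ U ∈ (univ : Finset (Fin k → Finset (Fin M))).filter
      (fun U => Real.log Z' < ∑ i ∈ ({b} : Finset (Fin k))ᶜ, Real.log (pr P (U i))),
      ∏ i, (if i = b then w (U i) else μ (U i)) = (∑ U, w U) * ∑ y, R y := by
    intro w
    rw [sum_filter, ELO_split b, sum_comm, sum_mul_sum]
    refine sum_congr rfl fun t _ => sum_congr rfl fun y _ => ?_
    set U : Fin k → Finset (Fin M) := fun i => if h : i = b then t else y ⟨i, h⟩ with hU
    have hUb : U b = t := by simp [hU]
    have e1 : ∑ i ∈ ({b} : Finset (Fin k))ᶜ, Real.log (pr P (U i)) =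
        ∑ i, Real.log (pr P (y i)) := by
      rw [sum_subtype (({b} : Finset (Fin k))ᶜ) (p := fun i => i ≠ b) (by simp)
        (fun i => Real.log (pr P (U i)))]
      refine sum_congr rfl fun i _ => ?_
      simp [hU, i.2]
    have e2 : ∏ i, (if i = b then w (U i) else μ (U i)) = w t * ∏ i, μ (y i) := by
      rw [← Finset.prod_mul_prod_compl ({b} : Finset (Fin k)), prod_singleton, if_pos rfl, hUb]
      congr 1
      rw [prod_subtype (({b} : Finset (Fin k))ᶜ) (p := fun i => i ≠ b) (by simp)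
        (fun i => if i = b then w (U i) else μ (U i))]
      refine prod_congr rfl fun i _ => ?_
      simp [hU, i.2]
    change (if Real.log Z' < ∑ i ∈ ({b} : Finset (Fin k))ᶜ, Real.log (pr P (U i)) then
      ∏ i, (if i = b then w (U i) else μ (U i)) else 0) = w t * R y
    rw [e1, e2]
    simp only [hR]
    split_ifs <;> simp
  have hcheb := SUML_big (k := k) P hP g hg Z' hZ' h1 hG
  rw [← hμ, ← hG2] at hcheb
  set Q := 4 * k * Gsum P (fun a => g a ^ 2 * Real.log a ^ 2) / (G2 * Real.log Z' ^ 2) with hQ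
  have h2 := hgen μ
  rw [hμs] at h2
  have h3 : G2 * ∑ y, R y ≤ G2 ^ k * Q := by
    rw [← h2]
    refine le_trans ?_ hcheb
    simp only [ite_self]
    refine sum_le_sum_of_subset_of_nonneg ?_ fun U _ _ => prod_nonneg fun i _ => hμ0 _
    intro U hU
    rw [mem_filter] at hU ⊢
    refine ⟨mem_univ _, hU.2.trans_le ?_⟩
    exact sum_le_sum_of_subset_of_nonneg (subset_univ _) fun i _ _ =>
      Real.log_nonneg (by exact_mod_cast SUML_pr_pos P hP (U i))
  have hkpos : 1 ≤ k := by
    have := b.isLt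
    omega
  have hpow : G2 ^ k = G2 * G2 ^ (k - 1) := by
    rw [← pow_succ']
    congr 1
    omega
  rw [hpow, mul_assoc] at h3
  have h4 : ∑ y, R y ≤ G2 ^ (k - 1) * Q := le_of_mul_le_mul_left h3 hG
  rw [hgen wb]
  have h5 : 0 ≤ ∑ U, wb U := sum_nonneg fun U _ => hwb U
  calc (∑ U, wb U) * ∑ y, R y ≤ (∑ U, wb U) * (G2 ^ (k - 1) * Q) :=
        mul_le_mul_of_nonneg_left h4 h5
    _ = _ := by ring

theorem energy_lower (P : Fin M → ℕ) (hP : ∀ j, (P j).Prime) (hinj : Function.Injective P)
    (g : ℕ → ℝ) (hg : GHyp g) (Z Z' : ℝ) (hZ' : 1 < Z') (hk3 : 3 ≤ k)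
    (hk : ∀ j, (k : ℝ) * al P j ≤ 1)
    (hZ : ∀ U U' : Finset (Fin M), g (pr P U) ≠ 0 → g (pr P U') ≠ 0 →
      Z' * pr P U * pr P U' ≤ Z) (a b : Fin k) (hab : a ≠ b)
    (ω : Vec M k → ℝ) (hω0 : ∀ y, 0 ≤ ω y) (hωG : ∀ y, ω y ≠ 0 → Vals {b} y)
    (hmono : ∀ y y' : Vec M k, (∀ j, y j ≠ none → y' j = y j) → ω y' ≤ ω y)
    (h1 : k * Gsum P (fun a => g a ^ 2 * Real.log a) ≤
      Gsum P (fun a => g a ^ 2) * (Real.log Z' / 2)) :
    (∑ y, ω y ^ 2 * gw (al P) y) * (Gsum P g ^ 4 * Gsum P (fun a => g a ^ 2) ^ (k - 2)) *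
      (1 - (Real.exp (100 * k ^ 2 * Sg2 P) - 1)
        - 4 * k * Gsum P (fun a => g a ^ 2 * Real.log a ^ 2) /
          (Gsum P (fun a => g a ^ 2) * Real.log Z' ^ 2)) ≤
    ∑ r, tr (al P) (ext {b} ∅ (restr {a, b} (cv P g Z)) (lam (al P) ω)) r ^ 2 *
      ∏ j, om (al P j * (1 - k * al P j)) (r j) := by
  have hg' := hg
  obtain ⟨g0, g1, gone, gm⟩ := hg
  have hα : ∀ j, 0 ≤ al P j := SUML_al_nonneg P hP
  have hba : b ≠ a := hab.symm
  set f : ℕ → ℝ := fun a => g a ^ 2 with hf
  have hf0 : ∀ a, 0 ≤ f a := fun a => sq_nonneg _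
  have hfm : ∀ a b : ℕ, 1 ≤ a → 1 ≤ b → f (a * b) ≤ f a := fun a b ha hb =>
    pow_le_pow_left₀ (g0 _) (gm a b ha hb) 2
  set G := Gsum P g with hGdef
  set G2 := Gsum P f with hG2def
  have hG0 : 0 ≤ G := sum_nonneg fun U _ => mul_nonneg (g0 _) (prod_nonneg fun j _ => hα j)
  have hG2 : 0 < G2 := by
    have h2 : SUML_mu P f ∅ ≤ G2 :=
      single_le_sum (f := fun U => SUML_mu P f U) (fun U _ => SUML_mu_nonneg P hP f hf0 U)
        (mem_univ ∅)
    have h3 : SUML_mu P f ∅ = 1 := by simp [SUML_mu, pr, hf, gone]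
    linarith
  rw [ELO_wb_sum P b ω hωG]
  set wb := ELO_wb P b ω with hwb
  have hwbd : EDec (al P) wb := ELO_wb_dec P hP b ω hω0 hmono
  set Sω := ∑ U, wb U with hSω
  have hSω0 : 0 ≤ Sω := sum_nonneg fun U _ => hwbd.1 U
  set T : Vec M k → ℝ := fun r =>
    tr (al P) (ext {b} ∅ (restr {a, b} (cv P g Z)) (lam (al P) ω)) r ^ 2 *
      ∏ j, om (al P j * (1 - k * al P j)) (r j) with hT
  have hT0 : ∀ r, 0 ≤ T r := fun r => mul_nonneg (sq_nonneg _) (prod_nonneg fun j _ => by
    rcases r j with _ | a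
    · simp [om]
    · exact mul_nonneg (hα j) (by linarith [hk j]))
  set x := Sg2 P with hx
  have hx0 : 0 ≤ x := sum_nonneg fun j _ => sq_nonneg _
  set Q := 4 * k * Gsum P (fun a => g a ^ 2 * Real.log a ^ 2) / (G2 * Real.log Z' ^ 2) with hQ
  have hQ0 : 0 ≤ Q := by
    refine div_nonneg (mul_nonneg (by positivity) ?_) (by positivity)
    exact sum_nonneg fun U _ => mul_nonneg (by positivity) (prod_nonneg fun j _ => hα j)
  have hkR : (3 : ℝ) ≤ k := by exact_mod_cast hk3
  by_cases hE : Real.exp (3 * k * x) ≤ 2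
  swap
  · -- trivial case
    push Not at hE
    have h2 : Real.exp (3 * k * x) ≤ Real.exp (100 * k ^ 2 * x) := by
      apply Real.exp_le_exp.2
      have : 3 * (k : ℝ) ≤ 100 * k ^ 2 := by nlinarith
      exact mul_le_mul_of_nonneg_right this hx0
    have h3 : 1 - (Real.exp (100 * k ^ 2 * x) - 1) - Q ≤ 0 := by linarith
    have h4 : 0 ≤ Sω * (G ^ 4 * G2 ^ (k - 2)) := by positivity
    exact (mul_nonpos_of_nonneg_of_nonpos h4 h3).trans (sum_nonneg fun r _ => hT0 r)
  set e := Real.exp (3 * k * x) - 1 with he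
  have he0 : 0 ≤ e := by
    have : 0 ≤ 3 * (k : ℝ) * x := by positivity
    have := Real.one_le_exp this
    linarith
  set w : Fin k → Finset (Fin M) → ℝ := fun i U => if i = b then wb U else SUML_mu P f U with hw
  have hwd : ∀ i, EDec (al P) (w i) := by
    intro i
    by_cases hi : i = b
    · simp only [hw, hi, if_true]; exact hwbd
    · simp only [hw, hi, if_false]; exact ELO_mu_dec P hP f hf0 hfm
  set full : (Fin k → Finset (Fin M)) → ℝ := fun U => ∏ i, w i (U i) with hfull
  have hfull0 : ∀ U, 0 ≤ full U := fun U => prod_nonneg fun i _ => (hwd i).1 _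
  have hkpos : 1 ≤ k := by omega
  have hW : ∏ i, ∑ U, w i U = Sω * G2 ^ (k - 1) := by
    rw [← Finset.prod_mul_prod_compl ({b} : Finset (Fin k)), prod_singleton]
    congr 1
    · simp [hw, hSω]
    · have : ∀ i ∈ ({b} : Finset (Fin k))ᶜ, ∑ U, w i U = G2 := by
        intro i hi
        have hi' : i ≠ b := by simpa using hi
        simp only [hw, hi', if_false]
        rfl
      rw [prod_congr rfl this, prod_const, card_compl, card_singleton, Fintype.card_fin]
  set W := Sω * G2 ^ (k - 1) with hWdef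
  have hW0 : 0 ≤ W := by positivity
  set D := (univ : Finset (Fin k → Finset (Fin M))).filter (fun U => SUML_D a U ∧
    (∏ i ∈ ({b} : Finset (Fin k))ᶜ, (pr P (U i) : ℝ)) ≤ Z') with hD
  set aa : (Fin k → Finset (Fin M)) → ℝ := fun U => ∑ i, ∑ j ∈ U i, al P j with haa
  have hprpos : ∀ U : Finset (Fin M), (1 : ℝ) ≤ pr P U := fun U => by
    exact_mod_cast SUML_pr_pos P hP U
  have hstep1 : ∑ U ∈ D, full U * (1 - 2 * e - 2 * x - (k + 4) * aa U) * G ^ 4 ≤
      G2 * ∑ r, T r := by
    have hr : ∀ U ∈ D, full U * (1 - 2 * e - 2 * x - (k + 4) * aa U) * G ^ 4 ≤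
        SUML_mu P f (U a) * T (SUML_r a U) := by
      intro U hU
      obtain ⟨hUD, hUZ⟩ := (mem_filter.1 hU).2
      set r := SUML_r a U with hrdef
      have hav : Avoid {a} r := by
        intro j i hi h
        rw [mem_singleton] at hi
        rw [hrdef, SUML_r_some a U hUD] at h
        exact h.1 hi
      have hdv : (dv P (er {b} r) : ℝ) ≤ Z' := by
        refine le_trans ?_ hUZ
        have e1 : dv P (er {b} r) = ∏ i ∈ ({a, b} : Finset (Fin k))ᶜ, pr P (U i) := by
          have e2 : dv P (er {b} r) = ∏ i : Fin k, ∏ j ∈ univ.filter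
              (fun j => er {b} r j = some i), P j := by
            unfold dv
            exact SUML_prod (er {b} r) P
          have e3 : ∀ i : Fin k, univ.filter (fun j => er {b} r j = some i) =
              if i = a ∨ i = b then ∅ else U i := by
            intro i
            ext j
            simp only [mem_filter, mem_univ, true_and]
            have hb' := SUML_r_some a U hUD j b
            have hi' := SUML_r_some a U hUD j i
            rw [← hrdef] at hb' hi'
            unfold er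
            by_cases hjb : r j = some b
            · have : ¬ (some b = (none : Option (Fin k))) := by simp
              simp only [mem_singleton, exists_eq_left, hjb, if_true]
              split_ifs with h3
              · simp
              · push Not at h3
                simp only [reduceCtorEq, false_iff]
                intro h4
                have h5 := hi'.2 ⟨h3.1, h4⟩
                rw [hjb] at h5
                exact h3.2 (Option.some_injective _ h5).symm
            · simp only [mem_singleton, exists_eq_left, hjb, if_false]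
              rw [hi']
              split_ifs with h3
              · rcases h3 with rfl | rfl
                · simp
                · simp only [notMem_empty, iff_false]
                  intro h4
                  exact hjb (hb'.2 h4)
              · push Not at h3
                simp [h3.1]
          rw [e2]
          simp_rw [e3]
          rw [← Finset.prod_mul_prod_compl ({a, b} : Finset (Fin k))]
          rw [prod_eq_one (s := ({a, b} : Finset (Fin k))), one_mul]
          · refine prod_congr rfl fun i hi => ?_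
            simp only [mem_compl, mem_insert, mem_singleton] at hi
            rw [if_neg hi]; rfl
          · intro i hi
            simp only [mem_insert, mem_singleton] at hi
            rw [if_pos hi]; simp
        rw [e1]
        push_cast
        have hsub : ({a, b} : Finset (Fin k))ᶜ ⊆ ({b} : Finset (Fin k))ᶜ := by
          intro i hi
          simp only [mem_compl, mem_insert, mem_singleton, not_or] at hi ⊢
          exact hi.2
        rw [← prod_sdiff hsub]
        have h10 : (1 : ℝ) ≤ ∏ i ∈ ({b} : Finset (Fin k))ᶜ \ ({a, b} : Finset (Fin k))ᶜ,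
            (pr P (U i) : ℝ) := ELO_one_le_prod _ _ fun i => hprpos _
        have h11 : (0 : ℝ) ≤ ∏ i ∈ ({a, b} : Finset (Fin k))ᶜ, (pr P (U i) : ℝ) :=
          prod_nonneg fun i _ => Nat.cast_nonneg _
        nlinarith
      have hp := ELO_point P hP g hg' Z Z' hk hZ a b hab ω hω0 hωG hmono hE r hav hdv
      have hfb : ELO_f b r = ELO_vb b (U b) := by
        funext j
        unfold ELO_f ELO_vb
        have := SUML_r_some a U hUD j b
        rw [← hrdef] at this
        by_cases hj : j ∈ U b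
        · rw [if_pos (this.2 ⟨hba, hj⟩), if_pos hj]
        · rw [if_neg (fun h => hj (this.1 h).2), if_neg hj]
      have e1 : ∏ i ∈ ({a, b} : Finset (Fin k))ᶜ, g (di P r i) =
          ∏ i ∈ ({a, b} : Finset (Fin k))ᶜ, g (pr P (U i)) :=
        prod_congr rfl fun i hi => by
          simp only [mem_compl, mem_insert, mem_singleton, not_or] at hi
          rw [hrdef, SUML_di P a U hUD i hi.1]
      rw [e1, hfb, hrdef, SUML_prod' a U hUD (al P), SUML_sum' a U hUD (al P), ← hrdef] at hp
      have hsplit : ({a} : Finset (Fin k))ᶜ = insert b ({a, b} : Finset (Fin k))ᶜ := by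
        ext i
        simp only [mem_compl, mem_singleton, mem_insert, not_or]
        by_cases hib : i = b
        · simp [hib, hba]
        · simp [hib]
      have e2 : full U = SUML_mu P f (U a) *
          ((ω (ELO_vb b (U b)) * ∏ i ∈ ({a, b} : Finset (Fin k))ᶜ, g (pr P (U i))) ^ 2 *
            ∏ i ∈ ({a} : Finset (Fin k))ᶜ, ∏ j ∈ U i, al P j) := by
        simp only [hfull]
        rw [← Finset.prod_mul_prod_compl ({a} : Finset (Fin k)), prod_singleton]
        have e3 : w a (U a) = SUML_mu P f (U a) := by simp [hw, hab]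
        rw [e3]
        congr 1
        rw [hsplit, prod_insert (by simp), prod_insert (by simp)]
        have e4 : w b (U b) = ω (ELO_vb b (U b)) ^ 2 * ∏ j ∈ U b, al P j := by
          simp only [hw, if_true, hwb, ELO_wb]
        rw [e4]
        have e5 : ∏ i ∈ ({a, b} : Finset (Fin k))ᶜ, w i (U i) =
            (∏ i ∈ ({a, b} : Finset (Fin k))ᶜ, g (pr P (U i))) ^ 2 *
              ∏ i ∈ ({a, b} : Finset (Fin k))ᶜ, ∏ j ∈ U i, al P j := by
          rw [← prod_pow, ← prod_mul_distrib]
          refine prod_congr rfl fun i hi => ?_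
          simp only [mem_compl, mem_insert, mem_singleton, not_or] at hi
          simp only [hw, hi.2, if_false]
          rfl
        rw [e5]
        ring
      have haa' : ∑ i ∈ ({a} : Finset (Fin k))ᶜ, ∑ j ∈ U i, al P j ≤ aa U := by
        refine sum_le_sum_of_subset_of_nonneg (subset_univ _) fun i _ _ =>
          sum_nonneg fun j _ => hα j
      set bb := ω (ELO_vb b (U b)) * (∏ i ∈ ({a, b} : Finset (Fin k))ᶜ, g (pr P (U i))) with hbb
      set cc := ∏ i ∈ ({a} : Finset (Fin k))ᶜ, ∏ j ∈ U i, al P j with hcc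
      have hcc0 : 0 ≤ cc := prod_nonneg fun i _ => prod_nonneg fun j _ => hα j
      have hmu0 : 0 ≤ SUML_mu P f (U a) := SUML_mu_nonneg P hP f hf0 _
      have hp2 : bb ^ 2 * G ^ 4 * cc * (1 - 2 * e - 2 * x - (k + 4) * aa U) ≤ T r := by
        refine le_trans ?_ hp
        refine mul_le_mul_of_nonneg_left ?_ (by positivity)
        have : ((k : ℝ) + 4) * ∑ i ∈ ({a} : Finset (Fin k))ᶜ, ∑ j ∈ U i, al P j ≤
          (k + 4) * aa U := mul_le_mul_of_nonneg_left haa' (by positivity)
        linarith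
      calc full U * (1 - 2 * e - 2 * x - (k + 4) * aa U) * G ^ 4
          = SUML_mu P f (U a) * (bb ^ 2 * G ^ 4 * cc *
            (1 - 2 * e - 2 * x - (k + 4) * aa U)) := by
            rw [e2]; ring
        _ ≤ _ := mul_le_mul_of_nonneg_left hp2 hmu0
    have hinjD : Set.InjOn (fun U : Fin k → Finset (Fin M) => ((SUML_r a U, U a) :
        Vec M k × Finset (Fin M))) (D : Set (Fin k → Finset (Fin M))) := by
      intro U hU V hV h
      have hU' := (mem_filter.1 hU).2.1
      have hV' := (mem_filter.1 hV).2.1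
      simp only [Prod.mk.injEq] at h
      funext i
      by_cases hi : i = a
      · rw [hi]
        exact h.2
      · have e1 := SUML_filter a U hU' i
        have e2 := SUML_filter a V hV' i
        rw [if_neg hi] at e1 e2
        rw [← e1, ← e2, h.1]
    calc ∑ U ∈ D, full U * (1 - 2 * e - 2 * x - (k + 4) * aa U) * G ^ 4
        ≤ ∑ U ∈ D, SUML_mu P f (U a) * T (SUML_r a U) := sum_le_sum hr
      _ = ∑ x ∈ D.image (fun U : Fin k → Finset (Fin M) => ((SUML_r a U, U a) :
        Vec M k × Finset (Fin M))), SUML_mu P f x.2 * T x.1 := by rw [sum_image hinjD]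
      _ ≤ ∑ x : Vec M k × Finset (Fin M), SUML_mu P f x.2 * T x.1 :=
          sum_le_sum_of_subset_of_nonneg (subset_univ _) fun x _ _ =>
            mul_nonneg (SUML_mu_nonneg P hP f hf0 _) (hT0 _)
      _ = G2 * ∑ r, T r := by
          rw [Fintype.sum_prod_type, mul_sum]
          refine sum_congr rfl fun r _ => ?_
          change ∑ V : Finset (Fin M), SUML_mu P f V * T r = G2 * T r
          rw [← sum_mul]
          rfl
  -- the sum over good tuples
  have htot : ∑ U, full U = W := by rw [← hW]; exact ELO_total w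
  have hcardk : ((Fintype.card (Fin k) : ℕ) : ℝ) = k := by rw [Fintype.card_fin]
  have hDsum : W * (1 - (k : ℝ) ^ 2 * x - Q) ≤ ∑ U ∈ D, full U := by
    set N1 := (univ : Finset (Fin k → Finset (Fin M))).filter
      (fun U => ∃ i l, i ≠ l ∧ ∃ j, j ∈ U i ∧ j ∈ U l) with hN1
    set N2 := (univ : Finset (Fin k → Finset (Fin M))).filter
      (fun U => Real.log Z' < ∑ i ∈ ({b} : Finset (Fin k))ᶜ, Real.log (pr P (U i))) with hN2
    have hcov : (univ : Finset (Fin k → Finset (Fin M))) ⊆ D ∪ (N1 ∪ N2) := by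
      intro U _
      by_cases hU1 : U ∈ N1
      · exact mem_union_right _ (mem_union_left _ hU1)
      by_cases hU2 : U ∈ N2
      · exact mem_union_right _ (mem_union_right _ hU2)
      refine mem_union_left _ (mem_filter.2 ⟨mem_univ _, ?_, ?_⟩)
      · intro i l j hi hl hji hjl
        by_contra hil
        exact hU1 (mem_filter.2 ⟨mem_univ _, i, l, hil, j, hji, hjl⟩)
      · have hU2' : ¬ Real.log Z' < ∑ i ∈ ({b} : Finset (Fin k))ᶜ, Real.log (pr P (U i)) :=
          fun h => hU2 (mem_filter.2 ⟨mem_univ _, h⟩)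
        push Not at hU2'
        have hpos : ∀ i, (0 : ℝ) < pr P (U i) := fun i => by linarith [hprpos (U i)]
        have h3 : Real.log (∏ i ∈ ({b} : Finset (Fin k))ᶜ, (pr P (U i) : ℝ)) ≤ Real.log Z' := by
          rw [Real.log_prod (fun i _ => (hpos i).ne')]
          exact hU2'
        exact (Real.log_le_log_iff (prod_pos fun i _ => hpos i) (by linarith)).1 h3
    have hle : ∑ U, full U ≤ ∑ U ∈ D, full U + (∑ U ∈ N1, full U + ∑ U ∈ N2, full U) := by
      calc ∑ U, full U ≤ ∑ U ∈ D ∪ (N1 ∪ N2), full U :=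
            sum_le_sum_of_subset_of_nonneg hcov fun U _ _ => hfull0 U
        _ ≤ ∑ U ∈ D, full U + ∑ U ∈ N1 ∪ N2, full U := by
            have := sum_union_inter (s₁ := D) (s₂ := N1 ∪ N2) (f := full)
            have h0 : 0 ≤ ∑ U ∈ D ∩ (N1 ∪ N2), full U := sum_nonneg fun U _ => hfull0 U
            linarith
        _ ≤ ∑ U ∈ D, full U + (∑ U ∈ N1, full U + ∑ U ∈ N2, full U) := by
            have := sum_union_inter (s₁ := N1) (s₂ := N2) (f := full)
            have h0 : 0 ≤ ∑ U ∈ N1 ∩ N2, full U := sum_nonneg fun U _ => hfull0 U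
            linarith
    have hb1 : ∑ U ∈ N1, full U ≤ (k : ℝ) ^ 2 * x * W := by
      have := ELO_nondisj (al P) hα w hwd
      rw [hW, hcardk] at this
      refine le_trans (le_of_eq ?_) this
      rw [hN1]
      refine sum_congr ?_ fun U _ => rfl
      ext U
      simp only [mem_filter, mem_univ, true_and]
    have hb2 : ∑ U ∈ N2, full U ≤ W * Q :=
      ELO_big P hP g hg' Z' hZ' h1 hG2 b wb hwbd.1
    rw [htot] at hle
    nlinarith
  have hα2 : ∑ U ∈ D, full U * aa U ≤ k * x * W := by
    have h2 := ELO_alpha (al P) hα w hwd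
    rw [hW, hcardk] at h2
    refine le_trans ?_ h2
    exact sum_le_sum_of_subset_of_nonneg (subset_univ _) fun U _ _ =>
      mul_nonneg (hfull0 U) (sum_nonneg fun i _ => sum_nonneg fun j _ => hα j)
  have hDle : ∑ U ∈ D, full U ≤ W := by
    rw [← htot]
    exact sum_le_sum_of_subset_of_nonneg (subset_univ _) fun U _ _ => hfull0 U
  have hexp : ∑ U ∈ D, full U * (1 - 2 * e - 2 * x - (k + 4) * aa U) * G ^ 4 =
      G ^ 4 * ((1 - 2 * e - 2 * x) * ∑ U ∈ D, full U - (k + 4) * ∑ U ∈ D, full U * aa U) := by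
    rw [mul_sum, mul_sum, ← sum_sub_distrib, mul_sum]
    exact sum_congr rfl fun U _ => by ring
  rw [hexp] at hstep1
  have hfin : G ^ 4 * (W * (1 - 2 * e - 2 * x - (k : ℝ) ^ 2 * x - (k + 4) * (k * x) - Q)) ≤
      G2 * ∑ r, T r := by
    refine le_trans (mul_le_mul_of_nonneg_left ?_ (by positivity)) hstep1
    have h5 : (2 * e + 2 * x) * ∑ U ∈ D, full U ≤ (2 * e + 2 * x) * W :=
      mul_le_mul_of_nonneg_left hDle (by positivity)
    have h6 : ((k : ℝ) + 4) * ∑ U ∈ D, full U * aa U ≤ (k + 4) * (k * x * W) :=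
      mul_le_mul_of_nonneg_left hα2 (by positivity)
    nlinarith
  -- the numerical error
  have herr : 2 * e + 2 * x + (k : ℝ) ^ 2 * x + (k + 4) * (k * x) ≤
      Real.exp (100 * k ^ 2 * x) - 1 := by
    have h2 : 1 + 2 * e ≤ Real.exp (6 * k * x) := by
      have : Real.exp (6 * k * x) = Real.exp (3 * k * x) ^ 2 := by
        rw [← Real.exp_nat_mul]; congr 1; push_cast; ring
      rw [this, show Real.exp (3 * k * x) = 1 + e by rw [he]; ring]
      nlinarith [sq_nonneg e]
    have h3 : 1 + (2 * x + (k : ℝ) ^ 2 * x + (k + 4) * (k * x)) ≤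
        Real.exp (2 * x + (k : ℝ) ^ 2 * x + (k + 4) * (k * x)) := by
      have := Real.add_one_le_exp (2 * x + (k : ℝ) ^ 2 * x + (k + 4) * (k * x))
      linarith
    have h4 : (1 + 2 * e) * (1 + (2 * x + (k : ℝ) ^ 2 * x + (k + 4) * (k * x))) ≤
        Real.exp (6 * k * x) * Real.exp (2 * x + (k : ℝ) ^ 2 * x + (k + 4) * (k * x)) :=
      mul_le_mul h2 h3 (by positivity) (by positivity)
    rw [← Real.exp_add] at h4
    have h5 : 6 * k * x + (2 * x + (k : ℝ) ^ 2 * x + (k + 4) * (k * x)) ≤ 100 * k ^ 2 * x := by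
      have : 6 * (k : ℝ) + (2 + k ^ 2 + (k + 4) * k) ≤ 100 * k ^ 2 := by nlinarith
      have := mul_le_mul_of_nonneg_right this hx0
      linarith
    have h6 := Real.exp_le_exp.2 h5
    have h7 : 0 ≤ 2 * e * (2 * x + (k : ℝ) ^ 2 * x + (k + 4) * (k * x)) := by positivity
    linarith
  have hWe : W = G2 * (Sω * G2 ^ (k - 2)) := by
    rw [hWdef, show k - 1 = (k - 2) + 1 by omega, pow_succ]
    ring
  have h7 : G2 * (Sω * (G ^ 4 * G2 ^ (k - 2)) *
      (1 - (Real.exp (100 * k ^ 2 * x) - 1) - Q)) ≤ G2 * ∑ r, T r := by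
    refine le_trans ?_ hfin
    rw [hWe]
    have h8 : 1 - (Real.exp (100 * k ^ 2 * x) - 1) - Q ≤
        1 - 2 * e - 2 * x - (k : ℝ) ^ 2 * x - (k + 4) * (k * x) - Q := by linarith
    have h9 : 0 ≤ G ^ 4 * (G2 * (Sω * G2 ^ (k - 2))) := by positivity
    calc _ = G ^ 4 * (G2 * (Sω * G2 ^ (k - 2))) *
          (1 - (Real.exp (100 * k ^ 2 * x) - 1) - Q) := by ring
      _ ≤ G ^ 4 * (G2 * (Sω * G2 ^ (k - 2))) *
          (1 - 2 * e - 2 * x - (k : ℝ) ^ 2 * x - (k + 4) * (k * x) - Q) :=
          mul_le_mul_of_nonneg_left h8 h9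
      _ = _ := by ring
  exact le_of_mul_le_mul_left h7 hG2

end Pool.Agent.BG4
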