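import Pool.Agent.Lib_helper23.BG4F.CNTI4
import Pool.Agent.Lib_helper23.BGF.ERRSIZE
/-! Block ERR4 (`err_sum_mod`) -/

set_option autoImplicit false

namespace Pool.Agent.BG4

open Finset Filter Pool.Agent.BG
open scoped Classical

variable {M k : ℕ}

/-- one modulus -/
theorem err4_one (P : Fin M → ℕ) (hP : ∀ j, (P j).Prime) (hinj : Function.Injective P)
    (V : ℕ) (E : ℕ) (hE : 1 ≤ E) (B Z : ℝ) (hB : 0 ≤ B) (hZ1 : 1 ≤ Z) (c : Vec M k → ℝ)
    (hc : ∀ x, |c x| ≤ B * (E : ℝ) ^ sc x)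
    (hZ : ∀ x, c x ≠ 0 → (dv P x : ℝ) ≤ Z ∧ Nat.Coprime (dv P x) V)
    (F : ℕ → ℝ) (hF : ∀ q, 0 ≤ F q) :
    ∑ x, ∑ y, |c x| * |c y| * F (V * dv2 P x y) ≤
      B ^ 2 * ∑ d ∈ (sqf (Z ^ 2)).filter (fun d => Nat.Coprime d V),
        ((((k + 1) ^ 2 * E ^ 2 : ℕ) : ℝ)) ^ d.primeFactors.card * F (V * d) := by
  have h1 := err_sum P hP hinj 1 squarefree_one (fun j => Nat.coprime_one_right (P j)) E hE B Z
    hB hZ1 c hc (fun x hx => (hZ x hx).1) (fun d => if Nat.Coprime d V then F (V * d) else 0)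
    (fun d => by
      show 0 ≤ (if Nat.Coprime d V then F (V * d) else 0)
      split_ifs
      · exact hF _
      · exact le_rfl)
  simp only [one_mul, Nat.cast_one] at h1
  refine le_trans (le_of_eq ?_) (h1.trans (le_of_eq ?_))
  · refine Finset.sum_congr rfl fun x _ => Finset.sum_congr rfl fun y _ => ?_
    by_cases hx : c x = 0
    · simp [hx]
    by_cases hy : c y = 0
    · simp [hy]
    rw [if_pos (cnti4_cop P x y V (hZ x hx).2 (hZ y hy).2)]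
  · congr 1
    rw [Finset.sum_filter]
    refine Finset.sum_congr rfl fun d _ => ?_
    by_cases hd : Nat.Coprime d V <;> simp [hd]

theorem err_sum_mod (P : Fin M → ℕ) (hP : ∀ j, (P j).Prime) (hinj : Function.Injective P)
    (W : ℕ) (hW : Squarefree W) (E : ℕ) (hE : 1 ≤ E) {ι : Type} (T : Finset ι) (τ : ι → ℕ)
    (hτ : Set.InjOn τ T) (X B Z : ℝ) (hB : 0 ≤ B) (hZ1 : 1 ≤ Z)
    (hT : ∀ t ∈ T, Squarefree (τ t) ∧ Nat.Coprime (τ t) W ∧ (τ t : ℝ) ≤ X) (c : ι → Vec M k → ℝ)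
    (hc : ∀ t ∈ T, ∀ x, |c t x| ≤ B * (E : ℝ) ^ sc x)
    (hZ : ∀ t ∈ T, ∀ x, c t x ≠ 0 → (dv P x : ℝ) ≤ Z ∧ Nat.Coprime (dv P x) (W * τ t))
    (F : ℕ → ℝ) (hF : ∀ q, 0 ≤ F q) :
    ∑ t ∈ T, ∑ x, ∑ y, |c t x| * |c t y| * F (W * τ t * dv2 P x y) ≤
      B ^ 2 * ∑ q ∈ sqf (W * X * Z ^ 2),
        (((2 * (k + 1) ^ 2 * E ^ 2 : ℕ) : ℝ)) ^ q.primeFactors.card * F q := by
  have hW0 : 0 < W := Nat.pos_of_ne_zero hW.ne_zero
  set C : ℝ := (((k + 1) ^ 2 * E ^ 2 : ℕ) : ℝ) with hC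
  have hC1 : 1 ≤ C := by
    rw [hC]
    have : 1 ≤ (k + 1) ^ 2 * E ^ 2 := Nat.one_le_iff_ne_zero.mpr (by positivity)
    exact_mod_cast this
  have hC0 : 0 ≤ C := by linarith
  have h1 : ∀ t ∈ T, ∑ x, ∑ y, |c t x| * |c t y| * F (W * τ t * dv2 P x y) ≤
      B ^ 2 * ∑ d ∈ (sqf (Z ^ 2)).filter (fun d => Nat.Coprime d (W * τ t)),
        C ^ d.primeFactors.card * F (W * τ t * d) := fun t ht =>
    err4_one P hP hinj (W * τ t) E hE B Z hB hZ1 (c t) (hc t ht) (hZ t ht) F hF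
  refine (Finset.sum_le_sum h1).trans ?_
  rw [← Finset.mul_sum]
  refine mul_le_mul_of_nonneg_left ?_ (by positivity)
  -- the pairs
  set S : Finset (Σ _ : ι, ℕ) := T.sigma (fun t => (sqf (Z ^ 2)).filter
    (fun d => Nat.Coprime d (W * τ t))) with hS
  have h2 : ∑ t ∈ T, ∑ d ∈ (sqf (Z ^ 2)).filter (fun d => Nat.Coprime d (W * τ t)),
      C ^ d.primeFactors.card * F (W * τ t * d) =
      ∑ s ∈ S, C ^ s.2.primeFactors.card * F (W * τ s.1 * s.2) := by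
    rw [hS, Finset.sum_sigma]
  rw [h2]
  have hmem : ∀ s ∈ S, s.1 ∈ T ∧ s.2 ∈ sqf (Z ^ 2) ∧ Nat.Coprime s.2 (W * τ s.1) := by
    intro s hs
    rw [hS, Finset.mem_sigma, Finset.mem_filter] at hs
    exact ⟨hs.1, hs.2.1, hs.2.2⟩
  have hsq : ∀ d ∈ sqf (Z ^ 2), 1 ≤ d ∧ (d : ℝ) ≤ Z ^ 2 ∧ Squarefree d := by
    intro d hd
    unfold sqf at hd
    rw [Finset.mem_filter, Finset.mem_Icc] at hd
    refine ⟨hd.1.1, ?_, hd.2⟩
    exact (Nat.le_floor_iff (by positivity)).1 hd.1.2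
  have hmaps : ∀ s ∈ S, W * τ s.1 * s.2 ∈ sqf (W * X * Z ^ 2) := by
    intro s hs
    obtain ⟨ht, hd, hcop⟩ := hmem s hs
    obtain ⟨d1, d2, d3⟩ := hsq _ hd
    obtain ⟨t1, t2, t3⟩ := hT _ ht
    have ht0 : 0 < τ s.1 := Nat.pos_of_ne_zero t1.ne_zero
    unfold sqf
    rw [Finset.mem_filter, Finset.mem_Icc]
    refine ⟨⟨?_, ?_⟩, ?_⟩
    · exact Nat.mul_pos (Nat.mul_pos hW0 ht0) d1
    · apply Nat.le_floor
      push_cast
      have e1 : (0 : ℝ) ≤ W := Nat.cast_nonneg _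
      have e2 : (W : ℝ) * τ s.1 ≤ W * X := mul_le_mul_of_nonneg_left t3 e1
      have e3 : (0 : ℝ) ≤ W * X := le_trans (by positivity) e2
      exact mul_le_mul e2 d2 (Nat.cast_nonneg _) e3
    · have hWt : Squarefree (W * τ s.1) := (Nat.squarefree_mul t2.symm).mpr ⟨hW, t1⟩
      exact (Nat.squarefree_mul hcop.symm).mpr ⟨hWt, d3⟩
  rw [← Finset.sum_fiberwise_of_maps_to hmaps]
  refine Finset.sum_le_sum fun q hq => ?_
  have hq' : Squarefree q := by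
    unfold sqf at hq
    exact (Finset.mem_filter.1 hq).2
  have h3 : ∑ s ∈ S.filter (fun s => W * τ s.1 * s.2 = q), C ^ s.2.primeFactors.card *
      F (W * τ s.1 * s.2) ≤
      ∑ s ∈ S.filter (fun s => W * τ s.1 * s.2 = q), C ^ q.primeFactors.card * F q := by
    refine Finset.sum_le_sum fun s hs => ?_
    obtain ⟨hs1, hs2⟩ := Finset.mem_filter.1 hs
    rw [hs2]
    refine mul_le_mul_of_nonneg_right ?_ (hF _)
    refine pow_le_pow_right₀ hC1 (Finset.card_le_card ?_)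
    refine Nat.primeFactors_mono ?_ hq'.ne_zero
    rw [← hs2]
    exact dvd_mul_left _ _
  refine h3.trans ?_
  rw [Finset.sum_const, nsmul_eq_mul]
  have h4 : (S.filter (fun s => W * τ s.1 * s.2 = q)).card ≤ 2 ^ q.primeFactors.card := by
    have h5 : q.divisors.card ≤ 2 ^ q.primeFactors.card := by
      rw [Nat.card_divisors hq'.ne_zero, ← Finset.prod_const]
      refine Finset.prod_le_prod' fun p _ => ?_
      have := hq'.natFactorization_le_one p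
      omega
    refine le_trans ?_ h5
    refine Finset.card_le_card_of_injOn (fun s => τ s.1) ?_ ?_
    · intro s hs
      obtain ⟨hs1, hs2⟩ := Finset.mem_filter.1 (Finset.mem_coe.1 hs)
      show τ s.1 ∈ (q.divisors : Set ℕ)
      rw [Finset.mem_coe, Nat.mem_divisors]
      refine ⟨?_, hq'.ne_zero⟩
      rw [← hs2]
      exact Dvd.dvd.mul_right (dvd_mul_left _ _) _
    · rintro ⟨t, d⟩ hs ⟨t', d'⟩ hs' heq
      obtain ⟨hs1, hs2⟩ := Finset.mem_filter.1 (Finset.mem_coe.1 hs)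
      obtain ⟨hs1', hs2'⟩ := Finset.mem_filter.1 (Finset.mem_coe.1 hs')
      have ht := (hmem _ hs1).1
      have ht' := (hmem _ hs1').1
      have e1 : t = t' := hτ ht ht' heq
      subst e1
      have ht0 : 0 < W * τ t :=
        Nat.mul_pos hW0 (Nat.pos_of_ne_zero (hT _ ht).1.ne_zero)
      have e2 : d = d' := by
        have : W * τ t * d = W * τ t * d' := hs2.trans hs2'.symm
        exact Nat.eq_of_mul_eq_mul_left ht0 this
      rw [e2]
  have h6 : ((S.filter (fun s => W * τ s.1 * s.2 = q)).card : ℝ) ≤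
      2 ^ q.primeFactors.card := by exact_mod_cast h4
  have h7 : (((2 * (k + 1) ^ 2 * E ^ 2 : ℕ) : ℝ)) ^ q.primeFactors.card =
      2 ^ q.primeFactors.card * C ^ q.primeFactors.card := by
    rw [← mul_pow, hC]
    push_cast
    ring
  rw [h7, mul_assoc]
  exact mul_le_mul_of_nonneg_right h6 (mul_nonneg (by positivity) (hF _))

end Pool.Agent.BG4
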