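import Pool.Agent.Lib_helper23.BG4.Defs
import Pool.Agent.Lib_helper23.BGF.VAS
set_option autoImplicit false

namespace Pool.Agent.BG4

open Finset Filter Pool.Agent.BG
open scoped Classical

variable {M k : ℕ}

/-- squarefree numbers up to `x`, coprime to `W` -/
noncomputable def G2D_S (W : ℕ) (x : ℝ) : Finset ℕ := (sqf x).filter (fun a => Nat.Coprime a W)

theorem G2D_mem (W : ℕ) (x : ℝ) (a : ℕ) :
    a ∈ G2D_S W x ↔ 1 ≤ a ∧ (a : ℝ) ≤ x ∧ Squarefree a ∧ Nat.Coprime a W := by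
  unfold G2D_S
  rw [mem_filter, VAS_mem_sqf]
  tauto

/-- `∑ μ²(a)/a` -/
noncomputable def G2D_V (W : ℕ) (x : ℝ) : ℝ := ∑ a ∈ G2D_S W x, 1 / (a : ℝ)

theorem G2D_V_nonneg (W : ℕ) (x : ℝ) : 0 ≤ G2D_V W x := by
  unfold G2D_V
  positivity

/-! ### the sum over vectors -/

theorem G2D_prod (P : Fin M → ℕ) (W N : ℕ) (hE : Enum P W N) (x : ℝ) (hx : x ≤ N) (a : ℕ)
    (ha : a ∈ G2D_S W x) : ∏ j, (if P j ∣ a then P j else 1) = a := by
  have hP : ∀ j, (P j).Prime := fun j => ((hE.2 (P j)).mp ⟨j, rfl⟩).1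
  have hinj := hE.1
  rw [G2D_mem] at ha
  obtain ⟨ha1, hax, hasq, hcop⟩ := ha
  rw [← Finset.prod_filter]
  have h2 : ∏ j ∈ univ.filter (fun j => P j ∣ a), P j
      = ∏ p ∈ (univ.filter (fun j => P j ∣ a)).image P, p := by
    rw [Finset.prod_image (fun a _ b _ hab => hinj hab)]
  rw [h2]
  have h3 : (univ.filter (fun j => P j ∣ a)).image P = a.primeFactors := by
    ext p
    rw [mem_image, Nat.mem_primeFactors]
    constructor
    · rintro ⟨j, hj, rfl⟩
      rw [mem_filter] at hj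
      exact ⟨hP j, hj.2, by omega⟩
    · rintro ⟨hp, hpa, -⟩
      have hpN : p ≤ N := by
        have h4 : (p : ℝ) ≤ N := by
          have : p ≤ a := Nat.le_of_dvd (by omega) hpa
          have : (p : ℝ) ≤ a := by exact_mod_cast this
          linarith
        exact_mod_cast h4
      have hpW : ¬ p ∣ W := by
        intro h
        exact hp.one_lt.ne' (Nat.dvd_one.mp (hcop ▸ Nat.dvd_gcd hpa h))
      obtain ⟨j, hj⟩ := (hE.2 p).mpr ⟨hp, hpN, hpW⟩
      refine ⟨j, ?_, hj⟩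
      rw [mem_filter, hj]
      exact ⟨mem_univ _, hpa⟩
  rw [h3]
  exact Nat.prod_primeFactors_of_squarefree hasq

/-- the pairs -/
noncomputable def G2D_pairs (W : ℕ) (R : ℝ) : Finset (ℕ × ℕ) :=
  (G2D_S W R ×ˢ G2D_S W R).filter (fun x => ((x.1 * x.2 : ℕ) : ℝ) ≤ R)

/-- the vector of a pair -/
noncomputable def G2D_vec (P : Fin M → ℕ) (a b : Fin k) (x : ℕ × ℕ) : Vec M k :=
  fun j => if P j ∣ x.1 then some a else if P j ∣ x.2 then some b else none

theorem G2D_GS (P : Fin M → ℕ) (W N : ℕ) (hE : Enum P W N) (R : ℝ) (hR : R ≤ N) (a b : Fin k)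
    (hab : a ≠ b) :
    ∑ x ∈ (G2D_pairs W R).filter (fun x => x.1.Coprime x.2), 1 / ((x.1 : ℝ) * x.2) ≤
      GS P {a, b} (fun j => 1 / (P j : ℝ)) (f1 R) := by
  have hP : ∀ j, (P j).Prime := fun j => ((hE.2 (P j)).mp ⟨j, rfl⟩).1
  have hinj := hE.1
  have hnd : ∀ x ∈ (G2D_pairs W R).filter (fun x => x.1.Coprime x.2), ∀ j, P j ∣ x.1 →
      ¬ P j ∣ x.2 := by
    intro x hx j h1 h2
    have hc := (mem_filter.mp hx).2
    exact (hP j).one_lt.ne' (Nat.dvd_one.mp (hc ▸ Nat.dvd_gcd h1 h2))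
  have hmem : ∀ x ∈ (G2D_pairs W R).filter (fun x => x.1.Coprime x.2), x.1 ∈ G2D_S W R ∧
      x.2 ∈ G2D_S W R ∧ ((x.1 * x.2 : ℕ) : ℝ) ≤ R := by
    intro x hx
    have h1 := (mem_filter.mp hx).1
    unfold G2D_pairs at h1
    rw [mem_filter, mem_product] at h1
    exact ⟨h1.1.1, h1.1.2, h1.2⟩
  have hdv : ∀ x ∈ (G2D_pairs W R).filter (fun x => x.1.Coprime x.2),
      dv P (G2D_vec P a b x) = x.1 * x.2 := by
    intro x hx
    obtain ⟨h1, h2, -⟩ := hmem x hx
    have e1 := G2D_prod P W N hE R hR x.1 h1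
    have e2 := G2D_prod P W N hE R hR x.2 h2
    unfold dv
    calc ∏ j, (if G2D_vec P a b x j = none then 1 else P j)
        = ∏ j, ((if P j ∣ x.1 then P j else 1) * (if P j ∣ x.2 then P j else 1)) := by
          apply prod_congr rfl
          intro j _
          unfold G2D_vec
          by_cases h3 : P j ∣ x.1
          · have h4 := hnd x hx j h3
            simp [h3, h4]
          · by_cases h4 : P j ∣ x.2
            · simp [h3, h4]
            · simp [h3, h4]
      _ = x.1 * x.2 := by rw [Finset.prod_mul_distrib, e1, e2]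
  have hgw : ∀ x ∈ (G2D_pairs W R).filter (fun x => x.1.Coprime x.2),
      gw (fun j => 1 / (P j : ℝ)) (G2D_vec P a b x) = 1 / ((x.1 : ℝ) * x.2) := by
    intro x hx
    have e3 := hdv x hx
    have e4 : ((x.1 : ℝ) * x.2) = ((dv P (G2D_vec P a b x) : ℕ) : ℝ) := by
      rw [e3]
      push_cast
      ring
    rw [e4]
    unfold gw dv
    push_cast
    rw [one_div, ← Finset.prod_inv_distrib]
    apply prod_congr rfl
    intro j _
    cases hj : G2D_vec P a b x j with
    | none => simp [om]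
    | some i => simp [om]
  have hom : ∀ x ∈ (G2D_pairs W R).filter (fun x => x.1.Coprime x.2),
      omf P {a, b} (f1 R) (G2D_vec P a b x) = 1 := by
    intro x hx
    have hv : Vals ({a, b} : Finset (Fin k)) (G2D_vec P a b x) := by
      intro j i hi
      unfold G2D_vec at hi
      rw [mem_insert, mem_singleton]
      by_cases h3 : P j ∣ x.1
      · left
        simpa [h3] using hi.symm
      · by_cases h4 : P j ∣ x.2
        · right
          simpa [h3, h4] using hi.symm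
        · simp [h3, h4] at hi
    unfold omf f1
    rw [if_pos hv, if_pos]
    rw [hdv x hx]
    exact (hmem x hx).2.2
  have hsinj : Set.InjOn (G2D_vec P a b)
      ((G2D_pairs W R).filter (fun x => x.1.Coprime x.2) : Finset (ℕ × ℕ)) := by
    intro x hx x' hx' hxx
    rw [Finset.mem_coe] at hx hx'
    have key : ∀ y ∈ (G2D_pairs W R).filter (fun x => x.1.Coprime x.2), ∀ j,
        (P j ∣ y.1 ↔ G2D_vec P a b y j = some a) ∧ (P j ∣ y.2 ↔ G2D_vec P a b y j = some b) := by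
      intro y hy j
      unfold G2D_vec
      by_cases h3 : P j ∣ y.1
      · have h4 := hnd y hy j h3
        simp [h3, h4, hab]
      · by_cases h4 : P j ∣ y.2
        · simp [h3, h4, Ne.symm hab]
        · simp [h3, h4]
    obtain ⟨h1, h2, -⟩ := hmem x hx
    obtain ⟨h1', h2', -⟩ := hmem x' hx'
    have e1 : x.1 = x'.1 := by
      rw [← G2D_prod P W N hE R hR x.1 h1, ← G2D_prod P W N hE R hR x'.1 h1']
      apply prod_congr rfl
      intro j _
      have h5 : (P j ∣ x.1) ↔ (P j ∣ x'.1) := by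
        rw [(key x hx j).1, (key x' hx' j).1, hxx]
      by_cases h6 : P j ∣ x.1
      · rw [if_pos h6, if_pos (h5.mp h6)]
      · rw [if_neg h6, if_neg (fun h => h6 (h5.mpr h))]
    have e2 : x.2 = x'.2 := by
      rw [← G2D_prod P W N hE R hR x.2 h2, ← G2D_prod P W N hE R hR x'.2 h2']
      apply prod_congr rfl
      intro j _
      have h5 : (P j ∣ x.2) ↔ (P j ∣ x'.2) := by
        rw [(key x hx j).2, (key x' hx' j).2, hxx]
      by_cases h6 : P j ∣ x.2
      · rw [if_pos h6, if_pos (h5.mp h6)]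
      · rw [if_neg h6, if_neg (fun h => h6 (h5.mpr h))]
    exact Prod.ext e1 e2
  unfold GS
  calc ∑ x ∈ (G2D_pairs W R).filter (fun x => x.1.Coprime x.2), 1 / ((x.1 : ℝ) * x.2)
      = ∑ x ∈ (G2D_pairs W R).filter (fun x => x.1.Coprime x.2),
          omf P {a, b} (f1 R) (G2D_vec P a b x) *
            gw (fun j => 1 / (P j : ℝ)) (G2D_vec P a b x) := by
        apply sum_congr rfl
        intro x hx
        rw [hom x hx, hgw x hx, one_mul]
    _ = ∑ y ∈ ((G2D_pairs W R).filter (fun x => x.1.Coprime x.2)).image (G2D_vec P a b),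
          omf P {a, b} (f1 R) y * gw (fun j => 1 / (P j : ℝ)) y := by
        rw [Finset.sum_image hsinj]
    _ ≤ ∑ y : Vec M k, omf P {a, b} (f1 R) y * gw (fun j => 1 / (P j : ℝ)) y := by
        apply Finset.sum_le_sum_of_subset_of_nonneg (Finset.subset_univ _)
        intro y _ _
        apply mul_nonneg
        · unfold omf f1
          split_ifs <;> norm_num
        · unfold gw
          apply prod_nonneg
          intro j _
          cases y j with
          | none => simp [om]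
          | some i => simp [om]

/-! ### the sum `V` -/

theorem G2D_V_upper (W : ℕ) (hW : 0 < W) (x : ℝ) (hx : 1 ≤ x) :
    G2D_V W x ≤ VAS_H W ⌊x⌋₊ := by
  unfold G2D_V VAS_H
  apply Finset.sum_le_sum_of_subset_of_nonneg
  · intro a ha
    rw [G2D_mem] at ha
    rw [mem_filter, mem_Icc]
    exact ⟨⟨ha.1, (Nat.le_floor_iff' (by omega)).mpr ha.2.1⟩, ha.2.2.2⟩
  · intro i _ _
    positivity

theorem G2D_V_lower (W : ℕ) (x : ℝ) (δ : ℝ)
    (hT : ∑ p ∈ VAS_T W ⌊x⌋₊, 1 / ((p : ℝ) - 1) ^ 2 ≤ δ) :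
    (1 - δ) * VAS_H W ⌊x⌋₊ ≤ G2D_V W x := by
  set n := ⌊x⌋₊ with hn
  have hH := VAS_H_nonneg W n
  -- squarefree part
  have hsplit : VAS_H W n = ∑ m ∈ ((Icc 1 n).filter (fun m => m.Coprime W)).filter
        (fun m => Squarefree m), 1 / (m : ℝ) +
      ∑ m ∈ ((Icc 1 n).filter (fun m => m.Coprime W)).filter
        (fun m => ¬ Squarefree m), 1 / (m : ℝ) := by
    unfold VAS_H
    rw [Finset.sum_filter_add_sum_filter_not]
  have h1 : ∑ m ∈ ((Icc 1 n).filter (fun m => m.Coprime W)).filter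
        (fun m => ¬ Squarefree m), 1 / (m : ℝ) ≤ δ * VAS_H W n := by
    calc ∑ m ∈ ((Icc 1 n).filter (fun m => m.Coprime W)).filter
          (fun m => ¬ Squarefree m), 1 / (m : ℝ)
        ≤ ∑ m ∈ ((Icc 1 n).filter (fun m => m.Coprime W)).filter (fun m => ¬ Squarefree m),
            ∑ p ∈ VAS_T W n, (if p * p ∣ m then 1 / (m : ℝ) else 0) := by
          apply sum_le_sum
          intro m hm
          rw [mem_filter, mem_filter, mem_Icc] at hm
          obtain ⟨⟨⟨h1, h2⟩, h3⟩, h4⟩ := hm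
          rw [Nat.squarefree_iff_prime_squarefree] at h4
          push Not at h4
          obtain ⟨p, hp, hpm⟩ := h4
          have hpT : p ∈ VAS_T W n := by
            unfold VAS_T
            rw [mem_filter, mem_Icc]
            have hpd : p ∣ m := (Dvd.intro _ rfl).trans hpm
            refine ⟨⟨hp.one_le, (Nat.le_of_dvd (by omega) hpd).trans h2⟩, hp, ?_⟩
            intro h
            exact hp.one_lt.ne' (Nat.dvd_one.mp (h3 ▸ Nat.dvd_gcd hpd h))
          have h5 := Finset.single_le_sum (f := fun p => (if p * p ∣ m then 1 / (m : ℝ) else 0))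
            (fun i _ => by positivity) hpT
          simpa [hpm] using h5
      _ ≤ ∑ m ∈ ((Icc 1 n).filter (fun m => m.Coprime W)),
            ∑ p ∈ VAS_T W n, (if p * p ∣ m then 1 / (m : ℝ) else 0) := by
          apply Finset.sum_le_sum_of_subset_of_nonneg (Finset.filter_subset _ _)
          intro i _ _
          exact Finset.sum_nonneg (fun p _ => by positivity)
      _ = ∑ p ∈ VAS_T W n, ∑ m ∈ ((Icc 1 n).filter (fun m => m.Coprime W)).filter
            (fun m => p * p ∣ m), 1 / (m : ℝ) := by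
          rw [sum_comm]
          apply sum_congr rfl
          intro p _
          rw [← Finset.sum_filter]
      _ ≤ ∑ p ∈ VAS_T W n, 1 / ((p : ℝ) - 1) ^ 2 * VAS_H W n := by
          apply sum_le_sum
          intro p hp
          unfold VAS_T at hp
          rw [mem_filter] at hp
          have hp2 : (2 : ℝ) ≤ p := by exact_mod_cast hp.2.1.two_le
          refine (VAS_mult W n (p * p) (Nat.mul_pos hp.2.1.pos hp.2.1.pos)).trans ?_
          apply mul_le_mul_of_nonneg_right _ hH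
          apply one_div_le_one_div_of_le
          · have : 0 < (p : ℝ) - 1 := by linarith
            positivity
          · push_cast
            nlinarith
      _ = (∑ p ∈ VAS_T W n, 1 / ((p : ℝ) - 1) ^ 2) * VAS_H W n := by rw [sum_mul]
      _ ≤ δ * VAS_H W n := mul_le_mul_of_nonneg_right hT hH
  have h2 : ∑ m ∈ ((Icc 1 n).filter (fun m => m.Coprime W)).filter
        (fun m => Squarefree m), 1 / (m : ℝ) ≤ G2D_V W x := by
    unfold G2D_V
    have hset : ((Icc 1 n).filter (fun m => m.Coprime W)).filter (fun m => Squarefree m)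
        = G2D_S W x := by
      ext m
      unfold G2D_S sqf
      simp only [mem_filter, hn]
      tauto
    rw [hset]
  linarith

/-! ### the two sums -/

theorem G2D_noncop (W : ℕ) (R : ℝ) (hR : 1 ≤ R) (δ : ℝ)
    (hT : ∑ p ∈ VAS_T W ⌊R⌋₊, 1 / ((p : ℝ) - 1) ^ 2 ≤ δ) :
    ∑ x ∈ (G2D_pairs W R).filter (fun x => ¬ x.1.Coprime x.2), 1 / ((x.1 : ℝ) * x.2) ≤
      δ * VAS_H W ⌊R⌋₊ ^ 2 := by
  set n := ⌊R⌋₊ with hn
  have hH := VAS_H_nonneg W n
  set I := (Icc 1 n).filter (fun m => m.Coprime W) with hI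
  have hSI : ∀ a, a ∈ G2D_S W R → a ∈ I := by
    intro a ha
    rw [G2D_mem] at ha
    rw [hI, mem_filter, mem_Icc]
    exact ⟨⟨ha.1, (Nat.le_floor_iff' (by omega)).mpr ha.2.1⟩, ha.2.2.2⟩
  calc ∑ x ∈ (G2D_pairs W R).filter (fun x => ¬ x.1.Coprime x.2), 1 / ((x.1 : ℝ) * x.2)
      ≤ ∑ x ∈ (G2D_pairs W R).filter (fun x => ¬ x.1.Coprime x.2), ∑ p ∈ VAS_T W n,
          (if p ∣ x.1 ∧ p ∣ x.2 then 1 / ((x.1 : ℝ) * x.2) else 0) := by
        apply sum_le_sum
        intro x hx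
        rw [mem_filter] at hx
        obtain ⟨hx1, hx2⟩ := hx
        unfold G2D_pairs at hx1
        rw [mem_filter, mem_product] at hx1
        obtain ⟨p, hp, hp1, hp2⟩ := Nat.Prime.not_coprime_iff_dvd.mp hx2
        have hpT : p ∈ VAS_T W n := by
          have h3 := (G2D_mem W R x.1).mp hx1.1.1
          have h4 := hSI _ hx1.1.1
          rw [hI, mem_filter, mem_Icc] at h4
          unfold VAS_T
          rw [mem_filter, mem_Icc]
          refine ⟨⟨hp.one_le, (Nat.le_of_dvd (by omega) hp1).trans h4.1.2⟩, hp, ?_⟩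
          intro h
          exact hp.one_lt.ne' (Nat.dvd_one.mp (h4.2 ▸ Nat.dvd_gcd hp1 h))
        have h5 := Finset.single_le_sum
          (f := fun p => (if p ∣ x.1 ∧ p ∣ x.2 then 1 / ((x.1 : ℝ) * x.2) else 0))
          (fun i _ => by positivity) hpT
        simpa [hp1, hp2] using h5
    _ ≤ ∑ x ∈ I ×ˢ I, ∑ p ∈ VAS_T W n,
          (if p ∣ x.1 ∧ p ∣ x.2 then 1 / ((x.1 : ℝ) * x.2) else 0) := by
        apply Finset.sum_le_sum_of_subset_of_nonneg
        · intro x hx
          rw [mem_filter] at hx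
          obtain ⟨hx1, hx2⟩ := hx
          unfold G2D_pairs at hx1
          rw [mem_filter, mem_product] at hx1
          rw [mem_product]
          exact ⟨hSI _ hx1.1.1, hSI _ hx1.1.2⟩
        · intro x _ _
          exact Finset.sum_nonneg (fun p _ => by positivity)
    _ = ∑ p ∈ VAS_T W n, (∑ a ∈ I.filter (fun m => p ∣ m), 1 / (a : ℝ)) *
          (∑ b ∈ I.filter (fun m => p ∣ m), 1 / (b : ℝ)) := by
        rw [sum_comm]
        apply sum_congr rfl
        intro p _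
        rw [Finset.sum_mul_sum, ← Finset.sum_product', ← Finset.sum_filter]
        have hset : (I ×ˢ I).filter (fun x => p ∣ x.1 ∧ p ∣ x.2) =
            (I.filter (fun m => p ∣ m)) ×ˢ (I.filter (fun m => p ∣ m)) := by
          ext x
          simp only [mem_filter, mem_product]
          tauto
        rw [hset]
        apply sum_congr rfl
        intro x _
        rw [one_div_mul_one_div]
    _ ≤ ∑ p ∈ VAS_T W n, 1 / ((p : ℝ) - 1) ^ 2 * VAS_H W n ^ 2 := by
        apply sum_le_sum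
        intro p hp
        unfold VAS_T at hp
        rw [mem_filter] at hp
        have hp2 : (2 : ℝ) ≤ p := by exact_mod_cast hp.2.1.two_le
        have h1 := VAS_mult W n p hp.2.1.pos
        rw [← hI] at h1
        have h0 : 0 ≤ ∑ a ∈ I.filter (fun m => p ∣ m), 1 / (a : ℝ) := by positivity
        calc (∑ a ∈ I.filter (fun m => p ∣ m), 1 / (a : ℝ)) *
              (∑ b ∈ I.filter (fun m => p ∣ m), 1 / (b : ℝ))
            ≤ ((1 / (p : ℝ)) * VAS_H W n) * ((1 / (p : ℝ)) * VAS_H W n) :=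
              mul_le_mul h1 h1 h0 (by positivity)
          _ = (1 / (p : ℝ) ^ 2) * VAS_H W n ^ 2 := by
              field_simp
          _ ≤ 1 / ((p : ℝ) - 1) ^ 2 * VAS_H W n ^ 2 := by
              apply mul_le_mul_of_nonneg_right _ (by positivity)
              apply one_div_le_one_div_of_le
              · have : 0 < (p : ℝ) - 1 := by linarith
                positivity
              · nlinarith
    _ = (∑ p ∈ VAS_T W n, 1 / ((p : ℝ) - 1) ^ 2) * VAS_H W n ^ 2 := by rw [sum_mul]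
    _ ≤ δ * VAS_H W n ^ 2 := mul_le_mul_of_nonneg_right hT (by positivity)

theorem G2D_all (W : ℕ) (R : ℝ) :
    ∑ x ∈ G2D_pairs W R, 1 / ((x.1 : ℝ) * x.2) =
      ∑ a ∈ G2D_S W R, (1 / (a : ℝ)) * G2D_V W (R / a) := by
  unfold G2D_pairs
  rw [Finset.sum_filter, Finset.sum_product]
  apply sum_congr rfl
  intro a ha
  rw [G2D_mem] at ha
  have ha0 : (0 : ℝ) < a := by exact_mod_cast ha.1
  have ha1 : (1 : ℝ) ≤ a := by exact_mod_cast ha.1
  unfold G2D_V
  rw [mul_sum, ← Finset.sum_filter]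
  have hset : (G2D_S W R).filter (fun b => ((a * b : ℕ) : ℝ) ≤ R) = G2D_S W (R / a) := by
    ext b
    rw [mem_filter, G2D_mem, G2D_mem, le_div_iff₀ ha0]
    push_cast
    constructor
    · rintro ⟨⟨h1, h2, h3, h4⟩, h5⟩
      exact ⟨h1, by linarith, h3, h4⟩
    · rintro ⟨h1, h2, h3, h4⟩
      have hb : (1 : ℝ) ≤ b := by exact_mod_cast h1
      refine ⟨⟨h1, ?_, h3, h4⟩, by linarith⟩
      nlinarith
  rw [hset]
  apply sum_congr rfl
  intro b _
  rw [one_div_mul_one_div]

/-- the grid -/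
theorem G2D_grid (W : ℕ) (R : ℝ) (hR : 1 < R) (K : ℕ) (hK : 0 < K) :
    (Real.log R / K) * ∑ i ∈ range K, G2D_V W (R ^ ((i : ℝ) / K)) ≤
      ∑ a ∈ G2D_S W R, (1 / (a : ℝ)) * Real.log (R / a) := by
  have hR0 : 0 < R := by linarith
  have hL : 0 < Real.log R := Real.log_pos hR
  have hK0 : (0 : ℝ) < K := by exact_mod_cast hK
  have h1 : ∀ i ∈ range K, G2D_V W (R ^ ((i : ℝ) / K)) = ∑ a ∈ G2D_S W R,
      (if (a : ℝ) ≤ R ^ ((i : ℝ) / K) then 1 / (a : ℝ) else 0) := by
    intro i hi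
    rw [mem_range] at hi
    unfold G2D_V
    rw [← Finset.sum_filter]
    apply sum_congr _ (fun _ _ => rfl)
    ext a
    rw [mem_filter, G2D_mem, G2D_mem]
    constructor
    · rintro ⟨h1, h2, h3, h4⟩
      refine ⟨⟨h1, h2.trans ?_, h3, h4⟩, h2⟩
      nth_rewrite 2 [← Real.rpow_one R]
      apply Real.rpow_le_rpow_of_exponent_le hR.le
      rw [div_le_one hK0]
      exact_mod_cast hi.le
    · rintro ⟨⟨h1, h2, h3, h4⟩, h5⟩
      exact ⟨h1, h5, h3, h4⟩
  rw [Finset.sum_congr rfl h1, sum_comm, mul_sum]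
  apply sum_le_sum
  intro a ha
  rw [G2D_mem] at ha
  have ha0 : (0 : ℝ) < a := by exact_mod_cast ha.1
  have ha1 : (1 : ℝ) ≤ a := by exact_mod_cast ha.1
  rw [← Finset.sum_filter, sum_const, nsmul_eq_mul]
  have hcard : (((range K).filter (fun i : ℕ => (a : ℝ) ≤ R ^ ((i : ℝ) / K))).card : ℝ) *
      Real.log R ≤ K * Real.log (R / a) := by
    -- the indices are at least `K α`
    have h2 : (range K).filter (fun i : ℕ => (a : ℝ) ≤ R ^ ((i : ℝ) / K)) ⊆
        Ico ⌈K * Real.log a / Real.log R⌉₊ K := by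
      intro i hi
      rw [mem_filter, mem_range] at hi
      rw [mem_Ico]
      refine ⟨?_, hi.1⟩
      rw [Nat.ceil_le, div_le_iff₀ hL]
      have h3 := Real.log_le_log ha0 hi.2
      rw [Real.log_rpow hR0] at h3
      calc (K : ℝ) * Real.log a ≤ K * ((i : ℝ) / K * Real.log R) := by gcongr
        _ = i * Real.log R := by field_simp
    have h3 := Finset.card_le_card h2
    rw [Nat.card_Ico] at h3
    have hα : K * Real.log a / Real.log R ≤ K := by
      rw [div_le_iff₀ hL]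
      have : Real.log a ≤ Real.log R := Real.log_le_log ha0 ha.2.1
      gcongr
    have hce : ⌈K * Real.log a / Real.log R⌉₊ ≤ K := Nat.ceil_le.mpr hα
    have h4 : (((range K).filter (fun i : ℕ => (a : ℝ) ≤ R ^ ((i : ℝ) / K))).card : ℝ) ≤
        K - K * Real.log a / Real.log R := by
      have h5 : (((range K).filter (fun i : ℕ => (a : ℝ) ≤ R ^ ((i : ℝ) / K))).card : ℝ) ≤
          ((K - ⌈K * Real.log a / Real.log R⌉₊ : ℕ) : ℝ) := by exact_mod_cast h3
      rw [Nat.cast_sub hce] at h5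
      have h6 := Nat.le_ceil (K * Real.log a / Real.log R)
      linarith
    have h7 := mul_le_mul_of_nonneg_right h4 hL.le
    refine h7.trans (le_of_eq ?_)
    rw [Real.log_div hR0.ne' ha0.ne']
    field_simp
  calc Real.log R / K * ((((range K).filter
        (fun i : ℕ => (a : ℝ) ≤ R ^ ((i : ℝ) / K))).card : ℝ) * (1 / (a : ℝ)))
      = (1 / (a : ℝ)) * (1 / K) * ((((range K).filter
        (fun i : ℕ => (a : ℝ) ≤ R ^ ((i : ℝ) / K))).card : ℝ) * Real.log R) := by
        field_simp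
    _ ≤ (1 / (a : ℝ)) * (1 / K) * (K * Real.log (R / a)) := by gcongr
    _ = (1 / (a : ℝ)) * Real.log (R / a) := by field_simp

theorem G2D_core (W : ℕ) (hW : 0 < W) (R : ℝ) (hR : 1 < R) (K : ℕ) (hK : 0 < K) (δ : ℝ)
    (hδ : 0 < δ) (hδ1 : δ ≤ 1) (hT : ∀ x : ℝ, ∑ p ∈ VAS_T W ⌊x⌋₊, 1 / ((p : ℝ) - 1) ^ 2 ≤ δ) :
    ((W.totient : ℝ) / W) ^ 2 * ((1 - 2 * δ - 1 / K) / 2 * Real.log R ^ 2
        - 2 * Real.log W * (Real.log R + W + 1) - δ * (Real.log R + W + 1) ^ 2) ≤
      ∑ x ∈ (G2D_pairs W R).filter (fun x => x.1.Coprime x.2), 1 / ((x.1 : ℝ) * x.2) := by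
  have hR0 : 0 < R := by linarith
  have hL : 0 < Real.log R := Real.log_pos hR
  have hK0 : (0 : ℝ) < K := by exact_mod_cast hK
  have hK1 : (1 : ℝ) ≤ K := by exact_mod_cast hK
  have hW0 : (0 : ℝ) < W := by exact_mod_cast hW
  have hW1 : (1 : ℝ) ≤ W := by exact_mod_cast hW
  have hlW : 0 ≤ Real.log W := Real.log_nonneg hW1
  set L := Real.log R with hLdef
  set c := Real.log (W : ℝ) with hc
  set f := (W.totient : ℝ) / W with hf
  have hf0 : 0 < f := by
    rw [hf]
    have : (0 : ℝ) < W.totient := by exact_mod_cast Nat.totient_pos.mpr hW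
    positivity
  have hφ : (W.totient : ℝ) = f * W := by rw [hf]; field_simp
  -- lower bound of `V`
  have hVlow : ∀ x : ℝ, 1 ≤ x → (1 - δ) * (f * (Real.log x - c)) ≤ G2D_V W x := by
    intro x hx
    refine le_trans ?_ (G2D_V_lower W x δ (hT x))
    exact mul_le_mul_of_nonneg_left (VAS_H_bounds W hW x hx).1 (by linarith)
  have hHup : VAS_H W ⌊R⌋₊ ≤ f * (L + W + 1) := by
    have h1 : VAS_H W ⌊R⌋₊ ≤ (W.totient : ℝ) + f * (1 + L) := (VAS_H_bounds W hW R hR.le).2
    calc VAS_H W ⌊R⌋₊ ≤ (W.totient : ℝ) + f * (1 + L) := h1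
      _ = f * W + f * (1 + L) := by rw [← hφ]
      _ = f * (L + W + 1) := by ring
  have hVup : G2D_V W R ≤ f * (L + W + 1) := (G2D_V_upper W hW R hR.le).trans hHup
  have hsplit : ∑ x ∈ G2D_pairs W R, 1 / ((x.1 : ℝ) * x.2) =
      ∑ x ∈ (G2D_pairs W R).filter (fun x => x.1.Coprime x.2), 1 / ((x.1 : ℝ) * x.2) +
      ∑ x ∈ (G2D_pairs W R).filter (fun x => ¬ x.1.Coprime x.2), 1 / ((x.1 : ℝ) * x.2) := by
    rw [Finset.sum_filter_add_sum_filter_not]
  have hnc := G2D_noncop W R hR.le δ (hT R)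
  have hnc2 : δ * VAS_H W ⌊R⌋₊ ^ 2 ≤ δ * (f * (L + W + 1)) ^ 2 := by
    have := VAS_H_nonneg W ⌊R⌋₊
    gcongr
  -- lower bound of the full sum
  have hall : (1 - δ) * f * ((1 - δ) * f * (L * (L * (1 - 1 / K) / 2 - c)) -
      c * (f * (L + W + 1))) ≤ ∑ x ∈ G2D_pairs W R, 1 / ((x.1 : ℝ) * x.2) := by
    rw [G2D_all]
    have h1 : ∑ a ∈ G2D_S W R, (1 / (a : ℝ)) * ((1 - δ) * (f * (Real.log (R / a) - c))) ≤
        ∑ a ∈ G2D_S W R, (1 / (a : ℝ)) * G2D_V W (R / a) := by
      apply sum_le_sum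
      intro a ha
      rw [G2D_mem] at ha
      have ha0 : (0 : ℝ) < a := by exact_mod_cast ha.1
      apply mul_le_mul_of_nonneg_left _ (by positivity)
      apply hVlow
      rw [le_div_iff₀ ha0]
      linarith [ha.2.1]
    refine le_trans ?_ h1
    have h2 : ∑ a ∈ G2D_S W R, (1 / (a : ℝ)) * ((1 - δ) * (f * (Real.log (R / a) - c))) =
        (1 - δ) * f * (∑ a ∈ G2D_S W R, (1 / (a : ℝ)) * Real.log (R / a) - c * G2D_V W R) := by
      unfold G2D_V
      rw [mul_sum, ← Finset.sum_sub_distrib, mul_sum]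
      apply sum_congr rfl
      intro a _
      ring
    rw [h2]
    apply mul_le_mul_of_nonneg_left _ (mul_nonneg (by linarith) hf0.le)
    have h3 := G2D_grid W R hR K hK
    have h4 : (1 - δ) * f * (L * (L * (1 - 1 / K) / 2 - c)) ≤
        (L / K) * ∑ i ∈ range K, G2D_V W (R ^ ((i : ℝ) / K)) := by
      have h5 : ∑ i ∈ range K, (1 - δ) * (f * ((i : ℝ) / K * L - c)) ≤
          ∑ i ∈ range K, G2D_V W (R ^ ((i : ℝ) / K)) := by
        apply sum_le_sum
        intro i _
        have h6 := hVlow (R ^ ((i : ℝ) / K)) (Real.one_le_rpow hR.le (by positivity))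
        rw [Real.log_rpow hR0] at h6
        exact h6
      have h6 : ∑ i ∈ range K, (1 - δ) * (f * ((i : ℝ) / K * L - c)) =
          (1 - δ) * f * (L * (K - 1) / 2 - K * c) := by
        have h7 : ∑ i ∈ range K, (i : ℝ) = K * (K - 1) / 2 := by
          have h8 := Finset.sum_range_id_mul_two K
          have h9 : ((∑ i ∈ range K, i : ℕ) : ℝ) * 2 = K * (K - 1) := by
            have : (((∑ i ∈ range K, i) * 2 : ℕ) : ℝ) = ((K * (K - 1) : ℕ) : ℝ) := by rw [h8]
            push_cast at this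
            rw [Nat.cast_sub hK, Nat.cast_one] at this
            push_cast
            exact this
          push_cast at h9
          linarith
        calc ∑ i ∈ range K, (1 - δ) * (f * ((i : ℝ) / K * L - c))
            = ∑ i ∈ range K, ((1 - δ) * f * (L / K) * (i : ℝ) - (1 - δ) * f * c) := by
              apply sum_congr rfl
              intro i _
              ring
          _ = (1 - δ) * f * (L / K) * ∑ i ∈ range K, (i : ℝ) - K * ((1 - δ) * f * c) := by
              rw [Finset.sum_sub_distrib, ← mul_sum, sum_const, card_range, nsmul_eq_mul]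
          _ = _ := by
              rw [h7]
              field_simp
      rw [h6] at h5
      have h7 := mul_le_mul_of_nonneg_left h5 (by positivity : 0 ≤ L / K)
      refine le_trans (le_of_eq ?_) h7
      field_simp
    have h5 : c * G2D_V W R ≤ c * (f * (L + W + 1)) := mul_le_mul_of_nonneg_left hVup hlW
    linarith
  -- algebra
  have hfin : f ^ 2 * ((1 - 2 * δ - 1 / K) / 2 * L ^ 2 - 2 * c * (L + W + 1)) ≤
      (1 - δ) * f * ((1 - δ) * f * (L * (L * (1 - 1 / K) / 2 - c)) - c * (f * (L + W + 1))) := by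
    have e1 : (1 - δ) * f * ((1 - δ) * f * (L * (L * (1 - 1 / K) / 2 - c)) -
        c * (f * (L + W + 1))) = f ^ 2 * ((1 - δ) ^ 2 * ((1 - 1 / K) / 2 * L ^ 2) -
          (1 - δ) ^ 2 * (c * L) - (1 - δ) * (c * (L + W + 1))) := by ring
    rw [e1]
    apply mul_le_mul_of_nonneg_left _ (by positivity)
    have hk1 : 0 ≤ 1 / (K : ℝ) := by positivity
    have hk2 : 1 / (K : ℝ) ≤ 1 := by rw [div_le_one hK0]; exact hK1
    have hd0 : 0 ≤ 1 - δ := by linarith
    have hd2 : (1 - δ) ^ 2 ≤ 1 := by nlinarith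
    have h1 : (1 - 2 * δ - 1 / K) / 2 * L ^ 2 ≤ (1 - δ) ^ 2 * ((1 - 1 / K) / 2 * L ^ 2) := by
      have h2 : (1 - 2 * δ - 1 / K) ≤ (1 - δ) ^ 2 * (1 - 1 / K) := by
        nlinarith [mul_nonneg hk1 hd0, mul_nonneg hk1 hδ.le, sq_nonneg δ,
          mul_nonneg (sq_nonneg δ) (by linarith : 0 ≤ 1 - 1 / (K : ℝ))]
      have h3 := mul_le_mul_of_nonneg_right h2 (by positivity : 0 ≤ L ^ 2 / 2)
      linarith
    have h2 : (1 - δ) ^ 2 * (c * L) ≤ c * (L + W + 1) := by
      have h3 : 0 ≤ c * L := mul_nonneg hlW hL.le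
      have h4 : c * L ≤ c * (L + W + 1) := mul_le_mul_of_nonneg_left (by linarith) hlW
      nlinarith
    have h3 : (1 - δ) * (c * (L + W + 1)) ≤ c * (L + W + 1) := by
      have h4 : 0 ≤ c * (L + W + 1) := mul_nonneg hlW (by linarith)
      nlinarith
    linarith
  have e2 : f ^ 2 * ((1 - 2 * δ - 1 / K) / 2 * L ^ 2 - 2 * c * (L + W + 1)
      - δ * (L + W + 1) ^ 2) = f ^ 2 * ((1 - 2 * δ - 1 / K) / 2 * L ^ 2
        - 2 * c * (L + W + 1)) - δ * (f * (L + W + 1)) ^ 2 := by ring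
  rw [e2]
  linarith

theorem G2D_lower (ε ρ : ℝ) (hε : 0 < ε) (hρ : 0 < ρ) (hρ1 : ρ ≤ 1 / 2) : ∃ w₀ : ℕ,
    ∀ W : ℕ, 0 < W → (∀ p : ℕ, p.Prime → p ≤ w₀ → p ∣ W) → ∀ᶠ N : ℕ in atTop,
      ∀ (M : ℕ) (P : Fin M → ℕ), Enum P W N → ∀ (k : ℕ) (a b : Fin k), a ≠ b →
        (1 / 2 - ε) * ((W.totient / W) * (ρ * Real.log N)) ^ 2 ≤
          GS (k := k) P {a, b} (fun j => 1 / (P j : ℝ)) (f1 ((N : ℝ) ^ ρ)) := by
  set δ := min (ε / 8) 1 with hδ
  have hδ0 : 0 < δ := lt_min (by positivity) one_pos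
  have hδ1 : δ ≤ 1 := min_le_right _ _
  have hδε : δ ≤ ε / 8 := min_le_left _ _
  obtain ⟨K, hK⟩ := exists_nat_gt (1 / δ)
  have hKpos : (0 : ℝ) < K := lt_trans (by positivity) hK
  have hK0 : 0 < K := by exact_mod_cast hKpos
  have hKδ : 1 / (K : ℝ) ≤ δ := by
    rw [div_lt_iff₀ hδ0] at hK
    rw [div_le_iff₀ hKpos]
    linarith
  obtain ⟨w₀, hw⟩ := VAS_tail δ hδ0
  refine ⟨w₀, ?_⟩
  intro W hW hdiv
  have hW0 : (0 : ℝ) < W := by exact_mod_cast hW
  have hW1 : (1 : ℝ) ≤ W := by exact_mod_cast hW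
  have hlW : 0 ≤ Real.log W := Real.log_nonneg hW1
  have hT : ∀ x : ℝ, ∑ p ∈ VAS_T W ⌊x⌋₊, 1 / ((p : ℝ) - 1) ^ 2 ≤ δ := by
    intro x
    apply hw
    intro p hp
    unfold VAS_T at hp
    rw [mem_filter] at hp
    by_contra h
    push Not at h
    exact hp.2.2 (hdiv p hp.2.1 h)
  have hlim : Tendsto (fun N : ℕ => ρ * Real.log (N : ℝ)) atTop atTop :=
    (Real.tendsto_log_atTop.comp tendsto_natCast_atTop_atTop).const_mul_atTop hρ
  filter_upwards [hlim.eventually_ge_atTop (3 * (W + 1)),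
    hlim.eventually_ge_atTop (4 * Real.log W / δ), eventually_ge_atTop 2] with N hN1 hN2 hN3
  intro M P hE k a b hab
  have hN2' : (2 : ℝ) ≤ N := by exact_mod_cast hN3
  have hNpos : (0 : ℝ) < N := by linarith
  have hR : 1 < (N : ℝ) ^ ρ := Real.one_lt_rpow (by linarith) hρ
  have hRN : (N : ℝ) ^ ρ ≤ N := by
    nth_rewrite 2 [← Real.rpow_one (N : ℝ)]
    exact Real.rpow_le_rpow_of_exponent_le (by linarith) (by linarith)
  have hlR : Real.log ((N : ℝ) ^ ρ) = ρ * Real.log N := Real.log_rpow hNpos ρ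
  have h1 := G2D_GS P W N hE ((N : ℝ) ^ ρ) hRN a b hab
  have h2 := G2D_core W hW ((N : ℝ) ^ ρ) hR K hK0 δ hδ0 hδ1 hT
  rw [hlR] at h2
  refine le_trans ?_ (h2.trans h1)
  set L := ρ * Real.log (N : ℝ) with hL
  have hL0 : 0 < L := by linarith
  rw [mul_pow]
  have e1 : (1 / 2 - ε) * (((W.totient : ℝ) / W) ^ 2 * L ^ 2) =
      ((W.totient : ℝ) / W) ^ 2 * ((1 / 2 - ε) * L ^ 2) := by ring
  rw [e1]
  apply mul_le_mul_of_nonneg_left _ (by positivity)
  rw [div_le_iff₀ hδ0] at hN2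
  -- the lower order terms
  have h3 : (L + W + 1) ≤ 4 / 3 * L := by linarith
  have h4 : (L + W + 1) ^ 2 ≤ 2 * L ^ 2 := by nlinarith
  have h5 : 2 * Real.log W * (L + W + 1) ≤ δ * L ^ 2 := by
    calc 2 * Real.log W * (L + W + 1) ≤ 2 * Real.log W * (4 / 3 * L) := by gcongr
      _ = (2 / 3) * (4 * Real.log W) * L := by ring
      _ ≤ (2 / 3) * (L * δ) * L := by gcongr
      _ ≤ δ * L ^ 2 := by nlinarith [mul_pos hδ0 (pow_pos hL0 2)]
  have h6 : δ * (L + W + 1) ^ 2 ≤ 2 * δ * L ^ 2 := by nlinarith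
  have h7 : (1 - 2 * δ - δ) / 2 * L ^ 2 ≤ (1 - 2 * δ - 1 / K) / 2 * L ^ 2 := by gcongr
  have h8 : δ * L ^ 2 ≤ ε / 8 * L ^ 2 := by gcongr
  have h9 : 0 ≤ L ^ 2 := by positivity
  nlinarith

end Pool.Agent.BG4
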