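import Pool.Agent.Lib_helper23.BG4.Defs
import Pool.Agent.Lib_helper23.BG4F.REC
import Pool.Agent.Lib_helper23.BGF.Common
import Pool.Agent.Lib_helper23.BGF.NUM
/-! Block GZ: the sum over smooth numbers. -/

set_option autoImplicit false

namespace Pool.Agent.BG4

open Finset Filter Pool.Agent.BG
open scoped Classical

variable {M k : ℕ}

theorem GZ_f1_div (R : ℝ) (p a : ℕ) (hp : 0 < p) : f1 R (p * a) = f1 (R / p) a := by
  have hp' : (0 : ℝ) < p := by exact_mod_cast hp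
  unfold f1
  have : ((p * a : ℕ) : ℝ) ≤ R ↔ (a : ℝ) ≤ R / p := by
    rw [le_div_iff₀ hp']
    push_cast
    rw [mul_comm]
  simp only [this]

theorem GZ_f1_nonneg (R : ℝ) (a : ℕ) : 0 ≤ f1 R a := by
  unfold f1
  split_ifs <;> norm_num

theorem GZ_Gsum_f1 (P : Fin M → ℕ) (W N : ℕ) (hE : Enum P W N) (x : ℝ) (hx : x ≤ N) :
    Gsum P (f1 x) = VW W x := by
  rw [← Gsum_eq_VW P W N hE x hx]
  rfl

theorem GZ_VW_mono (W : ℕ) {x y : ℝ} (h : x ≤ y) : VW W x ≤ VW W y := by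
  unfold VW
  apply Finset.sum_le_sum_of_subset_of_nonneg
  · intro a ha
    rw [mem_filter, VAS_mem_sqf] at ha ⊢
    exact ⟨⟨ha.1.1, ha.1.2.1.trans h, ha.1.2.2⟩, ha.2⟩
  · intro i _ _
    positivity

theorem GZ_VW_nonneg (W : ℕ) (x : ℝ) : 0 ≤ VW W x := by
  unfold VW
  positivity

/-- removing the sets with a large prime -/
theorem GZ_sub (P : Fin M → ℕ) (hP : ∀ j, (P j).Prime) (z R : ℝ) :
    Gsum P (f1 R) - ∑ j ∈ univ.filter (fun j => z ≤ (P j : ℝ) ∧ (P j : ℝ) ≤ R),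
      al P j * Gsum P (f1 (R / P j)) ≤ Gsum P (fz z R) := by
  have hal : ∀ j, 0 ≤ al P j := NUM_al_nonneg P hP
  have hprod : ∀ U : Finset (Fin M), 0 ≤ ∏ j ∈ U, al P j :=
    fun U => prod_nonneg (fun j _ => hal j)
  have h1 : Gsum P (f1 R) ≤ Gsum P (fz z R) + ∑ U : Finset (Fin M),
      ∑ j ∈ univ.filter (fun j => z ≤ (P j : ℝ) ∧ (P j : ℝ) ≤ R),
        (if j ∈ U then f1 R (pr P U) * ∏ j ∈ U, al P j else 0) := by
    unfold Gsum
    rw [← sum_add_distrib]
    apply sum_le_sum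
    intro U _
    have hnn : ∀ j ∈ univ.filter (fun j => z ≤ (P j : ℝ) ∧ (P j : ℝ) ≤ R),
        0 ≤ (if j ∈ U then f1 R (pr P U) * ∏ j ∈ U, al P j else 0) := by
      intro j _
      split_ifs
      · exact mul_nonneg (GZ_f1_nonneg _ _) (hprod U)
      · exact le_rfl
    by_cases hR : (pr P U : ℝ) ≤ R
    · by_cases hz : ∀ p : ℕ, p.Prime → p ∣ pr P U → (p : ℝ) < z
      · have h2 : fz z R (pr P U) = f1 R (pr P U) := by
          unfold fz f1
          rw [if_pos ⟨hR, hz⟩, if_pos hR]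
        rw [h2]
        linarith [sum_nonneg hnn]
      · push Not at hz
        obtain ⟨p, hp, hpd, hpz⟩ := hz
        unfold pr at hpd
        obtain ⟨j, hj, hd⟩ := (Prime.dvd_finsetProd_iff hp.prime P).mp hpd
        have hpj : p = P j := (Nat.prime_dvd_prime_iff_eq hp (hP j)).mp hd
        have hle : P j ≤ pr P U := by
          apply Nat.le_of_dvd (NUM_pr_pos P hP U)
          exact Finset.dvd_prod_of_mem P hj
        have hjR : (P j : ℝ) ≤ R := le_trans (by exact_mod_cast hle) hR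
        have hjm : j ∈ univ.filter (fun j => z ≤ (P j : ℝ) ∧ (P j : ℝ) ≤ R) := by
          rw [mem_filter]
          exact ⟨mem_univ _, by rw [← hpj]; exact hpz, hjR⟩
        have h3 := Finset.single_le_sum hnn hjm
        rw [if_pos hj] at h3
        have h4 : 0 ≤ fz z R (pr P U) * ∏ j ∈ U, al P j := by
          apply mul_nonneg _ (hprod U)
          unfold fz
          split_ifs <;> norm_num
        linarith
    · have h2 : f1 R (pr P U) = 0 := by
        unfold f1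
        rw [if_neg hR]
      have h4 : 0 ≤ fz z R (pr P U) * ∏ j ∈ U, al P j := by
        apply mul_nonneg _ (hprod U)
        unfold fz
        split_ifs <;> norm_num
      have h5 := sum_nonneg hnn
      rw [h2] at h5 ⊢
      linarith
  have h2 : ∑ U : Finset (Fin M), ∑ j ∈ univ.filter (fun j => z ≤ (P j : ℝ) ∧ (P j : ℝ) ≤ R),
        (if j ∈ U then f1 R (pr P U) * ∏ j ∈ U, al P j else 0) ≤
      ∑ j ∈ univ.filter (fun j => z ≤ (P j : ℝ) ∧ (P j : ℝ) ≤ R),
        al P j * Gsum P (f1 (R / P j)) := by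
    rw [sum_comm]
    apply sum_le_sum
    intro j _
    rw [← Finset.sum_filter]
    unfold Gsum
    rw [mul_sum]
    refine ES_inj _ _ (fun U => U.erase j) (fun _ _ => mem_univ _) ?_ _ _ ?_ ?_
    · intro U hU V hV h
      rw [mem_filter] at hU hV
      beta_reduce at h
      rw [← Finset.insert_erase hU.2, h, Finset.insert_erase hV.2]
    · intro U hU
      rw [mem_filter] at hU
      have h3 : pr P U = P j * pr P (U.erase j) := by
        unfold pr
        rw [Finset.mul_prod_erase _ _ hU.2]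
      have h4 : ∏ i ∈ U, al P i = al P j * ∏ i ∈ U.erase j, al P i := by
        rw [Finset.mul_prod_erase _ _ hU.2]
      rw [h3, GZ_f1_div R _ _ (hP j).pos, h4]
      apply le_of_eq
      ring
    · intro V _
      exact mul_nonneg (hal j) (mul_nonneg (GZ_f1_nonneg _ _) (hprod V))
  linarith

/-- the sum over the large primes -/
theorem GZ_recip (P : Fin M → ℕ) (W N : ℕ) (hE : Enum P W N) (A B y y' : ℝ) (hA : 2 ≤ A)
    (hy : (N : ℝ) ^ y < A) (hB : B ≤ (N : ℝ) ^ y') :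
    ∑ j ∈ univ.filter (fun j => A ≤ (P j : ℝ) ∧ (P j : ℝ) ≤ B), al P j ≤
      (1 + 2 / A) * ∑ p ∈ (Icc 1 (N ^ 2)).filter (fun p : ℕ => p.Prime ∧ (N : ℝ) ^ y < p ∧
        (p : ℝ) ≤ (N : ℝ) ^ y'), (1 / (p : ℝ)) := by
  rw [mul_sum]
  refine ES_inj _ _ (fun j => P j) ?_ ?_ _ _ ?_ ?_
  · intro j hj
    rw [mem_filter] at hj
    obtain ⟨hp, hN, hW⟩ := (hE.2 (P j)).mp ⟨j, rfl⟩
    rw [mem_filter, mem_Icc]
    refine ⟨⟨hp.one_le, ?_⟩, hp, lt_of_lt_of_le hy hj.2.1, hj.2.2.trans hB⟩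
    nlinarith [hp.one_le]
  · intro i _ j _ h
    exact hE.1 h
  · intro j hj
    rw [mem_filter] at hj
    have h2 : (2 : ℝ) ≤ P j := hA.trans hj.2.1
    have hA0 : 0 < A := by linarith
    unfold al
    have h3 : (1 + 2 / (P j : ℝ)) ≤ 1 + 2 / A := by
      have : 2 / (P j : ℝ) ≤ 2 / A := div_le_div_of_nonneg_left (by norm_num) hA0 hj.2.1
      linarith
    have h4 : 1 / ((P j : ℝ) - 1) ≤ (1 + 2 / (P j : ℝ)) * (1 / (P j : ℝ)) := by
      have h5 : (0 : ℝ) < P j := by linarith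
      have h6 : (0 : ℝ) < (P j : ℝ) - 1 := by linarith
      have h7 : (1 + 2 / (P j : ℝ)) * (1 / (P j : ℝ)) = ((P j : ℝ) + 2) / ((P j : ℝ) ^ 2) := by
        field_simp
      rw [h7, div_le_div_iff₀ h6 (by positivity)]
      nlinarith
    refine h4.trans (mul_le_mul_of_nonneg_right h3 (by positivity))
  · intro p _
    have hA0 : 0 < A := by linarith
    positivity

/-- the arithmetic -/
theorem GZ_arith (ρ v L ε₁ F V1 V2 S C : ℝ) (hρ : 0 ≤ ρ) (hρ1 : ρ ≤ 1) (hv : v ≤ ρ) (hv0 : 0 ≤ v)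
    (hρv : ρ - v ≤ 1 / 5)
    (hL0 : 0 ≤ L) (hL : L ≤ 1) (h0 : 0 < ε₁) (h1 : ε₁ ≤ 1 / 15) (hF : 0 ≤ F)
    (hC : C ≤ ε₁ * F) (hV1 : (1 - ε₁) * (ρ * F) - C ≤ V1)
    (hV2 : V2 ≤ (1 + ε₁) * ((ρ - v) * F) + C) (hV20 : 0 ≤ V2)
    (hS : S ≤ (1 + ε₁) * (L + 2 * ε₁)) :
    (ρ - (ρ - v) * L - 15 * ε₁) * F ≤ V1 - S * V2 := by
  have hS2 : S ≤ L + 5 * ε₁ := by nlinarith
  have h3 : V2 ≤ ((ρ - v) + 2 * ε₁) * F := by
    have : 0 ≤ ε₁ * F := by positivity
    nlinarith
  have h4 : S * V2 ≤ (L + 5 * ε₁) * (((ρ - v) + 2 * ε₁) * F) := by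
    have h5 : S * V2 ≤ (L + 5 * ε₁) * V2 := mul_le_mul_of_nonneg_right hS2 hV20
    have h6 : (L + 5 * ε₁) * V2 ≤ (L + 5 * ε₁) * (((ρ - v) + 2 * ε₁) * F) :=
      mul_le_mul_of_nonneg_left h3 (by positivity)
    exact h5.trans h6
  have h5 : (L + 5 * ε₁) * ((ρ - v) + 2 * ε₁) ≤ (ρ - v) * L + 13 * ε₁ := by
    nlinarith [mul_nonneg h0.le hL0, mul_nonneg h0.le (sub_nonneg.mpr hL),
      mul_nonneg h0.le (sub_nonneg.mpr hρv), mul_nonneg h0.le (sub_nonneg.mpr h1)]
  have h6 : (L + 5 * ε₁) * (((ρ - v) + 2 * ε₁) * F) ≤ ((ρ - v) * L + 13 * ε₁) * F := by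
    rw [← mul_assoc]
    exact mul_le_mul_of_nonneg_right h5 hF
  have h7 : (ρ - 2 * ε₁) * F ≤ V1 := by
    have h8 : (1 - ε₁) * (ρ * F) - C ≥ (ρ - 2 * ε₁) * F := by
      have h9 : ε₁ * (ρ * F) ≤ ε₁ * F := by
        apply mul_le_mul_of_nonneg_left _ h0.le
        nlinarith
      nlinarith
    linarith
  nlinarith

theorem Gz_lower (ε ρ : ℝ) (hε : 0 < ε) (hρ : 12 / 100 ≤ ρ) (hρ1 : ρ ≤ 13 / 100) : ∃ w₀ : ℕ,
    ∀ W : ℕ, 0 < W → (∀ p : ℕ, p.Prime → p ≤ w₀ → p ∣ W) → ∀ᶠ N : ℕ in atTop,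
      ∀ (M : ℕ) (P : Fin M → ℕ), Enum P W N →
        (ρ - (ρ - 17 / 200) * Real.log (ρ / (17 / 200)) - ε) * ((W.totient / W) * Real.log N) ≤
          Gsum P (fz ((N : ℝ) ^ (17 / 200 : ℝ)) ((N : ℝ) ^ ρ)) ∧
        Gsum P (fz ((N : ℝ) ^ (17 / 200 : ℝ)) ((N : ℝ) ^ ρ)) ≤
          (ρ + ε) * ((W.totient / W) * Real.log N) := by
  set ε₁ : ℝ := min ε 1 / 15 with hε₁
  have h0 : 0 < ε₁ := by positivity
  have h15 : 15 * ε₁ ≤ ε := by
    rw [hε₁]
    have := min_le_left ε 1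
    linarith
  have h1 : ε₁ ≤ 1 / 15 := by
    rw [hε₁]
    have := min_le_right ε 1
    linarith
  obtain ⟨w₀, hw⟩ := VW_asymp ε₁ h0
  refine ⟨w₀, ?_⟩
  intro W hW hdiv
  obtain ⟨C, hC⟩ := hw W hW hdiv
  have hW0 : (0 : ℝ) < W := by exact_mod_cast hW
  have hφ0 : (0 : ℝ) < (W.totient : ℝ) / W := by
    have : 0 < W.totient := Nat.totient_pos.mpr hW
    positivity
  set φ := (W.totient : ℝ) / W with hφ
  set v : ℝ := 17 / 200 with hv
  set y : ℝ := v * Real.exp (-ε₁) with hy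
  have hexp : Real.exp (-ε₁) < 1 := by
    rw [Real.exp_lt_one_iff]
    linarith
  have hexp0 : 0 < Real.exp (-ε₁) := Real.exp_pos _
  have hv0 : (0 : ℝ) < v := by rw [hv]; norm_num
  have hyv : y < v := by
    rw [hy]
    nlinarith
  have hy0 : 0 < y := by positivity
  have hrec := recip_window y ε₁ hy0 h0
  have hlog : ∀ᶠ N : ℕ in atTop, C / (ε₁ * φ) ≤ Real.log N :=
    (Real.tendsto_log_atTop.comp tendsto_natCast_atTop_atTop).eventually_ge_atTop _
  have hz : ∀ᶠ N : ℕ in atTop, 2 / ε₁ ≤ (N : ℝ) ^ v :=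
    ((tendsto_rpow_atTop hv0).comp tendsto_natCast_atTop_atTop).eventually_ge_atTop _
  filter_upwards [hrec, hlog, hz, eventually_ge_atTop 2] with N hrec hlog hz hN2 M P hE
  have hN1 : (1 : ℝ) < N := by
    have : (2 : ℝ) ≤ N := by exact_mod_cast hN2
    linarith
  have hN0 : (0 : ℝ) < N := by linarith
  have hℓ : 0 < Real.log N := Real.log_pos hN1
  have hP : ∀ j, (P j).Prime := fun j => ((hE.2 (P j)).mp ⟨j, rfl⟩).1
  set F := φ * Real.log N with hF
  have hF0 : 0 < F := by positivity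
  have hCF : C ≤ ε₁ * F := by
    rw [div_le_iff₀ (by positivity)] at hlog
    rw [hF]
    linarith
  set R := (N : ℝ) ^ ρ with hR
  set z := (N : ℝ) ^ v with hz'
  have hz2 : 2 ≤ z := by
    refine le_trans ?_ hz
    rw [le_div_iff₀ h0]
    linarith
  have hR1 : 1 ≤ R := Real.one_le_rpow hN1.le (by linarith)
  have hlogR : Real.log R = ρ * Real.log N := Real.log_rpow hN0 ρ
  have hRN : R ≤ N := by
    calc R ≤ (N : ℝ) ^ (1 : ℝ) := Real.rpow_le_rpow_of_exponent_le hN1.le (by linarith)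
      _ = N := Real.rpow_one _
  have hG := GZ_Gsum_f1 P W N hE R hRN
  constructor
  · -- lower bound
    have hsub := GZ_sub P hP z R
    rw [hG] at hsub
    have hRz : R / z = (N : ℝ) ^ (ρ - v) := by
      rw [hR, hz', ← Real.rpow_sub hN0]
    have hRz1 : 1 ≤ R / z := by
      rw [hRz]
      exact Real.one_le_rpow hN1.le (by rw [hv]; linarith)
    have hlogRz : Real.log (R / z) = (ρ - v) * Real.log N := by
      rw [hRz, Real.log_rpow hN0]
    have hS : ∑ j ∈ univ.filter (fun j => z ≤ (P j : ℝ) ∧ (P j : ℝ) ≤ R),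
        al P j * Gsum P (f1 (R / P j)) ≤
        (∑ j ∈ univ.filter (fun j => z ≤ (P j : ℝ) ∧ (P j : ℝ) ≤ R), al P j) *
          VW W (R / z) := by
      rw [sum_mul]
      apply sum_le_sum
      intro j hj
      rw [mem_filter] at hj
      have hz0 : 0 < z := by linarith
      have h3 : R / P j ≤ R / z := div_le_div_of_nonneg_left (by linarith) hz0 hj.2.1
      have h4 : R / z ≤ R := div_le_self (by linarith) (by linarith)
      rw [GZ_Gsum_f1 P W N hE _ (h3.trans (h4.trans hRN))]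
      exact mul_le_mul_of_nonneg_left (GZ_VW_mono W h3) (NUM_al_nonneg P hP j)
    have hvρ : v ≤ ρ := by rw [hv]; linarith
    have hrec2 := hrec y ρ le_rfl (by linarith) (by linarith)
    have hS2 := GZ_recip P W N hE z R y ρ hz2 (by
      rw [hz']
      exact Real.rpow_lt_rpow_of_exponent_lt hN1 hyv) le_rfl
    have hL1 : Real.log (ρ / y) = Real.log (ρ / v) + ε₁ := by
      have h5 : ρ / y = (ρ / v) * Real.exp ε₁ := by
        rw [hy, Real.exp_neg]
        field_simp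
      rw [h5, Real.log_mul (by positivity) (Real.exp_pos _).ne', Real.log_exp]
    have hL0 : 0 ≤ Real.log (ρ / v) := by
      apply Real.log_nonneg
      rw [le_div_iff₀ hv0, hv]
      linarith
    have hLle : Real.log (ρ / v) ≤ 1 := by
      have h5 := Real.log_le_sub_one_of_pos (show 0 < ρ / v by positivity)
      have h6 : ρ / v ≤ 2 := by
        rw [div_le_iff₀ hv0, hv]
        linarith
      linarith
    have hz3 : 2 / z ≤ ε₁ := by
      rw [div_le_iff₀ (by linarith)]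
      rw [div_le_iff₀ h0] at hz
      linarith
    have hS3 : ∑ j ∈ univ.filter (fun j => z ≤ (P j : ℝ) ∧ (P j : ℝ) ≤ R), al P j ≤
        (1 + ε₁) * (Real.log (ρ / v) + 2 * ε₁) := by
      have h5 := (abs_le.mp hrec2).2
      rw [hL1] at h5
      refine hS2.trans ?_
      have h6 : 0 ≤ 2 / z := by positivity
      apply mul_le_mul (by linarith) (by linarith) _ (by linarith)
      positivity
    have hV1 := (hC R hR1).1
    have hV2 := (hC (R / z) hRz1).2
    rw [hlogR] at hV1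
    rw [hlogRz] at hV2
    have harith := GZ_arith ρ v (Real.log (ρ / v)) ε₁ F (VW W R) (VW W (R / z))
      (∑ j ∈ univ.filter (fun j => z ≤ (P j : ℝ) ∧ (P j : ℝ) ≤ R), al P j) C (by linarith)
      (by linarith) (by rw [hv]; linarith) hv0.le (by rw [hv]; linarith) hL0 hLle h0 h1 hF0.le hCF
      (by rw [hF]; nlinarith) (by rw [hF]; nlinarith) (GZ_VW_nonneg _ _) hS3
    have h9 : (ρ - (ρ - v) * Real.log (ρ / v) - ε) * F ≤
        (ρ - (ρ - v) * Real.log (ρ / v) - 15 * ε₁) * F :=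
      mul_le_mul_of_nonneg_right (by linarith) hF0.le
    linarith
  · -- upper bound
    have h3 : Gsum P (fz z R) ≤ Gsum P (f1 R) := by
      apply NUM_Gsum_mono P hP
      intro a
      unfold fz f1
      by_cases h : (a : ℝ) ≤ R
      · rw [if_pos h]
        split_ifs <;> norm_num
      · rw [if_neg h, if_neg (fun h' => h h'.1)]
    rw [hG] at h3
    have hV := (hC R hR1).2
    rw [hlogR] at hV
    have h4 : (1 + ε₁) * φ * (ρ * Real.log N) + C ≤ (ρ + ε) * F := by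
      have h5 : (1 + ε₁) * φ * (ρ * Real.log N) = ρ * F + ε₁ * ρ * F := by
        rw [hF]
        ring
      rw [h5]
      have h6 : ε₁ * ρ * F ≤ ε₁ * F := by
        have : ε₁ * ρ ≤ ε₁ := by nlinarith
        exact mul_le_mul_of_nonneg_right this hF0.le
      nlinarith
    linarith

end Pool.Agent.BG4
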