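import Pool.Agent.Lib_helper23.BG4.Defs
import Pool.Agent.Lib_helper23.BGF.FLem
/-! Block MULTSG. -/

set_option autoImplicit false

namespace Pool.Agent.BG4

open Finset Filter Pool.Agent.BG
open scoped Classical

variable {M k : ℕ}

theorem IP_mult : ∀ᶠ N : ℕ in atTop, ∀ m : ℕ, 0 < m → m ≤ 3 * N →
    ((IP N).filter (fun p => p ∣ m)).card ≤ 6 := by
  filter_upwards [FL_log_pow 0 4 (31 / 200) (by norm_num), eventually_ge_atTop 1] with N h1 hN m hm hmN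
  rw [pow_zero, mul_one] at h1
  have hNr : (0:ℝ) < N := by exact_mod_cast hN
  by_contra hcon
  push Not at hcon
  obtain ⟨T, hT, hTc⟩ := Finset.exists_subset_card_eq (show 7 ≤ ((IP N).filter (fun p => p ∣ m)).card by omega)
  have hTp : ∀ p ∈ T, p.Prime ∧ (N : ℝ) ^ (33 / 200 : ℝ) < p ∧ p ∣ m := by
    intro p hp
    have := hT hp
    simp only [IP, mem_filter, mem_Icc] at this
    exact ⟨this.1.2.1, this.1.2.2.1, this.2⟩
  have hdvd : ∏ p ∈ T, p ∣ m :=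
    Finset.prod_primes_dvd m (fun p hp => (hTp p hp).1.prime) (fun p hp => (hTp p hp).2.2)
  have hle : ∏ p ∈ T, p ≤ m := Nat.le_of_dvd hm hdvd
  have h2 : ((N : ℝ) ^ (33 / 200 : ℝ)) ^ 7 ≤ ((∏ p ∈ T, p : ℕ) : ℝ) := by
    rw [← hTc, ← Finset.prod_const]
    push_cast
    exact Finset.prod_le_prod (fun p _ => by positivity) (fun p hp => (hTp p hp).2.1.le)
  have h3 : ((N : ℝ) ^ (33 / 200 : ℝ)) ^ 7 = N * (N : ℝ) ^ (31 / 200 : ℝ) := by
    rw [← Real.rpow_natCast, ← Real.rpow_mul hNr.le]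
    nth_rewrite 2 [← Real.rpow_one (N : ℝ)]
    rw [← Real.rpow_add hNr]
    norm_num
  have h4 : (m : ℝ) ≤ 3 * N := by exact_mod_cast hmN
  have h5 : ((∏ p ∈ T, p : ℕ) : ℝ) ≤ m := by exact_mod_cast hle
  have h6 : (N : ℝ) * 4 ≤ N * (N : ℝ) ^ (31 / 200 : ℝ) := mul_le_mul_of_nonneg_left h1 hNr.le
  linarith

theorem SG_tail (δ : ℝ) (hδ : 0 < δ) : ∃ w₀ : ℕ, ∀ T : Finset ℕ, (∀ n ∈ T, w₀ < n) →
    ∑ n ∈ T, (1 / ((n : ℝ) - 1)) * Real.sqrt (1 / ((n : ℝ) - 1)) ≤ δ := by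
  have hs : Summable (fun n : ℕ => (1 / ((n : ℝ) - 1)) * Real.sqrt (1 / ((n : ℝ) - 1))) := by
    rw [← summable_nat_add_iff 1]
    have h := Real.summable_one_div_nat_rpow.mpr (by norm_num : (1 : ℝ) < 3 / 2)
    refine h.congr ?_
    intro n
    push_cast
    have e : ((n : ℝ) + 1 - 1) = n := by ring
    rw [e]
    rcases Nat.eq_zero_or_pos n with rfl | hn
    · norm_num
    have hnr : (0 : ℝ) < n := by exact_mod_cast hn
    rw [Real.sqrt_eq_rpow, one_div (n : ℝ), ← Real.rpow_neg_one (n : ℝ), ← Real.rpow_mul hnr.le,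
      ← Real.rpow_add hnr, one_div, ← Real.rpow_neg hnr.le]
    norm_num
  obtain ⟨s, hs⟩ := (summable_iff_vanishing_norm.mp hs) δ hδ
  refine ⟨s.sup id, ?_⟩
  intro T hT
  have hd : Disjoint T s := by
    rw [Finset.disjoint_left]
    intro n hn hns
    have h1 := hT n hn
    have h2 : n ≤ s.sup id := Finset.le_sup (f := id) hns
    omega
  exact (le_abs_self _).trans (hs T hd).le

theorem Sg32_le (ε : ℝ) (hε : 0 < ε) : ∃ w₀ : ℕ, ∀ (M W N : ℕ) (P : Fin M → ℕ),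
    (∀ p : ℕ, p.Prime → p ≤ w₀ → p ∣ W) → Enum P W N → Sg32 P ≤ ε := by
  obtain ⟨w₀, hw⟩ := SG_tail ε hε
  refine ⟨w₀, ?_⟩
  intro M W N P hW hE
  have h := hw (univ.image P) (by
    intro n hn
    rw [mem_image] at hn
    obtain ⟨j, -, hj⟩ := hn
    have h1 := (hE.2 n).mp ⟨j, hj⟩
    by_contra hlt
    push Not at hlt
    exact h1.2.2 (hW n h1.1 hlt))
  rw [Finset.sum_image (fun a _ b _ hab => hE.1 hab)] at h
  exact h

theorem Sg2_le_Sg32 (P : Fin M → ℕ) (hP : ∀ j, (P j).Prime) : Sg2 P ≤ Sg32 P := by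
  unfold Sg2 Sg32
  refine Finset.sum_le_sum fun j _ => ?_
  have h2 : (2 : ℝ) ≤ P j := by exact_mod_cast (hP j).two_le
  have h0 : 0 ≤ al P j := by
    unfold al
    exact div_nonneg zero_le_one (by linarith)
  have h1 : al P j ≤ 1 := by
    unfold al
    rw [div_le_one (by linarith)]
    linarith
  rw [sq]
  refine mul_le_mul_of_nonneg_left ?_ h0
  calc al P j = Real.sqrt (al P j) * Real.sqrt (al P j) := (Real.mul_self_sqrt h0).symm
    _ ≤ 1 * Real.sqrt (al P j) :=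
        mul_le_mul_of_nonneg_right (Real.sqrt_le_one.mpr h1) (Real.sqrt_nonneg _)
    _ = Real.sqrt (al P j) := one_mul _

end Pool.Agent.BG4
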