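import Pool.Agent.Lib_helper23.BGF.MVT
/-! Block MVT4: the mean value theorem over primitive characters, level `1/2 - θ` (helper37). -/

set_option autoImplicit false

namespace Pool.Agent.BG4

open Finset Filter Complex Pool.Agent.BG
open scoped ArithmeticFunction ArithmeticFunction.Moebius ArithmeticFunction.zeta

theorem mvt4 (θ : ℝ) (hθ : 0 < θ) (hθ1 : θ ≤ 1 / 10) : ∃ C : ℝ, 0 < C ∧ ∃ K : ℕ, ∃ δ : ℝ, 0 < δ ∧
    ∀ N : ℕ, 3 ≤ N → ∀ u : ℕ, u ≤ 3 * N → ∀ R : ℕ, 1 ≤ R →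
    (R : ℝ) ≤ (N : ℝ) ^ (1 / 2 - θ) →
      ∑ r ∈ Ioc R (2 * R), (1 / (r.totient : ℝ)) * ∑ χ ∈ Prm r, ‖psiC χ u‖ ≤
        C * Real.log N ^ K * (N / R + (N : ℝ) ^ (1 - δ)) := by
  refine ⟨200000, by norm_num, 3, θ / 4, by positivity, ?_⟩
  intro N hN u hu R hR hRN
  have hNr : (3:ℝ) ≤ N := by exact_mod_cast hN
  have hN1 : (1:ℝ) ≤ N := by linarith
  have hN0 : (0:ℝ) < N := by linarith
  have hRr : (1:ℝ) ≤ R := by exact_mod_cast hR
  set V : ℝ := (N:ℝ) ^ (θ / 2 : ℝ) with hV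
  have hV1 : 1 ≤ V := Real.one_le_rpow hN1 (by positivity)
  set U : ℕ := ⌊V⌋₊ with hU
  have hU1 : 1 ≤ U := by rw [hU, Nat.one_le_floor_iff]; exact hV1
  have hUr : (1:ℝ) ≤ U := by exact_mod_cast hU1
  have hUV : (U:ℝ) ≤ V := Nat.floor_le (by linarith)
  have hVU : V ≤ 2 * U := by
    have := Nat.lt_floor_add_one V
    rw [← hU] at this
    linarith
  have hgen := MVT_gen R hR U u (3 * N) hU1 hu (by omega)
  refine hgen.trans ?_
  push_cast
  -- logs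
  have hlog3 : 1 ≤ Real.log N := by
    have h1 : Real.exp 1 ≤ N := by
      have := Real.exp_one_lt_d9
      linarith
    have := Real.log_le_log (Real.exp_pos 1) h1
    rwa [Real.log_exp] at this
  have hlog3' : Real.log 3 ≤ 2 := by
    have h1 : (3:ℝ) ≤ Real.exp 2 := by
      have h2 : (2:ℝ) + 1 ≤ Real.exp 2 := Real.add_one_le_exp 2
      linarith
    have := Real.log_le_log (by norm_num) h1
    rwa [Real.log_exp] at this
  have hLg : 2 + Real.log (3 * N) ≤ 5 * Real.log N := by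
    rw [Real.log_mul (by norm_num) (by positivity)]
    linarith
  have hLg0 : 0 ≤ 2 + Real.log (3 * N) := by
    rw [Real.log_mul (by norm_num) (by positivity)]
    have : 0 ≤ Real.log 3 := Real.log_nonneg (by norm_num)
    linarith
  set L := Real.log N with hL
  set G : ℝ := (N:ℝ) ^ (1 - θ / 4 : ℝ) with hG
  have hG1 : 1 ≤ G := Real.one_le_rpow hN1 (by linarith)
  have hL3 : L ≤ L ^ 3 := by
    have : L ^ 1 ≤ L ^ 3 := pow_le_pow_right₀ hlog3 (by norm_num)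
    simpa using this
  -- first term
  have t1 : (U:ℝ) ^ 2 * (R:ℝ) ^ 2 ≤ G := by
    have h1 : (U:ℝ) ^ 2 ≤ V ^ 2 := pow_le_pow_left₀ (by positivity) hUV 2
    have h2 : (R:ℝ) ^ 2 ≤ ((N : ℝ) ^ (1 / 2 - θ : ℝ)) ^ 2 := pow_le_pow_left₀ (by positivity) hRN 2
    refine (mul_le_mul h1 h2 (by positivity) (by positivity)).trans ?_
    rw [hV, hG, ← Real.rpow_natCast, ← Real.rpow_natCast, ← Real.rpow_mul hN0.le, ← Real.rpow_mul hN0.le,
      ← Real.rpow_add hN0]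
    refine Real.rpow_le_rpow_of_exponent_le hN1 ?_
    push_cast
    linarith
  -- second term
  have hsqU : 0 < Real.sqrt U := Real.sqrt_pos.mpr (by linarith)
  have t2 : (N:ℝ) / Real.sqrt U ≤ 2 * G := by
    rw [div_le_iff₀ hsqU]
    have h1 : Real.sqrt (V / 2) ≤ Real.sqrt U := Real.sqrt_le_sqrt (by linarith)
    have h2 : (N:ℝ) ≤ 2 * G * Real.sqrt (V / 2) := by
      have h3 : Real.sqrt (V / 2) = V ^ (1 / 2 : ℝ) / Real.sqrt 2 := by
        rw [Real.sqrt_div (by linarith), Real.sqrt_eq_rpow V]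
      have h4 : Real.sqrt 2 ≤ 2 := by
        rw [Real.sqrt_le_left (by norm_num)]; norm_num
      have h5 : 0 < Real.sqrt 2 := Real.sqrt_pos.mpr (by norm_num)
      have h6 : V ^ (1 / 2 : ℝ) / 2 ≤ Real.sqrt (V / 2) := by
        rw [h3]
        exact div_le_div_of_nonneg_left (by positivity) h5 h4
      have h7 : (N:ℝ) ≤ G * V ^ (1 / 2 : ℝ) := by
        rw [hG, hV, ← Real.rpow_mul hN0.le, ← Real.rpow_add hN0]
        nth_rewrite 1 [← Real.rpow_one (N:ℝ)]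
        refine Real.rpow_le_rpow_of_exponent_le hN1 ?_
        linarith
      have h8 : 2 * G * (V ^ (1 / 2 : ℝ) / 2) ≤ 2 * G * Real.sqrt (V / 2) :=
        mul_le_mul_of_nonneg_left h6 (by positivity)
      linarith
    refine h2.trans ?_
    exact mul_le_mul_of_nonneg_left h1 (by positivity)
  -- third term
  have t3 : (R:ℝ) * Real.sqrt (3 * N) ≤ 2 * G := by
    have h1 : Real.sqrt (3 * N) ≤ 2 * (N:ℝ) ^ (1 / 2 : ℝ) := by
      rw [Real.sqrt_mul (by norm_num), Real.sqrt_eq_rpow (N:ℝ)]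
      refine mul_le_mul_of_nonneg_right ?_ (by positivity)
      rw [Real.sqrt_le_left (by norm_num)]; norm_num
    have h2 : (R:ℝ) * Real.sqrt (3 * N) ≤ (N : ℝ) ^ (1 / 2 - θ : ℝ) * (2 * (N:ℝ) ^ (1 / 2 : ℝ)) :=
      mul_le_mul hRN h1 (Real.sqrt_nonneg _) (by positivity)
    refine h2.trans ?_
    have h3 : (N : ℝ) ^ (1 / 2 - θ : ℝ) * (2 * (N:ℝ) ^ (1 / 2 : ℝ)) = 2 * ((N : ℝ) ^ (1 / 2 - θ : ℝ) * (N:ℝ) ^ (1 / 2 : ℝ)) := by ring
    rw [h3, ← Real.rpow_add hN0]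
    refine mul_le_mul_of_nonneg_left ?_ (by norm_num)
    rw [hG]
    refine Real.rpow_le_rpow_of_exponent_le hN1 ?_
    linarith
  have hNR : 0 ≤ (N:ℝ) / R := by positivity
  have t4 : 3 * (N:ℝ) / R = 3 * (N / R) := by ring
  have t5 : 3 * (N:ℝ) / Real.sqrt U = 3 * (N / Real.sqrt U) := by ring
  rw [t4, t5]
  have s1 : 7 * (U:ℝ) ^ 2 * (R:ℝ) ^ 2 * (2 + Real.log (3 * N)) ≤ 35 * (L ^ 3 * G) := by
    calc 7 * (U:ℝ) ^ 2 * (R:ℝ) ^ 2 * (2 + Real.log (3 * N)) = 7 * ((U:ℝ) ^ 2 * (R:ℝ) ^ 2) * (2 + Real.log (3 * N)) := by ring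
      _ ≤ 7 * G * (5 * L) := mul_le_mul (by linarith) hLg hLg0 (by positivity)
      _ = 35 * (L * G) := by ring
      _ ≤ 35 * (L ^ 3 * G) := by
          have := mul_le_mul_of_nonneg_right hL3 (by linarith : (0:ℝ) ≤ G)
          linarith
  have s2 : 44 * (2 + Real.log (3 * N)) ^ 3 * (3 * (N / R) + 4 * (3 * (N / Real.sqrt U)) + 4 * (R * Real.sqrt (3 * N)))
      ≤ 5500 * L ^ 3 * (3 * (N / R) + 32 * G) := by
    have h1 : (2 + Real.log (3 * N)) ^ 3 ≤ (5 * L) ^ 3 := pow_le_pow_left₀ hLg0 hLg 3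
    have h2 : 3 * (N / R) + 4 * (3 * (N / Real.sqrt U)) + 4 * (R * Real.sqrt (3 * N)) ≤ 3 * ((N:ℝ) / R) + 32 * G := by
      linarith
    have h3 : (0:ℝ) ≤ 3 * (N / R) + 4 * (3 * (N / Real.sqrt U)) + 4 * (R * Real.sqrt (3 * N)) := by positivity
    calc 44 * (2 + Real.log (3 * N)) ^ 3 * (3 * (N / R) + 4 * (3 * (N / Real.sqrt U)) + 4 * (R * Real.sqrt (3 * N)))
        ≤ 44 * (5 * L) ^ 3 * (3 * (N / R) + 32 * G) :=
          mul_le_mul (mul_le_mul_of_nonneg_left h1 (by norm_num)) h2 h3 (by positivity)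
      _ = 5500 * L ^ 3 * (3 * (N / R) + 32 * G) := by ring
  have hL30 : 0 ≤ L ^ 3 := by positivity
  have p1 : 0 ≤ L ^ 3 * (N / R) := by positivity
  have p2 : 0 ≤ L ^ 3 * G := by positivity
  have := add_le_add s1 s2
  refine this.trans ?_
  have hfin : 35 * (L ^ 3 * G) + 5500 * L ^ 3 * (3 * (N / R) + 32 * G) = 16500 * (L ^ 3 * (N / R)) + 176035 * (L ^ 3 * G) := by ring
  rw [hfin]
  nlinarith

end Pool.Agent.BG4
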