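import Pool.Agent.Lib_helper23.BG4.Defs
import Pool.Agent.Lib_helper23.BG4F.REC
/-! Block NEAR: near the zero set of `Fst` (helper95). -/

set_option autoImplicit false

namespace Pool.Agent.BG4

open Finset Filter Pool.Agent.BG
open scoped Classical

/-- `Fst` as a function of the set of primes; `L = ρ log N` -/
noncomputable def nr_F (ρ l : ℝ) (s : Finset ℕ) : ℝ :=
  (1 - (∑ p ∈ s, Real.log p) / l) / ρ - ∑ p ∈ s, max 0 (1 - Real.log p / (ρ * l))
    + ∑ e ∈ s.powersetCard 2, max 0 (1 - Real.log ((∏ p ∈ e, p : ℕ) : ℝ) / (ρ * l))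

theorem nr_log_prod (s : Finset ℕ) (hs : ∀ p ∈ s, p.Prime) :
    Real.log ((∏ p ∈ s, p : ℕ) : ℝ) = ∑ p ∈ s, Real.log p := by
  push_cast
  rw [Real.log_prod]
  intro p hp
  exact_mod_cast (hs p hp).ne_zero

theorem nr_Fst (ζ : ℝ) (N q : ℕ) (hq : Squarefree q) :
    Fst ζ N q = nr_F (1 / 4 - 2 * ζ) (Real.log N) q.primeFactors := by
  unfold Fst nr_F
  have h1 : Real.log q = ∑ p ∈ q.primeFactors, Real.log p := by
    rw [← nr_log_prod _ (fun p hp => Nat.prime_of_mem_primeFactors hp)]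
    rw [Nat.prod_primeFactors_of_squarefree hq]
  rw [h1]

/-- the part of `nr_F` depending on a new prime -/
noncomputable def nr_phi (ρ l : ℝ) (s : Finset ℕ) (x : ℝ) : ℝ :=
  x / (ρ * l) + max 0 (1 - x / (ρ * l)) - ∑ i ∈ s, max 0 (1 - (x + Real.log i) / (ρ * l))

theorem nr_insert (ρ l : ℝ) (s : Finset ℕ) (hs : ∀ i ∈ s, i.Prime) (p : ℕ) (hp : p.Prime)
    (hps : p ∉ s) : nr_F ρ l (insert p s) = nr_F ρ l s - nr_phi ρ l s (Real.log p) := by
  unfold nr_F nr_phi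
  rw [Finset.sum_insert hps, Finset.sum_insert hps, Finset.powersetCard_succ_insert hps,
    Finset.sum_union, Finset.sum_image, Finset.powersetCard_one, Finset.sum_map]
  · have h1 : ∀ i ∈ s, max 0 (1 - Real.log ((∏ x ∈ insert p
        (({ toFun := singleton, inj' := Finset.singleton_injective } : ℕ ↪ Finset ℕ) i), x : ℕ) : ℝ)
          / (ρ * l)) = max 0 (1 - (Real.log p + Real.log i) / (ρ * l)) := by
      intro i hi
      have hpi : p ≠ i := fun h => hps (h ▸ hi)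
      simp only [Function.Embedding.coeFn_mk]
      rw [Finset.prod_pair hpi]
      push_cast
      rw [Real.log_mul (by exact_mod_cast hp.ne_zero) (by exact_mod_cast (hs i hi).ne_zero)]
    rw [Finset.sum_congr rfl h1]
    ring
  · intro e he e' he' h
    rw [Finset.mem_coe, Finset.mem_powersetCard] at he he'
    have h1 : p ∉ e := fun h2 => hps (he.1 h2)
    have h2 : p ∉ e' := fun h2 => hps (he'.1 h2)
    rw [← Finset.erase_insert h1, ← Finset.erase_insert h2, h]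
  · rw [Finset.disjoint_left]
    intro e he he'
    rw [Finset.mem_powersetCard] at he
    obtain ⟨e'', _, rfl⟩ := Finset.mem_image.1 he'
    exact hps (he.1 (Finset.mem_insert_self _ _))

theorem nr_max_anti {L x y : ℝ} (hL : 0 < L) (h : x ≤ y) :
    max 0 (1 - y / L) ≤ max 0 (1 - x / L) := by
  apply max_le_max (le_refl _)
  have : x / L ≤ y / L := div_le_div_of_nonneg_right h hL.le
  linarith

theorem nr_xmax {L x y : ℝ} (hL : 0 < L) (h : x ≤ y) :
    x / L + max 0 (1 - x / L) ≤ y / L + max 0 (1 - y / L) := by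
  have h1 : x / L ≤ y / L := div_le_div_of_nonneg_right h hL.le
  rcases le_total (1 - x / L) 0 with h2 | h2
  · rw [max_eq_left h2]
    have := le_max_left 0 (1 - y / L)
    linarith
  · rw [max_eq_right h2]
    have := le_max_right 0 (1 - y / L)
    linarith

/-- steepness of `nr_phi` -/
theorem nr_steep {ρ l : ℝ} (hρl : 0 < ρ * l) (s : Finset ℕ) {x y : ℝ} (hxy : x ≤ y)
    (h : ρ * l ≤ x ∨ ∃ i ∈ s, y + Real.log i < ρ * l) :
    (y - x) / (ρ * l) ≤ nr_phi ρ l s y - nr_phi ρ l s x := by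
  unfold nr_phi
  have hanti : ∀ i ∈ s, max 0 (1 - (y + Real.log i) / (ρ * l)) ≤
      max 0 (1 - (x + Real.log i) / (ρ * l)) := fun i _ => nr_max_anti hρl (by linarith)
  rcases h with h | ⟨i, hi, h⟩
  · have h1 : max 0 (1 - x / (ρ * l)) = 0 := by
      apply max_eq_left
      have : 1 ≤ x / (ρ * l) := by rw [le_div_iff₀ hρl]; linarith
      linarith
    have h2 := le_max_left 0 (1 - y / (ρ * l))
    have h3 := Finset.sum_le_sum hanti
    rw [h1, sub_div]
    linarith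
  · have h1 := nr_xmax hρl hxy
    have h3 := Finset.sum_le_sum fun i' (hi' : i' ∈ s.erase i) =>
      hanti i' (Finset.mem_of_mem_erase hi')
    rw [← Finset.add_sum_erase s _ hi, ← Finset.add_sum_erase s
      (fun i => max 0 (1 - (x + Real.log i) / (ρ * l))) hi]
    have h4 : max 0 (1 - (y + Real.log i) / (ρ * l)) = 1 - (y + Real.log i) / (ρ * l) := by
      apply max_eq_right
      have : (y + Real.log i) / (ρ * l) ≤ 1 := by rw [div_le_one hρl]; linarith
      linarith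
    have h5 : max 0 (1 - (x + Real.log i) / (ρ * l)) = 1 - (x + Real.log i) / (ρ * l) := by
      apply max_eq_right
      have : (x + Real.log i) / (ρ * l) ≤ 1 := by rw [div_le_one hρl]; linarith
      linarith
    rw [h4, h5, sub_div, add_div, add_div]
    linarith

theorem nr_rpow_lt (N : ℕ) (hN : 0 < N) (y p : ℝ) (hp : 0 < p) :
    (N : ℝ) ^ y < p ↔ y * Real.log N < Real.log p := by
  rw [Real.rpow_def_of_pos (by exact_mod_cast hN), mul_comm, Real.lt_log_iff_exp_lt hp]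

theorem nr_rpow_le (N : ℕ) (hN : 0 < N) (y p : ℝ) (hp : 0 < p) :
    (N : ℝ) ^ y ≤ p ↔ y * Real.log N ≤ Real.log p := by
  rw [Real.rpow_def_of_pos (by exact_mod_cast hN), mul_comm, Real.le_log_iff_exp_le hp]

theorem nr_le_rpow (N : ℕ) (hN : 0 < N) (y p : ℝ) (hp : 0 < p) :
    p ≤ (N : ℝ) ^ y ↔ Real.log p ≤ y * Real.log N := by
  rw [Real.rpow_def_of_pos (by exact_mod_cast hN), mul_comm, Real.log_le_iff_le_exp hp]

/-- a set of primes in a short window -/
theorem nr_window {κ : ℝ} (hκ0 : 0 < κ) (hκ1 : κ ≤ 1 / 10) (N : ℕ) (hN : 2 ≤ N)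
    (hrec : ∀ y y' : ℝ, 7 / 100 ≤ y → y ≤ y' → y' ≤ 2 →
      |∑ p ∈ (Icc 1 (N ^ 2)).filter (fun p : ℕ => p.Prime ∧ (N : ℝ) ^ y < p ∧
        (p : ℝ) ≤ (N : ℝ) ^ y'), (1 / (p : ℝ)) - Real.log (y' / y)| ≤ κ)
    (S : Finset ℕ) (hS : ∀ p ∈ S, p.Prime ∧ (N : ℝ) ^ (17 / 200 : ℝ) ≤ p ∧ p ≤ N)
    (hgap : ∀ p ∈ S, ∀ p' ∈ S, p ≤ p' → Real.log p' - Real.log p ≤ κ * Real.log N) :
    ∑ p ∈ S, 1 / (p : ℝ) ≤ 14 * κ := by
  have hN0 : 0 < N := by omega
  have hl : 0 < Real.log N := Real.log_pos (by exact_mod_cast (by omega : 1 < N))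
  rcases S.eq_empty_or_nonempty with rfl | hne
  · simp; positivity
  set p₀ := S.min' hne with hp₀
  have hp₀S : p₀ ∈ S := S.min'_mem hne
  obtain ⟨hp₀p, hp₀1, hp₀2⟩ := hS p₀ hp₀S
  have hp₀0 : (0 : ℝ) < p₀ := by exact_mod_cast hp₀p.pos
  set y₀ : ℝ := Real.log p₀ / Real.log N with hy₀
  have hy₀l : y₀ * Real.log N = Real.log p₀ := by rw [hy₀]; field_simp
  have hy₀1 : 17 / 200 ≤ y₀ := by
    rw [nr_rpow_le N hN0 _ _ hp₀0] at hp₀1
    rw [hy₀, le_div_iff₀ hl]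
    exact hp₀1
  have hy₀2 : y₀ ≤ 1 := by
    rw [hy₀, div_le_one hl]
    exact Real.log_le_log hp₀0 (by exact_mod_cast hp₀2)
  have hy₀0 : 0 < y₀ := by linarith
  have hy1 : 7 / 100 ≤ y₀ / (1 + κ) := by
    rw [le_div_iff₀ (by linarith)]
    nlinarith
  have hy2 : y₀ / (1 + κ) < y₀ := by
    rw [div_lt_iff₀ (by linarith)]
    nlinarith
  have h1 := hrec (y₀ / (1 + κ)) (y₀ + κ) hy1 (by linarith) (by linarith)
  have hsub : S ⊆ (Icc 1 (N ^ 2)).filter (fun p : ℕ => p.Prime ∧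
      (N : ℝ) ^ (y₀ / (1 + κ)) < p ∧ (p : ℝ) ≤ (N : ℝ) ^ (y₀ + κ)) := by
    intro p hp
    obtain ⟨hpp, -, hpN⟩ := hS p hp
    have hp0 : (0 : ℝ) < p := by exact_mod_cast hpp.pos
    rw [Finset.mem_filter, Finset.mem_Icc]
    refine ⟨⟨hpp.one_lt.le, ?_⟩, hpp, ?_, ?_⟩
    · calc p ≤ N := hpN
        _ ≤ N ^ 2 := Nat.le_self_pow (by norm_num) N
    · rw [nr_rpow_lt N hN0 _ _ hp0]
      have h2 : p₀ ≤ p := S.min'_le p hp
      have h3 : Real.log p₀ ≤ Real.log p := Real.log_le_log hp₀0 (by exact_mod_cast h2)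
      have h4 : y₀ / (1 + κ) * Real.log N < y₀ * Real.log N :=
        mul_lt_mul_of_pos_right hy2 hl
      linarith
    · rw [nr_le_rpow N hN0 _ _ hp0]
      have h2 : p₀ ≤ p := S.min'_le p hp
      have h3 := hgap p₀ hp₀S p hp h2
      have h4 : (y₀ + κ) * Real.log N = Real.log p₀ + κ * Real.log N := by
        rw [add_mul, hy₀l]
      linarith
  have h2 : ∑ p ∈ S, 1 / (p : ℝ) ≤ ∑ p ∈ (Icc 1 (N ^ 2)).filter (fun p : ℕ => p.Prime ∧
      (N : ℝ) ^ (y₀ / (1 + κ)) < p ∧ (p : ℝ) ≤ (N : ℝ) ^ (y₀ + κ)), (1 / (p : ℝ)) :=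
    Finset.sum_le_sum_of_subset_of_nonneg hsub fun p _ _ => by positivity
  have h3 : Real.log ((y₀ + κ) / (y₀ / (1 + κ))) ≤ 13 * κ := by
    have h4 : (y₀ + κ) / (y₀ / (1 + κ)) = (1 + κ / y₀) * (1 + κ) := by field_simp
    rw [h4, Real.log_mul (by positivity) (by positivity)]
    have h5 : Real.log (1 + κ / y₀) ≤ κ / y₀ := by
      have := Real.log_le_sub_one_of_pos (by positivity : 0 < 1 + κ / y₀)
      linarith
    have h6 : Real.log (1 + κ) ≤ κ := by
      have := Real.log_le_sub_one_of_pos (by positivity : 0 < 1 + κ)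
      linarith
    have h7 : κ / y₀ ≤ 12 * κ := by
      rw [div_le_iff₀ hy₀0]
      nlinarith
    linarith
  have h4 := (abs_le.mp h1).2
  linarith

/-- squarefree rough numbers up to `N` -/
noncomputable def nr_R (N : ℕ) : Finset ℕ := (Icc 1 N).filter (fun m => Squarefree m ∧ Rough N m)

theorem nr_R_sum (N : ℕ) (hN : 2 ≤ N)
    (hrec : ∀ y y' : ℝ, 7 / 100 ≤ y → y ≤ y' → y' ≤ 2 →
      |∑ p ∈ (Icc 1 (N ^ 2)).filter (fun p : ℕ => p.Prime ∧ (N : ℝ) ^ y < p ∧
        (p : ℝ) ≤ (N : ℝ) ^ y'), (1 / (p : ℝ)) - Real.log (y' / y)| ≤ 1) :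
    ∑ m ∈ nr_R N, 1 / (m : ℝ) ≤ Real.exp (Real.log (25 / 2) + 1) := by
  have hN0 : 0 < N := by omega
  have hl : 0 < Real.log N := Real.log_pos (by exact_mod_cast (by omega : 1 < N))
  set T : Finset ℕ := (Icc 1 N).filter (fun p => p.Prime ∧ (N : ℝ) ^ (17 / 200 : ℝ) ≤ p) with hT
  have h1 : ∑ m ∈ nr_R N, 1 / (m : ℝ) ≤ ∑ U ∈ T.powerset, ∏ p ∈ U, (1 / (p : ℝ)) := by
    have h2 : ∀ m ∈ nr_R N, 1 / (m : ℝ) = ∏ p ∈ m.primeFactors, (1 / (p : ℝ)) := by
      intro m hm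
      have hsq := (Finset.mem_filter.1 hm).2.1
      rw [Finset.prod_div_distrib, Finset.prod_const_one]
      congr 1
      conv_lhs => rw [← Nat.prod_primeFactors_of_squarefree hsq]
      push_cast
      rfl
    rw [Finset.sum_congr rfl h2]
    have hinj : Set.InjOn Nat.primeFactors ((nr_R N : Finset ℕ) : Set ℕ) := by
      intro m hm m' hm' h
      have hsq := (Finset.mem_filter.1 (Finset.mem_coe.1 hm)).2.1
      have hsq' := (Finset.mem_filter.1 (Finset.mem_coe.1 hm')).2.1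
      rw [← Nat.prod_primeFactors_of_squarefree hsq, ← Nat.prod_primeFactors_of_squarefree hsq', h]
    rw [← Finset.sum_image (f := fun U : Finset ℕ => ∏ p ∈ U, (1 / (p : ℝ))) hinj]
    apply Finset.sum_le_sum_of_subset_of_nonneg
    · intro U hU
      obtain ⟨m, hm, rfl⟩ := Finset.mem_image.1 hU
      have hm2 := Finset.mem_filter.1 hm
      have hmN := Finset.mem_Icc.1 hm2.1
      rw [Finset.mem_powerset]
      intro p hp
      have hpp := Nat.prime_of_mem_primeFactors hp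
      have hpm := Nat.dvd_of_mem_primeFactors hp
      rw [hT, Finset.mem_filter, Finset.mem_Icc]
      refine ⟨⟨hpp.one_lt.le, (Nat.le_of_dvd (by omega) hpm).trans hmN.2⟩, hpp, ?_⟩
      exact hm2.2.2 p hpp hpm
    · intro U _ _
      exact Finset.prod_nonneg fun p _ => by positivity
  refine h1.trans ?_
  rw [← Finset.prod_one_add]
  have h3 : ∏ p ∈ T, (1 + 1 / (p : ℝ)) ≤ Real.exp (∑ p ∈ T, 1 / (p : ℝ)) := by
    rw [Real.exp_sum]
    apply Finset.prod_le_prod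
    · intro p _; positivity
    · intro p _
      have := Real.add_one_le_exp (1 / (p : ℝ))
      linarith
  refine h3.trans (Real.exp_le_exp.mpr ?_)
  have h4 := hrec (2 / 25) 1 (by norm_num) (by norm_num) (by norm_num)
  have h5 : T ⊆ (Icc 1 (N ^ 2)).filter (fun p : ℕ => p.Prime ∧ (N : ℝ) ^ (2 / 25 : ℝ) < p ∧
        (p : ℝ) ≤ (N : ℝ) ^ (1 : ℝ)) := by
    intro p hp
    rw [hT, Finset.mem_filter, Finset.mem_Icc] at hp
    obtain ⟨⟨hp1, hp2⟩, hpp, hp3⟩ := hp
    have hp0 : (0 : ℝ) < p := by exact_mod_cast hpp.pos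
    rw [Finset.mem_filter, Finset.mem_Icc]
    refine ⟨⟨hp1, hp2.trans (Nat.le_self_pow (by norm_num) N)⟩, hpp, ?_, ?_⟩
    · refine lt_of_lt_of_le ?_ hp3
      apply Real.rpow_lt_rpow_of_exponent_lt
      · exact_mod_cast (by omega : 1 < N)
      · norm_num
    · rw [Real.rpow_one]
      exact_mod_cast hp2
  have h6 : ∑ p ∈ T, 1 / (p : ℝ) ≤ _ :=
    Finset.sum_le_sum_of_subset_of_nonneg h5 fun p _ _ => by positivity
  have h7 := (abs_le.mp h4).2
  have h8 : Real.log (1 / (2 / 25)) = Real.log (25 / 2) := by norm_num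
  rw [h8] at h7
  linarith

/-- the exceptional prime -/
theorem nr_exists (ζ : ℝ) (hζ : 0 < ζ) (hζ1 : ζ ≤ 1 / 1000) {κ : ℝ} (hκ1 : κ ≤ 1 / 10) (N : ℕ)
    (hN : 2 ≤ N) (q : ℕ) (hq : q ∈ Qset N) (hF : |Fst ζ N q| < 2 * κ) (hT : q ∉ T5set N) :
    ∃ p ∈ q.primeFactors, (1 / 4 - 2 * ζ) * Real.log N ≤ Real.log p ∨
      ∃ i ∈ q.primeFactors.erase p, Real.log p + Real.log i < (1 / 4 - 2 * ζ) * Real.log N := by
  by_contra hcon
  push Not at hcon
  have hN0 : 0 < N := by omega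
  have hl : 0 < Real.log N := Real.log_pos (by exact_mod_cast (by omega : 1 < N))
  have hsq : Squarefree q := (Finset.mem_filter.1 hq).2.1
  set ρ : ℝ := 1 / 4 - 2 * ζ with hρ
  have hρ0 : 0 < ρ := by rw [hρ]; linarith
  have hρl : 0 < ρ * Real.log N := mul_pos hρ0 hl
  rw [nr_Fst ζ N q hsq, ← hρ] at hF
  unfold nr_F at hF
  have h1 : ∑ p ∈ q.primeFactors, max 0 (1 - Real.log p / (ρ * Real.log N)) =
      q.primeFactors.card - (∑ p ∈ q.primeFactors, Real.log p) / (ρ * Real.log N) := by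
    have h2 : ∀ p ∈ q.primeFactors, max 0 (1 - Real.log p / (ρ * Real.log N)) =
        1 - Real.log p / (ρ * Real.log N) := by
      intro p hp
      apply max_eq_right
      have h3 := (hcon p hp).1
      have : Real.log p / (ρ * Real.log N) ≤ 1 := by rw [div_le_one hρl]; exact h3.le
      linarith
    rw [Finset.sum_congr rfl h2, Finset.sum_sub_distrib, Finset.sum_div]
    simp
  have h4 : ∑ e ∈ q.primeFactors.powersetCard 2,
      max 0 (1 - Real.log ((∏ p ∈ e, p : ℕ) : ℝ) / (ρ * Real.log N)) = 0 := by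
    apply Finset.sum_eq_zero
    intro e he
    rw [Finset.mem_powersetCard, Finset.card_eq_two] at he
    obtain ⟨hes, p, i, hpi, rfl⟩ := he
    have hp : p ∈ q.primeFactors := hes (by simp)
    have hi : i ∈ q.primeFactors := hes (by simp)
    have h5 := (hcon p hp).2 i (Finset.mem_erase.mpr ⟨hpi.symm, hi⟩)
    rw [Finset.prod_pair hpi]
    push_cast
    rw [Real.log_mul (by exact_mod_cast (Nat.prime_of_mem_primeFactors hp).ne_zero)
      (by exact_mod_cast (Nat.prime_of_mem_primeFactors hi).ne_zero)]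
    apply max_eq_left
    have : 1 ≤ (Real.log p + Real.log i) / (ρ * Real.log N) := by
      rw [le_div_iff₀ hρl]; linarith
    linarith
  rw [h1, h4] at hF
  have h6 : (1 - (∑ p ∈ q.primeFactors, Real.log p) / Real.log N) / ρ -
      (q.primeFactors.card - (∑ p ∈ q.primeFactors, Real.log p) / (ρ * Real.log N)) + 0 =
      1 / ρ - q.primeFactors.card := by
    field_simp
    ring
  rw [h6] at hF
  have h7 : 4 ≤ 1 / ρ := by rw [le_div_iff₀ hρ0, hρ]; linarith
  have h8 : 1 / ρ ≤ 5 - 1 / 2 := by rw [div_le_iff₀ hρ0, hρ]; linarith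
  have h9 := abs_lt.mp hF
  have hcard : q.primeFactors.card = 4 := by
    have h10 : (q.primeFactors.card : ℝ) < 5 := by linarith [h9.1]
    have h11 : (3 : ℝ) < q.primeFactors.card := by linarith [h9.2]
    have h12 : q.primeFactors.card < 5 := by exact_mod_cast h10
    have h13 : 3 < q.primeFactors.card := by exact_mod_cast h11
    omega
  apply hT
  unfold T5set
  rw [Finset.mem_filter]
  refine ⟨hq, hcard, ?_⟩
  intro p hp
  have hp0 : (0 : ℝ) < p := by exact_mod_cast (Nat.prime_of_mem_primeFactors hp).pos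
  have h14 := (hcon p hp).1
  rw [Real.rpow_def_of_pos (by exact_mod_cast hN0), ← Real.log_lt_iff_lt_exp hp0]
  have h15 : ρ * Real.log N ≤ Real.log N * (1 / 4) := by rw [hρ]; nlinarith
  linarith

/-- possible new primes -/
noncomputable def nr_S (ρ κ : ℝ) (N m : ℕ) : Finset ℕ :=
  (Icc 1 N).filter (fun p => p.Prime ∧ (N : ℝ) ^ (17 / 200 : ℝ) ≤ p ∧ p ∉ m.primeFactors ∧
    |nr_F ρ (Real.log N) (insert p m.primeFactors)| < 2 * κ ∧
    (ρ * Real.log N ≤ Real.log p ∨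
      ∃ i ∈ m.primeFactors, Real.log p + Real.log i < ρ * Real.log N))

theorem nr_S_sum {ρ : ℝ} (hρ0 : 0 < ρ) (hρ1 : ρ ≤ 1 / 4) {κ : ℝ} (hκ0 : 0 < κ)
    (hκ1 : κ ≤ 1 / 10) (N : ℕ) (hN : 2 ≤ N)
    (hrec : ∀ y y' : ℝ, 7 / 100 ≤ y → y ≤ y' → y' ≤ 2 →
      |∑ p ∈ (Icc 1 (N ^ 2)).filter (fun p : ℕ => p.Prime ∧ (N : ℝ) ^ y < p ∧
        (p : ℝ) ≤ (N : ℝ) ^ y'), (1 / (p : ℝ)) - Real.log (y' / y)| ≤ κ) (m : ℕ) :
    ∑ p ∈ nr_S ρ κ N m, 1 / (p : ℝ) ≤ 28 * κ := by
  have hN0 : 0 < N := by omega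
  have hl : 0 < Real.log N := Real.log_pos (by exact_mod_cast (by omega : 1 < N))
  have hρl : 0 < ρ * Real.log N := mul_pos hρ0 hl
  set s := m.primeFactors with hs
  have hsp : ∀ i ∈ s, i.Prime := fun i hi => Nat.prime_of_mem_primeFactors hi
  -- the gap estimate
  have hgap : ∀ p ∈ nr_S ρ κ N m, ∀ p' ∈ nr_S ρ κ N m, p ≤ p' →
      (ρ * Real.log N ≤ Real.log p ∨ ∃ i ∈ s, Real.log p' + Real.log i < ρ * Real.log N) →
      Real.log p' - Real.log p ≤ κ * Real.log N := by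
    intro p hp p' hp' hpp' h
    have h1 := (Finset.mem_filter.1 hp).2
    have h2 := (Finset.mem_filter.1 hp').2
    have hp0 : (0 : ℝ) < p := by exact_mod_cast h1.1.pos
    have h3 : Real.log p ≤ Real.log p' := Real.log_le_log hp0 (by exact_mod_cast hpp')
    have h4 := nr_steep hρl s h3 h
    have h5 := h1.2.2.2.1
    have h6 := h2.2.2.2.1
    rw [nr_insert ρ _ _ hsp p h1.1 h1.2.2.1] at h5
    rw [nr_insert ρ _ _ hsp p' h2.1 h2.2.2.1] at h6
    have h7 := abs_lt.mp h5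
    have h8 := abs_lt.mp h6
    have h9 : (Real.log p' - Real.log p) / (ρ * Real.log N) ≤ 4 * κ := by
      linarith [h7.1, h7.2, h8.1, h8.2]
    rw [div_le_iff₀ hρl] at h9
    have h10 : 4 * κ * (ρ * Real.log N) ≤ κ * Real.log N := by
      have : ρ * Real.log N ≤ 1 / 4 * Real.log N := mul_le_mul_of_nonneg_right hρ1 hl.le
      nlinarith
    linarith
  have hbase : ∀ p ∈ nr_S ρ κ N m, p.Prime ∧ (N : ℝ) ^ (17 / 200 : ℝ) ≤ p ∧ p ≤ N := by
    intro p hp
    have h1 := Finset.mem_filter.1 hp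
    exact ⟨h1.2.1, h1.2.2.1, (Finset.mem_Icc.1 h1.1).2⟩
  set S1 : Finset ℕ := (nr_S ρ κ N m).filter (fun p : ℕ => ρ * Real.log N ≤ Real.log p) with hS1
  set S2 : Finset ℕ := (nr_S ρ κ N m).filter
    (fun p : ℕ => ∃ i ∈ s, Real.log p + Real.log i < ρ * Real.log N) with hS2
  have hcov : nr_S ρ κ N m ⊆ S1 ∪ S2 := by
    intro p hp
    have h1 := (Finset.mem_filter.1 hp).2.2.2.2.2
    rw [Finset.mem_union, hS1, hS2, Finset.mem_filter, Finset.mem_filter]
    rcases h1 with h1 | h1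
    · left; exact ⟨hp, h1⟩
    · right; exact ⟨hp, h1⟩
  have hw1 : ∑ p ∈ S1, 1 / (p : ℝ) ≤ 14 * κ := by
    apply nr_window hκ0 hκ1 N hN hrec S1
    · intro p hp
      exact hbase p (Finset.mem_filter.1 hp).1
    · intro p hp p' hp' hpp'
      exact hgap p (Finset.mem_filter.1 hp).1 p' (Finset.mem_filter.1 hp').1 hpp'
        (Or.inl (Finset.mem_filter.1 hp).2)
  have hw2 : ∑ p ∈ S2, 1 / (p : ℝ) ≤ 14 * κ := by
    apply nr_window hκ0 hκ1 N hN hrec S2
    · intro p hp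
      exact hbase p (Finset.mem_filter.1 hp).1
    · intro p hp p' hp' hpp'
      exact hgap p (Finset.mem_filter.1 hp).1 p' (Finset.mem_filter.1 hp').1 hpp'
        (Or.inr (Finset.mem_filter.1 hp').2)
  calc ∑ p ∈ nr_S ρ κ N m, 1 / (p : ℝ) ≤ ∑ p ∈ S1 ∪ S2, 1 / (p : ℝ) :=
        Finset.sum_le_sum_of_subset_of_nonneg hcov fun p _ _ => by positivity
    _ ≤ ∑ p ∈ S1, 1 / (p : ℝ) + ∑ p ∈ S2, 1 / (p : ℝ) := by
        rw [← Finset.sum_union_inter]
        have : 0 ≤ ∑ p ∈ S1 ∩ S2, 1 / (p : ℝ) := Finset.sum_nonneg fun p _ => by positivity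
        linarith
    _ ≤ 28 * κ := by linarith

theorem near_small : ∃ C : ℝ, 0 < C ∧ ∀ κ : ℝ, 0 < κ → κ ≤ 1 / 10 → ∀ ζ : ℝ, 0 < ζ →
    ζ ≤ 1 / 1000 → ∀ᶠ N : ℕ in atTop,
      ∑ q ∈ (Qset N).filter (fun q => |Fst ζ N q| < 2 * κ ∧ q ∉ T5set N), (1 / (q : ℝ)) ≤
        C * κ := by
  refine ⟨28 * Real.exp (Real.log (25 / 2) + 1), by positivity, ?_⟩
  intro κ hκ0 hκ1 ζ hζ hζ1
  filter_upwards [recip_window (7 / 100) κ (by norm_num) hκ0,
    recip_window (7 / 100) 1 (by norm_num) one_pos, eventually_ge_atTop 2] with N hr1 hr2 hN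
  set ρ : ℝ := 1 / 4 - 2 * ζ with hρ
  have hρ0 : 0 < ρ := by rw [hρ]; linarith
  have hρ1 : ρ ≤ 1 / 4 := by rw [hρ]; linarith
  set A := (Qset N).filter (fun q => |Fst ζ N q| < 2 * κ ∧ q ∉ T5set N) with hA
  have hex : ∀ q ∈ A, ∃ p ∈ q.primeFactors, ρ * Real.log N ≤ Real.log p ∨
      ∃ i ∈ q.primeFactors.erase p, Real.log p + Real.log i < ρ * Real.log N := by
    intro q hq
    have h1 := Finset.mem_filter.1 hq
    exact nr_exists ζ hζ hζ1 hκ1 N hN q h1.1 h1.2.1 h1.2.2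
  choose! ψ hψ1 hψ2 using hex
  have hmem : ∀ q ∈ A, q / ψ q ∈ nr_R N ∧ ψ q ∈ nr_S ρ κ N (q / ψ q) ∧ q / ψ q * ψ q = q := by
    intro q hq
    have h1 := Finset.mem_filter.1 hq
    have h2 := Finset.mem_filter.1 h1.1
    have hqN := Finset.mem_Icc.1 h2.1
    have hsq := h2.2.1
    have hrough := h2.2.2.1
    have hp := hψ1 q hq
    have hpp := Nat.prime_of_mem_primeFactors hp
    have hpd := Nat.dvd_of_mem_primeFactors hp
    set p := ψ q with hpdef
    have hmul : q / p * p = q := Nat.div_mul_cancel hpd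
    have hmd : q / p ∣ q := Nat.div_dvd_of_dvd hpd
    have hm0 : q / p ≠ 0 := by
      intro h
      rw [h, zero_mul] at hmul
      omega
    have hmsq : Squarefree (q / p) := hsq.squarefree_of_dvd hmd
    have hpm : ¬ p ∣ q / p := by
      intro h
      have h3 : p * p ∣ q := by
        rw [← hmul]
        exact Nat.mul_dvd_mul h (dvd_refl p)
      exact hpp.one_lt.ne' (Nat.isUnit_iff.mp (hsq p h3))
    have hpf : (q / p).primeFactors = q.primeFactors.erase p := by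
      ext i
      rw [Finset.mem_erase, Nat.mem_primeFactors, Nat.mem_primeFactors]
      constructor
      · rintro ⟨hi, hid, -⟩
        refine ⟨?_, hi, hid.trans hmd, by omega⟩
        rintro rfl
        exact hpm hid
      · rintro ⟨hip, hi, hid, -⟩
        refine ⟨hi, ?_, hm0⟩
        rw [← hmul] at hid
        rcases (hi.dvd_mul).mp hid with h | h
        · exact h
        · exact absurd ((Nat.prime_dvd_prime_iff_eq hi hpp).mp h) hip
    refine ⟨?_, ?_, hmul⟩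
    · unfold nr_R
      rw [Finset.mem_filter, Finset.mem_Icc]
      refine ⟨⟨Nat.one_le_iff_ne_zero.mpr hm0, (Nat.div_le_self _ _).trans hqN.2⟩, hmsq, ?_⟩
      intro i hi hid
      exact hrough i hi (hid.trans hmd)
    · unfold nr_S
      rw [Finset.mem_filter, Finset.mem_Icc]
      refine ⟨⟨hpp.one_lt.le, (Nat.le_of_dvd (by omega) hpd).trans hqN.2⟩, hpp,
        hrough p hpp hpd, ?_, ?_, ?_⟩
      · intro h
        exact hpm (Nat.dvd_of_mem_primeFactors h)
      · rw [hpf, Finset.insert_erase hp]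
        have h4 := h1.2.1
        rwa [nr_Fst ζ N q hsq] at h4
      · rw [hpf]
        exact hψ2 q hq
  calc ∑ q ∈ A, (1 / (q : ℝ))
      = ∑ q ∈ A, (1 / ((q / ψ q : ℕ) : ℝ)) * (1 / (ψ q : ℝ)) := by
        refine Finset.sum_congr rfl fun q hq => ?_
        have h1 := (hmem q hq).2.2
        conv_lhs => rw [← h1]
        push_cast
        rw [one_div_mul_one_div]
    _ = ∑ x ∈ A.image (fun q => (⟨q / ψ q, ψ q⟩ : Σ _ : ℕ, ℕ)),
          (1 / (x.1 : ℝ)) * (1 / (x.2 : ℝ)) := by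
        rw [Finset.sum_image]
        intro q hq q' hq' h
        simp only [Sigma.mk.injEq, heq_eq_eq] at h
        rw [← (hmem q hq).2.2, ← (hmem q' hq').2.2, h.1, h.2]
    _ ≤ ∑ x ∈ (nr_R N).sigma (fun m => nr_S ρ κ N m), (1 / (x.1 : ℝ)) * (1 / (x.2 : ℝ)) := by
        apply Finset.sum_le_sum_of_subset_of_nonneg
        · intro x hx
          obtain ⟨q, hq, rfl⟩ := Finset.mem_image.1 hx
          rw [Finset.mem_sigma]
          exact ⟨(hmem q hq).1, (hmem q hq).2.1⟩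
        · intro x _ _
          positivity
    _ = ∑ m ∈ nr_R N, (1 / (m : ℝ)) * ∑ p ∈ nr_S ρ κ N m, 1 / (p : ℝ) := by
        rw [Finset.sum_sigma]
        refine Finset.sum_congr rfl fun m _ => ?_
        rw [Finset.mul_sum]
    _ ≤ ∑ m ∈ nr_R N, (1 / (m : ℝ)) * (28 * κ) := by
        apply Finset.sum_le_sum
        intro m _
        apply mul_le_mul_of_nonneg_left (nr_S_sum hρ0 hρ1 hκ0 hκ1 N hN hr1 m) (by positivity)
    _ = (∑ m ∈ nr_R N, 1 / (m : ℝ)) * (28 * κ) := by rw [Finset.sum_mul]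
    _ ≤ Real.exp (Real.log (25 / 2) + 1) * (28 * κ) :=
        mul_le_mul_of_nonneg_right (nr_R_sum N hN hr2) (by positivity)
    _ = 28 * Real.exp (Real.log (25 / 2) + 1) * κ := by ring

end Pool.Agent.BG4
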