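import Pool.Agent.Lib_helper23.BG4.Defs
import Pool.Agent.Lib_helper23.BG4F.ERR4
import Pool.Agent.Lib_helper23.BGF.FLem
/-! Block PMOD (`prime_mod_total`) -/

set_option autoImplicit false

namespace Pool.Agent.BG4

open Finset Filter Pool.Agent.BG
open scoped Classical

variable {M k : ℕ}

theorem pmod_cop (P : Fin M → ℕ) (V : ℕ) (hPW : ∀ j, Nat.Coprime (P j) V) (x : Vec M k) :
    Nat.Coprime (dv P x) V := by
  unfold dv
  refine Nat.Coprime.prod_left fun j _ => ?_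
  split_ifs
  · exact Nat.coprime_one_left V
  · exact hPW j

theorem pmod_num (k : ℕ) (N L : ℝ) (hN : 0 ≤ N) (hL : 2 ^ (4 * k + 13) ≤ L) :
    ((1 + L) ^ (2 * k + 6)) ^ 2 * (2 * (N / L ^ (4 * k + 30))) ≤ N / L ^ 10 := by
  have hL1 : 1 ≤ L := le_trans (one_le_pow₀ (by norm_num)) hL
  have hL0 : 0 < L := by linarith
  have h1 : ((1 + L) ^ (2 * k + 6)) ^ 2 ≤ 2 ^ (4 * k + 12) * L ^ (4 * k + 12) := by
    rw [← pow_mul, ← mul_pow]
    have : (2 * k + 6) * 2 = 4 * k + 12 := by ring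
    rw [this]
    exact pow_le_pow_left₀ (by linarith) (by linarith) _
  have h2 : (2 : ℝ) ^ (4 * k + 13) ≤ L ^ 8 := by
    refine hL.trans ?_
    calc L = L ^ 1 := (pow_one L).symm
      _ ≤ L ^ 8 := pow_le_pow_right₀ hL1 (by norm_num)
  have h3 : L ^ (4 * k + 30) = L ^ (4 * k + 12) * L ^ 8 * L ^ 10 := by
    rw [← pow_add, ← pow_add]
  have h4 : 0 < L ^ (4 * k + 12) := by positivity
  have h5 : 0 < L ^ 8 := by positivity
  have h6 : 0 < L ^ 10 := by positivity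
  calc ((1 + L) ^ (2 * k + 6)) ^ 2 * (2 * (N / L ^ (4 * k + 30)))
      ≤ (2 ^ (4 * k + 12) * L ^ (4 * k + 12)) * (2 * (N / L ^ (4 * k + 30))) :=
        mul_le_mul_of_nonneg_right h1 (by positivity)
    _ = 2 ^ (4 * k + 13) / L ^ 8 * (N / L ^ 10) := by
        rw [h3, pow_succ (2 : ℝ) (4 * k + 12)]
        field_simp
    _ ≤ 1 * (N / L ^ 10) := by
        refine mul_le_mul_of_nonneg_right ?_ (by positivity)
        rw [div_le_one h5]
        exact h2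
    _ = N / L ^ 10 := one_mul _

theorem prime_mod_total (ζ : ℝ) (hζ : 0 < ζ) (hζ1 : ζ ≤ 1 / 1000) (k : ℕ) (h : Fin k → ℕ)
    (W ν : ℕ) (hs : Setup k 2 h W ν) : ∀ᶠ N : ℕ in atTop, Good4 ζ k N →
      ∀ (M : ℕ) (P : Fin M → ℕ), Enum P W N → ∀ a b : Fin k, a ≠ b → ∀ (ι : Type) (T : Finset ι)
        (τ : ι → ℕ), Set.InjOn τ T → ∀ (X Z : ℝ) (c : ι → Vec M k → ℝ), 1 ≤ Z →
        (W : ℝ) * X * Z ^ 2 ≤ (N : ℝ) ^ (1 / 2 - ζ) →
        (∀ t ∈ T, Squarefree (τ t) ∧ Nat.Coprime (τ t) W ∧ (τ t : ℝ) ≤ X) →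
        (∀ t ∈ T, ∀ x, |c t x| ≤ (1 + Real.log N) ^ (2 * k + 6) * (2 : ℝ) ^ sc x) →
        (∀ t ∈ T, ∀ x, c t x ≠ 0 → Avoid {a} x ∧ (dv P x : ℝ) ≤ Z ∧
          Nat.Coprime (dv P x) (τ t)) →
        ∑ t ∈ T, |∑ n ∈ (win N W ν).filter (fun n => τ t ∣ n + h b), lp (n + h a) *
            Wn P h (c t) n - ((th (2 * N + h a) - th (N + h a)) / (W * τ t).totient) *
              ∑ x, ∑ y, c t x * c t y * ∏ j, Kl (al P j) (x j) (y j)| ≤
          N / Real.log N ^ 10 := by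
  have hWpos : 0 < W := Nat.pos_of_ne_zero hs.2.1.ne_zero
  have hall : ∀ᶠ N : ℕ in atTop, ∀ m : Fin k, h m ≤ N := by
    rw [Filter.eventually_all]
    intro m
    exact eventually_ge_atTop (h m)
  filter_upwards [hall, FL_log_large (2 ^ (4 * k + 13))] with N h1 h2 hgood M P hE a b hab ι T τ hτ
    X Z c hZ1 hlev hT hc hZ
  obtain ⟨hP, hinj, hPW, hd, hPN, -⟩ := FL_enum hs hE
  have hlog1 : 1 ≤ Real.log N := le_trans (one_le_pow₀ (by norm_num)) h2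
  set B : ℝ := (1 + Real.log N) ^ (2 * k + 6) with hB
  have hB0 : 0 ≤ B := by positivity
  set F : ℕ → ℝ := fun q => Emax (2 * N + h a) q + Emax (N + h a) q with hF
  have hF0 : ∀ q, 0 ≤ F q := fun q => add_nonneg (CNT_Emax_nonneg _ _) (CNT_Emax_nonneg _ _)
  have key : ∀ t ∈ T, |∑ n ∈ (win N W ν).filter (fun n => τ t ∣ n + h b), lp (n + h a) *
            Wn P h (c t) n - ((th (2 * N + h a) - th (N + h a)) / (W * τ t).totient) *
              ∑ x, ∑ y, c t x * c t y * ∏ j, Kl (al P j) (x j) (y j)| ≤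
      ∑ x, ∑ y, |c t x| * |c t y| * F (W * τ t * dv2 P x y) := by
    intro t ht
    obtain ⟨t1, t2, t3⟩ := hT t ht
    refine count_prime_mod P hP hinj W hWpos hPW h hd ν N (τ t)
      (Nat.pos_of_ne_zero t1.ne_zero) t2 hs.2.2.2.2 a b ?_ (c t)
      (fun x hx => ⟨(hZ t ht x hx).1, (hZ t ht x hx).2.2⟩)
    intro p hp hpt hpd
    have h3 : p ∣ W := hs.2.2.2.1 p hp a b hab hpd
    have h4 : p ∣ 1 := by
      have t4 : Nat.gcd (τ t) W = 1 := t2
      rw [← t4]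
      exact Nat.dvd_gcd hpt h3
    exact hp.one_lt.ne' (Nat.dvd_one.1 h4)
  refine (Finset.sum_le_sum key).trans ?_
  have h3 := err_sum_mod P hP hinj W hs.2.1 2 (by norm_num) T τ hτ X B Z hB0 hZ1 hT c
    (fun t ht x => by simpa using hc t ht x)
    (fun t ht x hx => ⟨(hZ t ht x hx).2.1,
      Nat.Coprime.mul_right (pmod_cop P W hPW x) (hZ t ht x hx).2.2⟩) F hF0
  refine h3.trans ?_
  have h4 : ∑ q ∈ sqf (W * X * Z ^ 2),
        (((2 * (k + 1) ^ 2 * 2 ^ 2 : ℕ) : ℝ)) ^ q.primeFactors.card * F q ≤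
      2 * (N / Real.log N ^ (4 * k + 30)) := by
    have hD : (2 * (k + 1) ^ 2 * 2 ^ 2 : ℕ) = 8 * (k + 1) ^ 2 := by ring
    rw [hD]
    have h5 : ∑ q ∈ sqf (W * X * Z ^ 2),
        (((8 * (k + 1) ^ 2 : ℕ) : ℝ)) ^ q.primeFactors.card * F q ≤
        ∑ q ∈ sqf ((N : ℝ) ^ (1 / 2 - ζ)),
          (((8 * (k + 1) ^ 2 : ℕ) : ℝ)) ^ q.primeFactors.card * F q := by
      refine Finset.sum_le_sum_of_subset_of_nonneg ?_ (fun q _ _ =>
        mul_nonneg (by positivity) (hF0 q))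
      unfold sqf
      refine Finset.filter_subset_filter _ (Finset.Icc_subset_Icc_right ?_)
      exact Nat.floor_mono hlev
    refine h5.trans ?_
    have h6 : ∑ q ∈ sqf ((N : ℝ) ^ (1 / 2 - ζ)),
          (((8 * (k + 1) ^ 2 : ℕ) : ℝ)) ^ q.primeFactors.card * F q =
        ∑ q ∈ sqf ((N : ℝ) ^ (1 / 2 - ζ)),
          (((8 * (k + 1) ^ 2 : ℕ) : ℝ)) ^ q.primeFactors.card * Emax (2 * N + h a) q +
        ∑ q ∈ sqf ((N : ℝ) ^ (1 / 2 - ζ)),
          (((8 * (k + 1) ^ 2 : ℕ) : ℝ)) ^ q.primeFactors.card * Emax (N + h a) q := by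
      rw [← Finset.sum_add_distrib]
      exact Finset.sum_congr rfl fun q _ => by rw [hF]; ring
    rw [h6]
    have h7 := h1 a
    have h8 := hgood (2 * N + h a) (by omega)
    have h9 := hgood (N + h a) (by omega)
    linarith
  calc B ^ 2 * ∑ q ∈ sqf (W * X * Z ^ 2),
        (((2 * (k + 1) ^ 2 * 2 ^ 2 : ℕ) : ℝ)) ^ q.primeFactors.card * F q
      ≤ B ^ 2 * (2 * (N / Real.log N ^ (4 * k + 30))) :=
        mul_le_mul_of_nonneg_left h4 (by positivity)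
    _ ≤ N / Real.log N ^ 10 := pmod_num k N (Real.log N) (Nat.cast_nonneg _) h2

end Pool.Agent.BG4
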