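import Pool.Agent.Lib_helper23.BG4.Defs
import Pool.Agent.Lib_helper23.BGF.Common
import Pool.Agent.Lib_helper23.BGF.NUM
/-! Block PW: the values of the Selberg weight at products of large primes. -/

set_option autoImplicit false

namespace Pool.Agent.BG4

open Finset Filter Pool.Agent.BG
open scoped Classical

variable {M k : ℕ}

/-! ### vectors with one value -/

/-- the vector of a set -/
noncomputable def PW_v (b : Fin k) (U : Finset (Fin M)) : Vec M k :=
  fun j => if j ∈ U then some b else none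

theorem PW_v_vals (b : Fin k) (U : Finset (Fin M)) : Vals {b} (PW_v b U) := by
  intro j i h
  unfold PW_v at h
  split_ifs at h with h1
  rw [Option.some.injEq] at h
  rw [mem_singleton]
  exact h.symm

theorem PW_supp (b : Fin k) (U : Finset (Fin M)) :
    univ.filter (fun j => PW_v b U j ≠ none) = U := by
  ext j
  simp [PW_v]

theorem PW_of_vals (b : Fin k) (x : Vec M k) (hx : Vals {b} x) :
    PW_v b (univ.filter (fun j => x j ≠ none)) = x := by
  funext j
  unfold PW_v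
  by_cases h : x j = none
  · simp [h]
  · obtain ⟨i, hi⟩ := Option.ne_none_iff_exists'.mp h
    have := hx j i hi
    rw [mem_singleton] at this
    rw [if_pos (by simp [hi]), hi, this]

theorem PW_sum (b : Fin k) (F : Vec M k → ℝ) :
    ∑ x : Vec M k, (if Vals {b} x then F x else 0) = ∑ U : Finset (Fin M), F (PW_v b U) := by
  rw [← Finset.sum_filter]
  refine Finset.sum_nbij' (fun x => univ.filter (fun j => x j ≠ none)) (PW_v b) ?_ ?_ ?_ ?_ ?_
  · intros
    exact mem_univ _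
  · intro U _
    rw [mem_filter]
    exact ⟨mem_univ _, PW_v_vals b U⟩
  · intro x hx
    exact PW_of_vals b x (mem_filter.mp hx).2
  · intro U _
    exact PW_supp b U
  · intro x hx
    rw [PW_of_vals b x (mem_filter.mp hx).2]

theorem PW_sc (b : Fin k) (U : Finset (Fin M)) : sc (PW_v b U) = U.card := by
  unfold sc
  rw [PW_supp]

theorem PW_dv (P : Fin M → ℕ) (b : Fin k) (U : Finset (Fin M)) : dv P (PW_v b U) = pr P U := by
  rw [ES_dv, PW_supp]

theorem PW_gw (γ : Fin M → ℝ) (b : Fin k) (U : Finset (Fin M)) :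
    gw γ (PW_v b U) = ∏ j ∈ U, γ j := by
  unfold gw
  have h1 : ∀ j, om (γ j) (PW_v b U j) = if j ∈ U then γ j else 1 := by
    intro j
    unfold PW_v
    split_ifs <;> rfl
  rw [prod_congr rfl (fun j _ => h1 j), Finset.prod_ite_mem, Finset.univ_inter]

theorem PW_Al (α : Fin M → ℝ) (b : Fin k) (B U : Finset (Fin M)) :
    ∏ j, Al (α j) (PW_v b B j) (PW_v b U j) = if B ⊆ U then ∏ j ∈ U \ B, α j else 0 := by
  split_ifs with h
  · have h3 : ∀ j, Al (α j) (PW_v b B j) (PW_v b U j) = if j ∈ U \ B then α j else 1 := by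
      intro j
      unfold PW_v
      by_cases h1 : j ∈ B
      · have h2 := h h1
        simp [h1, h2, Al]
      · by_cases h2 : j ∈ U <;> simp [h1, h2, Al]
    rw [prod_congr rfl (fun j _ => h3 j), Finset.prod_ite_mem, Finset.univ_inter]
  · obtain ⟨j, hj, hj'⟩ := Finset.not_subset.mp h
    exact Finset.prod_eq_zero (mem_univ j) (by simp [PW_v, hj, hj', Al])

theorem PW_tr (P : Fin M → ℕ) (b : Fin k) (F : ℕ → ℝ) (α : Fin M → ℝ) (B : Finset (Fin M)) :
    tr α (omf P {b} F) (PW_v b B) =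
      ∑ U : Finset (Fin M), (if B ⊆ U then F (pr P U) * ∏ j ∈ U \ B, α j else 0) := by
  unfold tr
  have h1 : ∀ x : Vec M k, omf P {b} F x * ∏ j, Al (α j) (PW_v b B j) (x j) =
      if Vals {b} x then F (dv P x) * ∏ j, Al (α j) (PW_v b B j) (x j) else 0 := by
    intro x
    unfold omf
    by_cases hv : Vals {b} x
    · rw [if_pos hv, if_pos hv]
    · rw [if_neg hv, if_neg hv, zero_mul]
  rw [sum_congr rfl (fun x _ => h1 x), PW_sum]
  apply sum_congr rfl
  intro U _
  rw [PW_dv, PW_Al]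
  by_cases hB : B ⊆ U
  · rw [if_pos hB, if_pos hB]
  · rw [if_neg hB, if_neg hB, mul_zero]

theorem PW_sat (P : Fin M → ℕ) (h : Fin k → ℕ) (b : Fin k) (n : ℕ) (U : Finset (Fin M)) :
    Sat P h n (PW_v b U) ↔ U ⊆ univ.filter (fun j => P j ∣ n + h b) := by
  unfold Sat
  constructor
  · intro hs j hj
    rw [mem_filter]
    exact ⟨mem_univ _, hs j b (by simp [PW_v, hj])⟩
  · intro hs j i hji
    unfold PW_v at hji
    split_ifs at hji with h1
    rw [Option.some.injEq] at hji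
    rw [← hji]
    exact (mem_filter.mp (hs h1)).2

theorem PW_Lam (P : Fin M → ℕ) (h : Fin k → ℕ) (b : Fin k) (F : ℕ → ℝ) (α : Fin M → ℝ) (n : ℕ) :
    Lam P h {b} (lam α (omf P {b} F)) n =
      ∑ B ∈ (univ.filter (fun j => P j ∣ n + h b)).powerset, (-1) ^ B.card *
        ∑ U : Finset (Fin M), (if B ⊆ U then F (pr P U) * ∏ j ∈ U \ B, α j else 0) := by
  unfold Lam
  have h1 : ∀ x : Vec M k, (if Sat P h n x ∧ Vals {b} x then lam α (omf P {b} F) x else 0) =
      if Vals {b} x then (if Sat P h n x then lam α (omf P {b} F) x else 0) else 0 := by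
    intro x
    by_cases h1 : Vals {b} x <;> by_cases h2 : Sat P h n x <;> simp [h1, h2]
  rw [sum_congr rfl (fun x _ => h1 x), PW_sum]
  have h2 : ∀ U : Finset (Fin M), (if Sat P h n (PW_v b U) then lam α (omf P {b} F) (PW_v b U)
      else 0) = if U ∈ (univ.filter (fun j => P j ∣ n + h b)).powerset then
        lam α (omf P {b} F) (PW_v b U) else 0 := by
    intro U
    by_cases h3 : Sat P h n (PW_v b U)
    · rw [if_pos h3, if_pos (mem_powerset.mpr ((PW_sat P h b n U).mp h3))]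
    · rw [if_neg h3, if_neg (fun h' => h3 ((PW_sat P h b n U).mpr (mem_powerset.mp h')))]
  rw [sum_congr rfl (fun U _ => h2 U), Finset.sum_ite_mem, Finset.univ_inter]
  apply sum_congr rfl
  intro B _
  unfold lam
  rw [PW_sc, PW_tr]

theorem PW_GS (P : Fin M → ℕ) (b : Fin k) (γ : Fin M → ℝ) (f : ℕ → ℝ) :
    GS P {b} γ f = ∑ U : Finset (Fin M), f (pr P U) * ∏ j ∈ U, γ j := by
  unfold GS
  have h1 : ∀ x : Vec M k, omf P {b} f x * gw γ x =
      if Vals {b} x then f (dv P x) * gw γ x else 0 := by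
    intro x
    unfold omf
    by_cases hv : Vals {b} x
    · rw [if_pos hv, if_pos hv]
    · rw [if_neg hv, if_neg hv, zero_mul]
  rw [sum_congr rfl (fun x _ => h1 x), PW_sum]
  apply sum_congr rfl
  intro U _
  rw [PW_dv, PW_gw]

/-! ### the inner sums -/

/-- the inner sums -/
noncomputable def PW_T (P : Fin M → ℕ) (R : ℝ) (B : Finset (Fin M)) : ℝ :=
  ∑ U : Finset (Fin M), (if B ⊆ U then f1 R (pr P U) * ∏ j ∈ U \ B, al P j else 0)

theorem PW_f1_nonneg (R : ℝ) (a : ℕ) : 0 ≤ f1 R a := by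
  unfold f1
  split_ifs <;> norm_num

theorem PW_f1_div (R : ℝ) (p a : ℕ) (hp : 0 < p) : f1 R (p * a) = f1 (R / p) a := by
  have hp' : (0 : ℝ) < p := by exact_mod_cast hp
  unfold f1
  have : ((p * a : ℕ) : ℝ) ≤ R ↔ (a : ℝ) ≤ R / p := by
    rw [le_div_iff₀ hp']
    push_cast
    rw [mul_comm]
  simp only [this]

theorem PW_pr_split (P : Fin M → ℕ) (B U : Finset (Fin M)) (h : B ⊆ U) :
    pr P U = pr P B * pr P (U \ B) := by
  unfold pr
  rw [mul_comm]
  exact (Finset.prod_sdiff h).symm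

theorem PW_T_upper (P : Fin M → ℕ) (hP : ∀ j, (P j).Prime) (R : ℝ) (B : Finset (Fin M)) :
    PW_T P R B ≤ Gsum P (f1 (R / pr P B)) := by
  have hal : ∀ j, 0 ≤ al P j := NUM_al_nonneg P hP
  unfold PW_T Gsum
  rw [← Finset.sum_filter]
  refine ES_inj _ _ (fun U => U \ B) (fun _ _ => mem_univ _) ?_ _ _ ?_ ?_
  · intro U hU V hV h
    rw [mem_filter] at hU hV
    beta_reduce at h
    rw [← Finset.sdiff_union_of_subset hU.2, h, Finset.sdiff_union_of_subset hV.2]
  · intro U hU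
    rw [mem_filter] at hU
    rw [PW_pr_split P B U hU.2, PW_f1_div R _ _ (NUM_pr_pos P hP B)]
  · intro V _
    exact mul_nonneg (PW_f1_nonneg _ _) (prod_nonneg (fun j _ => hal j))

theorem PW_Gsum_mem (P : Fin M → ℕ) (hP : ∀ j, (P j).Prime) (x : ℝ) (j : Fin M) :
    ∑ V : Finset (Fin M), (if j ∈ V then f1 x (pr P V) * ∏ i ∈ V, al P i else 0) ≤
      al P j * Gsum P (f1 x) := by
  have hal : ∀ j, 0 ≤ al P j := NUM_al_nonneg P hP
  have hprod : ∀ U : Finset (Fin M), 0 ≤ ∏ j ∈ U, al P j :=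
    fun U => prod_nonneg (fun j _ => hal j)
  rw [← Finset.sum_filter]
  unfold Gsum
  rw [mul_sum]
  refine ES_inj _ _ (fun U => U.erase j) (fun _ _ => mem_univ _) ?_ _ _ ?_ ?_
  · intro U hU V hV h
    rw [mem_filter] at hU hV
    beta_reduce at h
    rw [← Finset.insert_erase hU.2, h, Finset.insert_erase hV.2]
  · intro U hU
    rw [mem_filter] at hU
    have h3 : pr P U = P j * pr P (U.erase j) := by
      unfold pr
      rw [Finset.mul_prod_erase _ _ hU.2]
    have h4 : ∏ i ∈ U, al P i = al P j * ∏ i ∈ U.erase j, al P i := by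
      rw [Finset.mul_prod_erase _ _ hU.2]
    have h5 : f1 x (pr P U) ≤ f1 x (pr P (U.erase j)) := by
      unfold f1
      by_cases h6 : ((pr P U : ℕ) : ℝ) ≤ x
      · have h7 : pr P (U.erase j) ≤ pr P U :=
          ES_pr_mono P (fun j => (hP j).one_le) (Finset.erase_subset _ _)
        have h8 : ((pr P (U.erase j) : ℕ) : ℝ) ≤ x := le_trans (by exact_mod_cast h7) h6
        rw [if_pos h6, if_pos h8]
      · rw [if_neg h6]
        split_ifs <;> norm_num
    rw [h4]
    calc f1 x (pr P U) * (al P j * ∏ i ∈ U.erase j, al P i) ≤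
        f1 x (pr P (U.erase j)) * (al P j * ∏ i ∈ U.erase j, al P i) :=
          mul_le_mul_of_nonneg_right h5 (mul_nonneg (hal j) (hprod _))
      _ = al P j * (f1 x (pr P (U.erase j)) * ∏ i ∈ U.erase j, al P i) := by ring
  · intro V _
    exact mul_nonneg (hal j) (mul_nonneg (PW_f1_nonneg _ _) (hprod V))

theorem PW_T_lower (P : Fin M → ℕ) (hP : ∀ j, (P j).Prime) (R : ℝ) (B : Finset (Fin M)) :
    Gsum P (f1 (R / pr P B)) * (1 - ∑ j ∈ B, al P j) ≤ PW_T P R B := by
  have hal : ∀ j, 0 ≤ al P j := NUM_al_nonneg P hP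
  have hprod : ∀ U : Finset (Fin M), 0 ≤ ∏ j ∈ U, al P j :=
    fun U => prod_nonneg (fun j _ => hal j)
  set x := R / pr P B with hx
  have h1 : Gsum P (f1 x) ≤ ∑ V : Finset (Fin M),
      (if Disjoint V B then f1 x (pr P V) * ∏ i ∈ V, al P i else 0) +
      ∑ V : Finset (Fin M), ∑ j ∈ B, (if j ∈ V then f1 x (pr P V) * ∏ i ∈ V, al P i else 0) := by
    unfold Gsum
    rw [← sum_add_distrib]
    apply sum_le_sum
    intro V _
    have h0 : 0 ≤ f1 x (pr P V) * ∏ i ∈ V, al P i := mul_nonneg (PW_f1_nonneg _ _) (hprod V)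
    have hnn : ∀ j ∈ B, 0 ≤ (if j ∈ V then f1 x (pr P V) * ∏ i ∈ V, al P i else 0) := by
      intro j _
      split_ifs
      · exact h0
      · exact le_rfl
    by_cases hd : Disjoint V B
    · rw [if_pos hd]
      linarith [sum_nonneg hnn]
    · rw [if_neg hd]
      rw [Finset.not_disjoint_iff] at hd
      obtain ⟨j, hjV, hjB⟩ := hd
      have h3 := Finset.single_le_sum hnn hjB
      rw [if_pos hjV] at h3
      linarith
  have h2 : ∑ V : Finset (Fin M), ∑ j ∈ B,
      (if j ∈ V then f1 x (pr P V) * ∏ i ∈ V, al P i else 0) ≤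
      (∑ j ∈ B, al P j) * Gsum P (f1 x) := by
    rw [sum_comm, sum_mul]
    exact sum_le_sum (fun j _ => PW_Gsum_mem P hP x j)
  have h3 : ∑ V : Finset (Fin M),
      (if Disjoint V B then f1 x (pr P V) * ∏ i ∈ V, al P i else 0) ≤ PW_T P R B := by
    unfold PW_T
    rw [← Finset.sum_filter, ← Finset.sum_filter]
    refine ES_inj _ _ (fun V => V ∪ B) ?_ ?_ _ _ ?_ ?_
    · intro V _
      rw [mem_filter]
      exact ⟨mem_univ _, Finset.subset_union_right⟩
    · intro U hU V hV h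
      rw [mem_filter] at hU hV
      beta_reduce at h
      have h4 : (U ∪ B) \ B = U := Finset.union_sdiff_cancel_right hU.2
      have h5 : (V ∪ B) \ B = V := Finset.union_sdiff_cancel_right hV.2
      rw [← h4, h, h5]
    · intro V hV
      rw [mem_filter] at hV
      have h5 : (V ∪ B) \ B = V := Finset.union_sdiff_cancel_right hV.2
      rw [PW_pr_split P B (V ∪ B) Finset.subset_union_right, h5,
        PW_f1_div R _ _ (NUM_pr_pos P hP B)]
    · intro V _
      exact mul_nonneg (PW_f1_nonneg _ _) (prod_nonneg (fun j _ => hal j))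
  nlinarith

/-! ### the ratio of the one-dimensional sums -/

theorem PW_VW_mono (W : ℕ) {x y : ℝ} (h : x ≤ y) : VW W x ≤ VW W y := by
  unfold VW
  apply Finset.sum_le_sum_of_subset_of_nonneg
  · intro a ha
    rw [mem_filter, VAS_mem_sqf] at ha ⊢
    exact ⟨⟨ha.1.1, ha.1.2.1.trans h, ha.1.2.2⟩, ha.2⟩
  · intro i _ _
    positivity

theorem PW_VW_nonneg (W : ℕ) (x : ℝ) : 0 ≤ VW W x := by
  unfold VW
  positivity

theorem PW_VW_lt_one (W : ℕ) (x : ℝ) (hx : x < 1) : VW W x = 0 := by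
  unfold VW
  apply Finset.sum_eq_zero
  intro a ha
  rw [mem_filter, VAS_mem_sqf] at ha
  have h1 : (1 : ℝ) ≤ a := by exact_mod_cast ha.1.1
  linarith [ha.1.2.1]

theorem PW_ratio (ε ρ : ℝ) (hε : 0 < ε) (hε1 : ε ≤ 1) (hρ : 0 < ρ) : ∃ w₀ : ℕ,
    ∀ W : ℕ, 0 < W → (∀ p : ℕ, p.Prime → p ≤ w₀ → p ∣ W) → ∀ᶠ N : ℕ in atTop,
      0 < VW W ((N : ℝ) ^ ρ) ∧ ∀ x : ℝ, 0 < x → x ≤ (N : ℝ) ^ ρ →
        |VW W x / VW W ((N : ℝ) ^ ρ) - max 0 (Real.log x / (ρ * Real.log N))| ≤ ε := by
  set ε₁ : ℝ := ε / 8 with hε₁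
  have h0 : 0 < ε₁ := by positivity
  have h1 : ε₁ ≤ 1 / 8 := by rw [hε₁]; linarith
  obtain ⟨w₀, hw⟩ := VW_asymp ε₁ h0
  refine ⟨w₀, ?_⟩
  intro W hW hdiv
  obtain ⟨C, hC⟩ := hw W hW hdiv
  have hW0 : (0 : ℝ) < W := by exact_mod_cast hW
  have hφ0 : (0 : ℝ) < (W.totient : ℝ) / W := by
    have : 0 < W.totient := Nat.totient_pos.mpr hW
    positivity
  set φ := (W.totient : ℝ) / W with hφ
  have hlog : ∀ᶠ N : ℕ in atTop, C / (ε₁ * φ * ρ) ≤ Real.log N :=
    (Real.tendsto_log_atTop.comp tendsto_natCast_atTop_atTop).eventually_ge_atTop _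
  filter_upwards [hlog, eventually_ge_atTop 2] with N hlog hN2
  have hN1 : (1 : ℝ) < N := by
    have : (2 : ℝ) ≤ N := by exact_mod_cast hN2
    linarith
  have hN0 : (0 : ℝ) < N := by linarith
  have hℓ : 0 < Real.log N := Real.log_pos hN1
  set R := (N : ℝ) ^ ρ with hR
  have hR1 : 1 ≤ R := Real.one_le_rpow hN1.le hρ.le
  have hlogR : Real.log R = ρ * Real.log N := Real.log_rpow hN0 ρ
  set L := ρ * Real.log N with hL
  have hL0 : 0 < L := by positivity
  set F := φ * L with hF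
  have hF0 : 0 < F := by positivity
  have hCF : C ≤ ε₁ * F := by
    rw [div_le_iff₀ (by positivity)] at hlog
    rw [hF, hL]
    linarith
  have hG1 : (1 - 2 * ε₁) * F ≤ VW W R := by
    have h2 := (hC R hR1).1
    rw [hlogR] at h2
    have h3 : (1 - ε₁) * φ * L = (1 - ε₁) * F := by rw [hF]; ring
    rw [h3] at h2
    linarith
  have hG2 : VW W R ≤ (1 + 2 * ε₁) * F := by
    have h2 := (hC R hR1).2
    rw [hlogR] at h2
    have h3 : (1 + ε₁) * φ * L = (1 + ε₁) * F := by rw [hF]; ring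
    rw [h3] at h2
    linarith
  have hG0 : 0 < VW W R := by
    have : 0 < (1 - 2 * ε₁) * F := mul_pos (by linarith) hF0
    linarith
  refine ⟨hG0, ?_⟩
  intro x hx0 hxR
  by_cases hx1 : x < 1
  · rw [PW_VW_lt_one W x hx1, zero_div]
    have h2 : Real.log x / L ≤ 0 := div_nonpos_of_nonpos_of_nonneg
      (Real.log_nonpos hx0.le hx1.le) hL0.le
    rw [max_eq_left h2]
    simpa using hε.le
  · push Not at hx1
    have hlx : 0 ≤ Real.log x := Real.log_nonneg hx1
    set lam := Real.log x / L with hlam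
    have hlam0 : 0 ≤ lam := div_nonneg hlx hL0.le
    have hlam1 : lam ≤ 1 := by
      rw [hlam, div_le_one hL0, ← hlogR]
      exact Real.log_le_log hx0 hxR
    have hlxe : Real.log x = lam * L := by rw [hlam]; field_simp
    rw [max_eq_right hlam0]
    obtain ⟨h2, h3⟩ := hC x hx1
    have h4 : (1 - ε₁) * φ * Real.log x = (1 - ε₁) * lam * F := by rw [hlxe, hF]; ring
    have h5 : (1 + ε₁) * φ * Real.log x = (1 + ε₁) * lam * F := by rw [hlxe, hF]; ring
    rw [h4] at h2
    rw [h5] at h3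
    have h6 : VW W x ≤ (lam + 2 * ε₁) * F := by
      have h7 : ε₁ * lam * F ≤ ε₁ * F := by
        have : ε₁ * lam ≤ ε₁ := by nlinarith
        exact mul_le_mul_of_nonneg_right this hF0.le
      nlinarith
    have h7 : (lam - 2 * ε₁) * F ≤ VW W x := by
      have h7 : ε₁ * lam * F ≤ ε₁ * F := by
        have : ε₁ * lam ≤ ε₁ := by nlinarith
        exact mul_le_mul_of_nonneg_right this hF0.le
      nlinarith
    have h8 : ε = 8 * ε₁ := by rw [hε₁]; ring
    rw [abs_le]
    constructor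
    · rw [neg_le_sub_iff_le_add]
      have h9 : (lam - ε) * VW W R ≤ VW W x := by
        by_cases h10 : lam - ε ≤ 0
        · have := PW_VW_nonneg W x
          nlinarith
        · push Not at h10
          have h11 : (lam - ε) * VW W R ≤ (lam - ε) * ((1 + 2 * ε₁) * F) :=
            mul_le_mul_of_nonneg_left hG2 h10.le
          have h12 : (lam - ε) * (1 + 2 * ε₁) ≤ lam - 2 * ε₁ := by
            rw [h8]
            nlinarith
          have h13 : (lam - ε) * ((1 + 2 * ε₁) * F) ≤ (lam - 2 * ε₁) * F := by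
            rw [← mul_assoc]
            exact mul_le_mul_of_nonneg_right h12 hF0.le
          linarith
      have h10 : lam - ε ≤ VW W x / VW W R := by
        rw [le_div_iff₀ hG0]
        exact h9
      linarith
    · rw [sub_le_iff_le_add, div_le_iff₀ hG0]
      have h9 : (ε + lam) * ((1 - 2 * ε₁) * F) ≤ (ε + lam) * VW W R :=
        mul_le_mul_of_nonneg_left hG1 (by linarith)
      have h10 : lam + 2 * ε₁ ≤ (ε + lam) * (1 - 2 * ε₁) := by
        rw [h8]
        nlinarith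
      have h11 : (lam + 2 * ε₁) * F ≤ (ε + lam) * ((1 - 2 * ε₁) * F) := by
        calc (lam + 2 * ε₁) * F ≤ ((ε + lam) * (1 - 2 * ε₁)) * F :=
              mul_le_mul_of_nonneg_right h10 hF0.le
          _ = (ε + lam) * ((1 - 2 * ε₁) * F) := by ring
      linarith

/-! ### rough numbers -/

theorem PW_card (N m : ℕ) (hN : 2 ≤ N) (h3 : 3 < (N : ℝ) ^ (1 / 50 : ℝ)) (hm : Rough N m)
    (hsq : Squarefree m) (hm3 : (m : ℝ) ≤ 3 * N) : m.primeFactors.card ≤ 11 := by
  by_contra hcon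
  push Not at hcon
  have hN0 : (0 : ℝ) < N := by
    have : 0 < N := by omega
    exact_mod_cast this
  have hN1 : (1 : ℝ) ≤ N := by
    have : 1 ≤ N := by omega
    exact_mod_cast this
  set z := (N : ℝ) ^ (17 / 200 : ℝ) with hz
  have hz1 : 1 ≤ z := Real.one_le_rpow hN1 (by norm_num)
  have h1 : z ^ m.primeFactors.card ≤ (m : ℝ) := by
    calc z ^ m.primeFactors.card = ∏ p ∈ m.primeFactors, z := by rw [prod_const]
      _ ≤ ∏ p ∈ m.primeFactors, (p : ℝ) := by
          apply Finset.prod_le_prod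
          · intro p _
            linarith
          · intro p hp
            exact hm p (Nat.prime_of_mem_primeFactors hp) (Nat.dvd_of_mem_primeFactors hp)
      _ = ((∏ p ∈ m.primeFactors, p : ℕ) : ℝ) := by push_cast; rfl
      _ = m := by rw [Nat.prod_primeFactors_of_squarefree hsq]
  have h2 : z ^ 12 ≤ z ^ m.primeFactors.card := pow_le_pow_right₀ hz1 (by omega)
  have h4 : z ^ 12 = (N : ℝ) * (N : ℝ) ^ (1 / 50 : ℝ) := by
    rw [hz, ← Real.rpow_natCast, ← Real.rpow_mul hN0.le]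
    nth_rewrite 2 [← Real.rpow_one (N : ℝ)]
    rw [← Real.rpow_add hN0]
    norm_num
  have h5 : (N : ℝ) * 3 < (N : ℝ) * (N : ℝ) ^ (1 / 50 : ℝ) := mul_lt_mul_of_pos_left h3 hN0
  linarith

theorem PW_powerset (P : Fin M → ℕ) (W N m : ℕ) (hE : Enum P W N) (hm0 : 0 < m)
    (hm : ∀ p : ℕ, p.Prime → p ∣ m → p ≤ N ∧ ¬ p ∣ W) (φ : ℕ → ℝ) :
    ∑ B ∈ (univ.filter (fun j => P j ∣ m)).powerset, (-1) ^ B.card * φ (pr P B) =
      ∑ e ∈ m.primeFactors.powerset, (-1) ^ e.card * φ (∏ p ∈ e, p) := by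
  have hP : ∀ j, (P j).Prime := fun j => ((hE.2 (P j)).mp ⟨j, rfl⟩).1
  refine Finset.sum_nbij (fun B => B.image P) ?_ ?_ ?_ ?_
  · intro B hB
    rw [mem_powerset] at hB ⊢
    intro p hp
    rw [mem_image] at hp
    obtain ⟨j, hj, rfl⟩ := hp
    exact Nat.mem_primeFactors.mpr ⟨hP j, (mem_filter.mp (hB hj)).2, by omega⟩
  · intro B _ B' _ h
    exact Finset.image_injective hE.1 h
  · intro e he
    rw [Finset.mem_coe, mem_powerset] at he
    refine ⟨univ.filter (fun j => P j ∈ e), ?_, ?_⟩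
    · rw [Finset.mem_coe, mem_powerset]
      intro j hj
      rw [mem_filter] at hj ⊢
      exact ⟨mem_univ _, Nat.dvd_of_mem_primeFactors (he hj.2)⟩
    · ext p
      rw [mem_image]
      constructor
      · rintro ⟨j, hj, rfl⟩
        exact (mem_filter.mp hj).2
      · intro hp
        have h1 := he hp
        have h2 := hm p (Nat.prime_of_mem_primeFactors h1) (Nat.dvd_of_mem_primeFactors h1)
        obtain ⟨j, hj⟩ := (hE.2 p).mpr ⟨Nat.prime_of_mem_primeFactors h1, h2.1, h2.2⟩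
        refine ⟨j, ?_, hj⟩
        rw [mem_filter, hj]
        exact ⟨mem_univ _, hp⟩
  · intro B _
    beta_reduce
    rw [Finset.card_image_of_injective _ hE.1, Finset.prod_image (fun a _ b _ h => hE.1 h)]
    rfl

theorem PW_comb (s : Finset ℕ) (p : ℕ) (hp : p ∉ s) (φ : ℕ → ℝ) (h1 : φ 1 = 1)
    (h3 : ∀ e ⊆ s, 3 ≤ e.card → φ (∏ r ∈ e, r) = 0)
    (h2 : ∀ e ⊆ s, e.Nonempty → φ (p * ∏ r ∈ e, r) = 0) :
    ∑ e ∈ (insert p s).powerset, (-1) ^ e.card * φ (∏ r ∈ e, r) =
      (1 - φ p) - ∑ r ∈ s, φ r + ∑ e ∈ s.powersetCard 2, φ (∏ r ∈ e, r) := by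
  rw [Finset.sum_powerset_insert hp]
  have hA : ∑ t ∈ s.powerset, (-1) ^ (insert p t).card * φ (∏ r ∈ insert p t, r) = -φ p := by
    rw [Finset.sum_eq_single_of_mem ∅ (Finset.empty_mem_powerset s)]
    · simp
    · intro t ht hne
      rw [mem_powerset] at ht
      have hpt : p ∉ t := fun h => hp (ht h)
      rw [Finset.prod_insert hpt, h2 t ht (Finset.nonempty_iff_ne_empty.mpr hne), mul_zero]
  have hB : ∑ t ∈ s.powerset, (-1) ^ t.card * φ (∏ r ∈ t, r) =
      1 - ∑ r ∈ s, φ r + ∑ e ∈ s.powersetCard 2, φ (∏ r ∈ e, r) := by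
    rw [Finset.sum_powerset]
    set G : ℕ → ℝ := fun j => ∑ t ∈ s.powersetCard j, (-1) ^ t.card * φ (∏ r ∈ t, r) with hG
    have hG3 : ∀ j, 3 ≤ j → G j = 0 := by
      intro j hj
      apply Finset.sum_eq_zero
      intro t ht
      rw [mem_powersetCard] at ht
      rw [h3 t ht.1 (by omega), mul_zero]
    have hGs : ∀ j, s.card < j → G j = 0 := by
      intro j hj
      rw [hG]
      beta_reduce
      rw [Finset.powersetCard_eq_empty.mpr hj, sum_empty]
    have e1 : ∑ j ∈ range (s.card + 1), G j = ∑ j ∈ range (s.card + 4), G j := by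
      apply Finset.sum_subset
      · intro j hj
        rw [mem_range] at hj ⊢
        omega
      · intro j _ hj
        rw [mem_range] at hj
        exact hGs j (by omega)
    have e2 : ∑ j ∈ range 3, G j = ∑ j ∈ range (s.card + 4), G j := by
      apply Finset.sum_subset
      · intro j hj
        rw [mem_range] at hj ⊢
        omega
      · intro j _ hj
        rw [mem_range] at hj
        exact hG3 j (by omega)
    have g0 : G 0 = 1 := by
      rw [hG]
      simp [h1]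
    have g1 : G 1 = - ∑ r ∈ s, φ r := by
      rw [hG]
      beta_reduce
      rw [Finset.powersetCard_one, sum_map, ← Finset.sum_neg_distrib]
      apply sum_congr rfl
      intro r _
      simp
    have g2 : G 2 = ∑ e ∈ s.powersetCard 2, φ (∏ r ∈ e, r) := by
      rw [hG]
      apply sum_congr rfl
      intro t ht
      rw [mem_powersetCard] at ht
      rw [ht.2]
      norm_num
    have e3 : ∑ j ∈ range 3, G j = G 0 + G 1 + G 2 := by
      rw [Finset.sum_range_succ, Finset.sum_range_succ, Finset.sum_range_one]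
    change ∑ j ∈ range (s.card + 1), G j = _
    rw [e1, ← e2, e3, g0, g1, g2]
    ring
  rw [hA, hB]
  ring

/-! ### the theorem -/

theorem PW_modEq_coprime {n ν W a : ℕ} (h : n ≡ ν [MOD W]) (hc : Nat.Coprime (ν + a) W) :
    Nat.Coprime (n + a) W := by
  have h1 : n + a ≡ ν + a [MOD W] := Nat.ModEq.add_right a h
  have h2 := h1.gcd_eq
  unfold Nat.Coprime at hc ⊢
  rw [h2]
  exact hc

theorem PW_term (P : Fin M → ℕ) (hP : ∀ j, (P j).Prime) (W N : ℕ) (hE : Enum P W N) (hN : 2 ≤ N)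
    (ε ρ : ℝ) (hρ : 0 < ρ) (hρ1 : ρ ≤ 1) (hG0 : 0 < VW W ((N : ℝ) ^ ρ))
    (hr : ∀ x : ℝ, 0 < x → x ≤ (N : ℝ) ^ ρ →
      |VW W x / VW W ((N : ℝ) ^ ρ) - max 0 (Real.log x / (ρ * Real.log N))| ≤ ε)
    (B : Finset (Fin M)) (hB : ∑ j ∈ B, al P j ≤ ε) :
    |PW_T P ((N : ℝ) ^ ρ) B / VW W ((N : ℝ) ^ ρ) -
      max 0 (1 - Real.log (pr P B) / (ρ * Real.log N))| ≤ 2 * ε := by
  have hN1 : (1 : ℝ) < N := by
    have : (2 : ℝ) ≤ N := by exact_mod_cast hN
    linarith
  have hN0 : (0 : ℝ) < N := by linarith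
  have hℓ : 0 < Real.log N := Real.log_pos hN1
  set R := (N : ℝ) ^ ρ with hR
  have hR1 : 1 ≤ R := Real.one_le_rpow hN1.le hρ.le
  have hlogR : Real.log R = ρ * Real.log N := Real.log_rpow hN0 ρ
  have hRN : R ≤ N := by
    calc R ≤ (N : ℝ) ^ (1 : ℝ) := Real.rpow_le_rpow_of_exponent_le hN1.le hρ1
      _ = N := Real.rpow_one _
  have hprN : 0 < pr P B := NUM_pr_pos P hP B
  have hpr0 : (0 : ℝ) < pr P B := by exact_mod_cast hprN
  have hpr1 : (1 : ℝ) ≤ pr P B := by exact_mod_cast hprN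
  set x := R / pr P B with hx
  have hx0 : 0 < x := by positivity
  have hxR : x ≤ R := div_le_self (by linarith) hpr1
  have hGx : Gsum P (f1 x) = VW W x := by
    rw [← Gsum_eq_VW P W N hE x (hxR.trans hRN)]
    rfl
  have hup := PW_T_upper P hP R B
  have hlo := PW_T_lower P hP R B
  rw [← hx, hGx] at hup hlo
  have h1 := hr x hx0 hxR
  have hlx : Real.log x / (ρ * Real.log N) = 1 - Real.log (pr P B) / (ρ * Real.log N) := by
    rw [hx, Real.log_div (by positivity) hpr0.ne', hlogR, sub_div, div_self (by positivity)]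
  rw [hlx] at h1
  set φ := max 0 (1 - Real.log (pr P B) / (ρ * Real.log N)) with hφ
  have hal : ∀ j, 0 ≤ al P j := NUM_al_nonneg P hP
  have hs0 : 0 ≤ ∑ j ∈ B, al P j := sum_nonneg (fun j _ => hal j)
  set g := VW W x / VW W R with hg
  have hg0 : 0 ≤ g := div_nonneg (PW_VW_nonneg W x) hG0.le
  have hg1 : g ≤ 1 := by
    rw [hg, div_le_one hG0]
    exact PW_VW_mono W hxR
  have h2 : PW_T P R B / VW W R ≤ g := by
    rw [hg]
    exact div_le_div_of_nonneg_right hup hG0.le
  have h3 : g * (1 - ∑ j ∈ B, al P j) ≤ PW_T P R B / VW W R := by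
    rw [hg, div_mul_eq_mul_div]
    exact div_le_div_of_nonneg_right hlo hG0.le
  have h4 : g - ε ≤ g * (1 - ∑ j ∈ B, al P j) := by
    nlinarith
  rw [abs_le] at h1 ⊢
  constructor <;> linarith

theorem Lam_value (ζ ε : ℝ) (hζ : 0 < ζ) (hζ1 : ζ ≤ 1 / 1000) (hε : 0 < ε) (k : ℕ) : ∃ w₀ : ℕ,
    ∀ (h : Fin k → ℕ) (W ν : ℕ), Setup k w₀ h W ν → ∀ᶠ N : ℕ in atTop,
      ∀ (M : ℕ) (P : Fin M → ℕ), Enum P W N → ∀ b : Fin k, ∀ n ∈ win N W ν, ∀ p ∈ IP N,
        p ∣ n + h b → Squarefree (n + h b) → Rough N (n + h b) →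
          |Lam P h {b} (sel P {b} (al P) (f1 ((N : ℝ) ^ (1 / 4 - 2 * ζ)))) n
            - Fst ζ N ((n + h b) / p)| ≤ ε := by
  set ε' : ℝ := min ε 1 / 10000 with hε'
  have h0 : 0 < ε' := by positivity
  have hε1 : ε' ≤ 1 := by
    rw [hε']
    have := min_le_right ε 1
    linarith
  have h10 : 10000 * ε' ≤ ε := by
    rw [hε']
    have := min_le_left ε 1
    linarith
  obtain ⟨ρ, hρ⟩ : ∃ ρ : ℝ, ρ = 1 / 4 - 2 * ζ := ⟨_, rfl⟩
  have hρ0 : 248 / 1000 ≤ ρ := by rw [hρ]; linarith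
  have hρ1 : ρ ≤ 1 / 4 := by rw [hρ]; linarith
  obtain ⟨w₀, hw⟩ := PW_ratio ε' ρ h0 hε1 (by linarith)
  refine ⟨w₀, ?_⟩
  intro h W ν hs
  have hW : 0 < W := Nat.pos_of_ne_zero hs.2.1.ne_zero
  have hr := hw W hW hs.2.2.1
  have hh : ∀ᶠ N : ℕ in atTop, ∀ i, h i ≤ N := by
    filter_upwards [eventually_ge_atTop (univ.sup h)] with N hN i
    exact (Finset.le_sup (mem_univ i)).trans hN
  have hz : ∀ᶠ N : ℕ in atTop, 11 / ε' + 1 ≤ (N : ℝ) ^ (17 / 200 : ℝ) :=
    ((tendsto_rpow_atTop (by norm_num)).comp tendsto_natCast_atTop_atTop).eventually_ge_atTop _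
  have h50 : ∀ᶠ N : ℕ in atTop, 3 < (N : ℝ) ^ (1 / 50 : ℝ) :=
    ((tendsto_rpow_atTop (by norm_num)).comp tendsto_natCast_atTop_atTop).eventually_gt_atTop _
  have hlog : ∀ᶠ N : ℕ in atTop, 17 / ε ≤ Real.log N :=
    (Real.tendsto_log_atTop.comp tendsto_natCast_atTop_atTop).eventually_ge_atTop _
  filter_upwards [hr, hh, hz, h50, hlog, eventually_ge_atTop 2] with N hr hh hz h50 hlog hN2
  intro M P hE b n hn p hp hpd hsq hRo
  obtain ⟨hG0, hr⟩ := hr
  have hN1 : (1 : ℝ) < N := by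
    have : (2 : ℝ) ≤ N := by exact_mod_cast hN2
    linarith
  have hN0 : (0 : ℝ) < N := by linarith
  have hℓ : 0 < Real.log N := Real.log_pos hN1
  have hP : ∀ j, (P j).Prime := fun j => ((hE.2 (P j)).mp ⟨j, rfl⟩).1
  have hal : ∀ j, 0 ≤ al P j := NUM_al_nonneg P hP
  rw [← hρ]
  set ℓ := Real.log N with hℓdef
  set R := (N : ℝ) ^ ρ with hR
  have hRN : R ≤ N := by
    calc R ≤ (N : ℝ) ^ (1 : ℝ) := Real.rpow_le_rpow_of_exponent_le hN1.le (by linarith)
      _ = N := Real.rpow_one _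
  -- the number m
  unfold win at hn
  rw [mem_filter, mem_Ioc] at hn
  obtain ⟨⟨hn1, hn2⟩, hnν⟩ := hn
  obtain ⟨m, hm⟩ : ∃ m : ℕ, m = n + h b := ⟨_, rfl⟩
  rw [← hm] at hpd hsq hRo ⊢
  have hmN : N < m := by omega
  have hm3 : m ≤ 3 * N := by
    have := hh b
    omega
  have hm0 : 0 < m := by omega
  have hmW : Nat.Coprime m W := by
    rw [hm]
    exact PW_modEq_coprime hnν (hs.2.2.2.2 b)
  unfold IP at hp
  rw [mem_filter] at hp
  obtain ⟨hpI, hpp, hp1, hp2⟩ := hp
  rw [mem_Icc] at hpI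
  obtain ⟨q, hq⟩ := hpd
  have hmq : m / p = q := by
    rw [hq]
    exact Nat.mul_div_cancel_left q hpp.pos
  rw [hmq]
  have hq0 : 0 < q := by
    rcases Nat.eq_zero_or_pos q with h1 | h1
    · rw [h1] at hq
      omega
    · exact h1
  have hpq : ¬ p ∣ q := by
    intro hd
    have h1 : p * p ∣ m := by
      rw [hq]
      exact Nat.mul_dvd_mul_left p hd
    exact hpp.one_lt.ne' (Nat.isUnit_iff.mp (hsq p h1))
  have hp3 : 3 ≤ p := by
    have h1 : (3 : ℝ) < p := by
      calc (3 : ℝ) < (N : ℝ) ^ (1 / 50 : ℝ) := h50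
        _ ≤ (N : ℝ) ^ (33 / 200 : ℝ) := Real.rpow_le_rpow_of_exponent_le hN1.le (by norm_num)
        _ < p := hp1
    have h2 : 3 < p := by exact_mod_cast h1
    omega
  have hqN : q ≤ N := by
    by_contra hcon
    push Not at hcon
    have : 3 * N < p * q := by
      calc 3 * N < 3 * q := by omega
        _ ≤ p * q := Nat.mul_le_mul_right q hp3
    omega
  have hmprime : ∀ r : ℕ, r.Prime → r ∣ m → r ≤ N ∧ ¬ r ∣ W := by
    intro r hr1 hr2
    refine ⟨?_, ?_⟩
    · rw [hq] at hr2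
      rcases (Nat.Prime.dvd_mul hr1).mp hr2 with h1 | h1
      · exact (Nat.le_of_dvd hpp.pos h1).trans hpI.2
      · exact (Nat.le_of_dvd hq0 h1).trans hqN
    · intro h1
      exact hr1.one_lt.ne' (Nat.dvd_one.mp (hmW ▸ Nat.dvd_gcd hr2 h1))
  have hcard := PW_card N m hN2 h50 hRo hsq (by exact_mod_cast hm3)
  -- the set of the indices
  set D : Finset (Fin M) := univ.filter (fun j => P j ∣ m) with hD
  have hDcard : D.card ≤ 11 := by
    rw [← Finset.card_image_of_injective D hE.1]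
    refine le_trans (Finset.card_le_card ?_) hcard
    intro r hr'
    rw [mem_image] at hr'
    obtain ⟨j, hj, rfl⟩ := hr'
    exact Nat.mem_primeFactors.mpr ⟨hP j, (mem_filter.mp hj).2, by omega⟩
  have hDal : ∑ j ∈ D, al P j ≤ ε' := by
    have h1 : ∀ j ∈ D, al P j ≤ ε' / 11 := by
      intro j hj
      have h2 := hRo (P j) (hP j) (mem_filter.mp hj).2
      unfold al
      have h3 : 11 / ε' ≤ (P j : ℝ) - 1 := by linarith
      have h4 : 0 < 11 / ε' := by positivity
      rw [div_le_iff₀ (by linarith)]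
      calc (1 : ℝ) = ε' / 11 * (11 / ε') := by field_simp
        _ ≤ ε' / 11 * ((P j : ℝ) - 1) := mul_le_mul_of_nonneg_left h3 (by positivity)
    calc ∑ j ∈ D, al P j ≤ ∑ j ∈ D, ε' / 11 := sum_le_sum h1
      _ = D.card * (ε' / 11) := by rw [sum_const, nsmul_eq_mul]
      _ ≤ 11 * (ε' / 11) := by
          apply mul_le_mul_of_nonneg_right _ (by positivity)
          exact_mod_cast hDcard
      _ = ε' := by ring
  -- the weight
  set G := VW W R with hG
  have hGS : GS P {b} (al P) (f1 R) = G := by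
    rw [PW_GS, hG, ← Gsum_eq_VW P W N hE R hRN]
    rfl
  have hLam : Lam P h {b} (sel P {b} (al P) (f1 R)) n =
      ∑ B ∈ D.powerset, (-1) ^ B.card * (PW_T P R B / G) := by
    unfold sel
    rw [PW_Lam, hGS, ← hm]
    apply sum_congr rfl
    intro B _
    congr 1
    unfold PW_T
    rw [Finset.sum_div]
    apply sum_congr rfl
    intro U _
    by_cases hBU : B ⊆ U
    · rw [if_pos hBU, if_pos hBU]
      ring
    · rw [if_neg hBU, if_neg hBU, zero_div]
  set φ : ℕ → ℝ := fun d => max 0 (1 - Real.log (d : ℝ) / (ρ * ℓ)) with hφ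
  have hρℓ : 0 < ρ * ℓ := by positivity
  have hmain : |Lam P h {b} (sel P {b} (al P) (f1 R)) n -
      ∑ B ∈ D.powerset, (-1) ^ B.card * φ (pr P B)| ≤ 4096 * ε' := by
    rw [hLam, ← Finset.sum_sub_distrib]
    calc |∑ B ∈ D.powerset, ((-1) ^ B.card * (PW_T P R B / G) - (-1) ^ B.card * φ (pr P B))|
        ≤ ∑ B ∈ D.powerset, |(-1) ^ B.card * (PW_T P R B / G) - (-1) ^ B.card * φ (pr P B)| :=
          Finset.abs_sum_le_sum_abs _ _
      _ ≤ ∑ B ∈ D.powerset, 2 * ε' := by
          apply sum_le_sum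
          intro B hB
          rw [← mul_sub, abs_mul, abs_pow, abs_neg, abs_one, one_pow, one_mul]
          apply PW_term P hP W N hE hN2 ε' ρ (by linarith) (by linarith) hG0 hr B
          refine le_trans ?_ hDal
          exact Finset.sum_le_sum_of_subset_of_nonneg (mem_powerset.mp hB) (fun j _ _ => hal j)
      _ = 2 ^ D.card * (2 * ε') := by
          rw [sum_const, Finset.card_powerset, nsmul_eq_mul]
          push_cast
          ring
      _ ≤ 2 ^ 11 * (2 * ε') := by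
          apply mul_le_mul_of_nonneg_right _ (by positivity)
          exact pow_le_pow_right₀ (by norm_num) hDcard
      _ = 4096 * ε' := by ring
  rw [hD, PW_powerset P W N m hE hm0 hmprime φ] at hmain
  have hpf : m.primeFactors = insert p q.primeFactors := by
    rw [hq, Nat.primeFactors_mul hpp.ne_zero hq0.ne', hpp.primeFactors]
    rfl
  have hpq' : p ∉ q.primeFactors := fun h1 => hpq (Nat.dvd_of_mem_primeFactors h1)
  have hφ0 : ∀ d : ℕ, ρ * ℓ ≤ Real.log d → φ d = 0 := by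
    intro d hd
    rw [hφ]
    apply max_eq_left
    have : 1 ≤ Real.log d / (ρ * ℓ) := by
      rw [le_div_iff₀ hρℓ]
      linarith
    linarith
  have hlogr : ∀ r ∈ q.primeFactors, 17 / 200 * ℓ ≤ Real.log r := by
    intro r hr1
    have h1 : r ∣ m := (Nat.dvd_of_mem_primeFactors hr1).trans ⟨p, by rw [hq, mul_comm]⟩
    have h2 := hRo r (Nat.prime_of_mem_primeFactors hr1) h1
    rw [hℓdef, ← Real.log_rpow hN0]
    exact Real.log_le_log (Real.rpow_pos_of_pos hN0 _) h2
  have hlogp : 33 / 200 * ℓ ≤ Real.log p := by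
    rw [hℓdef, ← Real.log_rpow hN0]
    exact Real.log_le_log (Real.rpow_pos_of_pos hN0 _) hp1.le
  have hlogp2 : Real.log p ≤ 83 / 500 * ℓ := by
    rw [hℓdef, ← Real.log_rpow hN0]
    have : (0 : ℝ) < p := by exact_mod_cast hpp.pos
    exact Real.log_le_log this hp2
  have hlogprod : ∀ e ⊆ q.primeFactors, 17 / 200 * ℓ * e.card ≤
      Real.log ((∏ r ∈ e, r : ℕ) : ℝ) := by
    intro e he
    rw [Nat.cast_prod, Real.log_prod]
    · calc 17 / 200 * ℓ * e.card = ∑ r ∈ e, 17 / 200 * ℓ := by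
            rw [sum_const, nsmul_eq_mul]
            ring
        _ ≤ ∑ r ∈ e, Real.log r := sum_le_sum (fun r hr1 => hlogr r (he hr1))
    · intro r hr1
      have := (Nat.prime_of_mem_primeFactors (he hr1)).ne_zero
      exact_mod_cast this
  have hcomb := PW_comb q.primeFactors p hpq' φ (by rw [hφ]; simp) (by
      intro e he hc
      apply hφ0
      refine le_trans ?_ (hlogprod e he)
      have h1 : (3 : ℝ) ≤ e.card := by exact_mod_cast hc
      nlinarith) (by
      intro e he hne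
      apply hφ0
      have h1 : (1 : ℝ) ≤ e.card := by exact_mod_cast Finset.card_pos.mpr hne
      have h2 := hlogprod e he
      have h3 : (0 : ℝ) < p := by exact_mod_cast hpp.pos
      have h4 : 0 < ∏ r ∈ e, r :=
        Finset.prod_pos (fun r hr1 => (Nat.prime_of_mem_primeFactors (he hr1)).pos)
      have h5 : (0 : ℝ) < ((∏ r ∈ e, r : ℕ) : ℝ) := by exact_mod_cast h4
      rw [Nat.cast_mul, Real.log_mul h3.ne' h5.ne']
      nlinarith)
  rw [hpf, hcomb] at hmain
  have hφp : φ p = 1 - Real.log p / (ρ * ℓ) := by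
    rw [hφ]
    apply max_eq_right
    have : Real.log p / (ρ * ℓ) ≤ 1 := by
      rw [div_le_one hρℓ]
      nlinarith
    linarith
  -- the last step
  have hFst : Fst ζ N q = (1 - Real.log q / ℓ) / ρ - ∑ r ∈ q.primeFactors, φ r +
      ∑ e ∈ q.primeFactors.powersetCard 2, φ (∏ r ∈ e, r) := by
    unfold Fst
    rw [← hρ]
  rw [hFst]
  have hlogm : Real.log m = Real.log p + Real.log q := by
    rw [hq, Nat.cast_mul, Real.log_mul]
    · exact_mod_cast hpp.ne_zero
    · exact_mod_cast hq0.ne'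
  have hlm1 : ℓ ≤ Real.log m := by
    rw [hℓdef]
    exact Real.log_le_log hN0 (by exact_mod_cast hmN.le)
  have hlm2 : Real.log m ≤ ℓ + 2 := by
    have h1 : Real.log m ≤ Real.log (3 * N) := by
      apply Real.log_le_log (by exact_mod_cast hm0)
      exact_mod_cast hm3
    rw [Real.log_mul (by norm_num) hN0.ne'] at h1
    have h2 := Real.log_le_sub_one_of_pos (show (0 : ℝ) < 3 by norm_num)
    rw [hℓdef]
    linarith
  have hdiff : (1 - φ p) - (1 - Real.log q / ℓ) / ρ = (Real.log m - ℓ) / (ρ * ℓ) := by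
    rw [hφp, hlogm]
    have : ρ ≠ 0 := by linarith
    field_simp
    ring
  have hd1 : 0 ≤ (Real.log m - ℓ) / (ρ * ℓ) := div_nonneg (by linarith) hρℓ.le
  have hd2 : (Real.log m - ℓ) / (ρ * ℓ) ≤ ε / 2 := by
    rw [div_le_iff₀ hρℓ]
    rw [div_le_iff₀ hε] at hlog
    nlinarith
  rw [abs_le] at hmain ⊢
  constructor <;> linarith [hmain.1, hmain.2]

end Pool.Agent.BG4
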