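import Pool.Agent.Lib_helper23.BG4.Defs
/-! Block RED4 (helper30) -/

set_option autoImplicit false

namespace Pool.Agent.BG4

open Finset Filter Pool.Agent.BG
open scoped Classical

variable {M k : ℕ}

theorem red4_split (j₀ : Fin M) (F : Vec M k → ℝ) :
    ∑ x, F x = ∑ x : Vec M k,
      if x j₀ = none then ∑ t : Option (Fin k), F (Function.update x j₀ t) else 0 := by
  rw [← Finset.sum_filter, ← Finset.sum_product' (univ.filter (fun x : Vec M k => x j₀ = none))
    univ (fun x t => F (Function.update x j₀ t))]
  symm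
  refine Finset.sum_nbij' (fun p => Function.update p.1 j₀ p.2)
    (fun x => (Function.update x j₀ none, x j₀)) ?_ ?_ ?_ ?_ ?_
  · intro p _
    exact Finset.mem_univ _
  · intro x _
    simp
  · rintro ⟨x, t⟩ hx
    simp only [Finset.mem_product, Finset.mem_filter, Finset.mem_univ, true_and, and_true] at hx
    simp only [Function.update_idem, Function.update_self, Prod.mk.injEq, and_true]
    rw [← hx, Function.update_eq_self]
  · intro x _
    simp
  · intro p _
    rfl

theorem red4_prod (γ : Fin M → ℝ) (y z : Vec M k) (j₀ : Fin M) (s t : Option (Fin k)) :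
    ∏ j, Al (γ j) (Function.update y j₀ s j) (Function.update z j₀ t j) =
      Al (γ j₀) s t * ∏ j ∈ univ.erase j₀, Al (γ j) (y j) (z j) := by
  rw [← Finset.mul_prod_erase univ _ (Finset.mem_univ j₀)]
  rw [Function.update_self, Function.update_self]
  congr 1
  refine Finset.prod_congr rfl (fun j hj => ?_)
  rw [Function.update_of_ne (Finset.ne_of_mem_erase hj),
    Function.update_of_ne (Finset.ne_of_mem_erase hj)]

theorem red4_sat (P : Fin M → ℕ) (h : Fin k → ℕ) (b : Fin k) (j₀ : Fin M) (n : ℕ)
    (hj : P j₀ ∣ n + h b) (x : Vec M k) (hx : x j₀ = none) :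
    Sat P h n (Function.update x j₀ (some b)) ↔ Sat P h n x := by
  constructor
  · intro hs j i hji
    have hne : j ≠ j₀ := by
      rintro rfl
      rw [hx] at hji
      exact absurd hji (by simp)
    refine hs j i ?_
    rw [Function.update_of_ne hne]
    exact hji
  · intro hs j i hji
    by_cases hne : j = j₀
    · subst hne
      rw [Function.update_self] at hji
      cases hji
      exact hj
    · rw [Function.update_of_ne hne] at hji
      exact hs j i hji

theorem Phi_red (P : Fin M → ℕ) (hP : ∀ j, (P j).Prime) (h : Fin k → ℕ)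
    (hd : ∀ j i l, i ≠ l → ¬ ((P j : ℤ) ∣ (h i : ℤ) - h l)) (b : Fin k) (j₀ : Fin M)
    (c : Vec M k → ℝ) (n : ℕ) (hj : P j₀ ∣ n + h b) :
    Phi P h (red b j₀ c) n = Phi P h c n := by
  unfold Phi
  rw [red4_split j₀ (fun x => if Sat P h n x then c x else 0)]
  refine Finset.sum_congr rfl (fun x _ => ?_)
  unfold red
  by_cases hx : x j₀ = none
  · rw [if_pos hx, if_pos hx, Fintype.sum_option]
    have h0 : Function.update x j₀ none = x := by
      rw [← hx, Function.update_eq_self]
    rw [h0, Finset.sum_eq_single b]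
    · by_cases hs : Sat P h n x
      · rw [if_pos hs, if_pos hs, if_pos ((red4_sat P h b j₀ n hj x hx).mpr hs)]
      · rw [if_neg hs, if_neg hs, if_neg (fun hh => hs ((red4_sat P h b j₀ n hj x hx).mp hh))]
        ring
    · intro i _ hi
      rw [if_neg]
      intro hs
      have h1 := hs j₀ i (Function.update_self _ _ _)
      apply hd j₀ b i (Ne.symm hi)
      have h2 : ((P j₀ : ℕ) : ℤ) ∣ ((n + h b : ℕ) : ℤ) := Int.natCast_dvd_natCast.mpr hj
      have h3 : ((P j₀ : ℕ) : ℤ) ∣ ((n + h i : ℕ) : ℤ) := Int.natCast_dvd_natCast.mpr h1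
      have h4 := dvd_sub h2 h3
      have h5 : ((n + h b : ℕ) : ℤ) - ((n + h i : ℕ) : ℤ) = (h b : ℤ) - h i := by
        push_cast
        ring
      rwa [h5] at h4
    · intro hb
      exact absurd (Finset.mem_univ _) hb
  · rw [if_neg hx, if_neg hx]
    split_ifs <;> rfl

theorem red4_er (b : Fin k) (j₀ : Fin M) (x : Vec M k) (hx : x j₀ = none) :
    er {b} (Function.update x j₀ (some b)) = er {b} x := by
  funext j
  unfold er
  by_cases hj : j = j₀
  · subst hj
    simp [hx]
  · rw [Function.update_of_ne hj]

theorem red4_onn (b : Fin k) (j₀ : Fin M) (x : Vec M k) :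
    onn {b} (Function.update x j₀ (some b)) = Function.update (onn {b} x) j₀ (some b) := by
  funext j
  by_cases hj : j = j₀
  · subst hj
    unfold onn
    simp
  · rw [Function.update_of_ne hj]
    unfold onn
    rw [Function.update_of_ne hj]

theorem red4_sc (j₀ : Fin M) (b : Fin k) (x : Vec M k) (hx : x j₀ = none) :
    sc (Function.update x j₀ (some b)) = sc x + 1 := by
  unfold sc
  have h1 : (univ.filter (fun j => Function.update x j₀ (some b) j ≠ none)) =
      insert j₀ (univ.filter (fun j => x j ≠ none)) := by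
    ext j
    simp only [Finset.mem_filter, Finset.mem_univ, true_and, Finset.mem_insert]
    by_cases hj : j = j₀
    · subst hj
      simp
    · rw [Function.update_of_ne hj]
      simp [hj]
  rw [h1, Finset.card_insert_of_notMem]
  simp [hx]

theorem red4_tr (γ : Fin M → ℝ) (b : Fin k) (j₀ : Fin M) (ω : Vec M k → ℝ)
    (hω : ∀ y, ω y ≠ 0 → Vals {b} y) (y : Vec M k) (hy : y j₀ = none) :
    tr γ ω y - tr γ ω (Function.update y j₀ (some b)) = tr γ (ored γ b j₀ ω) y := by
  have hy0 : Function.update y j₀ none = y := by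
    rw [← hy, Function.update_eq_self]
  have key : ∀ (s : Option (Fin k)), tr γ ω (Function.update y j₀ s) =
      ∑ z : Vec M k, if z j₀ = none then
        (ω z * Al (γ j₀) s none + ω (Function.update z j₀ (some b)) * Al (γ j₀) s (some b)) *
          ∏ j ∈ univ.erase j₀, Al (γ j) (y j) (z j) else 0 := by
    intro s
    unfold tr
    rw [red4_split j₀]
    refine Finset.sum_congr rfl (fun z _ => ?_)
    by_cases hz : z j₀ = none
    · rw [if_pos hz, if_pos hz]
      have h0 : Function.update z j₀ none = z := by
        rw [← hz, Function.update_eq_self]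
      simp_rw [red4_prod]
      rw [Fintype.sum_option, h0, Finset.sum_eq_single b]
      · ring
      · intro i _ hi
        have : ω (Function.update z j₀ (some i)) = 0 := by
          by_contra hne
          have := hω _ hne j₀ i (Function.update_self _ _ _)
          rw [Finset.mem_singleton] at this
          exact hi this
        rw [this, zero_mul]
      · intro hb
        exact absurd (Finset.mem_univ _) hb
    · rw [if_neg hz, if_neg hz]
  have h1 := key none
  rw [hy0] at h1
  rw [h1, key (some b), ← Finset.sum_sub_distrib]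
  unfold tr
  refine Finset.sum_congr rfl (fun z _ => ?_)
  unfold ored
  by_cases hz : z j₀ = none
  · rw [if_pos hz, if_pos hz, if_pos hz]
    have h2 : ∏ j, Al (γ j) (y j) (z j) = ∏ j ∈ univ.erase j₀, Al (γ j) (y j) (z j) := by
      rw [← Finset.mul_prod_erase univ _ (Finset.mem_univ j₀), hy, hz]
      simp [Al]
    rw [h2]
    simp only [Al, if_true]
    ring
  · rw [if_neg hz, if_neg hz, if_neg hz]
    ring

theorem red_ext (γ : Fin M → ℝ) (b : Fin k) (j₀ : Fin M) (c0 ω : Vec M k → ℝ)
    (hc0 : ∀ x, c0 x ≠ 0 → Avoid {b} x) (hω : ∀ y, ω y ≠ 0 → Vals {b} y) :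
    red b j₀ (ext {b} ∅ c0 (lam γ ω)) = ext {b} {j₀} c0 (lam γ (ored γ b j₀ ω)) := by
  funext x
  unfold red ext
  by_cases hx : x j₀ = none
  · rw [if_pos hx, if_pos (by simp), if_pos (by simp), if_pos (by simpa using hx)]
    rw [red4_er b j₀ x hx, red4_onn]
    have hy : onn {b} x j₀ = none := by
      unfold onn
      simp [hx]
    rw [← mul_add]
    congr 1
    unfold lam
    rw [red4_sc j₀ b _ hy, ← red4_tr γ b j₀ ω hω _ hy]
    ring
  · rw [if_neg hx, if_neg (by simpa using hx)]

end Pool.Agent.BG4
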