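import Pool.Agent.Lib_helper23.BGF.VAS
set_option autoImplicit false

namespace Pool.Agent.BG4

open Finset Filter Pool.Agent.BG
open scoped Classical

/-- `∑ 1/e` over `m < e ≤ n` coprime to `W` -/
noncomputable def VWS_H (W m n : ℕ) : ℝ :=
  ∑ e ∈ (Ioc m n).filter (fun e => e.Coprime W), 1 / (e : ℝ)

theorem VWS_block (W m : ℕ) :
    ((Ioc m (m + W)).filter (fun e => e.Coprime W)).card = W.totient := by
  have h := Nat.filter_coprime_Ico_eq_totient W (m + 1)
  rw [← h]
  congr 1
  ext e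
  simp only [mem_filter, mem_Ioc, mem_Ico, Nat.coprime_comm (n := e)]
  constructor
  · rintro ⟨h1, h2⟩
    exact ⟨by omega, h2⟩
  · rintro ⟨h1, h2⟩
    exact ⟨by omega, h2⟩

theorem VWS_H_nonneg (W m n : ℕ) : 0 ≤ VWS_H W m n := by
  unfold VWS_H
  positivity

theorem VWS_H_mono (W m : ℕ) {n n' : ℕ} (h : n ≤ n') : VWS_H W m n ≤ VWS_H W m n' := by
  unfold VWS_H
  apply Finset.sum_le_sum_of_subset_of_nonneg
  · apply Finset.filter_subset_filter
    exact Finset.Ioc_subset_Ioc le_rfl h
  · intro i _ _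
    positivity

theorem VWS_H_add (W m n n' : ℕ) (h1 : m ≤ n) (h2 : n ≤ n') :
    VWS_H W m n' = VWS_H W m n + VWS_H W n n' := by
  unfold VWS_H
  rw [← Finset.sum_union]
  · rw [← Finset.filter_union, Finset.Ioc_union_Ioc_eq_Ioc h1 h2]
  · apply Finset.disjoint_filter_filter
    rw [Finset.disjoint_left]
    intro e he he'
    rw [mem_Ioc] at he he'
    omega

theorem VWS_H_block (W m : ℕ) (hm : 1 ≤ m) : VWS_H W m (m + W) ≤ W.totient / m := by
  have hm0 : (0 : ℝ) < m := by exact_mod_cast hm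
  unfold VWS_H
  calc ∑ e ∈ (Ioc m (m + W)).filter (fun e => e.Coprime W), 1 / (e : ℝ)
      ≤ ∑ e ∈ (Ioc m (m + W)).filter (fun e => e.Coprime W), 1 / (m : ℝ) := by
        apply sum_le_sum
        intro e he
        rw [mem_filter, mem_Ioc] at he
        apply one_div_le_one_div_of_le hm0
        exact_mod_cast he.1.1.le
    _ = W.totient / m := by
        rw [sum_const, VWS_block, nsmul_eq_mul, mul_one_div]

theorem VWS_H_up (W m : ℕ) (hW : 0 < W) (hm : 1 ≤ m) (J : ℕ) :
    VWS_H W m (m + (J + 1) * W) ≤ W.totient / m +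
      ((W.totient : ℝ) / W) * (Real.log ((m + J * W : ℕ) : ℝ) - Real.log m) := by
  have hm0 : (0 : ℝ) < m := by exact_mod_cast hm
  have hW0 : (0 : ℝ) < W := by exact_mod_cast hW
  induction J with
  | zero =>
    simp only [zero_add, one_mul, zero_mul, add_zero, sub_self, mul_zero]
    exact VWS_H_block W m hm
  | succ J ih =>
    have e1 : m + (J + 1 + 1) * W = (m + (J + 1) * W) + W := by ring
    rw [e1, VWS_H_add W m (m + (J + 1) * W) _ (by omega) (by omega)]
    have h1 := VWS_H_block W (m + (J + 1) * W) (by omega)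
    have h2 : (W.totient : ℝ) / ((m + (J + 1) * W : ℕ) : ℝ) ≤ ((W.totient : ℝ) / W) *
        (Real.log ((m + (J + 1) * W : ℕ) : ℝ) - Real.log ((m + J * W : ℕ) : ℝ)) := by
      have ha : (0 : ℝ) < ((m + J * W : ℕ) : ℝ) := by
        have : 0 < m + J * W := by omega
        exact_mod_cast this
      have hb : (0 : ℝ) < ((m + (J + 1) * W : ℕ) : ℝ) := by
        have : 0 < m + (J + 1) * W := by omega
        exact_mod_cast this
      have h3 := Real.log_le_sub_one_of_pos
        (x := ((m + J * W : ℕ) : ℝ) / ((m + (J + 1) * W : ℕ) : ℝ)) (by positivity)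
      rw [Real.log_div ha.ne' hb.ne'] at h3
      have h4 : (W : ℝ) / ((m + (J + 1) * W : ℕ) : ℝ) = 1 -
          ((m + J * W : ℕ) : ℝ) / ((m + (J + 1) * W : ℕ) : ℝ) := by
        field_simp
        push_cast
        ring
      have h5 : (W : ℝ) / ((m + (J + 1) * W : ℕ) : ℝ) ≤
          Real.log ((m + (J + 1) * W : ℕ) : ℝ) - Real.log ((m + J * W : ℕ) : ℝ) := by
        rw [h4]
        linarith
      calc (W.totient : ℝ) / ((m + (J + 1) * W : ℕ) : ℝ)
          = ((W.totient : ℝ) / W) * ((W : ℝ) / ((m + (J + 1) * W : ℕ) : ℝ)) := by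
            field_simp
        _ ≤ _ := mul_le_mul_of_nonneg_left h5 (by positivity)
    calc VWS_H W m (m + (J + 1) * W) + VWS_H W (m + (J + 1) * W) (m + (J + 1) * W + W)
        ≤ (W.totient / m + ((W.totient : ℝ) / W) *
            (Real.log ((m + J * W : ℕ) : ℝ) - Real.log m)) + ((W.totient : ℝ) / W) *
            (Real.log ((m + (J + 1) * W : ℕ) : ℝ) - Real.log ((m + J * W : ℕ) : ℝ)) :=
          add_le_add ih (h1.trans h2)
      _ = _ := by ring

theorem VWS_H_log (W m n : ℕ) (hW : 0 < W) (hm : 1 ≤ m) (hmn : m ≤ n) :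
    VWS_H W m n ≤ W.totient / m +
      ((W.totient : ℝ) / W) * (Real.log (n : ℝ) - Real.log m) := by
  set J := (n - m) / W with hJ
  have h1 : m + J * W ≤ n := by
    have := Nat.div_mul_le_self (n - m) W
    rw [← hJ] at this
    omega
  have h2 : n ≤ m + (J + 1) * W := by
    have h3 := Nat.lt_div_mul_add (a := n - m) hW
    rw [← hJ] at h3
    have h4 : (J + 1) * W = J * W + W := by ring
    omega
  refine (VWS_H_mono W m h2).trans ((VWS_H_up W m hW hm J).trans ?_)
  have h3 : (0 : ℝ) < ((m + J * W : ℕ) : ℝ) := by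
    have : 0 < m + J * W := by omega
    exact_mod_cast this
  have h4 : Real.log ((m + J * W : ℕ) : ℝ) ≤ Real.log (n : ℝ) :=
    Real.log_le_log h3 (by exact_mod_cast h1)
  gcongr

/-- the inner sum -/
theorem VWS_inner (W : ℕ) (hW : 0 < W) (z t : ℝ) (hz : 0 < z) (ht : 1 ≤ t) :
    VWS_H W ⌊z⌋₊ ⌊t * z⌋₊ ≤ ((W.totient : ℝ) / W) * Real.log t +
      (2 * W.totient + 2) / Real.sqrt z := by
  have hW0 : (0 : ℝ) < W := by exact_mod_cast hW
  have ht0 : 0 < t := by linarith
  have hlt : 0 ≤ Real.log t := Real.log_nonneg ht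
  have hf : 0 ≤ (W.totient : ℝ) / W := by positivity
  have hf1 : (W.totient : ℝ) / W ≤ 1 := by
    rw [div_le_one hW0]
    exact_mod_cast Nat.totient_le W
  have hφ : (0 : ℝ) ≤ W.totient := by positivity
  have hsz : 0 < Real.sqrt z := Real.sqrt_pos.mpr hz
  by_cases hz1 : 1 ≤ z
  · -- `z ≥ 1`
    have hm : 1 ≤ ⌊z⌋₊ := (Nat.one_le_floor_iff z).mpr hz1
    have hm' : (1 : ℝ) ≤ (⌊z⌋₊ : ℝ) := by exact_mod_cast hm
    have htz : z ≤ t * z := by nlinarith
    have hmn : ⌊z⌋₊ ≤ ⌊t * z⌋₊ := Nat.floor_le_floor htz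
    have h1 := VWS_H_log W _ _ hW hm hmn
    have h2 : z < ⌊z⌋₊ + 1 := Nat.lt_floor_add_one z
    have hn' : (0 : ℝ) < (⌊t * z⌋₊ : ℝ) := by
      have : ((⌊z⌋₊ : ℕ) : ℝ) ≤ ((⌊t * z⌋₊ : ℕ) : ℝ) := by exact_mod_cast hmn
      linarith
    have h3 : Real.log (⌊t * z⌋₊ : ℝ) ≤ Real.log t + Real.log z := by
      rw [← Real.log_mul ht0.ne' hz.ne']
      exact Real.log_le_log hn' (Nat.floor_le (by positivity))
    have h4 : Real.log z - Real.log (⌊z⌋₊ : ℝ) ≤ 1 / (⌊z⌋₊ : ℝ) := by
      rw [← Real.log_div hz.ne' (by linarith)]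
      refine (Real.log_le_sub_one_of_pos (by positivity)).trans ?_
      have h5 : z / (⌊z⌋₊ : ℝ) - 1 = (z - ⌊z⌋₊) / (⌊z⌋₊ : ℝ) := by field_simp
      rw [h5]
      apply div_le_div_of_nonneg_right _ (by linarith)
      linarith
    have h5 : 1 / (⌊z⌋₊ : ℝ) ≤ 2 / Real.sqrt z := by
      rw [div_le_div_iff₀ (by linarith) hsz, one_mul]
      have h6 : Real.sqrt z ≤ z := by
        rw [Real.sqrt_le_left (by linarith)]
        nlinarith
      linarith
    calc VWS_H W ⌊z⌋₊ ⌊t * z⌋₊ ≤ W.totient / (⌊z⌋₊ : ℝ) + ((W.totient : ℝ) / W) *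
          (Real.log (⌊t * z⌋₊ : ℝ) - Real.log (⌊z⌋₊ : ℝ)) := h1
      _ ≤ W.totient / (⌊z⌋₊ : ℝ) + ((W.totient : ℝ) / W) *
          (Real.log t + 1 / (⌊z⌋₊ : ℝ)) := by
          gcongr
          linarith
      _ = ((W.totient : ℝ) / W) * Real.log t + (W.totient + (W.totient : ℝ) / W) *
          (1 / (⌊z⌋₊ : ℝ)) := by ring
      _ ≤ ((W.totient : ℝ) / W) * Real.log t + (W.totient + 1) * (2 / Real.sqrt z) := by
          gcongr
      _ = _ := by ring
  · -- `z < 1`
    push Not at hz1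
    have hm : ⌊z⌋₊ = 0 := Nat.floor_eq_zero.mpr hz1
    rw [hm]
    have hs1 : Real.sqrt z ≤ 1 := by
      rw [Real.sqrt_le_left (by norm_num)]
      linarith
    have h6 : (2 * (W.totient : ℝ) + 2) ≤ (2 * W.totient + 2) / Real.sqrt z := by
      rw [le_div_iff₀ hsz]
      nlinarith
    by_cases htz : 1 ≤ t * z
    · have hn : 1 ≤ ⌊t * z⌋₊ := (Nat.one_le_floor_iff _).mpr htz
      rw [VWS_H_add W 0 1 _ (by omega) hn]
      have h1 := VWS_H_log W 1 _ hW le_rfl hn
      have h2 : VWS_H W 0 1 ≤ 1 := by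
        unfold VWS_H
        calc ∑ e ∈ (Ioc 0 1).filter (fun e : ℕ => e.Coprime W), 1 / (e : ℝ)
            ≤ ∑ e ∈ Ioc (0 : ℕ) 1, 1 / (e : ℝ) := by
              apply Finset.sum_le_sum_of_subset_of_nonneg (Finset.filter_subset _ _)
              intro i _ _
              positivity
          _ = 1 := by simp
      have hn' : (0 : ℝ) < (⌊t * z⌋₊ : ℝ) := by exact_mod_cast hn
      have h3 : Real.log (⌊t * z⌋₊ : ℝ) ≤ Real.log t := by
        apply Real.log_le_log hn'
        refine (Nat.floor_le (by positivity)).trans ?_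
        nlinarith
      have h4 : ((W.totient : ℝ) / W) * Real.log (⌊t * z⌋₊ : ℝ) ≤
          ((W.totient : ℝ) / W) * Real.log t := mul_le_mul_of_nonneg_left h3 hf
      simp only [Nat.cast_one, div_one, Real.log_one, sub_zero] at h1
      linarith
    · push Not at htz
      have hn : ⌊t * z⌋₊ = 0 := Nat.floor_eq_zero.mpr htz
      rw [hn]
      have h1 : VWS_H W 0 0 = 0 := by simp [VWS_H]
      rw [h1]
      have h2 : 0 ≤ ((W.totient : ℝ) / W) * Real.log t := mul_nonneg hf hlt
      have h3 : 0 ≤ (2 * (W.totient : ℝ) + 2) / Real.sqrt z := by positivity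
      linarith

/-- multiples of `D` in a short interval -/
theorem VWS_mult (W D : ℕ) (hD : 0 < D) (y x : ℝ) (hy : 0 ≤ y) :
    ∑ m ∈ ((Ioc ⌊y⌋₊ ⌊x⌋₊).filter (fun m => m.Coprime W)).filter (fun m => D ∣ m), 1 / (m : ℝ) ≤
      (1 / (D : ℝ)) * VWS_H W ⌊y / D⌋₊ ⌊x / D⌋₊ := by
  have hD0 : (0 : ℝ) < D := by exact_mod_cast hD
  set A := ((Ioc ⌊y⌋₊ ⌊x⌋₊).filter (fun m => m.Coprime W)).filter (fun m => D ∣ m) with hA
  have hdiv : ∀ m ∈ A, D * (m / D) = m := by
    intro m hm
    rw [hA, mem_filter] at hm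
    exact Nat.mul_div_cancel' hm.2
  calc ∑ m ∈ A, 1 / (m : ℝ) = ∑ m ∈ A, (1 / (D : ℝ)) * (1 / ((m / D : ℕ) : ℝ)) := by
        apply sum_congr rfl
        intro m hm
        have h := hdiv m hm
        have h2 : (m : ℝ) = D * ((m / D : ℕ) : ℝ) := by exact_mod_cast h.symm
        rw [h2, one_div_mul_one_div]
    _ = (1 / (D : ℝ)) * ∑ m ∈ A, 1 / ((m / D : ℕ) : ℝ) := by rw [mul_sum]
    _ = (1 / (D : ℝ)) * ∑ b ∈ A.image (fun m => m / D), 1 / (b : ℝ) := by
        rw [Finset.sum_image]
        intro a ha b hb hab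
        simp only at hab
        rw [← hdiv a ha, ← hdiv b hb, hab]
    _ ≤ (1 / (D : ℝ)) * VWS_H W ⌊y / D⌋₊ ⌊x / D⌋₊ := by
        apply mul_le_mul_of_nonneg_left _ (by positivity)
        unfold VWS_H
        apply Finset.sum_le_sum_of_subset_of_nonneg
        · intro b hb
          rw [mem_image] at hb
          obtain ⟨m, hm, rfl⟩ := hb
          have h := hdiv m hm
          have h' : ((m / D : ℕ) : ℝ) = m / D := by
            rw [eq_div_iff hD0.ne']
            have : ((D * (m / D) : ℕ) : ℝ) = m := by exact_mod_cast h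
            push_cast at this
            linarith
          rw [hA, mem_filter, mem_filter, mem_Ioc] at hm
          obtain ⟨⟨⟨h1, h2⟩, h3⟩, h4⟩ := hm
          have hm0 : m ≠ 0 := by omega
          rw [mem_filter, mem_Ioc]
          refine ⟨⟨?_, ?_⟩, ?_⟩
          · rw [Nat.floor_lt (by positivity), h']
            rw [Nat.floor_lt hy] at h1
            exact div_lt_div_of_pos_right h1 hD0
          · have hmd : m / D ≠ 0 := by
              intro h0
              rw [h0, mul_zero] at h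
              exact hm0 h.symm
            rw [Nat.le_floor_iff' hmd, h']
            rw [Nat.le_floor_iff' hm0] at h2
            exact div_le_div_of_nonneg_right h2 hD0.le
          · exact Nat.Coprime.coprime_dvd_left ⟨D, by rw [mul_comm]; exact h.symm⟩ h3
        · intro i _ _
          positivity

theorem VWS_main (W : ℕ) (hW : 0 < W) (y t : ℝ) (hy : 1 ≤ y) (ht : 1 ≤ t) (δ : ℝ)
    (hT : ∑ p ∈ VAS_T W ⌊t * y⌋₊, 1 / ((p : ℝ) - 1) ^ 2 ≤ δ) (E : ℝ)
    (hE : ∑ p ∈ VAS_T W ⌊t * y⌋₊, 1 / (((p : ℝ) - 1) * Real.sqrt p) ≤ E) :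
    VW W (t * y) - VW W y ≤ Real.exp δ * (((W.totient : ℝ) / W) * Real.log t) +
      Real.exp E * ((2 * W.totient + 2) / Real.sqrt y) := by
  have hy0 : 0 < y := by linarith
  have ht0 : 0 < t := by linarith
  have hty : y ≤ t * y := by nlinarith
  have hlt : 0 ≤ Real.log t := Real.log_nonneg ht
  have hf : 0 ≤ (W.totient : ℝ) / W := by positivity
  set n := ⌊t * y⌋₊ with hn
  set T := VAS_T W n with hTdef
  set S := ((Ioc ⌊y⌋₊ n).filter (fun m => m.Coprime W)).filter Squarefree with hS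
  have hT2 : ∀ p ∈ T, (2 : ℝ) ≤ p := by
    intro p hp
    rw [hTdef] at hp
    unfold VAS_T at hp
    rw [mem_filter] at hp
    exact_mod_cast hp.2.1.two_le
  have hTp : ∀ p ∈ T, p.Prime := by
    intro p hp
    rw [hTdef] at hp
    unfold VAS_T at hp
    rw [mem_filter] at hp
    exact hp.2.1
  -- the difference
  have hdiff : VW W (t * y) - VW W y = ∑ a ∈ S, 1 / (a.totient : ℝ) := by
    have hsplit : (sqf (t * y)).filter (fun a => Nat.Coprime a W) =
        (sqf y).filter (fun a => Nat.Coprime a W) ∪ S := by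
      ext a
      rw [mem_union, mem_filter, mem_filter, VAS_mem_sqf, VAS_mem_sqf, hS, mem_filter,
        mem_filter, mem_Ioc]
      constructor
      · rintro ⟨⟨h1, h2, h3⟩, h4⟩
        by_cases h : (a : ℝ) ≤ y
        · left
          exact ⟨⟨h1, h, h3⟩, h4⟩
        · right
          push Not at h
          refine ⟨⟨⟨?_, ?_⟩, h4⟩, h3⟩
          · rw [Nat.floor_lt hy0.le]
            exact h
          · rw [hn, Nat.le_floor_iff' (by omega)]
            exact h2
      · rintro (⟨⟨h1, h2, h3⟩, h4⟩ | ⟨⟨⟨h1, h2⟩, h3⟩, h4⟩)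
        · exact ⟨⟨h1, h2.trans hty, h3⟩, h4⟩
        · have ha0 : a ≠ 0 := by omega
          rw [hn, Nat.le_floor_iff' ha0] at h2
          exact ⟨⟨by omega, h2, h4⟩, h3⟩
    unfold VW
    rw [hsplit, Finset.sum_union]
    · ring
    · rw [Finset.disjoint_left]
      intro a ha ha'
      rw [mem_filter, VAS_mem_sqf] at ha
      rw [hS, mem_filter, mem_filter, mem_Ioc] at ha'
      have h1 := ha'.1.1.1
      rw [Nat.floor_lt hy0.le] at h1
      linarith [ha.1.2.1]
  have hsub : ∀ a ∈ S, a.primeFactors ⊆ T := by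
    intro a ha p hp
    rw [hS, mem_filter, mem_filter, mem_Ioc] at ha
    have hpp := Nat.prime_of_mem_primeFactors hp
    have hpd := Nat.dvd_of_mem_primeFactors hp
    rw [hTdef]
    unfold VAS_T
    rw [mem_filter, mem_Icc]
    refine ⟨⟨hpp.one_le, ?_⟩, hpp, ?_⟩
    · exact (Nat.le_of_dvd (by omega) hpd).trans ha.1.1.2
    · intro h
      exact hpp.one_lt.ne' (Nat.dvd_one.mp (ha.1.2 ▸ Nat.dvd_gcd hpd h))
  have hpos : ∀ t ∈ T.powerset, 0 ≤ ∏ p ∈ t, 1 / ((p : ℝ) - 1) := by
    intro t ht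
    apply prod_nonneg
    intro p hp
    have hp2 := hT2 p ((mem_powerset.mp ht) hp)
    have : 0 < (p : ℝ) - 1 := by linarith
    positivity
  rw [hdiff]
  calc ∑ a ∈ S, 1 / (a.totient : ℝ) = ∑ a ∈ S, (1 / (a : ℝ)) * ∑ t ∈ a.primeFactors.powerset,
        ∏ p ∈ t, 1 / ((p : ℝ) - 1) := by
        apply sum_congr rfl
        intro a ha
        exact VAS_inv_totient a (mem_filter.mp ha).2
    _ = ∑ a ∈ S, ∑ s ∈ T.powerset, (if s ⊆ a.primeFactors then
          (1 / (a : ℝ)) * ∏ p ∈ s, 1 / ((p : ℝ) - 1) else 0) := by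
        apply sum_congr rfl
        intro a ha
        rw [mul_sum, ← Finset.sum_filter]
        apply sum_congr _ (fun _ _ => rfl)
        ext t
        rw [mem_filter, mem_powerset, mem_powerset]
        constructor
        · intro h
          exact ⟨h.trans (hsub a ha), h⟩
        · exact fun h => h.2
    _ = ∑ s ∈ T.powerset, (∏ p ∈ s, 1 / ((p : ℝ) - 1)) *
          ∑ a ∈ S.filter (fun a => s ⊆ a.primeFactors), 1 / (a : ℝ) := by
        rw [sum_comm]
        apply sum_congr rfl
        intro t _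
        rw [mul_sum, ← Finset.sum_filter]
        apply sum_congr rfl
        intro a _
        ring
    _ ≤ ∑ s ∈ T.powerset, (∏ p ∈ s, 1 / ((p : ℝ) - 1)) *
          ((∏ p ∈ s, 1 / (p : ℝ)) * (((W.totient : ℝ) / W) * Real.log t) +
            (∏ p ∈ s, 1 / Real.sqrt p) * ((2 * W.totient + 2) / Real.sqrt y)) := by
        apply sum_le_sum
        intro s hs
        apply mul_le_mul_of_nonneg_left _ (hpos s hs)
        have hsp : ∀ p ∈ s, p.Prime := fun p hp => hTp p ((mem_powerset.mp hs) hp)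
        set D := ∏ p ∈ s, p with hD
        have hDpos : 0 < D := Finset.prod_pos (fun p hp => (hsp p hp).pos)
        have hD0 : (0 : ℝ) < D := by exact_mod_cast hDpos
        have h3 : (1 / (D : ℝ)) = ∏ p ∈ s, 1 / (p : ℝ) := by
          rw [hD, Nat.cast_prod, Finset.prod_div_distrib, Finset.prod_const_one]
        have h3' : (1 / Real.sqrt D) = ∏ p ∈ s, 1 / Real.sqrt (p : ℝ) := by
          rw [hD, Nat.cast_prod, Finset.prod_div_distrib, Finset.prod_const_one,
            Real.sqrt_prod]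
          intro i _
          positivity
        have h4 := VWS_mult W D hDpos y (t * y) hy0.le
        have h5 := VWS_inner W hW (y / D) t (by positivity) ht
        have h6 : t * (y / D) = t * y / D := by ring
        rw [h6] at h5
        have h7 : ∑ a ∈ S.filter (fun a => s ⊆ a.primeFactors), 1 / (a : ℝ) ≤
            (1 / (D : ℝ)) * VWS_H W ⌊y / D⌋₊ ⌊t * y / D⌋₊ := by
          refine le_trans ?_ h4
          apply Finset.sum_le_sum_of_subset_of_nonneg
          · intro a ha
            rw [mem_filter, hS, mem_filter] at ha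
            obtain ⟨⟨ha1, ha2⟩, ha3⟩ := ha
            rw [mem_filter]
            refine ⟨ha1, ?_⟩
            have h5 := Nat.prod_primeFactors_of_squarefree ha2
            rw [← h5]
            exact Finset.prod_dvd_prod_of_subset _ _ _ ha3
          · intro i _ _
            positivity
        refine h7.trans ?_
        have h8 := mul_le_mul_of_nonneg_left h5 (by positivity : 0 ≤ 1 / (D : ℝ))
        refine h8.trans (le_of_eq ?_)
        rw [← h3, ← h3', mul_add]
        congr 1
        rw [Real.sqrt_div hy0.le]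
        have h9 : 0 < Real.sqrt (D : ℝ) := Real.sqrt_pos.mpr hD0
        have h10 : 0 < Real.sqrt y := Real.sqrt_pos.mpr hy0
        have h11 : (D : ℝ) = Real.sqrt D * Real.sqrt D := (Real.mul_self_sqrt hD0.le).symm
        have h12 : 1 / (D : ℝ) = (1 / Real.sqrt D) * (1 / Real.sqrt D) := by
          rw [one_div_mul_one_div, ← h11]
        rw [h12]
        field_simp
    _ = (∑ s ∈ T.powerset, ∏ p ∈ s, (1 / ((p : ℝ) - 1)) * (1 / (p : ℝ))) *
          (((W.totient : ℝ) / W) * Real.log t) +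
        (∑ s ∈ T.powerset, ∏ p ∈ s, (1 / ((p : ℝ) - 1)) * (1 / Real.sqrt p)) *
          ((2 * W.totient + 2) / Real.sqrt y) := by
        rw [sum_mul, sum_mul, ← Finset.sum_add_distrib]
        apply sum_congr rfl
        intro s _
        rw [Finset.prod_mul_distrib, Finset.prod_mul_distrib]
        ring
    _ = (∏ p ∈ T, (1 + (1 / ((p : ℝ) - 1)) * (1 / (p : ℝ)))) *
          (((W.totient : ℝ) / W) * Real.log t) +
        (∏ p ∈ T, (1 + (1 / ((p : ℝ) - 1)) * (1 / Real.sqrt p))) *
          ((2 * W.totient + 2) / Real.sqrt y) := by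
        rw [Finset.prod_one_add, Finset.prod_one_add]
    _ ≤ Real.exp δ * (((W.totient : ℝ) / W) * Real.log t) +
      Real.exp E * ((2 * W.totient + 2) / Real.sqrt y) := by
        apply add_le_add
        · apply mul_le_mul_of_nonneg_right _ (mul_nonneg hf hlt)
          calc ∏ p ∈ T, (1 + (1 / ((p : ℝ) - 1)) * (1 / (p : ℝ)))
              ≤ ∏ p ∈ T, Real.exp (1 / ((p : ℝ) - 1) ^ 2) := by
                apply Finset.prod_le_prod
                · intro p hp
                  have hp2 := hT2 p hp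
                  have : 0 < (p : ℝ) - 1 := by linarith
                  positivity
                · intro p hp
                  have hp2 := hT2 p hp
                  have h0 : 0 < (p : ℝ) - 1 := by linarith
                  have h1 := Real.add_one_le_exp (1 / ((p : ℝ) - 1) ^ 2)
                  have h2 : (1 / ((p : ℝ) - 1)) * (1 / (p : ℝ)) ≤ 1 / ((p : ℝ) - 1) ^ 2 := by
                    rw [one_div_mul_one_div]
                    apply one_div_le_one_div_of_le (by positivity)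
                    nlinarith
                  linarith
            _ = Real.exp (∑ p ∈ T, 1 / ((p : ℝ) - 1) ^ 2) := by rw [Real.exp_sum]
            _ ≤ Real.exp δ := Real.exp_le_exp.mpr hT
        · apply mul_le_mul_of_nonneg_right _ (by positivity)
          calc ∏ p ∈ T, (1 + (1 / ((p : ℝ) - 1)) * (1 / Real.sqrt p))
              ≤ ∏ p ∈ T, Real.exp (1 / (((p : ℝ) - 1) * Real.sqrt p)) := by
                apply Finset.prod_le_prod
                · intro p hp
                  have hp2 := hT2 p hp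
                  have : 0 < (p : ℝ) - 1 := by linarith
                  positivity
                · intro p hp
                  have h1 := Real.add_one_le_exp (1 / (((p : ℝ) - 1) * Real.sqrt p))
                  rw [one_div_mul_one_div]
                  linarith
            _ = Real.exp (∑ p ∈ T, 1 / (((p : ℝ) - 1) * Real.sqrt p)) := by rw [Real.exp_sum]
            _ ≤ Real.exp E := Real.exp_le_exp.mpr hE

theorem VW_short (ε : ℝ) (hε : 0 < ε) : ∃ w₀ : ℕ, ∀ W : ℕ, 0 < W →
    (∀ p : ℕ, p.Prime → p ≤ w₀ → p ∣ W) → ∃ C : ℝ, 0 < C ∧ ∀ y t : ℝ, 1 ≤ y → 1 ≤ t →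
      VW W (t * y) - VW W y ≤ (1 + ε) * (W.totient / W) * Real.log t + C / Real.sqrt y := by
  have hlog : 0 < Real.log (1 + ε) := Real.log_pos (by linarith)
  obtain ⟨w₀, hw⟩ := VAS_tail (Real.log (1 + ε)) hlog
  refine ⟨w₀, ?_⟩
  intro W hW hdiv
  have hsum : Summable (fun n : ℕ => 1 / (n : ℝ) ^ (3 / 2 : ℝ)) :=
    Real.summable_one_div_nat_rpow.mpr (by norm_num)
  set E := 2 * ∑' n : ℕ, 1 / (n : ℝ) ^ (3 / 2 : ℝ) with hE
  refine ⟨Real.exp E * (2 * W.totient + 2), by positivity, ?_⟩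
  intro y t hy ht
  have h1 : ∑ p ∈ VAS_T W ⌊t * y⌋₊, 1 / ((p : ℝ) - 1) ^ 2 ≤ Real.log (1 + ε) := by
    apply hw
    intro p hp
    unfold VAS_T at hp
    rw [mem_filter] at hp
    by_contra h
    push Not at h
    exact hp.2.2 (hdiv p hp.2.1 h)
  have h2 : ∑ p ∈ VAS_T W ⌊t * y⌋₊, 1 / (((p : ℝ) - 1) * Real.sqrt p) ≤ E := by
    calc ∑ p ∈ VAS_T W ⌊t * y⌋₊, 1 / (((p : ℝ) - 1) * Real.sqrt p)
        ≤ ∑ p ∈ VAS_T W ⌊t * y⌋₊, 2 * (1 / (p : ℝ) ^ (3 / 2 : ℝ)) := by
          apply sum_le_sum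
          intro p hp
          unfold VAS_T at hp
          rw [mem_filter] at hp
          have hp2 : (2 : ℝ) ≤ p := by exact_mod_cast hp.2.1.two_le
          have hp0 : (0 : ℝ) < p := by linarith
          have h3 : (p : ℝ) ^ (3 / 2 : ℝ) = p * Real.sqrt p := by
            rw [Real.sqrt_eq_rpow]
            nth_rewrite 2 [← Real.rpow_one (p : ℝ)]
            rw [← Real.rpow_add hp0]
            norm_num
          have h4 : 0 < Real.sqrt (p : ℝ) := Real.sqrt_pos.mpr hp0
          rw [h3, mul_one_div, div_le_div_iff₀ (mul_pos (by linarith) h4) (by positivity)]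
          nlinarith
      _ = 2 * ∑ p ∈ VAS_T W ⌊t * y⌋₊, (1 / (p : ℝ) ^ (3 / 2 : ℝ)) := by rw [mul_sum]
      _ ≤ E := by
          rw [hE]
          apply mul_le_mul_of_nonneg_left _ (by norm_num)
          exact hsum.sum_le_tsum _ (fun n _ => by positivity)
  have h3 := VWS_main W hW y t hy ht _ h1 E h2
  rw [Real.exp_log (by linarith)] at h3
  refine h3.trans (le_of_eq ?_)
  ring

end Pool.Agent.BG4
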