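import Pool.Agent.Lib_helper23.BG4F.EUP
import Pool.Agent.Lib_helper23.BG4F.NUM4
import Pool.Agent.Lib_helper23.BG4F.PW
import Pool.Agent.Lib_helper23.BG4F.RED4
import Pool.Agent.Lib_helper23.BG4F.VWS
import Pool.Agent.Lib_helper23.BGF.TENS
/-! Block SRED: the energy of the weights conditioned on one prime. -/

set_option autoImplicit false

namespace Pool.Agent.BG4

open Finset Filter Pool.Agent.BG
open scoped Classical

variable {M k : ℕ}

theorem SRED_join_dv (P : Fin M → ℕ) (y τ : Vec M k) (h : Dis y τ) :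
    dv P (join y τ) = dv P y * dv P τ := by
  unfold dv join
  rw [← Finset.prod_mul_distrib]
  apply prod_congr rfl
  intro j _
  rcases h j with h1 | h1
  · simp [h1]
  · by_cases h2 : y j = none <;> simp [h1, h2]

theorem SRED_join_vals (b : Fin k) (y τ : Vec M k) (hy : Vals {b} y) (hτ : Vals {b} τ) :
    Vals {b} (join y τ) := by
  intro j i h
  unfold join at h
  split_ifs at h
  · exact hτ j i h
  · exact hy j i h

theorem SRED_update_dv (P : Fin M → ℕ) (w : Vec M k) (j₀ : Fin M) (b : Fin k)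
    (hw : w j₀ = none) : dv P (Function.update w j₀ (some b)) = dv P w * P j₀ := by
  unfold dv
  rw [← Finset.mul_prod_erase univ _ (mem_univ j₀), ← Finset.mul_prod_erase univ
    (fun j => if w j = none then 1 else P j) (mem_univ j₀)]
  have h1 : ∏ x ∈ univ.erase j₀, (if Function.update w j₀ (some b) x = none then 1 else P x) =
      ∏ x ∈ univ.erase j₀, (if w x = none then 1 else P x) := by
    apply prod_congr rfl
    intro x hx
    rw [Function.update_of_ne (Finset.ne_of_mem_erase hx)]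
  rw [h1, Function.update_self, if_neg (by simp), if_pos hw]
  ring

theorem SRED_f1_mono (R : ℝ) (d p : ℕ) (hp : 1 ≤ p) : f1 R (d * p) ≤ f1 R d := by
  unfold f1
  have h1 : (d : ℝ) ≤ ((d * p : ℕ) : ℝ) := by
    have : d ≤ d * p := Nat.le_mul_of_pos_right d hp
    exact_mod_cast this
  by_cases h2 : ((d * p : ℕ) : ℝ) ≤ R
  · rw [if_pos h2, if_pos (h1.trans h2)]
  · rw [if_neg h2]
    split_ifs <;> norm_num

theorem SRED_fz_mul (z R : ℝ) (d p : ℕ) (hp : p.Prime) (hpz : (p : ℝ) < z) :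
    fz z R (d * p) = if ((d * p : ℕ) : ℝ) ≤ R ∧ (∀ r : ℕ, r.Prime → r ∣ d → (r : ℝ) < z)
      then 1 else 0 := by
  unfold fz
  have h1 : (∀ r : ℕ, r.Prime → r ∣ d * p → (r : ℝ) < z) ↔
      (∀ r : ℕ, r.Prime → r ∣ d → (r : ℝ) < z) := by
    constructor
    · intro h r hr hd
      exact h r hr (hd.mul_right p)
    · intro h r hr hd
      rcases (Nat.Prime.dvd_mul hr).mp hd with h2 | h2
      · exact h r hr h2
      · rw [(Nat.prime_dvd_prime_iff_eq hr hp).mp h2]
        exact hpz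
  simp only [h1]

theorem SRED_ored (P : Fin M → ℕ) (hP : ∀ j, (P j).Prime) (b : Fin k) (j₀ : Fin M) (z R G : ℝ)
    (hG : 0 ≤ G) (hz : (P j₀ : ℝ) < z) (w : Vec M k) :
    0 ≤ ored (al P) b j₀ (omf P {b} (fun d => fz z R d / G)) w ∧
    ored (al P) b j₀ (omf P {b} (fun d => fz z R d / G)) w ^ 2 ≤
      (1 / G ^ 2) * (f1 R (dv P w) - f1 R (dv P w * P j₀) + al P j₀ ^ 2 * f1 R (dv P w)) ∧
    (ored (al P) b j₀ (omf P {b} (fun d => fz z R d / G)) w ≠ 0 → Vals {b} w ∧ w j₀ = none) := by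
  have hp2 : (2 : ℝ) ≤ P j₀ := by exact_mod_cast (hP j₀).two_le
  have hal0 : 0 ≤ al P j₀ := NUM_al_nonneg P hP j₀
  have hal1 : al P j₀ ≤ 1 := by
    unfold al
    rw [div_le_one (by linarith)]
    linarith
  have hf0 := PW_f1_nonneg R (dv P w)
  have hmono := SRED_f1_mono R (dv P w) (P j₀) (hP j₀).one_le
  have hG2 : 0 ≤ 1 / G ^ 2 := by positivity
  have hrhs : 0 ≤ (1 / G ^ 2) * (f1 R (dv P w) - f1 R (dv P w * P j₀) +
      al P j₀ ^ 2 * f1 R (dv P w)) := by
    apply mul_nonneg hG2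
    have : 0 ≤ al P j₀ ^ 2 * f1 R (dv P w) := mul_nonneg (sq_nonneg _) hf0
    linarith
  by_cases hw : w j₀ = none
  · by_cases hv : Vals {b} w
    · have hv2 : Vals {b} (Function.update w j₀ (some b)) := by
        intro j i hji
        by_cases hj : j = j₀
        · rw [hj, Function.update_self, Option.some.injEq] at hji
          rw [mem_singleton]
          exact hji.symm
        · rw [Function.update_of_ne hj] at hji
          exact hv j i hji
      have h1 : ored (al P) b j₀ (omf P {b} (fun d => fz z R d / G)) w =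
          fz z R (dv P w) / G - (1 - al P j₀) * (fz z R (dv P w * P j₀) / G) := by
        unfold ored omf
        rw [if_pos hw, if_pos hv, if_pos hv2, SRED_update_dv P w j₀ b hw]
      rw [SRED_fz_mul z R _ _ (hP j₀) hz] at h1
      by_cases hS : ∀ r : ℕ, r.Prime → r ∣ dv P w → (r : ℝ) < z
      · by_cases hd2 : ((dv P w * P j₀ : ℕ) : ℝ) ≤ R
        · have hd1 : (dv P w : ℝ) ≤ R := by
            refine le_trans ?_ hd2
            have : dv P w ≤ dv P w * P j₀ := Nat.le_mul_of_pos_right _ (hP j₀).pos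
            exact_mod_cast this
          have e1 : fz z R (dv P w) = 1 := by
            unfold fz
            rw [if_pos ⟨hd1, hS⟩]
          have e2 : f1 R (dv P w) = 1 := by
            unfold f1
            rw [if_pos hd1]
          have e3 : f1 R (dv P w * P j₀) = 1 := by
            unfold f1
            rw [if_pos hd2]
          rw [e1, if_pos ⟨hd2, hS⟩] at h1
          have h2 : ored (al P) b j₀ (omf P {b} (fun d => fz z R d / G)) w = al P j₀ / G := by
            rw [h1]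
            ring
          rw [h2, e2, e3]
          refine ⟨div_nonneg hal0 hG, ?_, fun _ => ⟨hv, hw⟩⟩
          apply le_of_eq
          rw [div_pow]
          ring
        · by_cases hd1 : (dv P w : ℝ) ≤ R
          · have e1 : fz z R (dv P w) = 1 := by
              unfold fz
              rw [if_pos ⟨hd1, hS⟩]
            have e2 : f1 R (dv P w) = 1 := by
              unfold f1
              rw [if_pos hd1]
            have e3 : f1 R (dv P w * P j₀) = 0 := by
              unfold f1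
              rw [if_neg hd2]
            rw [e1, if_neg (fun h => hd2 h.1)] at h1
            have h2 : ored (al P) b j₀ (omf P {b} (fun d => fz z R d / G)) w = 1 / G := by
              rw [h1]
              ring
            rw [h2, e2, e3]
            refine ⟨div_nonneg zero_le_one hG, ?_, fun _ => ⟨hv, hw⟩⟩
            rw [div_pow, one_pow]
            have h3 : 0 ≤ 1 / G ^ 2 * al P j₀ ^ 2 := mul_nonneg hG2 (sq_nonneg _)
            nlinarith
          · have e1 : fz z R (dv P w) = 0 := by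
              unfold fz
              rw [if_neg (fun h => hd1 h.1)]
            rw [e1, if_neg (fun h => hd2 h.1)] at h1
            have h2 : ored (al P) b j₀ (omf P {b} (fun d => fz z R d / G)) w = 0 := by
              rw [h1]
              ring
            rw [h2]
            refine ⟨le_rfl, ?_, fun h => absurd rfl h⟩
            simpa using hrhs
      · have e1 : fz z R (dv P w) = 0 := by
          unfold fz
          rw [if_neg (fun h => hS h.2)]
        rw [e1, if_neg (fun h => hS h.2)] at h1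
        have h2 : ored (al P) b j₀ (omf P {b} (fun d => fz z R d / G)) w = 0 := by
          rw [h1]
          ring
        rw [h2]
        refine ⟨le_rfl, ?_, fun h => absurd rfl h⟩
        simpa using hrhs
    · have hv2 : ¬ Vals {b} (Function.update w j₀ (some b)) := by
        intro h2
        apply hv
        intro j i hji
        have hj : j ≠ j₀ := by
          rintro rfl
          rw [hw] at hji
          exact absurd hji (by simp)
        exact h2 j i (by rw [Function.update_of_ne hj]; exact hji)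
      have h2 : ored (al P) b j₀ (omf P {b} (fun d => fz z R d / G)) w = 0 := by
        unfold ored omf
        rw [if_pos hw, if_neg hv, if_neg hv2]
        ring
      rw [h2]
      refine ⟨le_rfl, ?_, fun h => absurd rfl h⟩
      simpa using hrhs
  · have h2 : ored (al P) b j₀ (omf P {b} (fun d => fz z R d / G)) w = 0 := by
      unfold ored
      rw [if_neg hw]
    rw [h2]
    refine ⟨le_rfl, ?_, fun h => absurd rfl h⟩
    simpa using hrhs

/-- the inner energy -/
theorem SRED_H (P : Fin M → ℕ) (hP : ∀ j, (P j).Prime) (b : Fin k) (j₀ : Fin M) (z R G : ℝ)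
    (hG : 0 ≤ G) (hz : (P j₀ : ℝ) < z) (τ : Vec M k) (hτ : Vals {b} τ) :
    ∑ y ∈ (univ : Finset (Vec M k)).filter (fun y => Vals {b} y ∧ Dis y τ),
      ored (al P) b j₀ (omf P {b} (fun d => fz z R d / G)) (join y τ) ^ 2 * gw (al P) y ≤
    (1 / G ^ 2) * (Gsum P (f1 (R / dv P τ)) - Gsum P (f1 (R / (dv P τ * P j₀ : ℕ))) +
      al P j₀ ^ 2 * Gsum P (f1 (R / dv P τ))) := by
  have hal : ∀ j, 0 ≤ al P j := NUM_al_nonneg P hP
  have hprod : ∀ U : Finset (Fin M), 0 ≤ ∏ j ∈ U, al P j :=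
    fun U => prod_nonneg (fun j _ => hal j)
  have hdvpos : 0 < dv P τ := by
    unfold dv
    apply Finset.prod_pos
    intro j _
    split_ifs
    · exact one_pos
    · exact (hP j).pos
  set Ω := ored (al P) b j₀ (omf P {b} (fun d => fz z R d / G)) with hΩ
  have h1 : ∑ y ∈ (univ : Finset (Vec M k)).filter (fun y => Vals {b} y ∧ Dis y τ),
      Ω (join y τ) ^ 2 * gw (al P) y =
      ∑ y : Vec M k, (if Vals {b} y then
        (if Dis y τ then Ω (join y τ) ^ 2 * gw (al P) y else 0) else 0) := by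
    rw [Finset.sum_filter]
    apply sum_congr rfl
    intro y _
    by_cases h2 : Vals {b} y <;> by_cases h3 : Dis y τ <;> simp [h2, h3]
  rw [h1, PW_sum]
  have h2 : ∀ U : Finset (Fin M), (if Dis (PW_v b U) τ then Ω (join (PW_v b U) τ) ^ 2 *
      gw (al P) (PW_v b U) else 0) ≤
      (1 / G ^ 2) * (f1 (R / dv P τ) (pr P U) - f1 (R / (dv P τ * P j₀ : ℕ)) (pr P U) +
        al P j₀ ^ 2 * f1 (R / dv P τ) (pr P U)) * ∏ j ∈ U, al P j := by
    intro U
    have e1 : f1 (R / dv P τ) (pr P U) = f1 R (pr P U * dv P τ) := by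
      rw [mul_comm, PW_f1_div R _ _ hdvpos]
    have e2 : f1 (R / (dv P τ * P j₀ : ℕ)) (pr P U) = f1 R (pr P U * dv P τ * P j₀) := by
      rw [← PW_f1_div R _ _ (Nat.mul_pos hdvpos (hP j₀).pos)]
      congr 1
      ring
    rw [e1, e2]
    have hf0 := PW_f1_nonneg R (pr P U * dv P τ)
    have hmono := SRED_f1_mono R (pr P U * dv P τ) (P j₀) (hP j₀).one_le
    have hG2 : 0 ≤ 1 / G ^ 2 := by positivity
    by_cases hD : Dis (PW_v b U) τ
    · rw [if_pos hD, PW_gw]
      apply mul_le_mul_of_nonneg_right _ (hprod U)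
      have h3 := (SRED_ored P hP b j₀ z R G hG hz (join (PW_v b U) τ)).2.1
      rw [SRED_join_dv P _ _ hD, PW_dv] at h3
      exact h3
    · rw [if_neg hD]
      apply mul_nonneg _ (hprod U)
      apply mul_nonneg hG2
      have : 0 ≤ al P j₀ ^ 2 * f1 R (pr P U * dv P τ) := mul_nonneg (sq_nonneg _) hf0
      linarith
  refine (sum_le_sum (fun U _ => h2 U)).trans (le_of_eq ?_)
  unfold Gsum
  rw [← Finset.sum_sub_distrib, mul_sum, ← sum_add_distrib, mul_sum]
  apply sum_congr rfl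
  intro U _
  ring

/-- the numerical bound for the inner energy -/
theorem SRED_num (W N t p : ℕ) (ζ ρ C₁ C₂ : ℝ) (hN : 2 ≤ N) (hW : 0 < W) (hζ1 : ζ ≤ 1 / 1000)
    (hρ : 12 / 100 ≤ ρ) (hρ1 : ρ ≤ 13 / 100) (ht : 0 < t)
    (htZ : (t : ℝ) ≤ (N : ℝ) ^ ζ) (hp : 0 < p) (hpz : (p : ℝ) < (N : ℝ) ^ (17 / 200 : ℝ))
    (hC₁ : C₁ ≤ (N : ℝ) ^ (7 / 1000 : ℝ)) (hC₂ : C₂ ≤ (1 / 2) * ((W.totient / W) * Real.log N))
    (hshort : ∀ y t : ℝ, 1 ≤ y → 1 ≤ t →
      VW W (t * y) - VW W y ≤ (1 + ζ / 10) * (W.totient / W) * Real.log t + C₁ / Real.sqrt y)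
    (hasymp : ∀ x : ℝ, 1 ≤ x → VW W x ≤ (1 + 1) * (W.totient / W) * Real.log x + C₂) :
    VW W ((N : ℝ) ^ ρ / t) - VW W ((N : ℝ) ^ ρ / (t * p : ℕ)) ≤
      (1 + ζ / 10) * (W.totient / W) * Real.log p + (N : ℝ) ^ (-(1 / 100) : ℝ) ∧
    VW W ((N : ℝ) ^ ρ / t) ≤ (W.totient / W) * Real.log N := by
  have hN1 : (1 : ℝ) < N := by
    have : (2 : ℝ) ≤ N := by exact_mod_cast hN
    linarith
  have hN0 : (0 : ℝ) < N := by linarith
  have hℓ : 0 < Real.log N := Real.log_pos hN1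
  have hW0 : (0 : ℝ) < W := by exact_mod_cast hW
  have hφ0 : (0 : ℝ) < (W.totient : ℝ) / W := by
    have : 0 < W.totient := Nat.totient_pos.mpr hW
    positivity
  have ht0 : (0 : ℝ) < t := by exact_mod_cast ht
  have ht1 : (1 : ℝ) ≤ t := by exact_mod_cast ht
  have hp0 : (0 : ℝ) < p := by exact_mod_cast hp
  have hp1 : (1 : ℝ) ≤ p := by exact_mod_cast hp
  set φ := (W.totient : ℝ) / W with hφ
  set R := (N : ℝ) ^ ρ with hR
  have hR0 : 0 < R := Real.rpow_pos_of_pos hN0 _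
  have hR1 : 1 ≤ R := Real.one_le_rpow hN1.le (by linarith)
  constructor
  · have hT : ((t * p : ℕ) : ℝ) ≤ (N : ℝ) ^ (86 / 1000 : ℝ) := by
      push_cast
      calc (t : ℝ) * p ≤ (N : ℝ) ^ (1 / 1000 : ℝ) * (N : ℝ) ^ (17 / 200 : ℝ) := by
            apply mul_le_mul _ hpz.le hp0.le (Real.rpow_pos_of_pos hN0 _).le
            exact htZ.trans (Real.rpow_le_rpow_of_exponent_le hN1.le hζ1)
        _ = (N : ℝ) ^ (86 / 1000 : ℝ) := by
            rw [← Real.rpow_add hN0]
            norm_num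
    have hT0 : (0 : ℝ) < ((t * p : ℕ) : ℝ) := by exact_mod_cast Nat.mul_pos ht hp
    have hy : (N : ℝ) ^ (34 / 1000 : ℝ) ≤ R / ((t * p : ℕ) : ℝ) := by
      rw [le_div_iff₀ hT0]
      calc (N : ℝ) ^ (34 / 1000 : ℝ) * ((t * p : ℕ) : ℝ) ≤
          (N : ℝ) ^ (34 / 1000 : ℝ) * (N : ℝ) ^ (86 / 1000 : ℝ) :=
            mul_le_mul_of_nonneg_left hT (Real.rpow_pos_of_pos hN0 _).le
        _ = (N : ℝ) ^ (12 / 100 : ℝ) := by
            rw [← Real.rpow_add hN0]
            norm_num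
        _ ≤ R := Real.rpow_le_rpow_of_exponent_le hN1.le hρ
    have hy1 : 1 ≤ R / ((t * p : ℕ) : ℝ) :=
      (Real.one_le_rpow hN1.le (by norm_num)).trans hy
    have h1 := hshort (R / ((t * p : ℕ) : ℝ)) p hy1 hp1
    have h2 : (p : ℝ) * (R / ((t * p : ℕ) : ℝ)) = R / t := by
      push_cast
      field_simp
    rw [h2] at h1
    have h3 : (N : ℝ) ^ (17 / 1000 : ℝ) ≤ Real.sqrt (R / ((t * p : ℕ) : ℝ)) := by
      apply Real.le_sqrt_of_sq_le
      refine le_trans (le_of_eq ?_) hy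
      rw [← Real.rpow_natCast, ← Real.rpow_mul hN0.le]
      norm_num
    have h4 : C₁ / Real.sqrt (R / ((t * p : ℕ) : ℝ)) ≤ (N : ℝ) ^ (-(1 / 100) : ℝ) := by
      have h5 : 0 < (N : ℝ) ^ (17 / 1000 : ℝ) := Real.rpow_pos_of_pos hN0 _
      rw [div_le_iff₀ (h5.trans_le h3)]
      calc C₁ ≤ (N : ℝ) ^ (7 / 1000 : ℝ) := hC₁
        _ = (N : ℝ) ^ (-(1 / 100) : ℝ) * (N : ℝ) ^ (17 / 1000 : ℝ) := by
            rw [← Real.rpow_add hN0]
            norm_num
        _ ≤ _ := mul_le_mul_of_nonneg_left h3 (Real.rpow_pos_of_pos hN0 _).le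
    linarith
  · have h1 : VW W (R / t) ≤ VW W R := PW_VW_mono W (div_le_self hR0.le ht1)
    have h2 := hasymp R hR1
    rw [hR, Real.log_rpow hN0, ← hR] at h2
    have h3 : (1 + 1) * φ * (ρ * Real.log N) ≤ (26 / 100) * (φ * Real.log N) := by
      have h4 : 0 ≤ φ * Real.log N := by positivity
      nlinarith
    have h4 : 0 ≤ φ * Real.log N := by positivity
    linarith

theorem sel_red (ζ : ℝ) (hζ : 0 < ζ) (hζ1 : ζ ≤ 1 / 1000) (J k : ℕ)
    (hk : 10 * 2 ^ J ≤ ζ * k) : ∃ w₀ : ℕ, ∀ (h : Fin k → ℕ) (W ν : ℕ), Setup k w₀ h W ν →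
      ∀ᶠ N : ℕ in atTop, ∀ (M : ℕ) (P : Fin M → ℕ), Enum P W N → ∀ a b : Fin k, a ≠ b →
        ∀ (ρ : ℝ), 12 / 100 ≤ ρ → ρ ≤ 13 / 100 → ∀ j₀ : Fin M,
          (P j₀ : ℝ) < (N : ℝ) ^ (17 / 200 : ℝ) →
        let c := red b j₀ (ext {b} ∅ (restr {a, b} (c4 P ζ J N))
          (sel P {b} (al P) (fz ((N : ℝ) ^ (17 / 200 : ℝ)) ((N : ℝ) ^ ρ))))
        ∑ x, ∑ y, c x * c y * ∏ j, Kl (al P j) (x j) (y j) ≤
          (1 + ζ) * ((W.totient / W) * Real.log (P j₀) + (W.totient / W) * Real.log N * al P j₀ ^ 2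
            + (N : ℝ) ^ (-(1 / 100) : ℝ)) *
          (1 / Gsum P (fz ((N : ℝ) ^ (17 / 200 : ℝ)) ((N : ℝ) ^ ρ)) ^ 2) * GG4 P ζ J k N := by
  obtain ⟨w₁, hw₁k, hnum⟩ := num4 ζ hζ hζ1 J k hk
  obtain ⟨w₂, hshort⟩ := VW_short (ζ / 10) (by positivity)
  obtain ⟨w₃, hasymp⟩ := VW_asymp 1 one_pos
  obtain ⟨w₄, hw₄⟩ : ∃ w₄ : ℕ, 100 * k / ζ ≤ w₄ := exists_nat_ge _
  refine ⟨w₁ + w₂ + w₃ + w₄, ?_⟩
  intro h W ν hs
  have hW : 0 < W := Nat.pos_of_ne_zero hs.2.1.ne_zero
  have hW0 : (0 : ℝ) < W := by exact_mod_cast hW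
  have hφ0 : (0 : ℝ) < (W.totient : ℝ) / W := by
    have : 0 < W.totient := Nat.totient_pos.mpr hW
    positivity
  have hN1 := hnum h W ν (FL_setup hs (by omega))
  obtain ⟨C₁, hC₁0, hC₁⟩ := hshort W hW (fun p hp hle => hs.2.2.1 p hp (by omega))
  obtain ⟨C₂, hC₂⟩ := hasymp W hW (fun p hp hle => hs.2.2.1 p hp (by omega))
  have e1 : ∀ᶠ N : ℕ in atTop, C₁ ≤ (N : ℝ) ^ (7 / 1000 : ℝ) :=
    ((tendsto_rpow_atTop (by norm_num)).comp tendsto_natCast_atTop_atTop).eventually_ge_atTop _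
  have e2 : ∀ᶠ N : ℕ in atTop, 2 * C₂ / ((W.totient : ℝ) / W) ≤ Real.log N :=
    (Real.tendsto_log_atTop.comp tendsto_natCast_atTop_atTop).eventually_ge_atTop _
  filter_upwards [hN1, e1, e2, eventually_ge_atTop 2] with N hN1 e1 e2 hN2 M P hE a b hab ρ hρ hρ1
    j₀ hj₀
  intro c
  obtain ⟨hP, hinj, -, -, -, hwP⟩ := FL_enum hs hE
  obtain ⟨-, -, -, -, -, -, -, hg, -, -, hSg, hSg2⟩ := hN1 M P hE
  have hN1' : (1 : ℝ) < N := by
    have : (2 : ℝ) ≤ N := by exact_mod_cast hN2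
    linarith
  have hN0 : (0 : ℝ) < N := by linarith
  have hℓ : 0 < Real.log N := Real.log_pos hN1'
  have hal0 : ∀ j, 0 ≤ al P j := NUM_al_nonneg P hP
  have hP2 : ∀ j, (2 : ℝ) ≤ P j := fun j => by exact_mod_cast (hP j).two_le
  have hk0 : (0 : ℝ) < k := by
    have h1 : (0 : ℝ) < 10 * 2 ^ J := by positivity
    have h2 : 0 < ζ * k := lt_of_lt_of_le h1 hk
    exact (mul_pos_iff_of_pos_left hζ).mp h2
  have hk1 : (1 : ℝ) ≤ k := by
    have : 0 < k := by exact_mod_cast hk0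
    exact_mod_cast this
  have hkal : ∀ j, (k : ℝ) * al P j ≤ ζ / 100 := by
    intro j
    unfold al
    have h1 : ((w₄ : ℕ) : ℝ) + 1 ≤ P j := by
      have := hwP j
      have h2 : w₄ + 1 ≤ P j := by omega
      exact_mod_cast h2
    have h2 : 100 * k / ζ ≤ (P j : ℝ) - 1 := by linarith
    have h3 : 0 < 100 * (k : ℝ) / ζ := by positivity
    rw [mul_one_div, div_le_iff₀ (by linarith)]
    calc (k : ℝ) = ζ / 100 * (100 * k / ζ) := by field_simp
      _ ≤ ζ / 100 * ((P j : ℝ) - 1) := mul_le_mul_of_nonneg_left h2 (by positivity)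
  set φ := (W.totient : ℝ) / W with hφ
  set z := (N : ℝ) ^ (17 / 200 : ℝ) with hz
  obtain ⟨R, hR⟩ : ∃ R : ℝ, R = (N : ℝ) ^ ρ := ⟨_, rfl⟩
  rw [← hR]
  have hR0 : 0 < R := by rw [hR]; exact Real.rpow_pos_of_pos hN0 _
  have hRN : R ≤ N := by
    calc R = (N : ℝ) ^ ρ := hR
      _ ≤ (N : ℝ) ^ (1 : ℝ) := Real.rpow_le_rpow_of_exponent_le hN1'.le (by linarith)
      _ = N := Real.rpow_one _
  set G := Gsum P (fz z R) with hG
  have hG0 : 0 ≤ G := by
    rw [hG]
    unfold Gsum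
    apply sum_nonneg
    intro U _
    apply mul_nonneg _ (prod_nonneg (fun j _ => hal0 j))
    unfold fz
    split_ifs <;> norm_num
  have hGS : GS P {b} (al P) (fz z R) = G := by
    rw [PW_GS, hG]
    rfl
  set Ω := ored (al P) b j₀ (omf P {b} (fun d => fz z R d / G)) with hΩ
  have hc : c = ext {b} {j₀} (restr {a, b} (c4 P ζ J N)) (lam (al P) Ω) := by
    have h1 : c = red b j₀ (ext {b} ∅ (restr {a, b} (c4 P ζ J N))
        (lam (al P) (omf P {b} (fun d => fz z R d / G)))) := by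
      simp only [c]
      unfold sel
      rw [← hR, hGS]
    rw [h1]
    apply red_ext
    · intro x hx j i hi
      unfold restr at hx
      split_ifs at hx with hav
      · exact hav j i (by rw [mem_singleton] at hi; simp [hi])
      · exact absurd rfl hx
    · intro y hy
      unfold omf at hy
      split_ifs at hy with hv
      · exact hv
      · exact absurd rfl hy
  -- the energy
  set X := φ * Real.log (P j₀) + φ * Real.log N * al P j₀ ^ 2 + (N : ℝ) ^ (-(1 / 100) : ℝ) with hX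
  have hlogp : 0 ≤ Real.log (P j₀) := Real.log_nonneg (by linarith [hP2 j₀])
  have hX0 : 0 ≤ X := by
    rw [hX]
    positivity
  set H := (1 / G ^ 2) * ((1 + ζ / 10) * X) with hH
  have hG2 : 0 ≤ 1 / G ^ 2 := by positivity
  have hH0 : 0 ≤ H := by
    rw [hH]
    exact mul_nonneg hG2 (mul_nonneg (by linarith) hX0)
  have hHb : ∀ τ : Vec M k, Vals {b} τ → (dv P τ : ℝ) ≤ (N : ℝ) ^ ζ →
      ∑ y ∈ (univ : Finset (Vec M k)).filter (fun y => Vals {b} y ∧ Dis y τ),
        Ω (join y τ) ^ 2 * gw (al P) y ≤ H := by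
    intro τ hτ hτZ
    have hdvpos : 0 < dv P τ := by
      unfold dv
      apply Finset.prod_pos
      intro j _
      split_ifs
      · exact one_pos
      · exact (hP j).pos
    have hdv1 : (1 : ℝ) ≤ dv P τ := by exact_mod_cast hdvpos
    refine (SRED_H P hP b j₀ z R G hG0 hj₀ τ hτ).trans ?_
    rw [hH]
    apply mul_le_mul_of_nonneg_left _ hG2
    have hx1 : R / dv P τ ≤ R := div_le_self hR0.le hdv1
    have hx2 : R / ((dv P τ * P j₀ : ℕ) : ℝ) ≤ R := by
      apply div_le_self hR0.le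
      have : 1 ≤ dv P τ * P j₀ := Nat.mul_pos hdvpos (hP j₀).pos
      exact_mod_cast this
    have g1 : Gsum P (f1 (R / dv P τ)) = VW W (R / dv P τ) := by
      rw [← Gsum_eq_VW P W N hE _ (hx1.trans hRN)]
      rfl
    have g2 : Gsum P (f1 (R / ((dv P τ * P j₀ : ℕ) : ℝ))) =
        VW W (R / ((dv P τ * P j₀ : ℕ) : ℝ)) := by
      rw [← Gsum_eq_VW P W N hE _ (hx2.trans hRN)]
      rfl
    rw [g1, g2]
    have hC₂' : C₂ ≤ (1 / 2) * (φ * Real.log N) := by
      rw [div_le_iff₀ hφ0] at e2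
      linarith
    obtain ⟨n1, n2⟩ := SRED_num W N (dv P τ) (P j₀) ζ ρ C₁ C₂ hN2 hW hζ1 hρ hρ1 hdvpos hτZ
      (hP j₀).pos hj₀ e1 hC₂' hC₁ (fun x hx => (hC₂ x hx).2)
    rw [← hR] at n1 n2
    have n3 : al P j₀ ^ 2 * VW W (R / dv P τ) ≤ φ * Real.log N * al P j₀ ^ 2 := by
      rw [mul_comm]
      exact mul_le_mul_of_nonneg_right n2 (sq_nonneg _)
    have n4 : (N : ℝ) ^ (-(1 / 100) : ℝ) ≤ (1 + ζ / 10) * (N : ℝ) ^ (-(1 / 100) : ℝ) := by
      have : 0 < (N : ℝ) ^ (-(1 / 100) : ℝ) := Real.rpow_pos_of_pos hN0 _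
      nlinarith
    have n5 : φ * Real.log N * al P j₀ ^ 2 ≤ (1 + ζ / 10) * (φ * Real.log N * al P j₀ ^ 2) := by
      have : 0 ≤ φ * Real.log N * al P j₀ ^ 2 := by positivity
      nlinarith
    have n6 : (1 + ζ / 10) * X = (1 + ζ / 10) * φ * Real.log (P j₀) +
        (1 + ζ / 10) * (φ * Real.log N * al P j₀ ^ 2) +
          (1 + ζ / 10) * (N : ℝ) ^ (-(1 / 100) : ℝ) := by
      rw [hX]
      ring
    rw [n6]
    linarith
  have hgam0 : ∀ j, 1 / (P j : ℝ) ≤ al P j := by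
    intro j
    unfold al
    have := hP2 j
    exact one_div_le_one_div_of_le (by linarith) (by linarith)
  have hE1 := energy_upper P hP hinj (al P) hgam0 (fun j => le_rfl) (gg4 ζ J k N) hg
    ((N : ℝ) ^ ζ) (Real.one_le_rpow hN1'.le hζ.le) a b hab {b} (by simp) {j₀} Ω
    (fun y => (SRED_ored P hP b j₀ z R G hG0 hj₀ y).1) (by
      intro y hy
      obtain ⟨h1, h2⟩ := (SRED_ored P hP b j₀ z R G hG0 hj₀ y).2.2 hy
      refine ⟨h1, ?_⟩
      intro j hj
      rw [mem_singleton] at hj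
      rw [hj]
      exact h2) H hHb
  have hT := tensor_upper (al P) hal0 (fun j => (hkal j).trans (by linarith)) c
  refine hT.trans ?_
  rw [hc]
  refine hE1.trans ?_
  rw [Finset.prod_singleton]
  have hGG : Gsum P (gg4 ζ J k N) ^ 4 * Gsum P (fun a => gg4 ζ J k N a ^ 2) ^ (k - 2) =
      GG4 P ζ J k N := rfl
  rw [hGG]
  have hGG0 : 0 ≤ GG4 P ζ J k N := by
    rw [← hGG]
    apply mul_nonneg (by positivity)
    apply pow_nonneg
    unfold Gsum
    exact sum_nonneg (fun U _ => mul_nonneg (sq_nonneg _) (prod_nonneg (fun j _ => hal0 j)))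
  have hSg0 : 0 ≤ Sg32 P := by
    unfold Sg32
    exact sum_nonneg (fun j _ => mul_nonneg (hal0 j) (Real.sqrt_nonneg _))
  have hexp : Real.exp (100 * k * Sg32 P) ≤ 1 + ζ / 100 := by
    refine le_trans (Real.exp_le_exp.mpr ?_) hSg
    apply mul_le_mul_of_nonneg_right _ hSg0
    nlinarith
  have hpr : (1 + (k : ℝ) * al P j₀) ^ 2 ≤ (1 + ζ / 100) ^ 2 := by
    apply pow_le_pow_left₀
    · have := mul_nonneg hk0.le (hal0 j₀)
      linarith
    · linarith [hkal j₀]
  have hA : 0 ≤ H * GG4 P ζ J k N := mul_nonneg hH0 hGG0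
  calc H * GG4 P ζ J k N * Real.exp (100 * k * Sg32 P) * (1 + (k : ℝ) * al P j₀) ^ 2
      ≤ H * GG4 P ζ J k N * (1 + ζ / 100) * (1 + ζ / 100) ^ 2 := by
        apply mul_le_mul _ hpr (sq_nonneg _) (mul_nonneg hA (by linarith))
        exact mul_le_mul_of_nonneg_left hexp hA
    _ = ((1 + ζ / 10) * (1 + ζ / 100) ^ 3) * (X * (1 / G ^ 2) * GG4 P ζ J k N) := by
        rw [hH]
        ring
    _ ≤ (1 + ζ) * (X * (1 / G ^ 2) * GG4 P ζ J k N) := by
        apply mul_le_mul_of_nonneg_right _ (mul_nonneg (mul_nonneg hX0 hG2) hGG0)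
        have h1 : (1 + ζ / 100) ^ 3 ≤ 1 + 4 * (ζ / 100) := by
          have h2 : 0 ≤ ζ / 100 := by positivity
          have h3 : ζ / 100 ≤ 1 / 100 := by linarith
          nlinarith [mul_nonneg h2 h2, mul_nonneg (mul_nonneg h2 h2) h2]
        calc (1 + ζ / 10) * (1 + ζ / 100) ^ 3 ≤ (1 + ζ / 10) * (1 + 4 * (ζ / 100)) :=
              mul_le_mul_of_nonneg_left h1 (by linarith)
          _ ≤ 1 + ζ := by nlinarith
    _ = (1 + ζ) * X * (1 / G ^ 2) * GG4 P ζ J k N := by ring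

end Pool.Agent.BG4
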