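import Pool.Agent.Lib_helper23.BG4F.GZ
import Pool.Agent.Lib_helper23.BG4F.PMOD
import Pool.Agent.Lib_helper23.BG4F.SIZE4
import Pool.Agent.Lib_helper23.BG4F.SRED
import Pool.Agent.Lib_helper23.BG4F.SUP
import Pool.Agent.Lib_helper23.BGF.FLem2
/-! Block T1: lower bound for the rough numbers. -/

set_option autoImplicit false

namespace Pool.Agent.BG4

open Finset Filter Pool.Agent.BG
open scoped Classical

/-! ### numbers -/

theorem T1_log1 : Real.log (249 / 170) ≤ 382 / 1000 := by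
  rw [Real.log_le_iff_le_exp (by norm_num)]
  have h := Real.sum_le_exp_of_nonneg (x := 382 / 1000) (by norm_num) 5
  refine le_trans ?_ h
  simp only [Finset.sum_range_succ, Finset.sum_range_zero]
  norm_num [Nat.factorial]

theorem T1_log2 : (6041 / 10 ^ 6 : ℝ) + 1 / 10 ^ 6 ≤ Real.log ((83 / 500) / (33 / 200)) := by
  have h := Real.le_log_one_add_of_nonneg (x := 1 / 165) (by norm_num)
  have e : (83 / 500 : ℝ) / (33 / 200) = 1 + 1 / 165 := by norm_num
  rw [e]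
  refine le_trans ?_ h
  norm_num

theorem T1_x0 {ζ ρ : ℝ} (hζ : 0 < ζ) (hζ1 : ζ ≤ 1 / 10 ^ 6) (hρ : ρ = 249 / 2000 - 2 * ζ) :
    1094 / 10 ^ 4 ≤ ρ - (ρ - 17 / 200) * Real.log (ρ / (17 / 200)) - ζ := by
  have h1 : Real.log (ρ / (17 / 200)) ≤ 382 / 1000 := by
    refine le_trans (Real.log_le_log ?_ ?_) T1_log1
    · rw [hρ]; apply div_pos _ (by norm_num); linarith
    · rw [div_le_iff₀ (by norm_num)]; rw [hρ]; linarith
  have h2 : 0 ≤ ρ - 17 / 200 := by rw [hρ]; linarith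
  have h3 := mul_le_mul_of_nonneg_left h1 h2
  rw [hρ] at *
  linarith

theorem T1_num {ζ x : ℝ} (hζ : 0 < ζ) (hζ1 : ζ ≤ 1 / 10 ^ 6) (hx : 1094 / 10 ^ 4 ≤ x)
    (hx1 : x ≤ 1246 / 10 ^ 4) :
    203 / 100 * x ^ 2 ≤ (1 - ζ) * x - (1 + ζ) * (17 / 200 + 3 * ζ) := by
  have h1 : 0 ≤ (x - 1094 / 10 ^ 4) * (1246 / 10 ^ 4 - x) :=
    mul_nonneg (by linarith) (by linarith)
  nlinarith [mul_nonneg hζ.le hζ.le, mul_nonneg hζ.le (show 0 ≤ x by linarith)]

/-- the final bracket -/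
theorem T1_bracket {ζ F G : ℝ} (hζ : 0 < ζ) (hζ1 : ζ ≤ 1 / 10 ^ 6) (hF : 0 < F)
    (hG : 1094 / 10 ^ 4 * F ≤ G) (hG1 : G ≤ 1246 / 10 ^ 4 * F) :
    203 / 100 * (1 / F) ≤ (1 - ζ) * (1 / G) - (1 + ζ) * (F * (17 / 200 + 3 * ζ)) * (1 / G ^ 2) := by
  have hGpos : 0 < G := lt_of_lt_of_le (by positivity) hG
  set x := G / F with hx
  have hGx : G = x * F := by rw [hx, div_mul_cancel₀ _ hF.ne']
  have hx0 : 0 < x := div_pos hGpos hF
  have h1 : 1094 / 10 ^ 4 ≤ x := by rw [hx, le_div_iff₀ hF]; exact hG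
  have h2 : x ≤ 1246 / 10 ^ 4 := by rw [hx, div_le_iff₀ hF]; exact hG1
  have h3 := T1_num hζ hζ1 h1 h2
  have e : (1 - ζ) * (1 / G) - (1 + ζ) * (F * (17 / 200 + 3 * ζ)) * (1 / G ^ 2) =
      ((1 - ζ) * x - (1 + ζ) * (17 / 200 + 3 * ζ)) / x ^ 2 * (1 / F) := by
    rw [hGx]
    field_simp
  rw [e]
  apply mul_le_mul_of_nonneg_right _ (by positivity)
  rw [le_div_iff₀ (by positivity)]
  exact h3

theorem T1_err {ζ N W φ l GG : ℝ} (hζ : 0 < ζ) (hN : 0 < N)
    (hW : 0 < W) (hφ : 0 < φ) (hl : 1 ≤ l) (hGG : 1 ≤ GG) (hl2 : φ ^ 2 / (ζ * W) ≤ l) :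
    N / l ^ 10 ≤ l * (ζ * ((N * W / (φ * l) ^ 2) * GG)) := by
  have hlpos : 0 < l := by linarith
  have e1 : l * (ζ * ((N * W / (φ * l) ^ 2) * GG)) = (ζ * (N * W) * GG / φ ^ 2) / l := by
    field_simp
  rw [e1, div_le_div_iff₀ (by positivity) (by positivity)]
  have e2 : N * φ ^ 2 ≤ ζ * (N * W) * l := by
    rw [div_le_iff₀ (by positivity)] at hl2
    nlinarith
  have e3 : l * l ≤ l ^ 10 := by
    rw [← sq]
    exact pow_le_pow_right₀ hl (by norm_num)
  have e4 : N ≤ ζ * (N * W) * GG / φ ^ 2 * l := by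
    rw [div_mul_eq_mul_div, le_div_iff₀ (by positivity)]
    calc N * φ ^ 2 ≤ ζ * (N * W) * l := e2
      _ = ζ * (N * W) * 1 * l := by ring
      _ ≤ ζ * (N * W) * GG * l := by gcongr
  calc N * l ≤ (ζ * (N * W) * GG / φ ^ 2 * l) * l := by gcongr
    _ = (ζ * (N * W) * GG / φ ^ 2) * (l * l) := by ring
    _ ≤ (ζ * (N * W) * GG / φ ^ 2) * l ^ 10 := by gcongr

/-- the final computation -/
theorem T1_final {ζ N W φ f l l' G GG S1 t Q1 Q2 T : ℝ} (hζ : 0 < ζ) (hζ1 : ζ ≤ 1 / 10 ^ 6)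
    (hN : 0 < N) (hW : 0 < W) (hφ : 0 < φ) (hf : f = φ / W) (hl : 1 ≤ l) (hl' : l' ≤ (1 + 1 / 1000) * l)
    (hGG : 1 ≤ GG) (hl2 : φ ^ 2 / (1 / 10 ^ 6 * W) ≤ l) (hS1 : 6040 / 10 ^ 6 ≤ S1)
    (ht : 999 / 1000 * N ≤ t)
    (hG : 1094 / 10 ^ 4 * (f * l) ≤ G) (hG1 : G ≤ 1246 / 10 ^ 4 * (f * l))
    (hQ1 : (1 - ζ) * (1 / G) * GG ≤ Q1)
    (hQ2 : Q2 ≤ (1 + ζ) * (f * l * (17 / 200 + 3 * ζ)) * (1 / G ^ 2) * GG) (hT0 : 0 ≤ T)
    (hmain : t / φ * S1 * (Q1 - Q2) - 2 * (N / l ^ 10) ≤ l' * T) :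
    122 / 10 ^ 4 * ((N * W / (φ * l) ^ 2) * GG) ≤ T := by
  have hlpos : 0 < l := by linarith
  have hfpos : 0 < f := by rw [hf]; positivity
  have hGGpos : 0 < GG := by linarith
  have h1 := T1_bracket hζ hζ1 (mul_pos hfpos hlpos) hG hG1
  have h2 : GG * (203 / 100 * (1 / (f * l))) ≤ Q1 - Q2 := by
    have := mul_le_mul_of_nonneg_left h1 hGGpos.le
    linarith
  have herr := T1_err (ζ := 1 / 10 ^ 6) (by norm_num) hN hW hφ hl hGG hl2
  set Y := (N * W / (φ * l) ^ 2) * GG with hY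
  have hYpos : 0 < Y := by positivity
  have h3 : 0 ≤ GG * (203 / 100 * (1 / (f * l))) := by positivity
  have ht0 : 0 < t := lt_of_lt_of_le (by positivity) ht
  have hS0 : 0 < S1 := lt_of_lt_of_le (by norm_num) hS1
  have h4 : 999 / 1000 * N / φ * (6040 / 10 ^ 6) * (GG * (203 / 100 * (1 / (f * l)))) ≤
      t / φ * S1 * (Q1 - Q2) := by
    gcongr
  have h5 : 999 / 1000 * N / φ * (6040 / 10 ^ 6) * (GG * (203 / 100 * (1 / (f * l)))) =
      (999 / 1000 * (6040 / 10 ^ 6) * (203 / 100)) * (l * Y) := by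
    rw [hY, hf]
    field_simp
  rw [h5] at h4
  have h6 : l' * T ≤ (1 + 1 / 1000) * l * T := mul_le_mul_of_nonneg_right hl' hT0
  have h7 : l * (122 / 10 ^ 4 * Y) * (1 + 1 / 1000) ≤ l * T * (1 + 1 / 1000) := by
    have hlY : 0 < l * Y := by positivity
    have h8 : 122 / 10 ^ 4 * (1 + 1 / 1000) * (l * Y) ≤
        (999 / 1000 * (6040 / 10 ^ 6) * (203 / 100)) * (l * Y) -
          2 * (1 / 10 ^ 6 * (l * Y)) := by
      have : (0 : ℝ) ≤ ((999 / 1000 * (6040 / 10 ^ 6) * (203 / 100)) - 2 * (1 / 10 ^ 6) -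
        122 / 10 ^ 4 * (1 + 1 / 1000)) * (l * Y) := mul_nonneg (by norm_num) hlY.le
      linarith
    linarith
  have h9 : l * (122 / 10 ^ 4 * Y) ≤ l * T := le_of_mul_le_mul_right h7 (by norm_num)
  exact le_of_mul_le_mul_left h9 hlpos

/-! ### the sieve weights -/

variable {M k : ℕ}

theorem T1_sel_small (P : Fin M → ℕ) (hP : ∀ j, (P j).Prime) (b : Fin k) (z R : ℝ)
    (y : Vec M k) (hy : sel P {b} (al P) (fz z R) y ≠ 0) : ∀ j, y j ≠ none → (P j : ℝ) < z := by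
  intro j hj
  unfold sel lam tr at hy
  have h1 := right_ne_zero_of_mul hy
  obtain ⟨x, _, hx⟩ := Finset.exists_ne_zero_of_sum_ne_zero h1
  have hx1 := left_ne_zero_of_mul hx
  have hx2 := right_ne_zero_of_mul hx
  have hx3 : Al (al P j) (y j) (x j) ≠ 0 := fun h => hx2 (Finset.prod_eq_zero (mem_univ j) h)
  have hxj : x j ≠ none := by
    intro h
    apply hx3
    rw [h]
    rcases hyj : y j with _ | i
    · exact absurd hyj hj
    · rfl
  unfold omf at hx1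
  by_cases hv : Vals ({b} : Finset (Fin k)) x
  · rw [if_pos hv] at hx1
    have h2 : fz z R (dv P x) ≠ 0 := fun h => hx1 (by simp only [h, zero_div])
    unfold fz at h2
    by_cases h3 : (dv P x : ℝ) ≤ R ∧ ∀ p : ℕ, p.Prime → p ∣ dv P x → (p : ℝ) < z
    · refine h3.2 (P j) (hP j) ?_
      unfold dv
      refine dvd_trans ?_ (Finset.dvd_prod_of_mem _ (mem_univ j))
      rw [if_neg hxj]
    · rw [if_neg h3] at h2; exact absurd rfl h2
  · rw [if_neg hv] at hx1; exact absurd rfl hx1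

theorem T1_Lam_one (P : Fin M → ℕ) (hP : ∀ j, (P j).Prime) (h : Fin k → ℕ) (b : Fin k) (z R : ℝ)
    (n : ℕ) (hGS : GS P ({b} : Finset (Fin k)) (al P) (fz z R) ≠ 0)
    (hrough : ∀ p : ℕ, p.Prime → p ∣ n + h b → z ≤ p) :
    Lam P h {b} (sel P {b} (al P) (fz z R)) n = 1 := by
  unfold Lam
  rw [Finset.sum_eq_single (fun _ => none)]
  · rw [if_pos]
    · exact sel_none P {b} (al P) (fz z R) hGS
    · refine ⟨?_, ?_⟩
      · intro j i hji; exact absurd hji (by simp)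
      · intro j i hji; exact absurd hji (by simp)
  · intro x _ hx
    by_cases hc : Sat P h n x ∧ Vals {b} x
    · rw [if_pos hc]
      by_contra hne
      have hx' : ∃ j, x j ≠ none := by
        by_contra hcon
        push Not at hcon
        exact hx (funext hcon)
      obtain ⟨j, hj⟩ := hx'
      obtain ⟨i, hi⟩ := Option.ne_none_iff_exists'.1 hj
      have hib := hc.2 j i hi
      rw [Finset.mem_singleton] at hib
      subst hib
      have h1 := hc.1 j i hi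
      have h2 := hrough (P j) (hP j) h1
      have h3 := T1_sel_small P hP i z R x hne j hj
      linarith
    · rw [if_neg hc]
  · intro hc; exact absurd (mem_univ _) hc

/-- the pointwise inequality -/
theorem T1_point (P : Fin M → ℕ) (hP : ∀ j, (P j).Prime) (h : Fin k → ℕ) (b : Fin k) (N W : ℕ)
    (hE : ∀ p : ℕ, (∃ j, P j = p) ↔ p.Prime ∧ p ≤ N ∧ ¬ p ∣ W) (R : ℝ)
    (hN : 1 ≤ N) (n : ℕ)
    (hGS : GS P ({b} : Finset (Fin k)) (al P) (fz ((N : ℝ) ^ (17 / 200 : ℝ)) R) ≠ 0)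
    (hcop : Nat.Coprime (n + h b) W) (Φ : ℝ) :
    (Φ * Lam P h {b} (sel P {b} (al P) (fz ((N : ℝ) ^ (17 / 200 : ℝ)) R)) n) ^ 2 -
      ∑ j ∈ univ.filter (fun j => (P j : ℝ) < (N : ℝ) ^ (17 / 200 : ℝ)),
        (if P j ∣ n + h b then
        (Φ * Lam P h {b} (sel P {b} (al P) (fz ((N : ℝ) ^ (17 / 200 : ℝ)) R)) n) ^ 2 else 0) ≤
      if Rough N (n + h b) then Φ ^ 2 else 0 := by
  set z := (N : ℝ) ^ (17 / 200 : ℝ) with hz
  have hNr : (1 : ℝ) ≤ N := by exact_mod_cast hN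
  have hzN : z ≤ N := by
    calc z ≤ (N : ℝ) ^ (1 : ℝ) := Real.rpow_le_rpow_of_exponent_le hNr (by norm_num)
      _ = N := Real.rpow_one _
  set X := (Φ * Lam P h {b} (sel P {b} (al P) (fz z R)) n) ^ 2 with hX
  have hX0 : 0 ≤ X := sq_nonneg _
  by_cases hr : Rough N (n + h b)
  · rw [if_pos hr]
    have h1 : Lam P h {b} (sel P {b} (al P) (fz z R)) n = 1 :=
      T1_Lam_one P hP h b z R n hGS hr
    have h2 : 0 ≤ ∑ j ∈ univ.filter (fun j => (P j : ℝ) < z),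
        (if P j ∣ n + h b then X else 0) := Finset.sum_nonneg fun j _ => by
      split_ifs
      · exact hX0
      · exact le_rfl
    have h3 : X = Φ ^ 2 := by rw [hX, h1, mul_one]
    linarith
  · rw [if_neg hr]
    unfold Rough at hr
    push Not at hr
    obtain ⟨p, hp, hpd, hpz⟩ := hr
    have hpN : p ≤ N := by exact_mod_cast (hpz.le.trans hzN)
    have hpW : ¬ p ∣ W := by
      intro hd
      have := Nat.dvd_gcd hpd hd
      rw [hcop] at this
      exact hp.one_lt.ne' (Nat.dvd_one.1 this)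
    obtain ⟨j, hj⟩ := (hE p).2 ⟨hp, hpN, hpW⟩
    have hjm : j ∈ univ.filter (fun j => (P j : ℝ) < z) := by
      rw [Finset.mem_filter, hj]; exact ⟨mem_univ _, hpz⟩
    have h2 : (if P j ∣ n + h b then X else 0) ≤ ∑ j ∈ univ.filter (fun j => (P j : ℝ) < z),
        (if P j ∣ n + h b then X else 0) :=
      Finset.single_le_sum (f := fun j => if P j ∣ n + h b then X else 0) (fun j _ => by
        split_ifs
        · exact hX0
        · exact le_rfl) hjm
    rw [hj, if_pos hpd] at h2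
    linarith

/-! ### sums over primes -/

theorem T1_sqrt {x : ℝ} (hx : 0 ≤ x) (hx1 : x ≤ 1) : x ^ 2 ≤ Real.sqrt x := by
  have h1 : x ≤ Real.sqrt x := by
    rw [Real.le_sqrt hx hx]
    nlinarith
  nlinarith

theorem T1_log_le (p : ℝ) (hp : 2 ≤ p) :
    1 / (p - 1) * Real.log p ≤ Real.log p / p + 2 * (1 / (p - 1) * Real.sqrt (1 / (p - 1))) := by
  have hp0 : 0 < p := by linarith
  have hp1 : 0 < p - 1 := by linarith
  have h1 : 1 / (p - 1) * Real.log p = Real.log p / p + 1 / (p - 1) * (Real.log p / p) := by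
    field_simp
    ring
  rw [h1]
  have h2 : Real.log p ≤ 2 * Real.sqrt p := by
    have h3 := Real.log_le_sub_one_of_pos (Real.sqrt_pos.2 hp0)
    have h4 : Real.log (Real.sqrt p) = Real.log p / 2 := Real.log_sqrt hp0.le
    rw [h4] at h3
    linarith
  have h5 : Real.log p / p ≤ 2 * Real.sqrt (1 / (p - 1)) := by
    have h6 : Real.sqrt p ≤ p * Real.sqrt (1 / (p - 1)) := by
      have h7 : p * Real.sqrt (1 / (p - 1)) = Real.sqrt (p ^ 2 * (1 / (p - 1))) := by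
        rw [Real.sqrt_mul (sq_nonneg p), Real.sqrt_sq hp0.le]
      rw [h7]
      apply Real.sqrt_le_sqrt
      rw [mul_one_div, le_div_iff₀ hp1]
      nlinarith
    rw [div_le_iff₀ hp0]
    nlinarith
  have h8 : 0 ≤ 1 / (p - 1) := by positivity
  have := mul_le_mul_of_nonneg_left h5 h8
  linarith

/-- `∑ log p / (p - 1)` over the small primes -/
theorem T1_L1 (P : Fin M → ℕ) (hP : ∀ j, (P j).Prime) (hinj : Function.Injective P) (C : ℝ)
    (hC : ∀ x : ℕ, 1 ≤ x → |∑ p ∈ (Icc 1 x).filter Nat.Prime, Real.log p / p - Real.log x| ≤ C)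
    (z : ℝ) (hz : 1 ≤ z) :
    ∑ j ∈ univ.filter (fun j => (P j : ℝ) < z), al P j * Real.log (P j) ≤
      Real.log z + C + 2 * Sg32 P := by
  have h2 : ∀ j, (2 : ℝ) ≤ P j := fun j => by exact_mod_cast (hP j).two_le
  have hx1 : 1 ≤ ⌊z⌋₊ := by
    rw [Nat.one_le_floor_iff]; exact hz
  have h3 := (abs_le.1 (hC ⌊z⌋₊ hx1)).2
  have h4 : Real.log (⌊z⌋₊ : ℝ) ≤ Real.log z :=
    Real.log_le_log (by exact_mod_cast hx1) (Nat.floor_le (by linarith))
  have h5 : ∑ j ∈ univ.filter (fun j => (P j : ℝ) < z), Real.log (P j) / P j ≤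
      ∑ p ∈ (Icc 1 ⌊z⌋₊).filter Nat.Prime, Real.log p / p := by
    rw [← Finset.sum_image (s := univ.filter (fun j => (P j : ℝ) < z)) (g := P)
      (f := fun p : ℕ => Real.log p / p) (fun i _ j _ e => hinj e)]
    apply Finset.sum_le_sum_of_subset_of_nonneg
    · intro p hp
      obtain ⟨j, hj, rfl⟩ := Finset.mem_image.1 hp
      rw [Finset.mem_filter] at hj ⊢
      exact ⟨Finset.mem_Icc.2 ⟨(hP j).one_le, Nat.le_floor hj.2.le⟩, hP j⟩
    · intro p hp _
      have : (1 : ℝ) ≤ p := by exact_mod_cast (Finset.mem_Icc.1 (Finset.mem_filter.1 hp).1).1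
      exact div_nonneg (Real.log_nonneg this) (by linarith)
  have h6 : ∑ j ∈ univ.filter (fun j => (P j : ℝ) < z), al P j * Real.log (P j) ≤
      ∑ j ∈ univ.filter (fun j => (P j : ℝ) < z),
        (Real.log (P j) / P j + 2 * (al P j * Real.sqrt (al P j))) :=
    Finset.sum_le_sum fun j _ => T1_log_le _ (h2 j)
  have h7 : ∑ j ∈ univ.filter (fun j => (P j : ℝ) < z), 2 * (al P j * Real.sqrt (al P j)) ≤
      2 * Sg32 P := by
    unfold Sg32
    rw [Finset.mul_sum]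
    apply Finset.sum_le_sum_of_subset_of_nonneg (Finset.filter_subset _ _)
    intro j _ _
    have : 0 ≤ al P j := by
      unfold al
      have := h2 j
      exact div_nonneg (by norm_num) (by linarith)
    positivity
  rw [Finset.sum_add_distrib] at h6
  linarith

/-- the weighted sum over the small primes -/
theorem T1_small (P : Fin M → ℕ) (hP : ∀ j, (P j).Prime) (z f l ζ C η : ℝ)
    (hL : ∑ j ∈ univ.filter (fun j => (P j : ℝ) < z), al P j * Real.log (P j) ≤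
      17 / 200 * l + C) (hf : 0 < f) (hl : 1 ≤ l) (hζ : 0 < ζ) (hζ1 : ζ ≤ 1 / 10) (hC : C ≤ ζ * l)
    (hS : Sg32 P ≤ ζ) (hη0 : 0 ≤ η) (hη : η ≤ f * ζ / 2) :
    ∑ j ∈ univ.filter (fun j => (P j : ℝ) < z),
      al P j * (f * Real.log (P j) + f * l * al P j ^ 2 + η) ≤ f * l * (17 / 200 + 3 * ζ) := by
  have h2 : ∀ j, (2 : ℝ) ≤ P j := fun j => by exact_mod_cast (hP j).two_le
  have hα0 : ∀ j, 0 ≤ al P j := fun j => by
    unfold al
    have := h2 j
    exact div_nonneg (by norm_num) (by linarith)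
  have hα1 : ∀ j, al P j ≤ 1 := fun j => by
    unfold al
    have := h2 j
    rw [div_le_one (by linarith)]; linarith
  set J0 := univ.filter (fun j => (P j : ℝ) < z) with hJ0
  have e1 : ∑ j ∈ J0, al P j * (f * Real.log (P j) + f * l * al P j ^ 2 + η) =
      f * ∑ j ∈ J0, al P j * Real.log (P j) + f * l * ∑ j ∈ J0, al P j ^ 3 +
        η * ∑ j ∈ J0, al P j := by
    rw [Finset.mul_sum, Finset.mul_sum, Finset.mul_sum, ← Finset.sum_add_distrib,
      ← Finset.sum_add_distrib]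
    exact Finset.sum_congr rfl fun j _ => by ring
  have h3 : ∑ j ∈ J0, al P j ^ 3 ≤ ζ := by
    refine le_trans ?_ hS
    unfold Sg32
    calc ∑ j ∈ J0, al P j ^ 3 ≤ ∑ j ∈ J0, al P j * Real.sqrt (al P j) :=
          Finset.sum_le_sum fun j _ => by
            have := mul_le_mul_of_nonneg_left (T1_sqrt (hα0 j) (hα1 j)) (hα0 j)
            calc al P j ^ 3 = al P j * al P j ^ 2 := by ring
              _ ≤ _ := this
      _ ≤ _ := Finset.sum_le_sum_of_subset_of_nonneg (Finset.filter_subset _ _) fun j _ _ =>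
          mul_nonneg (hα0 j) (Real.sqrt_nonneg _)
  have h4 : ∑ j ∈ J0, al P j ≤ 2 * ∑ j ∈ J0, al P j * Real.log (P j) := by
    rw [Finset.mul_sum]
    refine Finset.sum_le_sum fun j _ => ?_
    have h5 : (1 / 2 : ℝ) ≤ Real.log (P j) := by
      have h6 : Real.log 2 ≤ Real.log (P j) := Real.log_le_log (by norm_num) (h2 j)
      have := Real.log_two_gt_d9
      linarith
    have := hα0 j
    nlinarith
  set L1 := ∑ j ∈ J0, al P j * Real.log (P j) with hL1
  have h7 : L1 ≤ l := by nlinarith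
  have h8 : 0 ≤ L1 := Finset.sum_nonneg fun j _ => mul_nonneg (hα0 j)
    (Real.log_nonneg (by linarith [h2 j]))
  rw [e1]
  have hlpos : 0 < l := by linarith
  have a1 : f * L1 ≤ f * (17 / 200 * l + C) := mul_le_mul_of_nonneg_left hL hf.le
  have a2 : f * C ≤ f * (ζ * l) := mul_le_mul_of_nonneg_left hC hf.le
  have a3 : f * l * ∑ j ∈ J0, al P j ^ 3 ≤ f * l * ζ := mul_le_mul_of_nonneg_left h3 (by positivity)
  have a4 : η * ∑ j ∈ J0, al P j ≤ η * (2 * l) := mul_le_mul_of_nonneg_left (by linarith) hη0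
  have a5 : η * (2 * l) ≤ f * ζ / 2 * (2 * l) := mul_le_mul_of_nonneg_right hη (by positivity)
  nlinarith

/-- reciprocals of the primes in `IP` -/
theorem T1_IP (N : ℕ) (hN : 1 ≤ N) (ε : ℝ)
    (h : |∑ p ∈ (Icc 1 (N ^ 2)).filter (fun p : ℕ => p.Prime ∧ (N : ℝ) ^ (33 / 200 : ℝ) < p ∧
        (p : ℝ) ≤ (N : ℝ) ^ (83 / 500 : ℝ)), (1 / (p : ℝ)) -
          Real.log ((83 / 500) / (33 / 200))| ≤ ε) (hε : ε ≤ 1 / 10 ^ 6) :
    6040 / 10 ^ 6 ≤ ∑ p ∈ IP N, 1 / ((p : ℝ) - 1) := by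
  have hNr : (1 : ℝ) ≤ N := by exact_mod_cast hN
  have e : (Icc 1 (N ^ 2)).filter (fun p : ℕ => p.Prime ∧ (N : ℝ) ^ (33 / 200 : ℝ) < p ∧
        (p : ℝ) ≤ (N : ℝ) ^ (83 / 500 : ℝ)) = IP N := by
    unfold IP
    ext p
    simp only [Finset.mem_filter, Finset.mem_Icc]
    constructor
    · rintro ⟨⟨h1, _⟩, h3, h4, h5⟩
      refine ⟨⟨h1, ?_⟩, h3, h4, h5⟩
      have : (N : ℝ) ^ (83 / 500 : ℝ) ≤ N := by
        calc (N : ℝ) ^ (83 / 500 : ℝ) ≤ (N : ℝ) ^ (1 : ℝ) :=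
              Real.rpow_le_rpow_of_exponent_le hNr (by norm_num)
          _ = N := Real.rpow_one _
      exact_mod_cast h5.trans this
    · rintro ⟨⟨h1, h2⟩, h3, h4, h5⟩
      refine ⟨⟨h1, ?_⟩, h3, h4, h5⟩
      nlinarith
  rw [e] at h
  have h1 := (abs_le.1 h).1
  have h2 : ∑ p ∈ IP N, 1 / (p : ℝ) ≤ ∑ p ∈ IP N, 1 / ((p : ℝ) - 1) := by
    refine Finset.sum_le_sum fun p hp => ?_
    have : (2 : ℝ) ≤ p := by
      unfold IP at hp
      exact_mod_cast (Finset.mem_filter.1 hp).2.1.two_le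
    exact one_div_le_one_div_of_le (by linarith) (by linarith)
  have h3 := T1_log2
  linarith

/-! ### assembly -/

/-- rearranging the sums -/
theorem T1_rearr (P : Fin M → ℕ) (hP : ∀ j, (P j).Prime) (h : Fin k → ℕ)
    (hd : ∀ j i l, i ≠ l → ¬ ((P j : ℤ) ∣ (h i : ℤ) - h l)) (N W ν : ℕ) (a b : Fin k)
    (c : Vec M k → ℝ) (J0 : Finset (Fin M)) (IPs : Finset ℕ) (hIP : ∀ p ∈ IPs, p.Prime)
    (hlt : ∀ p ∈ IPs, ∀ j ∈ J0, P j < p) (l' : ℝ) (R : ℕ → Prop) (Φ : ℕ → ℝ)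
    (hl' : ∀ n ∈ win N W ν, lp (n + h a) ≤ l') (hl0 : 0 ≤ l')
    (hpt : ∀ n ∈ win N W ν, Wn P h c n - ∑ j ∈ J0, (if P j ∣ n + h b then Wn P h c n else 0) ≤
      if R (n + h b) then Φ n ^ 2 else 0) :
    ∑ p ∈ IPs, ∑ n ∈ (win N W ν).filter (fun n => p ∣ n + h b), lp (n + h a) * Wn P h c n -
      ∑ t ∈ IPs ×ˢ J0, ∑ n ∈ (win N W ν).filter (fun n => t.1 * P t.2 ∣ n + h b),
        lp (n + h a) * Wn P h (red b t.2 c) n ≤
    l' * ∑ p ∈ IPs, ∑ n ∈ (win N W ν).filter (fun n => (n + h a).Prime ∧ p ∣ n + h b ∧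
          R (n + h b)), Φ n ^ 2 := by
  have hlp0 : ∀ n, 0 ≤ lp n := by
    intro n
    unfold BG.lp
    split_ifs
    · exact Real.log_natCast_nonneg n
    · exact le_rfl
  rw [Finset.sum_product, ← Finset.sum_sub_distrib, Finset.mul_sum]
  refine Finset.sum_le_sum fun p hp => ?_
  have e1 : ∀ j ∈ J0, ∑ n ∈ (win N W ν).filter (fun n => p * P j ∣ n + h b),
      lp (n + h a) * Wn P h (red b j c) n =
      ∑ n ∈ (win N W ν).filter (fun n => p ∣ n + h b),
        lp (n + h a) * (if P j ∣ n + h b then Wn P h c n else 0) := by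
    intro j hj
    have hne : p ≠ P j := (hlt p hp j hj).ne'
    have hcop : Nat.Coprime p (P j) := (Nat.coprime_primes (hIP p hp) (hP j)).2 hne
    rw [Finset.sum_filter, Finset.sum_filter]
    refine Finset.sum_congr rfl fun n _ => ?_
    by_cases h1 : p ∣ n + h b
    · by_cases h2 : P j ∣ n + h b
      · rw [if_pos (hcop.mul_dvd_of_dvd_of_dvd h1 h2), if_pos h1, if_pos h2]
        congr 1
        unfold Wn
        have := Phi_red P hP h hd b j c n h2
        unfold Phi at this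
        rw [this]
      · rw [if_neg (fun h3 => h2 (dvd_trans (Dvd.intro_left p rfl) h3)), if_pos h1, if_neg h2,
          mul_zero]
    · rw [if_neg (fun h3 => h1 (dvd_trans (Dvd.intro _ rfl) h3)), if_neg h1]
  rw [Finset.sum_congr rfl e1, Finset.sum_comm, ← Finset.sum_sub_distrib]
  rw [Finset.mul_sum, Finset.sum_filter, Finset.sum_filter]
  refine Finset.sum_le_sum fun n hn => ?_
  by_cases h1 : p ∣ n + h b
  · rw [if_pos h1]
    have h2 := hpt n hn
    have h3 : lp (n + h a) * Wn P h c n - ∑ j ∈ J0, lp (n + h a) *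
        (if P j ∣ n + h b then Wn P h c n else 0) =
        lp (n + h a) * (Wn P h c n - ∑ j ∈ J0, (if P j ∣ n + h b then Wn P h c n else 0)) := by
      rw [mul_sub, Finset.mul_sum]
    rw [h3]
    have h4 := mul_le_mul_of_nonneg_left h2 (hlp0 (n + h a))
    refine h4.trans ?_
    by_cases hnp : (n + h a).Prime
    · by_cases hR : R (n + h b)
      · rw [if_pos hR, if_pos ⟨hnp, h1, hR⟩]
        exact mul_le_mul_of_nonneg_right (hl' n hn) (sq_nonneg _)
      · rw [if_neg hR, if_neg (fun h5 => hR h5.2.2), mul_zero]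
    · have : lp (n + h a) = 0 := by unfold BG.lp; rw [if_neg hnp]
      rw [this, zero_mul]
      split_ifs
      · exact mul_nonneg hl0 (sq_nonneg _)
      · exact le_rfl
  · rw [if_neg h1, if_neg (fun h5 => h1 h5.2.1)]

theorem rough_lower (ζ : ℝ) (hζ : 0 < ζ) (hζ1 : ζ ≤ 1 / 10 ^ 6) (J k : ℕ)
    (hk : 10 * 2 ^ J ≤ ζ * k) : ∃ w₀ : ℕ, ∀ (h : Fin k → ℕ) (W ν : ℕ), Setup k w₀ h W ν →
      ∀ᶠ N : ℕ in atTop, Good4 ζ k N → ∀ (M : ℕ) (P : Fin M → ℕ), Enum P W N →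
        ∀ a b : Fin k, a ≠ b →
        (122 / 10 ^ 4) * Yc P ζ J k W N ≤
        ∑ p ∈ IP N, ∑ n ∈ (win N W ν).filter (fun n => (n + h a).Prime ∧ p ∣ n + h b ∧
          Rough N (n + h b)), Ph0 P h ζ J N a b n ^ 2 := by
  have hζ3 : ζ ≤ 1 / 1000 := by linarith
  obtain ⟨ρ, hρ⟩ : ∃ ρ : ℝ, ρ = 249 / 2000 - 2 * ζ := ⟨_, rfl⟩
  have hρ12 : 12 / 100 ≤ ρ := by rw [hρ]; linarith
  have hρ13 : ρ ≤ 13 / 100 := by rw [hρ]; linarith
  have hρpos : 0 < ρ := by linarith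
  obtain ⟨w1, hw1k, hnum⟩ := num4 ζ hζ hζ3 J k hk
  obtain ⟨w2, hlow⟩ := sel_lower ζ hζ hζ3 J k hk
  obtain ⟨w3, hred⟩ := sel_red ζ hζ hζ3 J k hk
  obtain ⟨w4, hGz⟩ := Gz_lower ζ ρ hζ hρ12 hρ13
  obtain ⟨C, hC⟩ := mertens_one
  refine ⟨max w1 (max w2 (max w3 w4)), fun h W ν hs => ?_⟩
  have hs1 : Setup k w1 h W ν := FL_setup hs (by simp)
  have hs2 : Setup k w2 h W ν := FL_setup hs (by simp)
  have hs3 : Setup k w3 h W ν := FL_setup hs (by simp)
  have hs4 : Setup k w4 h W ν := FL_setup hs (by simp)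
  have hs5 : Setup k 2 h W ν := FL_setup hs1 (by omega)
  have hWpos : 0 < W := Nat.pos_of_ne_zero hs.2.1.ne_zero
  have hWr : (0:ℝ) < W := by exact_mod_cast hWpos
  have hφr : (0:ℝ) < W.totient := by exact_mod_cast Nat.totient_pos.2 hWpos
  obtain ⟨f, hf⟩ : ∃ f : ℝ, f = (W.totient : ℝ) / W := ⟨_, rfl⟩
  have hfpos : 0 < f := by rw [hf]; positivity
  have hkpos : 1 ≤ k := by
    by_contra hcon
    have hk0 : k = 0 := by omega
    rw [hk0] at hk
    have : (0 : ℝ) < 10 * 2 ^ J := by positivity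
    simp at hk
    linarith
  have hall : ∀ᶠ N : ℕ in atTop, ∀ m : Fin k,
      (999 / 1000 * (N : ℝ) ≤ th (2 * N + h m) - th (N + h m) ∧
      Real.log ((2 * N + h m : ℕ) : ℝ) ≤ (1 + 1 / 1000) * Real.log N) := by
    rw [Filter.eventually_all]
    intro m
    filter_upwards [FL_th (h m), FL_log_two (h m)] with N h4 h5
    exact ⟨h4.1, h5⟩
  filter_upwards [hnum h W ν hs1, hlow h W ν hs2, hred h W ν hs3, hGz W hWpos hs4.2.2.1,
    prime_mod_total ζ hζ hζ3 k h W ν hs5, hall, recip_window (1 / 10) (1 / 10 ^ 6) (by norm_num)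
      (by norm_num),
    FL_log_large 1, FL_log_large (W.totient ^ 2 / (1 / 10 ^ 6 * W)), FL_log_large ((C + 2) / ζ),
    FL_log_pow 0 W ζ hζ, FL_log_pow 0 (2 / (f * ζ)) (1 / 100) (by norm_num),
    FL_log_pow 0 W (33 / 200) (by norm_num),
    eventually_ge_atTop 2] with N h1 h2 h3 h4 h5 h6 h7 hℓ1 hℓ2 hℓ3 hWN hηN hWN2 hN hgood
      M P hE a b hab
  obtain ⟨hP, hinj, hPW, hd, hPN, hPw⟩ := FL_enum hs1 hE
  obtain ⟨-, -, -, -, -, -, -, hgh, hG1, hG2, hexp, -⟩ := h1 M P hE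
  obtain ⟨hth0, hlog2⟩ := h6 a
  have hNr : (0:ℝ) < N := by exact_mod_cast (show 0 < N by omega)
  have hN1r : (1:ℝ) ≤ N := by exact_mod_cast (show 1 ≤ N by omega)
  obtain ⟨ℓ, hℓ⟩ : ∃ ℓ : ℝ, ℓ = Real.log N := ⟨_, rfl⟩
  rw [← hℓ] at hℓ1 hℓ2 hℓ3 hlog2
  have hℓpos : 0 < ℓ := by linarith
  obtain ⟨z, hz⟩ : ∃ z : ℝ, z = (N : ℝ) ^ (17 / 200 : ℝ) := ⟨_, rfl⟩
  obtain ⟨R, hR⟩ : ∃ R : ℝ, R = (N : ℝ) ^ ρ := ⟨_, rfl⟩
  obtain ⟨Z, hZ⟩ : ∃ Z : ℝ, Z = (N : ℝ) ^ ζ := ⟨_, rfl⟩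
  have hz1 : 1 ≤ z := by rw [hz]; exact Real.one_le_rpow hN1r (by norm_num)
  have hR1 : 1 ≤ R := by rw [hR]; exact Real.one_le_rpow hN1r hρpos.le
  have hZ1 : 1 ≤ Z := by rw [hZ]; exact Real.one_le_rpow hN1r hζ.le
  have hzlog : Real.log z = 17 / 200 * ℓ := by rw [hz, hℓ]; exact Real.log_rpow hNr _
  have hRlog : Real.log R = ρ * ℓ := by rw [hR, hℓ]; exact Real.log_rpow hNr _
  have hZlog : Real.log Z = ζ * ℓ := by rw [hZ, hℓ]; exact Real.log_rpow hNr _
  have hα0 : ∀ j, 0 ≤ al P j := by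
    intro j
    have h6 : (2:ℝ) ≤ P j := by exact_mod_cast (hP j).two_le
    unfold al
    apply div_nonneg (by norm_num) (by linarith)
  -- `Sg32` is small
  have hkr : (1 : ℝ) ≤ k := by exact_mod_cast hkpos
  have hSg0 : 0 ≤ Sg32 P := Finset.sum_nonneg fun j _ => mul_nonneg (hα0 j) (Real.sqrt_nonneg _)
  have hSg : Sg32 P ≤ ζ := by
    have e1 := Real.add_one_le_exp (1000 * (k : ℝ) ^ 2 * Sg32 P)
    have e2 : (1 : ℝ) ≤ (k : ℝ) ^ 2 := one_le_pow₀ hkr
    have e3 : 1 * Sg32 P ≤ (1000 * (k : ℝ) ^ 2) * Sg32 P :=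
      mul_le_mul_of_nonneg_right (by linarith) hSg0
    linarith
  -- the total mass
  obtain ⟨V, hV⟩ : ∃ V : ℝ, V = Gsum P (fz z R) := ⟨_, rfl⟩
  have hGSG : GS P ({b} : Finset (Fin k)) (al P) (fz z R) = V := by
    rw [hV]; exact GS_eq_Gsum P b (fz z R)
  have hfz0 : ∀ d, 0 ≤ fz z R d ∧ fz z R d ≤ 1 := by
    intro d
    unfold fz
    split_ifs <;> norm_num
  have hV1 : 1 ≤ V := by
    rw [hV]
    unfold Gsum
    have e1 : fz z R (pr P ∅) * ∏ j ∈ (∅ : Finset (Fin M)), al P j = 1 := by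
      unfold fz pr
      rw [if_pos]
      · simp
      · simp only [Finset.prod_empty, Nat.cast_one]
        refine ⟨hR1, fun p hp hpd => ?_⟩
        exact absurd (Nat.dvd_one.1 hpd) hp.one_lt.ne'
    rw [← e1]
    refine Finset.single_le_sum (f := fun U : Finset (Fin M) => fz z R (pr P U) *
      ∏ j ∈ U, al P j) (fun U _ => ?_) (Finset.mem_univ _)
    exact mul_nonneg (hfz0 _).1 (Finset.prod_nonneg fun j _ => hα0 j)
  obtain ⟨g1, g2⟩ := h4 M P hE
  rw [← hz, ← hR, ← hV, ← hf, ← hℓ] at g1 g2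
  have hVlow : 1094 / 10 ^ 4 * (f * ℓ) ≤ V := by
    refine le_trans ?_ g1
    exact mul_le_mul_of_nonneg_right (T1_x0 hζ hζ1 hρ) (by positivity)
  have hVup : V ≤ 1246 / 10 ^ 4 * (f * ℓ) := by
    refine le_trans g2 ?_
    exact mul_le_mul_of_nonneg_right (by rw [hρ]; linarith) (by positivity)
  -- the coefficients
  obtain ⟨c0, hc0⟩ : ∃ c0 : Vec M k → ℝ, c0 = restr {a, b} (c4 P ζ J N) := ⟨_, rfl⟩
  obtain ⟨lm, hlm⟩ : ∃ lm : Vec M k → ℝ, lm = sel P {b} (al P) (fz z R) := ⟨_, rfl⟩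
  obtain ⟨c, hc⟩ : ∃ c : Vec M k → ℝ, c = ext {b} ∅ c0 lm := ⟨_, rfl⟩
  have hphi : ∀ n, (Ph0 P h ζ J N a b n * Lam P h {b} lm n) ^ 2 = Wn P h c n := by
    intro n
    have e1 := Phi_ext P hP h hd {b} c0 lm (by
      intro x hx
      have e2 : Avoid {a, b} x := by
        by_contra hcon
        apply hx
        rw [hc0]
        unfold restr
        rw [if_neg hcon]
      intro j i hi
      rw [Finset.mem_singleton] at hi
      exact e2 j i (by simp [hi])) n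
    unfold Ph0
    rw [← hc0, ← e1, ← hc]
    rfl
  -- size of the coefficients
  have hsize := size_ext (k := k) P hP hinj (al P) hα0 (fun j => le_rfl) (gg4 ζ J k N) hgh.1
    hgh.2.1 Z R hZ1 hR1 a b {b} (by simp) ∅ (omf P {b} (fun d => fz z R d / V)) (by
      intro y
      unfold omf
      split_ifs
      · exact div_nonneg (hfz0 _).1 (by linarith)
      · exact le_rfl) (by
      intro y
      unfold omf
      split_ifs
      · rw [div_le_one (by linarith)]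
        exact (hfz0 _).2.trans hV1
      · norm_num) (by
      intro y hy
      unfold omf at hy
      by_cases hv : Vals ({b} : Finset (Fin k)) y
      · refine ⟨hv, ?_⟩
        rw [if_pos hv] at hy
        by_contra hcon
        apply hy
        unfold fz
        simp only
        rw [if_neg (fun h => hcon h.1), zero_div]
      · rw [if_neg hv] at hy
        exact absurd rfl hy)
  have hceq : ext {b} ∅ (restr {a, b} (cv P (gg4 ζ J k N) Z))
      (lam (al P) (omf P {b} (fun d => fz z R d / V))) = c := by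
    rw [hc, hc0, hlm]
    unfold sel c4
    rw [hGSG, hZ]
  rw [hceq] at hsize
  obtain ⟨hsz1, hsz2⟩ := hsize
  have hZ5 : Z * R = (N : ℝ) ^ (249 / 2000 - ζ) := by
    rw [hZ, hR, ← Real.rpow_add hNr, hρ]
    congr 1
    ring
  have hbnd : ∀ x, |c x| ≤ (1 + ℓ) ^ (2 * k + 4) * (2 : ℝ) ^ sc x := by
    intro x
    refine (hsz1 x).trans ?_
    have e3 : 1 + Real.log Z ≤ 1 + ℓ := by
      rw [hZlog]
      nlinarith
    have e4 : 1 + Real.log R ≤ 1 + ℓ := by
      rw [hRlog]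
      nlinarith
    have e5 : 0 ≤ Real.log Z := Real.log_nonneg hZ1
    have e6 : 0 ≤ Real.log R := Real.log_nonneg hR1
    calc (1 + Real.log Z) ^ (2 * k) * (1 + Real.log R) ^ 4 * (2 : ℝ) ^ sc x
        ≤ (1 + ℓ) ^ (2 * k) * (1 + ℓ) ^ 4 * (2 : ℝ) ^ sc x := by gcongr
      _ = (1 + ℓ) ^ (2 * k + 4) * (2 : ℝ) ^ sc x := by rw [pow_add]
  have hcav : ∀ x, c x ≠ 0 → Avoid {a} x := by
    intro x hx
    obtain ⟨-, e2, -⟩ := hsz2 x hx
    intro j i hi
    rw [Finset.mem_singleton] at hi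
    subst hi
    exact e2 i (by simp) (by simp [hab]) j
  have hcdv : ∀ x, c x ≠ 0 → (dv P x : ℝ) ≤ Z * R := fun x hx => (hsz2 x hx).1
  -- the primes in `IP N`
  have hIP : ∀ p ∈ IP N, p.Prime ∧ (N : ℝ) ^ (33 / 200 : ℝ) < p ∧
      (p : ℝ) ≤ (N : ℝ) ^ (83 / 500 : ℝ) := fun p hp => by
    unfold IP at hp
    exact (Finset.mem_filter.1 hp).2
  have hZR : Z * R ≤ (N : ℝ) ^ (33 / 200 : ℝ) := by
    rw [hZ5]
    exact Real.rpow_le_rpow_of_exponent_le hN1r (by linarith)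
  have hz165 : z ≤ (N : ℝ) ^ (33 / 200 : ℝ) := by
    rw [hz]
    exact Real.rpow_le_rpow_of_exponent_le hN1r (by norm_num)
  have hpW : ∀ p ∈ IP N, Nat.Coprime p W := by
    intro p hp
    obtain ⟨q1, q2, q3⟩ := hIP p hp
    rw [q1.coprime_iff_not_dvd]
    intro hdvd
    have e1 := Nat.le_of_dvd hWpos hdvd
    have e2 : (p : ℝ) ≤ W := by exact_mod_cast e1
    rw [pow_zero, mul_one] at hWN2
    linarith
  have hdvpos : ∀ x : Vec M k, 0 < dv P x := by
    intro x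
    unfold dv
    refine Finset.prod_pos fun j _ => ?_
    split_ifs
    · exact one_pos
    · exact (hP j).pos
  have hpdv : ∀ p ∈ IP N, ∀ x : Vec M k, (dv P x : ℝ) ≤ Z * R → Nat.Coprime (dv P x) p := by
    intro p hp x hx
    obtain ⟨q1, q2, q3⟩ := hIP p hp
    rw [Nat.coprime_comm, q1.coprime_iff_not_dvd]
    intro hdvd
    have e1 := Nat.le_of_dvd (hdvpos x) hdvd
    have e2 : (p : ℝ) ≤ dv P x := by exact_mod_cast e1
    linarith
  obtain ⟨J0, hJ0⟩ : ∃ J0 : Finset (Fin M), J0 = univ.filter (fun j => (P j : ℝ) < z) := ⟨_, rfl⟩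
  have hJ0m : ∀ j ∈ J0, (P j : ℝ) < z := fun j hj => by
    rw [hJ0] at hj; exact (Finset.mem_filter.1 hj).2
  have hlt : ∀ p ∈ IP N, ∀ j ∈ J0, P j < p := by
    intro p hp j hj
    obtain ⟨q1, q2, q3⟩ := hIP p hp
    have e1 := hJ0m j hj
    exact_mod_cast (e1.trans_le hz165).trans q2
  -- level
  have hlev : (W : ℝ) * (N : ℝ) ^ (251 / 1000 : ℝ) * (Z * R) ^ 2 ≤ (N : ℝ) ^ (1 / 2 - ζ) := by
    have e1 : (N : ℝ) ^ (251 / 1000 : ℝ) * (Z * R) ^ 2 = (N : ℝ) ^ (1 / 2 - 2 * ζ) := by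
      rw [hZ5, ← Real.rpow_natCast, ← Real.rpow_mul hNr.le, ← Real.rpow_add hNr]
      congr 1
      push_cast
      ring
    have e2 : (N : ℝ) ^ ζ * (N : ℝ) ^ (1 / 2 - 2 * ζ) = (N : ℝ) ^ (1 / 2 - ζ) := by
      rw [← Real.rpow_add hNr]
      congr 1
      ring
    rw [pow_zero, mul_one] at hWN
    rw [mul_assoc, e1, ← e2]
    exact mul_le_mul_of_nonneg_right hWN (by positivity)
  have h1ℓ : (3 : ℝ) ≤ (1 + ℓ) ^ 2 := by nlinarith
  -- first application of the prime sums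
  have hc1 := h5 hgood M P hE a b hab ℕ (IP N) (fun p => p) (fun _ _ _ _ e => e)
    ((N : ℝ) ^ (251 / 1000 : ℝ)) (Z * R) (fun _ => c) (by nlinarith) hlev
    (by
      intro p hp
      obtain ⟨q1, q2, q3⟩ := hIP p hp
      refine ⟨q1.squarefree, hpW p hp, q3.trans ?_⟩
      exact Real.rpow_le_rpow_of_exponent_le hN1r (by norm_num))
    (by
      intro p _ x
      refine (hbnd x).trans ?_
      rw [hℓ]
      gcongr
      · rw [← hℓ]; linarith
      · omega)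
    (by
      intro p hp x hx
      exact ⟨hcav x hx, hcdv x hx, hpdv p hp x (hcdv x hx)⟩)
  -- second application
  have hred0 : ∀ j, (∀ x, |red b j c x| ≤ 3 * (1 + ℓ) ^ (2 * k + 4) * (2 : ℝ) ^ sc x) ∧
      ∀ x, red b j c x ≠ 0 → (dv P x : ℝ) ≤ Z * R ∧ Nat.Coprime (dv P x) (P j) := fun j =>
    size_red P hP hinj b j c ((1 + ℓ) ^ (2 * k + 4)) (Z * R) (by positivity) hbnd hcdv
  have hredav : ∀ j x, red b j c x ≠ 0 → Avoid {a} x := by
    intro j x hx
    unfold red at hx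
    by_cases hxj : x j = none
    · rw [if_pos hxj] at hx
      by_cases hcx : c x = 0
      · rw [hcx, zero_add] at hx
        have e1 := hcav _ hx
        intro l i hi hli
        rw [Finset.mem_singleton] at hi
        subst hi
        by_cases hlj : l = j
        · subst hlj
          rw [hxj] at hli
          exact absurd hli (by simp)
        · refine e1 l i (Finset.mem_singleton_self i) ?_
          rw [Function.update_of_ne hlj]
          exact hli
      · exact hcav x hcx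
    · rw [if_neg hxj] at hx
      exact absurd rfl hx
  have hc2 := h5 hgood M P hE a b hab (ℕ × Fin M) (IP N ×ˢ J0) (fun t => t.1 * P t.2) (by
      rintro ⟨p, i⟩ hp ⟨q, j⟩ hq e
      rw [Finset.mem_coe, Finset.mem_product] at hp hq
      simp only at hp hq e
      have hpp := (hIP p hp.1).1
      have hqp := (hIP q hq.1).1
      have e1 : p ∣ q * P j := by rw [← e]; exact Dvd.intro _ rfl
      have e2 : p = q := by
        rcases (hpp.dvd_mul).1 e1 with e3 | e3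
        · exact (Nat.prime_dvd_prime_iff_eq hpp hqp).1 e3
        · have e4 := (Nat.prime_dvd_prime_iff_eq hpp (hP j)).1 e3
          have e5 := hlt p hp.1 j hq.2
          omega
      subst e2
      have e6 : P i = P j := Nat.eq_of_mul_eq_mul_left hpp.pos e
      rw [hinj e6])
    ((N : ℝ) ^ (251 / 1000 : ℝ)) (Z * R) (fun t => red b t.2 c) (by nlinarith) hlev
    (by
      rintro ⟨p, j⟩ hp
      rw [Finset.mem_product] at hp
      simp only at hp
      obtain ⟨q1, q2, q3⟩ := hIP p hp.1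
      have hne : p ≠ P j := (hlt p hp.1 j hp.2).ne'
      have hcop : Nat.Coprime p (P j) := (Nat.coprime_primes q1 (hP j)).2 hne
      refine ⟨(Nat.squarefree_mul hcop).2 ⟨q1.squarefree, (hP j).squarefree⟩,
        Nat.Coprime.mul_left (hpW p hp.1) (hPW j), ?_⟩
      push_cast
      have e1 := (hJ0m j hp.2).le
      rw [hz] at e1
      have e2 : (N : ℝ) ^ (251 / 1000 : ℝ) =
          (N : ℝ) ^ (83 / 500 : ℝ) * (N : ℝ) ^ (17 / 200 : ℝ) := by
        rw [← Real.rpow_add hNr]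
        congr 1
        norm_num
      rw [e2]
      exact mul_le_mul q3 e1 (Nat.cast_nonneg _) (by positivity))
    (by
      rintro ⟨p, j⟩ _ x
      refine ((hred0 j).1 x).trans ?_
      have e1 : (1 + ℓ) ^ (2 * k + 6) = (1 + ℓ) ^ 2 * (1 + ℓ) ^ (2 * k + 4) := by
        rw [← pow_add]; congr 1; omega
      rw [← hℓ, e1]
      gcongr)
    (by
      rintro ⟨p, j⟩ hp x hx
      rw [Finset.mem_product] at hp
      simp only at hp hx
      obtain ⟨e1, e2⟩ := (hred0 j).2 x hx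
      exact ⟨hredav j x hx, e1, Nat.Coprime.mul_right (hpdv p hp.1 x e1) e2⟩)
  obtain ⟨t, ht⟩ : ∃ t : ℝ, t = th (2 * N + h a) - th (N + h a) := ⟨_, rfl⟩
  rw [← ht] at hth0
  have ht0 : 0 ≤ t := le_trans (by positivity) hth0
  rw [← ht] at hc1 hc2
  obtain ⟨Q1, hQ1⟩ : ∃ Q1 : ℝ, Q1 = ∑ x, ∑ y, c x * c y * ∏ j, Kl (al P j) (x j) (y j) :=
    ⟨_, rfl⟩
  obtain ⟨Qj, hQj⟩ : ∃ Qj : Fin M → ℝ, Qj = fun j => ∑ x, ∑ y, red b j c x * red b j c y *
    ∏ i, Kl (al P i) (x i) (y i) := ⟨_, rfl⟩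
  obtain ⟨S1, hS1⟩ : ∃ S1 : ℝ, S1 = ∑ p ∈ IP N, 1 / ((p : ℝ) - 1) := ⟨_, rfl⟩
  have hp2 : ∀ p ∈ IP N, (2 : ℝ) ≤ p := fun p hp => by exact_mod_cast (hIP p hp).1.two_le
  have hU : t / W.totient * S1 * Q1 - N / ℓ ^ 10 ≤
      ∑ p ∈ IP N, ∑ n ∈ (win N W ν).filter (fun n => p ∣ n + h b), lp (n + h a) * Wn P h c n := by
    rw [← hQ1, ← hℓ] at hc1
    have e1 : ∀ p ∈ IP N, t / (W * p).totient * Q1 -
        |∑ n ∈ (win N W ν).filter (fun n => p ∣ n + h b), lp (n + h a) * Wn P h c n -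
          t / (W * p).totient * Q1| ≤
        ∑ n ∈ (win N W ν).filter (fun n => p ∣ n + h b), lp (n + h a) * Wn P h c n := by
      intro p _
      have := neg_abs_le (∑ n ∈ (win N W ν).filter (fun n => p ∣ n + h b),
        lp (n + h a) * Wn P h c n - t / (W * p).totient * Q1)
      linarith
    have e2 := Finset.sum_le_sum e1
    rw [Finset.sum_sub_distrib] at e2
    have e3 : ∑ p ∈ IP N, t / (W * p).totient * Q1 = t / W.totient * S1 * Q1 := by
      rw [hS1, Finset.mul_sum, Finset.sum_mul]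
      refine Finset.sum_congr rfl fun p hp => ?_
      have hpp := (hIP p hp).1
      rw [Nat.totient_mul (hpW p hp).symm, Nat.totient_prime hpp, Nat.cast_mul,
        Nat.cast_sub hpp.one_le, Nat.cast_one]
      have := hp2 p hp
      have e4 : (p : ℝ) - 1 ≠ 0 := by linarith
      field_simp
    rw [e3] at e2
    linarith
  have hVv : ∑ t ∈ IP N ×ˢ J0, ∑ n ∈ (win N W ν).filter (fun n => t.1 * P t.2 ∣ n + h b),
        lp (n + h a) * Wn P h (red b t.2 c) n ≤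
      t / W.totient * S1 * (∑ j ∈ J0, al P j * Qj j) + N / ℓ ^ 10 := by
    rw [← hℓ] at hc2
    have e1 : ∀ s ∈ IP N ×ˢ J0, ∑ n ∈ (win N W ν).filter (fun n => s.1 * P s.2 ∣ n + h b),
        lp (n + h a) * Wn P h (red b s.2 c) n ≤
        t / (W * (s.1 * P s.2)).totient * Qj s.2 +
        |∑ n ∈ (win N W ν).filter (fun n => s.1 * P s.2 ∣ n + h b),
          lp (n + h a) * Wn P h (red b s.2 c) n -
          t / (W * (s.1 * P s.2)).totient * Qj s.2| := by
      intro s _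
      have := le_abs_self (∑ n ∈ (win N W ν).filter (fun n => s.1 * P s.2 ∣ n + h b),
          lp (n + h a) * Wn P h (red b s.2 c) n -
          t / (W * (s.1 * P s.2)).totient * Qj s.2)
      linarith
    have e2 := Finset.sum_le_sum e1
    rw [Finset.sum_add_distrib] at e2
    have e3 : ∑ s ∈ IP N ×ˢ J0, t / (W * (s.1 * P s.2)).totient * Qj s.2 =
        t / W.totient * S1 * (∑ j ∈ J0, al P j * Qj j) := by
      have e8 : ∀ B : ℝ, t / W.totient * (∑ p ∈ IP N, 1 / ((p : ℝ) - 1)) * B =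
          ∑ p ∈ IP N, t / W.totient * (1 / ((p : ℝ) - 1)) * B := by
        intro B
        rw [Finset.mul_sum, Finset.sum_mul]
      rw [Finset.sum_product, hS1, e8]
      refine Finset.sum_congr rfl fun p hp => ?_
      rw [Finset.mul_sum]
      refine Finset.sum_congr rfl fun j hj => ?_
      have hpp := (hIP p hp).1
      have hne : p ≠ P j := (hlt p hp j hj).ne'
      have hcop : Nat.Coprime p (P j) := (Nat.coprime_primes hpp (hP j)).2 hne
      have hcW : Nat.Coprime W (p * P j) := Nat.Coprime.mul_right (hpW p hp).symm (hPW j).symm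
      rw [Nat.totient_mul hcW, Nat.totient_mul hcop, Nat.totient_prime hpp,
        Nat.totient_prime (hP j), Nat.cast_mul, Nat.cast_mul,
        Nat.cast_sub hpp.one_le, Nat.cast_sub (hP j).one_le, Nat.cast_one]
      have := hp2 p hp
      have e5 : (2 : ℝ) ≤ P j := by exact_mod_cast (hP j).two_le
      have e4 : (p : ℝ) - 1 ≠ 0 := by linarith
      have e6 : (P j : ℝ) - 1 ≠ 0 := by linarith
      unfold al
      field_simp
    rw [e3] at e2
    have e7 : ∑ s ∈ IP N ×ˢ J0, |∑ n ∈ (win N W ν).filter (fun n => s.1 * P s.2 ∣ n + h b),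
          lp (n + h a) * Wn P h (red b s.2 c) n -
          t / (W * (s.1 * P s.2)).totient * Qj s.2| ≤ N / ℓ ^ 10 := by
      rw [hQj]
      exact hc2
    linarith
  -- the pointwise inequality
  have hwin : ∀ n ∈ win N W ν, N < n ∧ n ≤ 2 * N ∧ n ≡ ν [MOD W] := by
    intro n hn
    unfold win at hn
    rw [Finset.mem_filter, Finset.mem_Ioc] at hn
    exact ⟨hn.1.1, hn.1.2, hn.2⟩
  have hrearr := T1_rearr P hP h hd N W ν a b c J0 (IP N) (fun p hp => (hIP p hp).1) hlt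
    (Real.log ((2 * N + h a : ℕ) : ℝ)) (Rough N) (fun n => Ph0 P h ζ J N a b n) (by
      intro n hn
      obtain ⟨w1, w2, w3⟩ := hwin n hn
      unfold BG.lp
      split_ifs
      · apply Real.log_le_log
        · exact_mod_cast (show 0 < n + h a by omega)
        · exact_mod_cast (show n + h a ≤ 2 * N + h a by omega)
      · exact Real.log_natCast_nonneg _) (Real.log_natCast_nonneg _) (by
      intro n hn
      obtain ⟨w1, w2, w3⟩ := hwin n hn
      have hcop : Nat.Coprime (n + h b) W := by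
        have e1 : n + h b ≡ ν + h b [MOD W] := Nat.ModEq.add_right _ w3
        have e2 := hs.2.2.2.2 b
        unfold Nat.Coprime at e2 ⊢
        rw [e1.gcd_eq]
        exact e2
      have := T1_point P hP h b N W hE.2 R (by omega) n (by
        rw [← hz, hGSG]; linarith) hcop (Ph0 P h ζ J N a b n)
      rw [← hz, ← hlm, hphi, ← hJ0] at this
      exact this)
  -- the main terms
  have hQ1low : (1 - ζ) * (1 / V) * GG4 P ζ J k N ≤ Q1 := by
    have := h2 M P hE a b hab z R hR1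
    rw [← hc0, ← hlm, ← hc, ← hQ1, ← hV] at this
    exact this
  have hGG : 1 ≤ GG4 P ζ J k N := by
    unfold GG4 G14 G24
    exact one_le_mul_of_one_le_of_one_le (one_le_pow₀ hG1) (one_le_pow₀ hG2)
  obtain ⟨η, hη⟩ : ∃ η : ℝ, η = (N : ℝ) ^ (-(1 / 100) : ℝ) := ⟨_, rfl⟩
  have hη0 : 0 ≤ η := by rw [hη]; positivity
  have hηle : η ≤ f * ζ / 2 := by
    rw [pow_zero, mul_one] at hηN
    rw [hη, Real.rpow_neg hNr.le]
    rw [div_le_iff₀ (by positivity)] at hηN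
    rw [inv_le_iff_one_le_mul₀ (by positivity)]
    nlinarith
  have hsmall := T1_small P hP z f ℓ ζ (C + 2) η (by
      have e1 := T1_L1 P hP hinj C hC z hz1
      rw [hzlog] at e1
      linarith) hfpos hℓ1 hζ (by linarith) (by
      rw [div_le_iff₀ hζ] at hℓ3
      linarith) hSg hη0 hηle
  rw [← hJ0] at hsmall
  have hQ2up : ∑ j ∈ J0, al P j * Qj j ≤
      (1 + ζ) * (f * ℓ * (17 / 200 + 3 * ζ)) * (1 / V ^ 2) * GG4 P ζ J k N := by
    have e1 : ∀ j ∈ J0, al P j * Qj j ≤ ((1 + ζ) * (1 / V ^ 2) * GG4 P ζ J k N) *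
        (al P j * (f * Real.log (P j) + f * ℓ * al P j ^ 2 + η)) := by
      intro j hj
      have e2 := h3 M P hE a b hab ρ hρ12 hρ13 j (by rw [← hz]; exact hJ0m j hj)
      simp only at e2
      rw [← hz, ← hR, ← hc0, ← hlm, ← hc, ← hV, ← hf, ← hη, ← hℓ] at e2
      have e3 : Qj j ≤ (1 + ζ) * (f * Real.log (P j) + f * ℓ * al P j ^ 2 + η) *
          (1 / V ^ 2) * GG4 P ζ J k N := by
        rw [hQj]; exact e2
      have e4 := mul_le_mul_of_nonneg_left e3 (hα0 j)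
      refine e4.trans (le_of_eq ?_)
      ring
    refine (Finset.sum_le_sum e1).trans ?_
    rw [← Finset.mul_sum]
    have e5 : 0 ≤ (1 + ζ) * (1 / V ^ 2) * GG4 P ζ J k N := by positivity
    calc _ ≤ ((1 + ζ) * (1 / V ^ 2) * GG4 P ζ J k N) * (f * ℓ * (17 / 200 + 3 * ζ)) :=
          mul_le_mul_of_nonneg_left hsmall e5
      _ = _ := by ring
  have hS1low : 6040 / 10 ^ 6 ≤ S1 := by
    rw [hS1]
    exact T1_IP N (by omega) (1 / 10 ^ 6)
      (h7 (33 / 200) (83 / 500) (by norm_num) (by norm_num) (by norm_num)) le_rfl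
  have hYc : Yc P ζ J k W N = (N * W / (W.totient * ℓ) ^ 2) * GG4 P ζ J k N := by
    rw [hℓ]; rfl
  rw [hYc]
  refine T1_final (ζ := ζ) (f := f) (l' := Real.log ((2 * N + h a : ℕ) : ℝ)) (G := V) (S1 := S1)
    (t := t) (Q1 := Q1) (Q2 := ∑ j ∈ J0, al P j * Qj j) hζ hζ1 hNr hWr hφr hf hℓ1 hlog2 hGG hℓ2
    hS1low hth0 hVlow hVup hQ1low hQ2up (Finset.sum_nonneg fun p _ => Finset.sum_nonneg
      fun n _ => sq_nonneg _) ?_
  have e1 : t / W.totient * S1 * (Q1 - ∑ j ∈ J0, al P j * Qj j) =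
      t / W.totient * S1 * Q1 - t / W.totient * S1 * (∑ j ∈ J0, al P j * Qj j) := by ring
  rw [e1]
  linarith

end Pool.Agent.BG4
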