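import Pool.Agent.Lib_helper23.BG4F.NUM4
import Pool.Agent.Lib_helper23.BGF.CNT
import Pool.Agent.Lib_helper23.BGF.ERRSIZE
/-! Block T4: the non-squarefree values -/

set_option autoImplicit false

namespace Pool.Agent.BG4

open Finset Filter Pool.Agent.BG
open scoped Classical

variable {M k : ℕ}

/-- lower bound for the unit -/
theorem T4_Yc (P : Fin M → ℕ) (ζ : ℝ) (J k W N : ℕ) (hW : 0 < W) (hN : 0 < Real.log N)
    (h1 : 1 ≤ G14 P ζ J k N) (h2 : 1 ≤ G24 P ζ J k N) :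
    N / (W * Real.log N ^ 2) ≤ Yc P ζ J k W N := by
  have hWr : (0:ℝ) < W := by exact_mod_cast hW
  have hφr : (0:ℝ) < W.totient := by exact_mod_cast Nat.totient_pos.2 hW
  have hφW : (W.totient : ℝ) ≤ W := by exact_mod_cast Nat.totient_le W
  have hG : 1 ≤ GG4 P ζ J k N := one_le_mul_of_one_le_of_one_le (one_le_pow₀ h1) (one_le_pow₀ h2)
  unfold Yc
  have e1 : (N / (W * Real.log N ^ 2) : ℝ) ≤ N * W / (W.totient * Real.log N) ^ 2 := by
    rw [div_le_div_iff₀ (by positivity) (by positivity)]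
    have e2 : (W.totient : ℝ) ^ 2 ≤ W ^ 2 := pow_le_pow_left₀ hφr.le hφW 2
    have e3 : (0:ℝ) ≤ N * Real.log N ^ 2 := by positivity
    calc (N:ℝ) * (W.totient * Real.log N) ^ 2 = N * Real.log N ^ 2 * W.totient ^ 2 := by ring
      _ ≤ N * Real.log N ^ 2 * W ^ 2 := mul_le_mul_of_nonneg_left e2 e3
      _ = _ := by ring
  exact e1.trans (le_mul_of_one_le_right (by positivity) hG)

/-- upper bound for the weights -/
theorem T4_abs (P : Fin M → ℕ) (hP : ∀ j, (P j).Prime) (hinj : Function.Injective P)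
    (h : Fin k → ℕ) (ζ : ℝ) (hζ : 0 < ζ) (hζ1 : ζ ≤ 1 / 1000) (J N : ℕ) (hN : 2 ≤ N)
    (hl : 2 ≤ Real.log N) (a b : Fin k) (n : ℕ) :
    Ph0 P h ζ J N a b n ^ 2 ≤ Real.log N ^ (8 * k) * (N : ℝ) ^ (2 * ζ) := by
  have hNr : (0:ℝ) < N := by exact_mod_cast (show 0 < N by omega)
  have hN1r : (1:ℝ) ≤ N := by exact_mod_cast (show 1 ≤ N by omega)
  set Z := (N : ℝ) ^ ζ with hZ
  have hZ1 : 1 ≤ Z := Real.one_le_rpow hN1r hζ.le
  have hZlog : Real.log Z = ζ * Real.log N := Real.log_rpow hNr _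
  have hZlog0 : 0 ≤ Real.log Z := Real.log_nonneg hZ1
  have hgh : GHyp (gg4 ζ J k N) := by
    apply gst_hyp
    have : 0 ≤ Real.log N := Real.log_nonneg hN1r
    positivity
  obtain ⟨hc1, hc2⟩ := cv_size (k := k) P hP hinj (gg4 ζ J k N) hgh.1 hgh.2.1 Z hZ1
  have habs := abs_sum P hP hinj 2 ((1 + Real.log Z) ^ (2 * k)) Z (by positivity) hZ1
    (cv P (gg4 ζ J k N) Z) (fun x => by exact_mod_cast hc1 x) hc2
  have h1 : |Ph0 P h ζ J N a b n| ≤ ∑ x, |cv (k := k) P (gg4 ζ J k N) Z x| := by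
    unfold Ph0 Phi
    refine (Finset.abs_sum_le_sum_abs _ _).trans (Finset.sum_le_sum fun x _ => ?_)
    unfold restr c4
    split_ifs
    · exact le_rfl
    · rw [abs_zero]; exact abs_nonneg _
    · rw [abs_zero]; exact abs_nonneg _
  have h2 : 1 + Real.log Z ≤ Real.log N := by
    rw [hZlog]; nlinarith
  have h3 : |Ph0 P h ζ J N a b n| ≤ Real.log N ^ (4 * k) * Z := by
    refine h1.trans (habs.trans ?_)
    have e1 : (1 + Real.log Z) ^ (2 * k) * Z * (1 + Real.log Z) ^ (k * 2) =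
        (1 + Real.log Z) ^ (4 * k) * Z := by ring
    rw [e1]
    exact mul_le_mul_of_nonneg_right (pow_le_pow_left₀ (by linarith) h2 _) (by linarith)
  calc Ph0 P h ζ J N a b n ^ 2 = |Ph0 P h ζ J N a b n| ^ 2 := (sq_abs _).symm
    _ ≤ (Real.log N ^ (4 * k) * Z) ^ 2 := pow_le_pow_left₀ (abs_nonneg _) h3 2
    _ = Real.log N ^ (8 * k) * Z ^ 2 := by ring
    _ = _ := by
        rw [hZ, ← Real.rpow_natCast ((N : ℝ) ^ ζ), ← Real.rpow_mul hNr.le]
        congr 2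
        push_cast; ring

theorem T4_count (N hb r : ℕ) (hr : 0 < r) :
    (((Ioc N (2 * N)).filter (fun n => r ^ 2 ∣ n + hb)).card : ℝ) ≤ N * ((r : ℝ) ^ 2)⁻¹ + 1 := by
  obtain ⟨t, ht⟩ := CNT_res (r ^ 2) hb (by positivity)
  have h1 := CNT_card (r ^ 2) (by positivity) N t
  have h2 : (Ioc N (2 * N)).filter (fun n => r ^ 2 ∣ n + hb) =
      (Ioc N (2 * N)).filter (fun n => n ≡ t [MOD r ^ 2]) :=
    Finset.filter_congr fun n _ => ht n
  rw [h2]
  have h3 := (abs_le.1 h1).2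
  push_cast at h3
  rw [div_eq_mul_inv] at h3
  linarith

/-- the number of bad `n` -/
theorem T4_card (N W ν hb : ℕ) (hN : 1 ≤ N) (hbN : hb ≤ N) :
    (((win N W ν).filter (fun n => Rough N (n + hb) ∧ ¬ Squarefree (n + hb))).card : ℝ) ≤
      4 * (N : ℝ) ^ (183 / 200 : ℝ) := by
  have hNr : (0:ℝ) < N := by exact_mod_cast (show 0 < N by omega)
  have hN1r : (1:ℝ) ≤ N := by exact_mod_cast hN
  set D := ⌈(N : ℝ) ^ (17 / 200 : ℝ)⌉₊ with hD
  have hDpos : 0 < D := Nat.ceil_pos.2 (by positivity)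
  set S := Nat.sqrt (3 * N) with hS
  have hsub : (win N W ν).filter (fun n => Rough N (n + hb) ∧ ¬ Squarefree (n + hb)) ⊆
      (Ioo (D - 1) (S + 1)).biUnion
        (fun r => (Ioc N (2 * N)).filter (fun n => r ^ 2 ∣ n + hb)) := by
    intro n hn
    rw [Finset.mem_filter] at hn
    obtain ⟨hn1, hn2, hn3⟩ := hn
    have hn4 : n ∈ Ioc N (2 * N) := (Finset.mem_filter.1 hn1).1
    have hn5 := Finset.mem_Ioc.1 hn4
    rw [Nat.squarefree_iff_prime_squarefree] at hn3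
    push Not at hn3
    obtain ⟨r, hr, hrd⟩ := hn3
    rw [Finset.mem_biUnion]
    refine ⟨r, ?_, ?_⟩
    · rw [Finset.mem_Ioo]
      constructor
      · have h1 := hn2 r hr (dvd_trans (Dvd.intro _ rfl) hrd)
        have h2 : D ≤ r := Nat.ceil_le.2 h1
        omega
      · have h1 : r * r ≤ n + hb := Nat.le_of_dvd (by omega) hrd
        have h2 : r ≤ S := by
          rw [hS, Nat.le_sqrt]; omega
        omega
    · rw [Finset.mem_filter]
      exact ⟨hn4, by rw [sq]; exact hrd⟩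
  have h1 : (((win N W ν).filter (fun n => Rough N (n + hb) ∧ ¬ Squarefree (n + hb))).card : ℝ) ≤
      ∑ r ∈ Ioo (D - 1) (S + 1), ((N : ℝ) * ((r : ℝ) ^ 2)⁻¹ + 1) := by
    calc _ ≤ (((Ioo (D - 1) (S + 1)).biUnion
        (fun r => (Ioc N (2 * N)).filter (fun n => r ^ 2 ∣ n + hb))).card : ℝ) := by
          exact_mod_cast Finset.card_le_card hsub
      _ ≤ ((∑ r ∈ Ioo (D - 1) (S + 1),
          ((Ioc N (2 * N)).filter (fun n => r ^ 2 ∣ n + hb)).card : ℕ) : ℝ) := by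
          exact_mod_cast Finset.card_biUnion_le
      _ ≤ _ := by
          push_cast
          refine Finset.sum_le_sum fun r hr => T4_count N hb r ?_
          have := (Finset.mem_Ioo.1 hr).1
          omega
  refine h1.trans ?_
  rw [Finset.sum_add_distrib, ← Finset.mul_sum, Finset.sum_const, nsmul_eq_mul, mul_one]
  have h2 := sum_Ioo_inv_sq_le (α := ℝ) (D - 1) (S + 1)
  have h3 : ((D - 1 : ℕ) : ℝ) + 1 = D := by
    rw [Nat.cast_sub (by omega)]; push_cast; ring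
  rw [h3] at h2
  have h4 : (N : ℝ) ^ (17 / 200 : ℝ) ≤ D := Nat.le_ceil _
  have hpos : (0:ℝ) < (N : ℝ) ^ (17 / 200 : ℝ) := by positivity
  have h5 : (2 : ℝ) / D ≤ 2 / (N : ℝ) ^ (17 / 200 : ℝ) :=
    div_le_div_of_nonneg_left (by norm_num) hpos h4
  have h6 : (N : ℝ) * (2 / (N : ℝ) ^ (17 / 200 : ℝ)) = 2 * (N : ℝ) ^ (183 / 200 : ℝ) := by
    have : (N : ℝ) ^ (183 / 200 : ℝ) * (N : ℝ) ^ (17 / 200 : ℝ) = N := by
      rw [← Real.rpow_add hNr]; norm_num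
    field_simp
    linarith
  have h7 : ((Ioo (D - 1) (S + 1)).card : ℝ) ≤ S := by
    rw [Nat.card_Ioo]
    exact_mod_cast (show S + 1 - (D - 1) - 1 ≤ S by omega)
  have h8 : (S : ℝ) ≤ 2 * (N : ℝ) ^ (183 / 200 : ℝ) := by
    have e1 : (S : ℝ) ≤ 2 * Real.sqrt N := by
      have e2 : S * S ≤ 3 * N := Nat.sqrt_le (3 * N)
      have e3 : (S : ℝ) * S ≤ 3 * N := by exact_mod_cast e2
      apply Real.le_sqrt_of_sq_le _ |>.trans
      · rw [show (2:ℝ) * Real.sqrt N = Real.sqrt 4 * Real.sqrt N by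
          rw [show (4:ℝ) = 2 ^ 2 by norm_num, Real.sqrt_sq (by norm_num)], ← Real.sqrt_mul (by norm_num)]
      · nlinarith
    have e2 : Real.sqrt N ≤ (N : ℝ) ^ (183 / 200 : ℝ) := by
      rw [Real.sqrt_eq_rpow]
      exact Real.rpow_le_rpow_of_exponent_le hN1r (by norm_num)
    linarith
  have h9 : (N : ℝ) * ∑ r ∈ Ioo (D - 1) (S + 1), ((r : ℝ) ^ 2)⁻¹ ≤
      2 * (N : ℝ) ^ (183 / 200 : ℝ) := by
    rw [← h6]
    exact mul_le_mul_of_nonneg_left (h2.trans h5) hNr.le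
  linarith

theorem nonsq_small (ζ : ℝ) (hζ : 0 < ζ) (hζ1 : ζ ≤ 1 / 1000) (J k : ℕ)
    (hk : 10 * 2 ^ J ≤ ζ * k) : ∃ w₀ : ℕ, ∀ (h : Fin k → ℕ) (W ν : ℕ), Setup k w₀ h W ν →
      ∀ᶠ N : ℕ in atTop, ∀ (M : ℕ) (P : Fin M → ℕ), Enum P W N → ∀ a b : Fin k, a ≠ b →
        ∑ p ∈ IP N, ∑ n ∈ (win N W ν).filter (fun n => p ∣ n + h b ∧ Rough N (n + h b) ∧
          ¬ Squarefree (n + h b)), Ph0 P h ζ J N a b n ^ 2 ≤
          (1 / 10 ^ 5) * Yc P ζ J k W N := by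
  obtain ⟨w₀, hw₀k, hnum⟩ := num4 ζ hζ hζ1 J k hk
  refine ⟨w₀, fun h W ν hs => ?_⟩
  have hWpos : 0 < W := Nat.pos_of_ne_zero hs.2.1.ne_zero
  have hWr : (0:ℝ) < W := by exact_mod_cast hWpos
  have hall : ∀ᶠ N : ℕ in atTop, ∀ m : Fin k, h m ≤ N := by
    rw [Filter.eventually_all]
    intro m
    exact eventually_ge_atTop (h m)
  filter_upwards [hnum h W ν hs, IP_mult, hall, FL_log_large 2,
    FL_log_pow (8 * k + 2) (24 * 10 ^ 5 * W) (83 / 1000) (by norm_num), eventually_ge_atTop 2]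
    with N h1 h2 h3 h4 h5 hN M P hE a b hab
  obtain ⟨hP, hinj, hPW, hd, hPN, hPw⟩ := FL_enum hs hE
  obtain ⟨-, -, -, -, -, -, -, -, hG1, hG2, -, -⟩ := h1 M P hE
  have hNr : (0:ℝ) < N := by exact_mod_cast (show 0 < N by omega)
  have hN1r : (1:ℝ) ≤ N := by exact_mod_cast (show 1 ≤ N by omega)
  have hY := T4_Yc P ζ J k W N hWpos (by linarith) hG1 hG2
  set F : ℝ := Real.log N ^ (8 * k) * (N : ℝ) ^ (2 * ζ) with hF
  have hF0 : 0 ≤ F := by positivity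
  -- swap the sums
  set B := (win N W ν).filter (fun n => Rough N (n + h b) ∧ ¬ Squarefree (n + h b)) with hB
  have e1 : ∑ p ∈ IP N, ∑ n ∈ (win N W ν).filter (fun n => p ∣ n + h b ∧ Rough N (n + h b) ∧
          ¬ Squarefree (n + h b)), Ph0 P h ζ J N a b n ^ 2 =
      ∑ n ∈ B, ∑ p ∈ (IP N).filter (fun p => p ∣ n + h b), Ph0 P h ζ J N a b n ^ 2 := by
    simp_rw [Finset.sum_filter]
    rw [Finset.sum_comm]
    rw [hB, Finset.sum_filter]
    refine Finset.sum_congr rfl fun n _ => ?_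
    by_cases hn : Rough N (n + h b) ∧ ¬ Squarefree (n + h b)
    · rw [if_pos hn]
      refine Finset.sum_congr rfl fun p _ => ?_
      by_cases hp : p ∣ n + h b
      · rw [if_pos hp, if_pos ⟨hp, hn⟩]
      · rw [if_neg hp, if_neg (fun h => hp h.1)]
    · rw [if_neg hn]
      refine Finset.sum_eq_zero fun p _ => ?_
      rw [if_neg (fun h => hn h.2)]
  rw [e1]
  have e2 : ∑ n ∈ B, ∑ p ∈ (IP N).filter (fun p => p ∣ n + h b), Ph0 P h ζ J N a b n ^ 2 ≤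
      ∑ n ∈ B, 6 * F := by
    refine Finset.sum_le_sum fun n hn => ?_
    rw [Finset.sum_const, nsmul_eq_mul]
    have hn1 : n ∈ win N W ν := (Finset.mem_filter.1 hn).1
    have hn2 := Finset.mem_Ioc.1 (Finset.mem_filter.1 hn1).1
    have hbN := h3 b
    have e3 : (((IP N).filter (fun p => p ∣ n + h b)).card : ℝ) ≤ 6 := by
      exact_mod_cast h2 (n + h b) (by omega) (by omega)
    have e4 := T4_abs P hP hinj h ζ hζ hζ1 J N hN h4 a b n
    calc _ ≤ (6:ℝ) * Ph0 P h ζ J N a b n ^ 2 := mul_le_mul_of_nonneg_right e3 (sq_nonneg _)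
      _ ≤ 6 * F := by linarith
  refine e2.trans ?_
  rw [Finset.sum_const, nsmul_eq_mul]
  have e5 := T4_card N W ν (h b) (by omega) (h3 b)
  rw [← hB] at e5
  have e6 : (N : ℝ) ^ (2 * ζ) ≤ (N : ℝ) ^ (1 / 500 : ℝ) :=
    Real.rpow_le_rpow_of_exponent_le hN1r (by linarith)
  have hl0 : (0:ℝ) < Real.log N := by linarith
  have e7 : (B.card : ℝ) * (6 * F) ≤
      24 * Real.log N ^ (8 * k) * ((N : ℝ) ^ (183 / 200 : ℝ) * (N : ℝ) ^ (1 / 500 : ℝ)) := by
    calc (B.card : ℝ) * (6 * F) ≤ (4 * (N : ℝ) ^ (183 / 200 : ℝ)) * (6 * F) :=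
          mul_le_mul_of_nonneg_right e5 (by positivity)
      _ ≤ (4 * (N : ℝ) ^ (183 / 200 : ℝ)) *
          (6 * (Real.log N ^ (8 * k) * (N : ℝ) ^ (1 / 500 : ℝ))) := by
          apply mul_le_mul_of_nonneg_left _ (by positivity)
          apply mul_le_mul_of_nonneg_left _ (by norm_num)
          exact mul_le_mul_of_nonneg_left e6 (by positivity)
      _ = _ := by ring
  have e8 : (N : ℝ) ^ (183 / 200 : ℝ) * (N : ℝ) ^ (1 / 500 : ℝ) * (N : ℝ) ^ (83 / 1000 : ℝ) = N := by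
    rw [← Real.rpow_add hNr, ← Real.rpow_add hNr]; norm_num
  refine e7.trans (le_trans ?_ (mul_le_mul_of_nonneg_left hY (by norm_num)))
  set A := (N : ℝ) ^ (183 / 200 : ℝ) * (N : ℝ) ^ (1 / 500 : ℝ) with hA
  have hA0 : 0 ≤ A := by positivity
  rw [show (1 / 10 ^ 5 : ℝ) * (N / (W * Real.log N ^ 2)) =
    N / (10 ^ 5 * W * Real.log N ^ 2) by field_simp]
  rw [le_div_iff₀ (by positivity)]
  calc 24 * Real.log N ^ (8 * k) * A * (10 ^ 5 * W * Real.log N ^ 2) =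
      A * (24 * 10 ^ 5 * W * Real.log N ^ (8 * k + 2)) := by ring
    _ ≤ A * (N : ℝ) ^ (83 / 1000 : ℝ) := mul_le_mul_of_nonneg_left h5 hA0
    _ = N := e8

end Pool.Agent.BG4
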