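import Pool.Agent.Lib_helper23.BG4F.CNTI4
import Pool.Agent.Lib_helper23.BG4F.G2D
import Pool.Agent.Lib_helper23.BG4F.SIZE4
import Pool.Agent.Lib_helper23.BG4F.SUP
import Pool.Agent.Lib_helper23.BG4F.T4
import Pool.Agent.Lib_helper23.BGF.FLem2
/-! Block T3: the crude upper bound (switching) -/

set_option autoImplicit false

namespace Pool.Agent.BG4

open Finset Filter Pool.Agent.BG
open scoped Classical

variable {M k : ℕ}

theorem T3_const (ζ : ℝ) (hζ : 0 < ζ) (hζ1 : ζ ≤ 1 / 10 ^ 6) :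
    (1 + ζ) ≤ (2945 / 10) * ((1 / 2 - 1 / 10 ^ 4) * (33 / 400 - 2 * ζ) ^ 2) := by
  nlinarith

theorem T3_b (x l : ℝ) (hx : x ≤ 1 / 2) (hl : 2 ≤ l) : 1 + x * l ≤ l := by
  have h1 : x * l ≤ 1 / 2 * l := mul_le_mul_of_nonneg_right hx (by linarith)
  linarith

theorem T3_y (y : ℝ) (hy : 20 ≤ y) : 1 ≤ (1 / 2 - 1 / 10 ^ 4) * y ^ 2 := by
  have h1 : (20:ℝ) ^ 2 ≤ y ^ 2 := pow_le_pow_left₀ (by norm_num) hy 2
  linarith

theorem T3_cop (N q m : ℕ) (x y : ℝ) (hN : 1 < (N : ℝ)) (hxy : x < y)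
    (hm : 0 < m) (hm1 : (m : ℝ) ≤ (N : ℝ) ^ x)
    (hq : ∀ p : ℕ, p.Prime → p ∣ q → (N : ℝ) ^ y ≤ p) : Nat.Coprime m q := by
  apply Nat.Coprime.symm
  rw [Nat.coprime_comm]
  by_contra hcon
  obtain ⟨p, hp, hp1, hp2⟩ := Nat.Prime.not_coprime_iff_dvd.1 hcon
  have h1 := hq p hp hp2
  have h2 : (p : ℝ) ≤ m := by exact_mod_cast Nat.le_of_dvd hm hp1
  have h3 : (N : ℝ) ^ x < (N : ℝ) ^ y := Real.rpow_lt_rpow_of_exponent_lt hN hxy
  linarith

theorem T3_dv_pos (P : Fin M → ℕ) (hP : ∀ j, (P j).Prime) (x : Vec M k) : 0 < dv P x := by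
  unfold dv
  refine Finset.prod_pos fun j _ => ?_
  split_ifs
  · exact Nat.one_pos
  · exact (hP j).pos

theorem crude_upper (ζ : ℝ) (hζ : 0 < ζ) (hζ1 : ζ ≤ 1 / 10 ^ 6) (J k : ℕ)
    (hk : 10 * 2 ^ J ≤ ζ * k) : ∃ w₀ : ℕ, ∀ (h : Fin k → ℕ) (W ν : ℕ), Setup k w₀ h W ν →
      ∀ᶠ N : ℕ in atTop, ∀ (M : ℕ) (P : Fin M → ℕ), Enum P W N →
        ∀ a b : Fin k, a ≠ b → ∀ q ∈ Qset N,
        ∑ n ∈ (win N W ν).filter (fun n => (n + h a).Prime ∧ q ∣ n + h b ∧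
          (n + h b) / q ∈ IP N), Ph0 P h ζ J N a b n ^ 2 ≤ (295 / q) * Yc P ζ J k W N := by
  have hζ2 : ζ ≤ 1 / 1000 := hζ1.trans (by norm_num)
  obtain ⟨w1, hw1k, hnum⟩ := num4 ζ hζ hζ2 J k hk
  obtain ⟨w2, hsel⟩ := sel_upper ζ hζ hζ2 J k hk
  have hρ0 : (0:ℝ) < 33 / 400 - 2 * ζ := by linarith
  obtain ⟨w3, hG2D⟩ := G2D_lower (1 / 10 ^ 4) (33 / 400 - 2 * ζ) (by norm_num) hρ0 (by linarith)
  refine ⟨max w1 (max w2 w3), fun h W ν hs => ?_⟩
  have hs1 : Setup k w1 h W ν := FL_setup hs (by simp)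
  have hs2 : Setup k w2 h W ν := FL_setup hs (by simp)
  have hs3 : Setup k w3 h W ν := FL_setup hs (by simp)
  have hWpos : 0 < W := Nat.pos_of_ne_zero hs.2.1.ne_zero
  have hWr : (0:ℝ) < W := by exact_mod_cast hWpos
  have hφr : (0:ℝ) < W.totient := by exact_mod_cast Nat.totient_pos.2 hWpos
  have hall : ∀ᶠ N : ℕ in atTop, ∀ m : Fin k, h m ≤ N := by
    rw [Filter.eventually_all]
    intro m
    exact eventually_ge_atTop (h m)
  filter_upwards [hnum h W ν hs1, hsel h W ν hs2, hG2D W hWpos hs3.2.2.1, hall,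
    FL_log_large 2, FL_log_large (20 * W / (W.totient * (33 / 400 - 2 * ζ))),
    FL_log_pow (8 * k + 10) (6 * W) (2 * ζ) (by positivity),
    FL_log_pow 0 (W + 1) (17 / 200) (by norm_num), eventually_ge_atTop 2]
    with N h1 h2 h3 h4 h5 h6 h7 h8 hN M P hE a b hab q hq
  obtain ⟨hP, hinj, hPW, hd, hPN, hPw⟩ := FL_enum hs1 hE
  obtain ⟨-, -, -, -, -, -, -, hgh, hG1, hG2, -, -⟩ := h1 M P hE
  have hNr : (0:ℝ) < N := by exact_mod_cast (show 0 < N by omega)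
  have hN1r : (1:ℝ) ≤ N := by exact_mod_cast (show 1 ≤ N by omega)
  have hN2r : (1:ℝ) < N := by exact_mod_cast (show 1 < N by omega)
  set ℓ := Real.log N with hℓ
  have hℓpos : 0 < ℓ := by linarith
  set ρ : ℝ := 33 / 400 - 2 * ζ with hρ
  have hρ1 : ρ ≤ 33 / 400 := by linarith
  set Z := (N : ℝ) ^ ζ with hZ
  have hZ1 : 1 ≤ Z := Real.one_le_rpow hN1r hζ.le
  have hZlog : Real.log Z = ζ * ℓ := Real.log_rpow hNr _
  have hZlog0 : 0 ≤ Real.log Z := Real.log_nonneg hZ1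
  set R := (N : ℝ) ^ ρ with hR
  have hR1 : 1 ≤ R := Real.one_le_rpow hN1r hρ0.le
  have hRlog : Real.log R = ρ * ℓ := Real.log_rpow hNr _
  have hRlog0 : 0 ≤ Real.log R := Real.log_nonneg hR1
  -- the modulus
  have hq' := hq
  unfold Qset at hq'
  rw [Finset.mem_filter, Finset.mem_Icc] at hq'
  obtain ⟨⟨hq1, hqN⟩, hqs, hqr, hqlo, hqhi⟩ := hq'
  have hqpos : 0 < q := hq1
  have hqr0 : (0:ℝ) < q := by exact_mod_cast hqpos
  have hqW : Nat.Coprime q W := by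
    rw [Nat.coprime_comm]
    by_contra hcon
    obtain ⟨p, hp, hp1, hp2⟩ := Nat.Prime.not_coprime_iff_dvd.1 hcon
    have e1 := hqr p hp hp2
    have e2 : (p : ℝ) ≤ W := by exact_mod_cast Nat.le_of_dvd hWpos hp1
    rw [pow_zero, mul_one] at h8
    linarith
  -- local densities
  obtain ⟨γ, hγ⟩ : ∃ γ : Fin M → ℝ, γ = fun j => 1 / (P j : ℝ) := ⟨_, rfl⟩
  have hPr : ∀ j, (0:ℝ) < P j := fun j => by exact_mod_cast (hP j).pos
  have hγ0 : ∀ j, 0 ≤ γ j := by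
    intro j; rw [hγ]; have := hPr j; positivity
  have hγ1 : ∀ j, γ j ≤ al P j := by
    intro j
    rw [hγ]
    unfold al
    have : (2:ℝ) ≤ P j := by exact_mod_cast (hP j).two_le
    exact one_div_le_one_div_of_le (by linarith) (by linarith)
  have hkγ : ∀ j, (k : ℝ) * γ j ≤ 1 := by
    intro j
    have e1 : k ≤ P j := by have := hPw j; omega
    rw [hγ]
    show (k : ℝ) * (1 / (P j : ℝ)) ≤ 1
    rw [mul_one_div, div_le_one (hPr j)]
    exact_mod_cast e1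
  obtain ⟨G, hG⟩ : ∃ G : Finset (Fin k), G = {a, b} := ⟨_, rfl⟩
  -- the total mass
  have hGSlo := h3 M P hE k a b hab
  rw [← hG, ← hγ] at hGSlo
  obtain ⟨S, hS⟩ : ∃ S : ℝ, S = GS P G γ (f1 R) := ⟨_, rfl⟩
  rw [← hS] at hGSlo
  have hφℓ : 20 ≤ (W.totient / W : ℝ) * (ρ * ℓ) := by
    rw [div_le_iff₀ (by positivity)] at h6
    rw [div_mul_eq_mul_div, le_div_iff₀ hWr]
    linarith
  have hS1 : 1 ≤ S := by
    refine le_trans ?_ hGSlo
    exact T3_y _ hφℓ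
  have hSpos : 0 < S := by linarith
  -- the weights
  obtain ⟨ω, hω⟩ : ∃ ω : Vec M k → ℝ, ω = omf P G (fun d => f1 R d / S) := ⟨_, rfl⟩
  have hωval : ∀ y, ω y = if Vals G y then f1 R (dv P y) / S else 0 := by
    intro y; rw [hω]; rfl
  have hf1 : ∀ d, f1 R d = if (d : ℝ) ≤ R then 1 else 0 := fun d => rfl
  have hω0 : ∀ y, 0 ≤ ω y := by
    intro y
    rw [hωval, hf1]
    split_ifs <;> positivity
  have hω1 : ∀ y, ω y ≤ 1 := by
    intro y
    rw [hωval, hf1]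
    split_ifs
    · rw [div_le_one hSpos]; exact hS1
    · simp
    · norm_num
  have hωG : ∀ y, ω y ≠ 0 → Vals G y ∧ (dv P y : ℝ) ≤ R := by
    intro y hy
    rw [hωval, hf1] at hy
    by_cases e1 : Vals G y
    · by_cases e2 : (dv P y : ℝ) ≤ R
      · exact ⟨e1, e2⟩
      · rw [if_pos e1, if_neg e2] at hy
        simp at hy
    · rw [if_neg e1] at hy
      exact absurd rfl hy
  obtain ⟨lm, hlm⟩ : ∃ lm : Vec M k → ℝ, lm = sel P G γ (f1 R) := ⟨_, rfl⟩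
  have hlm2 : lm = lam γ ω := by
    rw [hlm, hω, hS]; rfl
  obtain ⟨c0, hc0⟩ : ∃ c0 : Vec M k → ℝ, c0 = restr {a, b} (c4 P ζ J N) := ⟨_, rfl⟩
  have hc0a : ∀ x, c0 x ≠ 0 → Avoid G x := by
    intro x hx
    rw [hc0] at hx
    unfold restr at hx
    by_contra hcon
    rw [hG] at hcon
    rw [if_neg hcon] at hx
    exact hx rfl
  obtain ⟨c, hc⟩ : ∃ c : Vec M k → ℝ, c = ext G ∅ c0 lm := ⟨_, rfl⟩
  obtain ⟨hc1, hc2⟩ := size_ext P hP hinj γ hγ0 hγ1 (gg4 ζ J k N) hgh.1 hgh.2.1 Z R hZ1 hR1 a b G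
    (by rw [hG]) ∅ ω hω0 hω1 hωG
  have hc' : ext G ∅ (restr {a, b} (cv P (gg4 ζ J k N) Z)) (lam γ ω) = c := by
    rw [hc, hlm2, hc0]; rfl
  rw [hc'] at hc1 hc2
  -- coprimality
  have hcop : ∀ x, c x ≠ 0 → Nat.Coprime (dv P x) q := by
    intro x hx
    refine T3_cop N q (dv P x) (ζ + ρ) (17 / 200) hN2r (by rw [hρ]; linarith) (T3_dv_pos P hP x)
      ?_ hqr
    rw [Real.rpow_add hNr]
    exact (hc2 x hx).1
  -- the values
  have hval : ∀ n ∈ win N W ν, (n + h a).Prime → q ∣ n + h b → (n + h b) / q ∈ IP N →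
      Ph0 P h ζ J N a b n ^ 2 = Wn P h c n := by
    intro n hn hna hqn hp
    have hnN : N < n := (Finset.mem_Ioc.1 (Finset.mem_filter.1 hn).1).1
    have e1 : Wn P h c n = Phi P h c n ^ 2 := rfl
    rw [e1, hc, Phi_ext P hP h hd G c0 lm hc0a n]
    have e2 : Lam P h G lm n = lm (fun _ => none) := by
      refine Lam_one P hP h G lm n R ?_ ?_
      · intro i hi j hj
        rw [hG, Finset.mem_insert, Finset.mem_singleton] at hi
        rcases hi with rfl | rfl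
        · exfalso
          have e3 := (Nat.prime_dvd_prime_iff_eq (hP j) hna).1 hj
          have := hPN j
          omega
        · unfold IP at hp
          rw [Finset.mem_filter] at hp
          obtain ⟨-, hp1, hp2, -⟩ := hp
          obtain ⟨m, hm⟩ := hqn
          rw [hm, Nat.mul_div_cancel_left m hqpos] at hp1 hp2
          rw [hm] at hj
          rcases (hP j).dvd_mul.1 hj with e3 | e3
          · have e4 := hqr (P j) (hP j) e3
            refine lt_of_lt_of_le ?_ e4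
            rw [hR]
            exact Real.rpow_lt_rpow_of_exponent_lt hN2r (by rw [hρ]; linarith)
          · rw [(Nat.prime_dvd_prime_iff_eq (hP j) hp1).1 e3]
            refine lt_trans ?_ hp2
            rw [hR]
            exact Real.rpow_lt_rpow_of_exponent_lt hN2r (by rw [hρ]; linarith)
      · intro y hy
        rw [hlm] at hy
        refine sel_supp P hP G γ (f1 R) R ?_ y hy
        intro d hd
        rw [hf1] at hd
        by_contra hcon
        rw [if_neg hcon] at hd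
        exact hd rfl
    have e3 : lm (fun _ => none) = 1 := by
      rw [hlm]
      exact sel_none P G γ (f1 R) (by rw [← hS]; exact hSpos.ne')
    rw [e2, e3, mul_one, hc0]
    rfl
  -- counting
  have hcount := count_int_mod P hP hinj W hWpos hPW h hd ν N q hqpos hqW b c hcop
  have hLHS : ∑ n ∈ (win N W ν).filter (fun n => (n + h a).Prime ∧ q ∣ n + h b ∧
          (n + h b) / q ∈ IP N), Ph0 P h ζ J N a b n ^ 2 ≤
      ∑ n ∈ (win N W ν).filter (fun n => q ∣ n + h b), Wn P h c n := by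
    calc _ = ∑ n ∈ (win N W ν).filter (fun n => (n + h a).Prime ∧ q ∣ n + h b ∧
          (n + h b) / q ∈ IP N), Wn P h c n := by
          refine Finset.sum_congr rfl fun n hn => ?_
          obtain ⟨g1, g2, g3, g4⟩ := Finset.mem_filter.1 hn
          exact hval n g1 g2 g3 g4
      _ ≤ _ := by
          apply Finset.sum_le_sum_of_subset_of_nonneg
          · intro n hn
            obtain ⟨g1, g2, g3, g4⟩ := Finset.mem_filter.1 hn
            exact Finset.mem_filter.2 ⟨g1, g3⟩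
          · intro n _ _
            exact FL_Wn_nonneg P h c n
  refine hLHS.trans ?_
  set Q := ∑ x, ∑ y, c x * c y * ∏ j, Kl (1 / (P j : ℝ)) (x j) (y j) with hQdef
  have hQ : Q ≤ (1 + ζ) * (1 / S) * GG4 P ζ J k N := by
    have e1 := tensor_upper γ hγ0 hkγ c
    have e2 := h2 M P hE a b hab G (by rw [hG]) γ (fun j => by rw [hγ]) hγ1 R hR1
    rw [← hS, ← hlm, ← hc0, ← hc] at e2
    have e3 : Q = ∑ x, ∑ y, c x * c y * ∏ j, Kl (γ j) (x j) (y j) := by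
      rw [hQdef, hγ]
    rw [e3]
    exact e1.trans e2
  have hGG : 1 ≤ GG4 P ζ J k N :=
    one_le_mul_of_one_le_of_one_le (one_le_pow₀ hG1) (one_le_pow₀ hG2)
  -- the main term
  have hmain : (N / (W * q) : ℝ) * Q ≤ (2945 / 10) / q * Yc P ζ J k W N := by
    have e1 : (1 + ζ) * (1 / S) ≤ (2945 / 10) * (1 / ((W.totient / W : ℝ) * ℓ) ^ 2) := by
      have e2 := T3_const ζ hζ hζ1
      rw [← hρ] at e2
      rw [mul_one_div, mul_one_div, div_le_div_iff₀ hSpos (by positivity)]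
      have e3 : (1 / 2 - 1 / 10 ^ 4 : ℝ) * ((W.totient / W : ℝ) * (ρ * ℓ)) ^ 2 =
        ((1 / 2 - 1 / 10 ^ 4) * ρ ^ 2) * ((W.totient / W : ℝ) * ℓ) ^ 2 := by ring
      rw [e3] at hGSlo
      have e4 : 0 ≤ ((W.totient / W : ℝ) * ℓ) ^ 2 := by positivity
      calc (1 + ζ) * ((W.totient / W : ℝ) * ℓ) ^ 2
          ≤ ((2945 / 10) * ((1 / 2 - 1 / 10 ^ 4) * ρ ^ 2)) * ((W.totient / W : ℝ) * ℓ) ^ 2 :=
            mul_le_mul_of_nonneg_right e2 e4
        _ = (2945 / 10) * (((1 / 2 - 1 / 10 ^ 4) * ρ ^ 2) * ((W.totient / W : ℝ) * ℓ) ^ 2) := by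
            ring
        _ ≤ _ := mul_le_mul_of_nonneg_left hGSlo (by norm_num)
    have e5 : Q ≤ (2945 / 10) * (1 / ((W.totient / W : ℝ) * ℓ) ^ 2) * GG4 P ζ J k N :=
      hQ.trans (mul_le_mul_of_nonneg_right e1 (by linarith))
    have e6 : (N / (W * q) : ℝ) * ((2945 / 10) * (1 / ((W.totient / W : ℝ) * ℓ) ^ 2) *
        GG4 P ζ J k N) = (2945 / 10) / q * Yc P ζ J k W N := by
      unfold Yc
      rw [← hℓ]
      field_simp
    rw [← e6]
    exact mul_le_mul_of_nonneg_left e5 (by positivity)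
  -- the error
  have hZR1 : 1 ≤ Z * R := one_le_mul_of_one_le_of_one_le hZ1 hR1
  have hZRlog : Real.log (Z * R) = (ζ + ρ) * ℓ := by
    rw [Real.log_mul (by positivity) (by positivity), hZlog, hRlog]; ring
  have habs := abs_sum P hP hinj 2 ((1 + Real.log Z) ^ (2 * k) * (1 + Real.log R) ^ 4) (Z * R)
    (by positivity) hZR1 c (fun x => by exact_mod_cast hc1 x) (fun x hx => (hc2 x hx).1)
  have b1 : 1 + Real.log Z ≤ ℓ := by rw [hZlog]; exact T3_b _ _ (by linarith) h5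
  have b2 : 1 + Real.log R ≤ ℓ := by rw [hRlog]; exact T3_b _ _ (by linarith) h5
  have b3 : 1 + Real.log (Z * R) ≤ ℓ := by rw [hZRlog]; exact T3_b _ _ (by linarith) h5
  have habs2 : ∑ x, |c x| ≤ ℓ ^ (4 * k + 4) * (Z * R) := by
    refine habs.trans ?_
    have g1 : (1 + Real.log Z) ^ (2 * k) ≤ ℓ ^ (2 * k) := pow_le_pow_left₀ (by linarith) b1 _
    have g2 : (1 + Real.log R) ^ 4 ≤ ℓ ^ 4 := pow_le_pow_left₀ (by linarith) b2 _
    have g3 : (1 + Real.log (Z * R)) ^ (k * 2) ≤ ℓ ^ (k * 2) :=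
      pow_le_pow_left₀ (by have := Real.log_nonneg hZR1; linarith) b3 _
    have g4 : 0 ≤ 1 + Real.log (Z * R) := by have := Real.log_nonneg hZR1; linarith
    calc (1 + Real.log Z) ^ (2 * k) * (1 + Real.log R) ^ 4 * (Z * R) *
          (1 + Real.log (Z * R)) ^ (k * 2)
        ≤ (ℓ ^ (2 * k) * ℓ ^ 4 * (Z * R)) * ℓ ^ (k * 2) := by
          apply mul_le_mul _ g3 (by positivity) (by positivity)
          apply mul_le_mul_of_nonneg_right _ (by positivity)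
          exact mul_le_mul g1 g2 (by positivity) (by positivity)
      _ = _ := by ring
  have herr : (∑ x, |c x|) ^ 2 ≤ (5 / 10) / q * Yc P ζ J k W N := by
    have g1 : (∑ x, |c x|) ^ 2 ≤ (ℓ ^ (4 * k + 4) * (Z * R)) ^ 2 :=
      pow_le_pow_left₀ (Finset.sum_nonneg fun _ _ => abs_nonneg _) habs2 2
    have g2 : (ℓ ^ (4 * k + 4) * (Z * R)) ^ 2 = ℓ ^ (8 * k + 8) * (N : ℝ) ^ (33 / 200 - 2 * ζ) := by
      rw [mul_pow, ← pow_mul, hZ, hR, ← Real.rpow_add hNr, ← Real.rpow_natCast ((N : ℝ) ^ (ζ + ρ)),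
        ← Real.rpow_mul hNr.le]
      congr 1
      · congr 1; ring
      · congr 1; rw [hρ]; push_cast; ring
    have hY := T4_Yc P ζ J k W N hWpos hℓpos hG1 hG2
    rw [← hℓ] at hY
    rw [g2] at g1
    refine g1.trans (le_trans ?_ (mul_le_mul_of_nonneg_left hY (by positivity)))
    have g3 : (5 / 10 : ℝ) / q * (N / (W * ℓ ^ 2)) = N / (2 * W * ℓ ^ 2 * q) := by
      field_simp; norm_num
    rw [g3, le_div_iff₀ (by positivity)]
    have g4 : (N : ℝ) ^ (33 / 200 - 2 * ζ) * (N : ℝ) ^ (2 * ζ) * (N : ℝ) ^ (167 / 200 : ℝ) = N := by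
      rw [← Real.rpow_add hNr, ← Real.rpow_add hNr]
      norm_num
    have g5 : (0:ℝ) ≤ (N : ℝ) ^ (33 / 200 - 2 * ζ) := by positivity
    have g6 : (0:ℝ) ≤ (N : ℝ) ^ (167 / 200 : ℝ) := by positivity
    calc ℓ ^ (8 * k + 8) * (N : ℝ) ^ (33 / 200 - 2 * ζ) * (2 * W * ℓ ^ 2 * q)
        ≤ ℓ ^ (8 * k + 8) * (N : ℝ) ^ (33 / 200 - 2 * ζ) *
          (2 * W * ℓ ^ 2 * (3 * (N : ℝ) ^ (167 / 200 : ℝ))) := by
          apply mul_le_mul_of_nonneg_left _ (by positivity)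
          exact mul_le_mul_of_nonneg_left hqhi (by positivity)
      _ = (N : ℝ) ^ (33 / 200 - 2 * ζ) * (6 * W * ℓ ^ (8 * k + 10)) *
          (N : ℝ) ^ (167 / 200 : ℝ) := by ring
      _ ≤ (N : ℝ) ^ (33 / 200 - 2 * ζ) * (N : ℝ) ^ (2 * ζ) * (N : ℝ) ^ (167 / 200 : ℝ) := by
          apply mul_le_mul_of_nonneg_right _ g6
          exact mul_le_mul_of_nonneg_left h7 g5
      _ = N := g4
  have hfin := (abs_le.1 hcount).2
  have e9 : (295 / q : ℝ) * Yc P ζ J k W N =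
      (2945 / 10) / q * Yc P ζ J k W N + (5 / 10) / q * Yc P ζ J k W N := by ring
  rw [e9]
  linarith

end Pool.Agent.BG4
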