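import Pool.Agent.Lib_helper23.BG4.Defs
import Pool.Agent.Lib_helper23.BG4F.REC
import Pool.Agent.Lib_helper23.BGF.Common
/-! Block T5 (helper30) -/

set_option autoImplicit false

namespace Pool.Agent.BG4

open Finset Filter Pool.Agent.BG
open scoped Classical

/-- upper bounds for the sums over the boxes, in units of `10^-6` -/
def t5A (j : ℕ) : ℕ :=
  [71124, 76570, 82919, 90415, 99403, 110374, 124067, 141640, 165011, 197621].getD j 0

/-- upper bounds for the sums over the last prime, in units of `10^-7` -/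
def t5B (j : ℕ) : ℕ :=
  [119298, 99614, 85506, 74899, 66633, 60011, 54586, 50061, 46228, 42941].getD j 0

/-- the admissible triples of boxes -/
def t5J : Finset (ℕ × ℕ × ℕ) :=
  ((range 10) ×ˢ (range 10) ×ˢ (range 10)).filter (fun J => J.1 + J.2.1 + J.2.2 ≤ 9)

theorem t5_num : ∑ J ∈ t5J, t5A J.1 * t5A J.2.1 * t5A J.2.2 * t5B (J.1 + J.2.1 + J.2.2) ≤
    7440000000000000000000 := by
  decide +kernel

theorem t5_lt (N : ℕ) (hN : 0 < N) (y p : ℝ) (hp : 0 < p) :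
    (N : ℝ) ^ y < p ↔ y * Real.log N < Real.log p := by
  rw [Real.rpow_def_of_pos (by exact_mod_cast hN), mul_comm, Real.lt_log_iff_exp_lt hp]

theorem t5_le (N : ℕ) (hN : 0 < N) (y p : ℝ) (hp : 0 < p) :
    p ≤ (N : ℝ) ^ y ↔ Real.log p ≤ y * Real.log N := by
  rw [← not_lt, t5_lt N hN y p hp, not_lt]

/-- the boxes -/
noncomputable def t5box (N j : ℕ) : Finset ℕ :=
  (Icc 1 (N ^ 2)).filter (fun p : ℕ => p.Prime ∧ (N : ℝ) ^ (1 / 4 - (j + 1) * (83 / 5000) : ℝ) < p ∧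
    (p : ℝ) ≤ (N : ℝ) ^ (1 / 4 - j * (83 / 5000) : ℝ))

/-- the range of the last prime -/
noncomputable def t5W (N : ℕ) (s : ℝ) : Finset ℕ :=
  (Icc 1 (N ^ 2)).filter (fun p : ℕ => p.Prime ∧ (N : ℝ) ^ (834 / 1000 - s - 1 / 10 ^ 6 : ℝ) < p ∧
    (p : ℝ) ≤ (N : ℝ) ^ (835 / 1000 - s + 1 / 10 ^ 6 : ℝ))

/-- the normalized logarithm of the product -/
noncomputable def t5s (N : ℕ) (p : ℕ × ℕ × ℕ) : ℝ :=
  Real.log p.1 / Real.log N + Real.log p.2.1 / Real.log N + Real.log p.2.2 / Real.log N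

theorem t5_prod (q : ℕ) (hq : Squarefree q) (e : Fin 4 ≃ {x // x ∈ q.primeFactors}) :
    ((e 0 : ℕ) * e 1 * e 2) * e 3 = q := by
  have h1 := Nat.prod_primeFactors_of_squarefree hq
  have h2 : ∏ i : Fin 4, ((e i : ℕ)) = ∏ x : {x // x ∈ q.primeFactors}, (x : ℕ) :=
    Equiv.prod_comp e (fun x => (x : ℕ))
  rw [Finset.prod_coe_sort q.primeFactors (fun x => x), h1, Fin.prod_univ_four] at h2
  exact h2

theorem t5_hA (N : ℕ) (hrec : ∀ y y' : ℝ, 2 / 25 ≤ y → y ≤ y' → y' ≤ 2 →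
    |∑ p ∈ (Icc 1 (N ^ 2)).filter (fun p : ℕ => p.Prime ∧ (N : ℝ) ^ y < p ∧
        (p : ℝ) ≤ (N : ℝ) ^ y'), (1 / (p : ℝ)) - Real.log (y' / y)| ≤ 1 / 10 ^ 6)
    (j : ℕ) (hj : j ≤ 9) : ∑ p ∈ t5box N j, (1 / (p : ℝ)) ≤ t5A j / 10 ^ 6 := by
  have hj' : (j : ℝ) ≤ 9 := by exact_mod_cast hj
  have hj0 : (0 : ℝ) ≤ j := Nat.cast_nonneg j
  have h1 := hrec (1 / 4 - (j + 1) * (83 / 5000)) (1 / 4 - j * (83 / 5000)) (by linarith)
    (by linarith) (by linarith)
  have h2 := (abs_le.mp h1).2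
  have hy : (0 : ℝ) < 1 / 4 - (j + 1) * (83 / 5000) := by linarith
  have hy' : (0 : ℝ) < 1 / 4 - j * (83 / 5000) := by linarith
  have h3 := Real.log_le_sub_one_of_pos (div_pos hy' hy)
  have h4 : (1 / 4 - j * (83 / 5000) : ℝ) / (1 / 4 - (j + 1) * (83 / 5000)) - 1 + 1 / 10 ^ 6 ≤
      t5A j / 10 ^ 6 := by
    interval_cases j <;> norm_num [t5A]
  unfold t5box
  linarith

theorem t5_hB (N : ℕ) (hrec : ∀ y y' : ℝ, 2 / 25 ≤ y → y ≤ y' → y' ≤ 2 →
    |∑ p ∈ (Icc 1 (N ^ 2)).filter (fun p : ℕ => p.Prime ∧ (N : ℝ) ^ y < p ∧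
        (p : ℝ) ≤ (N : ℝ) ^ y'), (1 / (p : ℝ)) - Real.log (y' / y)| ≤ 1 / 10 ^ 6)
    (m : ℕ) (hm : m ≤ 9) (s : ℝ) (hs0 : 0 ≤ s) (hs : s ≤ 3 / 4 - m * (83 / 5000)) :
    ∑ p ∈ t5W N s, (1 / (p : ℝ)) ≤ t5B m / 10 ^ 7 := by
  have hm' : (m : ℝ) ≤ 9 := by exact_mod_cast hm
  have hm0 : (0 : ℝ) ≤ m := Nat.cast_nonneg m
  have h1 := hrec (834 / 1000 - s - 1 / 10 ^ 6) (835 / 1000 - s + 1 / 10 ^ 6) (by linarith)
    (by linarith) (by linarith)
  have h2 := (abs_le.mp h1).2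
  have hy : (0 : ℝ) < 834 / 1000 - s - 1 / 10 ^ 6 := by linarith
  have hy' : (0 : ℝ) < 835 / 1000 - s + 1 / 10 ^ 6 := by linarith
  have hz : (0 : ℝ) < 84 / 1000 + m * (83 / 5000) - 1 / 10 ^ 6 := by linarith
  have h3 := Real.log_le_sub_one_of_pos (div_pos hy' hy)
  have h5 : (835 / 1000 - s + 1 / 10 ^ 6 : ℝ) / (834 / 1000 - s - 1 / 10 ^ 6) - 1 ≤
      (1 / 1000 + 2 / 10 ^ 6) / (84 / 1000 + m * (83 / 5000) - 1 / 10 ^ 6) := by
    have e1 : (835 / 1000 - s + 1 / 10 ^ 6 : ℝ) / (834 / 1000 - s - 1 / 10 ^ 6) - 1 =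
        (1 / 1000 + 2 / 10 ^ 6) / (834 / 1000 - s - 1 / 10 ^ 6) := by
      rw [div_sub_one hy.ne']
      congr 1
      ring
    rw [e1]
    exact div_le_div_of_nonneg_left (by norm_num) hz (by linarith)
  have h4 : (1 / 1000 + 2 / 10 ^ 6 : ℝ) / (84 / 1000 + m * (83 / 5000) - 1 / 10 ^ 6) + 1 / 10 ^ 6 ≤
      t5B m / 10 ^ 7 := by
    interval_cases m <;> norm_num [t5B]
  unfold t5W
  linarith

theorem t5_sum3 (A B C : Finset ℕ) (f g h : ℕ → ℝ) :
    ∑ p ∈ A ×ˢ B ×ˢ C, f p.1 * (g p.2.1 * h p.2.2) =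
      (∑ p ∈ A, f p) * ((∑ p ∈ B, g p) * ∑ p ∈ C, h p) := by
  rw [Finset.sum_product, Finset.sum_mul]
  refine Finset.sum_congr rfl (fun a _ => ?_)
  rw [Finset.sum_product, Finset.sum_mul_sum, Finset.mul_sum]
  refine Finset.sum_congr rfl (fun b _ => ?_)
  rw [Finset.mul_sum]

theorem T5_small : ∀ᶠ N : ℕ in atTop, ∑ q ∈ T5set N, (1 / (q : ℝ)) ≤ 31 / 10 ^ 6 := by
  have hlim : ∀ᶠ N : ℕ in atTop, (10 : ℝ) ^ 6 * Real.log 3 ≤ Real.log N := by
    have := Real.tendsto_log_atTop.comp (tendsto_natCast_atTop_atTop (R := ℝ))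
    exact this.eventually_ge_atTop _
  filter_upwards [recip_window (2 / 25) (1 / 10 ^ 6) (by norm_num) (by norm_num),
    eventually_ge_atTop 3, hlim] with N hrec hN3 hlog
  have hN0 : 0 < N := by omega
  have hN1 : (1 : ℝ) < N := by exact_mod_cast (by omega : 1 < N)
  set l : ℝ := Real.log N with hl
  have hl0 : 0 < l := Real.log_pos hN1
  set bx : ℕ → ℕ := fun p => ⌊(1 / 4 - Real.log p / l) / (83 / 5000)⌋₊ with hbx
  -- the facts on the elements of `T5set`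
  have hq : ∀ q ∈ T5set N, Squarefree q ∧ q.primeFactors.card = 4 ∧
      (834 / 1000 : ℝ) * l ≤ Real.log q ∧ Real.log q ≤ Real.log 3 + 835 / 1000 * l ∧
      ∀ p ∈ q.primeFactors, Real.log p < 1 / 4 * l := by
    intro q hq
    unfold T5set Qset at hq
    simp only [Finset.mem_filter, Finset.mem_Icc] at hq
    obtain ⟨⟨⟨hq1, hq2⟩, hsq, hro, hlo, hup⟩, hcard, hlt⟩ := hq
    have hq0 : (0 : ℝ) < q := by exact_mod_cast hq1
    refine ⟨hsq, hcard, ?_, ?_, ?_⟩
    · have h1 : Real.log ((N : ℝ) ^ (417 / 500 : ℝ)) ≤ Real.log q :=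
        Real.log_le_log (by positivity) hlo
      rw [Real.log_rpow (by linarith)] at h1
      linarith
    · have h1 : Real.log q ≤ Real.log (3 * (N : ℝ) ^ (167 / 200 : ℝ)) :=
        Real.log_le_log hq0 hup
      rw [Real.log_mul (by norm_num) (by positivity), Real.log_rpow (by linarith)] at h1
      linarith
    · intro p hp
      have h1 := hlt p hp
      have hp0 : (0 : ℝ) < p := by exact_mod_cast (Nat.prime_of_mem_primeFactors hp).pos
      have h2 := Real.log_lt_log hp0 h1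
      rw [Real.log_rpow (by linarith)] at h2
      exact h2
  set tgt : Finset (Σ _ : ℕ × ℕ × ℕ, Σ _ : ℕ × ℕ × ℕ, ℕ) := t5J.sigma (fun J =>
    (t5box N J.1 ×ˢ t5box N J.2.1 ×ˢ t5box N J.2.2).sigma (fun p => t5W N (t5s N p))) with htgt
  have hmain : ∑ x ∈ (T5set N).sigma (fun q => (univ : Finset (Fin 4 ≃ {x // x ∈ q.primeFactors}))),
      (1 / (x.1 : ℝ)) ≤ ∑ z ∈ tgt, (1 / (z.2.1.1 : ℝ) * (1 / (z.2.1.2.1 : ℝ)) *
        (1 / (z.2.1.2.2 : ℝ))) * (1 / (z.2.2 : ℝ)) := by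
    refine ES_inj _ _ (fun x => ⟨(bx (x.2 0), bx (x.2 1), bx (x.2 2)),
      ⟨((x.2 0 : ℕ), (x.2 1 : ℕ), (x.2 2 : ℕ)), (x.2 3 : ℕ)⟩⟩) ?_ ?_ _ _ ?_ ?_
    · rintro ⟨q, e⟩ hx
      have hqT : q ∈ T5set N := (Finset.mem_sigma.mp hx).1
      obtain ⟨hsq, hcard, hlo, hup, hlt⟩ := hq q hqT
      have hpr : ∀ i, (e i : ℕ).Prime := fun i => Nat.prime_of_mem_primeFactors (e i).2
      have hp0 : ∀ i, (0 : ℝ) < (e i : ℕ) := fun i => by exact_mod_cast (hpr i).pos
      have hp1 : ∀ i, 0 ≤ Real.log (e i : ℕ) := fun i =>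
        Real.log_nonneg (by exact_mod_cast (hpr i).one_lt.le)
      have hp2 : ∀ i, Real.log (e i : ℕ) < 1 / 4 * l := fun i => hlt _ (e i).2
      have hprod := t5_prod q hsq e
      have hls : Real.log q = Real.log (e 0 : ℕ) + Real.log (e 1 : ℕ) + Real.log (e 2 : ℕ) +
          Real.log (e 3 : ℕ) := by
        have h1 : (q : ℝ) = (((e 0 : ℕ) : ℝ) * (e 1 : ℕ) * (e 2 : ℕ)) * (e 3 : ℕ) := by
          exact_mod_cast hprod.symm
        rw [h1, Real.log_mul (by have := hp0 0; have := hp0 1; have := hp0 2; positivity)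
          (hp0 3).ne', Real.log_mul (by have := hp0 0; have := hp0 1; positivity) (hp0 2).ne',
          Real.log_mul (hp0 0).ne' (hp0 1).ne']
      have hv : ∀ i, Real.log (e i : ℕ) / l < 1 / 4 := by
        intro i
        rw [div_lt_iff₀ hl0]
        exact hp2 i
      have hv0 : ∀ i, 0 ≤ Real.log (e i : ℕ) / l := fun i => div_nonneg (hp1 i) hl0.le
      have hsum : 834 / 1000 ≤ Real.log (e 0 : ℕ) / l + Real.log (e 1 : ℕ) / l +
          Real.log (e 2 : ℕ) / l + Real.log (e 3 : ℕ) / l := by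
        rw [← add_div, ← add_div, ← add_div, ← hls, le_div_iff₀ hl0]
        exact hlo
      have hsum' : Real.log (e 0 : ℕ) / l + Real.log (e 1 : ℕ) / l +
          Real.log (e 2 : ℕ) / l + Real.log (e 3 : ℕ) / l ≤ 835 / 1000 + 1 / 10 ^ 6 := by
        rw [← add_div, ← add_div, ← add_div, ← hls, div_le_iff₀ hl0]
        have : Real.log 3 ≤ 1 / 10 ^ 6 * l := by
          have h10 : (0 : ℝ) < 10 ^ 6 := by norm_num
          rw [one_div, inv_mul_eq_div, le_div_iff₀ h10]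
          linarith
        linarith
      have hfl : ∀ i, (bx (e i) : ℝ) ≤ (1 / 4 - Real.log (e i : ℕ) / l) / (83 / 5000) ∧
          (1 / 4 - Real.log (e i : ℕ) / l) / (83 / 5000) < bx (e i) + 1 := by
        intro i
        have h0 : 0 ≤ (1 / 4 - Real.log (e i : ℕ) / l) / (83 / 5000) := by
          have := hv i
          apply div_nonneg
          · linarith
          · norm_num
        exact ⟨Nat.floor_le h0, Nat.lt_floor_add_one _⟩
      have hfl' : ∀ i, (bx (e i) : ℝ) * (83 / 5000) ≤ 1 / 4 - Real.log (e i : ℕ) / l ∧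
          1 / 4 - Real.log (e i : ℕ) / l < (bx (e i) + 1) * (83 / 5000) := by
        intro i
        obtain ⟨h1, h2⟩ := hfl i
        rw [le_div_iff₀ (by norm_num)] at h1
        rw [div_lt_iff₀ (by norm_num)] at h2
        exact ⟨h1, h2⟩
      have hJ : bx (e 0) + bx (e 1) + bx (e 2) ≤ 9 := by
        have h0 := (hfl' 0).1
        have h1 := (hfl' 1).1
        have h2 := (hfl' 2).1
        have h3 := hv 3
        have h4 : ((bx (e 0) + bx (e 1) + bx (e 2) : ℕ) : ℝ) < 10 := by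
          push_cast
          nlinarith
        have h5 : bx (e 0) + bx (e 1) + bx (e 2) < 10 := by exact_mod_cast h4
        omega
      have hle2 : ∀ i, (e i : ℕ) ∈ Icc 1 (N ^ 2) := by
        intro i
        rw [Finset.mem_Icc]
        refine ⟨(hpr i).pos, ?_⟩
        have h1 : Real.log (e i : ℕ) ≤ Real.log ((N : ℝ) ^ 2) := by
          rw [Real.log_pow]
          push_cast
          have := hp2 i
          linarith
        have h2 := (Real.log_le_log_iff (hp0 i) (by positivity)).mp h1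
        exact_mod_cast h2
      have hbox : ∀ i, (e i : ℕ) ∈ t5box N (bx (e i)) := by
        intro i
        unfold t5box
        rw [Finset.mem_filter]
        refine ⟨hle2 i, hpr i, ?_, ?_⟩
        · rw [t5_lt N hN0 _ _ (hp0 i), ← hl]
          have h1 := (hfl' i).2
          have h2 : (1 / 4 - ((bx (e i) : ℝ) + 1) * (83 / 5000)) < Real.log (e i : ℕ) / l := by
            linarith
          rwa [lt_div_iff₀ hl0] at h2
        · rw [t5_le N hN0 _ _ (hp0 i), ← hl]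
          have h1 := (hfl' i).1
          have h2 : Real.log (e i : ℕ) / l ≤ (1 / 4 - (bx (e i) : ℝ) * (83 / 5000)) := by
            linarith
          rwa [div_le_iff₀ hl0] at h2
      rw [htgt, Finset.mem_sigma]
      refine ⟨?_, ?_⟩
      · unfold t5J
        simp only [Finset.mem_filter, Finset.mem_product, Finset.mem_range]
        refine ⟨⟨?_, ?_, ?_⟩, hJ⟩ <;> omega
      · rw [Finset.mem_sigma]
        refine ⟨?_, ?_⟩
        · simp only [Finset.mem_product]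
          exact ⟨hbox 0, hbox 1, hbox 2⟩
        · show (e 3 : ℕ) ∈ t5W N (t5s N ((e 0 : ℕ), (e 1 : ℕ), (e 2 : ℕ)))
          unfold t5W t5s
          rw [Finset.mem_filter]
          refine ⟨hle2 3, hpr 3, ?_, ?_⟩
          · rw [t5_lt N hN0 _ _ (hp0 3), ← hl]
            rw [← lt_div_iff₀ hl0]
            simp only
            linarith
          · rw [t5_le N hN0 _ _ (hp0 3), ← hl]
            rw [← div_le_iff₀ hl0]
            simp only
            linarith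
    · rintro ⟨q, e⟩ hx ⟨q', e'⟩ hx' h
      have hsq := (hq q (Finset.mem_sigma.mp hx).1).1
      have hsq' := (hq q' (Finset.mem_sigma.mp hx').1).1
      simp only [Sigma.mk.injEq, Prod.mk.injEq, heq_eq_eq] at h
      obtain ⟨_, ⟨h0, h1, h2⟩, h3⟩ := h
      have hqq : q = q' := by
        rw [← t5_prod q hsq e, ← t5_prod q' hsq' e', h0, h1, h2, h3]
      subst hqq
      have hee : e = e' := by
        apply Equiv.ext
        intro i
        apply Subtype.ext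
        fin_cases i
        · exact h0
        · exact h1
        · exact h2
        · exact h3
      rw [hee]
    · rintro ⟨q, e⟩ hx
      have hsq := (hq q (Finset.mem_sigma.mp hx).1).1
      have hprod := t5_prod q hsq e
      have h1 : (q : ℝ) = (((e 0 : ℕ) : ℝ) * (e 1 : ℕ) * (e 2 : ℕ)) * (e 3 : ℕ) := by
        exact_mod_cast hprod.symm
      apply le_of_eq
      show 1 / (q : ℝ) = _
      rw [h1]
      simp only [one_div, mul_inv]
    · intro z _
      positivity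
  have hL : ∑ x ∈ (T5set N).sigma (fun q => (univ : Finset (Fin 4 ≃ {x // x ∈ q.primeFactors}))),
      (1 / (x.1 : ℝ)) = 24 * ∑ q ∈ T5set N, (1 / (q : ℝ)) := by
    rw [Finset.sum_sigma, Finset.mul_sum]
    refine Finset.sum_congr rfl (fun q hqT => ?_)
    obtain ⟨hsq, hcard, _⟩ := hq q hqT
    simp only [Finset.sum_const, nsmul_eq_mul]
    have hc : (univ : Finset (Fin 4 ≃ {x // x ∈ q.primeFactors})).card = 24 := by
      rw [Finset.card_univ]
      have e : Fin 4 ≃ {x // x ∈ q.primeFactors} :=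
        (Finset.equivFinOfCardEq hcard).symm
      rw [Fintype.card_equiv e, Fintype.card_fin]
      rfl
    rw [hc]
    norm_num
  have hR : ∑ z ∈ tgt, (1 / (z.2.1.1 : ℝ) * (1 / (z.2.1.2.1 : ℝ)) *
        (1 / (z.2.1.2.2 : ℝ))) * (1 / (z.2.2 : ℝ)) ≤
      ∑ J ∈ t5J, ((t5A J.1 / 10 ^ 6) * (t5A J.2.1 / 10 ^ 6) * (t5A J.2.2 / 10 ^ 6)) *
        (t5B (J.1 + J.2.1 + J.2.2) / 10 ^ 7 : ℝ) := by
    rw [htgt, Finset.sum_sigma]
    refine Finset.sum_le_sum (fun J hJ => ?_)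
    have hJ' : J.1 + J.2.1 + J.2.2 ≤ 9 := (Finset.mem_filter.mp hJ).2
    rw [Finset.sum_sigma]
    have hin : ∀ p ∈ t5box N J.1 ×ˢ t5box N J.2.1 ×ˢ t5box N J.2.2,
        ∑ r ∈ t5W N (t5s N p), (1 / (p.1 : ℝ) * (1 / (p.2.1 : ℝ)) * (1 / (p.2.2 : ℝ))) *
          (1 / (r : ℝ)) ≤ (1 / (p.1 : ℝ) * ((1 / (p.2.1 : ℝ)) * (1 / (p.2.2 : ℝ)))) *
            (t5B (J.1 + J.2.1 + J.2.2) / 10 ^ 7 : ℝ) := by
      intro p hp
      rw [← Finset.mul_sum, mul_assoc (1 / (p.1 : ℝ))]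
      refine mul_le_mul_of_nonneg_left ?_ (by positivity)
      simp only [Finset.mem_product] at hp
      obtain ⟨h0, h1, h2⟩ := hp
      have key : ∀ (j p : ℕ), p ∈ t5box N j → 0 ≤ Real.log p / l ∧
          Real.log p / l ≤ 1 / 4 - j * (83 / 5000) := by
        intro j p hp
        unfold t5box at hp
        simp only [Finset.mem_filter, Finset.mem_Icc] at hp
        obtain ⟨⟨hp1, _⟩, hpp, _, hp3⟩ := hp
        have hp0 : (0 : ℝ) < p := by exact_mod_cast hp1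
        rw [t5_le N hN0 _ _ hp0, ← hl] at hp3
        refine ⟨div_nonneg (Real.log_nonneg (by exact_mod_cast hp1)) hl0.le, ?_⟩
        rw [div_le_iff₀ hl0]
        exact hp3
      obtain ⟨a0, b0⟩ := key _ _ h0
      obtain ⟨a1, b1⟩ := key _ _ h1
      obtain ⟨a2, b2⟩ := key _ _ h2
      refine t5_hB N hrec _ hJ' _ ?_ ?_
      · unfold t5s
        linarith
      · unfold t5s
        push_cast
        linarith
    refine (Finset.sum_le_sum hin).trans ?_
    rw [← Finset.sum_mul]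
    refine mul_le_mul_of_nonneg_right ?_ (by positivity)
    rw [t5_sum3 _ _ _ (fun p => 1 / (p : ℝ)) (fun p => 1 / (p : ℝ)) (fun p => 1 / (p : ℝ)),
      mul_assoc (_ / _ : ℝ)]
    have e0 := t5_hA N hrec J.1 (by omega)
    have e1 := t5_hA N hrec J.2.1 (by omega)
    have e2 := t5_hA N hrec J.2.2 (by omega)
    have hnn : ∀ j, 0 ≤ ∑ p ∈ t5box N j, (1 / (p : ℝ)) := fun j =>
      Finset.sum_nonneg (fun p _ => by positivity)
    refine mul_le_mul e0 (mul_le_mul e1 e2 (hnn _) (by positivity)) ?_ (by positivity)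
    exact mul_nonneg (hnn _) (hnn _)
  have hfin : ∑ J ∈ t5J, ((t5A J.1 / 10 ^ 6) * (t5A J.2.1 / 10 ^ 6) * (t5A J.2.2 / 10 ^ 6)) *
        (t5B (J.1 + J.2.1 + J.2.2) / 10 ^ 7 : ℝ) ≤ 24 * (31 / 10 ^ 6) := by
    have h1 : ∑ J ∈ t5J, ((t5A J.1 / 10 ^ 6) * (t5A J.2.1 / 10 ^ 6) * (t5A J.2.2 / 10 ^ 6)) *
        (t5B (J.1 + J.2.1 + J.2.2) / 10 ^ 7 : ℝ) =
        ((∑ J ∈ t5J, t5A J.1 * t5A J.2.1 * t5A J.2.2 * t5B (J.1 + J.2.1 + J.2.2) : ℕ) : ℝ) /
          10 ^ 25 := by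
      push_cast
      rw [Finset.sum_div]
      refine Finset.sum_congr rfl (fun J _ => ?_)
      ring
    rw [h1]
    have h2 : ((∑ J ∈ t5J, t5A J.1 * t5A J.2.1 * t5A J.2.2 * t5B (J.1 + J.2.1 + J.2.2) : ℕ) : ℝ) ≤
        7440000000000000000000 := by exact_mod_cast t5_num
    rw [div_le_iff₀ (by norm_num)]
    refine h2.trans ?_
    norm_num
  have := hL ▸ (hmain.trans (hR.trans hfin))
  linarith

end Pool.Agent.BG4
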