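import Pool.Agent.Lib_helper23.BG4F.E1
import Pool.Agent.Lib_helper23.BG4F.NEAR
import Pool.Agent.Lib_helper23.BG4F.T1
import Pool.Agent.Lib_helper23.BG4F.T3
import Pool.Agent.Lib_helper23.BG4F.T5
/-! The pair constant below four. -/

set_option autoImplicit false

namespace Pool.Agent.BG4

open Finset Filter Pool.Agent.BG
open scoped Classical

variable {M k : ℕ}

lemma PB_gw_nonneg (γ : Fin M → ℝ) (hγ : ∀ j, 0 ≤ γ j) (y : Vec M k) : 0 ≤ gw γ y := by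
  unfold gw
  refine Finset.prod_nonneg fun j _ => ?_
  unfold om
  cases y j with
  | none => exact zero_le_one
  | some i => exact hγ j

lemma PB_dv_none (P : Fin M → ℕ) : dv (k := k) P (fun _ => none) = 1 := by
  unfold dv
  simp

lemma PB_GS_pos (P : Fin M → ℕ) (G : Finset (Fin k)) (γ : Fin M → ℝ) (hγ : ∀ j, 0 ≤ γ j)
    (f : ℕ → ℝ) (hf : ∀ d, 0 ≤ f d) (hf1 : f 1 = 1) : 1 ≤ GS P G γ f := by
  unfold GS
  have h1 : omf P G f (fun _ => none : Vec M k) * gw γ (fun _ => none : Vec M k) = 1 := by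
    unfold omf gw
    rw [if_pos (by intro j i hi; simp at hi), PB_dv_none, hf1]
    simp [om]
  rw [← h1]
  apply Finset.single_le_sum (f := fun y : Vec M k => omf P G f y * gw γ y) _ (Finset.mem_univ _)
  intro y _
  apply mul_nonneg _ (PB_gw_nonneg γ hγ y)
  unfold omf
  split_ifs
  · exact hf _
  · exact le_refl _

lemma PB_al_nonneg (P : Fin M → ℕ) (hP : ∀ j, (P j).Prime) (j : Fin M) : 0 ≤ al P j := by
  have h6 : (2:ℝ) ≤ P j := by exact_mod_cast (hP j).two_le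
  unfold al
  apply div_nonneg (by norm_num) (by linarith)

lemma PB_f1_nonneg (R : ℝ) (d : ℕ) : 0 ≤ f1 R d := by
  unfold f1; split_ifs <;> norm_num

lemma PB_f1_one (R : ℝ) (hR : 1 ≤ R) : f1 R 1 = 1 := by
  unfold f1; rw [if_pos (by exact_mod_cast hR)]

lemma PB_Yc_nonneg (P : Fin M → ℕ) (ζ : ℝ) (J W N : ℕ)
    (h2 : 0 ≤ G24 P ζ J k N) : 0 ≤ Yc P ζ J k W N := by
  unfold Yc GG4
  have : 0 ≤ G14 P ζ J k N ^ 4 := by positivity
  positivity

/-- the exact value of the first Selberg weight at primes -/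
lemma PB_prime (P : Fin M → ℕ) (hP : ∀ j, (P j).Prime) (h : Fin k → ℕ) (N : ℕ)
    (hPN : ∀ j, P j ≤ N) (b : Fin k) (n : ℕ) (hn : N < n) (hb : (n + h b).Prime) (R : ℝ)
    (hR : 1 ≤ R) : Lam P h {b} (sel P {b} (al P) (f1 R)) n = 1 := by
  rw [Lam_one P hP h {b} _ n R _ _]
  · apply sel_none
    have := PB_GS_pos P {b} (al P) (PB_al_nonneg P hP) (f1 R) (PB_f1_nonneg R) (PB_f1_one R hR)
    linarith
  · intro i hi j hj
    rw [Finset.mem_singleton] at hi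
    subst hi
    have h1 := (Nat.prime_dvd_prime_iff_eq (hP j) hb).1 hj
    have := hPN j
    omega
  · intro y hy
    refine sel_supp P hP {b} (al P) (f1 R) R ?_ y hy
    intro d hd
    unfold f1 at hd
    by_contra hcon
    exact hd (if_neg hcon)

/-- counting pairs `(p, n)` by `q = (n + h b) / p` -/
lemma PB_swap (A : Finset ℕ) (I Q : Finset ℕ) (φ : ℕ → ℝ) (hφ : ∀ n, 0 ≤ φ n) (hb : ℕ)
    (Bad : ℕ → ℕ → Prop) (hI : ∀ p ∈ I, 0 < p)
    (hQ : ∀ n ∈ A, ∀ p ∈ I, Bad p n → p ∣ n + hb ∧ (n + hb) / p ∈ Q) (hpos : ∀ n ∈ A, 0 < n + hb) :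
    ∑ p ∈ I, ∑ n ∈ A.filter (fun n => Bad p n), φ n ≤
      ∑ q ∈ Q, ∑ n ∈ A.filter (fun n => q ∣ n + hb ∧ (n + hb) / q ∈ I), φ n := by
  have e1 : ∑ p ∈ I, ∑ n ∈ A.filter (fun n => Bad p n), φ n =
      ∑ n ∈ A, ((I.filter (fun p => Bad p n)).card : ℝ) * φ n := by
    simp only [Finset.sum_filter]
    rw [Finset.sum_comm]
    refine Finset.sum_congr rfl fun n _ => ?_
    rw [← Finset.sum_filter, Finset.sum_const, nsmul_eq_mul]
  have e2 : ∑ q ∈ Q, ∑ n ∈ A.filter (fun n => q ∣ n + hb ∧ (n + hb) / q ∈ I), φ n =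
      ∑ n ∈ A, ((Q.filter (fun q => q ∣ n + hb ∧ (n + hb) / q ∈ I)).card : ℝ) * φ n := by
    simp only [Finset.sum_filter]
    rw [Finset.sum_comm]
    refine Finset.sum_congr rfl fun n _ => ?_
    rw [← Finset.sum_filter, Finset.sum_const, nsmul_eq_mul]
  rw [e1, e2]
  refine Finset.sum_le_sum fun n hn => mul_le_mul_of_nonneg_right ?_ (hφ n)
  rw [Nat.cast_le]
  apply Finset.card_le_card_of_injOn (fun p => (n + hb) / p)
  · intro p hp
    have hp' := Finset.mem_filter.1 (Finset.mem_coe.1 hp)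
    obtain ⟨h1, h2⟩ := hQ n hn p hp'.1 hp'.2
    rw [Finset.mem_coe, Finset.mem_filter]
    refine ⟨h2, Nat.div_dvd_of_dvd h1, ?_⟩
    show (n + hb) / ((n + hb) / p) ∈ I
    rw [Nat.div_div_self h1 (hpos n hn).ne']
    exact hp'.1
  · intro p hp p' hp' hpp
    have h1 := Finset.mem_filter.1 (Finset.mem_coe.1 hp)
    have h2 := Finset.mem_filter.1 (Finset.mem_coe.1 hp')
    obtain ⟨h3, -⟩ := hQ n hn p h1.1 h1.2
    obtain ⟨h4, -⟩ := hQ n hn p' h2.1 h2.2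
    have h5 := Nat.div_div_self h3 (hpos n hn).ne'
    have h6 := Nat.div_div_self h4 (hpos n hn).ne'
    simp only at hpp
    rw [← h5, ← h6, hpp]

/-- membership in `Qset` -/
lemma PB_Qset (N m p : ℕ) (hN : 2 ≤ N) (hm : N < m) (hm3 : m ≤ 3 * N)
    (hbig : 3 * (N : ℝ) ^ (167 / 200 : ℝ) ≤ N) (hp : p ∈ IP N) (hpm : p ∣ m)
    (hsq : Squarefree m) (hr : Rough N m) : m / p ∈ Qset N := by
  unfold IP at hp
  obtain ⟨hp1, hp2, hp3, hp4⟩ := Finset.mem_filter.1 hp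
  have hNr : (0:ℝ) < N := by exact_mod_cast (show 0 < N by omega)
  have hpr : (0:ℝ) < p := by exact_mod_cast hp2.pos
  have hm0 : 0 < m := by omega
  have hq : ((m / p : ℕ) : ℝ) = (m : ℝ) / p := Nat.cast_div hpm hpr.ne'
  have hqd : m / p ∣ m := Nat.div_dvd_of_dvd hpm
  have hup : ((m / p : ℕ) : ℝ) ≤ 3 * (N : ℝ) ^ (167 / 200 : ℝ) := by
    rw [hq, div_le_iff₀ hpr]
    have e1 : (3:ℝ) * (N : ℝ) ^ (167 / 200 : ℝ) * (N : ℝ) ^ (33 / 200 : ℝ) = 3 * N := by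
      rw [mul_assoc, ← Real.rpow_add hNr]; norm_num
    calc (m : ℝ) ≤ 3 * N := by exact_mod_cast hm3
      _ = 3 * (N : ℝ) ^ (167 / 200 : ℝ) * (N : ℝ) ^ (33 / 200 : ℝ) := e1.symm
      _ ≤ _ := mul_le_mul_of_nonneg_left hp3.le (by positivity)
  unfold Qset
  rw [Finset.mem_filter, Finset.mem_Icc]
  refine ⟨⟨?_, ?_⟩, hsq.squarefree_of_dvd hqd, fun r hr1 hr2 => hr r hr1 (hr2.trans hqd), ?_, hup⟩
  · exact Nat.one_le_iff_ne_zero.2 (Nat.pos_of_ne_zero (fun h0 => by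
      have := Nat.div_mul_cancel hpm
      rw [h0] at this
      omega)).ne'
  · have := hup.trans hbig
    exact_mod_cast this
  · rw [hq, le_div_iff₀ hpr]
    have e1 : (N : ℝ) ^ (417 / 500 : ℝ) * (N : ℝ) ^ (83 / 500 : ℝ) = N := by
      rw [← Real.rpow_add hNr]; norm_num
    calc (N : ℝ) ^ (417 / 500 : ℝ) * p ≤ (N : ℝ) ^ (417 / 500 : ℝ) * (N : ℝ) ^ (83 / 500 : ℝ) :=
          mul_le_mul_of_nonneg_left hp4 (by positivity)
      _ = N := e1
      _ ≤ m := by exact_mod_cast hm.le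

/-- the final inequality -/
lemma PB_num (κ C ζ Y E P0 S' T1 Sns Sbad Sgood : ℝ) (hκ : 0 < κ) (hC : 0 < C)
    (hκ1 : κ * (150000 * C) ≤ 1) (hY : 0 ≤ Y)
    (h1 : E ≤ (4 + 100 * ζ) * Y) (h2 : E = P0 + S') (h3 : (122 / 10 ^ 4) * Y ≤ T1)
    (h4 : T1 ≤ Sns + Sbad + Sgood) (h5 : Sns ≤ (1 / 10 ^ 5) * Y)
    (h6 : Sbad ≤ 295 * (31 / 10 ^ 6 + C * κ) * Y) (h7 : κ ^ 2 * Sgood ≤ 6 * S') :
    P0 ≤ (4 + 100 * ζ - κ ^ 2 / 6000) * Y := by
  have e1 : 295 * (C * κ) ≤ 2 / 1000 := by nlinarith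
  have e2 : Sbad ≤ (9145 / 10 ^ 6 + 2 / 1000) * Y := by
    refine h6.trans (mul_le_mul_of_nonneg_right ?_ hY)
    linarith
  have e3 : (1 / 1000) * Y ≤ Sgood := by linarith
  have e4 : κ ^ 2 * ((1 / 1000) * Y) ≤ 6 * S' := (mul_le_mul_of_nonneg_left e3 (sq_nonneg _)).trans h7
  nlinarith

theorem pair_bound : ∃ δ : ℝ, 0 < δ ∧ δ ≤ 1 ∧ ∃ ζ₀ : ℝ, 0 < ζ₀ ∧ ∀ ζ : ℝ, 0 < ζ → ζ ≤ ζ₀ →
    ∀ J k : ℕ, 10 * 2 ^ J ≤ ζ * k → ∃ w₀ : ℕ, ∀ (h : Fin k → ℕ) (W ν : ℕ), Setup k w₀ h W ν →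
      ∀ᶠ N : ℕ in atTop, Good4 ζ k N → ∀ (M : ℕ) (P : Fin M → ℕ), Enum P W N →
        ∀ a b : Fin k, a ≠ b →
        ∑ n ∈ (win N W ν).filter (fun n => (n + h a).Prime ∧ (n + h b).Prime),
          Wn P h (c4 P ζ J N) n ≤ (4 + 100 * ζ - δ) * Yc P ζ J k W N := by
  obtain ⟨C, hC, hnear⟩ := near_small
  obtain ⟨κ, hκdef⟩ : ∃ κ : ℝ, κ = min (1 / 10) (1 / (150000 * C)) := ⟨_, rfl⟩
  have hκ : 0 < κ := by rw [hκdef]; positivity
  have hκ10 : κ ≤ 1 / 10 := by rw [hκdef]; exact min_le_left _ _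
  have hκC : κ * (150000 * C) ≤ 1 := by
    have h1 : κ ≤ 1 / (150000 * C) := by rw [hκdef]; exact min_le_right _ _
    rwa [le_div_iff₀ (by positivity)] at h1
  refine ⟨κ ^ 2 / 6000, by positivity, by nlinarith, 1 / 10 ^ 6, by positivity, ?_⟩
  intro ζ hζ hζ6 J k hk
  have hζ3 : ζ ≤ 1 / 1000 := hζ6.trans (by norm_num)
  obtain ⟨w1, hw1⟩ := pair_energy ζ hζ hζ3 J k hk
  obtain ⟨w2, hw2⟩ := rough_lower ζ hζ hζ6 J k hk
  obtain ⟨w3, hw3⟩ := crude_upper ζ hζ hζ6 J k hk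
  obtain ⟨w4, hw4⟩ := nonsq_small ζ hζ hζ3 J k hk
  obtain ⟨w5, hw5⟩ := Lam_value ζ κ hζ hζ3 hκ k
  obtain ⟨w6, -, hw6⟩ := num4 ζ hζ hζ3 J k hk
  refine ⟨max (max w1 (max w2 w3)) (max w4 (max w5 w6)), fun h W ν hs => ?_⟩
  have hWpos : 0 < W := Nat.pos_of_ne_zero hs.2.1.ne_zero
  have hall : ∀ᶠ N : ℕ in atTop, ∀ m : Fin k, h m ≤ N := by
    rw [Filter.eventually_all]
    intro m
    exact eventually_ge_atTop (h m)
  have hbig : ∀ᶠ N : ℕ in atTop, 3 * (N : ℝ) ^ (167 / 200 : ℝ) ≤ N := by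
    filter_upwards [FL_log_pow 0 3 (33 / 200) (by norm_num), eventually_ge_atTop 1] with N hN hN1
    have hNr : (0:ℝ) < N := by exact_mod_cast hN1
    rw [pow_zero, mul_one] at hN
    calc 3 * (N : ℝ) ^ (167 / 200 : ℝ) ≤ (N : ℝ) ^ (33 / 200 : ℝ) * (N : ℝ) ^ (167 / 200 : ℝ) :=
          mul_le_mul_of_nonneg_right hN (by positivity)
      _ = N := by rw [← Real.rpow_add hNr]; norm_num
  filter_upwards [hw1 h W ν (FL_setup hs (by simp)), hw2 h W ν (FL_setup hs (by simp)),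
    hw3 h W ν (FL_setup hs (by simp)), hw4 h W ν (FL_setup hs (by simp)),
    hw5 h W ν (FL_setup hs (by simp)), hw6 h W ν (FL_setup hs (by simp)),
    hnear κ hκ hκ10 ζ hζ hζ3, T5_small, IP_mult, hall, hbig, eventually_ge_atTop 2]
    with N f1' f2 f3 f4 f5 f6 f7 f8 f9 f10 f11 hN hgood M P hE a b hab
  have g1 := f1' hgood M P hE a b hab
  have g2 := f2 hgood M P hE a b hab
  have g3 := f3 M P hE a b hab
  have g4 := f4 M P hE a b hab
  have g5 := f5 M P hE b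
  obtain ⟨-, -, -, -, -, -, -, -, -, q2, -, -⟩ := f6 M P hE
  obtain ⟨hP, hinj, hPW, hd, hPN, hPw⟩ := FL_enum hs hE
  have hNr : (1:ℝ) ≤ N := by exact_mod_cast (show 1 ≤ N by omega)
  have hR : 1 ≤ (N : ℝ) ^ (1 / 4 - 2 * ζ) := Real.one_le_rpow hNr (by linarith)
  have hY : 0 ≤ Yc P ζ J k W N := PB_Yc_nonneg P ζ J W N (by unfold G24; linarith)
  set L : ℕ → ℝ := fun n => Lam P h {b} (sel P {b} (al P) (f1 ((N : ℝ) ^ (1 / 4 - 2 * ζ)))) n
    with hL
  set φ : ℕ → ℝ := fun n => Ph0 P h ζ J N a b n with hφ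
  set Y := Yc P ζ J k W N with hYdef
  set A := (win N W ν).filter (fun n => (n + h a).Prime) with hA
  have hwin : ∀ n ∈ win N W ν, N < n ∧ n ≤ 2 * N := fun n hn =>
    Finset.mem_Ioc.1 (Finset.mem_filter.1 hn).1
  have hAwin : ∀ n ∈ A, N < n ∧ n ≤ 2 * N := fun n hn => hwin n (Finset.mem_filter.1 hn).1
  have hhb : h b ≤ N := f10 b
  -- the mass of the pairs
  have hP0 : ∑ n ∈ (win N W ν).filter (fun n => (n + h a).Prime ∧ (n + h b).Prime),
      Wn P h (c4 P ζ J N) n = ∑ n ∈ A.filter (fun n => (n + h b).Prime), (φ n * L n) ^ 2 := by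
    rw [hA, Finset.filter_filter]
    refine Finset.sum_congr rfl fun n hn => ?_
    obtain ⟨hn1, hna, hnb⟩ := Finset.mem_filter.1 hn
    obtain ⟨hn2, hn3⟩ := hwin n hn1
    have e1 : L n = 1 := PB_prime P hP h N hPN b n hn2 hnb _ hR
    rw [e1, mul_one]
    have e2 : Wn P h (c4 P ζ J N) n = Wn P h (restr {a, b} (c4 P ζ J N)) n := by
      refine FL_restrict P h {a, b} _ _ n ?_ ?_
      · intro x hx
        unfold restr
        rw [if_pos hx]
      · intro x hsx hx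
        exfalso
        apply hx
        intro j i hi
        rw [Finset.mem_insert, Finset.mem_singleton] at hi
        rcases hi with rfl | rfl
        · exact FL_sat_prime P hP h _ n hna (fun j => by have := hPN j; omega) x hsx j
        · exact FL_sat_prime P hP h _ n hnb (fun j => by have := hPN j; omega) x hsx j
    rw [e2]
    rfl
  -- decomposition of T1
  have hdec : ∑ p ∈ IP N, ∑ n ∈ (win N W ν).filter (fun n => (n + h a).Prime ∧ p ∣ n + h b ∧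
        Rough N (n + h b)), φ n ^ 2 ≤
      ∑ p ∈ IP N, ∑ n ∈ (win N W ν).filter (fun n => p ∣ n + h b ∧ Rough N (n + h b) ∧
          ¬ Squarefree (n + h b)), φ n ^ 2 +
      ∑ p ∈ IP N, ∑ n ∈ A.filter (fun n => p ∣ n + h b ∧ Rough N (n + h b) ∧
        Squarefree (n + h b) ∧ |Fst ζ N ((n + h b) / p)| < 2 * κ), φ n ^ 2 +
      ∑ p ∈ IP N, ∑ n ∈ A.filter (fun n => p ∣ n + h b ∧ Rough N (n + h b) ∧
        Squarefree (n + h b) ∧ 2 * κ ≤ |Fst ζ N ((n + h b) / p)|), φ n ^ 2 := by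
    rw [← Finset.sum_add_distrib, ← Finset.sum_add_distrib]
    refine Finset.sum_le_sum fun p _ => ?_
    rw [hA, Finset.filter_filter, Finset.filter_filter, Finset.sum_filter, Finset.sum_filter,
      Finset.sum_filter, Finset.sum_filter, ← Finset.sum_add_distrib, ← Finset.sum_add_distrib]
    refine Finset.sum_le_sum fun n _ => ?_
    have h0 : 0 ≤ φ n ^ 2 := sq_nonneg _
    by_cases c1 : (n + h a).Prime ∧ p ∣ n + h b ∧ Rough N (n + h b)
    · rw [if_pos c1]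
      obtain ⟨c2, c3, c4⟩ := c1
      by_cases c5 : Squarefree (n + h b)
      · by_cases c6 : |Fst ζ N ((n + h b) / p)| < 2 * κ
        · rw [if_neg (fun hh => hh.2.2 c5), if_pos ⟨c2, c3, c4, c5, c6⟩]
          split_ifs <;> linarith
        · rw [if_neg (fun hh => hh.2.2 c5), if_neg (fun hh => c6 hh.2.2.2.2),
            if_pos ⟨c2, c3, c4, c5, not_lt.1 c6⟩]
          linarith
      · rw [if_pos ⟨c3, c4, c5⟩]
        split_ifs <;> linarith
    · rw [if_neg c1]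
      split_ifs <;> linarith
  -- the bad part
  have hbad : ∑ p ∈ IP N, ∑ n ∈ A.filter (fun n => p ∣ n + h b ∧ Rough N (n + h b) ∧
        Squarefree (n + h b) ∧ |Fst ζ N ((n + h b) / p)| < 2 * κ), φ n ^ 2 ≤
      295 * (31 / 10 ^ 6 + C * κ) * Y := by
    set Q := (Qset N).filter (fun q => |Fst ζ N q| < 2 * κ) with hQ
    have e1 := PB_swap A (IP N) Q (fun n => φ n ^ 2) (fun n => sq_nonneg _) (h b)
      (fun p n => p ∣ n + h b ∧ Rough N (n + h b) ∧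
        Squarefree (n + h b) ∧ |Fst ζ N ((n + h b) / p)| < 2 * κ)
      (fun p hp => by
        unfold IP at hp
        exact (Finset.mem_filter.1 hp).2.1.pos)
      (by
        rintro n hn p hp ⟨c1, c2, c3, c4⟩
        refine ⟨c1, Finset.mem_filter.2 ⟨?_, c4⟩⟩
        obtain ⟨hn2, hn3⟩ := hAwin n hn
        exact PB_Qset N (n + h b) p hN (by omega) (by omega) f11 hp c1 c3 c2)
      (fun n hn => by have := hAwin n hn; omega)
    refine le_trans (le_of_eq (by congr!)) (e1.trans ?_)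
    have e2 : ∑ q ∈ Q, ∑ n ∈ A.filter (fun n => q ∣ n + h b ∧ (n + h b) / q ∈ IP N), φ n ^ 2 ≤
        ∑ q ∈ Q, (295 / (q:ℝ)) * Y := by
      refine Finset.sum_le_sum fun q hq => ?_
      have := g3 q (Finset.mem_filter.1 hq).1
      rw [hA, Finset.filter_filter]
      exact this
    refine e2.trans ?_
    have e3 : ∑ q ∈ Q, (295 / (q:ℝ)) * Y = 295 * (∑ q ∈ Q, 1 / (q:ℝ)) * Y := by
      rw [Finset.mul_sum, Finset.sum_mul]
      refine Finset.sum_congr rfl fun q _ => by ring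
    rw [e3]
    apply mul_le_mul_of_nonneg_right _ hY
    apply mul_le_mul_of_nonneg_left _ (by norm_num)
    have e4 : ∑ q ∈ Q, 1 / (q:ℝ) ≤ ∑ q ∈ T5set N, 1 / (q:ℝ) +
        ∑ q ∈ (Qset N).filter (fun q => |Fst ζ N q| < 2 * κ ∧ q ∉ T5set N), (1 / (q : ℝ)) := by
      have e5 : Q ⊆ T5set N ∪ (Qset N).filter (fun q => |Fst ζ N q| < 2 * κ ∧ q ∉ T5set N) := by
        intro q hq
        obtain ⟨h1, h2⟩ := Finset.mem_filter.1 hq
        rw [Finset.mem_union]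
        by_cases h3 : q ∈ T5set N
        · exact Or.inl h3
        · exact Or.inr (Finset.mem_filter.2 ⟨h1, h2, h3⟩)
      refine (Finset.sum_le_sum_of_subset_of_nonneg e5 (fun q _ _ => by positivity)).trans ?_
      rw [← Finset.sum_union_inter]
      have : 0 ≤ ∑ q ∈ T5set N ∩ (Qset N).filter (fun q => |Fst ζ N q| < 2 * κ ∧ q ∉ T5set N),
          1 / (q:ℝ) := Finset.sum_nonneg fun q _ => by positivity
      linarith
    linarith
  -- the good part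
  have hgoodpart : κ ^ 2 * ∑ p ∈ IP N, ∑ n ∈ A.filter (fun n => p ∣ n + h b ∧
        Rough N (n + h b) ∧ Squarefree (n + h b) ∧ 2 * κ ≤ |Fst ζ N ((n + h b) / p)|), φ n ^ 2 ≤
      6 * ∑ n ∈ A.filter (fun n => ¬ (n + h b).Prime), (φ n * L n) ^ 2 := by
    rw [Finset.mul_sum]
    have e1 : ∀ p ∈ IP N, κ ^ 2 * ∑ n ∈ A.filter (fun n => p ∣ n + h b ∧
        Rough N (n + h b) ∧ Squarefree (n + h b) ∧ 2 * κ ≤ |Fst ζ N ((n + h b) / p)|), φ n ^ 2 ≤
        ∑ n ∈ (A.filter (fun n => ¬ (n + h b).Prime)).filter (fun n => p ∣ n + h b),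
          (φ n * L n) ^ 2 := by
      intro p hp
      rw [Finset.mul_sum]
      have e2 : ∀ n ∈ A.filter (fun n => p ∣ n + h b ∧
        Rough N (n + h b) ∧ Squarefree (n + h b) ∧ 2 * κ ≤ |Fst ζ N ((n + h b) / p)|),
        κ ^ 2 * φ n ^ 2 ≤ (φ n * L n) ^ 2 := by
        intro n hn
        obtain ⟨hn1, hn2, hn3, hn4, hn5⟩ := Finset.mem_filter.1 hn
        have e3 := g5 n (Finset.mem_filter.1 hn1).1 p hp hn2 hn4 hn3
        have e4 : κ ≤ |L n| := by
          have e5 : |Fst ζ N ((n + h b) / p)| - |L n| ≤ |L n - Fst ζ N ((n + h b) / p)| := by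
            rw [abs_sub_comm]
            exact abs_sub_abs_le_abs_sub _ _
          have e6 : |L n - Fst ζ N ((n + h b) / p)| ≤ κ := e3
          linarith
        have e7 : κ ^ 2 ≤ L n ^ 2 := by
          rw [← sq_abs (L n)]
          exact pow_le_pow_left₀ hκ.le e4 2
        calc κ ^ 2 * φ n ^ 2 ≤ L n ^ 2 * φ n ^ 2 := mul_le_mul_of_nonneg_right e7 (sq_nonneg _)
          _ = (φ n * L n) ^ 2 := by ring
      refine (Finset.sum_le_sum e2).trans ?_
      apply Finset.sum_le_sum_of_subset_of_nonneg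
      · intro n hn
        obtain ⟨hn1, hn2, hn3, hn4, hn5⟩ := Finset.mem_filter.1 hn
        rw [Finset.mem_filter, Finset.mem_filter]
        refine ⟨⟨hn1, fun hpr => ?_⟩, hn2⟩
        unfold IP at hp
        obtain ⟨hp1, hp2, -, -⟩ := Finset.mem_filter.1 hp
        have e3 := (Nat.prime_dvd_prime_iff_eq hp2 hpr).1 hn2
        have e4 := (Finset.mem_Icc.1 hp1).2
        have e5 := hAwin n hn1
        omega
      · intro n _ _
        exact sq_nonneg _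
    refine (Finset.sum_le_sum e1).trans ?_
    simp only [Finset.sum_filter (s := A.filter (fun n => ¬ (n + h b).Prime))]
    rw [Finset.sum_comm, Finset.mul_sum]
    refine Finset.sum_le_sum fun n hn => ?_
    rw [← Finset.sum_filter, Finset.sum_const, nsmul_eq_mul]
    apply mul_le_mul_of_nonneg_right _ (sq_nonneg _)
    have hn2 := hAwin n (Finset.mem_filter.1 hn).1
    exact_mod_cast f9 (n + h b) (by omega) (by omega)
  have hsplit : ∑ n ∈ A, (φ n * L n) ^ 2 = ∑ n ∈ A.filter (fun n => (n + h b).Prime),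
      (φ n * L n) ^ 2 + ∑ n ∈ A.filter (fun n => ¬ (n + h b).Prime), (φ n * L n) ^ 2 :=
    (Finset.sum_filter_add_sum_filter_not A _ _).symm
  rw [hP0]
  exact PB_num κ C ζ Y _ _ _ _ _ _ _ hκ hC hκC hY g1 hsplit g2 hdec g4 hbad hgoodpart

end Pool.Agent.BG4
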