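import Pool.Agent.Lib_helper23.BG4F.NUM4
import Pool.Agent.Lib_helper23.BGF.CNT
import Pool.Agent.Lib_helper23.BGF.FLem2
import Pool.Agent.Lib_helper23.BGF.SUML
import Pool.Agent.Lib_helper23.BGF.SUMU
import Pool.Agent.Lib_helper23.BGF.TENS
/-! Blocks SONE4 and SPRM4: the total weight, and the weight of the primes. -/

set_option autoImplicit false

namespace Pool.Agent.BG4

open Finset Filter Pool.Agent.BG
open scoped Classical

lemma SONE4_exp {M k : ℕ} (P : Fin M → ℕ) (ζ : ℝ) (hk1 : (1:ℝ) ≤ k)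
    (hexp : Real.exp (1000 * k ^ 2 * Sg32 P) ≤ 1 + ζ / 100) (hS2 : Sg2 P ≤ Sg32 P)
    (a : ℝ) (ha0 : 0 ≤ a) (ha : a ≤ 1000 * k ^ 2) :
    Real.exp (a * Sg2 P) ≤ 1 + ζ / 100 ∧ a * Sg2 P ≤ ζ / 100 := by
  have hS := FL_Sg2_nonneg P
  have e1 : a * Sg2 P ≤ 1000 * k ^ 2 * Sg32 P :=
    mul_le_mul ha hS2 hS (by positivity)
  refine ⟨(Real.exp_le_exp.2 e1).trans hexp, ?_⟩
  have e2 := Real.add_one_le_exp (1000 * (k:ℝ) ^ 2 * Sg32 P)
  linarith

theorem sieve_one4 (ζ : ℝ) (hζ : 0 < ζ) (hζ1 : ζ ≤ 1 / 1000) (J k : ℕ)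
    (hk : 10 * 2 ^ J ≤ ζ * k) : ∃ w₀ : ℕ, ∀ (h : Fin k → ℕ) (W ν : ℕ), Setup k w₀ h W ν →
      ∀ᶠ N : ℕ in atTop, ∀ (M : ℕ) (P : Fin M → ℕ), Enum P W N →
        ∑ n ∈ win N W ν, Wn P h (c4 P ζ J N) n ≤
          (1 + ζ) * ((N / W : ℝ) * G24 P ζ J k N ^ k) := by
  obtain ⟨w₀, hw₀k, hnum⟩ := num4 ζ hζ hζ1 J k hk
  refine ⟨w₀, fun h W ν hs => ?_⟩
  have h2J : (1:ℝ) ≤ 2 ^ J := one_le_pow₀ (by norm_num)
  have hk10 : (10000:ℝ) ≤ k := by
    by_contra hcon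
    push Not at hcon
    nlinarith
  have hWpos : 0 < W := Nat.pos_of_ne_zero hs.2.1.ne_zero
  have hWr : (0:ℝ) < W := by exact_mod_cast hWpos
  filter_upwards [hnum h W ν hs, FL_log_large 2,
    FL_log_pow (8 * k) (2 * W / ζ) (1 - 2 * ζ) (by linarith), eventually_ge_atTop 2]
    with N h1 h2 h3 hN M P hE
  obtain ⟨hP, hinj, hPW, hd, hPN, hPw⟩ := FL_enum hs hE
  obtain ⟨-, -, -, -, -, -, -, hgh, hG1, hG2, hexp, hS2⟩ := h1 M P hE
  have hNr : (0:ℝ) < N := by exact_mod_cast (show 0 < N by omega)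
  obtain ⟨Z, hZ⟩ : ∃ Z : ℝ, Z = (N : ℝ) ^ ζ := ⟨_, rfl⟩
  have hZ1 : 1 ≤ Z := by
    rw [hZ]
    exact Real.one_le_rpow (by exact_mod_cast (show 1 ≤ N by omega)) hζ.le
  have hZlog : Real.log Z = ζ * Real.log N := by rw [hZ, Real.log_rpow hNr]
  obtain ⟨g, hg⟩ : ∃ g : ℕ → ℝ, g = gg4 ζ J k N := ⟨_, rfl⟩
  rw [← hg] at hgh hG2
  obtain ⟨G2, hG2def⟩ : ∃ G2 : ℝ, G2 = Gsum P (fun a => g a ^ 2) := ⟨_, rfl⟩
  rw [← hG2def] at hG2
  -- the counting lemma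
  obtain ⟨c, hc⟩ : ∃ c : Vec M k → ℝ, c = cv P g Z := ⟨_, rfl⟩
  have hcount := count_int P hP hinj W hWpos hPW h hd ν N c
  have hα : ∀ j, (k : ℝ) * (1 / (P j : ℝ)) ≤ 1 := by
    intro j
    have h5 : k ≤ P j := by have := hPw j; omega
    have h6 : (0:ℝ) < P j := by exact_mod_cast (hP j).pos
    rw [mul_one_div, div_le_one h6]
    exact_mod_cast h5
  have hQ : ∑ x, ∑ y, c x * c y * ∏ j, Kl (1 / (P j : ℝ)) (x j) (y j) ≤
      (G2 * Real.exp (Sg2 P)) ^ k := by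
    refine (tensor_upper (fun j => 1 / (P j : ℝ)) (fun j => by positivity) hα c).trans ?_
    have e1 : tr (fun j => 1 / (P j : ℝ)) c = yv P g Z := by
      rw [hc]
      unfold cv
      exact tr_itr _ _
    rw [e1, hG2def]
    exact sum_upper_one P hP hinj g hgh Z
  have hexp1 : Real.exp (Sg2 P) ^ k ≤ 1 + ζ / 100 := by
    rw [← Real.exp_nat_mul]
    exact (SONE4_exp P ζ (by linarith) hexp hS2 k (by positivity) (by nlinarith)).1
  have hQ' : ∑ x, ∑ y, c x * c y * ∏ j, Kl (1 / (P j : ℝ)) (x j) (y j) ≤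
      (1 + ζ / 100) * G2 ^ k := by
    refine hQ.trans ?_
    rw [mul_pow, mul_comm]
    exact mul_le_mul_of_nonneg_right hexp1 (by positivity)
  -- the error
  obtain ⟨hc1, hc2⟩ := cv_size (k := k) P hP hinj g hgh.1 hgh.2.1 Z hZ1
  rw [← hc] at hc1 hc2
  have hlogZ : 0 ≤ Real.log Z := Real.log_nonneg hZ1
  have habs := abs_sum P hP hinj 2 ((1 + Real.log Z) ^ (2 * k)) Z (by positivity) hZ1 c
    (fun x => by exact_mod_cast hc1 x) hc2
  have herr : (∑ x, |c x|) ^ 2 ≤ (ζ / 2) * (N / W) := by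
    have h5 : (∑ x, |c x|) ^ 2 ≤
        ((1 + Real.log Z) ^ (2 * k) * Z * (1 + Real.log Z) ^ (k * 2)) ^ 2 :=
      pow_le_pow_left₀ (Finset.sum_nonneg fun _ _ => abs_nonneg _) habs 2
    have h6 : ((1 + Real.log Z) ^ (2 * k) * Z * (1 + Real.log Z) ^ (k * 2)) ^ 2 =
        (1 + Real.log Z) ^ (8 * k) * Z ^ 2 := by ring
    have h7 : (1 + Real.log Z) ^ (8 * k) ≤ Real.log N ^ (8 * k) := by
      apply pow_le_pow_left₀ (by linarith)
      rw [hZlog]; nlinarith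
    have h8 : Z ^ 2 = (N : ℝ) ^ (2 * ζ) := by
      rw [hZ, ← Real.rpow_natCast, ← Real.rpow_mul hNr.le]
      congr 1
      push_cast
      ring
    have h9 : (N : ℝ) ^ (1 - 2 * ζ) * (N : ℝ) ^ (2 * ζ) = N := by
      rw [← Real.rpow_add hNr, sub_add_cancel, Real.rpow_one]
    have h10 : 2 * W / ζ * (Real.log N ^ (8 * k) * (N : ℝ) ^ (2 * ζ)) ≤ N := by
      calc _ = (2 * W / ζ * Real.log N ^ (8 * k)) * (N : ℝ) ^ (2 * ζ) := by ring
        _ ≤ (N : ℝ) ^ (1 - 2 * ζ) * (N : ℝ) ^ (2 * ζ) :=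
            mul_le_mul_of_nonneg_right h3 (by positivity)
        _ = N := h9
    calc (∑ x, |c x|) ^ 2 ≤ (1 + Real.log Z) ^ (8 * k) * Z ^ 2 := h5.trans (le_of_eq h6)
      _ ≤ Real.log N ^ (8 * k) * (N : ℝ) ^ (2 * ζ) := by
          rw [h8]
          exact mul_le_mul_of_nonneg_right h7 (by positivity)
      _ = (ζ / 2) / W * (2 * W / ζ * (Real.log N ^ (8 * k) * (N : ℝ) ^ (2 * ζ))) := by
          field_simp
      _ ≤ (ζ / 2) / W * N := mul_le_mul_of_nonneg_left h10 (by positivity)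
      _ = (ζ / 2) * (N / W) := by ring
  have h5 := (abs_le.1 hcount).2
  have h6 : ∑ n ∈ win N W ν, Wn P h (c4 P ζ J N) n = ∑ n ∈ win N W ν, Wn P h c n := by
    rw [hc, hg, hZ]; rfl
  have h6' : G24 P ζ J k N = G2 := by rw [hG2def, hg]; rfl
  rw [h6, h6']
  have hG2k : 1 ≤ G2 ^ k := one_le_pow₀ hG2
  have hNW : (0:ℝ) < N / W := by positivity
  have h7 : (N / W : ℝ) * ∑ x, ∑ y, c x * c y *
      ∏ j, Kl (1 / (P j : ℝ)) (x j) (y j) ≤ (N / W) * ((1 + ζ / 100) * G2 ^ k) :=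
    mul_le_mul_of_nonneg_left hQ' hNW.le
  have h8 : (N / W : ℝ) ≤ N / W * G2 ^ k := le_mul_of_one_le_right hNW.le hG2k
  have h9 : ζ / 2 * (N / W : ℝ) ≤ ζ / 2 * (N / W * G2 ^ k) :=
    mul_le_mul_of_nonneg_left h8 (by positivity)
  have h10 : 0 ≤ ζ * (N / W * G2 ^ k) := by positivity
  calc ∑ n ∈ win N W ν, Wn P h c n
      ≤ (N / W) * ((1 + ζ / 100) * G2 ^ k) + ζ / 2 * (N / W * G2 ^ k) := by linarith
    _ ≤ (1 + ζ) * (N / W * G2 ^ k) := by linarith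

/-- `log (2 N + h) ≤ (1 + ε) log N` -/
lemma SPRM4_log_two (h : ℕ) (ε : ℝ) (hε : 0 < ε) : ∀ᶠ N : ℕ in atTop,
    Real.log ((2 * N + h : ℕ) : ℝ) ≤ (1 + ε) * Real.log N := by
  filter_upwards [FL_log_large (Real.log 3 / ε), eventually_ge_atTop (h + 1)] with N h1 hN
  have hNr : (0:ℝ) < N := by exact_mod_cast (show 0 < N by omega)
  have h2 : ((2 * N + h : ℕ) : ℝ) ≤ 3 * N := by
    exact_mod_cast (show 2 * N + h ≤ 3 * N by omega)
  have h3 : (0:ℝ) < ((2 * N + h : ℕ) : ℝ) := by exact_mod_cast (show 0 < 2 * N + h by omega)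
  rw [div_le_iff₀ hε] at h1
  calc Real.log ((2 * N + h : ℕ) : ℝ) ≤ Real.log (3 * N) := Real.log_le_log h3 h2
    _ = Real.log 3 + Real.log N := Real.log_mul (by norm_num) hNr.ne'
    _ ≤ _ := by linarith

/-- window of theta -/
lemma SPRM4_th (h : ℕ) (ε : ℝ) (hε : 0 < ε) : ∀ᶠ N : ℕ in atTop,
    (1 - ε) * N ≤ th (2 * N + h) - th (N + h) ∧
      th (2 * N + h) - th (N + h) ≤ (1 + ε) * N := by
  have h1 := th_window h
  have h2 := h1.eventually (eventually_ge_nhds (show (1 - ε : ℝ) < 1 by linarith))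
  have h3 := h1.eventually (eventually_le_nhds (show (1 : ℝ) < 1 + ε by linarith))
  filter_upwards [h2, h3, eventually_ge_atTop 1] with N h4 h5 hN
  have hNr : (0:ℝ) < N := by exact_mod_cast hN
  rw [le_div_iff₀ hNr] at h4
  rw [div_le_iff₀ hNr] at h5
  exact ⟨h4, h5⟩

/-- the error term in the prime sums -/
lemma SPRM4_err {M k w₀ : ℕ} {h : Fin k → ℕ} {W ν N : ℕ} {P : Fin M → ℕ} (ζ : ℝ)
    (hs : Setup k w₀ h W ν) (hE : Enum P W N) (hgood : Good4 ζ k N)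
    (m : Fin k) (hN : N + h m ≤ 3 * N) (hN2 : 2 * N + h m ≤ 3 * N)
    (B Z : ℝ) (hB : 0 ≤ B) (hZ1 : 1 ≤ Z) (hlev : W * Z ^ 2 ≤ (N : ℝ) ^ (1 / 2 - ζ))
    (c : Vec M k → ℝ) (hc : ∀ x, |c x| ≤ B * (2 : ℝ) ^ sc x) (hZ : ∀ x, c x ≠ 0 → (dv P x : ℝ) ≤ Z) :
    ∑ x, ∑ y, |c x| * |c y| *
        (Emax (2 * N + h m) (W * dv2 P x y) + Emax (N + h m) (W * dv2 P x y)) ≤
      B ^ 2 * (2 * (N / Real.log N ^ (4 * k + 30))) := by
  obtain ⟨hP, hinj, hPW, hd, hPN, hPw⟩ := FL_enum hs hE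
  have h1 := err_sum P hP hinj W hs.2.1 hPW 2 (by norm_num) B Z hB hZ1 c
    (fun x => by exact_mod_cast hc x) hZ
    (fun q => Emax (2 * N + h m) q + Emax (N + h m) q)
    (fun q => add_nonneg (FL_Emax_nonneg _ _) (FL_Emax_nonneg _ _))
  refine h1.trans (mul_le_mul_of_nonneg_left ?_ (sq_nonneg _))
  have h2 : ((((k + 1) ^ 2 * 2 ^ 2 : ℕ) : ℝ)) ≤ ((8 * (k + 1) ^ 2 : ℕ) : ℝ) := by
    exact_mod_cast (show (k + 1) ^ 2 * 2 ^ 2 ≤ 8 * (k + 1) ^ 2 by nlinarith)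
  have hsub : sqf (W * Z ^ 2) ⊆ sqf ((N : ℝ) ^ (1 / 2 - ζ)) := by
    unfold sqf
    apply Finset.filter_subset_filter
    apply Finset.Icc_subset_Icc_right
    exact Nat.floor_le_floor hlev
  have hnn : ∀ q : ℕ, 0 ≤ Emax (2 * N + h m) q + Emax (N + h m) q := fun q =>
    add_nonneg (FL_Emax_nonneg _ _) (FL_Emax_nonneg _ _)
  calc ∑ q ∈ sqf (W * Z ^ 2), ((((k + 1) ^ 2 * 2 ^ 2 : ℕ) : ℝ)) ^ q.primeFactors.card *
        (Emax (2 * N + h m) q + Emax (N + h m) q)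
      ≤ ∑ q ∈ sqf (W * Z ^ 2), ((8 * (k + 1) ^ 2 : ℕ) : ℝ) ^ q.primeFactors.card *
        (Emax (2 * N + h m) q + Emax (N + h m) q) := by
        refine Finset.sum_le_sum fun q _ => ?_
        exact mul_le_mul_of_nonneg_right (pow_le_pow_left₀ (by positivity) h2 _) (hnn q)
    _ ≤ ∑ q ∈ sqf ((N : ℝ) ^ (1 / 2 - ζ)), ((8 * (k + 1) ^ 2 : ℕ) : ℝ) ^ q.primeFactors.card *
        (Emax (2 * N + h m) q + Emax (N + h m) q) := by
        apply Finset.sum_le_sum_of_subset_of_nonneg hsub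
        intro q _ _
        exact mul_nonneg (by positivity) (hnn q)
    _ = ∑ q ∈ sqf ((N : ℝ) ^ (1 / 2 - ζ)), ((8 * (k + 1) ^ 2 : ℕ) : ℝ) ^ q.primeFactors.card *
          Emax (2 * N + h m) q + ∑ q ∈ sqf ((N : ℝ) ^ (1 / 2 - ζ)),
          ((8 * (k + 1) ^ 2 : ℕ) : ℝ) ^ q.primeFactors.card * Emax (N + h m) q := by
        rw [← Finset.sum_add_distrib]
        refine Finset.sum_congr rfl fun q _ => by ring
    _ ≤ 2 * (N / Real.log N ^ (4 * k + 30)) := by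
        have e1 := hgood (2 * N + h m) hN2
        have e2 := hgood (N + h m) hN
        linarith

theorem sieve_prime4 (ζ : ℝ) (hζ : 0 < ζ) (hζ1 : ζ ≤ 1 / 1000) (J k : ℕ)
    (hk : 10 * 2 ^ J ≤ ζ * k) : ∃ w₀ : ℕ, ∀ (h : Fin k → ℕ) (W ν : ℕ), Setup k w₀ h W ν →
      ∀ᶠ N : ℕ in atTop, Good4 ζ k N → ∀ (M : ℕ) (P : Fin M → ℕ), Enum P W N → ∀ m : Fin k,
        (1 - ζ) * ((N / (W.totient * Real.log N)) * G14 P ζ J k N ^ 2 *
          G24 P ζ J k N ^ (k - 1)) ≤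
        ∑ n ∈ (win N W ν).filter (fun n => (n + h m).Prime), Wn P h (c4 P ζ J N) n := by
  obtain ⟨w₀, hw₀k, hnum⟩ := num4 ζ hζ hζ1 J k hk
  refine ⟨w₀, fun h W ν hs => ?_⟩
  have h2J : (1:ℝ) ≤ 2 ^ J := one_le_pow₀ (by norm_num)
  have hk10 : (10000:ℝ) ≤ k := by
    by_contra hcon
    push Not at hcon
    nlinarith
  have hWpos : 0 < W := Nat.pos_of_ne_zero hs.2.1.ne_zero
  have hWr : (0:ℝ) < W := by exact_mod_cast hWpos
  have hφr : (0:ℝ) < W.totient := by exact_mod_cast Nat.totient_pos.2 hWpos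
  have hε : 0 < ζ / 100 := by positivity
  have hall : ∀ᶠ N : ℕ in atTop, ∀ m : Fin k,
      (Real.log ((2 * N + h m : ℕ) : ℝ) ≤ (1 + ζ / 100) * Real.log N ∧
      ((1 - ζ / 100) * N ≤ th (2 * N + h m) - th (N + h m) ∧
      th (2 * N + h m) - th (N + h m) ≤ (1 + ζ / 100) * N)) ∧ h m ≤ N := by
    rw [Filter.eventually_all]
    intro m
    exact ((SPRM4_log_two (h m) _ hε).and (SPRM4_th (h m) _ hε)).and (eventually_ge_atTop (h m))
  filter_upwards [hnum h W ν hs, FL_log_large 2, FL_log_large (20 * W.totient / ζ), hall,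
    FL_log_pow 0 W (1 / 2 - 3 * ζ) (by linarith), eventually_ge_atTop 2]
    with N h1 h2 h3 h4 h5 hN hgood M P hE m
  obtain ⟨hP, hinj, hPW, hd, hPN, hPw⟩ := FL_enum hs hE
  obtain ⟨-, -, -, -, hg5, hg6, hg7, hgh, hG1, hG2, hexp, hS2⟩ := h1 M P hE
  obtain ⟨⟨hlog2, hth1, -⟩, hmN⟩ := h4 m
  have hNr : (0:ℝ) < N := by exact_mod_cast (show 0 < N by omega)
  have hN1r : (1:ℝ) < N := by exact_mod_cast (show 1 < N by omega)
  obtain ⟨ℓ, hℓ⟩ : ∃ ℓ : ℝ, ℓ = Real.log N := ⟨_, rfl⟩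
  rw [← hℓ] at h2 h3 hlog2
  have hℓpos : 0 < ℓ := by linarith
  obtain ⟨Z, hZ⟩ : ∃ Z : ℝ, Z = (N : ℝ) ^ ζ := ⟨_, rfl⟩
  have hZ1 : 1 ≤ Z := by
    rw [hZ]
    exact Real.one_le_rpow hN1r.le hζ.le
  have hZlog : Real.log Z = ζ * ℓ := by rw [hZ, Real.log_rpow hNr, hℓ]
  obtain ⟨Z', hZ'⟩ : ∃ Z' : ℝ, Z' = (N : ℝ) ^ (ζ / 2) := ⟨_, rfl⟩
  have hZ'1 : 1 < Z' := by rw [hZ']; exact Real.one_lt_rpow hN1r (by positivity)
  obtain ⟨g, hg⟩ : ∃ g : ℕ → ℝ, g = gg4 ζ J k N := ⟨_, rfl⟩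
  rw [← hg] at hgh hG1 hG2 hg5 hg6 hg7
  rw [← hZ'] at hg5 hg6 hg7
  rw [← hZ] at hg7
  obtain ⟨G1, hG1def⟩ : ∃ G1 : ℝ, G1 = Gsum P g := ⟨_, rfl⟩
  obtain ⟨G2, hG2def⟩ : ∃ G2 : ℝ, G2 = Gsum P (fun a => g a ^ 2) := ⟨_, rfl⟩
  rw [← hG2def] at hG2 hg5 hg6
  rw [← hG1def] at hG1
  obtain ⟨c, hc⟩ : ∃ c : Vec M k → ℝ, c = cv P g Z := ⟨_, rfl⟩
  obtain ⟨cm, hcm⟩ : ∃ cm : Vec M k → ℝ, cm = restr {m} c := ⟨_, rfl⟩
  have hc4 : c = c4 P ζ J N := by rw [hc, hg, hZ]; rfl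
  rw [← hc4]
  have hG14 : G14 P ζ J k N = G1 := by rw [hG1def, hg]; rfl
  have hG24 : G24 P ζ J k N = G2 := by rw [hG2def, hg]; rfl
  rw [hG14, hG24, ← hℓ]
  -- local conditions
  have hkα : ∀ j, (k : ℝ) * al P j ≤ 1 := by
    intro j
    have h6 : k + 1 < P j := lt_of_le_of_lt (by omega) (hPw j)
    have h7 : (k : ℝ) + 1 < P j := by exact_mod_cast h6
    unfold al
    rw [mul_one_div, div_le_one (by linarith)]
    linarith
  have hα0 : ∀ j, 0 ≤ al P j := NUM_al_nonneg P hP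
  -- replacing the weights
  have hwt : ∀ n ∈ win N W ν, (n + h m).Prime → Wn P h c n = Wn P h cm n := by
    intro n hn hnp
    have hnN : N < n := (Finset.mem_Ioc.1 (Finset.mem_filter.1 hn).1).1
    refine FL_restrict P h {m} c cm n ?_ ?_
    · intro x hx
      rw [hcm]
      unfold restr
      rw [if_pos hx]
    · intro x hsx hx
      exfalso
      apply hx
      intro j i hi
      rw [Finset.mem_singleton] at hi
      subst hi
      exact FL_sat_prime P hP h _ n hnp (fun j => by have := hPN j; omega) x hsx j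
  -- lower bound for the sum over primes
  have hX : ∑ n ∈ win N W ν, lp (n + h m) * Wn P h cm n ≤
      ((1 + ζ / 100) * ℓ) * ∑ n ∈ (win N W ν).filter (fun n => (n + h m).Prime), Wn P h c n := by
    rw [Finset.mul_sum, Finset.sum_filter]
    refine Finset.sum_le_sum fun n hn => ?_
    by_cases hnp : (n + h m).Prime
    · rw [if_pos hnp, hwt n hn hnp]
      apply mul_le_mul_of_nonneg_right _ (FL_Wn_nonneg P h cm n)
      unfold Pool.Agent.BG.lp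
      rw [if_pos hnp]
      refine le_trans ?_ hlog2
      have hn2 : n ≤ 2 * N := (Finset.mem_Ioc.1 (Finset.mem_filter.1 hn).1).2
      apply Real.log_le_log
      · exact_mod_cast hnp.pos
      · exact_mod_cast (show n + h m ≤ 2 * N + h m by omega)
    · rw [if_neg hnp]
      unfold Pool.Agent.BG.lp
      rw [if_neg hnp, zero_mul]
  -- the counting lemma
  have hcount := count_prime P hP hinj W hWpos hPW h hd ν N hs.2.2.2.2 m cm (by
    intro x hx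
    rw [hcm]
    unfold restr
    rw [if_neg hx])
  -- the main term
  have hlow : G1 ^ 2 * G2 ^ (k - 1) * (1 - ζ / 5) ≤
      ∑ x, ∑ y, cm x * cm y * ∏ j, Kl (al P j) (x j) (y j) := by
    refine le_trans ?_ (tensor_lower (al P) hα0 hkα cm)
    have e1 := sum_lower P hP hinj g hgh Z Z' hZ'1 hkα ?_ m ?_
    · rw [hcm, hc]
      refine le_trans ?_ e1
      rw [← hG1def, ← hG2def]
      apply mul_le_mul_of_nonneg_left _ (by positivity)
      have hlogZ' : 0 < Real.log Z' := Real.log_pos hZ'1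
      have e2 : 4 * (k:ℝ) * Gsum P (fun a => g a ^ 2 * Real.log a ^ 2) / (G2 * Real.log Z' ^ 2) ≤
          ζ / 10 := by
        rw [div_le_iff₀ (by positivity)]
        exact hg6
      have e3 := (SONE4_exp P ζ (by linarith) hexp hS2 k (by positivity) (by nlinarith)).1
      have e4 := (SONE4_exp P ζ (by linarith) hexp hS2 (2 * (k:ℝ) ^ 2 + 2 * k) (by positivity)
        (by nlinarith)).2
      linarith
    · -- the support
      intro U hU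
      have e2 := hg7 ∅ U (by
        have : pr P ∅ = 1 := by unfold pr; simp
        rw [this, hgh.2.2.1]; exact one_ne_zero) hU
      have : pr P ∅ = 1 := by unfold pr; simp
      rw [this, Nat.cast_one, mul_one] at e2
      exact e2
    · rw [← hG2def]
      exact hg5
  -- the error
  obtain ⟨hc1, hc2⟩ := cv_size (k := k) P hP hinj g hgh.1 hgh.2.1 Z hZ1
  rw [← hc] at hc1 hc2
  have hlogZ : 0 ≤ Real.log Z := Real.log_nonneg hZ1
  have hlev : W * Z ^ 2 ≤ (N : ℝ) ^ (1 / 2 - ζ) := by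
    have e1 : Z ^ 2 = (N : ℝ) ^ (2 * ζ) := by
      rw [hZ, ← Real.rpow_natCast, ← Real.rpow_mul hNr.le]
      congr 1
      push_cast
      ring
    have e2 : (N : ℝ) ^ (1 / 2 - 3 * ζ) * (N : ℝ) ^ (2 * ζ) = (N : ℝ) ^ (1 / 2 - ζ) := by
      rw [← Real.rpow_add hNr]
      congr 1
      ring
    rw [e1, ← e2]
    rw [pow_zero, mul_one] at h5
    exact mul_le_mul_of_nonneg_right h5 (by positivity)
  have herr := SPRM4_err ζ hs hE hgood m (by omega) (by omega) ((1 + Real.log Z) ^ (2 * k)) Z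
    (by positivity) hZ1 hlev cm (by
      intro x
      rw [hcm]
      unfold restr
      split_ifs
      · exact hc1 x
      · rw [abs_zero]; positivity) (by
      intro x hx
      apply hc2
      intro h0
      apply hx
      rw [hcm]
      unfold restr
      split_ifs
      · exact h0
      · rfl)
  have hlogs := FL_logB (N := N) Z hZ1 (by rw [hZlog, ← hℓ]; nlinarith) (4 * k) (4 * k + 30)
    (by omega) (by rw [← hℓ]; linarith) (by omega)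
  rw [← hℓ] at hlogs herr
  have herr2 : ∑ x, ∑ y, |cm x| * |cm y| *
        (Emax (2 * N + h m) (W * dv2 P x y) + Emax (N + h m) (W * dv2 P x y)) ≤
      (ζ / 10) * (N / W.totient) := by
    refine herr.trans ?_
    have e1 : ((1 + Real.log Z) ^ (2 * k)) ^ 2 = (1 + Real.log Z) ^ (4 * k) := by ring
    rw [e1]
    refine hlogs.trans ?_
    have e2 : 20 * W.totient / ζ ≤ ℓ ^ 10 := by
      calc (20 * W.totient / ζ : ℝ) ≤ ℓ := h3
        _ ≤ ℓ ^ 10 := le_self_pow₀ (by linarith) (by norm_num)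
    rw [div_le_iff₀ hζ] at e2
    rw [show (ζ / 10 : ℝ) * (N / W.totient) = (ζ * N) / (10 * W.totient) by field_simp,
      ← mul_div_assoc, div_le_div_iff₀ (by positivity) (by positivity)]
    nlinarith
  -- the end
  have h6 := (abs_le.1 hcount).1
  obtain ⟨X, hXdef⟩ : ∃ X : ℝ,
    X = ∑ n ∈ (win N W ν).filter (fun n => (n + h m).Prime), Wn P h c n := ⟨_, rfl⟩
  obtain ⟨Q, hQdef⟩ : ∃ Q : ℝ,
    Q = ∑ x, ∑ y, cm x * cm y * ∏ j, Kl (al P j) (x j) (y j) := ⟨_, rfl⟩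
  rw [← hXdef] at hX ⊢
  rw [← hQdef] at hlow h6
  have hG : 1 ≤ G1 ^ 2 * G2 ^ (k - 1) := one_le_mul_of_one_le_of_one_le (one_le_pow₀ hG1)
    (one_le_pow₀ hG2)
  obtain ⟨GG, hGG⟩ : ∃ GG : ℝ, GG = G1 ^ 2 * G2 ^ (k - 1) := ⟨_, rfl⟩
  rw [← hGG] at hG hlow
  have hGG0 : 0 < GG := by linarith
  have hQ0 : 0 ≤ Q := le_trans (mul_nonneg hGG0.le (by linarith)) hlow
  have e7 : ((1 - ζ / 100) * N) / W.totient * (GG * (1 - ζ / 5)) ≤
      (th (2 * N + h m) - th (N + h m)) / W.totient * Q := by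
    have e70 : 0 ≤ (1 - ζ / 100) * (N : ℝ) := mul_nonneg (by linarith) hNr.le
    apply mul_le_mul _ hlow (mul_nonneg hGG0.le (by linarith)) _
    · exact div_le_div_of_nonneg_right hth1 hφr.le
    · exact div_nonneg (le_trans e70 hth1) hφr.le
  obtain ⟨Y, hY⟩ : ∃ Y : ℝ, Y = N / W.totient * GG := ⟨_, rfl⟩
  have hY0 : 0 < Y := by rw [hY]; positivity
  have e9 : (N / W.totient : ℝ) ≤ Y := by
    rw [hY]; exact le_mul_of_one_le_right (by positivity) hG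
  have e10 : ((1 - ζ / 100) * N) / W.totient * (GG * (1 - ζ / 5)) =
      Y * ((1 - ζ / 100) * (1 - ζ / 5)) := by rw [hY]; ring
  have e11 : ζ / 10 * (N / W.totient : ℝ) ≤ ζ / 10 * Y := mul_le_mul_of_nonneg_left e9 (by positivity)
  have e8 : Y * ((1 - ζ / 100) * (1 - ζ / 5) - ζ / 10) ≤ ((1 + ζ / 100) * ℓ) * X := by
    refine le_trans ?_ hX
    rw [e10] at e7
    linarith
  have e12 : (1 - ζ) * ((N / (W.totient * ℓ)) * G1 ^ 2 * G2 ^ (k - 1)) = (1 - ζ) * Y / ℓ := by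
    rw [hY, hGG]; field_simp
  rw [e12, div_le_iff₀ hℓpos]
  have e13 : (1 - ζ) * (1 + ζ / 100) ≤ (1 - ζ / 100) * (1 - ζ / 5) - ζ / 10 := by
    nlinarith [sq_nonneg ζ]
  have e14 : Y * ((1 - ζ) * (1 + ζ / 100)) ≤ ((1 + ζ / 100) * ℓ) * X :=
    (mul_le_mul_of_nonneg_left e13 hY0.le).trans e8
  have e15 : (1 + ζ / 100) * ((1 - ζ) * Y) ≤ (1 + ζ / 100) * (X * ℓ) := by linarith
  exact le_of_mul_le_mul_left e15 (by positivity)

end Pool.Agent.BG4
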