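import Pool.Agent.Lib_helper23.BG4F.AUX4
import Pool.Agent.Lib_helper23.BG4F.BV4
import Pool.Agent.Lib_helper23.BG4F.PB
import Pool.Agent.Lib_helper23.BG4F.SONE4
/-! The main sieve estimate. -/

set_option autoImplicit false

namespace Pool.Agent.BG4

open Finset Filter Pool.Agent.BG
open scoped Classical

theorem sieve_main4 : ∃ (k₀ : ℕ) (δ : ℝ), 0 < k₀ ∧ 0 < δ ∧ δ ≤ 1 ∧ ∃ w₀ : ℕ,
    ∀ (h : Fin (4 * k₀) → ℕ) (W ν : ℕ),
    Setup (4 * k₀) w₀ h W ν → ∃ᶠ N : ℕ in atTop, ∃ (w : ℕ → ℝ) (S a : ℝ),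
      (∀ n, 0 ≤ w n) ∧ 0 < S ∧ 0 < a ∧ 100 ≤ δ * (((4 * k₀ : ℕ) : ℝ) * a) ∧
      ∑ n ∈ win N W ν, w n ≤ S ∧
      (∀ i, (1 - δ / 100) * a * S ≤ ∑ n ∈ (win N W ν).filter (fun n => (n + h i).Prime), w n) ∧
      ∀ i l, i ≠ l → ∑ n ∈ (win N W ν).filter (fun n => (n + h i).Prime ∧ (n + h l).Prime), w n ≤
        4 * (1 - δ) * a ^ 2 * S := by
  obtain ⟨δ₀, hδ₀, hδ₀1, ζ₀, hζ₀, hpair⟩ := pair_bound
  obtain ⟨ζ, hζdef⟩ : ∃ ζ : ℝ, ζ = min (min ζ₀ (1 / 1000)) (δ₀ / 2000) := ⟨_, rfl⟩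
  have hζ : 0 < ζ := by rw [hζdef]; positivity
  have hζ0 : ζ ≤ ζ₀ := by rw [hζdef]; exact (min_le_left _ _).trans (min_le_left _ _)
  have hζ1 : ζ ≤ 1 / 1000 := by rw [hζdef]; exact (min_le_left _ _).trans (min_le_right _ _)
  have hζ2 : ζ ≤ δ₀ / 2000 := by rw [hζdef]; exact min_le_right _ _
  set δ := δ₀ / 8 with hδ
  have hδpos : 0 < δ := by positivity
  obtain ⟨J, hJ⟩ : ∃ J : ℕ, 4000 / (δ * ζ) ≤ J := exists_nat_ge _
  obtain ⟨m, hm⟩ : ∃ m : ℕ, 10 * 2 ^ J / ζ ≤ m := exists_nat_ge _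
  have h2J : (0:ℝ) < 2 ^ J := by positivity
  have hmpos : 0 < m := by
    rcases Nat.eq_zero_or_pos m with h0 | h0
    · rw [h0, Nat.cast_zero] at hm
      have : 0 < 10 * 2 ^ J / ζ := by positivity
      linarith
    · exact h0
  refine ⟨m, δ, hmpos, hδpos, by rw [hδ]; linarith, ?_⟩
  obtain ⟨k, hk⟩ : ∃ k : ℕ, k = 4 * m := ⟨_, rfl⟩
  have hkJ : 10 * 2 ^ J ≤ ζ * k := by
    rw [hk]
    push_cast
    rw [div_le_iff₀ hζ] at hm
    have : (0:ℝ) ≤ m := by positivity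
    nlinarith
  rw [← hk]
  have hkpos : 0 < k := by omega
  have hkr : (0:ℝ) < k := by exact_mod_cast hkpos
  set u : ℝ := ζ / (5 * k * (J + 1)) with hu
  have hupos : 0 < u := by rw [hu]; positivity
  obtain ⟨w1, hw1⟩ := sieve_one4 ζ hζ hζ1 J k hkJ
  obtain ⟨w2, hw2⟩ := sieve_prime4 ζ hζ hζ1 J k hkJ
  obtain ⟨w3, hw3⟩ := hpair ζ hζ hζ0 J k hkJ
  obtain ⟨w4, -, hw4⟩ := num4 ζ hζ hζ1 J k hkJ
  refine ⟨max (max w1 w2) (max w3 w4), fun h W ν hs => ?_⟩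
  have hWsf := hs.2.1
  have hWpos : 0 < W := Nat.pos_of_ne_zero hWsf.ne_zero
  have e1 := hw1 h W ν (AUX4_setup hs (by simp))
  have e2 := hw2 h W ν (AUX4_setup hs (by simp))
  have e3 := hw3 h W ν (AUX4_setup hs (by simp))
  have e4 := hw4 h W ν (AUX4_setup hs (by simp))
  refine ((BVd4 ζ hζ (by linarith) (4 * k + 30) (8 * (k + 1) ^ 2)).and_eventually
    (e1.and (e2.and (e3.and (e4.and (eventually_ge_atTop 3)))))).mono ?_
  rintro N ⟨hgood, h1, h2, h3, h4, hN⟩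
  obtain ⟨M, P, hE⟩ := AUX4_enum W N
  have h1' := h1 M P hE
  have h2' := h2 hgood M P hE
  have h3' := h3 hgood M P hE
  obtain ⟨n1, n2, n3, n4, -, -, -, -, -, -, -, -⟩ := h4 M P hE
  have hℓ : 0 < Real.log N := Real.log_pos (by exact_mod_cast (show 1 < N by omega))
  have hNr : (0:ℝ) < N := by exact_mod_cast (show 0 < N by omega)
  have hWr : (0:ℝ) < W := by exact_mod_cast hWpos
  have hφr : (0:ℝ) < W.totient := by exact_mod_cast Nat.totient_pos.2 hWpos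
  set ℓ := Real.log N with hℓdef
  set G1 := G14 P ζ J k N with hG1
  set G2 := G24 P ζ J k N with hG2
  have m1 : (1 - ζ / 100) * ((W.totient : ℝ) / W * ℓ * u * (J / 2 + 1)) ≤ G1 := n1
  have m3 : (1 - ζ / 100) * ((W.totient : ℝ) / W * ℓ * u) ≤ G2 := n3
  have m4 : G2 ≤ (1 + ζ / 100) * ((W.totient : ℝ) / W * ℓ * u * (3 / 2)) := n4
  set f : ℝ := (W.totient : ℝ) / W with hf
  have hfpos : 0 < f := by rw [hf]; positivity
  have hz1 : (99 / 100 : ℝ) ≤ 1 - ζ / 100 := by linarith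
  have hz2 : 1 + ζ / 100 ≤ (101 / 100 : ℝ) := by linarith
  have hz0 : (0:ℝ) < 1 - ζ / 100 := by linarith
  have hG2pos : 0 < G2 := lt_of_lt_of_le (by positivity) m3
  have hG1pos : 0 < G1 := lt_of_lt_of_le (by positivity) m1
  refine ⟨fun n => Wn P h (c4 P ζ J N) n, (1 + ζ) * ((N / W : ℝ) * G2 ^ k),
    G1 ^ 2 / (f * G2 * ℓ), ?_, by positivity, by positivity, ?_, h1', ?_, ?_⟩
  · intro n
    exact sq_nonneg _
  · -- 100 ≤ δ k a
    rw [← mul_div_assoc, ← mul_div_assoc, le_div_iff₀ (by positivity)]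
    have hku : k * u = ζ / (5 * (J + 1)) := by
      rw [hu]; field_simp
    have s1 : ((99 / 100 : ℝ) * (f * ℓ * u * (J / 2 + 1))) ^ 2 ≤ G1 ^ 2 := by
      apply pow_le_pow_left₀ (by positivity)
      refine le_trans ?_ m1
      exact mul_le_mul_of_nonneg_right hz1 (by positivity)
    have s2 : 100 * (f * G2 * ℓ) ≤ 100 * (f * ((101 / 100) * (f * ℓ * u * (3 / 2))) * ℓ) := by
      have : G2 ≤ (101 / 100) * (f * ℓ * u * (3 / 2)) :=
        m4.trans (mul_le_mul_of_nonneg_right hz2 (by positivity))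
      gcongr
    have s4 : δ * ((k : ℝ) * ((99 / 100 : ℝ) * (f * ℓ * u * (J / 2 + 1))) ^ 2) =
        ((9801 / 10000) * (δ * (k * u)) * (J / 2 + 1) ^ 2) * ((f * ℓ) ^ 2 * u) := by ring
    have s5 : (303 / 2 : ℝ) ≤ (9801 / 10000) * (δ * (k * u)) * (J / 2 + 1) ^ 2 := by
      rw [hku]
      have hJ1 : (0:ℝ) < 5 * ((J:ℝ) + 1) := by positivity
      have hJ2 : 4000 ≤ δ * ζ * J := by
        rw [div_le_iff₀ (by positivity)] at hJ
        linarith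
      rw [show (9801 / 10000 : ℝ) * (δ * (ζ / (5 * ((J:ℝ) + 1)))) * ((J:ℝ) / 2 + 1) ^ 2 =
        ((9801 / 10000) * (δ * ζ) * ((J:ℝ) / 2 + 1) ^ 2) / (5 * ((J:ℝ) + 1)) by
          field_simp]
      rw [le_div_iff₀ hJ1]
      have h5 : ((J:ℝ) + 1) * J / 4 ≤ ((J:ℝ) / 2 + 1) ^ 2 := by
        have : (0:ℝ) ≤ J := by positivity
        nlinarith
      have h6 : (9801 / 10000) * (δ * ζ) * (((J:ℝ) + 1) * J / 4) ≤
          (9801 / 10000) * (δ * ζ) * ((J:ℝ) / 2 + 1) ^ 2 :=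
        mul_le_mul_of_nonneg_left h5 (by positivity)
      have h7 : (9801 / 10000) * (δ * ζ) * (((J:ℝ) + 1) * J / 4) =
          (9801 / 40000) * (δ * ζ * J) * ((J:ℝ) + 1) := by ring
      have h8 : (9801 / 40000 : ℝ) * 4000 * ((J:ℝ) + 1) ≤
          (9801 / 40000) * (δ * ζ * J) * ((J:ℝ) + 1) := by
        apply mul_le_mul_of_nonneg_right _ (by positivity)
        linarith
      have : (0:ℝ) ≤ (J:ℝ) + 1 := by positivity
      linarith
    calc 100 * (f * G2 * ℓ) ≤ (303 / 2) * ((f * ℓ) ^ 2 * u) := by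
          refine s2.trans (le_of_eq ?_)
          ring
      _ ≤ ((9801 / 10000) * (δ * (k * u)) * (J / 2 + 1) ^ 2) * ((f * ℓ) ^ 2 * u) :=
          mul_le_mul_of_nonneg_right s5 (by positivity)
      _ = δ * ((k : ℝ) * ((99 / 100 : ℝ) * (f * ℓ * u * (J / 2 + 1))) ^ 2) := s4.symm
      _ ≤ δ * (k * G1 ^ 2) := by
          apply mul_le_mul_of_nonneg_left _ hδpos.le
          exact mul_le_mul_of_nonneg_left s1 hkr.le
  · intro i
    refine le_trans ?_ (h2' i)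
    have hpow : G2 ^ k = G2 ^ (k - 1) * G2 := by
      rw [← pow_succ]; congr 1; omega
    rw [hpow]
    have e5 : (1 - δ / 100) * (G1 ^ 2 / (f * G2 * ℓ)) * ((1 + ζ) * (N / W * (G2 ^ (k - 1) * G2))) =
        ((1 - δ / 100) * (1 + ζ)) * (N / (W.totient * ℓ) * G1 ^ 2 * G2 ^ (k - 1)) := by
      rw [hf]
      field_simp
    rw [e5]
    have hpos : 0 ≤ N / (W.totient * ℓ) * G1 ^ 2 * G2 ^ (k - 1) := by positivity
    apply mul_le_mul_of_nonneg_right _ hpos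
    have : ζ ≤ δ / 250 := by rw [hδ]; linarith
    nlinarith
  · intro i l hil
    refine le_trans (h3' i l hil) ?_
    have hk2 : 2 ≤ k := by omega
    have hpow : G2 ^ k = G2 ^ (k - 2) * G2 ^ 2 := by
      rw [← pow_add]; congr 1; omega
    rw [hpow]
    have e5 : 4 * (1 - δ) * (G1 ^ 2 / (f * G2 * ℓ)) ^ 2 *
        ((1 + ζ) * (N / W * (G2 ^ (k - 2) * G2 ^ 2))) =
        (4 * (1 - δ) * (1 + ζ)) * Yc P ζ J k W N := by
      unfold Yc GG4
      rw [← hG1, ← hG2, ← hℓdef, hf]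
      field_simp
    rw [e5]
    have hpos : 0 ≤ Yc P ζ J k W N := by
      unfold Yc GG4
      positivity
    apply mul_le_mul_of_nonneg_right _ hpos
    have h7 : δ₀ = 8 * δ := by rw [hδ]; ring
    have h8 : 0 ≤ (1 - δ) * ζ := by
      have : δ ≤ 1 := by rw [hδ]; linarith
      exact mul_nonneg (by linarith) hζ.le
    nlinarith

end Pool.Agent.BG4
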